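import Pool.Agent.FF.ASext

/-! The discrete valuations of `K' = K + K y`, `y ^ 2 + y = f`, over a discrete valuation of `K`
(characteristic two): ramified, inert and split case. -/

set_option autoImplicit false
set_option linter.unusedSectionVars false

open Filter

namespace Pool.Agent.FF

/-- `w` lies over `v`. -/
def Over {K K' : Type*} [Field K] [Field K'] [Algebra K K'] (w : DV K') (v : DV K) : Prop :=
  ∃ e : ℤ, 0 < e ∧ ∀ a : K, a ≠ 0 → w.ord (algebraMap K K' a) = e * v.ord a

section general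

variable {K K' : Type*} [Field K] [Field K'] [Algebra K K']

theorem map_ne_zero' {a : K} (h : a ≠ 0) : algebraMap K K' a ≠ 0 := by
  rwa [Ne, map_eq_zero]

theorem Over.G_zero_iff {w : DV K'} {v : DV K} (h : Over w v) (a : K) :
    w.G 0 (algebraMap K K' a) ↔ v.G 0 a := by
  by_cases ha : a = 0
  · simp [ha, DV.G_zero]
  · obtain ⟨e, he, h⟩ := h
    rw [DV.G_iff (map_ne_zero' ha), DV.G_iff ha, h a ha]
    constructor
    · intro h1; exact nonneg_of_mul_nonneg_right h1 he
    · intro h1; positivity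

theorem Over.G_one_iff {w : DV K'} {v : DV K} (h : Over w v) (a : K) :
    w.G 1 (algebraMap K K' a) ↔ v.G 1 a := by
  by_cases ha : a = 0
  · simp [ha, DV.G_zero]
  · obtain ⟨e, he, h⟩ := h
    rw [DV.G_iff (map_ne_zero' ha), DV.G_iff ha, h a ha]
    constructor
    · intro h1
      by_contra h2
      have h3 : v.ord a ≤ 0 := by omega
      have := mul_nonpos_of_nonneg_of_nonpos he.le h3
      omega
    · intro h1; nlinarith

theorem Over.unique {w : DV K'} {v v' : DV K} (h : Over w v) (h' : Over w v') : v = v' :=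
  DV.eq_of_integral_imp fun a ha => (h'.G_zero_iff a).1 ((h.G_zero_iff a).2 ha)

/-- Integral elements over an integral quadratic equation are integral. -/
theorem G_zero_of_quadratic {w : DV K'} {z b g : K'} (h : z ^ 2 + b * z = g) (hb : w.G 0 b)
    (hg : w.G 0 g) : w.G 0 z := by
  by_contra hz
  have hz0 := DV.ne_zero_of_not_G hz
  have hlt := (DV.not_G hz0).1 hz
  have h1 : w.G (w.ord (z ^ 2) + 1) (b * z) := by
    rw [w.ord_pow hz0]
    refine (hb.mul (DV.G_ord z)).mono ?_
    push_cast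
    omega
  have h2 := DV.ord_add_of_lt (pow_ne_zero 2 hz0) h1
  rw [h] at h2
  have h3 := hg.le h2.1
  rw [h2.2, w.ord_pow hz0] at h3
  push_cast at h3
  omega

end general

namespace AS

variable {K K' : Type*} [Field K] [Field K'] [Algebra K K'] [CharP K 2] {f : K} (S : AS K K' f)

/-- Every discrete valuation of `K'` lies over one of `K`. -/
theorem exists_over (S : AS K K' f) (w : DV K') : ∃ v : DV K, Over w v := by
  have hex : ∃ n : ℕ, 0 < n ∧ ∃ a : K, a ≠ 0 ∧ w.ord (algebraMap K K' a) = n := by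
    by_contra hno
    push Not at hno
    have h0 : ∀ a : K, a ≠ 0 → w.ord (algebraMap K K' a) = 0 := by
      intro a ha
      by_contra hne
      rcases lt_or_gt_of_ne hne with h | h
      · refine hno (-w.ord (algebraMap K K' a)).toNat (by omega) a⁻¹ (inv_ne_zero ha) ?_
        rw [map_inv₀, w.ord_inv (map_ne_zero' ha)]
        omega
      · exact hno (w.ord (algebraMap K K' a)).toNat (by omega) a ha (by omega)
    have hG : ∀ a : K, w.G 0 (algebraMap K K' a) := by
      intro a
      by_cases ha : a = 0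
      · simp [ha, DV.G_zero]
      · exact DV.G_of_le (h0 a ha).ge
    have hy : w.G 0 S.y := by
      refine G_zero_of_quadratic (b := 1) (g := algebraMap K K' f) ?_ DV.G_one (hG f)
      rw [one_mul, S.eq]
    have hall : ∀ x : K', w.G 0 x := by
      intro x
      rw [S.spec x]
      exact (hG _).add (by simpa using (hG (S.b x)).mul hy)
    obtain ⟨t, ht, ht1⟩ := w.exists_ord (-1)
    have := (hall t).le ht
    omega
  classical
  obtain ⟨hpos, t, ht, hte⟩ := Nat.find_spec hex
  set e := Nat.find hex with he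
  have hdiv : ∀ a : K, a ≠ 0 → (e : ℤ) ∣ w.ord (algebraMap K K' a) := by
    intro a ha
    have hr0 : 0 ≤ w.ord (algebraMap K K' a) % e := Int.emod_nonneg _ (by omega)
    have hr1 : w.ord (algebraMap K K' a) % e < e := Int.emod_lt_of_pos _ (by omega)
    have hq : w.ord (algebraMap K K' (a * t ^ (-(w.ord (algebraMap K K' a) / e)))) =
        w.ord (algebraMap K K' a) % e := by
      rw [map_mul, map_zpow₀, w.ord_mul _ _ (map_ne_zero' ha) (zpow_ne_zero _ (map_ne_zero' ht)),
        w.ord_zpow (map_ne_zero' ht), hte]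
      have := Int.emod_add_mul_ediv (w.ord (algebraMap K K' a)) e
      linarith
    rcases hr0.lt_or_eq with h | h
    · exfalso
      refine Nat.find_min hex (m := (w.ord (algebraMap K K' a) % e).toNat) (by rw [← he]; omega)
        ⟨by omega, a * t ^ (-(w.ord (algebraMap K K' a) / e)), mul_ne_zero ha (zpow_ne_zero _ ht), ?_⟩
      rw [hq]
      omega
    · exact Int.dvd_of_emod_eq_zero h.symm
  have hmul : ∀ a : K, a ≠ 0 → (e : ℤ) * (w.ord (algebraMap K K' a) / e) =
      w.ord (algebraMap K K' a) := fun a ha => Int.mul_ediv_cancel' (hdiv a ha)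
  have he0 : (0 : ℤ) < e := by omega
  refine ⟨⟨fun a => w.ord (algebraMap K K' a) / e, by simp [w.ord_zero], ?_, ?_, ⟨t, ht, ?_⟩⟩, e, he0,
    fun a ha => (hmul a ha).symm⟩
  · intro a b ha hb
    have h1 := hmul a ha
    have h2 := hmul b hb
    have h3 := hmul (a * b) (mul_ne_zero ha hb)
    rw [map_mul, w.ord_mul _ _ (map_ne_zero' ha) (map_ne_zero' hb)] at h3
    rw [map_mul, w.ord_mul _ _ (map_ne_zero' ha) (map_ne_zero' hb)]
    apply mul_left_cancel₀ he0.ne'
    rw [h3, mul_add, h1, h2]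
  · intro a b ha hb hab
    have h4 := w.ord_add (algebraMap K K' a) (algebraMap K K' b) (map_ne_zero' ha) (map_ne_zero' hb)
      (by rw [← map_add]; exact map_ne_zero' hab)
    rw [← map_add] at h4
    rcases min_le_iff.1 h4 with h5 | h5
    · exact min_le_of_left_le (Int.ediv_le_ediv he0 h5)
    · exact min_le_of_right_le (Int.ediv_le_ediv he0 h5)
  · rw [hte]
    exact Int.ediv_self he0.ne'

/-! ### The ramified case -/

section ram

variable {v : DV K} {e : ℕ} (he : 1 ≤ e) (hf : v.ord f = 1 - 2 * e)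

include he hf

theorem ram_G (n : ℤ) (x : K') : v.G n (S.N x) ↔
    v.G ((n + 1) / 2) (S.a x) ∧ v.G ((n + 2 * e) / 2) (S.b x) := by
  have hf0 : f ≠ 0 := S.f_ne_zero
  unfold N
  by_cases hA : S.a x = 0
  · by_cases hB : S.b x = 0
    · simp [hA, hB, DV.G_zero]
    · have h1 : S.a x ^ 2 + S.a x * S.b x + S.b x ^ 2 * f = S.b x ^ 2 * f := by rw [hA]; ring
      rw [h1, DV.G_iff (mul_ne_zero (pow_ne_zero 2 hB) hf0), DV.G_iff hB,
        v.ord_mul _ _ (pow_ne_zero 2 hB) hf0, v.ord_pow hB, hf, hA]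
      simp only [DV.G_zero, true_and]
      push_cast
      omega
  · by_cases hB : S.b x = 0
    · have h1 : S.a x ^ 2 + S.a x * S.b x + S.b x ^ 2 * f = S.a x ^ 2 := by rw [hB]; ring
      rw [h1, DV.G_iff (pow_ne_zero 2 hA), DV.G_iff hA, v.ord_pow hA, hB]
      simp only [DV.G_zero, and_true]
      push_cast
      omega
    · have hA2 : v.ord (S.a x ^ 2) = 2 * v.ord (S.a x) := by rw [v.ord_pow hA]; push_cast; ring
      have hAB : v.ord (S.a x * S.b x) = v.ord (S.a x) + v.ord (S.b x) := v.ord_mul _ _ hA hB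
      have hB0 : S.b x ^ 2 * f ≠ 0 := mul_ne_zero (pow_ne_zero 2 hB) hf0
      have hB2 : v.ord (S.b x ^ 2 * f) = 2 * v.ord (S.b x) + 1 - 2 * e := by
        rw [v.ord_mul _ _ (pow_ne_zero 2 hB) hf0, v.ord_pow hB, hf]; push_cast; ring
      rw [DV.G_iff hA, DV.G_iff hB]
      rcases lt_or_ge (2 * v.ord (S.a x)) (2 * v.ord (S.b x) + 1 - 2 * e) with h | h
      · have h3 : v.G (v.ord (S.a x ^ 2) + 1) (S.a x * S.b x + S.b x ^ 2 * f) :=
          (DV.G_of_le (by rw [hA2, hAB]; omega)).add (DV.G_of_le (by rw [hA2, hB2]; omega))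
        have h4 := DV.ord_add_of_lt (pow_ne_zero 2 hA) h3
        rw [add_assoc, DV.G_iff h4.1, h4.2, hA2]
        omega
      · have h3 : v.G (v.ord (S.b x ^ 2 * f) + 1) (S.a x ^ 2 + S.a x * S.b x) :=
          (DV.G_of_le (by rw [hA2, hB2]; omega)).add (DV.G_of_le (by rw [hAB, hB2]; omega))
        have h4 := DV.ord_add_of_lt hB0 h3
        rw [add_comm (S.a x ^ 2 + S.a x * S.b x), DV.G_iff h4.1, h4.2, hB2]
        omega

/-- The valuation of `K'` over `v` in the ramified case. -/
noncomputable def ramDV : DV K' where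
  ord x := v.ord (S.N x)
  ord_zero := by
    have : S.N 0 = 0 := by unfold N; simp [S.ab_zero.1, S.ab_zero.2]
    rw [this, v.ord_zero]
  ord_mul x x' hx hx' := by
    rw [S.N_mul, v.ord_mul _ _ (S.N_ne_zero hx) (S.N_ne_zero hx')]
  ord_add x x' hx hx' hxx := by
    set n := min (v.ord (S.N x)) (v.ord (S.N x')) with hn
    have h1 : v.G n (S.N x) := DV.G_of_le (min_le_left _ _)
    have h2 : v.G n (S.N x') := DV.G_of_le (min_le_right _ _)
    rw [S.ram_G he hf] at h1 h2
    have h3 : v.G n (S.N (x + x')) := by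
      rw [S.ram_G he hf, S.a_add, S.b_add]
      exact ⟨h1.1.add h2.1, h1.2.add h2.2⟩
    exact h3.le (S.N_ne_zero hxx)
  exists_one := by
    obtain ⟨s, hs, hs1⟩ := v.exists_ord e
    have h0 : algebraMap K K' s * S.y ≠ 0 := by
      refine mul_ne_zero (map_ne_zero' hs) fun h => ?_
      exact S.y_notMem 0 (by rw [h, map_zero])
    refine ⟨algebraMap K K' s * S.y, h0, ?_⟩
    have h1 : S.N (algebraMap K K' s * S.y) = s ^ 2 * f := by
      unfold N
      rw [(S.ab_smul s S.y).1, (S.ab_smul s S.y).2, S.ab_y.1, S.ab_y.2]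
      ring
    rw [h1, v.ord_mul _ _ (pow_ne_zero 2 hs) S.f_ne_zero, v.ord_pow hs, hs1, hf]
    push_cast
    ring

theorem ramDV_G (n : ℤ) (x : K') : (S.ramDV he hf).G n x ↔
    v.G ((n + 1) / 2) (S.a x) ∧ v.G ((n + 2 * e) / 2) (S.b x) := by
  rw [← S.ram_G he hf]
  by_cases hx : x = 0
  · have : S.N 0 = 0 := by unfold N; simp [S.ab_zero.1, S.ab_zero.2]
    simp [hx, DV.G_zero, this]
  · rw [DV.G_iff hx, DV.G_iff (S.N_ne_zero hx)]
    rfl

theorem ramDV_map (c : K) : (S.ramDV he hf).ord (algebraMap K K' c) = 2 * v.ord c := by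
  by_cases hc : c = 0
  · simp [hc, DV.ord_zero]
  · have : S.N (algebraMap K K' c) = c ^ 2 := by
      unfold N
      rw [(S.ab_map c).1, (S.ab_map c).2]
      ring
    change v.ord (S.N _) = _
    rw [this, v.ord_pow hc]
    push_cast
    ring

theorem ramDV_over : Over (S.ramDV he hf) v := ⟨2, by norm_num, fun c _ => S.ramDV_map he hf c⟩

theorem ramDV_int (x : K') : (S.ramDV he hf).G 0 x ↔ v.G 0 (S.a x) ∧ v.G e (S.b x) := by
  rw [S.ramDV_G he hf]
  have h1 : ((0 : ℤ) + 1) / 2 = 0 := by norm_num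
  have h2 : ((0 : ℤ) + 2 * e) / 2 = e := by omega
  rw [h1, h2]

theorem ramDV_unique {w : DV K'} (hw : Over w v) : w = S.ramDV he hf := by
  refine (DV.eq_of_integral_imp fun x hx => ?_).symm
  rw [S.ramDV_int he hf] at hx
  rw [S.spec x]
  refine ((hw.G_zero_iff _).2 hx.1).add ?_
  refine G_zero_of_quadratic (b := algebraMap K K' (S.b x)) (g := algebraMap K K' (S.b x ^ 2 * f)) ?_
    ((hw.G_zero_iff _).2 (hx.2.mono (by omega))) ((hw.G_zero_iff _).2 ?_)
  · rw [map_mul, map_pow, ← S.eq]
    ring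
  · have := (hx.2.pow 2).mul (DV.G_ord (v := v) f)
    rw [hf] at this
    refine this.mono ?_
    push_cast
    omega

theorem ramDV_residue {x : K'} (hx : (S.ramDV he hf).G 0 x) :
    v.G 0 (S.a x) ∧ (S.ramDV he hf).G 1 (x + algebraMap K K' (S.a x)) := by
  have h2 : (2 : K) = 0 := CharTwo.two_eq_zero
  have h := (S.ramDV_int he hf x).1 hx
  refine ⟨h.1, ?_⟩
  have hA : S.a (x + algebraMap K K' (S.a x)) = 0 := by
    rw [S.a_add, (S.ab_map _).1]
    linear_combination (S.a x) * h2
  have hB : S.b (x + algebraMap K K' (S.a x)) = S.b x := by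
    rw [S.b_add, (S.ab_map _).2, add_zero]
  rw [S.ramDV_G he hf, hA, hB]
  exact ⟨DV.G_zero _, h.2.mono (by omega)⟩

end ram

/-! ### The inert case -/

section inert

variable {v : DV K} (hf : v.G 0 f) (hr : ∀ c : K, v.G 0 c → ¬ v.G 1 (c ^ 2 + c + f))

include hf hr

theorem inert_ord (x : K') : ∃ m : ℤ, v.ord (S.N x) = 2 * m ∧
    ∀ n : ℤ, v.G (2 * n) (S.N x) ↔ v.G n (S.a x) ∧ v.G n (S.b x) := by
  by_cases hx : x = 0
  · have : S.N 0 = 0 := by unfold N; simp [S.ab_zero.1, S.ab_zero.2]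
    refine ⟨0, ?_, fun n => ?_⟩
    · rw [hx, this, v.ord_zero]; ring
    · rw [hx, this, S.ab_zero.1, S.ab_zero.2]
      simp [DV.G_zero]
  have hN0 := S.N_ne_zero hx
  by_cases hB : S.b x = 0
  · have hA : S.a x ≠ 0 := by
      intro hA
      apply hx
      rw [S.spec x, hA, hB]
      simp
    have h1 : S.N x = S.a x ^ 2 := by unfold N; rw [hB]; ring
    have h2 : v.ord (S.N x) = 2 * v.ord (S.a x) := by rw [h1, v.ord_pow hA]; push_cast; ring
    refine ⟨_, h2, fun n => ?_⟩
    rw [DV.G_iff hN0, h2, DV.G_iff hA, hB]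
    simp only [DV.G_zero, and_true]
    omega
  · by_cases hA : v.G (v.ord (S.b x)) (S.a x)
    · have h1 : S.N x = S.b x ^ 2 * ((S.a x / S.b x) ^ 2 + S.a x / S.b x + f) := by
        unfold N; field_simp
      have hq : v.G 0 (S.a x / S.b x) := by
        have h3 : v.G (-v.ord (S.b x)) (S.b x)⁻¹ := DV.G_of_le (by rw [v.ord_inv hB])
        have := hA.mul h3
        rw [add_neg_cancel, ← div_eq_mul_inv] at this
        exact this
      have h4 := hr _ hq
      have h5 : v.G 0 ((S.a x / S.b x) ^ 2 + S.a x / S.b x + f) := by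
        refine (DV.G.add ?_ hq).add hf
        simpa using hq.pow 2
      have h6 := DV.ne_zero_of_not_G h4
      have h7 : v.ord ((S.a x / S.b x) ^ 2 + S.a x / S.b x + f) = 0 := by
        have := h5.le h6
        have := (DV.not_G h6).1 h4
        omega
      have h2 : v.ord (S.N x) = 2 * v.ord (S.b x) := by
        rw [h1, v.ord_mul _ _ (pow_ne_zero 2 hB) h6, v.ord_pow hB, h7]; push_cast; ring
      refine ⟨_, h2, fun n => ?_⟩
      rw [DV.G_iff hN0, h2, DV.G_iff hB]
      constructor
      · intro h; exact ⟨hA.mono (by omega), by omega⟩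
      · intro h; have := h.2; omega
    · have hA0 := DV.ne_zero_of_not_G hA
      have hlt := (DV.not_G hA0).1 hA
      have hA2 : v.ord (S.a x ^ 2) = 2 * v.ord (S.a x) := by rw [v.ord_pow hA0]; push_cast; ring
      have h3 : v.G (v.ord (S.a x ^ 2) + 1) (S.a x * S.b x + S.b x ^ 2 * f) := by
        refine (DV.G_of_le ?_).add ?_
        · rw [hA2, v.ord_mul _ _ hA0 hB]; omega
        · have := ((DV.G_ord (v := v) (S.b x)).pow 2).mul hf
          refine this.mono ?_
          rw [hA2]
          push_cast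
          omega
      have h4 := DV.ord_add_of_lt (pow_ne_zero 2 hA0) h3
      have h2 : v.ord (S.N x) = 2 * v.ord (S.a x) := by
        unfold N
        rw [add_assoc, h4.2, hA2]
      refine ⟨_, h2, fun n => ?_⟩
      rw [DV.G_iff hN0, h2, DV.G_iff hB, DV.G_iff hA0]
      omega

/-- The valuation of `K'` over `v` in the inert case. -/
noncomputable def inertDV : DV K' where
  ord x := v.ord (S.N x) / 2
  ord_zero := by
    have : S.N 0 = 0 := by unfold N; simp [S.ab_zero.1, S.ab_zero.2]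
    rw [this, v.ord_zero]; rfl
  ord_mul x x' hx hx' := by
    obtain ⟨m, hm, -⟩ := S.inert_ord hf hr x
    obtain ⟨m', hm', -⟩ := S.inert_ord hf hr x'
    rw [S.N_mul, v.ord_mul _ _ (S.N_ne_zero hx) (S.N_ne_zero hx'), hm, hm']
    omega
  ord_add x x' hx hx' hxx := by
    obtain ⟨m, hm, h1⟩ := S.inert_ord hf hr x
    obtain ⟨m', hm', h2⟩ := S.inert_ord hf hr x'
    obtain ⟨m'', hm'', h3⟩ := S.inert_ord hf hr (x + x')
    have h4 := (h1 (min m m')).1 (DV.G_of_le (by rw [hm]; have := min_le_left m m'; omega))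
    have h5 := (h2 (min m m')).1 (DV.G_of_le (by rw [hm']; have := min_le_right m m'; omega))
    have h6 := (h3 (min m m')).2 (by
      rw [S.a_add, S.b_add]
      exact ⟨h4.1.add h5.1, h4.2.add h5.2⟩)
    have h7 := h6.le (S.N_ne_zero hxx)
    rw [hm'']
    rw [hm, hm']
    have e1 : 2 * m / 2 = m := by omega
    have e2 : 2 * m' / 2 = m' := by omega
    rw [e1, e2]
    omega
  exists_one := by
    obtain ⟨t, ht, ht1⟩ := v.exists_one
    refine ⟨algebraMap K K' t, map_ne_zero' ht, ?_⟩
    have : S.N (algebraMap K K' t) = t ^ 2 := by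
      unfold N
      rw [(S.ab_map t).1, (S.ab_map t).2]
      ring
    rw [this, v.ord_pow ht, ht1]
    rfl

theorem inertDV_G (n : ℤ) (x : K') : (S.inertDV hf hr).G n x ↔ v.G n (S.a x) ∧ v.G n (S.b x) := by
  obtain ⟨m, hm, h1⟩ := S.inert_ord hf hr x
  rw [← h1 n]
  by_cases hx : x = 0
  · have : S.N 0 = 0 := by unfold N; simp [S.ab_zero.1, S.ab_zero.2]
    simp [hx, DV.G_zero, this]
  · rw [DV.G_iff hx, DV.G_iff (S.N_ne_zero hx)]
    change n ≤ v.ord (S.N x) / 2 ↔ _
    rw [hm]
    omega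

theorem inertDV_map (c : K) : (S.inertDV hf hr).ord (algebraMap K K' c) = v.ord c := by
  by_cases hc : c = 0
  · simp [hc, DV.ord_zero]
  · have : S.N (algebraMap K K' c) = c ^ 2 := by
      unfold N
      rw [(S.ab_map c).1, (S.ab_map c).2]
      ring
    change v.ord (S.N _) / 2 = _
    rw [this, v.ord_pow hc]
    push_cast
    omega

theorem inertDV_over : Over (S.inertDV hf hr) v :=
  ⟨1, by norm_num, fun c _ => by rw [S.inertDV_map hf hr c, one_mul]⟩

theorem inertDV_unique {w : DV K'} (hw : Over w v) : w = S.inertDV hf hr := by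
  refine (DV.eq_of_integral_imp fun x hx => ?_).symm
  rw [S.inertDV_G hf hr] at hx
  rw [S.spec x]
  have hy : w.G 0 S.y := by
    refine G_zero_of_quadratic (b := 1) (g := algebraMap K K' f) ?_ DV.G_one ((hw.G_zero_iff _).2 hf)
    rw [one_mul, S.eq]
  exact ((hw.G_zero_iff _).2 hx.1).add (by simpa using ((hw.G_zero_iff _).2 hx.2).mul hy)

end inert

/-! ### The split case -/

section split

variable {v : DV K}

/-- The partial sums `f + f ^ 2 + .. + f ^ (2 ^ n)` of the root of `z ^ 2 + z = f`. -/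
def eta (f : K) : ℕ → K
  | 0 => f
  | n + 1 => eta f n + f ^ (2 ^ (n + 1))

theorem eta_eq (n : ℕ) : eta f n ^ 2 + eta f n = f + f ^ (2 ^ (n + 1)) := by
  have h2 : (2 : K) = 0 := CharTwo.two_eq_zero
  induction n with
  | zero => simp only [eta]; ring
  | succ n ih =>
    simp only [eta]
    have h3 : (f ^ (2 ^ (n + 1))) ^ 2 = f ^ (2 ^ (n + 1 + 1)) := by rw [← pow_mul, ← pow_succ]
    linear_combination ih + h3 + (eta f n * f ^ (2 ^ (n + 1)) + f ^ (2 ^ (n + 1))) * h2

theorem G_pow_two (hf : v.G 1 f) (n : ℕ) : v.G (2 ^ n) (f ^ (2 ^ n)) := by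
  have := hf.pow (2 ^ n)
  simpa using this

theorem eta_add (hf : v.G 1 f) {m n : ℕ} (h : m ≤ n) : v.G (2 ^ (m + 1)) (eta f n + eta f m) := by
  have h2 : (2 : K) = 0 := CharTwo.two_eq_zero
  induction n, h using Nat.le_induction with
  | base => rw [CharTwo.add_self_eq_zero]; exact DV.G_zero _
  | succ n hmn ih =>
    have h3 : eta f (n + 1) + eta f m = (eta f n + eta f m) + f ^ (2 ^ (n + 1)) := by
      simp only [eta]; ring
    rw [h3]
    refine ih.add ((G_pow_two hf (n + 1)).mono ?_)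
    exact_mod_cast Nat.pow_le_pow_right (by norm_num) (by omega : m + 1 ≤ n + 1)

theorem eta_G (hf : v.G 1 f) (n : ℕ) : v.G 1 (eta f n) := by
  induction n with
  | zero => exact hf
  | succ n ih =>
    refine ih.add ((G_pow_two hf (n + 1)).mono ?_)
    exact_mod_cast Nat.one_le_two_pow

theorem exists_two_pow (m : ℤ) : ∃ n : ℕ, m ≤ 2 ^ (n + 1) := by
  refine ⟨m.toNat, ?_⟩
  have h1 : m.toNat < 2 ^ (m.toNat + 1) := by
    calc m.toNat < 2 ^ m.toNat := Nat.lt_two_pow_self
      _ ≤ _ := Nat.pow_le_pow_right (by norm_num) (by omega)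
  have h2 : m ≤ m.toNat := Int.self_le_toNat m
  have h3 : ((m.toNat : ℕ) : ℤ) ≤ ((2 ^ (m.toNat + 1) : ℕ) : ℤ) := by exact_mod_cast h1.le
  push_cast at h3
  linarith

theorem eventually_two_pow (m : ℤ) : ∀ᶠ n : ℕ in atTop, m ≤ 2 ^ (n + 1) := by
  obtain ⟨n, hn⟩ := exists_two_pow m
  filter_upwards [eventually_ge_atTop n] with k hk
  refine hn.trans ?_
  exact_mod_cast Nat.pow_le_pow_right (by norm_num) (by omega : n + 1 ≤ k + 1)

/-- The eventual order of `a + b η_n`. -/
def Ev (v : DV K) (x : K') (d : ℤ) : Prop :=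
  ∀ᶠ n : ℕ in atTop, S.a x + S.b x * eta f n ≠ 0 ∧ v.ord (S.a x + S.b x * eta f n) = d

theorem Ev.unique {S : AS K K' f} {x : K'} {d d' : ℤ} (h : S.Ev v x d) (h' : S.Ev v x d') :
    d = d' := by
  obtain ⟨n, hn, hn'⟩ := (h.and h').exists
  rw [← hn.2, ← hn'.2]

theorem exists_ev (hf : v.G 1 f) {x : K'} (hx : x ≠ 0) : ∃ d, S.Ev v x d := by
  have h2 : (2 : K) = 0 := CharTwo.two_eq_zero
  by_cases hB : S.b x = 0
  · have hA : S.a x ≠ 0 := by
      intro hA
      apply hx
      rw [S.spec x, hA, hB]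
      simp
    refine ⟨v.ord (S.a x), Eventually.of_forall fun n => ?_⟩
    rw [hB, zero_mul, add_zero]
    exact ⟨hA, rfl⟩
  have hex : ∃ n : ℕ, ¬ v.G (v.ord (S.b x) + 2 ^ (n + 1)) (S.a x + S.b x * eta f n) := by
    by_contra hno
    push Not at hno
    obtain ⟨n, hn⟩ := exists_two_pow (v.ord (S.N x) - 2 * v.ord (S.b x) + 1)
    have h3 : S.N x = (S.a x + S.b x * eta f n) ^ 2 + S.b x * (S.a x + S.b x * eta f n) +
        S.b x ^ 2 * f ^ (2 ^ (n + 1)) := by
      unfold N
      linear_combination (-(S.b x) ^ 2) * eta_eq (f := f) n +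
        (-(S.b x * S.a x * eta f n) - S.b x ^ 2 * f ^ (2 ^ (n + 1))) * h2
    have hpos : (0 : ℤ) < 2 ^ (n + 1) := by positivity
    have h4 : v.G (v.ord (S.N x) + 1) (S.N x) := by
      rw [h3]
      refine (DV.G.add ?_ ?_).add ?_
      · refine ((hno n).pow 2).mono ?_
        rw [← h3]
        push_cast
        linarith
      · refine ((DV.G_ord (v := v) (S.b x)).mul (hno n)).mono ?_
        rw [← h3]
        linarith
      · refine (((DV.G_ord (v := v) (S.b x)).pow 2).mul (G_pow_two hf (n + 1))).mono ?_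
        rw [← h3]
        push_cast
        linarith
    have := h4.le (S.N_ne_zero hx)
    omega
  obtain ⟨n, hn⟩ := hex
  have h0 := DV.ne_zero_of_not_G hn
  have hlt := (DV.not_G h0).1 hn
  refine ⟨v.ord (S.a x + S.b x * eta f n), ?_⟩
  filter_upwards [eventually_ge_atTop n] with m hm
  have h3 : S.a x + S.b x * eta f m = (S.a x + S.b x * eta f n) + S.b x * (eta f m + eta f n) := by
    linear_combination (-(S.b x * eta f n)) * h2
  rw [h3]
  exact DV.ord_add_of_lt h0 (((DV.G_ord (v := v) (S.b x)).mul (eta_add hf hm)).mono (by omega))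

open Classical in
/-- The first of the two valuations of `K'` over `v` in the split case; the second one is
`S.conj.splitDV`. -/
noncomputable def splitDV (hf : v.G 1 f) : DV K' where
  ord x := if h : x = 0 then 0 else Classical.choose (S.exists_ev hf h)
  ord_zero := by simp
  ord_mul x x' hx hx' := by
    have h2 : (2 : K) = 0 := CharTwo.two_eq_zero
    have hxx : x * x' ≠ 0 := mul_ne_zero hx hx'
    simp only [hx, hx', hxx, dif_neg, not_false_eq_true]
    have h := Classical.choose_spec (S.exists_ev hf hx)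
    have h' := Classical.choose_spec (S.exists_ev hf hx')
    have h'' := Classical.choose_spec (S.exists_ev hf hxx)
    set d := Classical.choose (S.exists_ev hf hx)
    set d' := Classical.choose (S.exists_ev hf hx')
    set d'' := Classical.choose (S.exists_ev hf hxx)
    by_cases hB : S.b x = 0 ∨ S.b x' = 0
    · obtain ⟨n, ⟨hn, hn'⟩, hn''⟩ := ((h.and h').and h'').exists
      have h3 : S.a (x * x') + S.b (x * x') * eta f n =
          (S.a x + S.b x * eta f n) * (S.a x' + S.b x' * eta f n) := by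
        rw [(S.ab_mul x x').1, (S.ab_mul x x').2]
        rcases hB with hB | hB <;> rw [hB] <;> ring
      rw [← hn''.2, h3, v.ord_mul _ _ hn.1 hn'.1, hn.2, hn'.2]
    · push Not at hB
      obtain ⟨n, ⟨⟨hn, hn'⟩, hn''⟩, hp⟩ := (((h.and h').and h'').and
        (eventually_two_pow (d + d' + 1 - v.ord (S.b x) - v.ord (S.b x')))).exists
      have h3 : S.a (x * x') + S.b (x * x') * eta f n =
          (S.a x + S.b x * eta f n) * (S.a x' + S.b x' * eta f n) +
            S.b x * S.b x' * f ^ (2 ^ (n + 1)) := by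
        rw [(S.ab_mul x x').1, (S.ab_mul x x').2]
        linear_combination (S.b x * S.b x') * eta_eq (f := f) n +
          (S.b x * S.b x' * (f - eta f n ^ 2)) * h2
      have h4 := DV.ord_add_of_lt (mul_ne_zero hn.1 hn'.1)
        (b := S.b x * S.b x' * f ^ (2 ^ (n + 1))) (v := v) (by
          rw [v.ord_mul _ _ hn.1 hn'.1, hn.2, hn'.2]
          refine (((DV.G_ord (v := v) (S.b x)).mul (DV.G_ord (v := v) (S.b x'))).mul
            (G_pow_two hf (n + 1))).mono ?_
          linarith)
      rw [← h3] at h4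
      rw [← hn''.2, h4.2, v.ord_mul _ _ hn.1 hn'.1, hn.2, hn'.2]
  ord_add x x' hx hx' hxx := by
    simp only [hx, hx', hxx, dif_neg, not_false_eq_true]
    have h := Classical.choose_spec (S.exists_ev hf hx)
    have h' := Classical.choose_spec (S.exists_ev hf hx')
    have h'' := Classical.choose_spec (S.exists_ev hf hxx)
    set d := Classical.choose (S.exists_ev hf hx)
    set d' := Classical.choose (S.exists_ev hf hx')
    set d'' := Classical.choose (S.exists_ev hf hxx)
    obtain ⟨n, ⟨hn, hn'⟩, hn''⟩ := ((h.and h').and h'').exists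
    have h3 : S.a (x + x') + S.b (x + x') * eta f n =
        (S.a x + S.b x * eta f n) + (S.a x' + S.b x' * eta f n) := by
      rw [S.a_add, S.b_add]; ring
    have h4 := v.ord_add _ _ hn.1 hn'.1 (by rw [← h3]; exact hn''.1)
    rw [← h3, hn.2, hn'.2, hn''.2] at h4
    exact h4
  exists_one := by
    obtain ⟨t, ht, ht1⟩ := v.exists_one
    have h0 : algebraMap K K' t ≠ 0 := map_ne_zero' ht
    refine ⟨algebraMap K K' t, h0, ?_⟩
    simp only [h0, dif_neg, not_false_eq_true]
    have h := Classical.choose_spec (S.exists_ev hf h0)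
    set d := Classical.choose (S.exists_ev hf h0)
    obtain ⟨n, hn⟩ := h.exists
    rw [← hn.2, (S.ab_map t).1, (S.ab_map t).2, zero_mul, add_zero, ht1]

theorem splitDV_ev (hf : v.G 1 f) {x : K'} (hx : x ≠ 0) : S.Ev v x ((S.splitDV hf).ord x) := by
  have : (S.splitDV hf).ord x = Classical.choose (S.exists_ev hf hx) := by
    simp only [splitDV, hx, dif_neg, not_false_eq_true]
  rw [this]
  exact Classical.choose_spec (S.exists_ev hf hx)

theorem splitDV_G (hf : v.G 1 f) (n : ℤ) (x : K') : (S.splitDV hf).G n x ↔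
    ∀ᶠ m : ℕ in atTop, v.G n (S.a x + S.b x * eta f m) := by
  by_cases hx : x = 0
  · simp [hx, DV.G_zero, S.ab_zero.1, S.ab_zero.2]
  · have h := S.splitDV_ev hf hx
    rw [DV.G_iff hx]
    constructor
    · intro h1
      filter_upwards [h] with m hm
      exact DV.G_of_le (by rw [hm.2]; exact h1)
    · intro h1
      obtain ⟨m, hm, hm'⟩ := (h.and h1).exists
      have := hm'.le hm.1
      rwa [hm.2] at this

theorem splitDV_map (hf : v.G 1 f) (c : K) : (S.splitDV hf).ord (algebraMap K K' c) = v.ord c := by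
  by_cases hc : c = 0
  · simp [hc, DV.ord_zero]
  · obtain ⟨n, hn⟩ := (S.splitDV_ev hf (map_ne_zero' hc)).exists
    rw [← hn.2, (S.ab_map c).1, (S.ab_map c).2, zero_mul, add_zero]

theorem splitDV_over (hf : v.G 1 f) : Over (S.splitDV hf) v :=
  ⟨1, by norm_num, fun c _ => by rw [S.splitDV_map hf c, one_mul]⟩

theorem split_both (hf : v.G 1 f) (n : ℤ) (x : K') :
    (S.splitDV hf).G n x ∧ (S.conj.splitDV hf).G n x ↔ v.G n (S.a x) ∧ v.G n (S.b x) := by
  have h2 : (2 : K) = 0 := CharTwo.two_eq_zero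
  rw [S.splitDV_G hf, S.conj.splitDV_G hf, (S.conj_ab x).1, (S.conj_ab x).2]
  constructor
  · rintro ⟨h, h'⟩
    obtain ⟨m, hm, hm'⟩ := (h.and h').exists
    have hb : v.G n (S.b x) := by
      have := hm.add hm'
      have h3 : S.a x + S.b x * eta f m + (S.a x + S.b x + S.b x * eta f m) = S.b x := by
        linear_combination (S.a x + S.b x * eta f m) * h2
      rwa [h3] at this
    refine ⟨?_, hb⟩
    have h4 := hm.add ((hb.mul (eta_G hf m)).mono (by omega : n ≤ n + 1))
    have h5 : S.a x + S.b x * eta f m + S.b x * eta f m = S.a x := by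
      linear_combination (S.b x * eta f m) * h2
    rwa [h5] at h4
  · rintro ⟨ha, hb⟩
    refine ⟨Eventually.of_forall fun m => ha.add ((hb.mul (eta_G hf m)).mono (by omega)),
      Eventually.of_forall fun m => (ha.add hb).add ((hb.mul (eta_G hf m)).mono (by omega))⟩

theorem splitDV_y (hf : v.G 1 f) : (S.splitDV hf).G 1 S.y ∧ (S.conj.splitDV hf).G 0 S.y ∧
    ¬ (S.conj.splitDV hf).G 1 S.y := by
  rw [S.splitDV_G hf, S.conj.splitDV_G hf, S.conj.splitDV_G hf, (S.conj_ab _).1, (S.conj_ab _).2,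
    S.ab_y.1, S.ab_y.2]
  refine ⟨Eventually.of_forall fun m => ?_, Eventually.of_forall fun m => ?_, fun h => ?_⟩
  · simpa using eta_G hf m
  · refine DV.G.add ?_ ?_
    · simpa using DV.G_one (v := v)
    · simpa using (eta_G hf m).mono (by norm_num : (0 : ℤ) ≤ 1)
  · obtain ⟨m, hm⟩ := h.exists
    have h3 := hm.add (eta_G hf m)
    have h2 : (2 : K) = 0 := CharTwo.two_eq_zero
    have h4 : (0 : K) + 1 + 1 * eta f m + eta f m = 1 := by linear_combination (eta f m) * h2
    rw [h4] at h3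
    have := h3.le one_ne_zero
    rw [v.ord_one] at this
    omega

theorem splitDV_ne (hf : v.G 1 f) : S.splitDV hf ≠ S.conj.splitDV hf := by
  intro h
  have := S.splitDV_y hf
  rw [← h] at this
  exact this.2.2 this.1

theorem splitDV_eq_of (hf : v.G 1 f) {w : DV K'} (hw : Over w v) (hy : w.G 1 S.y) :
    w = S.splitDV hf := by
  refine (DV.eq_of_integral_imp fun x hx => ?_).symm
  have h2 := two' K K'
  rw [S.splitDV_G hf] at hx
  by_cases hB : S.b x = 0
  · obtain ⟨m, hm⟩ := hx.exists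
    rw [hB, zero_mul, add_zero] at hm
    rw [S.spec x, hB, map_zero, zero_mul, add_zero]
    exact (hw.G_zero_iff _).2 hm
  obtain ⟨m, hm, hp⟩ := (hx.and (eventually_two_pow (-v.ord (S.b x)))).exists
  have h3 : x = algebraMap K K' (S.a x + S.b x * eta f m) +
      algebraMap K K' (S.b x) * (S.y + algebraMap K K' (eta f m)) := by
    conv_lhs => rw [S.spec x]
    simp only [map_add, map_mul]
    linear_combination (-(algebraMap K K' (S.b x) * algebraMap K K' (eta f m))) * h2
  rw [h3]
  refine ((hw.G_zero_iff _).2 hm).add ?_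
  -- `y + η` is small
  have h4 : (S.y + algebraMap K K' (eta f m)) * (S.y + algebraMap K K' (eta f m) + 1) =
      algebraMap K K' (f ^ (2 ^ (m + 1))) := by
    have h5 := congrArg (algebraMap K K') (eta_eq (f := f) m)
    simp only [map_add, map_pow] at h5
    rw [map_pow]
    linear_combination S.eq + h5 + (S.y * algebraMap K K' (eta f m) + algebraMap K K' f) * h2
  have h6 : w.G 1 (S.y + algebraMap K K' (eta f m)) := hy.add ((hw.G_one_iff _).2 (eta_G hf m))
  have h7 : w.ord (S.y + algebraMap K K' (eta f m) + 1) = 0 ∧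
      S.y + algebraMap K K' (eta f m) + 1 ≠ 0 := by
    have h8 := DV.ord_add_of_lt (v := w) (a := (1 : K')) one_ne_zero
      (b := S.y + algebraMap K K' (eta f m)) (by rw [w.ord_one]; simpa using h6)
    rw [add_comm (1 : K')] at h8
    exact ⟨by rw [h8.2, w.ord_one], h8.1⟩
  have h8 : S.y + algebraMap K K' (eta f m) ≠ 0 := by
    intro h0
    apply S.y_notMem (eta f m)
    linear_combination h0 - (algebraMap K K' (eta f m)) * h2
  have hf0 : f ≠ 0 := S.f_ne_zero
  have h9 := congrArg w.ord h4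
  obtain ⟨e, he, hwe⟩ := hw
  rw [w.ord_mul _ _ h8 h7.2, h7.1, add_zero, hwe _ (pow_ne_zero _ hf0), v.ord_pow hf0] at h9
  have hvf := hf.le hf0
  refine DV.G_of_le ?_
  rw [w.ord_mul _ _ (map_ne_zero' hB) h8, h9, hwe _ hB]
  push_cast
  have h10 : (0 : ℤ) ≤ v.ord (S.b x) + 2 ^ (m + 1) * v.ord f := by
    have : (2 : ℤ) ^ (m + 1) * 1 ≤ 2 ^ (m + 1) * v.ord f :=
      mul_le_mul_of_nonneg_left hvf (by positivity)
    linarith
  have := mul_nonneg he.le h10
  linarith

theorem splitDV_cases (hf : v.G 1 f) {w : DV K'} (hw : Over w v) :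
    w = S.splitDV hf ∨ w = S.conj.splitDV hf := by
  have h2 := two' K K'
  have hf0 : f ≠ 0 := S.f_ne_zero
  have hy0 : w.G 0 S.y := by
    refine G_zero_of_quadratic (b := 1) (g := algebraMap K K' f) ?_ DV.G_one
      ((hw.G_zero_iff _).2 (hf.mono (by norm_num)))
    rw [one_mul, S.eq]
  by_cases hy : w.G 1 S.y
  · exact Or.inl (S.splitDV_eq_of hf hw hy)
  · right
    refine S.conj.splitDV_eq_of hf hw ?_
    by_contra hy1
    have h3 : S.y * S.conj.y = algebraMap K K' f := by rw [conj_y, ← S.eq]; ring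
    have h4 := DV.ne_zero_of_not_G hy
    have h5 := DV.ne_zero_of_not_G hy1
    have h6 := (DV.not_G h4).1 hy
    have h7 := (DV.not_G h5).1 hy1
    have h8 := congrArg w.ord h3
    rw [w.ord_mul _ _ h4 h5] at h8
    have h9 := ((hw.G_one_iff f).2 hf).le (map_ne_zero' hf0)
    omega

theorem splitDV_residue (hf : v.G 1 f) {x : K'} (hx : (S.splitDV hf).G 0 x) :
    ∃ c : K, v.G 0 c ∧ (S.splitDV hf).G 1 (x + algebraMap K K' c) := by
  have h2 : (2 : K) = 0 := CharTwo.two_eq_zero
  rw [S.splitDV_G hf] at hx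
  obtain ⟨m, hm, hp⟩ := (hx.and (eventually_two_pow (1 - v.ord (S.b x)))).exists
  refine ⟨_, hm, ?_⟩
  rw [S.splitDV_G hf, S.a_add, S.b_add, (S.ab_map _).1, (S.ab_map _).2, add_zero]
  filter_upwards [eventually_ge_atTop m] with n hn
  have h3 : S.a x + (S.a x + S.b x * eta f m) + S.b x * eta f n =
      S.b x * (eta f n + eta f m) := by linear_combination (S.a x) * h2
  rw [h3]
  exact ((DV.G_ord (v := v) (S.b x)).mul (eta_add hf hn)).mono (by linarith)

/-- Approximation at the two places. -/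
theorem split_approx (hf : v.G 1 f) (x₁ x₂ : K') :
    ∃ x : K', (S.splitDV hf).G 0 (x + x₁) ∧ (S.conj.splitDV hf).G 0 (x + x₂) := by
  have h2 := two' K K'
  have hk2 : (2 : K) = 0 := CharTwo.two_eq_zero
  by_cases hx : x₁ + x₂ = 0
  · refine ⟨x₁, ?_, ?_⟩
    · rw [show x₁ + x₁ = 0 by linear_combination x₁ * h2]
      exact DV.G_zero _
    · rw [hx]; exact DV.G_zero _
  -- `z_m = y + η_m` is small at the first and `z_m + 1` at the second place
  have key : ∀ (T : AS K K' f) (m : ℕ), (T.splitDV hf).G (2 ^ (m + 1)) (T.y + algebraMap K K' (eta f m)) := by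
    intro T m
    rw [T.splitDV_G hf, T.a_add, T.b_add, T.ab_y.1, T.ab_y.2, (T.ab_map _).1, (T.ab_map _).2]
    filter_upwards [eventually_ge_atTop m] with n hn
    have h3 : 0 + eta f m + (1 + 0) * eta f n = eta f n + eta f m := by ring
    rw [h3]
    exact eta_add hf hn
  obtain ⟨m, hm, hm'⟩ := ((eventually_two_pow (-(S.splitDV hf).ord (x₁ + x₂))).and
    (eventually_two_pow (-(S.conj.splitDV hf).ord (x₁ + x₂)))).exists
  refine ⟨x₁ * (S.y + algebraMap K K' (eta f m) + 1) + x₂ * (S.y + algebraMap K K' (eta f m)), ?_, ?_⟩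
  · have h3 : x₁ * (S.y + algebraMap K K' (eta f m) + 1) + x₂ * (S.y + algebraMap K K' (eta f m)) + x₁ =
        (x₁ + x₂) * (S.y + algebraMap K K' (eta f m)) := by linear_combination x₁ * h2
    rw [h3]
    exact ((DV.G_ord _).mul (key S m)).mono (by linarith)
  · have h3 : x₁ * (S.y + algebraMap K K' (eta f m) + 1) + x₂ * (S.y + algebraMap K K' (eta f m)) + x₂ =
        (x₁ + x₂) * (S.conj.y + algebraMap K K' (eta f m)) := by rw [conj_y]; ring
    rw [h3]
    exact ((DV.G_ord _).mul (key S.conj m)).mono (by linarith)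

end split

end AS

end Pool.Agent.FF
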