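import Pool.Agent.FF.Defs

/-! Riemann–Roch by counting, in the language of `Defs`:
`|L(D)| = q ^ (1 - g - deg D) * |A / (A(D) + F)|` for divisors `D` (here `L(D)` are the functions of
order at least `D`), principal divisors have degree `0`. -/

set_option autoImplicit false
set_option linter.unusedSectionVars false

namespace Pool.Agent.FF.RRD

open Finset

section basic

variable {F : Type*} [Field F]

/-- The families whose value at `P` has order at least `D P`. -/
def AInt (D : DV F → ℤ) : AddSubgroup (DV F → F) where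
  carrier := {r : DV F → F | ∀ P : DV F, P.G (D P) (r P)}
  zero_mem' := fun _ => DV.G_zero _
  add_mem' hr hs := fun P => (hr P).add (hs P)
  neg_mem' hr := fun P => (hr P).neg

theorem Bdd_eq (D : DV F → ℤ) : Bdd D = AInt (fun P => - D P) := rfl

/-- The number of elements of `A / (A(D) + F)`, `0` if it is infinite. -/
noncomputable def hCard (D : DV F → ℤ) : ℕ := (AInt D ⊔ Prin F).relIndex (Adl F)

theorem card_HH (D : DV F → ℤ) : Nat.card (HH D) = hCard (fun P => - D P) := rfl

theorem card_HH_zero : Nat.card (HH (0 : DV F → ℤ)) = hCard (0 : DV F → ℤ) := by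
  rw [card_HH]
  congr 1

/-- The number of elements of the residue field (`0` if it is infinite). -/
theorem relIndex_grp_zero (v : DV F) : (v.grp 1).relIndex (v.grp 0) = Nat.card v.Res := rfl

/-- All layers have the same number of elements. -/
theorem relIndex_succ (v : DV F) (n : ℤ) :
    (v.grp (n + 1)).relIndex (v.grp n) = Nat.card v.Res := by
  obtain ⟨t, ht, ht1⟩ := v.exists_ord n
  let f : F →+ F := AddMonoidHom.mulLeft t
  have hinj : Function.Injective f := fun a b hab => mul_left_cancel₀ ht hab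
  have key : ∀ m : ℤ, (v.grp m).map f = v.grp (n + m) := by
    intro m
    ext a
    constructor
    · rintro ⟨b, hb, rfl⟩
      have := (DV.G_ord (v := v) t).mul hb
      rw [ht1] at this
      exact this
    · intro ha
      refine ⟨t⁻¹ * a, ?_, ?_⟩
      · have := (DV.G_ord (v := v) t⁻¹).mul ha
        rw [v.ord_inv ht, ht1] at this
        change v.G m _
        convert this using 1
        ring
      · change t * (t⁻¹ * a) = a
        field_simp
  have := AddSubgroup.relIndex_map_map_of_injective (v.grp 1) (v.grp 0) hinj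
  rw [key, key, add_zero] at this
  exact this

/-- The functions of order at least `D` everywhere. -/
def LInt (D : DV F → ℤ) : AddSubgroup F where
  carrier := {a | ∀ P : DV F, P.G (D P) a}
  zero_mem' := fun _ => DV.G_zero _
  add_mem' ha hb := fun P => (ha P).add (hb P)
  neg_mem' ha := fun P => (ha P).neg

theorem mem_LInt {D : DV F → ℤ} {a : F} : a ∈ LInt D ↔ ∀ P : DV F, P.G (D P) a := Iff.rfl

theorem AInt_anti {D D' : DV F → ℤ} (h : ∀ P, D P ≤ D' P) : AInt D' ≤ AInt D :=
  fun _ hr P => (hr P).mono (h P)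

theorem LInt_anti {D D' : DV F → ℤ} (h : ∀ P, D P ≤ D' P) : LInt D' ≤ LInt D :=
  fun _ hr P => DV.G.mono (hr P) (h P)

/-- The constant families, as a homomorphism. -/
def cst (F : Type*) [Field F] : F →+ (DV F → F) where
  toFun a := fun _ => a
  map_zero' := rfl
  map_add' _ _ := rfl

theorem cst_apply (a : F) (P : DV F) : cst F a P = a := rfl

theorem map_cst_LInt (D : DV F → ℤ) : (LInt D).map (cst F) = AInt D ⊓ Prin F := by
  ext r
  constructor
  · rintro ⟨a, ha, rfl⟩
    exact ⟨fun P => ha P, ⟨a, fun _ => rfl⟩⟩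
  · rintro ⟨h1, ⟨a, ha⟩⟩
    refine ⟨a, fun P => ?_, funext fun P => (ha P).symm⟩
    have := h1 P
    rwa [ha P] at this

theorem relIndex_LInt [Nonempty (DV F)] (D D' : DV F → ℤ) :
    (LInt D').relIndex (LInt D) = (AInt D' ⊓ Prin F).relIndex (AInt D ⊓ Prin F) := by
  rw [← map_cst_LInt, ← map_cst_LInt, AddSubgroup.relIndex_map_map_of_injective]
  intro a b hab
  exact congrFun hab (Classical.arbitrary (DV F))

/-- One more zero at one place. -/
theorem relIndex_AInt_update (D : DV F → ℤ) (P : DV F) [DecidableEq (DV F)] :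
    (AInt (Function.update D P (D P + 1))).relIndex (AInt D) = Nat.card P.Res := by
  let ev : (DV F → F) →+ F := Pi.evalAddMonoidHom (fun _ : DV F => F) P
  have h1 : AInt (Function.update D P (D P + 1)) = (P.grp (D P + 1)).comap ev ⊓ AInt D := by
    ext r
    constructor
    · intro hr
      refine ⟨?_, fun Q => ?_⟩
      · have := hr P
        rwa [Function.update_self] at this
      · have := hr Q
        by_cases hQ : Q = P
        · subst hQ
          rw [Function.update_self] at this
          exact this.mono (by omega)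
        · rwa [Function.update_of_ne hQ] at this
    · rintro ⟨h1, h2⟩ Q
      by_cases hQ : Q = P
      · subst hQ
        rw [Function.update_self]
        exact h1
      · rw [Function.update_of_ne hQ]
        exact h2 Q
  have h2 : (AInt D).map ev = P.grp (D P) := by
    ext a
    constructor
    · rintro ⟨r, hr, rfl⟩
      exact hr P
    · intro ha
      refine ⟨Function.update 0 P a, fun Q => ?_, ?_⟩
      · by_cases hQ : Q = P
        · subst hQ
          rw [Function.update_self]
          exact ha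
        · rw [Function.update_of_ne hQ]
          exact DV.G_zero _
      · exact Function.update_self ..
  rw [h1, AddSubgroup.inf_relIndex_right, AddSubgroup.relIndex_comap, h2, relIndex_succ]

/-- The exact sequence `0 → L(D') → L(D) → A(D) / A(D') → H(D') → H(D) → 0`. -/
theorem step [Nonempty (DV F)] {D D' : DV F → ℤ} (h : ∀ P, D P ≤ D' P) (hA : AInt D ≤ Adl F)
    (hd : Prin F ≤ Adl F) :
    ∃ X : ℕ, hCard D' = X * hCard D ∧
      (AInt D').relIndex (AInt D) = (LInt D').relIndex (LInt D) * X := by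
  have hUV : AInt D' ≤ AInt D := AInt_anti h
  refine ⟨(AInt D' ⊔ (AInt D ⊓ Prin F)).relIndex (AInt D), ?_, ?_⟩
  · unfold hCard
    rw [← AddSubgroup.relIndex_mul_relIndex (AInt D' ⊔ Prin F) (AInt D ⊔ Prin F) (Adl F)
      (sup_le_sup_right hUV _) (sup_le hA hd)]
    congr 1
    have h1 : AInt D ⊔ Prin F = AInt D ⊔ (AInt D' ⊔ Prin F) := by
      rw [← sup_assoc, sup_eq_left.2 hUV]
    rw [h1, AddSubgroup.relIndex_sup_right, ← AddSubgroup.inf_relIndex_right,
      sup_inf_assoc_of_le _ hUV, inf_comm (Prin F)]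
  · rw [relIndex_LInt, ← AddSubgroup.relIndex_mul_relIndex (AInt D')
      (AInt D' ⊔ (AInt D ⊓ Prin F)) (AInt D) le_sup_left (sup_le hUV inf_le_left)]
    congr 1
    rw [AddSubgroup.relIndex_sup_left, ← AddSubgroup.inf_relIndex_right]
    congr 1
    rw [← inf_assoc, inf_eq_left.2 hUV]

theorem card_LInt_mul {D D' : DV F → ℤ} (h : ∀ P, D P ≤ D' P) :
    Nat.card (LInt D') * (LInt D').relIndex (LInt D) = Nat.card (LInt D) := by
  rw [← AddSubgroup.relIndex_bot_left, ← AddSubgroup.relIndex_bot_left]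
  exact AddSubgroup.relIndex_mul_relIndex ⊥ (LInt D') (LInt D) bot_le (LInt_anti h)

end basic

section main

variable (k : Type*) {F : Type*} [Field k] [Finite k] [Field F] [Algebra k F]

theorem one_lt_card : 1 < Nat.card k := Finite.one_lt_card

/-- The degree of a place. -/
noncomputable abbrev deg (P : DV F) : ℕ := P.deg (Nat.card k)

variable {k}

theorem ord_algebraMap (P : DV F) {c : k} (hc : c ≠ 0) : P.ord (algebraMap k F c) = 0 := by
  obtain ⟨n, hn, h⟩ := (isOfFinOrder_iff_pow_eq_one.1 (isOfFinOrder_of_finite (Units.mk0 c hc)))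
  have h1 : c ^ n = 1 := by
    have := congrArg Units.val h
    simpa using this
  have h0 : algebraMap k F c ≠ 0 := by rwa [Ne, map_eq_zero]
  have h2 := P.ord_pow h0 n
  rw [← map_pow, h1, map_one, P.ord_one] at h2
  rcases mul_eq_zero.1 h2.symm with h3 | h3
  · omega
  · exact h3

theorem G_algebraMap (P : DV F) (c : k) : P.G 0 (algebraMap k F c) := by
  by_cases hc : c = 0
  · rw [hc, map_zero]; exact DV.G_zero _
  · exact DV.G_of_le (ord_algebraMap P hc).ge

variable (k)

/-- The degree of a divisor. -/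
noncomputable def degZ (D : DV F →₀ ℤ) : ℤ := D.sum fun P n => n * (deg k P : ℤ)

theorem degZ_zero : degZ k (0 : DV F →₀ ℤ) = 0 := Finsupp.sum_zero_index

theorem degZ_add (D E : DV F →₀ ℤ) : degZ k (D + E) = degZ k D + degZ k E :=
  Finsupp.sum_add_index' (fun P => by simp) fun P m n => by ring

theorem degZ_single (P : DV F) (n : ℤ) : degZ k (Finsupp.single P n) = n * (deg k P : ℤ) :=
  Finsupp.sum_single_index (by simp)

/-- The Riemann–Roch count for one divisor. -/
structure Cnt (g : ℕ) (D : DV F →₀ ℤ) : Prop where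
  fin : Nat.card (LInt (D : DV F → ℤ)) ≠ 0
  hfin : hCard (D : DV F → ℤ) ≠ 0
  eq : (Nat.card (LInt (D : DV F → ℤ)) : ℚ) =
    (Nat.card k : ℚ) ^ (1 - (g : ℤ) - degZ k D) * hCard (D : DV F → ℤ)

variable {k}

theorem hgen {g : ℕ} (h : Cv k F g) : hCard (0 : DV F → ℤ) = Nat.card k ^ g := by
  rw [← card_HH_zero]
  exact h.genus

theorem Prin_le {g : ℕ} (h : Cv k F g) : Prin F ≤ Adl F := by
  rintro r ⟨a, ha⟩
  have := h.poles a
  show Set.Finite _
  simpa [ha] using this

theorem AInt_le_Adl {D : DV F → ℤ} (hD : {P | D P < 0}.Finite) : AInt D ≤ Adl F := by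
  intro r hr
  show Set.Finite _
  refine hD.subset fun P hP => ?_
  by_contra h
  exact hP ((hr P).mono (by simpa using h))

theorem q_ne_zero : (Nat.card k : ℚ) ≠ 0 := by
  exact_mod_cast (Nat.card_pos (α := k)).ne'

theorem LInt_zero {g : ℕ} (h : Cv k F g) : LInt (0 : DV F → ℤ) = ((algebraMap k F).toAddMonoidHom).range := by
  ext a
  constructor
  · intro ha
    obtain ⟨c, hc⟩ := h.const a ha
    exact ⟨c, hc.symm⟩
  · rintro ⟨c, rfl⟩ P
    exact G_algebraMap P c

theorem card_LInt_zero {g : ℕ} (h : Cv k F g) : Nat.card (LInt (0 : DV F → ℤ)) = Nat.card k := by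
  rw [LInt_zero h]
  exact (Nat.card_congr (AddMonoidHom.ofInjective (f := (algebraMap k F).toAddMonoidHom)
    (algebraMap k F).injective).toEquiv).symm

theorem cnt_zero {g : ℕ} (h : Cv k F g) :
    Cnt k g (0 : DV F →₀ ℤ) := by
  have h0 : ((0 : DV F →₀ ℤ) : DV F → ℤ) = 0 := rfl
  refine ⟨?_, ?_, ?_⟩
  · rw [h0, card_LInt_zero h]
    exact (Nat.card_pos (α := k)).ne'
  · rw [h0, hgen h]
    exact pow_ne_zero _ (Nat.card_pos (α := k)).ne'
  · rw [h0, card_LInt_zero h, hgen h, degZ_zero, sub_zero]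
    push_cast
    rw [← zpow_natCast, ← zpow_add₀ q_ne_zero]
    simp

theorem AInt_le (D : DV F →₀ ℤ) : AInt (D : DV F → ℤ) ≤ Adl F := by
  apply AInt_le_Adl
  refine D.hasFiniteSupport.subset fun P hP => ?_
  have : D P < 0 := hP
  rw [Function.mem_support]
  omega

theorem coe_add_single [DecidableEq (DV F)] (D : DV F →₀ ℤ) (P : DV F) :
    ((D + Finsupp.single P 1 : DV F →₀ ℤ) : DV F → ℤ) = Function.update D P (D P + 1) := by
  funext Q
  by_cases hQ : Q = P
  · subst hQ
    simp
  · rw [Function.update_of_ne hQ, Finsupp.add_apply, Finsupp.single_apply, if_neg (Ne.symm hQ),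
      add_zero]

theorem cnt_step {g : ℕ} (h : Cv k F g) (D : DV F →₀ ℤ) (P : DV F) :
    Cnt k g D ↔ Cnt k g (D + Finsupp.single P 1) := by
  classical
  have : Nonempty (DV F) := ⟨P⟩
  have hle : ∀ Q, (D : DV F → ℤ) Q ≤ ((D + Finsupp.single P 1 : DV F →₀ ℤ) : DV F → ℤ) Q := by
    intro Q
    rw [coe_add_single]
    by_cases hQ : Q = P
    · subst hQ
      rw [Function.update_self]
      omega
    · rw [Function.update_of_ne hQ]
  obtain ⟨X, h1, h2⟩ := step hle (AInt_le D) (Prin_le h)
  have h3 := card_LInt_mul hle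
  have h4 : (AInt ((D + Finsupp.single P 1 : DV F →₀ ℤ) : DV F → ℤ)).relIndex (AInt (D : DV F → ℤ))
      = Nat.card k ^ deg k P := by
    rw [coe_add_single, relIndex_AInt_update, (h.res P).2]
  rw [h4] at h2
  have hq : Nat.card k ≠ 0 := (Nat.card_pos (α := k)).ne'
  have hqd : Nat.card k ^ deg k P ≠ 0 := pow_ne_zero _ hq
  have hX : X ≠ 0 := by
    rintro rfl
    exact hqd (by rw [h2, mul_zero])
  have hR : (LInt ((D + Finsupp.single P 1 : DV F →₀ ℤ) : DV F → ℤ)).relIndex (LInt (D : DV F → ℤ))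
      ≠ 0 := by
    intro h0
    exact hqd (by rw [h2, h0, zero_mul])
  have hd : degZ k (D + Finsupp.single P 1) = degZ k D + deg k P := by
    rw [degZ_add, degZ_single, one_mul]
  set a := Nat.card (LInt (D : DV F → ℤ)) with ha
  set a' := Nat.card (LInt ((D + Finsupp.single P 1 : DV F →₀ ℤ) : DV F → ℤ)) with ha'
  set b := hCard (D : DV F → ℤ) with hb
  set b' := hCard ((D + Finsupp.single P 1 : DV F →₀ ℤ) : DV F → ℤ) with hb'
  set R := (LInt ((D + Finsupp.single P 1 : DV F →₀ ℤ) : DV F → ℤ)).relIndex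
    (LInt (D : DV F → ℤ)) with hRdef
  have hq0 : (Nat.card k : ℚ) ≠ 0 := q_ne_zero
  have hkey : (Nat.card k : ℚ) ^ (1 - (g : ℤ) - degZ k D) =
      (Nat.card k : ℚ) ^ (1 - (g : ℤ) - degZ k (D + Finsupp.single P 1)) * (R * X) := by
    have e : ((R : ℚ) * X) = (Nat.card k : ℚ) ^ (deg k P : ℤ) := by
      rw [zpow_natCast]
      exact_mod_cast h2.symm
    rw [e, ← zpow_add₀ hq0, hd]
    congr 1
    ring
  have hRq : (R : ℚ) ≠ 0 := by exact_mod_cast hR
  have hXq : (X : ℚ) ≠ 0 := by exact_mod_cast hX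
  have h3q : (a' : ℚ) * R = a := by exact_mod_cast h3
  have h1q : (b' : ℚ) = X * b := by exact_mod_cast h1
  constructor
  · rintro ⟨c1, c2, c3⟩
    refine ⟨?_, ?_, ?_⟩
    · intro h0
      exact c1 (by rw [← ha, ← h3, ha', h0, zero_mul])
    · rw [← hb', h1]
      exact mul_ne_zero hX c2
    · rw [← ha', ← hb', h1q]
      rw [← ha, ← hb, hkey, ← h3q] at c3
      have : (a' : ℚ) * R = ((Nat.card k : ℚ) ^ (1 - (g : ℤ) - degZ k (D + Finsupp.single P 1)) *
          (X * b)) * R := by rw [c3]; ring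
      exact mul_right_cancel₀ hRq this
  · rintro ⟨c1, c2, c3⟩
    refine ⟨?_, ?_, ?_⟩
    · rw [← ha, ← h3]
      exact mul_ne_zero c1 hR
    · intro h0
      exact c2 (by rw [← hb', h1, hb, h0, mul_zero])
    · rw [← ha, ← hb, hkey, ← h3q]
      rw [← ha', ← hb', h1q] at c3
      rw [c3]
      ring

theorem cnt_add_single {g : ℕ} (h : Cv k F g) (D : DV F →₀ ℤ) (P : DV F) (n : ℤ) :
    Cnt k g D → Cnt k g (D + Finsupp.single P n) := by
  intro hD
  induction n using Int.induction_on with
  | zero => simpa using hD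
  | succ n ih =>
    have := (cnt_step h _ P).1 ih
    rwa [add_assoc, ← Finsupp.single_add] at this
  | pred n ih =>
    rw [cnt_step h _ P, add_assoc, ← Finsupp.single_add]
    simpa using ih

/-- **Riemann–Roch by counting.** -/
theorem cnt {g : ℕ} (h : Cv k F g) (D : DV F →₀ ℤ) :
    Cnt k g D := by
  induction D using Finsupp.induction with
  | zero => exact cnt_zero h
  | single_add P n D _ _ ih =>
    rw [add_comm]
    exact cnt_add_single h D P n ih

/-! ### Principal divisors -/

variable (k)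

/-- The divisor of a function. -/
noncomputable def divF {g : ℕ} (h : Cv k F g) (y : F) (hy : y ≠ 0) : DV F →₀ ℤ :=
  Finsupp.ofSupportFinite (fun P => P.ord y) (by
    refine ((h.poles y).union (h.poles y⁻¹)).subset fun P hP => ?_
    by_contra hc
    rw [Set.mem_union, not_or] at hc
    have h1 := (not_not.1 hc.1).le hy
    have h2 := (not_not.1 hc.2).le (inv_ne_zero hy)
    rw [P.ord_inv hy] at h2
    exact hP (show P.ord y = 0 by omega))

variable {k}

theorem divF_apply {g : ℕ} (h : Cv k F g) {y : F} (hy : y ≠ 0) (P : DV F) : divF k h y hy P = P.ord y := rfl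

theorem G_mul_iff (P : DV F) {y : F} (hy : y ≠ 0) (n : ℤ) (a : F) :
    P.G (n + P.ord y) (y * a) ↔ P.G n a := by
  constructor
  · intro ha
    have h1 := (DV.G_ord (v := P) y⁻¹).mul ha
    rw [P.ord_inv hy, inv_mul_cancel_left₀ hy] at h1
    convert h1 using 1
    ring
  · intro ha
    have h1 := (DV.G_ord (v := P) y).mul ha
    convert h1 using 1
    ring

theorem hCard_divF {g : ℕ} (h : Cv k F g) {y : F} (hy : y ≠ 0) (D : DV F → ℤ) :
    hCard (fun P => D P + P.ord y) = hCard D := by
  let f : (DV F → F) →+ (DV F → F) :=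
    { toFun := fun r P => y * r P
      map_zero' := by funext P; simp
      map_add' := fun r s => by funext P; simp [mul_add] }
  have hf : Function.Injective f := fun r s hrs => by
    funext P
    exact mul_left_cancel₀ hy (congrFun hrs P)
  have hsurj : ∀ r : DV F → F, f (fun P => y⁻¹ * r P) = r := fun r => by
    funext P
    exact mul_inv_cancel_left₀ hy (r P)
  have h1 : ∀ D : DV F → ℤ, (AInt D).map f = AInt fun P => D P + P.ord y := by
    intro D
    ext r
    constructor
    · rintro ⟨s, hs, rfl⟩ P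
      exact (G_mul_iff P hy _ _).2 (hs P)
    · intro hr
      refine ⟨fun P => y⁻¹ * r P, fun P => ?_, hsurj r⟩
      rw [← G_mul_iff P hy]
      have := hr P
      rwa [mul_inv_cancel_left₀ hy]
  have h2 : (Prin F).map f = Prin F := by
    ext r
    constructor
    · rintro ⟨s, ⟨a, ha⟩, rfl⟩
      exact ⟨y * a, fun P => by
        show y * s P = y * a
        rw [ha P]⟩
    · rintro ⟨a, ha⟩
      exact ⟨fun P => y⁻¹ * r P, ⟨y⁻¹ * a, fun P => by
        show y⁻¹ * r P = y⁻¹ * a
        rw [ha P]⟩, hsurj _⟩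
  have hmul : ∀ z : F, ∀ r ∈ Adl F, (fun P => z * r P) ∈ Adl F := by
    intro z r hr
    show Set.Finite _
    refine ((h.poles z).union hr).subset fun P hP => ?_
    by_contra hc
    rw [Set.mem_union, not_or] at hc
    refine hP ?_
    have := (not_not.1 hc.1).mul (not_not.1 hc.2)
    rwa [add_zero] at this
  have h3 : (Adl F).map f = Adl F := by
    ext r
    constructor
    · rintro ⟨s, hs, rfl⟩
      exact hmul y s hs
    · intro hr
      exact ⟨fun P => y⁻¹ * r P, hmul y⁻¹ r hr, hsurj r⟩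
  unfold hCard
  rw [← h1, ← AddSubgroup.relIndex_map_map_of_injective (AInt D ⊔ Prin F) (Adl F) hf,
    AddSubgroup.map_sup, h2, h3]

theorem card_LInt_divF {y : F} (hy : y ≠ 0) (D : DV F → ℤ) :
    Nat.card (LInt fun P => D P + P.ord y) = Nat.card (LInt D) := by
  refine (Nat.card_congr ?_).symm
  exact
    { toFun := fun a => ⟨y * a.1, fun P => (G_mul_iff P hy _ _).2 (a.2 P)⟩
      invFun := fun a => ⟨y⁻¹ * a.1, fun P => by
        rw [← G_mul_iff P hy, mul_inv_cancel_left₀ hy]
        exact a.2 P⟩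
      left_inv := fun a => Subtype.ext (inv_mul_cancel_left₀ hy _)
      right_inv := fun a => Subtype.ext (mul_inv_cancel_left₀ hy _) }

/-- Principal divisors have degree `0`. -/
theorem degZ_divF {g : ℕ} (h : Cv k F g) {y : F}
    (hy : y ≠ 0) : degZ k (divF k h y hy) = 0 := by
  have h1 := (cnt h (divF k h y hy)).eq
  have h2 := (cnt h (0 : DV F →₀ ℤ)).eq
  have h3 := (cnt h (0 : DV F →₀ ℤ)).hfin
  have e : ((divF k h y hy : DV F →₀ ℤ) : DV F → ℤ) = fun P => (0 : DV F → ℤ) P + P.ord y := by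
    funext P
    rw [divF_apply, Pi.zero_apply, zero_add]
  have e0 : ((0 : DV F →₀ ℤ) : DV F → ℤ) = 0 := rfl
  rw [e, card_LInt_divF hy, hCard_divF h hy] at h1
  rw [e0] at h2 h3
  rw [h2, degZ_zero] at h1
  have h4 : ((hCard (0 : DV F → ℤ) : ℕ) : ℚ) ≠ 0 := by exact_mod_cast h3
  have h5 := mul_right_cancel₀ h4 h1
  have h6 : (1 : ℚ) < Nat.card k := by exact_mod_cast one_lt_card k
  have h7 := zpow_right_injective₀ (by linarith) h6.ne' h5
  have h8 : 1 - (g : ℤ) - 0 = 1 - (g : ℤ) - degZ k (divF k h y hy) := h7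
  linarith

/-- The number of zeros is at most the number of poles. -/
theorem sum_deg_zeros_le {g : ℕ} (h : Cv k F g) {y : F}
    (hy : y ≠ 0) {D : DV F →₀ ℤ} (hD : y ∈ LInt (-D : DV F → ℤ))
    (Z : Finset (DV F)) (hZ : ∀ P ∈ Z, P.G (1 - D P) y) :
    (∑ P ∈ Z, (deg k P : ℤ)) ≤ degZ k D := by
  classical
  have h0 := degZ_divF h hy
  set E := divF k h y hy with hE
  have hs : ∀ D : DV F →₀ ℤ, ∀ S : Finset (DV F), D.support ⊆ S →
      degZ k D = ∑ P ∈ S, D P * (deg k P : ℤ) := by
    intro D S hS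
    exact Finsupp.sum_of_support_subset _ hS _ (fun P _ => by simp)
  set S := E.support ∪ D.support ∪ Z with hS
  have h1 := hs E S (by intro P hP; simp only [hS, Finset.mem_union]; tauto)
  have h2 := hs D S (by intro P hP; simp only [hS, Finset.mem_union]; tauto)
  have h3 : ∑ P ∈ Z, (deg k P : ℤ) = ∑ P ∈ S, if P ∈ Z then (deg k P : ℤ) else 0 := by
    rw [← Finset.sum_filter]
    congr 1
    ext P
    simp only [hS, Finset.mem_filter, Finset.mem_union]
    tauto
  have h4 : ∑ P ∈ S, (if P ∈ Z then (deg k P : ℤ) else 0) ≤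
      ∑ P ∈ S, (E P * (deg k P : ℤ) + D P * (deg k P : ℤ)) := by
    refine Finset.sum_le_sum fun P _ => ?_
    rw [← add_mul]
    have hd : (0 : ℤ) ≤ deg k P := by positivity
    have hEP : E P = P.ord y := rfl
    split_ifs with hPZ
    · have := (hZ P hPZ).le hy
      nlinarith
    · have := (hD P).le hy
      have h5 : 0 ≤ E P + D P := by
        rw [hEP]
        simp only [Pi.neg_apply] at this
        omega
      exact mul_nonneg h5 hd
  rw [Finset.sum_add_distrib, ← h1, ← h2, h0, zero_add] at h4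
  rw [h3]
  exact h4

/-- Riemann's inequality: `|L(D)| ≥ q ^ (1 - g - deg D)`. -/
theorem le_card_LInt {g : ℕ} (h : Cv k F g)
    (D : DV F →₀ ℤ) :
    (Nat.card k : ℚ) ^ (1 - (g : ℤ) - degZ k D) ≤ Nat.card (LInt (D : DV F → ℤ)) := by
  have h1 := cnt h D
  rw [h1.eq]
  have h3 : (1 : ℚ) ≤ hCard (D : DV F → ℤ) := by
    exact_mod_cast Nat.one_le_iff_ne_zero.2 h1.hfin
  have hqp : (0 : ℚ) < Nat.card k := by exact_mod_cast Nat.card_pos (α := k)
  exact le_mul_of_one_le_right (by positivity) h3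

/-! ### Multiples of a rational place -/

/-- The functions with a pole of order at most `n` at `P` and no other pole. -/
def LP (P : DV F) (n : ℕ) : AddSubgroup F where
  carrier := {a | P.G (-n) a ∧ ∀ Q : DV F, Q ≠ P → Q.G 0 a}
  zero_mem' := ⟨DV.G_zero _, fun _ _ => DV.G_zero _⟩
  add_mem' ha hb := ⟨ha.1.add hb.1, fun Q hQ => (ha.2 Q hQ).add (hb.2 Q hQ)⟩
  neg_mem' ha := ⟨ha.1.neg, fun Q hQ => (ha.2 Q hQ).neg⟩

theorem mem_LP {P : DV F} {n : ℕ} {a : F} :
    a ∈ LP P n ↔ P.G (-n) a ∧ ∀ Q : DV F, Q ≠ P → Q.G 0 a := Iff.rfl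

theorem LP_eq (P : DV F) (n : ℕ) :
    LP P n = LInt ((Finsupp.single P (-n : ℤ) : DV F →₀ ℤ) : DV F → ℤ) := by
  classical
  ext a
  constructor
  · rintro ⟨h1, h2⟩ Q
    by_cases hQ : Q = P
    · subst hQ
      simpa using h1
    · rw [Finsupp.single_apply, if_neg (Ne.symm hQ)]
      exact h2 Q hQ
  · intro ha
    refine ⟨by simpa using ha P, fun Q hQ => ?_⟩
    have := ha Q
    rwa [Finsupp.single_apply, if_neg (Ne.symm hQ)] at this

/-- Riemann's inequality for the multiples of a place of degree one. -/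
theorem le_card_LP {g : ℕ} (h : Cv k F g) {P : DV F}
    (hP : deg k P = 1) (n : ℕ) : Nat.card k ^ (n + 1) ≤ Nat.card k ^ g * Nat.card (LP P n) := by
  have h1 := cnt h (Finsupp.single P (-n : ℤ))
  have h2 := h1.eq
  rw [← LP_eq, degZ_single, hP] at h2
  have h3 : (1 : ℚ) ≤ hCard ((Finsupp.single P (-n : ℤ) : DV F →₀ ℤ) : DV F → ℤ) := by
    exact_mod_cast Nat.one_le_iff_ne_zero.2 h1.hfin
  have hq0 : (Nat.card k : ℚ) ≠ 0 := q_ne_zero
  have hqp : (0 : ℚ) < Nat.card k := by exact_mod_cast Nat.card_pos (α := k)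
  have h4 : ((Nat.card k ^ (n + 1) : ℕ) : ℚ) ≤ ((Nat.card k ^ g * Nat.card (LP P n) : ℕ) : ℚ) := by
    push_cast
    rw [h2]
    have h5 : (Nat.card k : ℚ) ^ g * ((Nat.card k : ℚ) ^ (1 - (g : ℤ) - -(n : ℤ) * ((1 : ℕ) : ℤ)))
        = (Nat.card k : ℚ) ^ (n + 1) := by
      rw [← zpow_natCast, ← zpow_natCast, ← zpow_add₀ hq0]
      congr 1
      push_cast
      ring
    rw [← mul_assoc, h5]
    exact le_mul_of_one_le_right (by positivity) h3
  exact_mod_cast h4

theorem card_LP_ne_zero {g : ℕ} (h : Cv k F g)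
    (P : DV F) (n : ℕ) : Nat.card (LP P n) ≠ 0 := by
  rw [LP_eq]
  exact (cnt h _).fin

theorem card_LP_le {g : ℕ} (h : Cv k F g) {P : DV F} (hP : deg k P = 1) (n : ℕ) :
    Nat.card (LP P n) ≤ Nat.card k ^ (n + 1) := by
  classical
  have : Nonempty (DV F) := ⟨P⟩
  induction n with
  | zero =>
    have : LP P 0 = LInt (0 : DV F → ℤ) := by
      rw [LP_eq]
      congr 1
      simp
    rw [this, card_LInt_zero h]
    simp
  | succ n ih =>
    set D : DV F →₀ ℤ := Finsupp.single P (-((n + 1 : ℕ) : ℤ)) with hD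
    have hD' : D + Finsupp.single P 1 = Finsupp.single P (-(n : ℤ)) := by
      rw [hD, ← Finsupp.single_add]
      congr 1
      push_cast
      ring
    have hle : ∀ Q, (D : DV F → ℤ) Q ≤ ((D + Finsupp.single P 1 : DV F →₀ ℤ) : DV F → ℤ) Q := by
      intro Q
      rw [Finsupp.add_apply]
      have : (0 : ℤ) ≤ (Finsupp.single P 1 : DV F →₀ ℤ) Q := by
        rw [Finsupp.single_apply]
        split_ifs <;> norm_num
      omega
    obtain ⟨X, h1, h2⟩ := step hle (AInt_le D) (Prin_le h)
    have h3 := card_LInt_mul hle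
    have h4 : (AInt ((D + Finsupp.single P 1 : DV F →₀ ℤ) : DV F → ℤ)).relIndex
        (AInt (D : DV F → ℤ)) = Nat.card k := by
      rw [coe_add_single, relIndex_AInt_update, (h.res P).2]
      have : P.deg (Nat.card k) = 1 := hP
      rw [this, pow_one]
    rw [h4] at h2
    have hq : Nat.card k ≠ 0 := (Nat.card_pos (α := k)).ne'
    have hX : 1 ≤ X := by
      rcases Nat.eq_zero_or_pos X with h0 | h0
      · rw [h0, mul_zero] at h2
        exact absurd h2 hq
      · exact h0
    have hR : (LInt ((D + Finsupp.single P 1 : DV F →₀ ℤ) : DV F → ℤ)).relIndex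
        (LInt (D : DV F → ℤ)) ≤ Nat.card k := by
      rw [h2]
      exact Nat.le_mul_of_pos_right _ hX
    rw [hD', ← LP_eq] at h3 hR
    rw [LP_eq P (n + 1), ← hD, ← h3, pow_succ]
    exact Nat.mul_le_mul ih hR

/-- A nonzero function with a pole of order at most `n` at one place of degree one and no other pole
has zeros of total degree at most `n`. -/
theorem sum_deg_le {g : ℕ} (h : Cv k F g) {P : DV F}
    (hP : deg k P = 1) {n : ℕ} {y : F} (hy : y ≠ 0) (hyP : y ∈ LP P n) (Z : Finset (DV F))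
    (hZ : ∀ Q ∈ Z, Q.G 1 y) : ∑ Q ∈ Z, deg k Q ≤ n := by
  classical
  have h1 := sum_deg_zeros_le h hy (D := Finsupp.single P (n : ℤ)) (by
    rw [LP_eq] at hyP
    intro Q
    have := hyP Q
    rw [Finsupp.single_apply] at this
    rw [Pi.neg_apply, Finsupp.single_apply]
    split_ifs at this ⊢ with hQ <;> simpa using this) Z (fun Q hQ => (hZ Q hQ).mono (by
      rw [Finsupp.single_apply]
      split_ifs <;> omega))
  rw [degZ_single, hP] at h1
  have h2 : ((∑ Q ∈ Z, deg k Q : ℕ) : ℤ) ≤ (n : ℤ) := by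
    push_cast
    simpa using h1
  exact_mod_cast h2

end main

end Pool.Agent.FF.RRD
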