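import Pool.Agent.FF.DV

/-! # Curves over finite fields: places, degrees, repartitions, genus, rational points

`k` is the finite field of constants, `K` the function field. -/

set_option autoImplicit false

namespace Pool.Agent.FF

open Filter

/-! ### Places -/

section

variable {K : Type*} [Field K]

/-- the elements of order at least `n` at the place `v` -/
def DV.grp (v : DV K) (n : ℤ) : AddSubgroup K where
  carrier := {a | v.G n a}
  zero_mem' := DV.G_zero n
  add_mem' := fun ha hb => ha.add hb
  neg_mem' := fun ha => ha.neg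

/-- the residue field of the place `v` (as a group): integral elements modulo elements of positive
order -/
abbrev DV.Res (v : DV K) : Type _ := v.grp 0 ⧸ (v.grp 1).addSubgroupOf (v.grp 0)

/-- the degree of the place `v` over a constant field with `q` elements: the residue field has
`q ^ deg` elements -/
noncomputable def DV.deg (v : DV K) (q : ℕ) : ℕ := Nat.log q (Nat.card v.Res)

/-- `v` is rational over `k`: every integral element is congruent to a constant -/
def DV.Rat (k : Type*) [Field k] [Algebra k K] (v : DV K) : Prop :=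
  ∀ a : K, v.G 0 a → ∃ c : k, v.G 1 (a - algebraMap k K c)

/-! ### Repartitions -/

variable (K)

/-- the repartitions of `K`: integral at all but finitely many places -/
def Adl : AddSubgroup (DV K → K) where
  carrier := {r | {v : DV K | ¬ v.G 0 (r v)}.Finite}
  zero_mem' := by
    have : {v : DV K | ¬ v.G 0 ((0 : DV K → K) v)} = ∅ := by
      ext v; simp [DV.G_zero]
    show Set.Finite _
    rw [this]; exact Set.finite_empty
  add_mem' := by
    intro a b ha hb
    refine (Set.Finite.union ha hb).subset fun v hv => ?_
    by_contra hc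
    simp only [Set.mem_union, Set.mem_setOf_eq, not_or, not_not] at hc
    exact hv (hc.1.add hc.2)
  neg_mem' := by
    intro a ha
    refine Set.Finite.subset ha fun v hv => ?_
    intro hc
    exact hv hc.neg

/-- the constant repartitions -/
def Prin : AddSubgroup (DV K → K) where
  carrier := {r | ∃ a : K, ∀ v, r v = a}
  zero_mem' := ⟨0, fun _ => rfl⟩
  add_mem' := by
    rintro a b ⟨x, hx⟩ ⟨y, hy⟩
    exact ⟨x + y, fun v => by rw [Pi.add_apply, hx, hy]⟩
  neg_mem' := by
    rintro a ⟨x, hx⟩
    exact ⟨-x, fun v => by rw [Pi.neg_apply, hx]⟩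

variable {K}

/-- the repartitions with `ord r v ≥ - D v` everywhere -/
def Bdd (D : DV K → ℤ) : AddSubgroup (DV K → K) where
  carrier := {r | ∀ v : DV K, v.G (- D v) (r v)}
  zero_mem' := fun v => DV.G_zero _
  add_mem' := fun ha hb v => (ha v).add (hb v)
  neg_mem' := fun ha v => (ha v).neg

/-- the group `A / (A(D) + K)` -/
abbrev HH (D : DV K → ℤ) : Type _ := Adl K ⧸ (Bdd D ⊔ Prin K).addSubgroupOf (Adl K)

/-- the functions `a` with `ord a ≥ - D` everywhere (and `0`) -/
def LD (D : DV K → ℤ) : AddSubgroup K where
  carrier := {a | ∀ v : DV K, v.G (- D v) a}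
  zero_mem' := fun v => DV.G_zero _
  add_mem' := fun ha hb v => (ha v).add (hb v)
  neg_mem' := fun ha v => (ha v).neg

end

/-! ### Curves -/

/-- `K` is a function field in one variable over `k`, and `k` is algebraically closed in `K` -/
structure IsFF (k K : Type*) [Field k] [Field K] [Algebra k K] : Prop where
  fin : ∃ w : K, Transcendental k w ∧ FiniteDimensional (IntermediateField.adjoin k {w}) K
  const : ∀ a : K, IsAlgebraic k a → ∃ c : k, a = algebraMap k K c

/-- the genus of `K` over `k` is `g`: `A / (A(0) + K)` has dimension `g` over `k`, that is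
`|k| ^ g` elements (Weil) -/
def HasGenus (k K : Type*) [Field k] [Field K] [Algebra k K] (g : ℕ) : Prop :=
  Nat.card (HH (0 : DV K → ℤ)) = Nat.card k ^ g

/-- there is a curve (function field) over `k` of genus `g` with at least `N` rational points -/
def HasCurve (k : Type) [Field k] (g N : ℕ) : Prop :=
  ∃ (K : Type) (_ : Field K) (_ : Algebra k K), IsFF k K ∧ HasGenus k K g ∧
    ∃ P : Fin N → DV K, Function.Injective P ∧ ∀ i, (P i).Rat k

/-- the maximal number of rational points of a curve of genus `g` over `k` -/
noncomputable def NN (k : Type) [Field k] (g : ℕ) : ENNReal :=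
  sSup {x : ENNReal | ∃ N : ℕ, x = N ∧ HasCurve k g N}

/-- `L(q) = liminf N_q(g) / g` for `q = |k|` -/
noncomputable def LL (k : Type) [Field k] : ENNReal := liminf (fun g : ℕ => NN k g / g) atTop

/-! ### Working properties -/

/-- the properties of a curve used in the proofs -/
structure Cv (k K : Type*) [Field k] [Field K] [Algebra k K] (g : ℕ) : Prop where
  poles : ∀ a : K, {v : DV K | ¬ v.G 0 a}.Finite
  const : ∀ a : K, (∀ v : DV K, v.G 0 a) → ∃ c : k, a = algebraMap k K c
  res : ∀ v : DV K, 1 ≤ v.deg (Nat.card k) ∧ Nat.card v.Res = Nat.card k ^ v.deg (Nat.card k)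
  genus : HasGenus k K g

/-- the Artin–Schreier map on repartitions -/
def wpA {K : Type*} [Field K] (r : DV K → K) : DV K → K := fun v => r v ^ 2 + r v

/-- the obstruction group has at most `2 ^ c` elements: among any `2 ^ c + 1` repartitions two are
congruent modulo `A(0) + K + ℘(A)` -/
def Ob (K : Type*) [Field K] (c : ℕ) : Prop :=
  ∀ r : Fin (2 ^ c + 1) → DV K → K, (∀ i, r i ∈ Adl K) → ∃ i j, i ≠ j ∧ ∃ (b : DV K → K) (a : K),
    b ∈ Adl K ∧ ∀ v : DV K, v.G 0 (r i v - r j v + wpA b v + a)

/-- the total degree of a set of places -/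
noncomputable def dgS {K : Type*} [Field K] (q : ℕ) (T : Set (DV K)) : ℕ :=
  ∑ᶠ v ∈ T, v.deg q

/-- local normal forms of an Artin–Schreier generator `f`: at `v` the function `f + c v ^ 2 + c v` is
integral (`D v = 0`) or has the odd pole order `2 * D v - 1` -/
structure NF {K : Type*} [Field K] (f : K) (D : DV K → ℕ) (c : DV K → K) : Prop where
  cA : c ∈ Adl K
  fin : {v | D v ≠ 0}.Finite
  int : ∀ v, D v = 0 → v.G 0 (f + (c v ^ 2 + c v))
  odd : ∀ v, D v ≠ 0 → v.ord (f + (c v ^ 2 + c v)) = 1 - 2 * D v

end Pool.Agent.FF
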