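import Pool.Agent.FF.Rat
import Pool.Agent.FF.Defs

/-! The rational function field as a curve of genus zero, in the language of `FF.Defs`. -/

set_option autoImplicit false

open Polynomial

namespace Pool.Agent.FF

namespace Rat

variable {K : Type*} [Field K] [Finite K]

theorem isFF (k : Type*) [Field k] [Finite k] : IsFF k (RatFunc k) where
  fin := by
    refine ⟨RatFunc.X, RatFunc.transcendental_X, ?_⟩
    rw [RatFunc.adjoin_X]
    exact FiniteDimensional.of_surjective (Algebra.linearMap _ _) (fun x => ⟨⟨x, trivial⟩, rfl⟩)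
  const a ha := by
    by_contra h
    push Not at h
    refine RatFunc.transcendental_of_ne_C a ?_ ha
    rintro ⟨c, hc⟩
    exact h c (by rw [hc, RatFunc.algebraMap_eq_C])

theorem inf_rat : (inf K).Rat K := fun _ h => inf_residue h

theorem pt_rat (a : K) : (pt a).Rat K := fun _ h => pt_residue a h

/-- The rational places of `K(X)`. -/
theorem rat_iff {v : DV (RatFunc K)} : v.Rat K ↔ v = inf K ∨ ∃ a : K, v = pt a := by
  constructor
  · exact fun h => eq_of_rational h
  · rintro (rfl | ⟨a, rfl⟩)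
    · exact inf_rat
    · exact pt_rat a

theorem card_res_of_repr {F : Type*} [Field F] {v : DV F} {α : Type*} (f : α → F)
    (hf : ∀ x, v.G 0 (f x)) (h : ∀ a, v.G 0 a → ∃! x, v.G 1 (a - f x)) :
    Nat.card v.Res = Nat.card α := by
  have hmem : ∀ x y : v.grp 0, (QuotientAddGroup.mk x : v.Res) = QuotientAddGroup.mk y ↔
      v.G 1 ((x : F) - y) := by
    intro x y
    rw [eq_comm, QuotientAddGroup.eq, AddSubgroup.mem_addSubgroupOf]
    have : ((-y + x : v.grp 0) : F) = (x : F) - y := by push_cast; ring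
    rw [this]
    exact Iff.rfl
  refine (Nat.card_congr (Equiv.ofBijective (fun x : α =>
    (QuotientAddGroup.mk (⟨f x, hf x⟩ : v.grp 0) : v.Res)) ⟨?_, ?_⟩)).symm
  · intro x y hxy
    have h1 := (hmem _ _).1 hxy
    obtain ⟨z, hz, hz'⟩ := h (f x) (hf x)
    have h2 : v.G 1 (f x - f x) := by rw [sub_self]; exact DV.G_zero _
    exact (hz' x h2).trans (hz' y h1).symm
  · intro q
    obtain ⟨⟨a, ha⟩, rfl⟩ := QuotientAddGroup.mk_surjective q
    obtain ⟨z, hz, hz'⟩ := h a ha
    refine ⟨z, ?_⟩
    rw [eq_comm]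
    exact (hmem _ _).2 hz

theorem card_res_inf : Nat.card (inf K).Res = Nat.card K := by
  refine card_res_of_repr (fun c : K => algebraMap K (RatFunc K) c) (fun c => (inf K).G_const c) ?_
  intro a ha
  obtain ⟨c, hc⟩ := inf_residue ha
  refine ⟨c, hc, ?_⟩
  intro d hd
  by_contra hne
  have h1 := hc.sub hd
  have h2 : a - algebraMap K (RatFunc K) c - (a - algebraMap K (RatFunc K) d) =
      algebraMap K (RatFunc K) (d - c) := by rw [map_sub]; ring
  rw [h2] at h1
  exact (inf K).not_G_const (sub_ne_zero.2 hne) h1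

theorem At.card_res {v : DV (RatFunc K)} {π : K[X]} (h : At v π) :
    Nat.card v.Res = Nat.card K ^ π.natDegree := by
  rw [card_res_of_repr (fun r : Polynomial.degreeLT K π.natDegree =>
    algebraMap K[X] (RatFunc K) r) (fun r => h.int _) h.repr,
    Nat.card_congr (Polynomial.degreeLTEquiv K π.natDegree).toEquiv, Nat.card_fun, Nat.card_fin]

theorem card_res (v : DV (RatFunc K)) : ∃ d : ℕ, 1 ≤ d ∧ Nat.card v.Res = Nat.card K ^ d := by
  rcases inf_or_at v with rfl | ⟨π, h⟩
  · exact ⟨1, le_rfl, by rw [card_res_inf, pow_one]⟩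
  · exact ⟨π.natDegree, h.irr.natDegree_pos, h.card_res⟩

theorem hasGenus : HasGenus K (RatFunc K) 0 := by
  rw [HasGenus, pow_zero]
  have h : (Bdd (0 : DV (RatFunc K) → ℤ) ⊔ Prin (RatFunc K)).addSubgroupOf (Adl (RatFunc K)) = ⊤ := by
    rw [AddSubgroup.addSubgroupOf_eq_top]
    intro r hr
    obtain ⟨g, hg⟩ := genus_zero r hr
    rw [AddSubgroup.mem_sup]
    refine ⟨fun v => r v - g, ?_, fun _ => g, ⟨g, fun _ => rfl⟩, ?_⟩
    · intro v
      simpa using hg v
    · funext v
      exact sub_add_cancel _ _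
  rw [HH, h]
  have : Subsingleton (Adl (RatFunc K) ⧸ (⊤ : AddSubgroup (Adl (RatFunc K)))) :=
    QuotientAddGroup.subsingleton_quotient_top
  exact Nat.card_unique

/-- The rational function field. -/
theorem cv : Cv K (RatFunc K) 0 where
  poles := finite_poles
  const a h := const_of_int h
  res v := by
    obtain ⟨d, hd, h⟩ := card_res v
    have h1 : v.deg (Nat.card K) = d := by
      rw [DV.deg, h, Nat.log_pow (Finite.one_lt_card)]
    exact ⟨h1 ▸ hd, h1 ▸ h⟩
  genus := hasGenus

theorem deg_inf : (inf K).deg (Nat.card K) = 1 := by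
  have h := Nat.log_pow (b := Nat.card K) Finite.one_lt_card 1
  rw [pow_one] at h
  rw [DV.deg, card_res_inf, h]

theorem deg_pt (a : K) : (pt a).deg (Nat.card K) = 1 := by
  rw [DV.deg, (pt_at a).card_res, natDegree_X_sub_C, Nat.log_pow (Finite.one_lt_card)]

theorem At.deg {v : DV (RatFunc K)} {π : K[X]} (h : At v π) : v.deg (Nat.card K) = π.natDegree := by
  rw [DV.deg, h.card_res, Nat.log_pow (Finite.one_lt_card)]

end Rat

end Pool.Agent.FF
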