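import Pool.Agent.FF.DV

/-! Bombieri's upper bound for the number of rational places, from the two facts about the spaces
`L (n R)` of one rational place `R`: Riemann's inequality and the bound for the number of zeros. -/

set_option autoImplicit false

namespace Pool.Agent.FF

section

variable {k F : Type*} [Field k] [Field F] [Algebra k F]

/-- `v` is rational over `k` (the same as `DV.Rat`): every integral element is congruent to a
constant. -/
def Rt (k : Type*) {F : Type*} [Field k] [Field F] [Algebra k F] (v : DV F) : Prop :=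
  ∀ a : F, v.G 0 a → ∃ c : k, v.G 1 (a - algebraMap k F c)

/-- the functions with a pole of order at most `n` at `R` and no other pole -/
def LR (R : DV F) (n : ℕ) : Set F := {a | R.G (-n) a ∧ ∀ v : DV F, v ≠ R → v.G 0 a}

/-- the facts used about one rational place `R`; `dg` is any weight (the degree) -/
structure RRone (k : Type*) {F : Type*} [Field k] [Field F] [Algebra k F] (dg : DV F → ℕ)
    (R : DV F) (g : ℕ) : Prop where
  rat : Rt k R
  const : ∀ a : F, (∀ v : DV F, v.G 0 a) → ∃ c : k, a = algebraMap k F c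
  lower : ∀ n : ℕ, Nat.card k ^ (n + 1) ≤ Nat.card k ^ g * Nat.card (LR R n)
  zeros : ∀ (n : ℕ) (x : F), x ∈ LR R n → x ≠ 0 → ∀ S : Finset (DV F),
    (∀ v ∈ S, v ≠ R ∧ v.G 1 x) → ∑ v ∈ S, dg v ≤ n

theorem LR_zero_mem (R : DV F) (n : ℕ) : (0 : F) ∈ LR R n :=
  ⟨DV.G_zero _, fun _ _ => DV.G_zero _⟩

theorem LR_add {R : DV F} {n : ℕ} {a b : F} (ha : a ∈ LR R n) (hb : b ∈ LR R n) : a + b ∈ LR R n :=
  ⟨ha.1.add hb.1, fun v hv => (ha.2 v hv).add (hb.2 v hv)⟩

theorem LR_sub {R : DV F} {n : ℕ} {a b : F} (ha : a ∈ LR R n) (hb : b ∈ LR R n) : a - b ∈ LR R n :=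
  ⟨ha.1.sub hb.1, fun v hv => (ha.2 v hv).sub (hb.2 v hv)⟩

theorem LR_mono {R : DV F} {m n : ℕ} {a : F} (ha : a ∈ LR R m) (h : m ≤ n) : a ∈ LR R n :=
  ⟨ha.1.mono (by omega), ha.2⟩

theorem LR_mul {R : DV F} {m n : ℕ} {a b : F} (ha : a ∈ LR R m) (hb : b ∈ LR R n) :
    a * b ∈ LR R (m + n) :=
  ⟨(ha.1.mul hb.1).mono (by push_cast; omega), fun v hv => by simpa using (ha.2 v hv).mul (hb.2 v hv)⟩

theorem LR_pow {R : DV F} {m : ℕ} {a : F} (ha : a ∈ LR R m) (n : ℕ) : a ^ n ∈ LR R (n * m) :=
  ⟨(ha.1.pow n).mono (by push_cast; linarith [mul_comm (n : ℤ) (m : ℤ)]),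
    fun v hv => by simpa using (ha.2 v hv).pow n⟩

theorem LR_sum {R : DV F} {n : ℕ} {ι : Type*} (T : Finset ι) (f : ι → F)
    (h : ∀ i ∈ T, f i ∈ LR R n) : ∑ i ∈ T, f i ∈ LR R n := by
  classical
  induction T using Finset.induction_on with
  | empty => simpa using LR_zero_mem R n
  | insert a s ha ih =>
    rw [Finset.sum_insert ha]
    exact LR_add (h a (Finset.mem_insert_self _ _))
      (ih fun i hi => h i (Finset.mem_insert_of_mem hi))

theorem G0_algebraMap [Finite k] (P : DV F) (c : k) : P.G 0 (algebraMap k F c) := by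
  by_cases hc : c = 0
  · rw [hc, map_zero]; exact DV.G_zero _
  refine DV.G_of_le (le_of_eq ?_)
  obtain ⟨n, hn, h⟩ := (isOfFinOrder_iff_pow_eq_one.1 (isOfFinOrder_of_finite (Units.mk0 c hc)))
  have hcn : c ^ n = 1 := by simpa using congrArg Units.val h
  have h0 : algebraMap k F c ≠ 0 := by rwa [Ne, map_eq_zero]
  have h1 := P.ord_pow h0 n
  rw [← map_pow, hcn, map_one, P.ord_one] at h1
  rcases mul_eq_zero.1 h1.symm with h2 | h2
  · omega
  · exact h2.symm

theorem eq_zero_of_G1 [Finite k] (P : DV F) {c : k} (h : P.G 1 (algebraMap k F c)) : c = 0 := by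
  by_contra hc
  have h0 : algebraMap k F c ≠ 0 := by rwa [Ne, map_eq_zero]
  have h1 := h.le h0
  have h2 := (G0_algebraMap P c⁻¹).le (by rw [Ne, map_eq_zero]; exact inv_ne_zero hc)
  rw [map_inv₀, P.ord_inv h0] at h2
  omega

/-- `n` is a pole number at `R` -/
def PN (R : DV F) (n : ℕ) : Prop := ∃ u : F, u ∈ LR R n ∧ u ≠ 0 ∧ R.ord u = -n

open Classical in
/-- the pole numbers up to `n` -/
noncomputable def TT (R : DV F) (n : ℕ) : Finset ℕ := (Finset.range (n + 1)).filter (PN R)

theorem LR_finite_card [Finite k] {R : DV F} (hR : Rt k R)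
    (hc : ∀ a : F, (∀ v : DV F, v.G 0 a) → ∃ c : k, a = algebraMap k F c) (n : ℕ) :
    (LR R n).Finite ∧ Nat.card (LR R n) ≤ Nat.card k ^ (TT R n).card := by
  classical
  induction n with
  | zero =>
    have h0 : LR R 0 ⊆ Set.range (algebraMap k F) := by
      intro a ha
      obtain ⟨c, hc⟩ := hc a fun v => by
        by_cases hv : v = R
        · rw [hv]; simpa using ha.1
        · exact ha.2 v hv
      exact ⟨c, hc.symm⟩
    have hfin : (Set.range (algebraMap k F)).Finite := Set.finite_range _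
    refine ⟨hfin.subset h0, ?_⟩
    have h1 : (TT R 0) = {0} := by
      ext i
      simp only [TT, Finset.mem_filter, Finset.mem_range, Finset.mem_singleton]
      constructor
      · rintro ⟨h, -⟩; omega
      · rintro rfl
        exact ⟨by omega, 1, ⟨by simpa using DV.G_one, fun v _ => DV.G_one⟩, one_ne_zero, by
          simpa using R.ord_one⟩
    rw [h1, Finset.card_singleton, pow_one]
    calc Nat.card (LR R 0) ≤ Nat.card (Set.range (algebraMap k F)) :=
          Nat.card_mono hfin h0
      _ = Nat.card k := Nat.card_range_of_injective (algebraMap k F).injective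
  | succ n ih =>
    obtain ⟨ih1, ih2⟩ := ih
    by_cases hp : PN R (n + 1)
    · obtain ⟨u, hu, hu0, hu1⟩ := hp
      have hT : TT R (n + 1) = insert (n + 1) (TT R n) := by
        unfold TT
        rw [Finset.range_add_one, Finset.filter_insert, if_pos ⟨u, hu, hu0, hu1⟩]
      have hT' : (TT R (n + 1)).card = (TT R n).card + 1 := by
        rw [hT, Finset.card_insert_of_notMem]
        simp [TT]
      have hsub : LR R (n + 1) ⊆ (fun p : k × F => algebraMap k F p.1 * u + p.2) ''
          (Set.univ ×ˢ LR R n) := by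
        intro x hx
        have h1 : R.G 0 (x / u) := by
          rw [div_eq_mul_inv]
          have h2 : R.G (n + 1 : ℕ) u⁻¹ := DV.G_of_le (by rw [R.ord_inv hu0, hu1]; simp)
          exact (hx.1.mul h2).mono (by simp)
        obtain ⟨c, hc⟩ := hR _ h1
        refine ⟨(c, x - algebraMap k F c * u), ⟨Set.mem_univ _, ⟨?_, ?_⟩⟩, by simp⟩
        · have h3 : x - algebraMap k F c * u = (x / u - algebraMap k F c) * u := by
            field_simp
          rw [h3]
          exact (hc.mul (DV.G_ord u)).mono (by rw [hu1]; push_cast; omega)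
        · intro v hv
          refine (hx.2 v hv).sub ?_
          simpa using (G0_algebraMap v c).mul (hu.2 v hv)
      have hfin : ((fun p : k × F => algebraMap k F p.1 * u + p.2) ''
          (Set.univ ×ˢ LR R n)).Finite := (Set.finite_univ.prod ih1).image _
      refine ⟨hfin.subset hsub, ?_⟩
      calc Nat.card (LR R (n + 1)) ≤ _ := Nat.card_mono hfin hsub
        _ ≤ Nat.card ((Set.univ : Set k) ×ˢ LR R n : Set (k × F)) :=
          Nat.card_image_le (Set.finite_univ.prod ih1)
        _ = Nat.card k * Nat.card (LR R n) := by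
          rw [Nat.card_congr (Equiv.Set.prod _ _), Nat.card_prod, Nat.card_univ]
        _ ≤ Nat.card k * Nat.card k ^ (TT R n).card := Nat.mul_le_mul_left _ ih2
        _ = Nat.card k ^ (TT R (n + 1)).card := by rw [hT', pow_succ]; ring
    · have hT : TT R (n + 1) = TT R n := by
        unfold TT
        rw [Finset.range_add_one, Finset.filter_insert, if_neg hp]
      have hsub : LR R (n + 1) ⊆ LR R n := by
        intro x hx
        by_cases hx0 : x = 0
        · rw [hx0]; exact LR_zero_mem R n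
        refine ⟨DV.G_of_le ?_, hx.2⟩
        by_contra hlt
        push Not at hlt
        refine hp ⟨x, hx, hx0, le_antisymm ?_ ?_⟩
        · push_cast; omega
        · exact hx.1.le hx0
      rw [hT]
      exact ⟨ih1.subset hsub, (Nat.card_mono ih1 hsub).trans ih2⟩

theorem TT_card_le (R : DV F) (n : ℕ) : (TT R n).card ≤ n + 1 := by
  classical
  unfold TT
  exact (Finset.card_filter_le _ _).trans (by simp)

/-- Number of pole numbers up to `n` from Riemann's inequality. -/
theorem RRone.le_TT [Finite k] {dg : DV F → ℕ} {R : DV F} {g : ℕ} (h : RRone k dg R g) (n : ℕ) :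
    n + 1 ≤ g + (TT R n).card := by
  have h1 : 1 < Nat.card k := Finite.one_lt_card
  have h2 := (LR_finite_card h.rat h.const n).2
  have h3 := (h.lower n).trans (Nat.mul_le_mul_left _ h2)
  rw [← pow_add] at h3
  exact (Nat.pow_le_pow_iff_right h1).1 h3

/-! ### Sums -/

theorem G_sum {P : DV F} {n : ℤ} {ι : Type*} (T : Finset ι) (f : ι → F)
    (h : ∀ i ∈ T, P.G n (f i)) : P.G n (∑ i ∈ T, f i) := by
  classical
  induction T using Finset.induction_on with
  | empty => simpa using DV.G_zero n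
  | insert a s ha ih =>
    rw [Finset.sum_insert ha]
    exact (h a (Finset.mem_insert_self _ _)).add (ih fun i hi => h i (Finset.mem_insert_of_mem hi))

/-- Terms whose orders are pairwise distinct: the sum is not zero. -/
theorem sum_ne_zero_of_ord {P : DV F} {ι : Type*} (T : Finset ι) (f : ι → F)
    (hT : T.Nonempty) (h0 : ∀ i ∈ T, f i ≠ 0)
    (h : ∀ i ∈ T, ∀ j ∈ T, i ≠ j → P.ord (f i) ≠ P.ord (f j)) : ∑ i ∈ T, f i ≠ 0 := by
  classical
  obtain ⟨i, hi, hmin⟩ := T.exists_min_image (fun i => P.ord (f i)) hT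
  rw [← Finset.add_sum_erase T f hi]
  refine (DV.ord_add_of_lt (v := P) (h0 i hi) (G_sum _ _ fun j hj => ?_)).1
  have hj' := Finset.mem_erase.1 hj
  refine DV.G_of_le ?_
  have h1 := hmin j hj'.2
  have h2 := h i hi j hj'.2 (Ne.symm hj'.1)
  omega

end

/-- **Bombieri's bound, twisted by `τ`.** `s` is a power of two, `s ≥ (g + 1) (g + 2)`: the places
other than `R` at which `x ^ (s ^ 2)` is congruent to `τ x` for all `x` in all `L (n R)` have total
degree less than `s ^ 2 + (2 g + 1) s`. -/
theorem bombieri {k F : Type*} [Field k] [Finite k] [Field F] [Algebra k F] [CharP F 2]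
    {dg : DV F → ℕ} {R : DV F} {g : ℕ} (h : RRone k dg R g) (τ : F →+* F)
    (hτ : ∀ n, ∀ x ∈ LR R n, τ x ∈ LR R n) {e s : ℕ} (hs : s = 2 ^ e)
    (hg : (g + 1) * (g + 2) ≤ s) (S : Finset (DV F))
    (hS : ∀ v ∈ S, v ≠ R ∧ ∀ n, ∀ x ∈ LR R n, v.G 1 (x ^ s ^ 2 - τ x)) :
    ∑ v ∈ S, dg v + 1 ≤ s ^ 2 + (2 * g + 1) * s := by
  classical
  have hs1 : 1 ≤ s := by rw [hs]; exact Nat.one_le_two_pow
  obtain ⟨m, rfl⟩ : ∃ m, s = m + 1 := ⟨s - 1, by omega⟩
  set s := m + 1 with hsm
  set n := s + 2 * g with hn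
  have hcard1 : 1 < Nat.card k := Finite.one_lt_card
  -- the functions `u i`
  have hu : ∀ i : TT R m, ∃ u : F, u ∈ LR R i ∧ u ≠ 0 ∧ R.ord u = -(i : ℕ) := fun i =>
    (Finset.mem_filter.1 i.2).2
  choose u hu1 hu2 hu3 using hu
  have him : ∀ i : TT R m, (i : ℕ) ≤ m := fun i => by
    have := Finset.mem_range.1 (Finset.mem_filter.1 i.2).1
    omega
  obtain ⟨hfn, -⟩ := LR_finite_card h.rat h.const n
  obtain ⟨hfN, hcN⟩ := LR_finite_card h.rat h.const (s * m + n)
  have : Finite (LR R n) := hfn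
  have : Finite (LR R (s * m + n)) := hfN
  -- the map `ψ`
  have hψ : ∀ z : TT R m → LR R n, ∑ i, u i ^ s * τ (z i : F) ∈ LR R (s * m + n) := fun z =>
    LR_sum _ _ fun i _ => LR_mono (LR_mul (LR_pow (hu1 i) s) (hτ _ _ (z i).2)) (by
      have := him i
      have := Nat.mul_le_mul_left s this
      omega)
  let ψ : (TT R m → LR R n) → LR R (s * m + n) := fun z => ⟨_, hψ z⟩
  have hlt : Nat.card (LR R (s * m + n)) < Nat.card (TT R m → LR R n) := by
    have h1 : Nat.card (TT R m → LR R n) = Nat.card (LR R n) ^ (TT R m).card := by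
      rw [Nat.card_fun, Nat.card_eq_fintype_card (α := TT R m), Fintype.card_coe]
    have h2 : Nat.card k ^ (n + 1 - g) ≤ Nat.card (LR R n) := by
      have h3 := h.lower n
      have h4 : n + 1 = g + (n + 1 - g) := by omega
      rw [h4, pow_add] at h3
      exact Nat.le_of_mul_le_mul_left h3 (by positivity)
    have h3 : m + 1 - g ≤ (TT R m).card := by
      have := h.le_TT m
      omega
    have h4 : (s * m + n) + 1 < (n + 1 - g) * (m + 1 - g) := by
      obtain ⟨d, hd⟩ : ∃ d, s = (g + 1) * (g + 2) + d := ⟨s - (g + 1) * (g + 2), by omega⟩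
      have e0 : (g + 1) * (g + 2) = g * g + 3 * g + 2 := by ring
      have e1 : n + 1 - g = s + g + 1 := by omega
      obtain ⟨c, hc⟩ : ∃ c, s = g + c := ⟨s - g, by omega⟩
      have e2 : m + 1 - g = c := by omega
      rw [e1, e2]
      have e3 : s * m + s = s * s := by rw [hsm]; ring
      have e4 : s * m + n + 1 = s * s + 2 * g + 1 := by omega
      have hc2 : c = g * g + 2 * g + 2 + d := by omega
      rw [e4, hc, hc2]
      nlinarith
    calc Nat.card (LR R (s * m + n)) ≤ Nat.card k ^ (TT R (s * m + n)).card := hcN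
      _ ≤ Nat.card k ^ (s * m + n + 1) := Nat.pow_le_pow_right (by omega) (TT_card_le _ _)
      _ < Nat.card k ^ ((n + 1 - g) * (m + 1 - g)) := Nat.pow_lt_pow_right hcard1 h4
      _ = (Nat.card k ^ (n + 1 - g)) ^ (m + 1 - g) := by rw [pow_mul]
      _ ≤ (Nat.card (LR R n)) ^ (m + 1 - g) := Nat.pow_le_pow_left h2 _
      _ ≤ (Nat.card (LR R n)) ^ (TT R m).card := by
        refine Nat.pow_le_pow_right ?_ h3
        exact lt_of_lt_of_le (by positivity) h2
      _ = _ := h1.symm
  have hnotinj : ¬ Function.Injective ψ := fun hinj =>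
    absurd (Nat.card_le_card_of_injective ψ hinj) (by omega)
  simp only [Function.Injective, not_forall] at hnotinj
  obtain ⟨z1, z2, hz, hne⟩ := hnotinj
  -- the difference
  let z : TT R m → F := fun i => (z1 i : F) - z2 i
  have hzL : ∀ i, z i ∈ LR R n := fun i => LR_sub (z1 i).2 (z2 i).2
  have hz0 : ∑ i, u i ^ s * τ (z i) = 0 := by
    have := congrArg Subtype.val hz
    simp only [ψ] at this
    simp only [z, map_sub, mul_sub, Finset.sum_sub_distrib]
    rw [this, sub_self]
  have hzne : ∃ i, z i ≠ 0 := by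
    by_contra hall
    push Not at hall
    exact hne (funext fun i => Subtype.ext (sub_eq_zero.1 (hall i)))
  -- the function `x`
  set x : F := ∑ i, u i * z i ^ s with hx
  have hxL : x ∈ LR R (m + s * n) := LR_sum _ _ fun i _ =>
    LR_mono (LR_mul (hu1 i) (LR_pow (hzL i) s)) (by have := him i; omega)
  have hx0 : x ≠ 0 := by
    have h1 : x = ∑ i ∈ Finset.univ.filter (fun i => z i ≠ 0), u i * z i ^ s := by
      rw [hx, Finset.sum_filter]
      refine Finset.sum_congr rfl fun i _ => ?_
      by_cases hi : z i = 0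
      · rw [if_neg (by simpa using hi), hi, zero_pow (by omega), mul_zero]
      · rw [if_pos hi]
    rw [h1]
    refine sum_ne_zero_of_ord (P := R) _ _ ?_ ?_ ?_
    · obtain ⟨i, hi⟩ := hzne
      exact ⟨i, by simpa using hi⟩
    · intro i hi
      exact mul_ne_zero (hu2 i) (pow_ne_zero _ (Finset.mem_filter.1 hi).2)
    · intro i hi j hj hij heq
      have hi0 := (Finset.mem_filter.1 hi).2
      have hj0 := (Finset.mem_filter.1 hj).2
      rw [R.ord_mul _ _ (hu2 i) (pow_ne_zero _ hi0), R.ord_mul _ _ (hu2 j) (pow_ne_zero _ hj0),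
        R.ord_pow hi0, R.ord_pow hj0, hu3, hu3] at heq
      have h2 : ((i : ℕ) : ℤ) - (j : ℕ) = s * (R.ord (z i) - R.ord (z j)) := by linarith
      have h3 : ((i : ℕ) : ℤ) - (j : ℕ) = 0 := by
        have hdvd : (s : ℤ) ∣ ((i : ℕ) : ℤ) - (j : ℕ) := ⟨_, h2⟩
        have hi' := him i
        have hj' := him j
        refine Int.eq_zero_of_abs_lt_dvd hdvd ?_
        rw [abs_lt]
        constructor <;> omega
      exact hij (Subtype.ext (by omega))
  -- it vanishes at all places of `S`
  have hzero : ∀ P ∈ S, P.G 1 x := by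
    intro P hP
    obtain ⟨hPR, hc⟩ := hS P hP
    have h1 : P.G 1 (∑ i, (u i ^ s * z i ^ s ^ 2 - u i ^ s * τ (z i))) := by
      refine G_sum _ _ fun i _ => ?_
      rw [← mul_sub]
      have h2 := ((hu1 i).2 P hPR).pow s
      exact (h2.mul (hc n (z i) (hzL i))).mono (by simp)
    rw [Finset.sum_sub_distrib, hz0, sub_zero] at h1
    have h3 : x ^ s = ∑ i, u i ^ s * z i ^ s ^ 2 := by
      rw [hx, hs, sum_pow_char_pow, ← hs]
      refine Finset.sum_congr rfl fun i _ => ?_
      rw [mul_pow, ← pow_mul, sq]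
    rw [← h3] at h1
    by_contra hcon
    have hlt := (DV.not_G hx0).1 hcon
    have h4 := h1.le (pow_ne_zero _ hx0)
    rw [P.ord_pow hx0] at h4
    have h5 : P.ord x ≤ 0 := by omega
    have : (s : ℤ) * P.ord x ≤ 0 := mul_nonpos_of_nonneg_of_nonpos (by positivity) h5
    omega
  have hfinal := h.zeros _ x hxL hx0 S fun v hv => ⟨(hS v hv).1, hzero v hv⟩
  have h7 : m + s * n + 1 = s ^ 2 + (2 * g + 1) * s := by
    rw [hn]
    have : s * (s + 2 * g) = s ^ 2 + 2 * g * s := by ring
    have : (2 * g + 1) * s = 2 * g * s + s := by ring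
    omega
  omega

end Pool.Agent.FF
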