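import Pool.Agent.FF.Fiber
import Pool.Agent.FF.Defs

/-! The dictionary between `FF.Defs` and `FF.Adele`, `FF.Deg`, and the facts on the fibres of a double
extension in the language of `FF.Defs`. -/

set_option autoImplicit false
set_option linter.unusedSectionVars false

namespace Pool.Agent.FF

section

variable {K : Type*} [Field K]

theorem DV.grp_eq_O (v : DV K) (n : ℤ) : v.grp n = v.O n := rfl

theorem DV.card_Res (v : DV K) : Nat.card v.Res = v.resCard := rfl

theorem DV.deg_eq (k : Type*) [Field k] (v : DV K) : v.deg (Nat.card k) = Pool.Agent.FF.deg k v := rfl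

theorem Adl_eq : Adl K = Adele K := rfl

theorem Prin_eq : Prin K = diag K := by
  ext r
  exact mem_diag.symm

theorem Bdd_eq (D : DV K → ℤ) : Bdd D = AInt (-D) := rfl

theorem Bdd_neg_eq (D : DV K → ℤ) : Bdd (-D) = AInt D := by
  rw [Bdd_eq, neg_neg]

theorem card_HH (D : DV K → ℤ) : Nat.card (HH D) = hCard (-D) := by
  unfold hCard HH
  rw [← Bdd_eq, ← Prin_eq]
  rfl

theorem card_HH_zero : Nat.card (HH (0 : DV K → ℤ)) = hCard (0 : DV K → ℤ) := by
  rw [card_HH, neg_zero]

theorem Cv.ffp {k : Type*} [Field k] [Finite k] [Algebra k K] {g : ℕ} (h : Cv k K g) : FFp k K where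
  fin := h.poles
  const := h.const
  res := fun P => by
    rw [← DV.card_Res, (h.res P).2]
    exact pow_ne_zero _ Nat.card_pos.ne'

theorem Cv.hCard_zero {k : Type*} [Field k] [Algebra k K] {g : ℕ} (h : Cv k K g) :
    hCard (0 : DV K → ℤ) = Nat.card k ^ g := by
  rw [← card_HH_zero]
  exact h.genus

end

section

variable {k K K' : Type*} [Field k] [Finite k] [Field K] [Field K'] [Algebra k K] [Algebra k K']
  [Algebra K K']

theorem res_ne_zero {v : DV K} (hv : Nat.card v.Res = Nat.card k ^ v.deg (Nat.card k)) :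
    v.resCard ≠ 0 := by
  rw [← DV.card_Res, hv]
  exact pow_ne_zero _ Nat.card_pos.ne'

/-- (H4) -/
theorem DV.Rat.deg_eq_one {v : DV K} (h : v.Rat k) : v.deg (Nat.card k) = 1 := by
  have h1 := (rational_iff k v).2 h
  change Nat.log _ _ = 1
  rw [DV.card_Res, h1]
  have := Nat.log_pow (one_lt_card k) 1
  rwa [pow_one] at this

theorem DV.rat_iff {v : DV K} (hv : Nat.card v.Res = Nat.card k ^ v.deg (Nat.card k)) :
    v.Rat k ↔ v.deg (Nat.card k) = 1 := by
  rw [DV.deg_eq, deg_eq_one_iff k v (res_ne_zero hv)]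
  rfl

theorem DV.Rat.card_Res {v : DV K} (h : v.Rat k) : Nat.card v.Res = Nat.card k := (rational_iff k v).2 h

variable [CharP K 2] {f : K} (S : AS K K' f)

include S

/-- degrees above -/
theorem AS.deg_res_over {v : DV K} (hv : 1 ≤ v.deg (Nat.card k) ∧
    Nat.card v.Res = Nat.card k ^ v.deg (Nat.card k)) {w : DV K'} (hw : Over w v) :
    1 ≤ w.deg (Nat.card k) ∧ Nat.card w.Res = Nat.card k ^ w.deg (Nat.card k) := by
  have h0 := res_ne_zero hv.2
  have h1 : w.resCard ≠ 0 := S.resCard_ne_zero h0 hw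
  exact ⟨deg_pos k w h1, resCard_eq_pow k w h1⟩

/-- (H1) the fundamental inequality -/
theorem AS.sum_deg_over_le {v : DV K} (hv : Nat.card v.Res = Nat.card k ^ v.deg (Nat.card k))
    (B : Finset (DV K')) (hB : ∀ w ∈ B, Over w v) :
    ∑ w ∈ B, w.deg (Nat.card k) ≤ 2 * v.deg (Nat.card k) :=
  S.sum_deg_le (k := k) (res_ne_zero hv) B hB

/-- (H2) ramified places -/
theorem AS.deg_of_odd {v : DV K} {w : DV K'} (hw : Over w v) {m : ℕ} (hm : Odd m)
    (hf : v.ord f = -m) (q : ℕ) : w.deg q = v.deg q := by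
  have h := (S.over_of_odd' hw hm hf).2.2.1
  change Nat.log q w.resCard = Nat.log q v.resCard
  rw [h]

/-- (H3) split rational places -/
theorem AS.split_places_rat {v : DV K} (hr : v.Rat k) {b : K} (hs : v.G 1 (f + (b ^ 2 + b))) :
    ∃ w₁ w₂ : DV K', w₁ ≠ w₂ ∧ Over w₁ v ∧ Over w₂ v ∧ (∀ w : DV K', Over w v → w = w₁ ∨ w = w₂) ∧
    w₁.Rat k ∧ w₂.Rat k ∧
    (∀ a : K, w₁.ord (algebraMap K K' a) = v.ord a) ∧ (∀ a : K, w₂.ord (algebraMap K K' a) = v.ord a) ∧
    w₁.G 1 (S.y + algebraMap K K' b) ∧ w₂.G 1 (S.y + algebraMap K K' b + 1) := by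
  obtain ⟨w₁, w₂, h1, h2, h3, h4, h5, h6, h7⟩ := S.split_places hs
  have h0 : v.resCard = Nat.card k := (rational_iff k v).2 hr
  exact ⟨w₁, w₂, h1, h2, h3, h4, (rational_iff k w₁).1 (h5.trans h0), (rational_iff k w₂).1 (h6.trans h0),
    h7⟩

end

end Pool.Agent.FF
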