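import Pool.Agent.FF.Deg

/-! The places whose residue field is contained in the extension of degree `r` of the constant field:
`x ^ (q ^ r)` is congruent to `x` for all integral `x`; the same as: the degree divides `r`. -/

set_option autoImplicit false

namespace Pool.Agent.FF

/-- `x ^ (q ^ r) = x` in the residue field -/
def Er (k : Type*) [Field k] {F : Type*} [Field F] (v : DV F) (r : ℕ) : Prop :=
  ∀ a : F, v.G 0 a → v.G 1 (a ^ (Nat.card k ^ r) - a)

/-- the places of `F` with `Er` have total degree at least `s ^ 2 - C s` -/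
def Wt (k F : Type*) [Field k] [Field F] (r s C : ℕ) : Prop :=
  ∃ A : Finset (DV F), (∀ v ∈ A, Er k v r) ∧ s ^ 2 ≤ ∑ v ∈ A, deg k v + C * s

/-- at most `N` places of degree at most `D` -/
def Few (k F : Type*) [Field k] [Field F] (D N : ℕ) : Prop :=
  ∀ A : Finset (DV F), (∀ v ∈ A, deg k v ≤ D) → A.card ≤ N

section residue

variable {F : Type*} [Field F] (v : DV F)

/-- the valuation ring -/
def DV.ring : Subring F where
  carrier := {a | v.G 0 a}
  zero_mem' := DV.G_zero 0
  one_mem' := DV.G_one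
  add_mem' ha hb := DV.G.add ha hb
  neg_mem' ha := DV.G.neg ha
  mul_mem' ha hb := by simpa using DV.G.mul ha hb

/-- the maximal ideal -/
def DV.mx : Ideal v.ring where
  carrier := {a | v.G 1 (a : F)}
  zero_mem' := DV.G_zero 1
  add_mem' ha hb := DV.G.add ha hb
  smul_mem' c a ha := by
    have h : v.G (0 + 1) ((c : F) * a) := DV.G.mul c.2 ha
    rwa [zero_add] at h

theorem DV.mx_maximal : v.mx.IsMaximal := by
  rw [Ideal.isMaximal_iff]
  refine ⟨?_, ?_⟩
  · exact v.one_notMem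
  · intro J x hJ hx hxJ
    have hx0 : (x : F) ≠ 0 := DV.ne_zero_of_not_G hx
    have h1 := (DV.not_G hx0).1 hx
    have h2 : v.G 0 ((x : F)⁻¹) := DV.G_of_le (by
      have := DV.G.le x.2 hx0
      rw [v.ord_inv hx0]; omega)
    have h3 : (⟨_, h2⟩ : v.ring) * x = 1 := Subtype.ext (inv_mul_cancel₀ hx0)
    rw [← h3]
    exact J.mul_mem_left _ hxJ

theorem DV.card_quot : Nat.card (v.ring ⧸ v.mx) = v.resCard := rfl

/-- In a finite residue field `x ^ N = x`, `N` the number of elements. -/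
theorem DV.pow_resCard (hv : v.resCard ≠ 0) {a : F} (ha : v.G 0 a) : v.G 1 (a ^ v.resCard - a) := by
  have := v.mx_maximal
  let _ : Field (v.ring ⧸ v.mx) := Ideal.Quotient.field v.mx
  have hfin : Finite (v.ring ⧸ v.mx) := Nat.finite_of_card_ne_zero (by rwa [v.card_quot])
  have := Fintype.ofFinite (v.ring ⧸ v.mx)
  have h1 := FiniteField.pow_card (Ideal.Quotient.mk v.mx ⟨a, ha⟩)
  rw [← Nat.card_eq_fintype_card, v.card_quot, ← map_pow, Ideal.Quotient.eq] at h1
  exact h1

/-- If `x ^ (q ^ r) = x` in the residue field with `q ^ d` elements, then `d` divides `r`. -/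
theorem DV.dvd_of_pow (hv : v.resCard ≠ 0) {q d r : ℕ} (hq : 1 < q) (hd : v.resCard = q ^ d)
    (h : ∀ a : F, v.G 0 a → v.G 1 (a ^ (q ^ r) - a)) : d ∣ r := by
  have := v.mx_maximal
  let _ : Field (v.ring ⧸ v.mx) := Ideal.Quotient.field v.mx
  have hfin : Finite (v.ring ⧸ v.mx) := Nat.finite_of_card_ne_zero (by rwa [v.card_quot])
  have := Fintype.ofFinite (v.ring ⧸ v.mx)
  have h1 : ∀ x : v.ring ⧸ v.mx, x ^ (q ^ r) = x := by
    intro x
    obtain ⟨⟨a, ha⟩, rfl⟩ := Ideal.Quotient.mk_surjective x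
    rw [← map_pow, Ideal.Quotient.eq]
    exact h a ha
  obtain ⟨u, hu⟩ := IsCyclic.exists_generator (α := (v.ring ⧸ v.mx)ˣ)
  have h2 : orderOf u = q ^ d - 1 := by
    rw [orderOf_eq_card_of_forall_mem_zpowers hu, Nat.card_units, v.card_quot, hd]
  have h3 : u ^ (q ^ r - 1) = 1 := by
    have h4 : u ^ (q ^ r) = u := Units.ext (by rw [Units.val_pow_eq_pow_val]; exact h1 u)
    have h5 : q ^ r - 1 + 1 = q ^ r := Nat.sub_add_cancel (Nat.one_le_pow _ _ (by omega))
    have h6 : u ^ (q ^ r - 1) * u = u := by rw [← pow_succ, h5, h4]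
    simpa using h6
  have h7 : q ^ d - 1 ∣ q ^ r - 1 := by rw [← h2]; exact orderOf_dvd_of_pow_eq_one h3
  have h8 := Nat.pow_sub_one_gcd_pow_sub_one q d r
  rw [Nat.gcd_eq_left h7] at h8
  have h9 : q ^ d = q ^ (d.gcd r) := by
    have a1 : 1 ≤ q ^ d := Nat.one_le_pow _ _ (by omega)
    have a2 : 1 ≤ q ^ (d.gcd r) := Nat.one_le_pow _ _ (by omega)
    omega
  have h10 := Nat.pow_right_injective hq h9
  rw [h10]
  exact Nat.gcd_dvd_right d r

end residue

section

variable {k F : Type*} [Field k] [Finite k] [Field F] [Algebra k F] {v : DV F}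

theorem Er_of_dvd (hv : v.resCard ≠ 0) {r : ℕ} (h : deg k v ∣ r) : Er k v r := by
  obtain ⟨m, rfl⟩ := h
  intro a ha
  rw [pow_mul, ← resCard_eq_pow k v hv]
  induction m with
  | zero => simpa using DV.G_zero 1
  | succ m ih =>
    rw [pow_succ, pow_mul]
    have h1 : v.G 0 (a ^ v.resCard ^ m) := by simpa using ha.pow (v.resCard ^ m)
    have h2 := v.pow_resCard hv h1
    have h3 := h2.add ih
    have h4 : (a ^ v.resCard ^ m) ^ v.resCard - a ^ v.resCard ^ m + (a ^ v.resCard ^ m - a) =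
      (a ^ v.resCard ^ m) ^ v.resCard - a := by ring
    rwa [h4] at h3

theorem dvd_of_Er (hv : v.resCard ≠ 0) {r : ℕ} (h : Er k v r) : deg k v ∣ r :=
  v.dvd_of_pow hv (one_lt_card k) (resCard_eq_pow k v hv) h

/-- The final step: a place of degree exactly `r`. -/
theorem exists_deg_eq (hres : ∀ v : DV F, v.resCard ≠ 0) {r s C N : ℕ} (hr : 1 ≤ r)
    (h : Wt k F r s C) (hf : Few k F (r / 2) N) (hlt : r / 2 * N + C * s < s ^ 2) :
    ∃ v : DV F, deg k v = r := by
  classical
  obtain ⟨A, hA, hs⟩ := h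
  by_contra hcon
  push Not at hcon
  have h1 : ∀ v ∈ A, deg k v ≤ r / 2 := by
    intro v hv
    obtain ⟨m, hm⟩ := dvd_of_Er (hres v) (hA v hv)
    have hne := hcon v
    have hm2 : 2 ≤ m := by
      rcases m with _ | _ | m
      · omega
      · exact absurd (by rw [hm]; ring) hne
      · omega
    rw [Nat.le_div_iff_mul_le (by norm_num)]
    calc deg k v * 2 ≤ deg k v * m := Nat.mul_le_mul_left _ hm2
      _ = r := hm.symm
  have h2 : ∑ v ∈ A, deg k v ≤ r / 2 * N := by
    calc ∑ v ∈ A, deg k v ≤ ∑ _v ∈ A, r / 2 := Finset.sum_le_sum h1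
      _ = r / 2 * A.card := by rw [Finset.sum_const, smul_eq_mul, mul_comm]
      _ ≤ r / 2 * N := Nat.mul_le_mul_left _ (hf A h1)
  omega

end

end Pool.Agent.FF
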