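import Pool.Agent.FF.Over
import Pool.Agent.FF.Defs

/-! # Discrete valuations in a finite extension: restriction and extension -/

set_option autoImplicit false

namespace Pool.Agent.FF

/-- A nontrivial integer valued order function is a multiple of a normalised one. -/
theorem exists_norm {F : Type*} [Field F] (ω : F → ℤ)
    (hmul : ∀ a b : F, a ≠ 0 → b ≠ 0 → ω (a * b) = ω a + ω b)
    (hadd : ∀ a b : F, a ≠ 0 → b ≠ 0 → a + b ≠ 0 → min (ω a) (ω b) ≤ ω (a + b))
    (hne : ∃ a : F, a ≠ 0 ∧ ω a ≠ 0) :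
    ∃ (v : DV F) (d : ℤ), 0 < d ∧ ∀ a : F, a ≠ 0 → ω a = d * v.ord a := by
  classical
  have h1 : ω 1 = 0 := by
    have := hmul 1 1 one_ne_zero one_ne_zero
    rw [mul_one] at this
    omega
  have hinv : ∀ a : F, a ≠ 0 → ω a⁻¹ = - ω a := by
    intro a ha
    have := hmul a a⁻¹ ha (inv_ne_zero ha)
    rw [mul_inv_cancel₀ ha, h1] at this
    omega
  let H : AddSubgroup ℤ :=
    { carrier := {n | ∃ a : F, a ≠ 0 ∧ ω a = n}
      zero_mem' := ⟨1, one_ne_zero, h1⟩
      add_mem' := by
        rintro _ _ ⟨a, ha, rfl⟩ ⟨b, hb, rfl⟩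
        exact ⟨a * b, mul_ne_zero ha hb, hmul a b ha hb⟩
      neg_mem' := by
        rintro _ ⟨a, ha, rfl⟩
        exact ⟨a⁻¹, inv_ne_zero ha, hinv a ha⟩ }
  obtain ⟨d₀, hd₀⟩ := Int.subgroup_cyclic H
  rw [← AddSubgroup.zmultiples_eq_closure] at hd₀
  have hdvd : ∀ a : F, a ≠ 0 → |d₀| ∣ ω a := by
    intro a ha
    have : ω a ∈ H := ⟨a, ha, rfl⟩
    rw [hd₀, Int.mem_zmultiples_iff] at this
    exact (abs_dvd _ _).2 this
  have hd0 : d₀ ≠ 0 := by
    rintro rfl
    obtain ⟨a, ha, hne⟩ := hne
    have := hdvd a ha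
    rw [abs_zero, zero_dvd_iff] at this
    exact hne this
  have hd : 0 < |d₀| := abs_pos.2 hd0
  have hq : ∀ a : F, a ≠ 0 → |d₀| * (ω a / |d₀|) = ω a := fun a ha => Int.mul_ediv_cancel' (hdvd a ha)
  have hmem : |d₀| ∈ H := by
    rw [hd₀, Int.mem_zmultiples_iff]
    exact (dvd_abs _ _).2 dvd_rfl
  obtain ⟨t, ht, ht1⟩ := hmem
  refine ⟨⟨fun a => if a = 0 then 0 else ω a / |d₀|, by simp, ?_, ?_, t, ht, ?_⟩, |d₀|, hd, ?_⟩
  · intro a b ha hb
    simp only [ha, hb, mul_ne_zero ha hb, if_false]
    apply mul_left_cancel₀ hd.ne'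
    rw [mul_add, hq a ha, hq b hb, hq _ (mul_ne_zero ha hb), hmul a b ha hb]
  · intro a b ha hb hab
    simp only [ha, hb, hab, if_false]
    have h2 := hadd a b ha hb hab
    rw [← hq a ha, ← hq b hb, ← hq _ hab, ← mul_min_of_nonneg _ _ hd.le] at h2
    exact le_of_mul_le_mul_left h2 hd
  · simp only [ht, if_false]
    rw [ht1]
    exact Int.ediv_self hd.ne'
  · intro a ha
    simp only [ha, if_false]
    exact (hq a ha).symm

/-- The valuation ring of a place. -/
def DV.vs {F : Type*} [Field F] (v : DV F) : ValuationSubring F where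
  carrier := {a | v.G 0 a}
  mul_mem' := fun {a b} ha hb => by
    have := DV.G.mul (v := v) ha hb
    rwa [add_zero] at this
  one_mem' := DV.G_one
  add_mem' := fun {a b} ha hb => DV.G.add ha hb
  zero_mem' := DV.G_zero 0
  neg_mem' := fun {a} ha => DV.G.neg ha
  mem_or_inv_mem' := by
    intro x
    by_cases hx : x = 0
    · left
      subst hx
      exact DV.G_zero 0
    · rcases le_or_gt 0 (v.ord x) with h | h
      · exact Or.inl (DV.G_of_le h)
      · refine Or.inr (DV.G_of_le ?_)
        rw [v.ord_inv hx]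
        omega

theorem DV.mem_vs {F : Type*} [Field F] {v : DV F} {a : F} : a ∈ v.vs ↔ v.G 0 a := Iff.rfl

/-- The composition of a place with an automorphism. -/
def DV.comp {F : Type*} [Field F] (v : DV F) (σ : F ≃+* F) : DV F where
  ord a := v.ord (σ a)
  ord_zero := by rw [map_zero, v.ord_zero]
  ord_mul a b ha hb := by
    rw [map_mul]
    exact v.ord_mul _ _ (by rwa [Ne, map_eq_zero_iff σ σ.injective])
      (by rwa [Ne, map_eq_zero_iff σ σ.injective])
  ord_add a b ha hb hab := by
    rw [map_add]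
    exact v.ord_add _ _ (by rwa [Ne, map_eq_zero_iff σ σ.injective])
      (by rwa [Ne, map_eq_zero_iff σ σ.injective])
      (by rwa [← map_add, Ne, map_eq_zero_iff σ σ.injective])
  exists_one := by
    obtain ⟨t, ht, h1⟩ := v.exists_one
    refine ⟨σ.symm t, by rwa [Ne, map_eq_zero_iff σ.symm σ.symm.injective], ?_⟩
    rw [σ.apply_symm_apply, h1]

theorem DV.comp_ord {F : Type*} [Field F] (v : DV F) (σ : F ≃+* F) (a : F) :
    (v.comp σ).ord a = v.ord (σ a) := rfl

theorem DV.comp_G {F : Type*} [Field F] (v : DV F) (σ : F ≃+* F) (n : ℤ) (a : F) :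
    (v.comp σ).G n a ↔ v.G n (σ a) := by
  unfold DV.G
  rw [DV.comp_ord, map_eq_zero_iff σ σ.injective]

section ext

variable {K L : Type*} [Field K] [Field L] [Algebra K L]

theorem Over.comp {w : DV L} {v : DV K} (h : Over w v) (σ : L ≃+* L)
    (hσ : ∀ a : K, σ (algebraMap K L a) = algebraMap K L a) : Over (w.comp σ) v := by
  obtain ⟨e, he, h⟩ := h
  refine ⟨e, he, fun a ha => ?_⟩
  rw [DV.comp_ord, hσ, h a ha]

theorem integral_mem_vs (w : DV L) (hw : ∀ a : K, w.G 0 (algebraMap K L a)) {x : L}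
    (hx : IsIntegral K x) : w.G 0 x := by
  let φ : K →+* w.vs := (algebraMap K L).codRestrict w.vs.toSubring hw
  obtain ⟨p, hp, h0⟩ := hx
  have h1 : IsIntegral w.vs x := by
    refine ⟨p.map φ, hp.map φ, ?_⟩
    rw [Polynomial.eval₂_map]
    have : (algebraMap w.vs L).comp φ = algebraMap K L := by
      ext a
      rfl
    rw [this]
    exact h0
  obtain ⟨y, hy⟩ := (IsIntegrallyClosed.isIntegral_iff (R := w.vs) (K := L)).1 h1
  rw [← hy]
  exact y.2

/-- Every place of an algebraic extension lies over a place. -/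
theorem exists_below [Algebra.IsIntegral K L] (w : DV L) : ∃ v : DV K, Over w v := by
  have hne : ∃ a : K, a ≠ 0 ∧ w.ord (algebraMap K L a) ≠ 0 := by
    by_contra hno
    push Not at hno
    have hG : ∀ a : K, w.G 0 (algebraMap K L a) := by
      intro a
      by_cases ha : a = 0
      · rw [ha, map_zero]; exact DV.G_zero 0
      · exact DV.G_of_le (hno a ha).ge
    obtain ⟨t, ht, ht1⟩ := w.exists_ord (-1)
    have := (integral_mem_vs w hG (Algebra.IsIntegral.isIntegral (R := K) t)).le ht
    omega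
  obtain ⟨v, d, hd, h⟩ := exists_norm (fun a : K => w.ord (algebraMap K L a))
    (fun a b ha hb => by
      show w.ord (algebraMap K L (a * b)) = _
      rw [map_mul, w.ord_mul _ _ (map_ne_zero' ha) (map_ne_zero' hb)])
    (fun a b ha hb hab => by
      show _ ≤ w.ord (algebraMap K L (a + b))
      rw [map_add]
      exact w.ord_add _ _ (map_ne_zero' ha) (map_ne_zero' hb)
        (by rw [← map_add]; exact map_ne_zero' hab))
    hne
  exact ⟨v, d, hd, h⟩

/-- Over every place lie only finitely many ones. -/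
theorem over_finite (hp : ∀ a : L, {w : DV L | ¬ w.G 0 a}.Finite) (v : DV K) :
    {w : DV L | Over w v}.Finite := by
  obtain ⟨t, ht, ht1⟩ := v.exists_ord (-1)
  refine (hp (algebraMap K L t)).subset fun w hw => ?_
  obtain ⟨e, he, h⟩ := hw
  show ¬ w.G 0 _
  rw [DV.not_G (map_ne_zero' ht), h t ht, ht1]
  omega

section above

variable (A : ValuationSubring L)

/-- Some power of an element of a finite extension has the same value as an element of the ground
field. -/
theorem exists_pow_val [FiniteDimensional K L] {x : L} (hx : x ≠ 0) :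
    ∃ m : ℕ, 0 < m ∧ m ≤ Module.finrank K L ∧ ∃ a : K, a ≠ 0 ∧
      A.valuation (x ^ m) = A.valuation (algebraMap K L a) := by
  classical
  have hint : IsIntegral K x := Algebra.IsIntegral.isIntegral x
  set p := minpoly K x with hp
  have hp0 : p ≠ 0 := minpoly.ne_zero hint
  have hdeg : p.natDegree ≤ Module.finrank K L := minpoly.natDegree_le x
  have hsum : ∑ i ∈ p.support, algebraMap K L (p.coeff i) * x ^ i = 0 := by
    have h := minpoly.aeval K x
    rw [Polynomial.aeval_def, Polynomial.eval₂_eq_sum, Polynomial.sum] at h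
    exact h
  let T : ℕ → L := fun i => algebraMap K L (p.coeff i) * x ^ i
  have hne : p.support.Nonempty := Polynomial.support_nonempty.2 hp0
  obtain ⟨i₀, hi₀, hmax⟩ := Finset.exists_max_image p.support (fun i => A.valuation (T i)) hne
  have hTne : ∀ i ∈ p.support, T i ≠ 0 := by
    intro i hi
    exact mul_ne_zero (map_ne_zero' (Polynomial.mem_support_iff.1 hi)) (pow_ne_zero i hx)
  have hex : ∃ j ∈ p.support, j ≠ i₀ ∧ A.valuation (T j) = A.valuation (T i₀) := by
    by_contra hno
    push Not at hno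
    have hlt : ∀ j ∈ p.support.erase i₀, A.valuation (T j) < A.valuation (T i₀) := by
      intro j hj
      rw [Finset.mem_erase] at hj
      exact lt_of_le_of_ne (hmax j hj.2) (hno j hj.2 hj.1)
    have h1 : A.valuation (∑ j ∈ p.support.erase i₀, T j) < A.valuation (T i₀) := by
      refine Valuation.map_sum_lt _ ?_ hlt
      rw [Ne, map_eq_zero]
      exact hTne i₀ hi₀
    have h2 : T i₀ = - ∑ j ∈ p.support.erase i₀, T j := by
      have := Finset.add_sum_erase p.support T hi₀
      rw [hsum] at this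
      exact eq_neg_of_add_eq_zero_left this
    rw [h2, Valuation.map_neg] at h1
    exact lt_irrefl _ h1
  obtain ⟨j, hj, hji, hval⟩ := hex
  -- the case `i < j`
  have key : ∀ i j : ℕ, i ∈ p.support → j ∈ p.support → i < j →
      A.valuation (T i) = A.valuation (T j) →
      ∃ m : ℕ, 0 < m ∧ m ≤ Module.finrank K L ∧ ∃ a : K, a ≠ 0 ∧
        A.valuation (x ^ m) = A.valuation (algebraMap K L a) := by
    intro i j hi hj hij h
    have hci := Polynomial.mem_support_iff.1 hi
    have hcj := Polynomial.mem_support_iff.1 hj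
    refine ⟨j - i, by omega, ?_, p.coeff i / p.coeff j, div_ne_zero hci hcj, ?_⟩
    · have := Polynomial.le_natDegree_of_mem_supp j hj
      omega
    · have h3 : x ^ j = x ^ (j - i) * x ^ i := by
        rw [← pow_add]
        congr 1
        omega
      have h4 : A.valuation (algebraMap K L (p.coeff i)) =
          A.valuation (algebraMap K L (p.coeff j)) * A.valuation (x ^ (j - i)) := by
        have h5 : A.valuation (algebraMap K L (p.coeff i)) * A.valuation (x ^ i) =
            A.valuation (algebraMap K L (p.coeff j)) * A.valuation (x ^ (j - i)) *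
              A.valuation (x ^ i) := by
          rw [mul_assoc, ← map_mul, ← map_mul, ← map_mul, ← h3]
          exact h
        refine mul_right_cancel₀ ?_ h5
        rw [Ne, map_eq_zero]
        exact pow_ne_zero i hx
      rw [map_div₀, map_div₀, h4, mul_div_cancel_left₀]
      rw [Ne, map_eq_zero]
      exact map_ne_zero' hcj
  rcases lt_or_gt_of_ne hji with h | h
  · exact key j i₀ hj hi₀ h hval
  · exact key i₀ j hi₀ hj h hval.symm

end above

/-- Over every place lies a place, in a finite extension. -/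
theorem exists_above [FiniteDimensional K L] (v : DV K) : ∃ w : DV L, Over w v := by
  classical
  obtain ⟨A, hA, hloc⟩ := IsLocalRing.exists_factor_valuationRing
    ((algebraMap K L).comp v.vs.subtype)
  have h1 : ∀ a : K, v.G 0 a → algebraMap K L a ∈ A := fun a ha => hA ⟨a, ha⟩
  have h2 : ∀ a : K, algebraMap K L a ∈ A → v.G 0 a := by
    intro a ha
    by_contra hn
    have ha0 := DV.ne_zero_of_not_G hn
    have hlt := (DV.not_G ha0).1 hn
    have hG : v.G 0 a⁻¹ := DV.G_of_le (by rw [v.ord_inv ha0]; omega)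
    have hu : IsUnit ((((algebraMap K L).comp v.vs.subtype).codRestrict A.toSubring hA)
        ⟨a⁻¹, hG⟩) := by
      refine isUnit_iff_exists_inv.2 ⟨⟨algebraMap K L a, ha⟩, ?_⟩
      apply Subtype.ext
      show algebraMap K L a⁻¹ * algebraMap K L a = 1
      rw [← map_mul, inv_mul_cancel₀ ha0, map_one]
    have hu2 := hloc.map_nonunit _ hu
    obtain ⟨b, hb⟩ := isUnit_iff_exists_inv.1 hu2
    have hb1 : a⁻¹ * (b : K) = 1 := congrArg Subtype.val hb
    have hb2 : (b : K) = a := by
      field_simp at hb1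
      exact hb1
    exact hn (hb2 ▸ b.2)
  have hval : ∀ a b : K, a ≠ 0 → b ≠ 0 →
      (A.valuation (algebraMap K L a) ≤ A.valuation (algebraMap K L b) ↔ v.ord b ≤ v.ord a) := by
    intro a b ha hb
    have hb' : A.valuation (algebraMap K L b) ≠ 0 := by
      rw [Ne, map_eq_zero]; exact map_ne_zero' hb
    have e1 : A.valuation (algebraMap K L a) ≤ A.valuation (algebraMap K L b) ↔
        algebraMap K L (a / b) ∈ A := by
      rw [← A.valuation_le_one_iff, map_div₀, map_div₀, div_le_one₀ (zero_lt_iff.2 hb')]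
    rw [e1]
    constructor
    · intro h
      have := (h2 _ h).le (div_ne_zero ha hb)
      rw [v.ord_div ha hb] at this
      omega
    · intro h
      apply h1
      apply DV.G_of_le
      rw [v.ord_div ha hb]
      omega
  have hvaleq : ∀ a b : K, a ≠ 0 → b ≠ 0 →
      A.valuation (algebraMap K L a) = A.valuation (algebraMap K L b) → v.ord a = v.ord b := by
    intro a b ha hb h
    exact le_antisymm ((hval b a hb ha).1 h.ge) ((hval a b ha hb).1 h.le)
  set N := (Module.finrank K L).factorial with hN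
  have hNpos : 0 < N := Nat.factorial_pos _
  have hpow : ∀ x : L, ∃ a : K, x ≠ 0 → a ≠ 0 ∧
      A.valuation (x ^ N) = A.valuation (algebraMap K L a) := by
    intro x
    by_cases hx : x = 0
    · exact ⟨0, fun h => absurd hx h⟩
    · obtain ⟨m, hm, hmn, a, ha, h⟩ := exists_pow_val (K := K) A hx
      obtain ⟨c, hc⟩ := Nat.dvd_factorial hm hmn
      refine ⟨a ^ c, fun _ => ⟨pow_ne_zero c ha, ?_⟩⟩
      rw [hN, hc, pow_mul, map_pow, h, map_pow, map_pow]
  choose α hα using hpow
  have hαne : ∀ x : L, x ≠ 0 → α x ≠ 0 := fun x hx => (hα x hx).1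
  have hαv : ∀ x : L, x ≠ 0 → A.valuation (x ^ N) = A.valuation (algebraMap K L (α x)) :=
    fun x hx => (hα x hx).2
  have hle : ∀ x y : L, x ≠ 0 → y ≠ 0 → A.valuation x ≤ A.valuation y →
      v.ord (α y) ≤ v.ord (α x) := by
    intro x y hx hy h
    rw [← hval _ _ (hαne x hx) (hαne y hy), ← hαv x hx, ← hαv y hy, map_pow, map_pow]
    exact pow_le_pow_left₀ zero_le' h N
  have hmap : ∀ a : K, a ≠ 0 → v.ord (α (algebraMap K L a)) = N * v.ord a := by
    intro a ha
    rw [← v.ord_pow ha]
    apply hvaleq _ _ (hαne _ (map_ne_zero' ha)) (pow_ne_zero N ha)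
    rw [← hαv _ (map_ne_zero' ha), map_pow (algebraMap K L)]
  obtain ⟨π, hπ, hπ1⟩ := v.exists_one
  obtain ⟨w, d, hd, h⟩ := exists_norm (fun x : L => v.ord (α x))
    (fun x y hx hy => by
      show v.ord (α (x * y)) = v.ord (α x) + v.ord (α y)
      rw [← v.ord_mul _ _ (hαne x hx) (hαne y hy)]
      apply hvaleq _ _ (hαne _ (mul_ne_zero hx hy)) (mul_ne_zero (hαne x hx) (hαne y hy))
      rw [← hαv _ (mul_ne_zero hx hy), mul_pow, map_mul, hαv x hx, hαv y hy, map_mul, map_mul])
    (fun x y hx hy hxy => by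
      show min (v.ord (α x)) (v.ord (α y)) ≤ v.ord (α (x + y))
      rcases le_total (A.valuation x) (A.valuation y) with h | h
      · exact (min_le_right _ _).trans (hle _ _ hxy hy
          ((A.valuation.map_add x y).trans (max_le h le_rfl)))
      · exact (min_le_left _ _).trans (hle _ _ hxy hx
          ((A.valuation.map_add x y).trans (max_le le_rfl h))))
    ⟨algebraMap K L π, map_ne_zero' hπ, by
      show v.ord (α (algebraMap K L π)) ≠ 0
      rw [hmap π hπ, hπ1]
      have : (N : ℤ) ≠ 0 := by exact_mod_cast hNpos.ne'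
      simpa using this⟩
  have hcomp : ∀ a : K, a ≠ 0 → d * w.ord (algebraMap K L a) = N * v.ord a := by
    intro a ha
    rw [← hmap a ha]
    exact (h _ (map_ne_zero' ha)).symm
  have h3 := hcomp π hπ
  rw [hπ1, mul_one] at h3
  have hNz : (0 : ℤ) < N := by exact_mod_cast hNpos
  refine ⟨w, w.ord (algebraMap K L π), ?_, fun a ha => ?_⟩
  · by_contra hneg
    push Not at hneg
    nlinarith
  · have h4 := hcomp a ha
    rw [← h3, mul_assoc] at h4
    exact mul_left_cancel₀ hd.ne' h4

end ext

end Pool.Agent.FF
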