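import Pool.Agent.FF.KlPl
import Pool.Agent.FF.KlEx
import Pool.Agent.FF.RatCv

/-! # The Kummer cover of degree 7 of the line over the field with eight elements

`θ ^ 7 = X ^ 4 (X + 1)`: genus three, ramified over `0`, `1`, `∞`, the three roots of `ζ ^ 3 + ζ + 1`
split. -/

set_option autoImplicit false
set_option linter.unusedSectionVars false

namespace Pool.Agent.FF

open Finset RRD

section general

variable {k K L : Type*} [Field k] [Finite k] [Field K] [Field L] [Algebra k K] [Algebra k L]
  [Algebra K L] [IsScalarTower k K L]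

/-- A finite extension with the same constants is again a function field over `k`. -/
theorem IsFF.ofFinite (h : IsFF k K) (hK : Module.Finite K L) {g' : ℕ} (C' : Cv k L g') :
    IsFF k L := by
  obtain ⟨w, hw, hfin⟩ := h.fin
  refine ⟨⟨algebraMap K L w, ?_, ?_⟩, ?_⟩
  · rwa [transcendental_algebraMap_iff (algebraMap K L).injective]
  · classical
    set L₀ := IntermediateField.adjoin k {w} with hL₀
    set M := IntermediateField.adjoin k {algebraMap K L w} with hM
    have hmap : L₀.map (IsScalarTower.toAlgHom k K L) = M := by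
      rw [hL₀, IntermediateField.adjoin_map, Set.image_singleton]
      rfl
    have hmem : ∀ x : L₀, algebraMap K L (x : K) ∈ M := by
      intro x
      rw [← hmap]
      exact ⟨x, x.2, rfl⟩
    let _ : Algebra L₀ M := RingHom.toAlgebra
      { toFun := fun x => ⟨algebraMap K L (x : K), hmem x⟩
        map_one' := by
          apply Subtype.ext
          simp
        map_mul' := fun x y => by
          apply Subtype.ext
          simp
        map_zero' := by
          apply Subtype.ext
          simp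
        map_add' := fun x y => by
          apply Subtype.ext
          simp }
    have t1 : IsScalarTower L₀ K L := inferInstance
    have t2 : IsScalarTower L₀ M L := by
      refine ⟨fun x y z => ?_⟩
      have e1 : x • y = (⟨algebraMap K L (x : K), hmem x⟩ : M) * y := rfl
      have e2 : x • (y • z) = (x : K) • (y • z) := rfl
      rw [e1, e2, Algebra.smul_def, Algebra.smul_def, Algebra.smul_def, map_mul, mul_assoc]
      rfl
    have h1 : Module.Finite L₀ K := hfin
    have h2 : Module.Finite L₀ L := Module.Finite.trans K L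
    exact Module.Finite.of_restrictScalars_finite L₀ M L
  · intro a ha
    refine C'.const a fun v => ?_
    by_cases ha0 : a = 0
    · exact Or.inl ha0
    have hint : IsIntegral k a := ha.isIntegral
    have hfd : FiniteDimensional k (IntermediateField.adjoin k {a}) :=
      IntermediateField.adjoin.finiteDimensional hint
    have hfi : Finite (IntermediateField.adjoin k {a}) := Module.finite_of_finite k
    set α : IntermediateField.adjoin k {a} := IntermediateField.AdjoinSimple.gen k a with hα
    have hα0 : α ≠ 0 := by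
      intro h0
      apply ha0
      have := congrArg (Subtype.val) h0
      simpa [hα] using this
    obtain ⟨n, hn, hpow⟩ := (isOfFinOrder_iff_pow_eq_one.1 (isOfFinOrder_of_finite (Units.mk0 α hα0)))
    have h1 : a ^ n = 1 := by
      have h2 := congrArg Units.val hpow
      have h3 : α ^ n = 1 := by simpa using h2
      have h4 := congrArg (Subtype.val) h3
      simpa [hα] using h4
    have h5 := v.ord_pow ha0 n
    rw [h1, v.ord_one] at h5
    refine DV.G_of_le ?_
    rcases mul_eq_zero.1 h5.symm with h6 | h6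
    · omega
    · exact h6.ge

theorem degZ_nonneg' {D : DV K →₀ ℤ} (h : ∀ P, 0 ≤ D P) : 0 ≤ degZ k D := by
  unfold degZ Finsupp.sum
  exact sum_nonneg fun P _ => mul_nonneg (h P) (by positivity)

/-- divisors of positive degree (of orders) -/
theorem hCard_of_degZ {g : ℕ} (C : Cv k K g) (D : DV K →₀ ℤ) (d : ℕ) (hd : degZ k D = d + 1) :
    hCard (D : DV K → ℤ) = Nat.card k ^ (g + d) := by
  have h1 : LInt (D : DV K → ℤ) = ⊥ := by
    rw [eq_bot_iff]
    intro a ha
    rw [AddSubgroup.mem_bot]
    by_contra h0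
    have h2 := degZ_divF C h0
    have h3 : 0 ≤ degZ k (divF k C a h0 + -D) := by
      refine degZ_nonneg' fun P => ?_
      rw [Finsupp.add_apply, Finsupp.neg_apply, divF_apply]
      have := (ha P).le h0
      omega
    have h4 := degZ_add (k := k) (divF k C a h0 + -D) D
    rw [neg_add_cancel_right, h2, hd] at h4
    omega
  have h2 := (cnt C D).eq
  rw [h1, hd] at h2
  have h3 : Nat.card (⊥ : AddSubgroup K) = 1 := by simp
  rw [h3, Nat.cast_one] at h2
  have hq : (Nat.card k : ℚ) ≠ 0 := q_ne_zero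
  have h4 : (hCard (D : DV K → ℤ) : ℚ) = (Nat.card k : ℚ) ^ (g + d) := by
    have h5 : (Nat.card k : ℚ) ^ (1 - (g : ℤ) - (d + 1)) * (Nat.card k : ℚ) ^ ((g : ℤ) + d) = 1 := by
      rw [← zpow_add₀ hq]
      rw [show 1 - (g : ℤ) - (d + 1) + (g + d) = 0 by ring, zpow_zero]
    have h6 : (Nat.card k : ℚ) ^ (1 - (g : ℤ) - (d + 1)) ≠ 0 := zpow_ne_zero _ hq
    have h7 : (Nat.card k : ℚ) ^ (g + d) = (Nat.card k : ℚ) ^ ((g : ℤ) + d) := by
      rw [← zpow_natCast]
      push_cast
      rfl
    rw [h7]
    refine mul_left_cancel₀ h6 ?_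
    rw [h5, ← h2]
  exact_mod_cast h4

end general

section eight

variable {k : Type} [Field k] [Finite k]

open Pool.Agent.FF.Rat

open scoped Classical in
theorem ordX (v : DV (RatFunc k)) : v.ord (RatFunc.X : RatFunc k) =
    if v = pt 0 then 1 else if v = inf k then -1 else 0 := by
  split_ifs with h1 h2
  · have := pt_ord (0 : k)
    rw [map_zero, sub_zero] at this
    rw [h1, this]
  · rw [h2, inf_X]
  · have h3 := ne_inf.1 h2
    by_contra h4
    refine h1 (eq_pt (DV.G_of_le ?_))
    rw [map_zero, sub_zero]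
    omega

open scoped Classical in
theorem ordX1 [CharP k 2] (v : DV (RatFunc k)) : v.ord (RatFunc.X + 1 : RatFunc k) =
    if v = pt 1 then 1 else if v = inf k then -1 else 0 := by
  have : CharP (RatFunc k) 2 := charP_of_injective_algebraMap (algebraMap k (RatFunc k)).injective 2
  have e : (RatFunc.X + 1 : RatFunc k) = RatFunc.X - algebraMap k (RatFunc k) 1 := by
    rw [map_one, CharTwo.sub_eq_add]
  split_ifs with h1 h2
  · rw [h1, e, pt_ord]
  · have h3 := DV.ord_add_of_lt (v := inf k) (a := (RatFunc.X : RatFunc k)) (b := 1)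
      RatFunc.X_ne_zero (DV.G_of_le (by rw [inf_X, (inf k).ord_one]; norm_num))
    rw [h2, h3.2, inf_X]
  · have h3 := ne_inf.1 h2
    have hne : (RatFunc.X + 1 : RatFunc k) ≠ 0 := by
      rw [e, ← coe_X_sub]
      exact coe_ne (Polynomial.X_sub_C_ne_zero 1)
    have h5 : v.G 0 (RatFunc.X + 1 : RatFunc k) := (DV.G_of_le h3).add DV.G_one
    have h6 := h5.le hne
    by_contra h4
    refine h1 (eq_pt (DV.G_of_le ?_))
    rw [← e]
    omega

/-- the function -/
noncomputable def ThK (k : Type) [Field k] : RatFunc k := RatFunc.X ^ 4 * (RatFunc.X + 1)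

theorem X1_ne : (RatFunc.X + 1 : RatFunc k) ≠ 0 := by
  have e : (RatFunc.X + 1 : RatFunc k) = algebraMap (Polynomial k) (RatFunc k)
      (Polynomial.X - Polynomial.C (-1)) := by
    rw [map_sub, coe_C, RatFunc.algebraMap_X, map_neg, map_one, sub_neg_eq_add]
  rw [e]
  exact coe_ne (Polynomial.X_sub_C_ne_zero _)

theorem pt01 : (pt (0 : k)) ≠ pt 1 := fun h => zero_ne_one (pt_injective h)

open scoped Classical in
theorem ordTh [CharP k 2] (v : DV (RatFunc k)) : v.ord (ThK k) =
    if v = pt 0 then 4 else if v = pt 1 then 1 else if v = inf k then -5 else 0 := by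
  unfold ThK
  rw [v.ord_mul _ _ (pow_ne_zero 4 RatFunc.X_ne_zero) X1_ne, v.ord_pow RatFunc.X_ne_zero, ordX,
    ordX1]
  by_cases h0 : v = pt 0
  · have h1 : v ≠ pt 1 := fun h => pt01 (h0.symm.trans h)
    have h2 : v ≠ inf k := fun h => pt_ne_inf (0 : k) (h0.symm.trans h)
    rw [if_pos h0, if_pos h0, if_neg h1, if_neg h2]
    norm_num
  · rw [if_neg h0, if_neg h0]
    by_cases h1 : v = pt 1
    · have h2 : v ≠ inf k := fun h => pt_ne_inf (1 : k) (h1.symm.trans h)
      rw [if_pos h1, if_pos h1, if_neg h2]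
      norm_num
    · rw [if_neg h1, if_neg h1]
      split_ifs <;> norm_num

/-- the genera of the components -/
def eK (i : ℕ) : ℕ := if i = 3 ∨ i = 5 ∨ i = 6 then 1 else 0

theorem hCard_comp [CharP k 2] (i : ℕ) (hi : i < 7) (D : DV (RatFunc k) → ℤ)
    (hD : ∀ v, D v = -((i * v.ord (ThK k)) / (7 : ℕ))) : hCard D = Nat.card k ^ eK i := by
  classical
  have hC := Rat.cv (K := k)
  set E : DV (RatFunc k) →₀ ℤ := Finsupp.single (pt 0) (-((i * 4) / 7 : ℤ)) +
    Finsupp.single (inf k) (-((i * (-5)) / 7 : ℤ)) with hE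
  have hDE : D = (E : DV (RatFunc k) → ℤ) := by
    funext v
    rw [hD, ordTh, hE, Finsupp.add_apply, Finsupp.single_apply, Finsupp.single_apply]
    by_cases h0 : v = pt 0
    · have h2 : ¬ inf k = v := fun h => pt_ne_inf (0 : k) (h0.symm.trans h.symm)
      rw [if_pos h0, if_pos h0.symm, if_neg h2, add_zero]
      norm_num
    · have h0' : ¬ pt 0 = v := fun h => h0 h.symm
      rw [if_neg h0, if_neg h0', zero_add]
      by_cases h1 : v = pt 1
      · have h2 : ¬ inf k = v := fun h => pt_ne_inf (1 : k) (h1.symm.trans h.symm)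
        rw [if_pos h1, if_neg h2]
        have : ((i : ℤ) * 1) / ((7 : ℕ) : ℤ) = 0 := by
          apply Int.ediv_eq_zero_of_lt <;> push_cast <;> omega
        rw [this, neg_zero]
      · rw [if_neg h1]
        by_cases h2 : v = inf k
        · rw [if_pos h2, if_pos h2.symm]
          norm_num
        · have h2' : ¬ inf k = v := fun h => h2 h.symm
          rw [if_neg h2, if_neg h2']
          norm_num
  have hdeg : degZ k E = -((i * 4) / 7 : ℤ) + -((i * (-5)) / 7 : ℤ) := by
    rw [hE, degZ_add, degZ_single, degZ_single]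
    have h1 : RRD.deg k (pt (0 : k)) = 1 := deg_pt 0
    have h2 : RRD.deg k (inf k) = 1 := deg_inf
    rw [h1, h2]
    norm_num
  rw [hDE]
  rcases Nat.eq_zero_or_pos i with hi0 | hi0
  · subst hi0
    have : E = 0 := by rw [hE]; simp
    rw [this]
    have h1 := hgen hC
    simpa [eK] using h1
  · have h1 := hCard_of_degZ hC E (eK i) (by
      rw [hdeg]
      interval_cases i <;> norm_num [eK])
    rwa [zero_add] at h1

end eight

section klein

variable {k : Type} [Field k]

open Pool.Agent.FF.Rat

theorem charP_two_of_card (hk : Nat.card k = 8) : CharP k 2 := by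
  have : Finite k := Nat.finite_of_card_ne_zero (by omega)
  have := Fintype.ofFinite k
  obtain ⟨p, hp⟩ := CharP.exists k
  have hprime : p.Prime := (CharP.char_is_prime_or_zero k p).resolve_right
    (CharP.char_ne_zero_of_finite k p)
  have : Fact p.Prime := ⟨hprime⟩
  obtain ⟨n, -, hn⟩ := FiniteField.card k p
  rw [← Nat.card_eq_fintype_card, hk] at hn
  have h1 : p ∣ 2 ^ 3 := by
    have : p ∣ p ^ (n : ℕ) := dvd_pow_self p n.ne_zero
    rw [← hn] at this
    simpa using this
  have h2 := hprime.dvd_of_dvd_pow h1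
  rw [(Nat.prime_dvd_prime_iff_eq hprime Nat.prime_two).1 h2] at hp
  exact hp

theorem exists_prim7 (hk : Nat.card k = 8) : ∃ ζ : k, IsPrimitiveRoot ζ 7 := by
  have : Finite k := Nat.finite_of_card_ne_zero (by omega)
  obtain ⟨g, hg⟩ := IsCyclic.exists_generator (α := kˣ)
  have h1 : orderOf g = 7 := by
    rw [orderOf_eq_card_of_forall_mem_zpowers hg, Nat.card_units, hk]
  have h2 := IsPrimitiveRoot.orderOf g
  rw [h1] at h2
  exact ⟨(g : k), IsPrimitiveRoot.coe_units_iff.2 h2⟩

/-- the three roots -/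
theorem exists_three (hk : Nat.card k = 8) : ∃ A : Finset k, A.card = 3 ∧
    ∀ z ∈ A, z ^ 3 + z + 1 = 0 := by
  classical
  have hfin : Finite k := Nat.finite_of_card_ne_zero (by omega)
  have := Fintype.ofFinite k
  have hch := charP_two_of_card hk
  have h2 : (2 : k) = 0 := CharTwo.two_eq_zero
  have h8 : ∀ x : k, x ^ 8 = x := by
    intro x
    have := FiniteField.pow_card x
    rwa [← Nat.card_eq_fintype_card, hk] at this
  set p : Polynomial k := Polynomial.X ^ 3 + Polynomial.X + 1 with hp
  set q : Polynomial k := Polynomial.X ^ 3 + Polynomial.X ^ 2 + 1 with hq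
  have hpd : p.natDegree = 3 := by rw [hp]; compute_degree!
  have hqd : q.natDegree = 3 := by rw [hq]; compute_degree!
  have hp0 : p ≠ 0 := by intro h; rw [h] at hpd; simp at hpd
  have hq0 : q ≠ 0 := by intro h; rw [h] at hqd; simp at hqd
  have hA : p.roots.toFinset.card ≤ 3 := by
    refine (Multiset.toFinset_card_le _).trans ?_
    rw [← hpd]
    exact Polynomial.card_roots' p
  have hB : q.roots.toFinset.card ≤ 3 := by
    refine (Multiset.toFinset_card_le _).trans ?_
    rw [← hqd]
    exact Polynomial.card_roots' q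
  have hsub : (univ : Finset k) ⊆ {0, 1} ∪ (p.roots.toFinset ∪ q.roots.toFinset) := by
    intro x _
    have h9 : x * (x + 1) * (x ^ 3 + x + 1) * (x ^ 3 + x ^ 2 + 1) = 0 := by
      linear_combination h8 x + (x + x ^ 2 + x ^ 3 + 2 * x ^ 4 + 2 * x ^ 5 + x ^ 6 + x ^ 7) * h2
    rw [mem_union, mem_union, Multiset.mem_toFinset, Multiset.mem_toFinset,
      Polynomial.mem_roots hp0, Polynomial.mem_roots hq0, Polynomial.IsRoot, Polynomial.IsRoot]
    rcases mul_eq_zero.1 h9 with h | h
    · rcases mul_eq_zero.1 h with h | h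
      · rcases mul_eq_zero.1 h with h | h
        · left; simp [h]
        · left
          have : x = 1 := by linear_combination h - h2
          simp [this]
      · right; left
        rw [hp]
        simpa using h
    · right; right
      rw [hq]
      simpa using h
  refine ⟨p.roots.toFinset, ?_, ?_⟩
  · have h3 := card_le_card hsub
    have h4 : (univ : Finset k).card = 8 := by
      rw [card_univ, ← Nat.card_eq_fintype_card, hk]
    have h5 := card_union_le ({0, 1} : Finset k) (p.roots.toFinset ∪ q.roots.toFinset)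
    have h6 := card_union_le p.roots.toFinset q.roots.toFinset
    have h7 : ({0, 1} : Finset k).card ≤ 2 := card_le_two
    omega
  · intro z hz
    rw [Multiset.mem_toFinset, Polynomial.mem_roots hp0, Polynomial.IsRoot] at hz
    rw [hp] at hz
    simpa using hz

/-- **The Kummer cover of degree 7.** -/
theorem exists_klein [Finite k] (hk : Nat.card k = 8) : ∃ (L : Type) (_ : Field L) (_ : Algebra k L)
    (_ : CharP L 2) (_ : Algebra (RatFunc k) L) (_ : IsScalarTower k (RatFunc k) L)
    (S : Tm k (RatFunc k) L 7),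
    S.Θ = RatFunc.X ^ 4 * (RatFunc.X + 1) ∧
    S.θ ^ 7 = algebraMap (RatFunc k) L (RatFunc.X ^ 4 * (RatFunc.X + 1)) ∧
    IsFF k L ∧ Cv k L 3 ∧
    (∃ P0 P1 Pi : DV L, P0.Rat k ∧ P1.Rat k ∧ Pi.Rat k ∧
      P0.ord (algebraMap (RatFunc k) L RatFunc.X) = 7 ∧
      P1.ord (algebraMap (RatFunc k) L RatFunc.X + 1) = 7 ∧
      Pi.ord (algebraMap (RatFunc k) L RatFunc.X) = -7 ∧
      ∀ v : DV L, v ≠ P0 → v ≠ P1 → v ≠ Pi → v.ord (algebraMap (RatFunc k) L RatFunc.X) = 0 ∧
        v.ord (algebraMap (RatFunc k) L RatFunc.X + 1) = 0) ∧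
    ∃ T : Finset (DV L), T.card = 21 ∧ ∀ v ∈ T, v.Rat k ∧ ∃ z : k, z ^ 3 + z + 1 = 0 ∧
      v.G 1 (algebraMap (RatFunc k) L RatFunc.X + algebraMap k L z) := by
  classical
  have hch := charP_two_of_card hk
  have hchK : CharP (RatFunc k) 2 :=
    charP_of_injective_algebraMap (algebraMap k (RatFunc k)).injective 2
  have h2 : (2 : k) = 0 := CharTwo.two_eq_zero
  obtain ⟨ζ, hζ⟩ := exists_prim7 hk
  have hTh : ∀ b : RatFunc k, b ^ 7 ≠ ThK k := by
    intro b hb
    have hb0 : b ≠ 0 := by
      rintro rfl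
      rw [zero_pow (by norm_num)] at hb
      have h1 := ordTh (pt (0 : k))
      rw [← hb, DV.ord_zero, if_pos rfl] at h1
      norm_num at h1
    have h1 := ordTh (pt (0 : k))
    rw [← hb, (pt (0 : k)).ord_pow hb0, if_pos rfl] at h1
    push_cast at h1
    omega
  obtain ⟨L, iF, iA, iC, iAK, iT, S, hS⟩ := exists_tm (by norm_num : Nat.Prime 7)
    (by decide : Odd 7) hζ hTh
  have hΘ : S.Θ = ThK k := by
    apply (algebraMap (RatFunc k) L).injective
    rw [S.Θ_spec, hS]
  have hordΘ : ∀ v : DV (RatFunc k), v.ord S.Θ =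
      if v = pt 0 then 4 else if v = pt 1 then 1 else if v = inf k then -5 else 0 := by
    intro v
    rw [hΘ, ordTh]
  have hc0 : IsCoprime ((pt (0 : k)).ord S.Θ) ((7 : ℕ) : ℤ) := by
    rw [hordΘ, if_pos rfl]
    exact ⟨2, -1, by norm_num⟩
  have hc1 : IsCoprime ((pt (1 : k)).ord S.Θ) ((7 : ℕ) : ℤ) := by
    rw [hordΘ, if_neg (fun h => pt01 h.symm), if_pos rfl]
    exact isCoprime_one_left
  have hci : IsCoprime ((inf k).ord S.Θ) ((7 : ℕ) : ℤ) := by
    rw [hordΘ, if_neg (fun h => pt_ne_inf (0 : k) h.symm), if_neg (fun h => pt_ne_inf (1 : k) h.symm),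
      if_pos rfl]
    exact ⟨-3, -2, by norm_num⟩
  have hcv : Cv k L (∑ i ∈ range 7, eK i) := S.cvUp Rat.cv hc0 fun i hi =>
    hCard_comp i hi (S.D i) fun v => by rw [← hΘ]; rfl
  have h3 : ∑ i ∈ range 7, eK i = 3 := by decide
  rw [h3] at hcv
  have hFF : IsFF k L := IsFF.ofFinite (Rat.isFF k) S.finite hcv
  refine ⟨L, iF, iA, iC, iAK, iT, S, hΘ, hS, hFF, hcv, ?_, ?_⟩
  · -- the ramified places
    obtain ⟨o0, -⟩ := S.ram_ord hc0 (S.up_over (pt 0))
    obtain ⟨o1, -⟩ := S.ram_ord hc1 (S.up_over (pt 1))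
    obtain ⟨oi, -⟩ := S.ram_ord hci (S.up_over (inf k))
    have e1 : algebraMap (RatFunc k) L RatFunc.X + 1 = algebraMap (RatFunc k) L (RatFunc.X + 1) := by
      rw [map_add, map_one]
    refine ⟨S.up (pt 0), S.up (pt 1), S.up (inf k), S.ram_rat hc0 (S.up_over _) (pt_rat 0),
      S.ram_rat hc1 (S.up_over _) (pt_rat 1), S.ram_rat hci (S.up_over _) inf_rat, ?_, ?_, ?_, ?_⟩
    · rw [o0 _ RatFunc.X_ne_zero, ordX, if_pos rfl]
      norm_num
    · rw [e1, o1 _ X1_ne, ordX1, if_pos rfl]
      norm_num
    · rw [oi _ RatFunc.X_ne_zero, ordX, if_neg (fun h => pt_ne_inf (0 : k) h.symm), if_pos rfl]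
      norm_num
    · intro v hv0 hv1 hvi
      have hw := S.dn_over v
      have n0 : S.dn v ≠ pt 0 := fun h =>
        hv0 (S.over_unique hc0 (S.up_over (pt 0)) (h ▸ hw)).symm
      have n1 : S.dn v ≠ pt 1 := fun h =>
        hv1 (S.over_unique hc1 (S.up_over (pt 1)) (h ▸ hw)).symm
      have ni : S.dn v ≠ inf k := fun h =>
        hvi (S.over_unique hci (S.up_over (inf k)) (h ▸ hw)).symm
      obtain ⟨e, he, hov⟩ := hw
      constructor
      · rw [hov _ RatFunc.X_ne_zero, ordX, if_neg n0, if_neg ni, mul_zero]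
      · rw [e1, hov _ X1_ne, ordX1, if_neg n1, if_neg ni, mul_zero]
  · -- the split places
    obtain ⟨A, hA3, hA⟩ := exists_three hk
    have hz : ∀ z ∈ A, z ≠ 0 ∧ z ≠ 1 := by
      intro z hz
      have := hA z hz
      constructor
      · rintro rfl
        simp at this
      · rintro rfl
        have h4 : (1 : k) = 0 := by linear_combination this - h2
        exact one_ne_zero h4
    have hpt : ∀ z ∈ A, (pt z).ord S.Θ = 0 := by
      intro z hzA
      rw [hordΘ, if_neg (fun h => (hz z hzA).1 (pt_injective h)),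
        if_neg (fun h => (hz z hzA).2 (pt_injective h)), if_neg (pt_ne_inf z)]
    have hG : ∀ z ∈ A, (pt z).G 1 (S.Θ - algebraMap k (RatFunc k) ((1 : k) ^ 7)) := by
      intro z hzA
      have h4 : (pt z).G 1 (RatFunc.X - algebraMap k (RatFunc k) z) := DV.G_of_le (pt_ord z).ge
      have h5 : (pt z).G 0 (RatFunc.X : RatFunc k) := by
        have := (h4.mono (by norm_num : (0 : ℤ) ≤ 1)).add ((pt z).G_const (F := RatFunc k) z)
        rwa [sub_add_cancel] at this
      have h6 := DV.G_pow_sub h5 ((pt z).G_const (F := RatFunc k) z) h4 4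
      have h7 := DV.G_pow_sub h5 ((pt z).G_const (F := RatFunc k) z) h4 5
      have e : S.Θ - algebraMap k (RatFunc k) ((1 : k) ^ 7) =
          (RatFunc.X ^ 5 - algebraMap k (RatFunc k) z ^ 5) +
          (RatFunc.X ^ 4 - algebraMap k (RatFunc k) z ^ 4) := by
        have h8 : z ^ 5 + z ^ 4 = 1 := by
          have := hA z hzA
          linear_combination (z ^ 2 + z - 1) * this + (-z ^ 2) * h2
        have h9 := congrArg (algebraMap k (RatFunc k)) h8
        rw [map_add, map_pow, map_pow, map_one] at h9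
        rw [hΘ, ThK, one_pow, map_one]
        linear_combination h9
      rw [e]
      exact h7.add h6
    have hex : ∀ (z : k) (l : ℕ), ∃ w : DV L, z ∈ A → Over w (pt z) ∧
        w.G 1 (S.θ - algebraMap k L (S.ζ ^ l * 1)) := by
      intro z l
      by_cases hzA : z ∈ A
      · obtain ⟨w, hw1, hw2⟩ := S.exists_over_residue (hG z hzA) l
        exact ⟨w, fun _ => ⟨hw1, hw2⟩⟩
      · exact ⟨S.up (pt 0), fun h => absurd h hzA⟩
    choose W hW using hex
    have hinj : Set.InjOn (fun x : k × ℕ => W x.1 x.2) ((A ×ˢ range 7 : Finset (k × ℕ)) : Set (k × ℕ)) := by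
      rintro ⟨z, l⟩ hx ⟨z', l'⟩ hx' heq
      rw [mem_coe, mem_product, mem_range] at hx hx'
      simp only at heq hx hx'
      obtain ⟨a1, a2⟩ := hW z l hx.1
      obtain ⟨b1, b2⟩ := hW z' l' hx'.1
      rw [← heq] at b1 b2
      have hzz : z = z' := pt_injective (a1.unique b1)
      have hll : l = l' := by
        by_contra hne
        have h5 := b2.sub a2
        have h6 : S.θ - algebraMap k L (S.ζ ^ l' * 1) - (S.θ - algebraMap k L (S.ζ ^ l * 1)) =
            algebraMap k L (S.ζ ^ l - S.ζ ^ l') := by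
          rw [mul_one, mul_one, map_sub]
          ring
        rw [h6] at h5
        have h7 : S.ζ ^ l - S.ζ ^ l' ≠ 0 := by
          intro h
          exact hne (S.prim.pow_inj hx.2 hx'.2 (sub_eq_zero.1 h))
        have h8 := h5.le (by rwa [Ne, map_eq_zero])
        rw [RRD.ord_algebraMap _ h7] at h8
        omega
      rw [hzz, hll]
    refine ⟨(A ×ˢ range 7).image fun x => W x.1 x.2, ?_, ?_⟩
    · rw [card_image_of_injOn hinj, card_product, hA3, card_range]
    · intro v hv
      obtain ⟨⟨z, l⟩, hx, rfl⟩ := mem_image.1 hv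
      rw [mem_product] at hx
      obtain ⟨a1, a2⟩ := hW z l hx.1
      refine ⟨S.rat_of_residue (pt_rat z) (hpt z hx.1) a1 a2, z, hA z hx.1, ?_⟩
      have e : algebraMap (RatFunc k) L RatFunc.X + algebraMap k L z =
          algebraMap (RatFunc k) L (RatFunc.X - algebraMap k (RatFunc k) z) := by
        rw [CharTwo.sub_eq_add, map_add, ← IsScalarTower.algebraMap_apply k (RatFunc k) L]
      rw [e, a1.G_one_iff]
      exact DV.G_of_le (pt_ord z).ge

end klein

end Pool.Agent.FF
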