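import Pool.Agent.FF.RatBase
import Pool.Agent.FF.ErDef
import Pool.Agent.FF.Bridge

/-! The base of the induction on the number of places: the rational function field. -/

set_option autoImplicit false

namespace Pool.Agent.FF

namespace Rat

variable {K : Type*} [Field K] [Finite K]

theorem resCard_ne (v : DV (RatFunc K)) : v.resCard ≠ 0 := by
  rw [← DV.card_Res]
  obtain ⟨d, -, h⟩ := card_res v
  rw [h]
  exact pow_ne_zero _ Nat.card_pos.ne'

theorem wt {r s : ℕ} (hr : 1 ≤ r) (hs : s ^ 2 = Nat.card K ^ r) : Wt K (RatFunc K) r s 0 := by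
  obtain ⟨A, h1, h2⟩ := exists_places (K := K) r hr
  refine ⟨A, fun v hv => Er_of_dvd (resCard_ne v) (h1 v hv).2, ?_⟩
  rw [hs, zero_mul, add_zero]
  exact h2

/-- the same without the place at infinity -/
theorem wt' {r s : ℕ} (hr : 1 ≤ r) (hs : s ^ 2 = Nat.card K ^ r) : ∃ A : Finset (DV (RatFunc K)),
    (∀ v ∈ A, Er K v r ∧ v ≠ inf K) ∧ s ^ 2 ≤ ∑ v ∈ A, deg K v := by
  obtain ⟨A, h1, h2⟩ := exists_places (K := K) r hr
  refine ⟨A, fun v hv => ⟨Er_of_dvd (resCard_ne v) (h1 v hv).2, (h1 v hv).1⟩, ?_⟩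
  rw [hs]
  exact h2

theorem few (D : ℕ) : Few K (RatFunc K) D (1 + Nat.card K ^ (D + 1)) :=
  fun A hA => card_le D A hA

end Rat

end Pool.Agent.FF
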