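import Pool.Agent.FF.TmRes

/-! # Weak approximation for discrete valuations, finiteness of fibres -/

set_option autoImplicit false

namespace Pool.Agent.FF

open Finset

section approx

variable {F : Type*} [Field F]

theorem DV.ord_one_add {v : DV F} {a : F} (ha : a ≠ 0) (h : v.ord a < 0) :
    1 + a ≠ 0 ∧ v.ord (1 + a) = v.ord a := by
  have h1 : 1 + a ≠ 0 := by
    intro h0
    have : a = -1 := by rw [← sub_eq_zero, sub_neg_eq_add, add_comm]; exact h0
    rw [this, v.ord_neg_one] at h
    exact lt_irrefl _ h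
  refine ⟨h1, ?_⟩
  have h2 := DV.ord_add_of_lt (v := v) (a := a) (b := 1) ha (DV.G_of_le (by rw [v.ord_one]; omega))
  rw [add_comm]
  exact h2.2

/-- Separation of one place from finitely many others. -/
theorem DV.exists_sep (w₀ : DV F) (A : Finset (DV F)) (h : w₀ ∉ A) :
    ∃ x : F, x ≠ 0 ∧ w₀.ord x < 0 ∧ ∀ w ∈ A, 0 < w.ord x := by
  classical
  induction A using Finset.induction_on with
  | empty =>
    obtain ⟨t, ht, h1⟩ := w₀.exists_ord (-1)
    exact ⟨t, ht, by omega, fun w hw => absurd hw (notMem_empty w)⟩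
  | insert u A hu ih =>
    rw [mem_insert, not_or] at h
    obtain ⟨x, hx0, hx, hxA⟩ := ih h.2
    -- `y` separates `w₀` from `u`
    obtain ⟨y, hy0, hy, hyu⟩ : ∃ y : F, y ≠ 0 ∧ w₀.ord y < 0 ∧ 0 < u.ord y := by
      have h1 : ∃ a : F, u.G 0 a ∧ ¬ w₀.G 0 a := by
        by_contra hno
        push Not at hno
        exact h.1 (DV.eq_of_integral_imp hno).symm
      have h2 : ∃ b : F, w₀.G 0 b ∧ ¬ u.G 0 b := by
        by_contra hno
        push Not at hno
        exact h.1 (DV.eq_of_integral_imp hno)
      obtain ⟨a, ha, ha'⟩ := h1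
      obtain ⟨b, hb, hb'⟩ := h2
      have ha0 := DV.ne_zero_of_not_G ha'
      have hb0 := DV.ne_zero_of_not_G hb'
      refine ⟨a / b, div_ne_zero ha0 hb0, ?_, ?_⟩
      · rw [w₀.ord_div ha0 hb0]
        have := (DV.not_G ha0).1 ha'
        have := hb.le hb0
        omega
      · rw [u.ord_div ha0 hb0]
        have := (DV.not_G hb0).1 hb'
        have := ha.le ha0
        omega
    -- a large exponent
    obtain ⟨r, hr1, hr⟩ : ∃ r : ℕ, 1 ≤ r ∧ ∀ w ∈ insert u A, -w.ord y < r := by
      refine ⟨1 + ∑ w ∈ insert u A, (w.ord y).natAbs, by omega, fun w hw => ?_⟩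
      have h1 := Finset.single_le_sum (f := fun w : DV F => (w.ord y).natAbs)
        (fun _ _ => Nat.zero_le _) hw
      have h2 : -w.ord y ≤ ((w.ord y).natAbs : ℤ) := by omega
      have h3 : ((w.ord y).natAbs : ℤ) ≤ ((∑ w ∈ insert u A, (w.ord y).natAbs : ℕ) : ℤ) := by
        exact_mod_cast h1
      push_cast at h2 h3 ⊢
      linarith
    have hxr0 : x ^ r ≠ 0 := pow_ne_zero r hx0
    have hrz : (1 : ℤ) ≤ (r : ℤ) := by exact_mod_cast hr1
    by_cases hux : 0 ≤ u.ord x
    · refine ⟨x ^ r * y, mul_ne_zero hxr0 hy0, ?_, ?_⟩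
      · rw [w₀.ord_mul _ _ hxr0 hy0, w₀.ord_pow hx0]
        nlinarith
      · intro w hw
        rw [w.ord_mul _ _ hxr0 hy0, w.ord_pow hx0]
        rcases mem_insert.1 hw with rfl | hwA
        · nlinarith
        · have h1 := hxA w hwA
          have h2 := hr w hw
          nlinarith
    · push Not at hux
      have hw0r : w₀.ord (x ^ r) < 0 := by rw [w₀.ord_pow hx0]; nlinarith
      have hur : u.ord (x ^ r) < 0 := by rw [u.ord_pow hx0]; nlinarith
      obtain ⟨hne, h1⟩ := DV.ord_one_add hxr0 hw0r
      obtain ⟨-, h2⟩ := DV.ord_one_add hxr0 hur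
      refine ⟨x ^ r / (1 + x ^ r) * y, mul_ne_zero (div_ne_zero hxr0 hne) hy0, ?_, ?_⟩
      · rw [w₀.ord_mul _ _ (div_ne_zero hxr0 hne) hy0, w₀.ord_div hxr0 hne, h1]
        omega
      · intro w hw
        rw [w.ord_mul _ _ (div_ne_zero hxr0 hne) hy0, w.ord_div hxr0 hne]
        rcases mem_insert.1 hw with rfl | hwA
        · rw [h2]; omega
        · have h3 := hxA w hwA
          have h4 : 0 < w.ord (x ^ r) := by rw [w.ord_pow hx0]; nlinarith
          have h5 : w.ord (1 + x ^ r) = 0 := by
            have := DV.ord_add_of_lt (v := w) (a := (1 : F)) (b := x ^ r) one_ne_zero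
              (DV.G_of_le (by rw [w.ord_one]; omega))
            rw [this.2, w.ord_one]
          rw [h5, w.ord_pow hx0]
          have h6 := hr w hw
          nlinarith

/-- An element close to `1` at one place and close to `0` at finitely many others. -/
theorem DV.exists_idem (w₀ : DV F) (A : Finset (DV F)) (h : w₀ ∉ A) (N : ℕ) :
    ∃ x : F, w₀.G N (x - 1) ∧ ∀ w ∈ A, w.G N x := by
  obtain ⟨x, hx0, hx, hxA⟩ := DV.exists_sep w₀ A h
  set r := N + 1 with hr
  have hxr0 : x ^ r ≠ 0 := pow_ne_zero r hx0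
  have hrz : (1 : ℤ) ≤ (r : ℤ) := by omega
  have hw0r : w₀.ord (x ^ r) < 0 := by rw [w₀.ord_pow hx0]; nlinarith
  obtain ⟨hne, h1⟩ := DV.ord_one_add hxr0 hw0r
  refine ⟨x ^ r / (1 + x ^ r), ?_, fun w hw => ?_⟩
  · have e : x ^ r / (1 + x ^ r) - 1 = -(1 / (1 + x ^ r)) := by
      field_simp
      ring
    rw [e]
    refine DV.G.neg (DV.G_of_le ?_)
    rw [w₀.ord_div one_ne_zero hne, w₀.ord_one, h1, w₀.ord_pow hx0]
    nlinarith
  · apply DV.G_of_le
    have h3 := hxA w hw
    have h4 : 0 < w.ord (x ^ r) := by rw [w.ord_pow hx0]; nlinarith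
    have h5 : w.ord (1 + x ^ r) = 0 := by
      have := DV.ord_add_of_lt (v := w) (a := (1 : F)) (b := x ^ r) one_ne_zero
        (DV.G_of_le (by rw [w.ord_one]; omega))
      rw [this.2, w.ord_one]
    rw [w.ord_div hxr0 hne, h5, w.ord_pow hx0]
    nlinarith

/-- **Weak approximation.** -/
theorem DV.weak_approx (A : Finset (DV F)) (b : DV F → F) (N : ℕ) :
    ∃ x : F, ∀ w ∈ A, w.G N (x - b w) := by
  classical
  -- a bound for the poles of the `b`
  obtain ⟨M, hM⟩ : ∃ M : ℕ, ∀ w ∈ A, ∀ u ∈ A, w.G (-(M : ℤ)) (b u) := by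
    refine ⟨∑ w ∈ A, ∑ u ∈ A, (w.ord (b u)).natAbs, fun w hw u hu => DV.G_of_le ?_⟩
    have h1 := Finset.single_le_sum (f := fun u : DV F => (w.ord (b u)).natAbs)
      (fun _ _ => Nat.zero_le _) hu
    have h2 := Finset.single_le_sum (f := fun w : DV F => ∑ u ∈ A, (w.ord (b u)).natAbs)
      (fun _ _ => Nat.zero_le _) hw
    have h3 : -((w.ord (b u)).natAbs : ℤ) ≤ w.ord (b u) := by omega
    have h4 : ((w.ord (b u)).natAbs : ℤ) ≤
        ((∑ w ∈ A, ∑ u ∈ A, (w.ord (b u)).natAbs : ℕ) : ℤ) := by exact_mod_cast h1.trans h2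
    linarith
  have hex : ∀ w : DV F, ∃ x : F, w.G ((N + M : ℕ) : ℤ) (x - 1) ∧
      ∀ u ∈ A.erase w, u.G ((N + M : ℕ) : ℤ) x :=
    fun w => DV.exists_idem w (A.erase w) (notMem_erase w A) (N + M)
  choose e he1 he2 using hex
  refine ⟨∑ u ∈ A, b u * e u, fun w hw => ?_⟩
  have h1 : ∑ u ∈ A, b u * e u - b w = b w * (e w - 1) + ∑ u ∈ A.erase w, b u * e u := by
    rw [← add_sum_erase A _ hw]
    ring
  rw [h1]
  refine DV.G.add ?_ ?_
  · have h2 := (hM w hw w hw).mul (he1 w)
    refine h2.mono ?_
    push_cast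
    linarith
  · have h8 : ∀ s : Finset (DV F), s ⊆ A.erase w → w.G N (∑ u ∈ s, b u * e u) := by
      intro s
      induction s using Finset.induction_on with
      | empty => intro _; simpa using DV.G_zero (v := w) N
      | insert a s ha ih =>
        intro hs
        rw [sum_insert ha]
        refine DV.G.add ?_ (ih fun x hx => hs (mem_insert_of_mem hx))
        have ha' := hs (mem_insert_self a s)
        have h2 := (hM w hw a (mem_of_mem_erase ha')).mul
          (he2 a w (mem_erase.2 ⟨(ne_of_mem_erase ha').symm, hw⟩))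
        refine h2.mono ?_
        push_cast
        linarith
    exact h8 _ subset_rfl

end approx

section fibre

variable {K L : Type*} [Field K] [Field L] [Algebra K L] [FiniteDimensional K L]

/-- At most `[L : K]` places lie over a place. -/
theorem card_over_le (v : DV K) (A : Finset (DV L)) (hA : ∀ w ∈ A, Over w v) :
    A.card ≤ Module.finrank K L := by
  classical
  have hex : ∀ w : DV L, ∃ x : L, w.G 1 (x - 1) ∧ ∀ u ∈ A.erase w, u.G 1 x := fun w => by
    have := DV.exists_idem w (A.erase w) (notMem_erase w A) 1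
    simpa using this
  choose x hx1 hx2 using hex
  have hli : LinearIndependent K (fun w : A => x w) := by
    rw [Fintype.linearIndependent_iff]
    intro c hc
    by_contra hno
    push Not at hno
    obtain ⟨w₁, hw₁⟩ := hno
    -- the coefficient of least order
    have hne : (univ.filter fun w : A => c w ≠ 0).Nonempty := ⟨w₁, by simp [hw₁]⟩
    obtain ⟨w₀, hw₀, hmin⟩ := Finset.exists_min_image _ (fun w : A => v.ord (c w)) hne
    rw [mem_filter] at hw₀
    have hc0 := hw₀.2
    have hG : ∀ w : A, v.G 0 (c w / c w₀) := by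
      intro w
      by_cases h0 : c w = 0
      · rw [h0, zero_div]; exact DV.G_zero 0
      · apply DV.G_of_le
        rw [v.ord_div h0 hc0]
        have := hmin w (by simp [h0])
        omega
    have hsum : ∑ w : A, algebraMap K L (c w / c w₀) * x w = 0 := by
      have h1 : ∑ w : A, algebraMap K L (c w / c w₀) * x w =
          (algebraMap K L (c w₀))⁻¹ * ∑ w : A, c w • x (w : DV L) := by
        rw [mul_sum]
        refine sum_congr rfl fun w _ => ?_
        rw [map_div₀, Algebra.smul_def]
        ring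
      rw [h1, hc, mul_zero]
    have h2 : (w₀ : DV L).G 1 (∑ w ∈ (univ : Finset A).erase w₀, algebraMap K L (c w / c w₀) * x w) := by
      have h8 : ∀ s : Finset A, s ⊆ (univ : Finset A).erase w₀ →
          (w₀ : DV L).G 1 (∑ w ∈ s, algebraMap K L (c w / c w₀) * x w) := by
        intro s
        induction s using Finset.induction_on with
        | empty => intro _; simpa using DV.G_zero (v := (w₀ : DV L)) 1
        | insert a s ha ih =>
          intro hs
          rw [sum_insert ha]
          refine DV.G.add ?_ (ih fun x hx => hs (mem_insert_of_mem hx))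
          have ha' := ne_of_mem_erase (hs (mem_insert_self a s))
          have h3 := (((hA w₀ w₀.2).G_zero_iff _).2 (hG a)).mul
            (hx2 a w₀ (mem_erase.2 ⟨fun h => ha' (Subtype.ext h.symm), w₀.2⟩))
          rwa [zero_add] at h3
      exact h8 _ subset_rfl
    rw [← add_sum_erase _ _ (mem_univ w₀), div_self hc0, map_one, one_mul] at hsum
    have h3 : (w₀ : DV L).G 1 (1 : L) := by
      have h4 : (1 : L) = -(x w₀ - 1) - ∑ w ∈ (univ : Finset A).erase w₀,
          algebraMap K L (c w / c w₀) * x w := by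
        linear_combination hsum
      rw [h4]
      exact (hx1 w₀).neg.sub h2
    have h5 := h3.le one_ne_zero
    rw [(w₀ : DV L).ord_one] at h5
    omega
  have := hli.fintype_card_le_finrank
  simpa using this

/-- Over every place lie only finitely many places. -/
theorem over_finite' (v : DV K) : {w : DV L | Over w v}.Finite := by
  by_contra hinf
  obtain ⟨A, hA, hcard⟩ := Set.Infinite.exists_subset_card_eq hinf (Module.finrank K L + 1)
  have := card_over_le v A fun w hw => hA hw
  omega

end fibre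

end Pool.Agent.FF
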