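import Pool.Agent.FF.DV

/-! Repartitions (adeles) of a field with respect to all its normalised discrete valuations, and the
genus in the sense of Weil, through indices of additive subgroups. -/

set_option autoImplicit false

namespace Pool.Agent.FF

/-- The elements of order at least `n`. -/
def DV.O {F : Type*} [Field F] (v : DV F) (n : ℤ) : AddSubgroup F where
  carrier := {a | v.G n a}
  zero_mem' := DV.G_zero n
  add_mem' ha hb := DV.G.add ha hb
  neg_mem' ha := DV.G.neg ha

theorem DV.mem_O {F : Type*} [Field F] {v : DV F} {n : ℤ} {a : F} : a ∈ v.O n ↔ v.G n a := Iff.rfl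

/-- The number of elements of the residue field (`0` if it is infinite). -/
noncomputable def DV.resCard {F : Type*} [Field F] (v : DV F) : ℕ := (v.O 1).relIndex (v.O 0)

/-- Repartitions: families of elements, one for each place, integral at all but finitely many places. -/
def Adele (F : Type*) [Field F] : AddSubgroup (DV F → F) where
  carrier := {r | {P : DV F | ¬ P.G 0 (r P)}.Finite}
  zero_mem' := by
    have : {P : DV F | ¬ P.G 0 ((0 : DV F → F) P)} = ∅ := by
      ext P; simp [DV.G_zero]
    change {P : DV F | ¬ P.G 0 ((0 : DV F → F) P)}.Finite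
    rw [this]
    exact Set.finite_empty
  add_mem' {r s} hr hs := by
    refine Set.Finite.subset (Set.Finite.union hr hs) fun P hP => ?_
    by_contra h
    rw [Set.mem_union, not_or] at h
    exact hP ((not_not.1 h.1).add (not_not.1 h.2))
  neg_mem' {r} hr := by
    refine Set.Finite.subset hr fun P hP h => hP ?_
    exact DV.G.neg h

theorem mem_Adele {F : Type*} [Field F] {r : DV F → F} :
    r ∈ Adele F ↔ {P : DV F | ¬ P.G 0 (r P)}.Finite := Iff.rfl

/-- The families whose value at `P` has order at least `D P`. -/
def AInt {F : Type*} [Field F] (D : DV F → ℤ) : AddSubgroup (DV F → F) where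
  carrier := {r : DV F → F | ∀ P : DV F, P.G (D P) (r P)}
  zero_mem' := fun _ => DV.G_zero _
  add_mem' hr hs := fun P => (hr P).add (hs P)
  neg_mem' hr := fun P => (hr P).neg

theorem mem_AInt {F : Type*} [Field F] {D : DV F → ℤ} {r : DV F → F} :
    r ∈ AInt D ↔ ∀ P : DV F, P.G (D P) (r P) := Iff.rfl

/-- The constant families. -/
def diag (F : Type*) [Field F] : AddSubgroup (DV F → F) where
  carrier := Set.range fun (a : F) (_ : DV F) => a
  zero_mem' := ⟨0, rfl⟩
  add_mem' := by
    rintro _ _ ⟨a, rfl⟩ ⟨b, rfl⟩
    exact ⟨a + b, rfl⟩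
  neg_mem' := by
    rintro _ ⟨a, rfl⟩
    exact ⟨-a, rfl⟩

theorem mem_diag {F : Type*} [Field F] {r : DV F → F} : r ∈ diag F ↔ ∃ a : F, ∀ P : DV F, r P = a :=
  ⟨fun ⟨a, ha⟩ => ⟨a, fun P => (congrFun ha P).symm⟩, fun ⟨a, ha⟩ => ⟨a, funext fun P => (ha P).symm⟩⟩

/-- The number of elements of `A / (A(D) + F)`, `0` if it is infinite. -/
noncomputable def hCard {F : Type*} [Field F] (D : DV F → ℤ) : ℕ :=
  (AInt D ⊔ diag F).relIndex (Adele F)

/-- `F` is a function field over `k` with field of constants `k`, as far as its places are concerned: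
every element has finitely many poles, the elements without poles are the constants, the residue
fields are finite. -/
structure FFp (k F : Type*) [Field k] [Field F] [Algebra k F] : Prop where
  fin : ∀ a : F, {P : DV F | ¬ P.G 0 a}.Finite
  const : ∀ a : F, (∀ P : DV F, P.G 0 a) → ∃ c : k, a = algebraMap k F c
  res : ∀ P : DV F, P.resCard ≠ 0

section

variable {k F : Type*} [Field k] [Field F] [Algebra k F]

/-- Constants are units at every place, for a finite field of constants. -/
theorem ord_algebraMap [Finite k] (P : DV F) {c : k} (hc : c ≠ 0) : P.ord (algebraMap k F c) = 0 := by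
  have hfin : IsOfFinOrder c := by
    obtain ⟨n, hn, h⟩ := (isOfFinOrder_iff_pow_eq_one.1 (isOfFinOrder_of_finite (Units.mk0 c hc)))
    refine isOfFinOrder_iff_pow_eq_one.2 ⟨n, hn, ?_⟩
    have := congrArg Units.val h
    simpa using this
  obtain ⟨n, hn, h⟩ := isOfFinOrder_iff_pow_eq_one.1 hfin
  have h0 : algebraMap k F c ≠ 0 := by rwa [Ne, map_eq_zero]
  have h1 := P.ord_pow h0 n
  rw [← map_pow, h, map_one, P.ord_one] at h1
  rcases mul_eq_zero.1 h1.symm with h2 | h2
  · omega
  · exact h2

theorem G_algebraMap [Finite k] (P : DV F) (c : k) : P.G 0 (algebraMap k F c) := by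
  by_cases hc : c = 0
  · rw [hc, map_zero]; exact DV.G_zero _
  · exact DV.G_of_le (ord_algebraMap P hc).ge

theorem diag_le_Adele (h : FFp k F) : diag F ≤ Adele F := by
  rintro r hr
  obtain ⟨a, ha⟩ := mem_diag.1 hr
  have := h.fin a
  rw [mem_Adele]
  simpa [ha] using this

theorem AInt_le_Adele {D : DV F → ℤ} (hD : {P | D P < 0}.Finite) : AInt D ≤ Adele F := by
  intro r hr
  rw [mem_AInt] at hr
  rw [mem_Adele]
  refine hD.subset fun P hP => ?_
  by_contra h
  exact hP ((hr P).mono (by simpa using h))

end

end Pool.Agent.FF
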