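import Mathlib

/-! Relative indices of additive subgroups under homomorphisms. -/

set_option autoImplicit false

namespace Pool.Agent.FF

variable {G G' : Type*} [AddCommGroup G] [AddCommGroup G']

/-- Multiplicativity of the index along image and kernel. -/
theorem relIndex_map_mul_ker (f : G →+ G') {V W : AddSubgroup G} (h : V ≤ W) :
    V.relIndex W = (V.map f).relIndex (W.map f) * (V ⊓ f.ker).relIndex (W ⊓ f.ker) := by
  have h1 : (V.map f).relIndex (W.map f) = (V ⊔ f.ker).relIndex W := by
    rw [AddSubgroup.relIndex_map_map]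
    have : W ⊔ f.ker = W ⊔ (V ⊔ f.ker) := by
      rw [← sup_assoc, sup_eq_left.2 h]
    rw [this, AddSubgroup.relIndex_sup_right]
  have h2 : (V ⊔ f.ker).relIndex W = (V ⊔ (W ⊓ f.ker)).relIndex W := by
    rw [← AddSubgroup.inf_relIndex_right]
    congr 1
    rw [sup_inf_assoc_of_le _ h, inf_comm]
  have h3 : V.relIndex (V ⊔ (W ⊓ f.ker)) = (V ⊓ f.ker).relIndex (W ⊓ f.ker) := by
    rw [AddSubgroup.relIndex_sup_left, ← AddSubgroup.inf_relIndex_right]
    congr 1
    rw [← inf_assoc, inf_eq_left.2 h]
  rw [h1, h2, ← h3, mul_comm]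
  exact (AddSubgroup.relIndex_mul_relIndex V (V ⊔ (W ⊓ f.ker)) W le_sup_left
    (sup_le h inf_le_left)).symm

/-- If the image of `K` together with `H'` is `K'`, the index can be computed in the source. -/
theorem relIndex_comap_of_sup (f : G →+ G') {H' K' : AddSubgroup G'} {K : AddSubgroup G}
    (h : K.map f ⊔ H' = K') : H'.relIndex K' = (H'.comap f).relIndex K := by
  rw [AddSubgroup.relIndex_comap, ← h, AddSubgroup.relIndex_sup_right]

theorem relIndex_prod (H K : AddSubgroup G) (H' K' : AddSubgroup G') (h : H ≤ K) (h' : H' ≤ K') :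
    (H.prod H').relIndex (K.prod K') = H.relIndex K * H'.relIndex K' := by
  rw [relIndex_map_mul_ker (AddMonoidHom.snd G G') (AddSubgroup.prod_mono h h'), mul_comm]
  congr 1
  · -- kernels
    have key : ∀ (A : AddSubgroup G) (B : AddSubgroup G'),
        A.prod B ⊓ (AddMonoidHom.snd G G').ker = A.map (AddMonoidHom.inl G G') := by
      intro A B
      ext ⟨a, b⟩
      simp only [AddSubgroup.mem_inf, AddSubgroup.mem_prod, AddMonoidHom.mem_ker,
        AddMonoidHom.coe_snd, AddSubgroup.mem_map, AddMonoidHom.inl_apply, Prod.mk.injEq]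
      constructor
      · rintro ⟨⟨ha, -⟩, hb⟩; exact ⟨a, ha, rfl, hb.symm⟩
      · rintro ⟨a', ha', rfl, hb⟩; exact ⟨⟨ha', by rw [← hb]; exact B.zero_mem⟩, hb.symm⟩
    rw [key, key, AddSubgroup.relIndex_map_map_of_injective]
    intro a b hab
    simpa using hab
  · have key : ∀ (A : AddSubgroup G) (B : AddSubgroup G'),
        (A.prod B).map (AddMonoidHom.snd G G') = B := by
      intro A B
      ext b
      simp only [AddSubgroup.mem_map, AddSubgroup.mem_prod, AddMonoidHom.coe_snd, Prod.exists]
      constructor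
      · rintro ⟨a, b', ⟨-, hb⟩, rfl⟩; exact hb
      · intro hb; exact ⟨0, b, ⟨A.zero_mem, hb⟩, rfl⟩
    rw [key, key]

end Pool.Agent.FF
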