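import Pool.Agent.FF.Over
import Pool.Agent.FF.Adele
import Pool.Agent.FF.Rel

/-! Residue fields and degrees of places, and their behaviour in Artin–Schreier double extensions. -/

set_option autoImplicit false
set_option linter.unusedSectionVars false

namespace Pool.Agent.FF

section basic

variable {F : Type*} [Field F] (v : DV F)

theorem DV.O_anti {m n : ℤ} (h : m ≤ n) : v.O n ≤ v.O m := fun _ ha => DV.G.mono ha h

/-- All layers have the same number of elements. -/
theorem DV.relIndex_succ (n : ℤ) : (v.O (n + 1)).relIndex (v.O n) = v.resCard := by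
  obtain ⟨t, ht, ht1⟩ := v.exists_ord n
  let f : F →+ F := AddMonoidHom.mulLeft t
  have hinj : Function.Injective f := fun a b hab => mul_left_cancel₀ ht hab
  have key : ∀ m : ℤ, (v.O m).map f = v.O (n + m) := by
    intro m
    ext a
    constructor
    · rintro ⟨b, hb, rfl⟩
      have := (DV.G_ord (v := v) t).mul hb
      rw [ht1] at this
      exact this
    · intro ha
      refine ⟨t⁻¹ * a, ?_, ?_⟩
      · have := (DV.G_ord (v := v) t⁻¹).mul ha
        rw [v.ord_inv ht, ht1] at this
        change v.G m _
        convert this using 1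
        ring
      · change t * (t⁻¹ * a) = a
        field_simp
  have := AddSubgroup.relIndex_map_map_of_injective (v.O 1) (v.O 0) hinj
  rw [key, key, add_zero] at this
  exact this

theorem DV.relIndex_O (m : ℤ) (n : ℕ) : (v.O (m + n)).relIndex (v.O m) = v.resCard ^ n := by
  induction n with
  | zero => simp
  | succ n ih =>
    rw [← AddSubgroup.relIndex_mul_relIndex (v.O (m + (n + 1 : ℕ))) (v.O (m + n)) (v.O m)
      (v.O_anti (by push_cast; omega)) (v.O_anti (by omega)), ih, pow_succ, mul_comm]
    congr 1
    have := v.relIndex_succ (m + n)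
    rw [← this]
    congr 2
    push_cast
    ring

theorem DV.one_notMem : (1 : F) ∉ v.O 1 := by
  intro h
  have := DV.G.le h one_ne_zero
  rw [v.ord_one] at this
  omega

theorem DV.resCard_ne_one : v.resCard ≠ 1 := by
  intro h
  exact v.one_notMem ((AddSubgroup.relIndex_eq_one.1 h) DV.G_one)

end basic

section const

variable {k F : Type*} [Field k] [Finite k] [Field F] [Algebra k F] (v : DV F)

/-- The degree of a place over a finite field of constants. -/
noncomputable def deg (k : Type*) [Field k] {F : Type*} [Field F] (v : DV F) : ℕ :=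
  Nat.log (Nat.card k) v.resCard

theorem one_lt_card (k : Type*) [Field k] [Finite k] : 1 < Nat.card k := Finite.one_lt_card

/-- The integral elements of order `≥ n` as a vector space over the constants. -/
def DV.OSub (k : Type*) [Field k] [Finite k] {F : Type*} [Field F] [Algebra k F] (v : DV F) (n : ℤ) :
    Submodule k F where
  carrier := {a | v.G n a}
  zero_mem' := DV.G_zero n
  add_mem' ha hb := DV.G.add ha hb
  smul_mem' c a ha := by
    rw [Algebra.smul_def]
    have := (G_algebraMap v c).mul ha
    rwa [zero_add] at this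

theorem resCard_eq_pow (k : Type*) [Field k] [Finite k] {F : Type*} [Field F] [Algebra k F] (v : DV F)
    (hv : v.resCard ≠ 0) : v.resCard = Nat.card k ^ deg k v := by
  have h1 : ∃ d : ℕ, v.resCard = Nat.card k ^ d := by
    let M := (v.OSub k 0)
    let N := (v.OSub k 1).submoduleOf M
    have h2 : v.resCard = Nat.card (M ⧸ N) := rfl
    have hfin : Finite (M ⧸ N) := by
      apply Nat.finite_of_card_ne_zero
      rw [← h2]
      exact hv
    have : Module.Finite k (M ⧸ N) := Module.Finite.of_finite
    rw [h2]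
    exact ⟨_, Module.natCard_eq_pow_finrank (K := k) (V := M ⧸ N)⟩
  obtain ⟨d, hd⟩ := h1
  unfold deg
  rw [hd, Nat.log_pow (one_lt_card k)]

theorem deg_pos (k : Type*) [Field k] [Finite k] {F : Type*} [Field F] [Algebra k F] (v : DV F)
    (hv : v.resCard ≠ 0) : 0 < deg k v := by
  rcases Nat.eq_zero_or_pos (deg k v) with h | h
  · exfalso
    have := resCard_eq_pow k v hv
    rw [h, pow_zero] at this
    exact v.resCard_ne_one this
  · exact h

/-- Rational places: every integral element is constant modulo the maximal ideal. -/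
theorem rational_iff (k : Type*) [Field k] [Finite k] {F : Type*} [Field F] [Algebra k F] (v : DV F) :
    v.resCard = Nat.card k ↔ ∀ a : F, v.G 0 a → ∃ c : k, v.G 1 (a - algebraMap k F c) := by
  let f : k →+ F := (algebraMap k F).toAddMonoidHom
  have hcomap : (v.O 1).comap f = ⊥ := by
    ext c
    simp only [AddSubgroup.mem_comap, AddSubgroup.mem_bot]
    constructor
    · intro hc
      by_contra h
      have h1 : algebraMap k F c ≠ 0 := by rwa [Ne, map_eq_zero]
      have := DV.G.le hc h1
      rw [show f c = algebraMap k F c from rfl, ord_algebraMap v h] at this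
      omega
    · rintro rfl
      rw [map_zero]
      exact DV.G_zero 1
  have hle : (⊤ : AddSubgroup k).map f ⊔ v.O 1 ≤ v.O 0 := by
    refine sup_le ?_ (v.O_anti (by norm_num))
    rintro _ ⟨c, -, rfl⟩
    exact G_algebraMap v c
  have hidx : (v.O 1).relIndex ((⊤ : AddSubgroup k).map f ⊔ v.O 1) = Nat.card k := by
    rw [relIndex_comap_of_sup f (K := ⊤) rfl, hcomap, AddSubgroup.relIndex_bot_left]
    exact Nat.card_congr AddSubgroup.topEquiv.toEquiv
  have hmul := AddSubgroup.relIndex_mul_relIndex (v.O 1) ((⊤ : AddSubgroup k).map f ⊔ v.O 1) (v.O 0)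
    le_sup_right hle
  rw [hidx] at hmul
  have hk : 0 < Nat.card k := Nat.card_pos
  have hiff : v.resCard = Nat.card k ↔ v.O 0 ≤ (⊤ : AddSubgroup k).map f ⊔ v.O 1 := by
    rw [← AddSubgroup.relIndex_eq_one]
    constructor
    · intro h
      have h3 : Nat.card k * ((⊤ : AddSubgroup k).map f ⊔ v.O 1).relIndex (v.O 0) = Nat.card k * 1 := by
        rw [hmul, mul_one]
        exact h
      exact Nat.eq_of_mul_eq_mul_left hk h3
    · intro h
      rw [h, mul_one] at hmul
      exact hmul.symm
  rw [hiff]
  constructor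
  · intro h a ha
    obtain ⟨_, ⟨c, -, rfl⟩, b, hb, hab⟩ := AddSubgroup.mem_sup.1 (h ha)
    refine ⟨c, ?_⟩
    rw [← hab]
    have : f c + b - algebraMap k F c = b := by
      change algebraMap k F c + b - _ = b
      ring
    rw [this]
    exact hb
  · intro h a ha
    obtain ⟨c, hc⟩ := h a ha
    exact AddSubgroup.mem_sup.2 ⟨f c, ⟨c, trivial, rfl⟩, a - algebraMap k F c, hc, by
      change algebraMap k F c + _ = _; ring⟩

theorem deg_eq_one_iff (k : Type*) [Field k] [Finite k] {F : Type*} [Field F] [Algebra k F] (v : DV F)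
    (hv : v.resCard ≠ 0) :
    deg k v = 1 ↔ ∀ a : F, v.G 0 a → ∃ c : k, v.G 1 (a - algebraMap k F c) := by
  rw [← rational_iff, resCard_eq_pow k v hv]
  constructor
  · intro h; rw [h, pow_one]
  · intro h
    exact Nat.pow_right_injective (one_lt_card k) (by simpa using h)

end const

section ext

variable {K K' : Type*} [Field K] [Field K'] [Algebra K K']

/-- Same residue field. -/
theorem resCard_eq_of_residue {w : DV K'} {v : DV K} (h : Over w v)
    (hr : ∀ x : K', w.G 0 x → ∃ c : K, v.G 0 c ∧ w.G 1 (x - algebraMap K K' c)) :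
    w.resCard = v.resCard := by
  let f : K →+ K' := (algebraMap K K').toAddMonoidHom
  have hcomap : (w.O 1).comap f = v.O 1 := by
    ext a
    exact h.G_one_iff a
  have hsup : (v.O 0).map f ⊔ w.O 1 = w.O 0 := by
    apply le_antisymm
    · refine sup_le ?_ (w.O_anti (by norm_num))
      rintro _ ⟨c, hc, rfl⟩
      exact (h.G_zero_iff c).2 hc
    · intro x hx
      obtain ⟨c, hc, hc'⟩ := hr x hx
      exact AddSubgroup.mem_sup.2 ⟨f c, ⟨c, hc, rfl⟩, _, hc', by
        change algebraMap K K' c + _ = _; ring⟩
  unfold DV.resCard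
  rw [relIndex_comap_of_sup f hsup, hcomap]

variable [CharP K 2] {f : K} (S : AS K K' f) {v : DV K}

theorem ramDV_resCard {e : ℕ} (he : 1 ≤ e) (hf : v.ord f = 1 - 2 * e) :
    (S.ramDV he hf).resCard = v.resCard := by
  refine resCard_eq_of_residue (S.ramDV_over he hf) fun x hx => ⟨S.a x, ?_⟩
  have h := S.ramDV_residue he hf hx
  have h2 := AS.two' K K'
  refine ⟨h.1, ?_⟩
  have h3 : x - algebraMap K K' (S.a x) = x + algebraMap K K' (S.a x) := by
    linear_combination (-(algebraMap K K' (S.a x))) * h2
  rw [h3]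
  exact h.2

theorem splitDV_resCard (hf : v.G 1 f) : (S.splitDV hf).resCard = v.resCard := by
  refine resCard_eq_of_residue (S.splitDV_over hf) fun x hx => ?_
  obtain ⟨c, hc, hc'⟩ := S.splitDV_residue hf hx
  have h2 := AS.two' K K'
  refine ⟨c, hc, ?_⟩
  have h3 : x - algebraMap K K' c = x + algebraMap K K' c := by
    linear_combination (-(algebraMap K K' c)) * h2
  rw [h3]
  exact hc'

theorem inertDV_resCard (hf : v.G 0 f) (hr : ∀ c : K, v.G 0 c → ¬ v.G 1 (c ^ 2 + c + f)) :
    (S.inertDV hf hr).resCard = v.resCard ^ 2 := by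
  let g : K × K →+ K' :=
    { toFun := fun p => algebraMap K K' p.1 + algebraMap K K' p.2 * S.y
      map_zero' := by simp
      map_add' := fun p q => by simp only [Prod.fst_add, Prod.snd_add, map_add]; ring }
  have hg : ∀ p : K × K, S.a (g p) = p.1 ∧ S.b (g p) = p.2 := fun p => S.ab_eq rfl
  have hcomap : ∀ n : ℤ, ((S.inertDV hf hr).O n).comap g = (v.O n).prod (v.O n) := by
    intro n
    ext p
    rw [AddSubgroup.mem_comap, AddSubgroup.mem_prod, DV.mem_O, S.inertDV_G hf hr, (hg p).1, (hg p).2]
    rfl
  have hsup : ((v.O 0).prod (v.O 0)).map g ⊔ (S.inertDV hf hr).O 1 = (S.inertDV hf hr).O 0 := by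
    apply le_antisymm
    · refine sup_le ?_ ((S.inertDV hf hr).O_anti (by norm_num))
      rintro _ ⟨p, hp, rfl⟩
      rw [DV.mem_O, S.inertDV_G hf hr, (hg p).1, (hg p).2]
      exact AddSubgroup.mem_prod.1 hp
    · intro x hx
      refine AddSubgroup.mem_sup.2 ⟨x, ⟨(S.a x, S.b x), ?_, ?_⟩, 0, AddSubgroup.zero_mem _, by simp⟩
      · rw [DV.mem_O, S.inertDV_G hf hr] at hx
        exact AddSubgroup.mem_prod.2 hx
      · exact (S.spec x).symm
  unfold DV.resCard
  rw [relIndex_comap_of_sup g hsup, hcomap, relIndex_prod _ _ _ _ (v.O_anti (by norm_num))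
    (v.O_anti (by norm_num)), sq]

end ext

end Pool.Agent.FF
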