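import Pool.Agent.FF.Rat
import Pool.Agent.FF.Adele
import Pool.Agent.FF.Deg

/-! The rational function field: finite poles, constants, residue fields and genus zero in the language of
`FF.Adele`. -/

set_option autoImplicit false

open Polynomial

namespace Pool.Agent.FF

theorem DV.resCard_of_repr {F : Type*} [Field F] {v : DV F} {α : Type*} (f : α → F)
    (hf : ∀ x, v.G 0 (f x)) (h : ∀ a, v.G 0 a → ∃! x, v.G 1 (a - f x)) :
    v.resCard = Nat.card α := by
  have hmem : ∀ x y : v.O 0, (QuotientAddGroup.mk x : v.O 0 ⧸ (v.O 1).addSubgroupOf (v.O 0)) =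
      QuotientAddGroup.mk y ↔ v.G 1 ((x : F) - y) := by
    intro x y
    rw [eq_comm, QuotientAddGroup.eq, AddSubgroup.mem_addSubgroupOf]
    have : ((-y + x : v.O 0) : F) = (x : F) - y := by push_cast; ring
    rw [this]
    exact Iff.rfl
  refine (Nat.card_congr (Equiv.ofBijective (fun x : α =>
    (QuotientAddGroup.mk (⟨f x, hf x⟩ : v.O 0) : v.O 0 ⧸ (v.O 1).addSubgroupOf (v.O 0))) ⟨?_, ?_⟩)).symm
  · intro x y hxy
    have h1 := (hmem _ _).1 hxy
    obtain ⟨z, hz, hz'⟩ := h (f x) (hf x)
    have h2 : v.G 1 (f x - f x) := by rw [sub_self]; exact DV.G_zero _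
    exact (hz' x h2).trans (hz' y h1).symm
  · intro q
    obtain ⟨⟨a, ha⟩, rfl⟩ := QuotientAddGroup.mk_surjective q
    obtain ⟨z, hz, hz'⟩ := h a ha
    refine ⟨z, ?_⟩
    rw [eq_comm]
    exact (hmem _ _).2 hz

namespace Rat

variable {K : Type*} [Field K] [Finite K]

theorem resCard_inf : (inf K).resCard = Nat.card K := by
  refine DV.resCard_of_repr (fun c : K => algebraMap K (RatFunc K) c) (fun c => (inf K).G_const c) ?_
  intro a ha
  obtain ⟨c, hc⟩ := inf_residue ha
  refine ⟨c, hc, ?_⟩
  intro d hd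
  by_contra hne
  have h1 := hc.sub hd
  have h2 : a - algebraMap K (RatFunc K) c - (a - algebraMap K (RatFunc K) d) =
      algebraMap K (RatFunc K) (d - c) := by rw [map_sub]; ring
  rw [h2] at h1
  exact (inf K).not_G_const (sub_ne_zero.2 hne) h1

theorem At.resCard {v : DV (RatFunc K)} {π : K[X]} (h : At v π) :
    v.resCard = Nat.card K ^ π.natDegree := by
  rw [DV.resCard_of_repr (fun r : Polynomial.degreeLT K π.natDegree =>
    algebraMap K[X] (RatFunc K) r) (fun r => h.int _) h.repr,
    Nat.card_congr (Polynomial.degreeLTEquiv K π.natDegree).toEquiv, Nat.card_fun, Nat.card_fin]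

theorem resCard_pt (a : K) : (pt a).resCard = Nat.card K := by
  rw [(pt_at a).resCard, natDegree_X_sub_C, pow_one]

theorem isFF' : FFp K (RatFunc K) where
  fin := finite_poles
  const a h := const_of_int h
  res v := by
    rcases inf_or_at v with rfl | ⟨π, h⟩
    · rw [resCard_inf]; exact Nat.card_pos.ne'
    · rw [h.resCard]; exact pow_ne_zero _ Nat.card_pos.ne'

theorem hCard_zero : hCard (0 : DV (RatFunc K) → ℤ) = 1 := by
  rw [hCard, AddSubgroup.relIndex_eq_one]
  intro r hr
  obtain ⟨g, hg⟩ := genus_zero r hr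
  rw [AddSubgroup.mem_sup]
  exact ⟨fun v => r v - g, hg, fun _ => g, ⟨g, rfl⟩, by funext v; exact sub_add_cancel _ _⟩

end Rat

end Pool.Agent.FF
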