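import Mathlib

/-!
# From double covers of a family of towers to every large genus: the arithmetic

`E G x` stands for: there is a curve of genus `G` with at least `x` rational points.
The families are indexed by an odd divisor `d` of `l + 1` and `m = 2 ^ j`; `s = l - 1`,
`lam = log₂ q`.
-/

namespace FF

/-- The number of points of the double covers of genus `x` of the curve `(d, m)`. -/
noncomputable def phi (s lam : ℝ) (d : ℕ) (m x : ℝ) : ℝ :=
  min (s * d * m + (x - 2 * d * m) * lam - m) (2 * s * d * m)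

theorem phi_mul (s lam : ℝ) (d : ℕ) (m x t : ℝ) (ht : 0 ≤ t) :
    phi s lam d (m * t) (x * t) = phi s lam d m x * t := by
  unfold phi
  rw [min_mul_of_nonneg _ _ ht]
  congr 1 <;> ring

/-- every large natural number is `x * 2 ^ i` with `a ≤ x ≤ 2 a` and `i` large -/
theorem exists_scale {a : ℝ} (ha : 0 < a) (j0 : ℕ) :
    ∃ G0 : ℕ, ∀ G : ℕ, G0 ≤ G → ∃ i : ℕ, j0 ≤ i ∧ a * 2 ^ i ≤ G ∧ (G : ℝ) ≤ 2 * a * 2 ^ i := by
  classical
  obtain ⟨G0, hG0⟩ := exists_nat_ge (a * 2 ^ j0)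
  refine ⟨G0, fun G hG => ?_⟩
  have h1 : a * 2 ^ j0 ≤ G := hG0.trans (by exact_mod_cast hG)
  -- the largest i with a * 2 ^ i ≤ G
  obtain ⟨n, hn⟩ : ∃ n : ℕ, (G : ℝ) < a * 2 ^ n := by
    obtain ⟨n, hn⟩ := pow_unbounded_of_one_lt ((G : ℝ) / a) (one_lt_two)
    refine ⟨n, ?_⟩
    rw [div_lt_iff₀ ha] at hn
    linarith
  have hb : ∀ i : ℕ, a * 2 ^ i ≤ (G : ℝ) → i ≤ n := by
    intro i hi
    by_contra hlt
    push Not at hlt
    have h2 : (2 : ℝ) ^ n ≤ 2 ^ i := pow_le_pow_right₀ (by norm_num) hlt.le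
    have h3 : a * 2 ^ n ≤ a * 2 ^ i := mul_le_mul_of_nonneg_left h2 ha.le
    linarith
  set i := Nat.findGreatest (fun i : ℕ => a * 2 ^ i ≤ (G : ℝ)) n with hi
  have h2 : a * 2 ^ i ≤ (G : ℝ) :=
    Nat.findGreatest_spec (P := fun i : ℕ => a * 2 ^ i ≤ (G : ℝ)) (hb j0 h1) h1
  have h3 : j0 ≤ i := Nat.le_findGreatest (hb j0 h1) h1
  refine ⟨i, h3, h2, ?_⟩
  by_contra hlt
  push Not at hlt
  have h4 : a * 2 ^ (i + 1) ≤ (G : ℝ) := by
    have : a * 2 ^ (i + 1) = 2 * a * 2 ^ i := by ring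
    rw [this]
    exact hlt.le
  have h5 : i + 1 ≤ i := Nat.le_findGreatest (hb _ h4) h4
  omega

/-- The hypothesis on the double covers of the curves `(d, 2 ^ j)`, `d ∈ D`. -/
def Covers (E : ℕ → ℝ → Prop) (s lam C : ℝ) (D : Set ℕ) : Prop :=
  ∀ ε : ℝ, 0 < ε → ∃ j0 : ℕ, ∀ j : ℕ, j0 ≤ j → ∀ d ∈ D, ∀ G : ℕ,
    (1 + ε) * 2 ^ j ≤ ((G : ℝ) - 2 * d * 2 ^ j) * lam → (G : ℝ) ≤ C * 2 ^ j →
    E G (phi s lam d (2 ^ j) G - ε * 2 ^ j)

/-- **The arithmetic of the final step.** -/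
theorem final_general (E : ℕ → ℝ → Prop) (mono : ∀ G x y, y ≤ x → E G x → E G y)
    (s lam c a δ C : ℝ) (hlam : 0 < lam) (ha : 0 < a) (hδ : 0 < δ) (D : Set ℕ)
    (cover : ∀ x : ℝ, a ≤ x → x ≤ 2 * a → ∃ d ∈ D, ∃ e : ℕ,
      (1 + δ) * 2 ^ e ≤ (x - 2 * d * 2 ^ e) * lam ∧ x ≤ C * 2 ^ e ∧
      c * x ≤ phi s lam d (2 ^ e) x)
    (H : Covers E s lam C D) :
    ∀ ε : ℝ, 0 < ε → ∃ G0 : ℕ, ∀ G : ℕ, G0 ≤ G → E G ((c - ε) * G) := by
  intro ε hε
  set ε' : ℝ := min (ε / lam) δ with hε'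
  have hε'0 : 0 < ε' := lt_min (div_pos hε hlam) hδ
  obtain ⟨j0, hj0⟩ := H ε' hε'0
  obtain ⟨G0, hG0⟩ := exists_scale ha j0
  refine ⟨G0, fun G hG => ?_⟩
  obtain ⟨i, hi, h1, h2⟩ := hG0 G hG
  have hpos : (0 : ℝ) < 2 ^ i := by positivity
  set x : ℝ := (G : ℝ) / 2 ^ i with hx
  have hxG : (G : ℝ) = x * 2 ^ i := by rw [hx]; field_simp
  have hx1 : a ≤ x := by rw [hx, le_div_iff₀ hpos]; exact h1
  have hx2 : x ≤ 2 * a := by rw [hx, div_le_iff₀ hpos]; exact h2
  obtain ⟨d, hd, e, he1, he2, he3⟩ := cover x hx1 hx2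
  have hpow : (2 : ℝ) ^ (e + i) = 2 ^ e * 2 ^ i := pow_add _ _ _
  have k1 : (1 + ε') * 2 ^ (e + i) ≤ ((G : ℝ) - 2 * d * 2 ^ (e + i)) * lam := by
    rw [hpow, hxG]
    have h4 : (1 + ε') * 2 ^ e ≤ (1 + δ) * 2 ^ e :=
      mul_le_mul_of_nonneg_right (by linarith [min_le_right (ε / lam) δ]) (by positivity)
    have := mul_le_mul_of_nonneg_right (h4.trans he1) hpos.le
    calc (1 + ε') * (2 ^ e * 2 ^ i) = (1 + ε') * 2 ^ e * 2 ^ i := by ring
      _ ≤ (x - 2 * d * 2 ^ e) * lam * 2 ^ i := this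
      _ = _ := by ring
  have k2 : (G : ℝ) ≤ C * 2 ^ (e + i) := by
    rw [hpow, hxG]
    have := mul_le_mul_of_nonneg_right he2 hpos.le
    calc x * 2 ^ i ≤ C * 2 ^ e * 2 ^ i := this
      _ = _ := by ring
  have k3 := hj0 (e + i) (by omega) d hd G k1 k2
  apply mono G _ _ _ k3
  have k4 : phi s lam d (2 ^ (e + i)) G = phi s lam d (2 ^ e) x * 2 ^ i := by
    rw [hpow, hxG, phi_mul _ _ _ _ _ _ hpos.le]
  rw [k4, hpow]
  have k5 : (2 : ℝ) ^ e ≤ x * lam := by
    have h3 : (0 : ℝ) < 2 ^ e := by positivity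
    have h4 : 0 ≤ δ * 2 ^ e := mul_nonneg hδ.le h3.le
    have h5 : 0 ≤ 2 * (d : ℝ) * 2 ^ e * lam := by positivity
    linarith [he1]
  have k6 : ε' * (2 ^ e * 2 ^ i) ≤ ε * x * 2 ^ i := by
    have h6 : ε' * (2 ^ e * 2 ^ i) ≤ ε / lam * (2 ^ e * 2 ^ i) :=
      mul_le_mul_of_nonneg_right (min_le_left _ _) (by positivity)
    have h3 : ε / lam * (2 ^ e * 2 ^ i) = (ε / lam * 2 ^ i) * 2 ^ e := by ring
    have h4 : ε * x * 2 ^ i = (ε / lam * 2 ^ i) * (x * lam) := by field_simp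
    refine h6.trans ?_
    rw [h3, h4]
    exact mul_le_mul_of_nonneg_left k5 (by positivity)
  have k7 := mul_le_mul_of_nonneg_right he3 hpos.le
  calc (c - ε) * (G : ℝ) = c * x * 2 ^ i - ε * x * 2 ^ i := by rw [hxG]; ring
    _ ≤ phi s lam d (2 ^ e) x * 2 ^ i - ε' * (2 ^ e * 2 ^ i) := by linarith

/-- approximation of the constant -/
theorem final_limit (E : ℕ → ℝ → Prop) (mono : ∀ G x y, y ≤ x → E G x → E G y) (c : ℝ)
    (h : ∀ η : ℝ, 0 < η → ∃ c' : ℝ, c - η ≤ c' ∧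
      ∀ ε : ℝ, 0 < ε → ∃ G0 : ℕ, ∀ G : ℕ, G0 ≤ G → E G ((c' - ε) * G)) :
    ∀ ε : ℝ, 0 < ε → ∃ G0 : ℕ, ∀ G : ℕ, G0 ≤ G → E G ((c - ε) * G) := by
  intro ε hε
  obtain ⟨c', hc', h'⟩ := h (ε / 2) (by linarith)
  obtain ⟨G0, hG0⟩ := h' (ε / 2) (by linarith)
  refine ⟨G0, fun G hG => mono G _ _ ?_ (hG0 G hG)⟩
  exact mul_le_mul_of_nonneg_right (by linarith) (Nat.cast_nonneg _)

/-- `q = 4` : `6 / 11` -/
theorem final_four (E : ℕ → ℝ → Prop) (mono : ∀ G x y, y ≤ x → E G x → E G y)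
    (H : Covers E 1 2 11 {1, 3}) :
    ∀ ε : ℝ, 0 < ε → ∃ G0 : ℕ, ∀ G : ℕ, G0 ≤ G → E G ((6 / 11 - ε) * G) := by
  apply final_general E mono 1 2 (6 / 11) 11 (1 / 2) 11 (by norm_num) (by norm_num) (by norm_num)
    {1, 3} _ H
  intro x hx1 hx2
  rcases le_or_gt x 14 with h | h
  · refine ⟨1, by simp, 2, ?_, ?_, ?_⟩
    · norm_num; linarith
    · norm_num; linarith
    · unfold phi
      rw [le_min_iff]
      constructor
      · norm_num; linarith
      · norm_num; linarith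
  · refine ⟨3, by simp, 1, ?_, ?_, ?_⟩
    · norm_num; linarith
    · norm_num; linarith
    · unfold phi
      rw [le_min_iff]
      constructor
      · norm_num; linarith
      · norm_num; linarith

/-- `q = 16` : `20 / 13` -/
theorem final_sixteen (E : ℕ → ℝ → Prop) (mono : ∀ G x y, y ≤ x → E G x → E G y)
    (H : Covers E 3 4 20 {1, 5}) :
    ∀ ε : ℝ, 0 < ε → ∃ G0 : ℕ, ∀ G : ℕ, G0 ≤ G → E G ((20 / 13 - ε) * G) := by
  apply final_general E mono 3 4 (20 / 13) (39 / 2) (1 / 2) 20 (by norm_num) (by norm_num)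
    (by norm_num) {1, 5} _ H
  intro x hx1 hx2
  rcases le_or_gt x 25 with h | h
  · refine ⟨1, by simp, 3, ?_, ?_, ?_⟩
    · norm_num; linarith
    · norm_num; linarith
    · unfold phi
      rw [le_min_iff]
      constructor
      · norm_num; linarith
      · norm_num; linarith
  · refine ⟨5, by simp, 1, ?_, ?_, ?_⟩
    · norm_num; linarith
    · norm_num; linarith
    · unfold phi
      rw [le_min_iff]
      constructor
      · norm_num; linarith
      · norm_num; linarith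

/-- `q = 64` : `252 / 65` -/
theorem final_sixtyfour (E : ℕ → ℝ → Prop) (mono : ∀ G x y, y ≤ x → E G x → E G y)
    (H : Covers E 7 6 34 {3, 9}) :
    ∀ ε : ℝ, 0 < ε → ∃ G0 : ℕ, ∀ G : ℕ, G0 ≤ G → E G ((252 / 65 - ε) * G) := by
  apply final_general E mono 7 6 (252 / 65) (65 / 3) (1 / 2) 34 (by norm_num) (by norm_num)
    (by norm_num) {3, 9} _ H
  intro x hx1 hx2
  rcases le_or_gt x (95 / 3) with h | h
  · refine ⟨9, by simp, 0, ?_, ?_, ?_⟩
    · norm_num; linarith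
    · norm_num; linarith
    · unfold phi
      rw [le_min_iff]
      constructor
      · norm_num; linarith
      · norm_num; linarith
  · refine ⟨3, by simp, 2, ?_, ?_, ?_⟩
    · norm_num; linarith
    · norm_num; linarith
    · unfold phi
      rw [le_min_iff]
      constructor
      · norm_num; linarith
      · norm_num; linarith

/-- `q = 256` : `680 / 91` -/
theorem final_twofiftysix (E : ℕ → ℝ → Prop) (mono : ∀ G x y, y ≤ x → E G x → E G y)
    (H : Covers E 15 8 70 {17}) :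
    ∀ ε : ℝ, 0 < ε → ∃ G0 : ℕ, ∀ G : ℕ, G0 ≤ G → E G ((680 / 91 - ε) * G) := by
  apply final_limit E mono
  intro η hη
  set δ : ℝ := min η 1 with hδdef
  have hδ : 0 < δ := lt_min hη one_pos
  have hδ1 : δ ≤ 1 := min_le_right _ _
  have hδη : δ ≤ η := min_le_left _ _
  refine ⟨680 / 91 - δ, by linarith, ?_⟩
  apply final_general E mono 15 8 _ (34 + (1 + δ) / 8) δ 70 (by norm_num)
    (by positivity) hδ {17} _ H
  intro x hx1 hx2
  refine ⟨17, by simp, 0, ?_, ?_, ?_⟩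
  · norm_num; linarith
  · norm_num; linarith
  · unfold phi
    rw [le_min_iff]
    have h3 : 0 ≤ δ * x := by
      apply mul_nonneg hδ.le
      linarith
    have h4 : 34 * δ ≤ δ * x := by nlinarith
    constructor
    · norm_num; linarith
    · norm_num; linarith

theorem affine_le {α β γ x y z : ℝ} (h1 : x ≤ y) (h2 : y ≤ z) (hx : γ * x ≤ α + β * x)
    (hz : γ * z ≤ α + β * z) : γ * y ≤ α + β * y := by
  rcases le_total γ β with h | h
  · nlinarith
  · nlinarith

/-- `q = 4 ^ k`, `k ≥ 5` odd: `l + 1 = 3 t`, `s = l - 1`, `lam = 2 k` -/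
theorem final_family (E : ℕ → ℝ → Prop) (mono : ∀ G x y, y ≤ x → E G x → E G y)
    (s lam : ℝ) (t : ℕ) (hs : s + 2 = 3 * t) (hlam : 10 ≤ lam) (hsl : 3 * lam ≤ s)
    (H : Covers E s lam (9 * t) {t, 3 * t}) :
    ∀ ε : ℝ, 0 < ε → ∃ G0 : ℕ, ∀ G : ℕ, G0 ≤ G →
      E G (((s + lam - 1 / (2 * t)) / (3 + 1 / (2 * t * lam)) - ε) * G) := by
  apply final_limit E mono
  intro η hη
  set T : ℝ := (t : ℝ) with hT
  have hs30 : 30 ≤ s := by linarith
  have hT10 : 10 ≤ T := by linarith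
  set μ : ℝ := 1 / lam with hμ
  have hlam0 : 0 < lam := by linarith
  have hμ0 : 0 < μ := by positivity
  have hμlam : μ * lam = 1 := by rw [hμ]; field_simp
  have hμ1 : μ ≤ 1 / 10 := by
    rw [hμ]
    exact one_div_le_one_div_of_le (by norm_num) hlam
  set c : ℝ := (s + lam - 1 / (2 * T)) / (3 + 1 / (2 * T * lam)) with hc
  have hceq : c * (12 * T + 2 * μ) = 4 * T * s + 4 * T * lam - 2 := by
    rw [hc, hμ]
    have hT0 : T ≠ 0 := by linarith
    have h1 : 3 + 1 / (2 * T * lam) ≠ 0 := by positivity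
    field_simp
    ring
  have hc0 : 0 ≤ c := by
    by_contra hneg
    push Not at hneg
    have h1 : c * (12 * T + 2 * μ) < 0 := mul_neg_of_neg_of_pos hneg (by positivity)
    have h2 : 0 ≤ 4 * T * s + 4 * T * lam - 2 := by nlinarith
    linarith
  have hc3 : 3 * c ≤ s + lam := by
    have h1 : 0 ≤ c * (2 * μ) := by positivity
    have h2 : (4 * T) * (3 * c) ≤ (4 * T) * (s + lam) := by linarith
    exact le_of_mul_le_mul_left h2 (by positivity)
  set δ : ℝ := min 1 (η / s) with hδdef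
  have hs0 : 0 < s := by linarith
  have hδ : 0 < δ := lt_min one_pos (div_pos hη hs0)
  have hδ1 : δ ≤ 1 := min_le_left _ _
  have hδs : δ * s ≤ η := by
    have := min_le_right (1 : ℝ) (η / s)
    calc δ * s ≤ η / s * s := mul_le_mul_of_nonneg_right this hs0.le
      _ = η := by field_simp
  have hcδ : c * δ ≤ η := by
    have h1 : c ≤ s := by linarith
    have h2 : c * δ ≤ s * δ := mul_le_mul_of_nonneg_right h1 hδ.le
    linarith
  have hcδμ : c * δ * μ ≤ η := by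
    have h1 : c * δ * μ ≤ η * μ := mul_le_mul_of_nonneg_right hcδ hμ0.le
    nlinarith
  refine ⟨c - η, le_rfl, ?_⟩
  -- the two breakpoints
  set a : ℝ := 6 * T + (1 + δ) * μ with ha
  set b : ℝ := 8 * T + 4 * (1 + δ) * μ with hb
  have hδμ0 : 0 ≤ δ * μ := by positivity
  have hδμ : δ * μ ≤ 1 / 10 := by nlinarith
  have ha1 : a ≤ 6 * T + 1 / 5 := by rw [ha]; linarith
  have ha0 : 1 ≤ a := by rw [ha]; linarith
  have hb1 : b ≤ 8 * T + 4 / 5 := by rw [hb]; linarith
  have hb0 : 0 ≤ b := by rw [hb]; linarith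
  have haη : c * δ * μ ≤ a * η := by nlinarith
  have hcs : c ≤ 4 / 9 * s := by linarith
  have hcb : c * b ≤ (s + lam) / 3 * (8 * T + 4 / 5) := by
    have h1 : c ≤ (s + lam) / 3 := by linarith
    exact mul_le_mul h1 hb1 hb0 (by positivity)
  have hsT : 30 * T ≤ s * T := mul_le_mul_of_nonneg_right hs30 (by linarith)
  have hTs : 10 * s ≤ s * T := by linarith
  have hlT : 3 * (lam * T) ≤ s * T := by nlinarith
  have halam : (a - 6 * T) * lam = 1 + δ := by
    rw [ha]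
    calc (6 * T + (1 + δ) * μ - 6 * T) * lam = (1 + δ) * (μ * lam) := by ring
      _ = 1 + δ := by rw [hμlam, mul_one]
  have hblam : (b - 8 * T) * lam = 4 * (1 + δ) := by
    rw [hb]
    calc (8 * T + 4 * (1 + δ) * μ - 8 * T) * lam = 4 * (1 + δ) * (μ * lam) := by ring
      _ = 4 * (1 + δ) := by rw [hμlam, mul_one]
  have hηb : 0 ≤ η * b := by positivity
  -- the four inequalities at the breakpoints
  have g1 : (c - η) * a ≤ (3 * s * T - 6 * T * lam - 1) + lam * a := by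
    have e1 : c * a = 2 * T * s + 2 * T * lam - 1 + c * δ * μ := by
      have : c * a = (c * (12 * T + 2 * μ)) / 2 + c * δ * μ := by rw [ha]; ring
      rw [this, hceq]; ring
    have e2 : lam * a = 6 * T * lam + (1 + δ) := by linarith [halam]
    have e3 : (c - η) * a = c * a - a * η := by ring
    rw [e3, e1, e2]
    linarith
  have g2 : (c - η) * b ≤ (3 * s * T - 6 * T * lam - 1) + lam * b := by
    have e2 : lam * b = 8 * T * lam + 4 * (1 + δ) := by linarith [hblam]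
    have e3 : (c - η) * b = c * b - η * b := by ring
    rw [e3, e2]
    linarith
  have g3 : (c - η) * b ≤ (4 * s * T - 8 * T * lam - 4) + lam * b := by
    have e2 : lam * b = 8 * T * lam + 4 * (1 + δ) := by linarith [hblam]
    have e3 : (c - η) * b = c * b - η * b := by ring
    rw [e3, e2]
    linarith
  have g4 : (c - η) * (2 * a) ≤ (4 * s * T - 8 * T * lam - 4) + lam * (2 * a) := by
    have e1 : c * a = 2 * T * s + 2 * T * lam - 1 + c * δ * μ := by
      have : c * a = (c * (12 * T + 2 * μ)) / 2 + c * δ * μ := by rw [ha]; ring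
      rw [this, hceq]; ring
    have e2 : lam * a = 6 * T * lam + (1 + δ) := by linarith [halam]
    have e3 : (c - η) * (2 * a) = 2 * (c * a) - 2 * (a * η) := by ring
    have e4 : lam * (2 * a) = 2 * (lam * a) := by ring
    rw [e3, e4, e1, e2]
    linarith
  have cap1 : ∀ x : ℝ, 0 ≤ x → x ≤ b → (c - η) * x ≤ 6 * s * T := by
    intro x hx0 hx
    have e1 : c * x ≤ c * b := mul_le_mul_of_nonneg_left hx hc0
    have e2 : 0 ≤ η * x := by positivity
    linarith
  have cap2 : ∀ x : ℝ, 0 ≤ x → x ≤ 2 * a → (c - η) * x ≤ 8 * s * T := by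
    intro x hx0 hx
    have e1 : c * x ≤ 4 / 9 * s * (2 * (6 * T + 1 / 5)) := by
      apply mul_le_mul hcs _ hx0 (by positivity)
      linarith
    have e2 : 0 ≤ η * x := by positivity
    linarith
  apply final_general E mono s lam _ a δ (9 * T) hlam0 (by linarith) hδ {t, 3 * t} _ H
  intro x hx1 hx2
  have hx0 : 0 ≤ x := by linarith
  rcases le_or_gt x b with h | h
  · refine ⟨3 * t, by simp, 0, ?_, ?_, ?_⟩
    · have e1 : (a - 6 * T) * lam ≤ (x - 6 * T) * lam :=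
        mul_le_mul_of_nonneg_right (by linarith) hlam0.le
      push_cast
      rw [pow_zero, mul_one, mul_one, ← hT]
      have e2 : 2 * (3 * T) = 6 * T := by ring
      rw [e2]
      linarith
    · rw [pow_zero, mul_one]
      linarith
    · unfold phi
      push_cast
      rw [pow_zero, ← hT, le_min_iff]
      constructor
      · have := affine_le hx1 h g1 g2
        linarith
      · have := cap1 x hx0 h
        linarith
  · refine ⟨t, by simp, 2, ?_, ?_, ?_⟩
    · have e1 : (b - 8 * T) * lam ≤ (x - 8 * T) * lam :=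
        mul_le_mul_of_nonneg_right (by linarith) hlam0.le
      rw [← hT]
      have e2 : 2 * T * 2 ^ 2 = 8 * T := by ring
      rw [e2]
      linarith
    · linarith
    · unfold phi
      rw [← hT, le_min_iff]
      constructor
      · have := affine_le h.le hx2 g3 g4
        linarith
      · have := cap2 x hx0 hx2
        linarith

end FF
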