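import Pool.Agent.FF.Defs
import Pool.Agent.FF.Final

/-! # From curves of every large genus to a lower bound for `LL k` -/

namespace Pool.Agent.FF

open Filter

/-- there is a curve of genus `G` with at least `x` rational points, `x` a real number -/
def EC (k : Type) [Field k] (G : ℕ) (x : ℝ) : Prop := ∃ N : ℕ, x ≤ N ∧ HasCurve k G N

theorem EC_mono (k : Type) [Field k] (G : ℕ) (x y : ℝ) (h : y ≤ x) (hE : EC k G x) : EC k G y := by
  obtain ⟨N, h1, h2⟩ := hE
  exact ⟨N, h.trans h1, h2⟩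

theorem ofReal_le_LL {k : Type} [Field k] {c : ℝ}
    (h : ∀ ε : ℝ, 0 < ε → ∃ G0 : ℕ, ∀ G : ℕ, G0 ≤ G → EC k G ((c - ε) * G)) :
    ENNReal.ofReal c ≤ LL k := by
  refine le_of_forall_lt fun b hb => ?_
  have hbt : b ≠ ⊤ := ne_top_of_lt hb
  obtain ⟨b', hb', hb2⟩ : ∃ b' : ℝ, b < ENNReal.ofReal b' ∧ b' < c := by
    obtain ⟨m, hm1, hm2⟩ := exists_between hb
    have hmt : m ≠ ⊤ := ne_top_of_lt hm2
    refine ⟨m.toReal, ?_, ?_⟩
    · rwa [ENNReal.ofReal_toReal hmt]
    · by_contra hcon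
      push Not at hcon
      have := ENNReal.ofReal_le_ofReal hcon
      rw [ENNReal.ofReal_toReal hmt] at this
      exact absurd hm2 (not_lt.mpr this)
  refine lt_of_lt_of_le hb' ?_
  obtain ⟨G0, hG0⟩ := h (c - b') (by linarith)
  unfold LL
  refine le_liminf_of_le (by isBoundedDefault) ?_
  filter_upwards [eventually_ge_atTop (max G0 1)] with G hG
  have hG1 : 1 ≤ G := (le_max_right _ _).trans hG
  obtain ⟨N, hN, hC⟩ := hG0 G ((le_max_left _ _).trans hG)
  have h1 : (N : ENNReal) ≤ NN k G := le_sSup ⟨N, rfl, hC⟩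
  have hG0' : (G : ENNReal) ≠ 0 := by
    simp only [ne_eq, Nat.cast_eq_zero]
    omega
  rw [ENNReal.le_div_iff_mul_le (Or.inl hG0') (Or.inl (ENNReal.natCast_ne_top G))]
  refine le_trans ?_ h1
  have e1 : c - (c - b') = b' := by ring
  rw [e1] at hN
  have e2 : (G : ENNReal) = ENNReal.ofReal (G : ℝ) := by simp
  have e3 : (N : ENNReal) = ENNReal.ofReal (N : ℝ) := by simp
  rw [e2, e3, ← ENNReal.ofReal_mul' (Nat.cast_nonneg G)]
  exact ENNReal.ofReal_le_ofReal hN

end Pool.Agent.FF
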