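import Mathlib

/-!
# Kernel and cokernel of `F - 1` for a Frobenius-semilinear map in characteristic two

`k` a field, `H` a `k`-space, `F : H →+ H` with `F (c • x) = c ^ 2 • F x`.
* `card_fixed_le` : if `H` has dimension `g`, then `F` has at most `2 ^ g` fixed points.
* `card_coker_eq_card_ker` : for a finite group, `|H / (F - 1) H| = |ker (F - 1)|`.
* `card_coker_le` : so `|H / (F - 1) H| ≤ 2 ^ g` if `k` is finite and `|H| = |k| ^ g`.
-/

set_option autoImplicit false

namespace Pool.Agent.FF

section Semilinear

variable {k H : Type*} [Field k] [AddCommGroup H] [Module k H]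

/-- The fixed points of an additive endomorphism. -/
def fixedPts (F : H →+ H) : AddSubgroup H := (F - AddMonoidHom.id H).ker

theorem mem_fixedPts {F : H →+ H} {x : H} : x ∈ fixedPts F ↔ F x = x := by
  rw [fixedPts, AddMonoidHom.mem_ker, AddMonoidHom.sub_apply, AddMonoidHom.id_apply, sub_eq_zero]

/-- A Frobenius-semilinear map of a space of dimension `g` has at most `2 ^ g` fixed points. -/
theorem card_fixed_le [Module.Finite k H] (F : H →+ H)
    (hF : ∀ (c : k) (x : H), F (c • x) = c ^ 2 • F x) :
    Finite (fixedPts F) ∧ Nat.card (fixedPts F) ≤ 2 ^ Module.finrank k H := by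
  classical
  obtain ⟨b, hbE, hspan, hli⟩ := exists_linearIndependent k (fixedPts F : Set H)
  have hfin : Finite b := hli.finite
  have hcardb : Nat.card b ≤ Module.finrank k H := by
    have := Fintype.ofFinite b
    rw [Nat.card_eq_fintype_card]
    exact hli.fintype_card_le_finrank
  have := Fintype.ofFinite b
  -- every fixed point is a combination of `b` with coefficients in `{0, 1}`
  have key : ∀ x : fixedPts F, ∃ S : Finset b, (x : H) = ∑ i ∈ S, (i : H) := by
    rintro ⟨x, hx⟩
    have hx1 : x ∈ Submodule.span k (Set.range ((↑) : b → H)) := by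
      rw [Subtype.range_coe, hspan]
      exact Submodule.subset_span hx
    obtain ⟨c, hc⟩ := (Submodule.mem_span_range_iff_exists_fun k).1 hx1
    have hFx : F x = x := mem_fixedPts.1 hx
    have h1 : F x = ∑ i, (c i) ^ 2 • (i : H) := by
      rw [← hc, map_sum]
      refine Finset.sum_congr rfl fun i _ => ?_
      rw [hF, mem_fixedPts.1 (hbE i.2)]
    have h2 : ∑ i, ((c i) ^ 2 - c i) • (i : H) = 0 := by
      simp only [sub_smul, Finset.sum_sub_distrib]
      rw [← h1, hc, hFx, sub_self]
    have h3 := (Fintype.linearIndependent_iff.1 hli) _ h2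
    refine ⟨Finset.univ.filter fun i => c i = 1, ?_⟩
    change x = _
    rw [← hc, Finset.sum_filter]
    refine Finset.sum_congr rfl fun i _ => ?_
    have h4 : c i * (c i - 1) = 0 := by
      have := h3 i
      linear_combination this
    rcases mul_eq_zero.1 h4 with h5 | h5
    · rw [h5]
      simp
    · rw [if_pos (sub_eq_zero.1 h5), sub_eq_zero.1 h5, one_smul]
  choose S hS using key
  have hinj : Function.Injective S := by
    intro x y hxy
    apply Subtype.ext
    rw [hS x, hS y, hxy]
  refine ⟨Finite.of_injective S hinj, ?_⟩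
  calc Nat.card (fixedPts F) ≤ Nat.card (Finset b) := Nat.card_le_card_of_injective S hinj
    _ = 2 ^ Nat.card b := by
      rw [Nat.card_eq_fintype_card, Fintype.card_finset, Nat.card_eq_fintype_card]
    _ ≤ 2 ^ Module.finrank k H := Nat.pow_le_pow_right (by norm_num) hcardb

end Semilinear

section Finite

/-- Kernel and cokernel of an endomorphism of a finite group have the same order. -/
theorem card_coker_eq_card_ker {H : Type*} [AddCommGroup H] [Finite H] (f : H →+ H) :
    Nat.card (H ⧸ f.range) = Nat.card f.ker := by
  have h1 := AddSubgroup.card_eq_card_quotient_mul_card_addSubgroup f.range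
  have h2 := AddSubgroup.card_eq_card_quotient_mul_card_addSubgroup f.ker
  have h3 : Nat.card (H ⧸ f.ker) = Nat.card f.range :=
    Nat.card_congr (QuotientAddGroup.quotientKerEquivRange f).toEquiv
  rw [h3] at h2
  rw [h1, mul_comm] at h2
  exact Nat.eq_of_mul_eq_mul_left Nat.card_pos h2

/-- The cokernel of `F - 1`, `F` Frobenius-semilinear on a finite space with `|k| ^ g` elements,
has at most `2 ^ g` elements. -/
theorem card_coker_le {k H : Type*} [Field k] [Finite k] [AddCommGroup H] [Module k H] [Finite H]
    (F : H →+ H) (hF : ∀ (c : k) (x : H), F (c • x) = c ^ 2 • F x) {g : ℕ}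
    (hg : Nat.card H = Nat.card k ^ g) :
    Nat.card (H ⧸ (F - AddMonoidHom.id H).range) ≤ 2 ^ g ∧
      Nat.card (F - AddMonoidHom.id H).ker ≤ 2 ^ g ∧
      Nat.card (H ⧸ (F - AddMonoidHom.id H).range) = Nat.card (F - AddMonoidHom.id H).ker := by
  have : Module.Finite k H := Module.Finite.of_finite
  have h1 := (card_fixed_le F hF).2
  have h2 : Module.finrank k H = g := by
    have h3 : Nat.card H = Nat.card k ^ Module.finrank k H := by
      have := Fintype.ofFinite k
      have := Fintype.ofFinite H
      rw [Nat.card_eq_fintype_card, Nat.card_eq_fintype_card, Module.card_eq_pow_finrank (K := k)]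
    rw [hg] at h3
    exact (Nat.pow_right_injective Finite.one_lt_card h3).symm
  rw [h2] at h1
  have h4 := card_coker_eq_card_ker (F - AddMonoidHom.id H)
  exact ⟨h4.le.trans h1, h1, h4⟩

end Finite

end Pool.Agent.FF
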