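import Pool.Agent.FF.TmGen
import Pool.Agent.FF.Frob

/-! # The trivial bound for the obstruction group: at most `2 ^ g` elements -/

set_option autoImplicit false
set_option linter.unusedSectionVars false

namespace Pool.Agent.FF

open Finset RRD

variable {k K : Type*} [Field k] [Finite k] [Field K] [Algebra k K] [CharP K 2]

/-- squares of repartitions -/
def sqA (K : Type*) [Field K] [CharP K 2] : (DV K → K) →+ (DV K → K) where
  toFun r := fun v => r v ^ 2
  map_zero' := by funext v; simp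
  map_add' r s := by
    funext v
    show (r v + s v) ^ 2 = r v ^ 2 + s v ^ 2
    exact CharTwo.add_sq _ _

theorem sqA_Adl {r : DV K → K} (hr : r ∈ Adl K) : sqA K r ∈ Adl K := by
  refine Set.Finite.subset (s := {v : DV K | ¬ v.G 0 (r v)}) hr fun v hv h => hv ?_
  show v.G 0 (r v ^ 2)
  have := h.pow 2
  rwa [mul_zero] at this

theorem sqA_sup {r : DV K → K} (hr : r ∈ AInt (0 : DV K → ℤ) ⊔ Prin K) :
    sqA K r ∈ AInt (0 : DV K → ℤ) ⊔ Prin K := by
  obtain ⟨b, hb, p, ⟨a, ha⟩, rfl⟩ := AddSubgroup.mem_sup.1 hr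
  rw [map_add]
  refine AddSubgroup.mem_sup.2 ⟨_, ?_, _, ⟨a ^ 2, fun v => ?_⟩, rfl⟩
  · intro v
    have := (hb v).pow 2
    show v.G 0 (b v ^ 2)
    simpa using this
  · show p v ^ 2 = a ^ 2
    rw [ha]

/-- **The trivial bound.** -/
theorem Ob.of_genus {g : ℕ} (C : Cv k K g) : Ob K g := by
  classical
  -- the space `A / (A(0) + K)`
  let M : Submodule k (DV K → K) := AdlS k K
  let N : Submodule k (DV K → K) := AIntS k K 0 ⊔ PrinS k K
  have hN : ∀ r : DV K → K, r ∈ N ↔ r ∈ AInt (0 : DV K → ℤ) ⊔ Prin K := by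
    intro r
    have e : N.toAddSubgroup = AInt (0 : DV K → ℤ) ⊔ Prin K := by
      show (AIntS k K 0 ⊔ PrinS k K).toAddSubgroup = _
      rw [Submodule.sup_toAddSubgroup]
      rfl
    rw [← e]
    rfl
  let H := M ⧸ N.submoduleOf M
  have hcard : Nat.card H = Nat.card k ^ g := by
    have e : N.toAddSubgroup = AInt (0 : DV K → ℤ) ⊔ Prin K := by
      show (AIntS k K 0 ⊔ PrinS k K).toAddSubgroup = _
      rw [Submodule.sup_toAddSubgroup]
      rfl
    have h1 : Nat.card H = N.toAddSubgroup.relIndex M.toAddSubgroup := rfl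
    rw [h1, e, ← hgen C]
    rfl
  haveI : Finite H := by
    apply Nat.finite_of_card_ne_zero
    rw [hcard]
    exact pow_ne_zero _ Nat.card_pos.ne'
  -- Frobenius
  let φ₀ : M →+ M :=
    { toFun := fun r => ⟨sqA K r.1, sqA_Adl r.2⟩
      map_zero' := Subtype.ext (map_zero _)
      map_add' := fun r s => Subtype.ext (map_add _ _ _) }
  let π : M →+ H := (Submodule.mkQ (N.submoduleOf M)).toAddMonoidHom
  let φ : H →+ H := QuotientAddGroup.map (N.submoduleOf M).toAddSubgroup (N.submoduleOf M).toAddSubgroup φ₀ (by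
    intro r hr
    have h1 : (r : DV K → K) ∈ N := hr
    rw [hN] at h1
    show (φ₀ r : DV K → K) ∈ N
    rw [hN]
    exact sqA_sup h1)
  have hφ : ∀ (c : k) (x : H), φ (c • x) = c ^ 2 • φ x := by
    intro c x
    induction x using Submodule.Quotient.induction_on with
    | H r =>
      show (Submodule.Quotient.mk (φ₀ (c • r)) : H) = c ^ 2 • (Submodule.Quotient.mk (φ₀ r) : H)
      rw [← Submodule.Quotient.mk_smul]
      congr 1
      apply Subtype.ext
      funext v
      show (c • (r : DV K → K) v) ^ 2 = c ^ 2 • ((r : DV K → K) v) ^ 2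
      rw [Algebra.smul_def, Algebra.smul_def, mul_pow, map_pow]
  have hcok := (card_coker_le φ hφ hcard).1
  -- pigeonhole
  intro r hr
  let G := H ⧸ (φ - AddMonoidHom.id H).range
  haveI : Finite G := Quotient.finite _
  let cls : Fin (2 ^ g + 1) → G := fun i => QuotientAddGroup.mk (π ⟨r i, hr i⟩)
  have hnot : ¬ Function.Injective cls := by
    intro hinj
    have h1 := Nat.card_le_card_of_injective cls hinj
    rw [Nat.card_eq_fintype_card, Fintype.card_fin] at h1
    have h1' : Nat.card G ≤ 2 ^ g := hcok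
    omega
  rw [Function.Injective] at hnot
  push Not at hnot
  obtain ⟨i, j, hij, hne⟩ := hnot
  refine ⟨i, j, hne, ?_⟩
  have h2 : (QuotientAddGroup.mk (π ⟨r i, hr i⟩) : G) = QuotientAddGroup.mk (π ⟨r j, hr j⟩) := hij
  rw [eq_comm, QuotientAddGroup.eq] at h2
  obtain ⟨y, hy⟩ := h2
  obtain ⟨b, rfl⟩ : ∃ b : M, π b = y := Submodule.Quotient.mk_surjective _ y
  have h3 : π (φ₀ b - b) = π (-⟨r j, hr j⟩ + ⟨r i, hr i⟩) := by
    rw [map_sub, map_add, map_neg]
    exact hy
  have h4 : (φ₀ b - b) - (-⟨r j, hr j⟩ + ⟨r i, hr i⟩) ∈ N.submoduleOf M :=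
    (Submodule.Quotient.eq _).1 h3
  have h5 : (((φ₀ b - b) - (-⟨r j, hr j⟩ + ⟨r i, hr i⟩) : M) : DV K → K) ∈ N := h4
  rw [hN] at h5
  obtain ⟨u, hu, p, ⟨a, ha⟩, hsum⟩ := AddSubgroup.mem_sup.1 h5
  refine ⟨b.1, a, b.2, fun v => ?_⟩
  have h6 := congrFun hsum v
  have h7 : (((φ₀ b - b) - (-⟨r j, hr j⟩ + ⟨r i, hr i⟩) : M) : DV K → K) v =
      (b : DV K → K) v ^ 2 - (b : DV K → K) v - (- r j v + r i v) := rfl
  rw [h7, Pi.add_apply, ha] at h6
  have h8 : r i v - r j v + wpA b.1 v + a = u v := by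
    have h2 : (2 : K) = 0 := CharTwo.two_eq_zero
    simp only [wpA]
    linear_combination -h6 + (r i v - r j v + (b : DV K → K) v + a) * h2
  rw [h8]
  exact hu v

end Pool.Agent.FF
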