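import Pool.Agent.FF.RatCv
import Mathlib.FieldTheory.Finite.Extension

/-! The number of places of the rational function field: degree dividing `r`, and degree at most `D`. -/

set_option autoImplicit false

open Polynomial

namespace Pool.Agent.FF

namespace Rat

variable {K : Type*} [Field K] [Finite K]

/-- (R1) The places of degree dividing `r` have total degree at least `q ^ r`. -/
theorem exists_places (r : ℕ) (hr : 1 ≤ r) : ∃ A : Finset (DV (RatFunc K)),
    (∀ v ∈ A, v ≠ inf K ∧ v.deg (Nat.card K) ∣ r) ∧
      Nat.card K ^ r ≤ ∑ v ∈ A, v.deg (Nat.card K) := by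
  classical
  obtain ⟨p, hp⟩ := CharP.exists K
  have hprime : p.Prime := (CharP.char_is_prime_or_zero K p).resolve_right (CharP.char_ne_zero_of_finite K p)
  have : Fact p.Prime := ⟨hprime⟩
  have : NeZero r := ⟨by omega⟩
  let L := FiniteField.Extension K p r
  have hint : ∀ α : L, IsIntegral K α := fun α => IsIntegral.of_finite K α
  have hirr : ∀ α : L, Irreducible (minpoly K α) := fun α => minpoly.irreducible (hint α)
  have hmon : ∀ α : L, (minpoly K α).Monic := fun α => minpoly.monic (hint α)
  let pl : L → DV (RatFunc K) := fun α => fin (minpoly K α) (hirr α)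
  have hat : ∀ α : L, At (pl α) (minpoly K α) := fun α => fin_at (hirr α) (hmon α)
  have := Fintype.ofFinite L
  refine ⟨Finset.univ.image pl, ?_, ?_⟩
  · intro v hv
    rw [Finset.mem_image] at hv
    obtain ⟨α, -, rfl⟩ := hv
    refine ⟨(hat α).ne_inf, ?_⟩
    rw [(hat α).deg]
    have h1 := minpoly.degree_dvd (hint α)
    rwa [FiniteField.finrank_extension] at h1
  · have h1 : Nat.card K ^ r = (Finset.univ : Finset L).card := by
      rw [Finset.card_univ, ← Nat.card_eq_fintype_card, FiniteField.natCard_extension]
    rw [h1]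
    rw [Finset.card_eq_sum_card_image pl Finset.univ]
    refine Finset.sum_le_sum fun v hv => ?_
    rw [Finset.mem_image] at hv
    obtain ⟨α, -, rfl⟩ := hv
    rw [(hat α).deg]
    have hne : (minpoly K α).map (algebraMap K L) ≠ 0 :=
      (Polynomial.map_ne_zero (hmon α).ne_zero)
    have h2 : (Finset.univ.filter fun β : L => pl β = pl α) ⊆
        ((minpoly K α).map (algebraMap K L)).roots.toFinset := by
      intro β hβ
      rw [Finset.mem_filter] at hβ
      have h3 : At (pl α) (minpoly K β) := hβ.2 ▸ hat β
      have h4 : minpoly K β = minpoly K α := h3.inj (hat α)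
      rw [Multiset.mem_toFinset, mem_roots hne, IsRoot.def, eval_map_algebraMap, ← h4]
      exact minpoly.aeval K β
    calc (Finset.univ.filter fun β : L => pl β = pl α).card
        ≤ ((minpoly K α).map (algebraMap K L)).roots.toFinset.card := Finset.card_le_card h2
      _ ≤ Multiset.card ((minpoly K α).map (algebraMap K L)).roots := Multiset.toFinset_card_le _
      _ ≤ ((minpoly K α).map (algebraMap K L)).natDegree := Polynomial.card_roots' _
      _ = (minpoly K α).natDegree := Polynomial.natDegree_map _

/-- (R2) The places of degree at most `D`. -/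
theorem card_le (D : ℕ) (B : Finset (DV (RatFunc K))) (hB : ∀ v ∈ B, v.deg (Nat.card K) ≤ D) :
    B.card ≤ 1 + Nat.card K ^ (D + 1) := by
  classical
  have hch : ∀ v : DV (RatFunc K), ∃ π : K[X], v ≠ inf K → At v π := by
    intro v
    rcases inf_or_at v with h | ⟨π, h⟩
    · exact ⟨0, fun h' => absurd h h'⟩
    · exact ⟨π, fun _ => h⟩
  choose π hπ using hch
  have hdeg : ∀ v ∈ B.erase (inf K), π v ∈ Polynomial.degreeLT K (D + 1) := by
    intro v hv
    rw [Finset.mem_erase] at hv
    rw [Polynomial.mem_degreeLT]
    have h1 := hB v hv.2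
    rw [(hπ v hv.1).deg] at h1
    refine lt_of_le_of_lt Polynomial.degree_le_natDegree ?_
    exact_mod_cast Nat.lt_succ_of_le h1
  have hfin : Finite (Polynomial.degreeLT K (D + 1)) :=
    Finite.of_equiv _ (Polynomial.degreeLTEquiv K (D + 1)).toEquiv.symm
  have hcard : Nat.card (Polynomial.degreeLT K (D + 1)) = Nat.card K ^ (D + 1) := by
    rw [Nat.card_congr (Polynomial.degreeLTEquiv K (D + 1)).toEquiv, Nat.card_fun, Nat.card_fin]
  have h2 : (B.erase (inf K)).card ≤ Nat.card K ^ (D + 1) := by
    rw [← hcard, ← Nat.card_eq_finsetCard]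
    refine Nat.card_le_card_of_injective (fun v : (B.erase (inf K) : Finset (DV (RatFunc K))) =>
      (⟨π v, hdeg v v.2⟩ : Polynomial.degreeLT K (D + 1))) ?_
    rintro ⟨v, hv⟩ ⟨w, hw⟩ h
    have h3 : π v = π w := congrArg Subtype.val h
    have hv' := hπ v (Finset.mem_erase.1 hv).1
    have hw' := hπ w (Finset.mem_erase.1 hw).1
    rw [← h3] at hw'
    exact Subtype.ext (hv'.unique hw')
  have h3 : B.card ≤ (B.erase (inf K)).card + 1 := by
    by_cases h : inf K ∈ B
    · rw [Finset.card_erase_of_mem h]; omega
    · rw [Finset.erase_eq_of_notMem h]; omega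
  omega

end Rat

end Pool.Agent.FF
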