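import Pool.Agent.FF.Twist
import Pool.Agent.FF.Bridge
import Pool.Agent.FF.RRD
import Pool.Agent.FF.RatBase

/-! Places of degree exactly `r`: the data carried along a chain of double covers (`HasPl`), the base
(rational function field), the step, and the final statement. -/

set_option autoImplicit false
set_option linter.unusedSectionVars false

namespace Pool.Agent.FF

/-- For `s = 2 ^ e`, `s ^ 2 = q ^ r`, `s ≥ B`: the places with residue field in the extension of degree
`r` have total degree `≥ s ^ 2 - C s`; and at most `M (1 + q ^ (D + 1))` places of degree `≤ D`. -/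
structure HasPl (k K : Type*) [Field k] [Field K] (B C M : ℕ) : Prop where
  wt : ∀ r s e : ℕ, 1 ≤ r → s = 2 ^ e → s ^ 2 = Nat.card k ^ r → B ≤ s → Wt k K r s C
  few : ∀ D : ℕ, Few k K D (M * (1 + Nat.card k ^ (D + 1)))

theorem HasPl.mono {k K : Type*} [Field k] [Field K] {B C M B' C' M' : ℕ} (h : HasPl k K B C M)
    (hB : B ≤ B') (hC : C ≤ C') (hM : M ≤ M') : HasPl k K B' C' M' where
  wt r s e hr hs hsq hBs := by
    obtain ⟨A, hA, hAs⟩ := h.wt r s e hr hs hsq (hB.trans hBs)
    exact ⟨A, hA, hAs.trans (Nat.add_le_add_left (Nat.mul_le_mul_right _ hC) _)⟩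
  few D A hA := (h.few D A hA).trans (Nat.mul_le_mul_right _ hM)

section

variable {k K K' : Type*} [Field k] [Finite k] [Field K] [Field K'] [Algebra k K] [Algebra k K']
  [Algebra K K']

theorem Cv.resCard_ne {g : ℕ} (h : Cv k K g) (v : DV K) : v.resCard ≠ 0 := h.ffp.res v

/-- The facts about one rational place used in Bombieri's bound. -/
theorem Cv.rrone {g : ℕ} (h : Cv k K g) {R : DV K} (hR : R.Rat k) : RRone k (deg k) R g where
  rat := hR
  const := h.const
  lower := fun n => RRD.le_card_LP h hR.deg_eq_one n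
  zeros := fun _ _ hx hx0 S hS =>
    RRD.sum_deg_le h hR.deg_eq_one hx0 hx S fun v hv => (hS v hv).2

/-- Base: the rational function field. -/
theorem HasPl.base (k : Type*) [Field k] [Finite k] : HasPl k (RatFunc k) 0 0 1 where
  wt r s e hr _ hsq _ := by
    obtain ⟨A, hA, hAs⟩ := Rat.exists_places (K := k) r hr
    refine ⟨A, fun v hv => Er_of_dvd ((Rat.cv (K := k)).resCard_ne v) (hA v hv).2, ?_⟩
    rw [hsq, zero_mul, add_zero]
    exact hAs
  few D A hA := by
    rw [one_mul]
    exact Rat.card_le D A hA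

variable [CharP K 2] {f : K}

/-- Step: an Artin–Schreier double cover with a rational ramified place. -/
theorem HasPl.up {g g' : ℕ} (hcv : Cv k K g) (hcv' : Cv k K' g') (S : AS K K' f)
    {D : DV K → ℕ} {c : DV K → K} (hN : NF f D c) {R : DV K} (hR : R.Rat k) (hDR : D R ≠ 0)
    (hg' : g' + 1 = 2 * g + ∑ᶠ v, D v * v.deg (Nat.card k)) {B C M : ℕ} (h : HasPl k K B C M) :
    HasPl k K' (max B ((g' + 1) * (g' + 2))) (2 * C + 4 * g' + 3) (2 * M) where
  wt r s e hr hs hsq hBs := by
    classical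
    have hres := hcv.resCard_ne
    have hram : ∀ v : DV K, (∀ d : K, ¬ v.G 0 (f + (d ^ 2 + d))) → D v ≠ 0 := fun v hv hD =>
      hv _ (hN.int v hD)
    have hodd := hN.odd R hDR
    have h1 : 1 ≤ D R := Nat.one_le_iff_ne_zero.2 hDR
    obtain ⟨R', hR'R, hR'1, hR'2⟩ : ∃ R' : DV K', Over R' R ∧ (∀ w : DV K', Over w R → w = R') ∧
        R'.resCard = R.resCard := by
      obtain ⟨R', hR'⟩ := S.exists_over' (DV.perf_of_res (hres R))
      exact ⟨R', hR', (S.over_of_odd hR' h1 hodd).2.2.2, (S.over_of_odd hR' h1 hodd).2.2.1⟩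
    have hR'rat : R'.Rat k := (rational_iff k R').1 (hR'2.trans ((rational_iff k R).2 hR))
    have hRram : ∀ d : K, ¬ R.G 0 (f + (d ^ 2 + d)) := by
      intro d hd
      have h2 : (2 : K) = 0 := CharTwo.two_eq_zero
      refine DV.not_int_of_odd (v := R) (f := f + (d ^ 2 + d)) (c := d + c R) h1 ?_ hd
      have e1 : f + (d ^ 2 + d) + ((d + c R) ^ 2 + (d + c R)) = f + (c R ^ 2 + c R) := by
        linear_combination (d ^ 2 + d + d * c R) * h2
      rw [e1]
      exact hodd
    have hsupp : (Function.support fun v => D v * v.deg (Nat.card k)).Finite :=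
      hN.fin.subset fun v hv => left_ne_zero_of_mul hv
    have hρ : ∀ A : Finset (DV K), (∀ v ∈ A, ∀ d : K, ¬ v.G 0 (f + (d ^ 2 + d))) →
        ∑ v ∈ A, deg k v ≤ g' + 1 := by
      intro A hA
      calc ∑ v ∈ A, deg k v ≤ ∑ v ∈ A, D v * v.deg (Nat.card k) := by
            refine Finset.sum_le_sum fun v hv => ?_
            exact Nat.le_mul_of_pos_left _ (Nat.pos_of_ne_zero (hram v (hA v hv)))
        _ ≤ ∑ᶠ v, D v * v.deg (Nat.card k) := by
            rw [finsum_eq_sum_of_support_subset (s := hsupp.toFinset ∪ A) _ (by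
              intro v hv
              simp only [Finset.coe_union, Set.Finite.coe_toFinset]
              exact Or.inl hv)]
            exact Finset.sum_le_sum_of_subset Finset.subset_union_right
        _ ≤ g' + 1 := by omega
    have hW := Wt.double S hres hs hsq hR'R hR'1 hRram (hcv'.rrone hR'rat)
      ((le_max_right _ _).trans hBs) hρ (h.wt r s e hr hs hsq ((le_max_left _ _).trans hBs))
    have e2 : 2 * C + 2 * (g' + 1) + 2 * g' + 1 = 2 * C + 4 * g' + 3 := by ring
    rwa [e2] at hW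
  few E := by
    have h1 := Few.double (k := k) hcv.resCard_ne S (h.few E)
    rwa [← mul_assoc] at h1

omit [CharP K 2] in
/-- **A place of degree exactly `r`.** -/
theorem HasPl.exists_place {g : ℕ} (hcv : Cv k K g) {B C M : ℕ} (h : HasPl k K B C M) {r s e : ℕ}
    (hr : 1 ≤ r) (hs : s = 2 ^ e) (hsq : s ^ 2 = Nat.card k ^ r) (hB : B ≤ s)
    (hlt : r * M * (1 + Nat.card k) + C < s) : ∃ v : DV K, v.deg (Nat.card k) = r := by
  refine exists_deg_eq hcv.resCard_ne hr (h.wt r s e hr hs hsq hB) (h.few (r / 2)) ?_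
  have hs1 : 1 ≤ s := by rw [hs]; exact Nat.one_le_two_pow
  set q := Nat.card k with hq
  have hq1 : 1 ≤ q := Nat.card_pos
  have h1 : q ^ (r / 2) ≤ s := by
    have h2 : (q ^ (r / 2)) ^ 2 ≤ s ^ 2 := by
      rw [hsq, ← pow_mul]
      exact Nat.pow_le_pow_right hq1 (Nat.div_mul_le_self r 2)
    exact (Nat.pow_le_pow_iff_left (by norm_num)).1 h2
  have h3 : 1 + q ^ (r / 2 + 1) ≤ (1 + q) * s := by
    rw [pow_succ]
    calc 1 + q ^ (r / 2) * q ≤ s + s * q := Nat.add_le_add hs1 (Nat.mul_le_mul_right _ h1)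
      _ = (1 + q) * s := by ring
  calc r / 2 * (M * (1 + q ^ (r / 2 + 1))) + C * s
      ≤ r * (M * ((1 + q) * s)) + C * s :=
        Nat.add_le_add_right (Nat.mul_le_mul (Nat.div_le_self r 2) (Nat.mul_le_mul_left _ h3)) _
    _ = (r * M * (1 + q) + C) * s := by ring
    _ < s * s := Nat.mul_lt_mul_of_pos_right hlt hs1
    _ = s ^ 2 := (sq s).symm

/-- The recursion of the constants: `C` at level `j` with `g_j ≤ m 2 ^ j + 1`. -/
theorem const_rec {m j C g' : ℕ} (hC : C + 7 ≤ 2 ^ j * (4 * m * j + 7)) (hg : g' ≤ m * 2 ^ (j + 1) + 1) :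
    2 * C + 4 * g' + 3 + 7 ≤ 2 ^ (j + 1) * (4 * m * (j + 1) + 7) := by
  have e : 2 ^ (j + 1) * (4 * m * (j + 1) + 7) = 2 * (2 ^ j * (4 * m * j + 7)) + 4 * (m * 2 ^ (j + 1)) := by
    rw [pow_succ]; ring
  rw [e]
  omega

end

end Pool.Agent.FF
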