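import Pool.Agent.FF.BombX
import Pool.Agent.FF.DegR

/-! Places of degree exactly `r`, also for odd `r` over a field with an odd power of `2` elements: the
total degree of the places whose degree divides `r` is at least `q ^ r - C s`, `q ^ r = s s'`. -/

set_option autoImplicit false
set_option linter.unusedSectionVars false

namespace Pool.Agent.FF

/-- the places of `F` with `Er` have total degree at least `q ^ r - C s` -/
def WtX (k F : Type*) [Field k] [Field F] (r s C : ℕ) : Prop :=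
  ∃ A : Finset (DV F), (∀ v ∈ A, Er k v r) ∧ Nat.card k ^ r ≤ ∑ v ∈ A, deg k v + C * s

section

variable {k F : Type*} [Field k] [Finite k] [Field F] [Algebra k F] {v : DV F}

/-- The final step: a place of degree exactly `r`. -/
theorem exists_deg_eqX (hres : ∀ v : DV F, v.resCard ≠ 0) {r s C N : ℕ} (hr : 1 ≤ r)
    (h : WtX k F r s C) (hf : Few k F (r / 2) N) (hlt : r / 2 * N + C * s < Nat.card k ^ r) :
    ∃ v : DV F, deg k v = r := by
  classical
  obtain ⟨A, hA, hs⟩ := h
  by_contra hcon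
  push Not at hcon
  have h1 : ∀ v ∈ A, deg k v ≤ r / 2 := by
    intro v hv
    obtain ⟨m, hm⟩ := dvd_of_Er (hres v) (hA v hv)
    have hne := hcon v
    have hm2 : 2 ≤ m := by
      rcases m with _ | _ | m
      · omega
      · exact absurd (by rw [hm]; ring) hne
      · omega
    rw [Nat.le_div_iff_mul_le (by norm_num)]
    calc deg k v * 2 ≤ deg k v * m := Nat.mul_le_mul_left _ hm2
      _ = r := hm.symm
  have h2 : ∑ v ∈ A, deg k v ≤ r / 2 * N := by
    calc ∑ v ∈ A, deg k v ≤ ∑ _v ∈ A, r / 2 := Finset.sum_le_sum h1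
      _ = r / 2 * A.card := by rw [Finset.sum_const, smul_eq_mul, mul_comm]
      _ ≤ r / 2 * N := Nat.mul_le_mul_left _ (hf A h1)
  omega

end

section fibres

variable {k K K' : Type*} [Field k] [Finite k] [Field K] [Field K'] [Algebra k K] [Algebra k K']
  [Algebra K K'] [CharP K 2] {f : K} (S : AS K K' f)

/-- **The step.** -/
theorem WtX.double (S : AS K K' f) (hres : ∀ v : DV K, v.resCard ≠ 0) {r s e s' e' C ρ g' : ℕ}
    (hs : s = 2 ^ e) (hs' : s' = 2 ^ e') (hss : s' ≤ s) (hsq : s * s' = Nat.card k ^ r) {R : DV K} {R' : DV K'} (hR' : Over R' R)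
    (hu : ∀ w : DV K', Over w R → w = R') (hram : ∀ c : K, ¬ R.G 0 (f + (c ^ 2 + c)))
    (hRR : RRone k (deg k) R' g') (hg : (g' + 1) * (g' + 2) ≤ s)
    (hρ : ∀ A : Finset (DV K), (∀ v ∈ A, ∀ c : K, ¬ v.G 0 (f + (c ^ 2 + c))) →
      ∑ v ∈ A, deg k v ≤ ρ)
    (h : WtX k K r s C) : WtX k K' r s (2 * C + 2 * ρ + 2 * g' + 1) := by
  classical
  have hch : CharP K' 2 := charP_of_injective_algebraMap (algebraMap K K').injective 2
  have hM : Nat.card k ^ r = 2 ^ (e + e') := by rw [← hsq, hs, hs', pow_add]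
  obtain ⟨A, hA, hAs⟩ := h
  set U := A.filter (fun v => ∃ c : K, v.G 0 (f + (c ^ 2 + c))) with hU
  set V := A.filter (fun v => ¬ ∃ c : K, v.G 0 (f + (c ^ 2 + c))) with hV
  have hV1 : ∑ v ∈ V, deg k v ≤ ρ := hρ V fun v hv c hc => (Finset.mem_filter.1 hv).2 ⟨c, hc⟩
  have hUV : ∑ v ∈ U, deg k v + ∑ v ∈ V, deg k v = ∑ v ∈ A, deg k v :=
    Finset.sum_filter_add_sum_filter_not A _ _
  let good : DV K → Prop := fun v =>
    ∃ B : Finset (DV K'), (∀ w ∈ B, Over w v ∧ Er k w r) ∧ 2 * deg k v ≤ ∑ w ∈ B, deg k w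
  set U1 := U.filter good with hU1
  set U2 := U.filter (fun v => ¬ good v) with hU2
  have hUU : ∑ v ∈ U1, deg k v + ∑ v ∈ U2, deg k v = ∑ v ∈ U, deg k v :=
    Finset.sum_filter_add_sum_filter_not U _ _
  -- the good places
  have hgood : ∀ v : U1, good v := fun v => (Finset.mem_filter.1 v.2).2
  choose B hB1 hB2 using hgood
  set A' : Finset (DV K') := U1.attach.biUnion B with hA'
  have hA'sum : ∑ w ∈ A', deg k w = ∑ v ∈ U1.attach, ∑ w ∈ B v, deg k w := by
    rw [hA']
    refine Finset.sum_biUnion fun v _ v' _ hne => ?_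
    rw [Function.onFun, Finset.disjoint_left]
    intro w hw hw'
    exact hne (Subtype.ext ((hB1 v w hw).1.unique (hB1 v' w hw').1))
  have hA'1 : 2 * ∑ v ∈ U1, deg k v ≤ ∑ w ∈ A', deg k w := by
    rw [hA'sum, ← Finset.sum_attach U1 (fun v => deg k v), Finset.mul_sum]
    exact Finset.sum_le_sum fun v _ => hB2 v
  -- the bad places
  have hbad : ∀ v : U2, ∃ w : DV K', Over w v.1 ∧ deg k w = 2 * deg k v.1 ∧
      ∀ x : K', w.G 0 x → w.G 1 (x ^ (Nat.card k ^ r) - S.sg x) := by
    intro v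
    obtain ⟨hv1, hv2⟩ := Finset.mem_filter.1 v.2
    obtain ⟨hv3, c, hc⟩ := Finset.mem_filter.1 hv1
    rcases fibre_dich S (hres v.1) hM (hA _ hv3) hc with h | h
    · exact absurd h hv2
    · exact h
  choose w hw1 hw2 hw3 using hbad
  have hwinj : Function.Injective w := by
    intro v v' hvv
    have h1 := hw1 v
    rw [hvv] at h1
    exact Subtype.ext (h1.unique (hw1 v'))
  have hbomb := bombieriX hRR S.sg (fun n x hx => S.sg_LR hR' hu n x hx) hs hs' hss hg
    (U2.attach.image w) (by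
      intro P hP
      obtain ⟨v, -, rfl⟩ := Finset.mem_image.1 hP
      have hne : w v ≠ R' := by
        intro h1
        have h2 := hw1 v
        rw [h1] at h2
        have h3 := h2.unique hR'
        obtain ⟨hv1, hv2⟩ := Finset.mem_filter.1 v.2
        obtain ⟨hv3, c, hc⟩ := Finset.mem_filter.1 hv1
        rw [h3] at hc
        exact hram c hc
      refine ⟨hne, fun n x hx => ?_⟩
      rw [hsq]
      exact hw3 v x (hx.2 _ hne))
  rw [Finset.sum_image fun v _ v' _ h => hwinj h] at hbomb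
  have hU2sum : ∑ v ∈ U2.attach, deg k (w v) = 2 * ∑ v ∈ U2, deg k v := by
    rw [← Finset.sum_attach U2 (fun v => deg k v), Finset.mul_sum]
    exact Finset.sum_congr rfl fun v _ => hw2 v
  rw [hU2sum] at hbomb
  refine ⟨A', ?_, ?_⟩
  · intro w hw
    obtain ⟨v, -, hv⟩ := Finset.mem_biUnion.1 hw
    exact (hB1 v w hv).2
  · have hs1 : 1 ≤ s := by rw [hs]; exact Nat.one_le_two_pow
    have hρs : ρ ≤ ρ * s := Nat.le_mul_of_pos_right _ hs1
    have e1 : (2 * C + 2 * ρ + 2 * g' + 1) * s = 2 * (C * s) + 2 * (ρ * s) + (2 * g' + 1) * s := by ring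
    rw [e1]
    rw [hsq] at hbomb
    omega

end fibres

/-- For powers of two `s' ≤ s` with `s s' = q ^ r`, `s ≥ B`: the places with residue field in the
extension of degree `r` have total degree `≥ q ^ r - C s`; and at most `M (1 + q ^ (D + 1))` places of
degree `≤ D`. -/
structure HasPlX (k K : Type*) [Field k] [Field K] (B C M : ℕ) : Prop where
  wt : ∀ r s e s' e' : ℕ, 1 ≤ r → s = 2 ^ e → s' = 2 ^ e' → s' ≤ s → s * s' = Nat.card k ^ r → B ≤ s →
    WtX k K r s C
  few : ∀ D : ℕ, Few k K D (M * (1 + Nat.card k ^ (D + 1)))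

theorem HasPlX.mono {k K : Type*} [Field k] [Field K] {B C M B' C' M' : ℕ} (h : HasPlX k K B C M)
    (hB : B ≤ B') (hC : C ≤ C') (hM : M ≤ M') : HasPlX k K B' C' M' where
  wt r s e s' e' hr hs hs' hss hsq hBs := by
    obtain ⟨A, hA, hAs⟩ := h.wt r s e s' e' hr hs hs' hss hsq (hB.trans hBs)
    exact ⟨A, hA, hAs.trans (Nat.add_le_add_left (Nat.mul_le_mul_right _ hC) _)⟩
  few D A hA := (h.few D A hA).trans (Nat.mul_le_mul_right _ hM)

section

variable {k K K' : Type*} [Field k] [Finite k] [Field K] [Field K'] [Algebra k K] [Algebra k K']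
  [Algebra K K']

/-- Base: the rational function field. -/
theorem HasPlX.base (k : Type*) [Field k] [Finite k] : HasPlX k (RatFunc k) 0 0 1 where
  wt r s e s' e' hr _ _ _ _ _ := by
    obtain ⟨A, hA, hAs⟩ := Rat.exists_places (K := k) r hr
    refine ⟨A, fun v hv => Er_of_dvd ((Rat.cv (K := k)).resCard_ne v) (hA v hv).2, ?_⟩
    rw [zero_mul, add_zero]
    exact hAs
  few D A hA := by
    rw [one_mul]
    exact Rat.card_le D A hA

variable [CharP K 2] {f : K}

/-- Step: an Artin–Schreier double cover with a rational ramified place. -/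
theorem HasPlX.up {g g' : ℕ} (hcv : Cv k K g) (hcv' : Cv k K' g') (S : AS K K' f)
    {D : DV K → ℕ} {c : DV K → K} (hN : NF f D c) {R : DV K} (hR : R.Rat k) (hDR : D R ≠ 0)
    (hg' : g' + 1 = 2 * g + ∑ᶠ v, D v * v.deg (Nat.card k)) {B C M : ℕ} (h : HasPlX k K B C M) :
    HasPlX k K' (max B ((g' + 1) * (g' + 2))) (2 * C + 4 * g' + 3) (2 * M) where
  wt r s e s' e' hr hs hs' hss hsq hBs := by
    classical
    have hres := hcv.resCard_ne
    have hram : ∀ v : DV K, (∀ d : K, ¬ v.G 0 (f + (d ^ 2 + d))) → D v ≠ 0 := fun v hv hD =>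
      hv _ (hN.int v hD)
    have hodd := hN.odd R hDR
    have h1 : 1 ≤ D R := Nat.one_le_iff_ne_zero.2 hDR
    obtain ⟨R', hR'R, hR'1, hR'2⟩ : ∃ R' : DV K', Over R' R ∧ (∀ w : DV K', Over w R → w = R') ∧
        R'.resCard = R.resCard := by
      obtain ⟨R', hR'⟩ := S.exists_over' (DV.perf_of_res (hres R))
      exact ⟨R', hR', (S.over_of_odd hR' h1 hodd).2.2.2, (S.over_of_odd hR' h1 hodd).2.2.1⟩
    have hR'rat : R'.Rat k := (rational_iff k R').1 (hR'2.trans ((rational_iff k R).2 hR))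
    have hRram : ∀ d : K, ¬ R.G 0 (f + (d ^ 2 + d)) := by
      intro d hd
      have h2 : (2 : K) = 0 := CharTwo.two_eq_zero
      refine DV.not_int_of_odd (v := R) (f := f + (d ^ 2 + d)) (c := d + c R) h1 ?_ hd
      have e1 : f + (d ^ 2 + d) + ((d + c R) ^ 2 + (d + c R)) = f + (c R ^ 2 + c R) := by
        linear_combination (d ^ 2 + d + d * c R) * h2
      rw [e1]
      exact hodd
    have hsupp : (Function.support fun v => D v * v.deg (Nat.card k)).Finite :=
      hN.fin.subset fun v hv => left_ne_zero_of_mul hv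
    have hρ : ∀ A : Finset (DV K), (∀ v ∈ A, ∀ d : K, ¬ v.G 0 (f + (d ^ 2 + d))) →
        ∑ v ∈ A, deg k v ≤ g' + 1 := by
      intro A hA
      calc ∑ v ∈ A, deg k v ≤ ∑ v ∈ A, D v * v.deg (Nat.card k) := by
            refine Finset.sum_le_sum fun v hv => ?_
            exact Nat.le_mul_of_pos_left _ (Nat.pos_of_ne_zero (hram v (hA v hv)))
        _ ≤ ∑ᶠ v, D v * v.deg (Nat.card k) := by
            rw [finsum_eq_sum_of_support_subset (s := hsupp.toFinset ∪ A) _ (by
              intro v hv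
              simp only [Finset.coe_union, Set.Finite.coe_toFinset]
              exact Or.inl hv)]
            exact Finset.sum_le_sum_of_subset Finset.subset_union_right
        _ ≤ g' + 1 := by omega
    have hW := WtX.double S hres hs hs' hss hsq hR'R hR'1 hRram (hcv'.rrone hR'rat)
      ((le_max_right _ _).trans hBs) hρ (h.wt r s e s' e' hr hs hs' hss hsq ((le_max_left _ _).trans hBs))
    have e2 : 2 * C + 2 * (g' + 1) + 2 * g' + 1 = 2 * C + 4 * g' + 3 := by ring
    rwa [e2] at hW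
  few E := by
    have h1 := Few.double (k := k) hcv.resCard_ne S (h.few E)
    rwa [← mul_assoc] at h1

omit [CharP K 2] in
/-- **A place of degree exactly `r`.** -/
theorem HasPlX.exists_place {g : ℕ} (hcv : Cv k K g) {B C M : ℕ} (h : HasPlX k K B C M) {r s e s' e' : ℕ}
    (hr : 1 ≤ r) (hs : s = 2 ^ e) (hs' : s' = 2 ^ e') (hss : s' ≤ s) (hsq : s * s' = Nat.card k ^ r) (hB : B ≤ s)
    (hlt : r * M * (1 + Nat.card k) + C < s') : ∃ v : DV K, v.deg (Nat.card k) = r := by
  refine exists_deg_eqX hcv.resCard_ne hr (h.wt r s e s' e' hr hs hs' hss hsq hB) (h.few (r / 2)) ?_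
  have hs1 : 1 ≤ s := by rw [hs]; exact Nat.one_le_two_pow
  set q := Nat.card k with hq
  have hq1 : 1 ≤ q := Nat.card_pos
  have h1 : q ^ (r / 2) ≤ s := by
    have h2 : (q ^ (r / 2)) ^ 2 ≤ s ^ 2 := by
      have h3 : s * s' ≤ s ^ 2 := by rw [sq]; exact Nat.mul_le_mul_left _ hss
      refine le_trans ?_ h3
      rw [hsq, ← pow_mul]
      exact Nat.pow_le_pow_right hq1 (Nat.div_mul_le_self r 2)
    exact (Nat.pow_le_pow_iff_left (by norm_num)).1 h2
  have h3 : 1 + q ^ (r / 2 + 1) ≤ (1 + q) * s := by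
    rw [pow_succ]
    calc 1 + q ^ (r / 2) * q ≤ s + s * q := Nat.add_le_add hs1 (Nat.mul_le_mul_right _ h1)
      _ = (1 + q) * s := by ring
  calc r / 2 * (M * (1 + q ^ (r / 2 + 1))) + C * s
      ≤ r * (M * ((1 + q) * s)) + C * s :=
        Nat.add_le_add_right (Nat.mul_le_mul (Nat.div_le_self r 2) (Nat.mul_le_mul_left _ h3)) _
    _ = (r * M * (1 + q) + C) * s := by ring
    _ < s' * s := Nat.mul_lt_mul_of_pos_right hlt hs1
    _ = q ^ r := by rw [← hsq, mul_comm]

end

end Pool.Agent.FF
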