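import Pool.Agent.FF.DV

/-! Artin–Schreier double extensions `K' = K + K y`, `y ^ 2 + y = f`, in characteristic two, and the discrete
valuations of `K'` over a discrete valuation of `K`. -/

set_option autoImplicit false

open Filter

namespace Pool.Agent.FF

section reduce

variable {K : Type*} [Field K] [CharP K 2]

/-- The residue field is perfect: every integral element is a square modulo the maximal ideal. -/
def DV.Perf (v : DV K) : Prop := ∀ a : K, v.G 0 a → ∃ b : K, v.G 0 b ∧ v.G 1 (a + b ^ 2)

theorem add_self_two (a : K) : a + a = 0 := CharTwo.add_self_eq_zero a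

/-- Reduction of `f` modulo `c ^ 2 + c`: either integral, or of odd pole order. -/
theorem DV.reduce {v : DV K} (hp : v.Perf) (f : K) :
    ∃ c : K, v.G 0 (f + (c ^ 2 + c)) ∨ ∃ e : ℕ, 1 ≤ e ∧ v.ord (f + (c ^ 2 + c)) = 1 - 2 * e := by
  suffices H : ∀ n : ℕ, ∀ f : K, v.G (-n) f →
      ∃ c : K, v.G 0 (f + (c ^ 2 + c)) ∨ ∃ e : ℕ, 1 ≤ e ∧ v.ord (f + (c ^ 2 + c)) = 1 - 2 * e by
    exact H (v.ord f).natAbs f (DV.G_of_le (by omega))
  intro n
  induction n with
  | zero => intro f hf; exact ⟨0, Or.inl (by simpa using hf)⟩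
  | succ n ih =>
    intro f hf
    by_cases h1 : v.G (-n) f
    · exact ih f h1
    have hf0 : f ≠ 0 := DV.ne_zero_of_not_G h1
    have hle := hf.le hf0
    have hlt := (DV.not_G hf0).1 h1
    push_cast at hle
    have hord : v.ord f = -(n + 1 : ℤ) := by omega
    rcases Nat.even_or_odd' n with ⟨m, hm | hm⟩
    · refine ⟨0, Or.inr ⟨m + 1, by omega, ?_⟩⟩
      simp only [ne_eq, OfNat.ofNat_ne_zero, not_false_eq_true, zero_pow, add_zero]
      push_cast
      omega
    · -- pole order `n + 1 = 2 * (m + 1)`
      obtain ⟨t, ht, ht1⟩ := v.exists_ord (-(m + 1 : ℤ))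
      have hu : v.ord (f / t ^ 2) = 0 := by
        rw [v.ord_div hf0 (pow_ne_zero 2 ht), v.ord_pow ht, ht1, hord, hm]
        push_cast
        ring
      obtain ⟨b, hb, hb1⟩ := hp (f / t ^ 2) (DV.G_of_le hu.ge)
      have h2 : v.G (-n) (f + ((b * t) ^ 2 + b * t)) := by
        have h3 : f + ((b * t) ^ 2 + b * t) = t ^ 2 * (f / t ^ 2 + b ^ 2) + b * t := by
          field_simp
          ring
        rw [h3]
        have h4 : v.G (2 * -(m + 1 : ℤ)) (t ^ 2) := by
          have := (DV.G_ord (v := v) t).pow 2
          rw [ht1] at this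
          exact_mod_cast this
        refine (h4.mul hb1 |>.mono (by omega)).add ((hb.mul (DV.G_ord (v := v) t)).mono ?_)
        rw [ht1]
        omega
      obtain ⟨c, hc⟩ := ih _ h2
      refine ⟨b * t + c, ?_⟩
      have h5 : f + ((b * t + c) ^ 2 + (b * t + c)) = f + ((b * t) ^ 2 + b * t) + (c ^ 2 + c) := by
        have : (2 : K) = 0 := CharTwo.two_eq_zero
        linear_combination (b * t * c) * this
      rw [h5]
      exact hc

end reduce

/-- `K' = K + K y` with `y ^ 2 + y = f`, where `f` is not of the form `c ^ 2 + c` in `K`. -/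
structure AS (K K' : Type*) [Field K] [Field K'] [Algebra K K'] (f : K) where
  y : K'
  eq : y ^ 2 + y = algebraMap K K' f
  span : ∀ x : K', ∃ p : K × K, x = algebraMap K K' p.1 + algebraMap K K' p.2 * y
  irr : ∀ c : K, c ^ 2 + c ≠ f

namespace AS

set_option linter.unusedSectionVars false

variable {K K' : Type*} [Field K] [Field K'] [Algebra K K'] [CharP K 2] {f : K} (S : AS K K' f)

theorem two' (K K' : Type*) [Field K] [Field K'] [Algebra K K'] [CharP K 2] : (2 : K') = 0 := by
  have : (2 : K) = 0 := CharTwo.two_eq_zero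
  calc (2 : K') = algebraMap K K' 2 := (map_ofNat (algebraMap K K') 2).symm
    _ = 0 := by rw [this, map_zero]

/-- First coordinate. -/
noncomputable def a (x : K') : K := (Classical.choose (S.span x)).1
/-- Second coordinate. -/
noncomputable def b (x : K') : K := (Classical.choose (S.span x)).2

theorem spec (x : K') : x = algebraMap K K' (S.a x) + algebraMap K K' (S.b x) * S.y :=
  Classical.choose_spec (S.span x)

theorem y_notMem (c : K) : S.y ≠ algebraMap K K' c := by
  intro h
  apply S.irr c
  apply (algebraMap K K').injective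
  rw [map_add, map_pow, ← h, S.eq]

theorem unique {a b a' b' : K} (h : algebraMap K K' a + algebraMap K K' b * S.y =
    algebraMap K K' a' + algebraMap K K' b' * S.y) : a = a' ∧ b = b' := by
  have hb : b = b' := by
    by_contra hb
    have h1 : algebraMap K K' (b - b') ≠ 0 := by
      rw [Ne, map_eq_zero]
      exact sub_ne_zero.2 hb
    apply S.y_notMem ((a' - a) / (b - b'))
    rw [map_div₀, eq_div_iff h1, map_sub, map_sub]
    linear_combination h
  refine ⟨?_, hb⟩
  subst hb
  exact (algebraMap K K').injective (add_right_cancel h)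

theorem ab_eq {x : K'} {a b : K} (h : x = algebraMap K K' a + algebraMap K K' b * S.y) :
    S.a x = a ∧ S.b x = b := S.unique ((S.spec x).symm.trans h)

theorem a_add (x x' : K') : S.a (x + x') = S.a x + S.a x' :=
  (S.ab_eq (x := x + x') (a := S.a x + S.a x') (b := S.b x + S.b x') (by
    conv_lhs => rw [S.spec x, S.spec x']
    simp only [map_add]; ring)).1

theorem b_add (x x' : K') : S.b (x + x') = S.b x + S.b x' :=
  (S.ab_eq (x := x + x') (a := S.a x + S.a x') (b := S.b x + S.b x') (by
    conv_lhs => rw [S.spec x, S.spec x']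
    simp only [map_add]; ring)).2

theorem ab_mul (x x' : K') : S.a (x * x') = S.a x * S.a x' + S.b x * S.b x' * f ∧
    S.b (x * x') = S.a x * S.b x' + S.a x' * S.b x + S.b x * S.b x' := by
  have h2 := two' K K'
  refine S.ab_eq ?_
  conv_lhs => rw [S.spec x, S.spec x']
  simp only [map_add, map_mul]
  linear_combination (algebraMap K K' (S.b x) * algebraMap K K' (S.b x')) * S.eq -
    (algebraMap K K' (S.b x) * algebraMap K K' (S.b x') * S.y) * h2

theorem ab_map (c : K) : S.a (algebraMap K K' c) = c ∧ S.b (algebraMap K K' c) = 0 :=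
  S.ab_eq (by simp)

theorem ab_zero : S.a (0 : K') = 0 ∧ S.b (0 : K') = 0 := S.ab_eq (by simp)

theorem ab_one : S.a (1 : K') = 1 ∧ S.b (1 : K') = 0 := S.ab_eq (by simp)

theorem ab_y : S.a S.y = 0 ∧ S.b S.y = 1 := S.ab_eq (by simp)

theorem ab_smul (c : K) (x : K') : S.a (algebraMap K K' c * x) = c * S.a x ∧
    S.b (algebraMap K K' c * x) = c * S.b x := by
  refine S.ab_eq ?_
  conv_lhs => rw [S.spec x]
  simp only [map_mul]
  ring

/-- The norm. -/
noncomputable def N (x : K') : K := S.a x ^ 2 + S.a x * S.b x + S.b x ^ 2 * f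

theorem N_mul (x x' : K') : S.N (x * x') = S.N x * S.N x' := by
  have h2 : (2 : K) = 0 := CharTwo.two_eq_zero
  unfold N
  rw [(S.ab_mul x x').1, (S.ab_mul x x').2]
  linear_combination (2 * S.a x * S.a x' * S.b x * S.b x' * f + S.a x * S.b x * S.b x' ^ 2 * f +
    S.a x' * S.b x' * S.b x ^ 2 * f + S.b x ^ 2 * S.b x' ^ 2 * f) * h2

theorem N_eq_zero {x : K'} (h : S.N x = 0) : x = 0 := by
  have h2 : (2 : K) = 0 := CharTwo.two_eq_zero
  by_cases hb : S.b x = 0
  · have ha : S.a x = 0 := by
      unfold N at h
      rw [hb] at h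
      simpa using h
    rw [S.spec x, ha, hb]
    simp
  · exfalso
    apply S.irr (S.a x / S.b x)
    unfold N at h
    field_simp
    linear_combination h - (S.b x ^ 2 * f) * h2

theorem N_ne_zero {x : K'} (h : x ≠ 0) : S.N x ≠ 0 := fun h' => h (S.N_eq_zero h')

theorem f_ne_zero (S : AS K K' f) : f ≠ 0 := fun h => S.irr 0 (by simp [h])

/-- Change of generator `y ↦ y + c`. -/
noncomputable def shift (c : K) : AS K K' (f + (c ^ 2 + c)) where
  y := S.y + algebraMap K K' c
  eq := by
    have h2 := two' K K'
    simp only [map_add, map_pow]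
    linear_combination S.eq + (S.y * algebraMap K K' c) * h2
  span := fun x => ⟨(S.a x + S.b x * c, S.b x), by
    have h2 := two' K K'
    conv_lhs => rw [S.spec x]
    simp only [map_add, map_mul]
    linear_combination -(algebraMap K K' (S.b x) * algebraMap K K' c) * h2⟩
  irr := fun d h => S.irr (d + c) (by
    have h2 : (2 : K) = 0 := CharTwo.two_eq_zero
    linear_combination h + (d * c + c ^ 2 + c) * h2)

theorem shift_y (c : K) : (S.shift c).y = S.y + algebraMap K K' c := rfl

theorem shift_ab (c : K) (x : K') : (S.shift c).a x = S.a x + S.b x * c ∧ (S.shift c).b x = S.b x := by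
  refine (S.shift c).ab_eq ?_
  have h2 := two' K K'
  rw [shift_y]
  conv_lhs => rw [S.spec x]
  simp only [map_add, map_mul]
  linear_combination -(algebraMap K K' (S.b x) * algebraMap K K' c) * h2

/-- The conjugate generator `y + 1`. -/
noncomputable def conj : AS K K' f where
  y := S.y + 1
  eq := by
    have h2 := two' K K'
    linear_combination S.eq + (S.y + 1) * h2
  span := fun x => ⟨(S.a x + S.b x, S.b x), by
    have h2 := two' K K'
    conv_lhs => rw [S.spec x]
    simp only [map_add]
    linear_combination -(algebraMap K K' (S.b x)) * h2⟩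
  irr := S.irr

theorem conj_y : S.conj.y = S.y + 1 := rfl

theorem conj_ab (x : K') : S.conj.a x = S.a x + S.b x ∧ S.conj.b x = S.b x := by
  refine S.conj.ab_eq ?_
  have h2 := two' K K'
  rw [conj_y]
  conv_lhs => rw [S.spec x]
  simp only [map_add]
  linear_combination -(algebraMap K K' (S.b x)) * h2

theorem conj_conj_ab (x : K') : S.conj.conj.a x = S.a x ∧ S.conj.conj.b x = S.b x := by
  have h2 : (2 : K) = 0 := CharTwo.two_eq_zero
  have h := S.conj.conj_ab x
  rw [(S.conj_ab x).1, (S.conj_ab x).2] at h
  exact ⟨by rw [h.1]; linear_combination (S.b x) * h2, h.2⟩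

end AS

end Pool.Agent.FF
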