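import Pool.Agent.FF.Cover
import Pool.Agent.FF.FinalLL

/-!
# From the tower to curves of every large genus

`Tower k a d`: the tower with the odd parameter `d` over the field `k` with `4 ^ a` elements.
-/

set_option autoImplicit false

namespace Pool.Agent.FF

open Filter

/-- The fields of the tower with parameter `d` over the field `k` with `4 ^ a` elements: at the
`j`-th step the genus is at most `1 + d 2 ^ j`, the obstruction group has at most `2 ^ (1 + 2 ^ j)`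
elements, there are at least `d (2 ^ a - 1) 2 ^ j` rational places, and places of every degree
`≥ A (j + 1)`. -/
def Tower (k : Type) [Field k] (a d : ℕ) : Prop :=
  ∃ A : ℕ, ∀ j : ℕ, ∃ (K : Type) (_ : Field K) (_ : Algebra k K) (_ : CharP K 2) (g n : ℕ)
    (T : Finset (DV K)), IsFF k K ∧ Cv k K g ∧ g ≤ 1 + d * 2 ^ j ∧ Ob K n ∧ n ≤ 1 + 2 ^ j ∧
      (∀ P ∈ T, P.Rat k) ∧ d * (2 ^ a - 1) * 2 ^ j ≤ T.card ∧
      ∀ r : ℕ, A * (j + 1) ≤ r → ∃ Q : DV K, Q.deg (Nat.card k) = r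

/-- linear functions are smaller than `c 2 ^ j` -/
theorem linear_le_pow (A B c : ℝ) (hc : 0 < c) : ∃ j0 : ℕ, ∀ j : ℕ, j0 ≤ j →
    A * j + B ≤ c * 2 ^ j := by
  have h1 : Tendsto (fun n : ℕ => (n : ℝ) ^ 1 / (2 : ℝ) ^ n) atTop (nhds 0) :=
    tendsto_pow_const_div_const_pow_of_one_lt 1 one_lt_two
  have h2 : Tendsto (fun n : ℕ => (n : ℝ) ^ 0 / (2 : ℝ) ^ n) atTop (nhds 0) :=
    tendsto_pow_const_div_const_pow_of_one_lt 0 one_lt_two
  have h3 := (h1.const_mul A).add (h2.const_mul B)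
  rw [mul_zero, mul_zero, add_zero] at h3
  have h4 := h3.eventually_le_const hc
  rw [eventually_atTop] at h4
  obtain ⟨j0, hj0⟩ := h4
  refine ⟨j0, fun j hj => ?_⟩
  have h5 := hj0 j hj
  have h6 : (0 : ℝ) < 2 ^ j := by positivity
  rw [pow_one, pow_zero] at h5
  have h7 : A * ((j : ℝ) / 2 ^ j) + B * (1 / 2 ^ j) = (A * j + B) / 2 ^ j := by
    field_simp
  rw [h7, div_le_iff₀ h6] at h5
  exact h5

variable {k : Type} [Field k] [Finite k]

/-- **The curves of the families for one parameter `d`.** -/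
theorem covers_one {a d : ℕ} (ha : 1 ≤ a) (hd : 1 ≤ d) (hk : Nat.card k = (2 ^ a) ^ 2)
    (H : Tower k a d) (C : ℝ) : _root_.FF.Covers (EC k) (2 ^ a - 1) (2 * a) C {d} := by
  classical
  obtain ⟨A, HA⟩ := H
  intro ε hε
  have hlog : Nat.log 2 (Nat.card k) = 2 * a := by
    rw [hk, ← pow_mul, mul_comm a 2, Nat.log_pow (by norm_num)]
  -- the constants
  set s : ℝ := 2 ^ a - 1 with hs
  have hs1 : 1 ≤ s := by
    have : (2 : ℝ) ^ 1 ≤ 2 ^ a := pow_le_pow_right₀ (by norm_num) ha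
    rw [hs]; linarith
  set lam : ℝ := 2 * a with hlam
  have hlam2 : 2 ≤ lam := by
    have : (1 : ℝ) ≤ a := by exact_mod_cast ha
    rw [hlam]; linarith
  obtain ⟨t, ht⟩ : ∃ t : ℕ, s * d / (ε / 2) + 2 < (2 : ℝ) ^ t := pow_unbounded_of_one_lt _ one_lt_two
  have hsd : 0 ≤ s * d / (ε / 2) := by positivity
  have ht1 : 1 ≤ t := by
    rcases Nat.eq_zero_or_pos t with h | h
    · rw [h, pow_zero] at ht; linarith
    · exact h
  obtain ⟨j1, hj1⟩ := linear_le_pow (A * lam) (A * lam + 5 * lam) 1 one_pos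
  obtain ⟨j2, hj2⟩ := linear_le_pow 0 (lam + 2 + t) (ε / 2) (by linarith)
  refine ⟨max j1 j2, fun j hj d' hd' G hG1 _ => ?_⟩
  rw [Set.mem_singleton_iff] at hd'
  subst hd'
  have e1 := hj1 j ((le_max_left _ _).trans hj)
  have e2 := hj2 j ((le_max_right _ _).trans hj)
  rw [zero_mul, zero_add] at e2
  rw [one_mul] at e1
  obtain ⟨K, iF, iA, iC, g, n, T, hFF, hCv, hg, hOb, hn, hT, hTc, hQ⟩ := HA j
  set M : ℝ := 2 ^ j with hM
  have hMnat : ((2 ^ j : ℕ) : ℝ) = M := by rw [hM]; push_cast; rfl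
  have hM0 : 0 < M := by rw [hM]; positivity
  have hlam0 : 0 < lam := by linarith
  have hgR : (g : ℝ) ≤ 1 + d' * M := by
    have : (g : ℝ) ≤ ((1 + d' * 2 ^ j : ℕ) : ℝ) := by exact_mod_cast hg
    push_cast at this
    exact this
  have hnR : (n : ℝ) ≤ 1 + M := by
    have : (n : ℝ) ≤ ((1 + 2 ^ j : ℕ) : ℝ) := by exact_mod_cast hn
    push_cast at this
    exact this
  -- the degree of the place
  have hεM : 0 < ε * M := by positivity
  have hr5 : (A * (j + 1) + 5) * lam ≤ ((G : ℝ) - 2 * d' * M) * lam := by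
    calc (A * ((j : ℝ) + 1) + 5) * lam = A * lam * j + (A * lam + 5 * lam) := by ring
      _ ≤ M := e1
      _ ≤ (1 + ε) * M := by nlinarith
      _ ≤ _ := hG1
  have hr5' : (A * ((j : ℝ) + 1) + 5) ≤ (G : ℝ) - 2 * d' * M := le_of_mul_le_mul_right hr5 hlam0
  have hGg : 2 * g + 2 ≤ G := by
    have h0 : (0 : ℝ) ≤ A * ((j : ℝ) + 1) := by positivity
    have : (2 : ℝ) * g + 2 ≤ G := by linarith
    exact_mod_cast this
  obtain ⟨r, hr⟩ : ∃ r : ℕ, 2 * g + r = G + 1 := ⟨G + 1 - 2 * g, by omega⟩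
  have hrR : (2 : ℝ) * g + r = G + 1 := by exact_mod_cast hr
  have hr3 : 3 ≤ r := by omega
  have hrA : A * (j + 1) ≤ r := by
    have : (A : ℝ) * ((j : ℝ) + 1) ≤ r := by linarith
    exact_mod_cast this
  obtain ⟨Q, hQr⟩ := hQ r hrA
  -- a subset of the rational places
  obtain ⟨T₀, hT₀, hT₀c⟩ := Finset.exists_subset_card_eq hTc
  have hQT : Q ∉ T₀ := by
    intro h
    have h1 := (hT Q (hT₀ h)).deg_eq_one
    omega
  have hτR : (T₀.card : ℝ) = s * d' * M := by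
    rw [hT₀c]
    have h2 : 1 ≤ 2 ^ a := Nat.one_le_two_pow
    push_cast [Nat.cast_sub h2]
    rw [hs, hM]
    ring
  -- the number of prescribed points
  have hroom : (n : ℝ) + t ≤ lam * r := by
    have h1 : lam * r = ((G : ℝ) + 1 - 2 * g) * lam := by
      have : (r : ℝ) = G + 1 - 2 * g := by linarith
      rw [this]; ring
    rw [h1]
    nlinarith [hG1, hgR, hnR, e2]
  have hroomN : n + t ≤ 2 * a * r := by
    have : (n : ℝ) + t ≤ 2 * a * r := hroom
    exact_mod_cast this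
  obtain ⟨u, hu⟩ : ∃ u : ℕ, n + t + u = 2 * a * r := ⟨2 * a * r - (n + t), by omega⟩
  have huR : (n : ℝ) + t + u = lam * r := by
    have : (n : ℝ) + t + u = 2 * a * r := by exact_mod_cast hu
    exact this
  set k0 := min T₀.card u with hk0
  have hk0T : k0 ≤ T₀.card := min_le_left _ _
  have hbig : n + k0 + t ≤ Nat.log 2 (Nat.card k) * Q.deg (Nat.card k) := by
    rw [hlog, hQr]
    have : k0 ≤ u := min_le_right _ _
    omega
  obtain ⟨N, hN, hcount⟩ := hasCurve_many hFF hCv hOb Q T₀ hQT (fun P hP => hT P (hT₀ hP)) k0 t ht1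
    hk0T hbig
  have hG : 2 * g + Q.deg (Nat.card k) - 1 = G := by rw [hQr]; omega
  rw [hG] at hN
  refine ⟨N, ?_, hN⟩
  -- the count in the reals
  set X : ℝ := 2 ^ t with hX
  have hX2 : 2 ≤ X := by linarith
  have hX2N : 2 ≤ 2 ^ t := by
    have : (2 : ℝ) ≤ ((2 ^ t : ℕ) : ℝ) := by push_cast; exact hX2
    exact_mod_cast this
  have hcR : 2 * (X - 1) * k0 + (X - 2) * ((T₀.card : ℝ) - k0) ≤ (X - 1) * N := by
    have h1 : 1 ≤ 2 ^ t := by omega
    have h2 : ((2 * (2 ^ t - 1) * k0 + (2 ^ t - 2) * (T₀.card - k0) : ℕ) : ℝ) ≤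
        (((2 ^ t - 1) * N : ℕ) : ℝ) := by exact_mod_cast hcount
    push_cast [Nat.cast_sub h1, Nat.cast_sub hX2N, Nat.cast_sub hk0T] at h2
    exact h2
  have hXt : s * d' ≤ (X - 2) * (ε / 2) := by
    have h1 : s * d' / (ε / 2) ≤ X - 2 := by linarith
    rwa [div_le_iff₀ (by linarith)] at h1
  unfold _root_.FF.phi
  rcases le_total T₀.card u with hle | hle
  · -- all points split
    have h1 : k0 = T₀.card := min_eq_left hle
    rw [h1, sub_self, mul_zero, add_zero] at hcR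
    have h2 : 2 * (T₀.card : ℝ) ≤ N := by
      have h3 : (X - 1) * (2 * (T₀.card : ℝ)) ≤ (X - 1) * N := by linarith
      exact le_of_mul_le_mul_left h3 (by linarith)
    have h4 := min_le_right (s * d' * M + ((G : ℝ) - 2 * d' * M) * lam - M) (2 * s * d' * M)
    have h5 : 2 * s * d' * M = 2 * (T₀.card : ℝ) := by rw [hτR]; ring
    linarith
  · have h1 : k0 = u := min_eq_right hle
    rw [h1] at hcR
    have hτ0 : 0 ≤ (T₀.card : ℝ) := Nat.cast_nonneg _
    have hu0 : (0 : ℝ) ≤ u := Nat.cast_nonneg _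
    -- `(X - 1) N ≥ (X - 1) (u + τ) - τ`
    have h2 : (X - 1) * (u + T₀.card - (ε / 2) * M) ≤ (X - 1) * N := by
      refine le_trans ?_ hcR
      have h3 : (T₀.card : ℝ) ≤ (X - 1) * (ε / 2 * M) := by
        rw [hτR]
        calc s * d' * M ≤ (X - 2) * (ε / 2) * M := mul_le_mul_of_nonneg_right hXt hM0.le
          _ ≤ (X - 1) * (ε / 2 * M) := by nlinarith
      nlinarith
    have h4 : (u : ℝ) + T₀.card - (ε / 2) * M ≤ N := le_of_mul_le_mul_left h2 (by linarith)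
    have h5 := min_le_left (s * d' * M + ((G : ℝ) - 2 * d' * M) * lam - M) (2 * s * d' * M)
    have h6 : ((G : ℝ) - 2 * d' * M) * lam - lam ≤ lam * r := by
      have h7 : (G : ℝ) - 2 * d' * M - 1 ≤ r := by linarith
      nlinarith
    rw [hτR] at h4
    linarith

/-- the same for a set of parameters -/
theorem covers {a : ℕ} (ha : 1 ≤ a) (hk : Nat.card k = (2 ^ a) ^ 2) (D : Set ℕ) (b : ℕ)
    (hD : ∀ d ∈ D, 1 ≤ d ∧ d ≤ b ∧ Tower k a d) (C : ℝ) :
    _root_.FF.Covers (EC k) (2 ^ a - 1) (2 * a) C D := by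
  classical
  intro ε hε
  have h1 : ∀ d : ℕ, ∃ j0 : ℕ, d ∈ D → ∀ j : ℕ, j0 ≤ j → ∀ G : ℕ,
      (1 + ε) * 2 ^ j ≤ ((G : ℝ) - 2 * d * 2 ^ j) * (2 * a) → (G : ℝ) ≤ C * 2 ^ j →
      EC k G (_root_.FF.phi (2 ^ a - 1) (2 * a) d (2 ^ j) G - ε * 2 ^ j) := by
    intro d
    by_cases h : d ∈ D
    · obtain ⟨h1, -, h3⟩ := hD d h
      obtain ⟨j0, hj0⟩ := covers_one ha h1 hk h3 C ε hε
      exact ⟨j0, fun _ j hj G => hj0 j hj d rfl G⟩
    · exact ⟨0, fun h' => absurd h' h⟩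
  choose j0 hj0 using h1
  refine ⟨(Finset.range (b + 1)).sup j0, fun j hj d hd G => ?_⟩
  have h2 : j0 d ≤ (Finset.range (b + 1)).sup j0 :=
    Finset.le_sup (Finset.mem_range.2 (by have := (hD d hd).2.1; omega))
  exact hj0 d hd j (h2.trans hj) G

end Pool.Agent.FF
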