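import Pool.Agent.FF.Genus
import Pool.Agent.FF.Rel

/-! The Artin–Schreier double cover of a curve: residue fields, constants, genus. -/

set_option autoImplicit false
set_option linter.unusedSectionVars false

namespace Pool.Agent.FF

theorem DV.card_Res_rel {F : Type*} [Field F] (v : DV F) :
    Nat.card v.Res = (v.grp 1).relIndex (v.grp 0) := rfl

section layers

variable {F : Type*} [Field F]

/-- Translation invariance. -/
theorem relIndex_AdG_add (n m : DV F → ℤ) :
    (AdG (n + m)).relIndex (AdG m) = (AdG n).relIndex (AdG 0) := by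
  choose t ht ht1 using fun v : DV F => v.exists_ord (m v)
  let φ : (DV F → F) →+ (DV F → F) := AddMonoidHom.mulLeft t
  have hφ : Function.Injective φ := by
    intro a b hab
    ext v
    exact mul_left_cancel₀ (ht v) (congrFun hab v)
  have key : ∀ n : DV F → ℤ, (AdG n).map φ = AdG (n + m) := by
    intro n
    ext r
    constructor
    · rintro ⟨s, hs, rfl⟩
      rw [mem_AdG]
      intro v
      have := (DV.G_ord (v := v) (t v)).mul (mem_AdG.1 hs v)
      rw [ht1] at this
      rw [Pi.add_apply, add_comm]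
      exact this
    · intro hr
      refine ⟨fun v => (t v)⁻¹ * r v, ?_, ?_⟩
      · rw [SetLike.mem_coe, mem_AdG]
        intro v
        have h1 : v.G (- m v) (t v)⁻¹ := DV.G_of_le (by rw [v.ord_inv (ht v), ht1])
        have := h1.mul (mem_AdG.1 hr v)
        refine this.mono ?_
        rw [Pi.add_apply]
        omega
      · ext v
        change t v * ((t v)⁻¹ * r v) = r v
        rw [mul_inv_cancel_left₀ (ht v)]
  have h0 := key 0
  rw [zero_add] at h0
  rw [← key n, ← h0, AddSubgroup.relIndex_map_map_of_injective _ _ hφ]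

open Classical in
theorem relIndex_AdG_single (v₀ : DV F) :
    (AdG (Pi.single v₀ (1 : ℤ))).relIndex (AdG (0 : DV F → ℤ)) = Nat.card v₀.Res := by
  let φ : (DV F → F) →+ F := Pi.evalAddMonoidHom (fun _ => F) v₀
  have h1 : AdG (Pi.single v₀ (1 : ℤ)) = (v₀.grp 1).comap φ ⊓ AdG (0 : DV F → ℤ) := by
    ext r
    rw [AddSubgroup.mem_inf, mem_AdG, mem_AdG, AddSubgroup.mem_comap]
    constructor
    · intro h
      refine ⟨?_, fun v => (h v).mono ?_⟩
      · have := h v₀
        rwa [Pi.single_eq_same] at this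
      · by_cases hv : v = v₀
        · subst hv; simp
        · simp [Pi.single_eq_of_ne hv]
    · rintro ⟨h, h'⟩ v
      by_cases hv : v = v₀
      · subst hv
        rw [Pi.single_eq_same]
        exact h
      · rw [Pi.single_eq_of_ne hv]
        exact h' v
  have h2 : (AdG (0 : DV F → ℤ)).map φ = v₀.grp 0 := by
    ext a
    constructor
    · rintro ⟨r, hr, rfl⟩
      exact hr v₀
    · intro ha
      refine ⟨Pi.single v₀ a, ?_, ?_⟩
      rotate_left
      · change (Pi.single v₀ a : DV F → F) v₀ = a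
        rw [Pi.single_eq_same]
      rw [SetLike.mem_coe, mem_AdG]
      intro v
      by_cases hv : v = v₀
      · subst hv
        rw [Pi.single_eq_same]
        exact ha
      · rw [Pi.single_eq_of_ne hv]
        exact DV.G_zero _
  rw [h1, AddSubgroup.inf_relIndex_right, AddSubgroup.relIndex_comap, h2, DV.card_Res_rel]

/-- The index of `A(-D)` in `A(0)`. -/
theorem relIndex_AdG (D : DV F →₀ ℕ) :
    (AdG (fun v => (D v : ℤ))).relIndex (AdG (0 : DV F → ℤ)) =
      D.prod fun v n => Nat.card v.Res ^ n := by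
  classical
  have hadd : ∀ D D' : DV F →₀ ℕ, (AdG (fun v => ((D + D') v : ℤ))).relIndex (AdG (0 : DV F → ℤ)) =
      (AdG (fun v => (D v : ℤ))).relIndex (AdG (0 : DV F → ℤ)) *
      (AdG (fun v => (D' v : ℤ))).relIndex (AdG (0 : DV F → ℤ)) := by
    intro D D'
    have h1 : (fun v => ((D + D') v : ℤ)) = (fun v => (D v : ℤ)) + fun v => (D' v : ℤ) := by
      ext v
      simp
    have h2 := relIndex_AdG_add (fun v => (D v : ℤ)) fun v => (D' v : ℤ)
    rw [← h2, h1]
    refine (AddSubgroup.relIndex_mul_relIndex _ _ _ (AdG_mono fun v => ?_)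
      (AdG_mono fun v => ?_)).symm
    · simp
    · simp
  have hz : (AdG (fun v => ((0 : DV F →₀ ℕ) v : ℤ))).relIndex (AdG (0 : DV F → ℤ)) = 1 := by
    have : (fun v => ((0 : DV F →₀ ℕ) v : ℤ)) = 0 := by ext v; simp
    rw [this, AddSubgroup.relIndex_self]
  have hs : ∀ (v : DV F) (n : ℕ), (AdG (fun w => ((Finsupp.single v n : DV F →₀ ℕ) w : ℤ))).relIndex
      (AdG (0 : DV F → ℤ)) = Nat.card v.Res ^ n := by
    intro v n
    induction n with
    | zero => rw [Finsupp.single_zero, hz, pow_zero]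
    | succ n ih =>
      rw [Finsupp.single_add, hadd, ih, pow_succ]
      congr 1
      have : (fun w => ((Finsupp.single v 1 : DV F →₀ ℕ) w : ℤ)) = Pi.single v (1 : ℤ) := by
        ext w
        by_cases hw : w = v
        · subst hw; simp
        · simp [Pi.single_eq_of_ne hw, Finsupp.single_eq_of_ne hw]
      rw [this, relIndex_AdG_single]
  induction D using Finsupp.induction_linear with
  | zero => rw [hz, Finsupp.prod_zero_index]
  | add D D' h h' =>
    rw [hadd, h, h', Finsupp.prod_add_index' (fun _ => pow_zero _) fun _ _ _ => pow_add _ _ _]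
  | single v n =>
    rw [hs]
    exact (Finsupp.prod_single_index (h := fun (v : DV F) (n : ℕ) => Nat.card v.Res ^ n)
      (pow_zero _)).symm

end layers

/-! ### Residue fields -/

section ext

variable {K K' : Type*} [Field K] [Field K'] [Algebra K K']

theorem DV.grp_anti {F : Type*} [Field F] (v : DV F) {m n : ℤ} (h : m ≤ n) : v.grp n ≤ v.grp m :=
  fun _ ha => DV.G.mono ha h

/-- Same residue field. -/
theorem card_Res_of_residue {w : DV K'} {v : DV K} (h : Over w v)
    (hr : ∀ x : K', w.G 0 x → ∃ c : K, v.G 0 c ∧ w.G 1 (x - algebraMap K K' c)) :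
    Nat.card w.Res = Nat.card v.Res := by
  let f : K →+ K' := (algebraMap K K').toAddMonoidHom
  have hcomap : (w.grp 1).comap f = v.grp 1 := by
    ext a
    exact h.G_one_iff a
  have hsup : (v.grp 0).map f ⊔ w.grp 1 = w.grp 0 := by
    apply le_antisymm
    · refine sup_le ?_ (w.grp_anti (by norm_num))
      rintro _ ⟨c, hc, rfl⟩
      exact (h.G_zero_iff c).2 hc
    · intro x hx
      obtain ⟨c, hc, hc'⟩ := hr x hx
      exact AddSubgroup.mem_sup.2 ⟨f c, ⟨c, hc, rfl⟩, _, hc', by
        change algebraMap K K' c + _ = _; ring⟩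
  rw [DV.card_Res_rel, DV.card_Res_rel, relIndex_comap_of_sup f hsup, hcomap]

variable [CharP K 2] {f : K} (S : AS K K' f) {v : DV K}

theorem ramDV_card_Res {e : ℕ} (he : 1 ≤ e) (hf : v.ord f = 1 - 2 * e) :
    Nat.card (S.ramDV he hf).Res = Nat.card v.Res := by
  refine card_Res_of_residue (S.ramDV_over he hf) fun x hx => ⟨S.a x, ?_⟩
  have h := S.ramDV_residue he hf hx
  have h2 := AS.two' K K'
  refine ⟨h.1, ?_⟩
  have h3 : x - algebraMap K K' (S.a x) = x + algebraMap K K' (S.a x) := by
    linear_combination (-(algebraMap K K' (S.a x))) * h2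
  rw [h3]
  exact h.2

theorem splitDV_card_Res (hf : v.G 1 f) : Nat.card (S.splitDV hf).Res = Nat.card v.Res := by
  refine card_Res_of_residue (S.splitDV_over hf) fun x hx => ?_
  obtain ⟨c, hc, hc'⟩ := S.splitDV_residue hf hx
  have h2 := AS.two' K K'
  refine ⟨c, hc, ?_⟩
  have h3 : x - algebraMap K K' c = x + algebraMap K K' c := by
    linear_combination (-(algebraMap K K' c)) * h2
  rw [h3]
  exact hc'

theorem inertDV_card_Res (hf : v.G 0 f) (hr : ∀ c : K, v.G 0 c → ¬ v.G 1 (c ^ 2 + c + f)) :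
    Nat.card (S.inertDV hf hr).Res = Nat.card v.Res ^ 2 := by
  let g : K × K →+ K' :=
    { toFun := fun p => algebraMap K K' p.1 + algebraMap K K' p.2 * S.y
      map_zero' := by simp
      map_add' := fun p q => by simp only [Prod.fst_add, Prod.snd_add, map_add]; ring }
  have hg : ∀ p : K × K, S.a (g p) = p.1 ∧ S.b (g p) = p.2 := fun p => S.ab_eq rfl
  have hcomap : ∀ n : ℤ, ((S.inertDV hf hr).grp n).comap g = (v.grp n).prod (v.grp n) := by
    intro n
    ext p
    rw [AddSubgroup.mem_comap, AddSubgroup.mem_prod]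
    change (S.inertDV hf hr).G n (g p) ↔ _
    rw [S.inertDV_G hf hr, (hg p).1, (hg p).2]
    rfl
  have hsup : ((v.grp 0).prod (v.grp 0)).map g ⊔ (S.inertDV hf hr).grp 1 = (S.inertDV hf hr).grp 0 := by
    apply le_antisymm
    · refine sup_le ?_ ((S.inertDV hf hr).grp_anti (by norm_num))
      rintro _ ⟨p, hp, rfl⟩
      change (S.inertDV hf hr).G 0 (g p)
      rw [S.inertDV_G hf hr, (hg p).1, (hg p).2]
      exact AddSubgroup.mem_prod.1 hp
    · intro x hx
      refine AddSubgroup.mem_sup.2 ⟨x, ⟨(S.a x, S.b x), ?_, ?_⟩, 0, AddSubgroup.zero_mem _, by simp⟩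
      · change (S.inertDV hf hr).G 0 x at hx
        rw [S.inertDV_G hf hr] at hx
        exact AddSubgroup.mem_prod.2 hx
      · exact (S.spec x).symm
  rw [DV.card_Res_rel, DV.card_Res_rel, relIndex_comap_of_sup g hsup, hcomap,
    relIndex_prod _ _ _ _ (v.grp_anti (by norm_num)) (v.grp_anti (by norm_num)), sq]

include S in
/-- The residue field of a place `w` over `v` has `|Res v|` or `|Res v| ^ 2` elements. -/
theorem AS.card_Res {c : K} {e : ℕ} (hd : LocData v f c e) {w : DV K'} (hw : Over w v) :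
    Nat.card w.Res = Nat.card v.Res ∨ Nat.card w.Res = Nat.card v.Res ^ 2 := by
  set T := S.shift c with hT
  rcases hd with ⟨he, ho⟩ | ⟨he, hi, hr⟩ | ⟨he, hs⟩
  · left
    rw [T.ramDV_unique he ho hw, ramDV_card_Res]
  · right
    rw [T.inertDV_unique hi hr hw, inertDV_card_Res]
  · left
    rcases T.splitDV_cases hs hw with rfl | rfl
    · rw [splitDV_card_Res]
    · rw [splitDV_card_Res]

end ext

/-! ### The double cover of a curve -/

section curve

theorem Cv.finite {k K : Type*} [Field k] [Field K] [Algebra k K] {g : ℕ} (C : Cv k K g) (v : DV K) :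
    Finite k ∧ 2 ≤ Nat.card k := by
  have h := (C.res v).1
  have h2 : 2 ≤ Nat.card k := by
    by_contra h3
    rw [DV.deg, Nat.log_of_left_le_one (by omega)] at h
    omega
  exact ⟨Nat.finite_of_card_ne_zero (by omega), h2⟩

theorem ord_const' {k K : Type*} [Field k] [Finite k] [Field K] [Algebra k K] (v : DV K) {c : k}
    (hc : c ≠ 0) : v.ord (algebraMap k K c) = 0 := by
  have hfin : IsOfFinOrder c := by
    obtain ⟨n, hn, h⟩ := (isOfFinOrder_iff_pow_eq_one.1 (isOfFinOrder_of_finite (Units.mk0 c hc)))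
    refine isOfFinOrder_iff_pow_eq_one.2 ⟨n, hn, ?_⟩
    have := congrArg Units.val h
    simpa using this
  obtain ⟨n, hn, h⟩ := isOfFinOrder_iff_pow_eq_one.1 hfin
  have h0 : algebraMap k K c ≠ 0 := by rwa [Ne, map_eq_zero]
  have h1 := v.ord_pow h0 n
  rw [← map_pow, h, map_one, v.ord_one] at h1
  rcases mul_eq_zero.1 h1.symm with h2 | h2
  · omega
  · exact h2

theorem Cv.prin_le {k K : Type*} [Field k] [Field K] [Algebra k K] {g : ℕ} (C : Cv k K g) :
    Prin K ≤ Adl K := by
  rintro r ⟨a, ha⟩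
  rw [mem_Ad]
  simpa only [ha] using C.poles a

theorem Bdd_zero (K : Type*) [Field K] : Bdd (0 : DV K → ℤ) = AdG (0 : DV K → ℤ) := by
  ext r
  change (∀ v : DV K, v.G (-0) (r v)) ↔ ∀ v : DV K, v.G 0 (r v)
  rw [neg_zero]

theorem hasGenus_iff {k K : Type*} [Field k] [Field K] [Algebra k K] {g : ℕ} :
    HasGenus k K g ↔ (AdG (0 : DV K → ℤ) ⊔ Prin K).relIndex (Adl K) = Nat.card k ^ g := by
  rw [← Bdd_zero]
  rfl

variable {k K K' : Type*} [Field k] [Field K] [Field K'] [Algebra k K] [Algebra k K'] [Algebra K K']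
  [IsScalarTower k K K'] [CharP K 2] {g : ℕ}

/-- **Genus of an Artin–Schreier double cover** with at least one ramified place. -/
theorem Cv.double (C : Cv k K g) {f : K} (S : AS K K' f) {D : DV K → ℕ} {c : DV K → K}
    (h : NF f D c) (hD : ∃ v, D v ≠ 0) :
    ∃ g' : ℕ, g' + 1 = 2 * g + ∑ᶠ v, D v * v.deg (Nat.card k) ∧ Cv k K' g' := by
  classical
  obtain ⟨v₀, hv₀⟩ := hD
  obtain ⟨hfin, hq⟩ := C.finite v₀
  obtain ⟨c', hc', -, -, hd⟩ := h.exists_loc
  have hf := C.poles f
  have hP := C.prin_le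
  set q := Nat.card k with hqdef
  -- no nonzero constant vanishes at the places of `D`
  have hzero : ∀ a : K, (∀ v : DV K, v.G (D v) a) → a = 0 := by
    intro a ha
    obtain ⟨x, rfl⟩ := C.const a fun v => (ha v).mono (Int.natCast_nonneg _)
    by_contra hx
    have hx0 : x ≠ 0 := by
      intro h0
      exact hx (by rw [h0, map_zero])
    have h1 := (ha v₀).le hx
    rw [ord_const' v₀ hx0] at h1
    exact hv₀ (by omega)
  have hcst : AdG (fun v => (D v : ℤ)) ⊓ Prin K = ⊥ := by
    rw [eq_bot_iff]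
    rintro r ⟨hr, a, ha⟩
    rw [AddSubgroup.mem_bot]
    have : a = 0 := hzero a fun v => by rw [← ha v]; exact mem_AdG.1 hr v
    ext v
    rw [ha v, this]
    rfl
  -- the number of constants
  have hk : Nat.card (AdG (0 : DV K → ℤ) ⊓ Prin K : AddSubgroup _) = q := by
    rw [hqdef]
    symm
    have hx0 : ∀ x : k, (fun _ : DV K => algebraMap k K x) ∈ AdG (0 : DV K → ℤ) := by
      intro x
      rw [mem_AdG]
      intro v
      by_cases hx : x = 0
      · rw [hx, map_zero]; exact DV.G_zero _
      · exact DV.G_of_le (ord_const' v hx).ge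
    refine Nat.card_congr (Equiv.ofBijective (fun x : k =>
      (⟨fun _ => algebraMap k K x, hx0 x, cst_mem _⟩ :
        (AdG (0 : DV K → ℤ) ⊓ Prin K : AddSubgroup (DV K → K)))) ⟨?_, ?_⟩)
    · intro x y hxy
      exact (algebraMap k K).injective (congrFun (congrArg Subtype.val hxy) v₀)
    · rintro ⟨r, hr, a, ha⟩
      obtain ⟨x, hx⟩ := C.const a fun v => by rw [← ha v]; exact mem_AdG.1 hr v
      refine ⟨x, Subtype.ext ?_⟩
      ext v
      change algebraMap k K x = r v
      rw [ha v, hx]
  -- the degree of `D`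
  set δ := ∑ᶠ v, D v * v.deg q with hδ
  have hdeg : (AdG (fun v => (D v : ℤ))).relIndex (AdG (0 : DV K → ℤ)) = q ^ δ := by
    have h1 := relIndex_AdG (Finsupp.ofSupportFinite D h.fin)
    have h2 : (fun v => ((Finsupp.ofSupportFinite D h.fin) v : ℤ)) = fun v => (D v : ℤ) := rfl
    rw [h2] at h1
    rw [h1, Finsupp.prod]
    have h3 : δ = ∑ v ∈ (Finsupp.ofSupportFinite D h.fin).support, D v * v.deg q := by
      refine finsum_eq_sum_of_support_subset _ fun v hv => ?_
      rw [Finset.mem_coe, Finsupp.mem_support_iff]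
      exact left_ne_zero_of_mul hv
    rw [h3, ← Finset.prod_pow_eq_pow_sum]
    refine Finset.prod_congr rfl fun v _ => ?_
    rw [(C.res v).2, ← pow_mul, mul_comm]
    rfl
  have hδ1 : 1 ≤ δ := by
    have hs : (Function.support fun v => D v * v.deg q).Finite :=
      h.fin.subset fun v hv => left_ne_zero_of_mul hv
    have h4 := single_le_finsum v₀ hs fun _ => Nat.zero_le _
    have h5 : 1 * 1 ≤ D v₀ * v₀.deg q :=
      Nat.mul_le_mul (Nat.one_le_iff_ne_zero.2 hv₀) (C.res v₀).1
    rw [hδ]
    exact h5.trans h4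
  have hg := hasGenus_iff.1 C.genus
  have h1 := index_eff (e := fun v => (D v : ℤ)) (fun v => Int.natCast_nonneg _) hcst hP
  rw [hk, hg, hdeg] at h1
  have h2 := S.index_double hd hf hc' hP hcst
  rw [hg] at h2
  refine ⟨2 * g + δ - 1, by omega, ?_⟩
  have h3 : (AdG (0 : DV K' → ℤ) ⊔ Prin K').relIndex (Adl K') = q ^ (2 * g + δ - 1) := by
    have h4 : (AdG (0 : DV K' → ℤ) ⊔ Prin K').relIndex (Adl K') * q = q ^ (2 * g + δ - 1) * q := by
      rw [h2, mul_assoc, h1, ← pow_succ, ← pow_add, ← pow_add]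
      congr 1
      omega
    exact Nat.eq_of_mul_eq_mul_right (by omega) h4
  refine ⟨?_, ?_, ?_, hasGenus_iff.2 h3⟩
  · intro a
    have := S.Cst_le hd hf hc' hP (cst_mem a)
    exact this
  · intro x hx
    have hx' : S.Psi c' ((fun _ => S.a x) + (fun _ => S.b x) * c', fun _ => S.b x) ∈
        AdG (0 : DV K' → ℤ) := by
      rw [mem_AdG]
      intro w
      rw [S.Psi_apply]
      change w.G 0 (algebraMap K K' (S.a x + S.b x * c' (S.res w)) +
        algebraMap K K' (S.b x) * (S.y + algebraMap K K' (c' (S.res w))))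
      rw [S.loc_eq (c' (S.res w)) (S.a x) (S.b x), ← S.spec x]
      exact hx w
    have h5 : ((fun _ => S.a x) + (fun _ => S.b x) * c', fun _ => S.b x) ∈
        (AdG (0 : DV K → ℤ)).prod (AdG fun v => (D v : ℤ)) := by
      rw [← S.comap_AdG hd]
      exact hx'
    have hb : S.b x = 0 := hzero _ fun v => mem_AdG.1 h5.2 v
    have ha : ∀ v : DV K, v.G 0 (S.a x) := by
      intro v
      have := mem_AdG.1 h5.1 v
      simpa [hb] using this
    obtain ⟨z, hz⟩ := C.const _ ha
    refine ⟨z, ?_⟩
    rw [S.spec x, hb, map_zero, zero_mul, add_zero, hz, ← IsScalarTower.algebraMap_apply]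
  · intro w
    have hw := S.card_Res (hd (S.res w)) (S.res_over w)
    have hr := C.res (S.res w)
    have key : ∀ m : ℕ, 1 ≤ m → Nat.card w.Res = q ^ m →
        1 ≤ w.deg q ∧ Nat.card w.Res = q ^ w.deg q := by
      intro m hm h6
      have h7 : w.deg q = m := by
        rw [DV.deg, h6, Nat.log_pow (by omega)]
      rw [h7]
      exact ⟨hm, h6⟩
    rcases hw with h6 | h6
    · exact key _ hr.1 (h6.trans hr.2)
    · refine key ((S.res w).deg q * 2) (Nat.mul_pos hr.1 two_pos) ?_
      rw [h6, hr.2, pow_mul]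

end curve

end Pool.Agent.FF
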