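import Pool.Agent.FF.Obst
import Pool.Agent.FF.Dbl
import Pool.Agent.FF.Bridge

/-!
# From Artin–Schreier data to curves

* `exists_AS` : the double extension exists, for `f` not of the form `d ^ 2 + d`.
* `IsFF.up` : it is a function field over the same field of constants.
* `hasCurve_many`, `hasCurve_all` : curves of genus exactly `2 g - 1 + deg Q` with many points.
-/

set_option autoImplicit false
set_option linter.unusedSectionVars false

open Polynomial

namespace Pool.Agent.FF

/-- The Artin–Schreier extension. -/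
theorem exists_AS {K : Type} [Field K] {f : K} (hf : ∀ d : K, d ^ 2 + d ≠ f) :
    ∃ (K' : Type) (_ : Field K') (_ : Algebra K K'), Nonempty (AS K K' f) := by
  set p : K[X] := X ^ 2 + X - C f with hp
  have hdeg : p.natDegree = 2 := by
    rw [hp]
    compute_degree!
  have hmon : p.Monic := by
    rw [hp]
    monicity!
  have hirr : Irreducible p := by
    rw [hmon.irreducible_iff_roots_eq_zero_of_degree_le_three (by rw [hdeg]) (by rw [hdeg]; norm_num)]
    rw [Multiset.eq_zero_iff_forall_notMem]
    intro d hd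
    have h1 := (mem_roots hmon.ne_zero).1 hd
    rw [IsRoot, hp, eval_sub, eval_add, eval_pow, eval_X, eval_C, sub_eq_zero] at h1
    exact hf d h1
  have : Fact (Irreducible p) := ⟨hirr⟩
  refine ⟨AdjoinRoot p, inferInstance, inferInstance, ⟨⟨AdjoinRoot.root p, ?_, ?_, hf⟩⟩⟩
  · have h1 := AdjoinRoot.eval₂_root p
    rw [hp, eval₂_sub, eval₂_add, eval₂_pow, eval₂_X, eval₂_C, sub_eq_zero] at h1
    exact h1
  · intro x
    obtain ⟨q, rfl⟩ := AdjoinRoot.mk_surjective x
    have h1 : AdjoinRoot.mk p q = AdjoinRoot.mk p (q %ₘ p) := by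
      conv_lhs => rw [← modByMonic_add_div q p]
      rw [map_add, map_mul, AdjoinRoot.mk_self, zero_mul, add_zero]
    have h2 : (q %ₘ p).natDegree ≤ 1 := by
      have := natDegree_modByMonic_lt q hmon (by
        intro h
        rw [h, natDegree_one] at hdeg
        omega)
      omega
    obtain ⟨a, b, hab⟩ := exists_eq_X_add_C_of_natDegree_le_one h2
    refine ⟨(b, a), ?_⟩
    rw [h1, hab, map_add, map_mul, AdjoinRoot.mk_X, add_comm]
    rfl

section up

variable {k K K' : Type*} [Field k] [Finite k] [Field K] [Field K'] [Algebra k K] [Algebra k K']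
  [Algebra K K'] [IsScalarTower k K K'] [CharP K 2]

/-- The double extension is again a function field over `k`. -/
theorem IsFF.up (h : IsFF k K) {g' : ℕ} (C' : Cv k K' g') {f : K} (S : AS K K' f) : IsFF k K' := by
  obtain ⟨w, hw, hfin⟩ := h.fin
  refine ⟨⟨algebraMap K K' w, ?_, ?_⟩, ?_⟩
  · rwa [transcendental_algebraMap_iff (algebraMap K K').injective]
  · -- `K'` is finite over `K`
    classical
    have hK : Module.Finite K K' := by
      refine ⟨⟨({1, S.y} : Finset K'), ?_⟩⟩
      rw [eq_top_iff]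
      intro x _
      rw [S.spec x, Finset.coe_insert, Finset.coe_singleton]
      have e : algebraMap K K' (S.a x) + algebraMap K K' (S.b x) * S.y =
          S.a x • (1 : K') + S.b x • S.y := by
        rw [Algebra.smul_def, Algebra.smul_def, mul_one]
      rw [e]
      exact Submodule.add_mem _ (Submodule.smul_mem _ _ (Submodule.subset_span (by simp)))
        (Submodule.smul_mem _ _ (Submodule.subset_span (by simp)))
    set L₀ := IntermediateField.adjoin k {w} with hL₀
    set L := IntermediateField.adjoin k {algebraMap K K' w} with hL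
    have hmap : L₀.map (IsScalarTower.toAlgHom k K K') = L := by
      rw [hL₀, IntermediateField.adjoin_map, Set.image_singleton]
      rfl
    have hmem : ∀ x : L₀, algebraMap K K' (x : K) ∈ L := by
      intro x
      rw [← hmap]
      exact ⟨x, x.2, rfl⟩
    let _ : Algebra L₀ L := RingHom.toAlgebra
      { toFun := fun x => ⟨algebraMap K K' (x : K), hmem x⟩
        map_one' := by
          apply Subtype.ext
          simp
        map_mul' := fun x y => by
          apply Subtype.ext
          simp
        map_zero' := by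
          apply Subtype.ext
          simp
        map_add' := fun x y => by
          apply Subtype.ext
          simp }
    have t1 : IsScalarTower L₀ K K' := inferInstance
    have t2 : IsScalarTower L₀ L K' := by
      refine ⟨fun x y z => ?_⟩
      have e1 : x • y = (⟨algebraMap K K' (x : K), hmem x⟩ : L) * y := rfl
      have e2 : x • (y • z) = (x : K) • (y • z) := rfl
      rw [e1, e2, Algebra.smul_def, Algebra.smul_def, Algebra.smul_def, map_mul, mul_assoc]
      rfl
    have h1 : Module.Finite L₀ K := hfin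
    have h2 : Module.Finite L₀ K' := Module.Finite.trans K K'
    exact Module.Finite.of_restrictScalars_finite L₀ L K'
  · intro a ha
    refine C'.const a fun v => ?_
    by_cases ha0 : a = 0
    · exact Or.inl ha0
    have hint : IsIntegral k a := ha.isIntegral
    have hfd : FiniteDimensional k (IntermediateField.adjoin k {a}) :=
      IntermediateField.adjoin.finiteDimensional hint
    have hfi : Finite (IntermediateField.adjoin k {a}) := Module.finite_of_finite k
    set α : IntermediateField.adjoin k {a} := IntermediateField.AdjoinSimple.gen k a with hα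
    have hα0 : α ≠ 0 := by
      intro h0
      apply ha0
      have := congrArg (Subtype.val) h0
      simpa [hα] using this
    obtain ⟨n, hn, hpow⟩ := (isOfFinOrder_iff_pow_eq_one.1 (isOfFinOrder_of_finite (Units.mk0 α hα0)))
    have h1 : a ^ n = 1 := by
      have h2 := congrArg Units.val hpow
      have h3 : α ^ n = 1 := by simpa using h2
      have h4 := congrArg (Subtype.val) h3
      simpa [hα] using h4
    have h5 := v.ord_pow ha0 n
    rw [h1, v.ord_one] at h5
    refine DV.G_of_le ?_
    rcases mul_eq_zero.1 h5.symm with h6 | h6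
    · omega
    · exact h6.ge

end up

section curves

variable {k : Type} [Field k] [Finite k] {K : Type} [Field K] [Algebra k K] [CharP K 2]

/-- A double cover ramified exactly at `Q`, with its split rational places. -/
theorem hasCurve_of_cover {g : ℕ} (hF : IsFF k K) (C : Cv k K g) {Q : DV K} {f : K} {D : DV K → ℕ}
    {c : DV K → K} (hD : D Q = 1) (hD' : ∀ v, v ≠ Q → D v = 0) (hN : NF f D c)
    (hirr : ∀ d : K, d ^ 2 + d ≠ f) (T : Finset (DV K))
    (hT : ∀ P ∈ T, P.Rat k ∧ ∃ d : K, P.G 1 (f + (d ^ 2 + d))) {N : ℕ} (hNT : N ≤ 2 * T.card) :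
    HasCurve k (2 * g + Q.deg (Nat.card k) - 1) N := by
  classical
  obtain ⟨K', i1, i2, ⟨S⟩⟩ := exists_AS hirr
  let _ : Algebra k K' := ((algebraMap K K').comp (algebraMap k K)).toAlgebra
  have t1 : IsScalarTower k K K' := IsScalarTower.of_algebraMap_eq' rfl
  obtain ⟨g', hg', C'⟩ := C.double S hN ⟨Q, by rw [hD]; exact one_ne_zero⟩
  have hsum : ∑ᶠ v, D v * v.deg (Nat.card k) = Q.deg (Nat.card k) := by
    rw [finsum_eq_single _ Q (fun v hv => by rw [hD' v hv, zero_mul]), hD, one_mul]
  rw [hsum] at hg'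
  have hg : 2 * g + Q.deg (Nat.card k) - 1 = g' := by omega
  rw [hg]
  choose hrat d hd using hT
  have hex : ∀ P : T, ∃ w₁ w₂ : DV K', w₁ ≠ w₂ ∧ Over w₁ (P : DV K) ∧ Over w₂ (P : DV K) ∧
      w₁.Rat k ∧ w₂.Rat k := by
    intro P
    obtain ⟨w₁, w₂, h1, h2, h3, -, h5, h6, -⟩ := S.split_places_rat (hrat P P.2) (hd P P.2)
    exact ⟨w₁, w₂, h1, h2, h3, h5, h6⟩
  choose w₁ w₂ hne ho₁ ho₂ hr₁ hr₂ using hex
  set ψ : T × Bool → DV K' := fun x => if x.2 then w₁ x.1 else w₂ x.1 with hψ
  have hψo : ∀ x : T × Bool, Over (ψ x) (x.1 : DV K) := by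
    rintro ⟨P, b⟩
    cases b
    · exact ho₂ P
    · exact ho₁ P
  have hinj : Function.Injective ψ := by
    intro x y hxy
    have h1 : (x.1 : DV K) = y.1 := (hψo x).unique (hxy ▸ hψo y)
    obtain ⟨P, b⟩ := x
    obtain ⟨P', b'⟩ := y
    have h2 : P = P' := Subtype.ext h1
    subst h2
    cases b <;> cases b'
    · rfl
    · exact absurd hxy.symm (hne P)
    · exact absurd hxy (hne P)
    · rfl
  have hratψ : ∀ x, (ψ x).Rat k := by
    rintro ⟨P, b⟩
    cases b
    · exact hr₂ P
    · exact hr₁ P
  have hcard : Fintype.card (T × Bool) = 2 * T.card := by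
    rw [Fintype.card_prod, Fintype.card_coe, Fintype.card_bool, mul_comm]
  let e : Fin (2 * T.card) ≃ T × Bool := (finCongr hcard.symm).trans (Fintype.equivFin (T × Bool)).symm
  refine ⟨K', i1, inferInstance, hF.up C' S, C'.genus, fun i => ψ (e (Fin.castLE hNT i)), ?_,
    fun i => hratψ _⟩
  intro i j hij
  exact Fin.castLE_injective hNT (e.injective (hinj hij))

/-- **Curves of genus `2 g - 1 + deg Q` with many points.** -/
theorem hasCurve_many {g n : ℕ} (hF : IsFF k K) (C : Cv k K g) (hob : Ob K n) (Q : DV K)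
    (T : Finset (DV K)) (hQT : Q ∉ T) (hT : ∀ P ∈ T, P.Rat k) (s t : ℕ) (ht : 1 ≤ t)
    (hs : s ≤ T.card) (hbig : n + s + t ≤ Nat.log 2 (Nat.card k) * Q.deg (Nat.card k)) :
    ∃ N : ℕ, HasCurve k (2 * g + Q.deg (Nat.card k) - 1) N ∧
      2 * (2 ^ t - 1) * s + (2 ^ t - 2) * (T.card - s) ≤ (2 ^ t - 1) * N := by
  have hres : ∀ v : DV K, Finite v.Res := fun v => Nat.finite_of_card_ne_zero (by
    rw [(C.res v).2]
    exact pow_ne_zero _ Nat.card_pos.ne')
  have hbig' : 2 ^ (n + s + t) ≤ Nat.card Q.Res := by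
    rw [(C.res Q).2]
    calc 2 ^ (n + s + t) ≤ 2 ^ (Nat.log 2 (Nat.card k) * Q.deg (Nat.card k)) :=
          Nat.pow_le_pow_right (by norm_num) hbig
      _ = (2 ^ Nat.log 2 (Nat.card k)) ^ Q.deg (Nat.card k) := pow_mul _ _ _
      _ ≤ _ := Nat.pow_le_pow_left (Nat.pow_log_le_self 2 Nat.card_pos.ne') _
  obtain ⟨f, D, c, hD, hD', hN, hirr, T', hT', hsp, hcount⟩ :=
    exists_cover hob hres Q T hQT s t ht hs hbig'
  refine ⟨2 * T'.card, hasCurve_of_cover hF C hD hD' hN hirr T'
    (fun P hP => ⟨hT P (hT' hP), hsp P hP⟩) le_rfl, ?_⟩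
  calc _ ≤ 2 * (2 ^ t - 1) * T'.card := hcount
    _ = _ := by ring

/-- **Curves of genus `2 g - 1 + deg Q` in which all given points split.** -/
theorem hasCurve_all {g n : ℕ} (hF : IsFF k K) (C : Cv k K g) (hob : Ob K n) (Q : DV K)
    (T : Finset (DV K)) (hQT : Q ∉ T) (hT : ∀ P ∈ T, P.Rat k)
    (hbig : n + T.card < Nat.log 2 (Nat.card k) * Q.deg (Nat.card k)) :
    HasCurve k (2 * g + Q.deg (Nat.card k) - 1) (2 * T.card) := by
  have hres : ∀ v : DV K, Finite v.Res := fun v => Nat.finite_of_card_ne_zero (by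
    rw [(C.res v).2]
    exact pow_ne_zero _ Nat.card_pos.ne')
  have hbig' : 2 ^ (n + T.card) < Nat.card Q.Res := by
    rw [(C.res Q).2]
    calc 2 ^ (n + T.card) < 2 ^ (Nat.log 2 (Nat.card k) * Q.deg (Nat.card k)) :=
          Nat.pow_lt_pow_right (by norm_num) hbig
      _ = (2 ^ Nat.log 2 (Nat.card k)) ^ Q.deg (Nat.card k) := pow_mul _ _ _
      _ ≤ _ := Nat.pow_le_pow_left (Nat.pow_log_le_self 2 Nat.card_pos.ne') _
  obtain ⟨f, D, c, hD, hD', hN, hirr, hsp⟩ := exists_cover_all hob hres Q T hQT hbig'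
  exact hasCurve_of_cover hF C hD hD' hN hirr T (fun P hP => ⟨hT P hP, hsp P hP⟩) le_rfl

end curves

end Pool.Agent.FF
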