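import Pool.Agent.FF.SelBlk
import Pool.Agent.FF.Cover

/-!
# Covers with more split points
-/

set_option autoImplicit false
set_option linter.unusedSectionVars false

namespace Pool.Agent.FF

section cover

variable {K : Type} [Field K] [CharP K 2]

/-- **Double covers ramified exactly at `Q` with many split points.** -/
theorem exists_cover_blk {n : ℕ} (hob : Ob K n) (hres : ∀ v : DV K, Finite v.Res) (Q : DV K)
    (T : Finset (DV K)) (hQT : Q ∉ T) {s N κ v : ℕ} (hblk : BlkN N κ v) (hs : s + N ≤ T.card)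
    (hbig : 2 ^ (n + s + κ) ≤ Nat.card Q.Res) :
    ∃ (f : K) (D : DV K → ℕ) (c : DV K → K), D Q = 1 ∧ (∀ v, v ≠ Q → D v = 0) ∧ NF f D c ∧
      (∀ d : K, d ^ 2 + d ≠ f) ∧ ∃ T' : Finset (DV K), T' ⊆ T ∧
      (∀ P ∈ T', ∃ d : K, P.G 1 (f + (d ^ 2 + d))) ∧
      T.card ≤ T'.card + ((T.card - (s + N)) + v) := by
  classical
  obtain ⟨τ, hτ0, hτ⟩ := Q.exists_ord (-1)
  choose φ hφ using fun P : T => exists_cls (P : DV K) (hres P)
  have hPQ : ∀ P : T, (P : DV K) ≠ Q := fun P h => hQT (h ▸ P.2)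
  have h1 := card_Res_le hob (DV.G_of_le hτ.ge) (hres Q) hPQ φ
  have hres' : Finite Q.Res := hres Q
  have h4 : Nat.card T = T.card := by rw [Nat.card_eq_fintype_card, Fintype.card_coe]
  have htwo : ∀ x : Q.Res, x + x = 0 := by
    intro x
    obtain ⟨y, rfl⟩ := QuotientAddGroup.mk_surjective x
    rw [← QuotientAddGroup.mk_add]
    have : y + y = 0 := Subtype.ext (CharTwo.add_self_eq_zero _)
    rw [this]
    rfl
  obtain ⟨w, hw, hw1, hw2⟩ := exists_select_blk htwo (Dat Q τ (fun P : T => (P : DV K)) φ) n s N κ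
    v hblk (by rw [h4]; exact hs) h1 hbig
  obtain ⟨f, D, c, hD, hD', hN, hirr, hsp⟩ := Dat.exists_NF hτ0 hτ (fun P x => (hφ P x).1) hw hw1
  refine ⟨f, D, c, hD, hD', hN, hirr, T.filter (fun P => ∃ d : K, P.G 1 (f + (d ^ 2 + d))),
    Finset.filter_subset _ _, fun P hP => (Finset.mem_filter.1 hP).2, ?_⟩
  have h3 : Nat.card {i : T // w.2 i = 0} ≤
      (T.filter (fun P => ∃ d : K, P.G 1 (f + (d ^ 2 + d)))).card := by
    rw [← Fintype.card_coe, ← Nat.card_eq_fintype_card]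
    refine Nat.card_le_card_of_injective
      (fun i => (⟨(i.1 : DV K), Finset.mem_filter.2 ⟨i.1.2, hsp i.1 i.2⟩⟩ :
        {P // P ∈ T.filter (fun P => ∃ d : K, P.G 1 (f + (d ^ 2 + d)))})) ?_
    intro i j hij
    apply Subtype.ext
    apply Subtype.ext
    simpa using hij
  have h5 : Nat.card {i : T // w.2 i = 0} + Nat.card {i : T // w.2 i ≠ 0} = T.card := by
    have h6 := Nat.card_congr (Equiv.sumCompl (fun i : T => w.2 i = 0))
    rw [Nat.card_sum, h4] at h6
    exact h6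
  rw [h4] at hw2
  omega

end cover

section curves

variable {k : Type} [Field k] [Finite k] {K : Type} [Field K] [Algebra k K] [CharP K 2]

/-- **Curves of genus `2 g - 1 + deg Q` with many points.** -/
theorem hasCurve_blk {g n : ℕ} (hF : IsFF k K) (C : Cv k K g) (hob : Ob K n) (Q : DV K)
    (T : Finset (DV K)) (hQT : Q ∉ T) (hT : ∀ P ∈ T, P.Rat k) {s N κ v : ℕ} (hblk : BlkN N κ v)
    (hs : s + N ≤ T.card)
    (hbig : n + s + κ ≤ Nat.log 2 (Nat.card k) * Q.deg (Nat.card k)) :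
    ∃ N' : ℕ, HasCurve k (2 * g + Q.deg (Nat.card k) - 1) N' ∧
      2 * T.card ≤ N' + 2 * ((T.card - (s + N)) + v) := by
  have hres : ∀ v : DV K, Finite v.Res := fun v => Nat.finite_of_card_ne_zero (by
    rw [(C.res v).2]
    exact pow_ne_zero _ Nat.card_pos.ne')
  have hbig' : 2 ^ (n + s + κ) ≤ Nat.card Q.Res := by
    rw [(C.res Q).2]
    calc 2 ^ (n + s + κ) ≤ 2 ^ (Nat.log 2 (Nat.card k) * Q.deg (Nat.card k)) :=
          Nat.pow_le_pow_right (by norm_num) hbig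
      _ = (2 ^ Nat.log 2 (Nat.card k)) ^ Q.deg (Nat.card k) := pow_mul _ _ _
      _ ≤ _ := Nat.pow_le_pow_left (Nat.pow_log_le_self 2 Nat.card_pos.ne') _
  obtain ⟨f, D, c, hD, hD', hN, hirr, T', hT', hsp, hcount⟩ :=
    exists_cover_blk hob hres Q T hQT hblk hs hbig'
  refine ⟨2 * T'.card, hasCurve_of_cover hF C hD hD' hN hirr T'
    (fun P hP => ⟨hT P (hT' hP), hsp P hP⟩) le_rfl, ?_⟩
  omega

end curves

end Pool.Agent.FF
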