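import Pool.Agent.FF.FinalN

/-!
# The arithmetic of the final step, covers from the Elias - Bassalygo bound

The families are indexed by `((h, κ, ν), (R, β))`: genus `h 2 ^ j`, obstruction `κ 2 ^ j`,
`ν 2 ^ j` rational points; if at least `R ν 2 ^ j` bits are free then each missing bit costs at most
`β` points.  The pair `(0, 1)` is the Plotkin bound.
-/

namespace FF

/-- The number of points of the double covers of genus `x` of the curve `(h, κ)` at `m`, when each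
missing bit costs `β` points. -/
noncomputable def phiE (lam : ℝ) (p : ℝ × ℝ × ℝ) (β m x : ℝ) : ℝ :=
  min (2 * p.2.2 * m - β * (p.2.2 * m - ((x - 2 * p.1 * m) * lam - p.2.1 * m))) (2 * p.2.2 * m)

theorem phiE_mul (lam : ℝ) (p : ℝ × ℝ × ℝ) (β m x t : ℝ) (ht : 0 ≤ t) :
    phiE lam p β (m * t) (x * t) = phiE lam p β m x * t := by
  unfold phiE
  rw [min_mul_of_nonneg _ _ ht]
  congr 1 <;> ring

theorem phiE_one (lam : ℝ) (p : ℝ × ℝ × ℝ) (m x : ℝ) : phiE lam p 1 m x = phiN lam p m x := by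
  unfold phiN phiE
  congr 1
  ring

/-- The hypothesis on the double covers of the curves of the families `p ∈ D`. -/
def CoversE (E : ℕ → ℝ → Prop) (lam C : ℝ) (D : Set ((ℝ × ℝ × ℝ) × (ℝ × ℝ))) : Prop :=
  ∀ ε : ℝ, 0 < ε → ∃ j0 : ℕ, ∀ j : ℕ, j0 ≤ j → ∀ p ∈ D, ∀ G : ℕ,
    (p.1.2.1 + p.2.1 * p.1.2.2 + ε) * 2 ^ j ≤ ((G : ℝ) - 2 * p.1.1 * 2 ^ j) * lam →
    (G : ℝ) ≤ C * 2 ^ j →
    E G (phiE lam p.1 p.2.2 (2 ^ j) G - ε * 2 ^ j)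

theorem CoversE.mono_set {E : ℕ → ℝ → Prop} {lam C : ℝ} {D D' : Set ((ℝ × ℝ × ℝ) × (ℝ × ℝ))}
    (h : CoversE E lam C D) (hD : D' ⊆ D) : CoversE E lam C D' := by
  intro ε hε
  obtain ⟨j0, hj0⟩ := h ε hε
  exact ⟨j0, fun j hj p hp => hj0 j hj p (hD hp)⟩

theorem CoversE.union {E : ℕ → ℝ → Prop} {lam C : ℝ} {D D' : Set ((ℝ × ℝ × ℝ) × (ℝ × ℝ))}
    (h : CoversE E lam C D) (h' : CoversE E lam C D') : CoversE E lam C (D ∪ D') := by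
  intro ε hε
  obtain ⟨j0, hj0⟩ := h ε hε
  obtain ⟨j1, hj1⟩ := h' ε hε
  refine ⟨max j0 j1, fun j hj p hp => ?_⟩
  rcases hp with hp | hp
  · exact hj0 j ((le_max_left _ _).trans hj) p hp
  · exact hj1 j ((le_max_right _ _).trans hj) p hp

theorem coversE_empty {E : ℕ → ℝ → Prop} {lam C : ℝ} : CoversE E lam C ∅ :=
  fun _ _ => ⟨0, fun _ _ _ hp => absurd hp (Set.notMem_empty _)⟩

/-- The Plotkin bound as a special case. -/
theorem CoversN.toE {E : ℕ → ℝ → Prop} {lam C : ℝ} {p : ℝ × ℝ × ℝ}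
    (h : CoversN E lam C {p}) : CoversE E lam C {(p, (0, 1))} := by
  intro ε hε
  obtain ⟨j0, hj0⟩ := h ε hε
  refine ⟨j0, fun j hj p' hp' G h1 h2 => ?_⟩
  rw [Set.mem_singleton_iff] at hp'
  subst hp'
  simp only at h1 ⊢
  rw [zero_mul, add_zero] at h1
  rw [phiE_one]
  exact hj0 j hj p (Set.mem_singleton _) G h1 h2

/-- **The arithmetic of the final step.** -/
theorem final_generalE (E : ℕ → ℝ → Prop) (mono : ∀ G x y, y ≤ x → E G x → E G y)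
    (lam c a δ C : ℝ) (hlam : 0 < lam) (ha : 0 < a) (hδ : 0 < δ)
    (D : Set ((ℝ × ℝ × ℝ) × (ℝ × ℝ)))
    (hD : ∀ p ∈ D, 0 ≤ p.1.1 ∧ 0 ≤ p.1.2.1 + p.2.1 * p.1.2.2)
    (cover : ∀ x : ℝ, a ≤ x → x ≤ 2 * a → ∃ p ∈ D, ∃ e : ℕ,
      (p.1.2.1 + p.2.1 * p.1.2.2 + δ) * 2 ^ e ≤ (x - 2 * p.1.1 * 2 ^ e) * lam ∧ x ≤ C * 2 ^ e ∧
      c * x ≤ phiE lam p.1 p.2.2 (2 ^ e) x)
    (H : CoversE E lam C D) :
    ∀ ε : ℝ, 0 < ε → ∃ G0 : ℕ, ∀ G : ℕ, G0 ≤ G → E G ((c - ε) * G) := by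
  intro ε hε
  -- `2 ^ e ≤ x lam / δ`
  set ε' : ℝ := min (ε * δ / lam) δ with hε'
  have hε'0 : 0 < ε' := lt_min (by positivity) hδ
  obtain ⟨j0, hj0⟩ := H ε' hε'0
  obtain ⟨G0, hG0⟩ := exists_scale ha j0
  refine ⟨G0, fun G hG => ?_⟩
  obtain ⟨i, hi, h1, h2⟩ := hG0 G hG
  have hpos : (0 : ℝ) < 2 ^ i := by positivity
  set x : ℝ := (G : ℝ) / 2 ^ i with hx
  have hxG : (G : ℝ) = x * 2 ^ i := by rw [hx]; field_simp
  have hx1 : a ≤ x := by rw [hx, le_div_iff₀ hpos]; exact h1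
  have hx2 : x ≤ 2 * a := by rw [hx, div_le_iff₀ hpos]; exact h2
  obtain ⟨p, hp, e, he1, he2, he3⟩ := cover x hx1 hx2
  obtain ⟨hp1, hp2⟩ := hD p hp
  set κ : ℝ := p.1.2.1 + p.2.1 * p.1.2.2 with hκ
  have hpow : (2 : ℝ) ^ (e + i) = 2 ^ e * 2 ^ i := pow_add _ _ _
  have k1 : (κ + ε') * 2 ^ (e + i) ≤ ((G : ℝ) - 2 * p.1.1 * 2 ^ (e + i)) * lam := by
    rw [hpow, hxG]
    have h4 : (κ + ε') * 2 ^ e ≤ (κ + δ) * 2 ^ e :=
      mul_le_mul_of_nonneg_right (by linarith [min_le_right (ε * δ / lam) δ]) (by positivity)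
    have := mul_le_mul_of_nonneg_right (h4.trans he1) hpos.le
    calc (κ + ε') * (2 ^ e * 2 ^ i) = (κ + ε') * 2 ^ e * 2 ^ i := by ring
      _ ≤ (x - 2 * p.1.1 * 2 ^ e) * lam * 2 ^ i := this
      _ = _ := by ring
  have k2 : (G : ℝ) ≤ C * 2 ^ (e + i) := by
    rw [hpow, hxG]
    have := mul_le_mul_of_nonneg_right he2 hpos.le
    calc x * 2 ^ i ≤ C * 2 ^ e * 2 ^ i := this
      _ = _ := by ring
  have k3 := hj0 (e + i) (by omega) p hp G k1 k2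
  apply mono G _ _ _ k3
  have k4 : phiE lam p.1 p.2.2 (2 ^ (e + i)) G = phiE lam p.1 p.2.2 (2 ^ e) x * 2 ^ i := by
    rw [hpow, hxG, phiE_mul _ _ _ _ _ _ hpos.le]
  rw [k4, hpow]
  have k5 : δ * (2 : ℝ) ^ e ≤ x * lam := by
    have h3 : (0 : ℝ) < 2 ^ e := by positivity
    have h4 : 0 ≤ κ * 2 ^ e := mul_nonneg hp2 h3.le
    have h5 : 0 ≤ 2 * p.1.1 * 2 ^ e * lam := by positivity
    nlinarith [he1]
  have k6 : ε' * (2 ^ e * 2 ^ i) ≤ ε * x * 2 ^ i := by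
    have h6 : ε' * (2 ^ e * 2 ^ i) ≤ ε * δ / lam * (2 ^ e * 2 ^ i) :=
      mul_le_mul_of_nonneg_right (min_le_left _ _) (by positivity)
    have h3 : ε * δ / lam * (2 ^ e * 2 ^ i) = (ε / lam * 2 ^ i) * (δ * 2 ^ e) := by ring
    have h4 : ε * x * 2 ^ i = (ε / lam * 2 ^ i) * (x * lam) := by field_simp
    refine h6.trans ?_
    rw [h3, h4]
    exact mul_le_mul_of_nonneg_left k5 (by positivity)
  have k7 := mul_le_mul_of_nonneg_right he3 hpos.le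
  calc (c - ε) * (G : ℝ) = c * x * 2 ^ i - ε * x * 2 ^ i := by rw [hxG]; ring
    _ ≤ phiE lam p.1 p.2.2 (2 ^ e) x * 2 ^ i - ε' * (2 ^ e * 2 ^ i) := by linarith

end FF
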