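import Pool.Agent.FF.Assem
import Pool.Agent.FF.FinalN

/-!
# From a tower to curves of every large genus, real parameters
-/

set_option autoImplicit false

namespace Pool.Agent.FF

open Filter

/-- The fields of a tower with parameters `h`, `κ`, `ν` over the finite field `k`: at the
`j`-th step the genus is at most `b + h 2 ^ j`, the obstruction group has at most `2 ^ n` elements,
`n ≤ b + κ 2 ^ j`, there are at least `ν 2 ^ j - b` rational places, and places of every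
degree `≥ A (j + 1)`. -/
def TowerN (k : Type) [Field k] (p : ℝ × ℝ × ℝ) : Prop :=
  ∃ (A : ℕ) (b : ℝ), ∀ j : ℕ, ∃ (K : Type) (_ : Field K) (_ : Algebra k K) (_ : CharP K 2)
    (g n : ℕ) (T : Finset (DV K)), IsFF k K ∧ Cv k K g ∧ (g : ℝ) ≤ b + p.1 * 2 ^ j ∧ Ob K n ∧
      (n : ℝ) ≤ b + p.2.1 * 2 ^ j ∧ (∀ P ∈ T, P.Rat k) ∧
      p.2.2 * 2 ^ j - b ≤ T.card ∧
      ∀ r : ℕ, A * (j + 1) ≤ r → ∃ Q : DV K, Q.deg (Nat.card k) = r

variable {k : Type} [Field k] [Finite k]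

omit [Finite k] in
/-- The integer tower. -/
theorem Tower.toN {a d : ℕ} (H : Tower k a d) : TowerN k (d, 1, (2 ^ a - 1) * d) := by
  obtain ⟨A, hA⟩ := H
  refine ⟨A, 1, fun j => ?_⟩
  obtain ⟨K, iF, iA, iC, g, n, T, h1, h2, h3, h4, h5, h6, h7, h8⟩ := hA j
  refine ⟨K, iF, iA, iC, g, n, T, h1, h2, ?_, h4, ?_, h6, ?_, h8⟩
  · have : (g : ℝ) ≤ ((1 + d * 2 ^ j : ℕ) : ℝ) := by exact_mod_cast h3
    push_cast at this
    simpa using this
  · have : (n : ℝ) ≤ ((1 + 2 ^ j : ℕ) : ℝ) := by exact_mod_cast h5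
    push_cast at this
    simpa using this
  · have h9 : ((d * (2 ^ a - 1) * 2 ^ j : ℕ) : ℝ) ≤ T.card := by exact_mod_cast h7
    have h10 : 1 ≤ 2 ^ a := Nat.one_le_two_pow
    push_cast [Nat.cast_sub h10] at h9
    simp only
    linarith

/-- **The curves of the families for one triple of parameters.** -/
theorem coversN_one {e : ℕ} {p : ℝ × ℝ × ℝ} (he : 1 ≤ e) (hp1 : 0 ≤ p.1) (hp2 : 0 ≤ p.2.1)
    (hp3 : 0 ≤ p.2.2) (hk : Nat.card k = 2 ^ e)
    (H : TowerN k p) (C : ℝ) : _root_.FF.CoversN (EC k) e C {p} := by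
  classical
  obtain ⟨A, b, HA⟩ := H
  intro ε hε
  obtain ⟨h, κ, ν⟩ := p
  simp only at hp1 hp2 hp3 HA
  have hlog : Nat.log 2 (Nat.card k) = e := by
    rw [hk, Nat.log_pow (by norm_num)]
  -- the constants
  set lam : ℝ := (e : ℝ) with hlam
  have hlam2 : 1 ≤ lam := by
    rw [hlam]
    exact_mod_cast he
  have hlam0 : 0 < lam := by linarith
  set b' : ℝ := max b 0 with hb'
  have hb'0 : 0 ≤ b' := le_max_right _ _
  have hbb' : b ≤ b' := le_max_left _ _
  obtain ⟨t, ht⟩ : ∃ t : ℕ, ν / (ε / 2) + 2 < (2 : ℝ) ^ t := pow_unbounded_of_one_lt _ one_lt_two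
  have hsd : 0 ≤ ν / (ε / 2) := by positivity
  have ht1 : 1 ≤ t := by
    rcases Nat.eq_zero_or_pos t with h | h
    · rw [h, pow_zero] at ht; linarith
    · exact h
  obtain ⟨j1, hj1⟩ := linear_le_pow (A * lam) (A * lam + (5 + 2 * b') * lam) ε hε
  obtain ⟨j2, hj2⟩ := linear_le_pow 0 ((2 * b' + 2) * lam + 3 * b' + 3 + t) (ε / 4) (by linarith)
  refine ⟨max j1 j2, fun j hj p' hp' G hG1 _ => ?_⟩
  rw [Set.mem_singleton_iff] at hp'
  subst hp'
  simp only at hG1
  have e1 := hj1 j ((le_max_left _ _).trans hj)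
  have e2 := hj2 j ((le_max_right _ _).trans hj)
  rw [zero_mul, zero_add] at e2
  obtain ⟨K, iF, iA, iC, g, n, T, hFF, hCv, hg, hOb, hn, hT, hTc, hQ⟩ := HA j
  set M : ℝ := 2 ^ j with hM
  have hM0 : 0 < M := by rw [hM]; positivity
  have hgR : (g : ℝ) ≤ b' + h * M := by linarith
  have hnR : (n : ℝ) ≤ b' + κ * M := by linarith
  have hεM : 0 < ε * M := by positivity
  have hκM : 0 ≤ κ * M := by positivity
  have hhM : 0 ≤ h * M := by positivity
  -- the degree of the place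
  have hr5 : (A * (j + 1) + (5 + 2 * b')) * lam ≤ ((G : ℝ) - 2 * h * M) * lam := by
    calc (A * ((j : ℝ) + 1) + (5 + 2 * b')) * lam =
          A * lam * j + (A * lam + (5 + 2 * b') * lam) := by ring
      _ ≤ ε * M := e1
      _ ≤ (κ + ε) * M := by linarith
      _ ≤ _ := hG1
  have hr5' : (A * ((j : ℝ) + 1) + (5 + 2 * b')) ≤ (G : ℝ) - 2 * h * M :=
    le_of_mul_le_mul_right hr5 hlam0
  have hGg : 2 * g + 2 ≤ G := by
    have h0 : (0 : ℝ) ≤ A * ((j : ℝ) + 1) := by positivity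
    have : (2 : ℝ) * g + 2 ≤ G := by linarith
    exact_mod_cast this
  obtain ⟨r, hr⟩ : ∃ r : ℕ, 2 * g + r = G + 1 := ⟨G + 1 - 2 * g, by omega⟩
  have hrR : (2 : ℝ) * g + r = G + 1 := by exact_mod_cast hr
  have hr3 : 3 ≤ r := by omega
  have hrA : A * (j + 1) ≤ r := by
    have : (A : ℝ) * ((j : ℝ) + 1) ≤ r := by linarith
    exact_mod_cast this
  obtain ⟨Q, hQr⟩ := hQ r hrA
  -- a subset of the rational places
  obtain ⟨τ, hτ1, hτ2, hτ3⟩ : ∃ τ : ℕ, τ ≤ T.card ∧ (τ : ℝ) ≤ ν * M ∧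
      ν * M - b' - 1 ≤ τ := by
    refine ⟨min T.card ⌊ν * M⌋₊, min_le_left _ _, ?_, ?_⟩
    · have h1 : ((min T.card ⌊ν * M⌋₊ : ℕ) : ℝ) ≤ (⌊ν * M⌋₊ : ℝ) := by
        exact_mod_cast min_le_right _ _
      exact h1.trans (Nat.floor_le (by positivity))
    · rw [Nat.cast_min, le_min_iff]
      constructor
      · linarith
      · have := Nat.lt_floor_add_one (ν * M)
        linarith
  obtain ⟨T₀, hT₀, hT₀c⟩ := Finset.exists_subset_card_eq hτ1
  have hQT : Q ∉ T₀ := by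
    intro h
    have h1 := (hT Q (hT₀ h)).deg_eq_one
    omega
  -- the number of prescribed points
  have hroom : (n : ℝ) + t ≤ lam * r := by
    have h1 : lam * r = ((G : ℝ) + 1 - 2 * g) * lam := by
      have : (r : ℝ) = G + 1 - 2 * g := by linarith
      rw [this]; ring
    rw [h1]
    have h2 : ((G : ℝ) - 2 * h * M) * lam + (1 - 2 * b') * lam ≤ ((G : ℝ) + 1 - 2 * g) * lam := by
      have h3 : (G : ℝ) - 2 * h * M + (1 - 2 * b') ≤ (G : ℝ) + 1 - 2 * g := by linarith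
      have := mul_le_mul_of_nonneg_right h3 hlam0.le
      linarith
    linarith
  have hroomN : n + t ≤ e * r := by
    have : (n : ℝ) + t ≤ e * r := hroom
    exact_mod_cast this
  obtain ⟨u, hu⟩ : ∃ u : ℕ, n + t + u = e * r := ⟨e * r - (n + t), by omega⟩
  have huR : (n : ℝ) + t + u = lam * r := by
    have : (n : ℝ) + t + u = e * r := by exact_mod_cast hu
    exact this
  set k0 := min T₀.card u with hk0
  have hk0T : k0 ≤ T₀.card := min_le_left _ _
  have hbig : n + k0 + t ≤ Nat.log 2 (Nat.card k) * Q.deg (Nat.card k) := by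
    rw [hlog, hQr]
    have : k0 ≤ u := min_le_right _ _
    omega
  obtain ⟨N, hN, hcount⟩ := hasCurve_many hFF hCv hOb Q T₀ hQT (fun P hP => hT P (hT₀ hP)) k0 t ht1
    hk0T hbig
  have hG : 2 * g + Q.deg (Nat.card k) - 1 = G := by rw [hQr]; omega
  rw [hG] at hN
  refine ⟨N, ?_, hN⟩
  -- the count in the reals
  set X : ℝ := 2 ^ t with hX
  have hX2 : 2 ≤ X := by linarith
  have hX2N : 2 ≤ 2 ^ t := by
    have : (2 : ℝ) ≤ ((2 ^ t : ℕ) : ℝ) := by push_cast; exact hX2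
    exact_mod_cast this
  have hcR : 2 * (X - 1) * k0 + (X - 2) * ((τ : ℝ) - k0) ≤ (X - 1) * N := by
    have h1 : 1 ≤ 2 ^ t := by omega
    have h2 : ((2 * (2 ^ t - 1) * k0 + (2 ^ t - 2) * (T₀.card - k0) : ℕ) : ℝ) ≤
        (((2 ^ t - 1) * N : ℕ) : ℝ) := by exact_mod_cast hcount
    push_cast [Nat.cast_sub h1, Nat.cast_sub hX2N, Nat.cast_sub hk0T] at h2
    rw [hT₀c] at h2
    exact h2
  have hXt : ν ≤ (X - 2) * (ε / 2) := by
    have h1 : ν / (ε / 2) ≤ X - 2 := by linarith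
    rwa [div_le_iff₀ (by linarith)] at h1
  have hlam4 : 0 ≤ (2 * b' + 2) * lam := by positivity
  unfold _root_.FF.phiN
  rcases le_total T₀.card u with hle | hle
  · -- all points split
    have h1 : k0 = T₀.card := min_eq_left hle
    rw [h1, hT₀c, sub_self, mul_zero, add_zero] at hcR
    have h2 : 2 * (τ : ℝ) ≤ N := by
      have h3 : (X - 1) * (2 * (τ : ℝ)) ≤ (X - 1) * N := by linarith
      exact le_of_mul_le_mul_left h3 (by linarith)
    have h4 := min_le_right (ν * M + ((G : ℝ) - 2 * h * M) * lam - κ * M) (2 * ν * M)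
    simp only
    have h5 : (0 : ℝ) ≤ t := Nat.cast_nonneg _
    linarith
  · have h1 : k0 = u := min_eq_right hle
    rw [h1] at hcR
    have hτ0 : 0 ≤ (τ : ℝ) := Nat.cast_nonneg _
    have hu0 : (0 : ℝ) ≤ u := Nat.cast_nonneg _
    -- `(X - 1) N ≥ (X - 1) (u + τ) - τ`
    have h2 : (X - 1) * (u + τ - (ε / 2) * M) ≤ (X - 1) * N := by
      refine le_trans ?_ hcR
      have h3 : (τ : ℝ) ≤ (X - 1) * (ε / 2 * M) := by
        calc (τ : ℝ) ≤ ν * M := hτ2
          _ ≤ (X - 2) * (ε / 2) * M := mul_le_mul_of_nonneg_right hXt hM0.le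
          _ ≤ (X - 1) * (ε / 2 * M) := by linarith
      linarith
    have h4 : (u : ℝ) + τ - (ε / 2) * M ≤ N := le_of_mul_le_mul_left h2 (by linarith)
    have h5 := min_le_left (ν * M + ((G : ℝ) - 2 * h * M) * lam - κ * M) (2 * ν * M)
    have h6 : ((G : ℝ) - 2 * h * M) * lam - 2 * b' * lam ≤ lam * r := by
      have h7 : (G : ℝ) - 2 * h * M - 2 * b' ≤ r := by linarith
      have h8 := mul_le_mul_of_nonneg_left h7 hlam0.le
      linarith
    simp only
    linarith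

/-- the same for a finite set of triples -/
theorem coversN {e : ℕ} (he : 1 ≤ e) (hk : Nat.card k = 2 ^ e) (D : Set (ℝ × ℝ × ℝ))
    (hfin : D.Finite) (hD : ∀ p ∈ D, 0 ≤ p.1 ∧ 0 ≤ p.2.1 ∧ 0 ≤ p.2.2 ∧ TowerN k p) (C : ℝ) :
    _root_.FF.CoversN (EC k) e C D := by
  classical
  induction D, hfin using Set.Finite.induction_on with
  | empty => exact _root_.FF.coversN_empty
  | @insert p D' _ _ ih =>
    rw [Set.insert_eq]
    refine _root_.FF.CoversN.union ?_ (ih fun q hq => hD q (Set.mem_insert_of_mem _ hq))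
    obtain ⟨h1, h2, h3, h4⟩ := hD p (Set.mem_insert _ _)
    exact coversN_one he h1 h2 h3 hk h4 C

end Pool.Agent.FF
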