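import Mathlib

/-! # The entropy bound for binomial coefficients -/

set_option autoImplicit false

namespace Pool.Agent.FF.EBEnt

open Finset

/-- the terms of `(t + s) ^ N` -/
def tm (N t s j : ℕ) : ℕ := N.choose j * t ^ j * s ^ (N - j)

theorem tm_succ {N t s j : ℕ} (hj : j < N) :
    tm N t s (j + 1) * ((j + 1) * s) = tm N t s j * ((N - j) * t) := by
  have h1 := Nat.choose_succ_right_eq N j
  have h2 : N - j = N - (j + 1) + 1 := by omega
  unfold tm
  calc N.choose (j + 1) * t ^ (j + 1) * s ^ (N - (j + 1)) * ((j + 1) * s)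
      = (N.choose (j + 1) * (j + 1)) * t ^ (j + 1) * (s ^ (N - (j + 1)) * s) := by ring
    _ = (N.choose j * (N - j)) * t ^ (j + 1) * s ^ (N - (j + 1) + 1) := by rw [h1, pow_succ s]
    _ = (N.choose j * (N - j)) * t ^ (j + 1) * s ^ (N - j) := by rw [← h2]
    _ = _ := by rw [pow_succ]; ring

theorem tm_le_succ {N t j : ℕ} (ht : t ≤ N) (hj : j + 1 ≤ t) :
    tm N t (N - t) j ≤ tm N t (N - t) (j + 1) := by
  have hjN : j < N := by omega
  have h1 := tm_succ (t := t) (s := N - t) hjN
  have h2 : (j + 1) * (N - t) ≤ (N - j) * t := by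
    obtain ⟨a, rfl⟩ : ∃ a, t = j + 1 + a := ⟨t - (j + 1), by omega⟩
    obtain ⟨b, rfl⟩ : ∃ b, N = j + 1 + a + b := ⟨N - (j + 1 + a), by omega⟩
    have h3 : j + 1 + a + b - (j + 1 + a) = b := by omega
    have h4 : j + 1 + a + b - j = 1 + a + b := by omega
    rw [h3, h4]
    nlinarith [Nat.zero_le (a * b), Nat.zero_le a, Nat.zero_le (j * a), Nat.zero_le (a * a)]
  have h3 : 0 < (N - j) * t := Nat.mul_pos (by omega) (by omega)
  refine Nat.le_of_mul_le_mul_right ?_ h3
  rw [← h1]
  exact Nat.mul_le_mul_left _ h2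

theorem tm_succ_le {N t j : ℕ} (hj : t ≤ j) (hjN : j < N) :
    tm N t (N - t) (j + 1) ≤ tm N t (N - t) j := by
  have h1 := tm_succ (t := t) (s := N - t) hjN
  have h2 : (N - j) * t ≤ (j + 1) * (N - t) := by
    obtain ⟨a, rfl⟩ : ∃ a, j = t + a := ⟨j - t, by omega⟩
    obtain ⟨b, rfl⟩ : ∃ b, N = t + a + 1 + b := ⟨N - (t + a + 1), by omega⟩
    have h3 : t + a + 1 + b - (t + a) = 1 + b := by omega
    have h4 : t + a + 1 + b - t = a + 1 + b := by omega
    rw [h3, h4]
    nlinarith [Nat.zero_le (a * b), Nat.zero_le a, Nat.zero_le (t * a), Nat.zero_le (a * a)]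
  have h3 : 0 < (j + 1) * (N - t) := Nat.mul_pos (by omega) (by omega)
  refine Nat.le_of_mul_le_mul_right ?_ h3
  rw [h1]
  exact Nat.mul_le_mul_left _ h2

theorem tm_le {N t j : ℕ} (ht : t ≤ N) (hj : j ≤ N) :
    tm N t (N - t) j ≤ tm N t (N - t) t := by
  rcases le_total j t with h | h
  · induction t - j using Nat.strong_induction_on generalizing j with
    | _ n ih =>
      by_cases hjt : j = t
      · rw [hjt]
      · refine (tm_le_succ ht (by omega)).trans ?_
        clear ih
        have : ∀ i, j + 1 + i ≤ t → tm N t (N - t) (j + 1) ≤ tm N t (N - t) (j + 1 + i) := by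
          intro i
          induction i with
          | zero => intro _; exact le_rfl
          | succ i ih => intro hi; exact (ih (by omega)).trans (tm_le_succ ht (by omega))
        have h1 := this (t - (j + 1)) (by omega)
        rwa [show j + 1 + (t - (j + 1)) = t by omega] at h1
  · have : ∀ i, t + i ≤ N → tm N t (N - t) (t + i) ≤ tm N t (N - t) t := by
      intro i
      induction i with
      | zero => intro _; exact le_rfl
      | succ i ih =>
        intro hi
        exact (tm_succ_le (j := t + i) (by omega) (by omega)).trans (ih (by omega))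
    have h1 := this (j - t) (by omega)
    rwa [show t + (j - t) = j by omega] at h1

/-- `N ^ N ≤ (N + 1) * C(N, t) * t ^ t * (N - t) ^ (N - t)` -/
theorem pow_self_le {N t : ℕ} (ht : t ≤ N) :
    N ^ N ≤ (N + 1) * (N.choose t * t ^ t * (N - t) ^ (N - t)) := by
  have h1 : N ^ N = ∑ j ∈ range (N + 1), tm N t (N - t) j := by
    have h2 : (t + (N - t)) ^ N = _ := add_pow t (N - t) N
    rw [show t + (N - t) = N by omega] at h2
    rw [h2]
    refine sum_congr rfl fun j _ => ?_
    unfold tm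
    simp only [Nat.cast_id]
    ring
  rw [h1]
  calc ∑ j ∈ range (N + 1), tm N t (N - t) j
      ≤ ∑ _j ∈ range (N + 1), tm N t (N - t) t :=
        sum_le_sum fun j hj => tm_le ht (by rw [mem_range] at hj; omega)
    _ = _ := by
        rw [sum_const, card_range, smul_eq_mul]
        rfl

/-- the entropy bound, products of powers -/
theorem choose_ge {N t : ℕ} (ht0 : 0 < t) (ht : t < N) :
    ((N : ℝ) / t) ^ t * ((N : ℝ) / (N - t)) ^ (N - t) ≤ (N + 1) * N.choose t := by
  have h1 := pow_self_le ht.le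
  have h2 : ((N : ℝ)) ^ N ≤ (N + 1) * (N.choose t * (t : ℝ) ^ t * ((N : ℝ) - t) ^ (N - t)) := by
    have h3 : ((N ^ N : ℕ) : ℝ) ≤
        (((N + 1) * (N.choose t * t ^ t * (N - t) ^ (N - t)) : ℕ) : ℝ) := by exact_mod_cast h1
    push_cast [Nat.cast_sub ht.le] at h3
    exact h3
  have ht0' : (0 : ℝ) < t := by exact_mod_cast ht0
  have hs0 : (0 : ℝ) < (N : ℝ) - t := by
    have : (t : ℝ) < N := by exact_mod_cast ht
    linarith
  have hN : (N : ℝ) ^ N = (N : ℝ) ^ t * (N : ℝ) ^ (N - t) := by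
    rw [← pow_add]
    congr 1
    omega
  rw [div_pow, div_pow, div_mul_div_comm, ← hN, div_le_iff₀ (by positivity)]
  calc ((N : ℝ)) ^ N ≤ (N + 1) * (N.choose t * (t : ℝ) ^ t * ((N : ℝ) - t) ^ (N - t)) := h2
    _ = _ := by ring

/-- the entropy bound -/
theorem exp_le_choose {N t : ℕ} (ht0 : 0 < t) (ht : t < N) :
    Real.exp (N * Real.binEntropy (t / N)) ≤ (N + 1) * N.choose t := by
  refine le_trans (le_of_eq ?_) (choose_ge ht0 ht)
  have ht0' : (0 : ℝ) < t := by exact_mod_cast ht0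
  have hN0 : (0 : ℝ) < N := by exact_mod_cast (ht0.trans ht)
  have hs0 : (0 : ℝ) < (N : ℝ) - t := by
    have : (t : ℝ) < N := by exact_mod_cast ht
    linarith
  have h1 : 0 < ((N : ℝ) / t) ^ t * ((N : ℝ) / (N - t)) ^ (N - t) := by positivity
  rw [← Real.exp_log h1, Real.log_mul (by positivity) (by positivity), Real.log_pow, Real.log_pow]
  congr 1
  have h2 : ((N - t : ℕ) : ℝ) = (N : ℝ) - t := Nat.cast_sub ht.le
  have h3 : (1 : ℝ) - t / N = ((N : ℝ) - t) / N := by field_simp
  rw [h2, Real.binEntropy, h3, inv_div, inv_div]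
  field_simp

/-- the entropy bound with a general exponent base -/
theorem rpow_le_choose {N t : ℕ} (ht0 : 0 < t) (ht : t < N) :
    (2 : ℝ) ^ (N * (Real.binEntropy (t / N) / Real.log 2)) ≤ (N + 1) * N.choose t := by
  refine le_trans (le_of_eq ?_) (exp_le_choose ht0 ht)
  have h2 : Real.log 2 ≠ 0 := (Real.log_pos one_lt_two).ne'
  rw [Real.rpow_def_of_pos two_pos]
  congr 1
  field_simp

/-- a Hamming ball has at least `C(N, t)` points -/
theorem card_sphere {ι : Type} [Fintype ι] [DecidableEq ι] (x : ι → ZMod 2) (t : ℕ) :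
    (Finset.univ.filter fun y : ι → ZMod 2 => hammingDist x y = t).card =
      (Fintype.card ι).choose t := by
  classical
  have h0 : ∀ a b : ZMod 2, a ≠ b → b = a + 1 := by decide
  have h1 : ∀ a : ZMod 2, a ≠ a + 1 := by decide
  rw [← Finset.card_univ, ← Finset.card_powersetCard t (Finset.univ : Finset ι)]
  refine Finset.card_bij' (fun y _ => Finset.univ.filter fun i => x i ≠ y i)
    (fun s _ => fun i => if i ∈ s then x i + 1 else x i) ?_ ?_ ?_ ?_
  · intro y hy
    rw [Finset.mem_powersetCard]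
    exact ⟨Finset.subset_univ _, (Finset.mem_filter.1 hy).2⟩
  · intro s hs
    rw [Finset.mem_powersetCard] at hs
    rw [Finset.mem_filter]
    refine ⟨Finset.mem_univ _, ?_⟩
    rw [← hs.2]
    unfold hammingDist
    congr 1
    ext i
    rw [Finset.mem_filter]
    by_cases hi : i ∈ s
    · simp only [hi, if_true, iff_true]
      exact ⟨Finset.mem_univ _, h1 _⟩
    · simp [hi]
  · intro y _
    funext i
    by_cases hi : x i = y i
    · simp [hi]
    · simp only [Finset.mem_filter, Finset.mem_univ, true_and, hi, ne_eq, not_false_eq_true,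
        if_true]
      exact (h0 _ _ hi).symm
  · intro s _
    ext i
    by_cases hi : i ∈ s
    · simp only [hi, if_true, Finset.mem_filter, Finset.mem_univ, true_and, iff_true]
      exact h1 _
    · simp [hi]

/-- a Hamming ball has at least `C(N, t)` points -/
theorem choose_le_ball {ι : Type} [Fintype ι] [DecidableEq ι] (x : ι → ZMod 2) (t : ℕ) :
    (Fintype.card ι).choose t ≤
      (Finset.univ.filter fun y : ι → ZMod 2 => hammingDist x y ≤ t).card := by
  rw [← card_sphere x t]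
  refine Finset.card_le_card fun y hy => ?_
  rw [Finset.mem_filter] at hy ⊢
  exact ⟨hy.1, hy.2.le⟩

/-- an exponential beats a linear function, in `ℕ` -/
theorem exp_beats {X Y : ℕ} (hY : 0 < Y) (h : Y < X) (M B : ℕ) :
    ∃ n₀, ∀ n ≥ n₀, M * (B * n + 1) * Y ^ n ≤ X ^ n := by
  have hX : (0 : ℝ) < X := by exact_mod_cast hY.trans h
  have hr1 : (Y : ℝ) / X < 1 := by
    rw [div_lt_one hX]
    exact_mod_cast h
  have hr0 : (0 : ℝ) ≤ (Y : ℝ) / X := by positivity
  have h1 := (tendsto_self_mul_const_pow_of_lt_one hr0 hr1).const_mul ((M : ℝ) * B)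
  have h2 := (tendsto_pow_atTop_nhds_zero_of_lt_one hr0 hr1).const_mul (M : ℝ)
  have h3 := h1.add h2
  rw [mul_zero, mul_zero, add_zero] at h3
  have h4 := h3.eventually (gt_mem_nhds one_pos)
  rw [Filter.eventually_atTop] at h4
  obtain ⟨n₀, hn₀⟩ := h4
  refine ⟨n₀, fun n hn => ?_⟩
  have h5 := hn₀ n hn
  have h6 : ((M * (B * n + 1) * Y ^ n : ℕ) : ℝ) ≤ ((X ^ n : ℕ) : ℝ) := by
    push_cast
    have hXn : (0 : ℝ) < (X : ℝ) ^ n := by positivity
    have h7 : (M : ℝ) * B * (n * ((Y : ℝ) / X) ^ n) + M * ((Y : ℝ) / X) ^ n =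
        (M * (B * n + 1) * (Y : ℝ) ^ n) / (X : ℝ) ^ n := by
      rw [div_pow]
      field_simp
      try ring
    rw [h7, div_lt_one hXn] at h5
    exact h5.le
  exact_mod_cast h6

/-- the volume of a ball in blocks -/
theorem ball_block (B a κ : ℕ) (ha : 0 < a) (hB : 2 * a ≤ B)
    (h : 2 ^ B * a ^ a * (B - a) ^ (B - a) < 2 ^ κ * B ^ B) (M : ℕ) :
    ∃ n₀, ∀ n ≥ n₀, ∀ (ι : Type) [Fintype ι] [DecidableEq ι], Fintype.card ι = B * n →
      M * 2 ^ (B * n) ≤
        2 ^ (κ * n) * (univ.filter fun w : ι → ZMod 2 => hammingNorm w ≤ a * n).card := by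
  have hBa : 0 < B - a := by omega
  have hY : 0 < 2 ^ B * a ^ a * (B - a) ^ (B - a) := by positivity
  obtain ⟨n₀, hn₀⟩ := exp_beats hY h M B
  refine ⟨n₀ + 1, fun n hn ι _ _ hι => ?_⟩
  have hn0 : 0 < n := by omega
  have h1 := hn₀ n (by omega)
  have hle : a * n ≤ B * n := Nat.mul_le_mul_right n (by omega)
  have hsub : B * n - a * n = (B - a) * n := (Nat.sub_mul B a n).symm
  have hball : (B * n).choose (a * n) ≤
      (univ.filter fun w : ι → ZMod 2 => hammingNorm w ≤ a * n).card := by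
    have h2 := choose_le_ball (0 : ι → ZMod 2) (a * n)
    simpa [hι] using h2
  have h2 := pow_self_le hle
  rw [hsub] at h2
  -- cancel `n ^ (B * n)`
  have h3 : B ^ (B * n) ≤ (B * n + 1) *
      ((B * n).choose (a * n) * (a ^ (a * n) * (B - a) ^ ((B - a) * n))) := by
    have hpos : 0 < n ^ (B * n) := by positivity
    refine Nat.le_of_mul_le_mul_right ?_ hpos
    have h4 : n ^ (B * n) = n ^ (a * n) * n ^ ((B - a) * n) := by
      rw [← pow_add, ← Nat.add_mul]
      congr 2
      omega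
    calc B ^ (B * n) * n ^ (B * n) = (B * n) ^ (B * n) := (mul_pow _ _ _).symm
      _ ≤ _ := h2
      _ = _ := by rw [mul_pow a n, mul_pow (B - a) n, h4]; ring
  have hP : 0 < (B * n + 1) * (a ^ (a * n) * (B - a) ^ ((B - a) * n)) := by positivity
  refine Nat.le_of_mul_le_mul_right ?_ hP
  calc M * 2 ^ (B * n) * ((B * n + 1) * (a ^ (a * n) * (B - a) ^ ((B - a) * n)))
      = M * (B * n + 1) * (2 ^ B * a ^ a * (B - a) ^ (B - a)) ^ n := by
        rw [mul_pow, mul_pow, ← pow_mul, ← pow_mul, ← pow_mul]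
        ring
    _ ≤ (2 ^ κ * B ^ B) ^ n := h1
    _ = 2 ^ (κ * n) * B ^ (B * n) := by rw [mul_pow, ← pow_mul, ← pow_mul]
    _ ≤ 2 ^ (κ * n) * ((B * n + 1) *
        ((B * n).choose (a * n) * (a ^ (a * n) * (B - a) ^ ((B - a) * n)))) :=
        Nat.mul_le_mul_left _ h3
    _ ≤ 2 ^ (κ * n) * ((B * n + 1) *
        ((univ.filter fun w : ι → ZMod 2 => hammingNorm w ≤ a * n).card *
          (a ^ (a * n) * (B - a) ^ ((B - a) * n)))) :=
        Nat.mul_le_mul_left _ (Nat.mul_le_mul_left _ (Nat.mul_le_mul_right _ hball))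
    _ = _ := by ring

end Pool.Agent.FF.EBEnt
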