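import Pool.Agent.FF.EB
import Pool.Agent.FF.EBEnt

/-!
# Upper bounds for the minimum distance of a binary linear code, in blocks
-/

set_option autoImplicit false

namespace Pool.Agent.FF

open Finset

/-- Every binary linear code of length `N` with at least `2 ^ κ` words has a nonzero word of
weight at most `v` (the code is given with a parametrization, whose kernel has weight `0`). -/
def BlkN (N κ v : ℕ) : Prop :=
  ∀ (ι : Type) [Fintype ι] [DecidableEq ι], Fintype.card ι = N →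
    ∀ (W : Type) [AddCommGroup W] [Finite W] (φ : W →+ (ι → ZMod 2)), 2 ^ κ ≤ Nat.card W →
      ∃ w : W, w ≠ 0 ∧ hammingNorm (φ w) ≤ v

/-- In blocks of `B` letters, `κ` bits and weight about `u`. -/
def Blk (B κ : ℕ) (u : ℝ) : Prop :=
  ∀ η : ℝ, 0 < η → ∃ n₀ : ℕ, ∀ n ≥ n₀, ∃ v : ℕ, (v : ℝ) ≤ (u + η) * n ∧ BlkN (B * n) (κ * n) v

/-- **The Elias-Bassalygo bound.** -/
theorem blk_eb {B a κ : ℕ} (ha : 0 < a) (hB : 2 * a ≤ B)
    (h : 2 ^ B * a ^ a * (B - a) ^ (B - a) < 2 ^ κ * B ^ B) :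
    Blk B κ (2 * a * ((B : ℝ) - a) / B) := by
  classical
  intro η hη
  have hBa : (0 : ℝ) ≤ (B : ℝ) - a := by
    have : ((a : ℕ) : ℝ) ≤ (B : ℕ) := by exact_mod_cast (by omega : a ≤ B)
    linarith
  have hB0 : (0 : ℝ) < B := by exact_mod_cast (by omega : 0 < B)
  set u : ℝ := 2 * a * ((B : ℝ) - a) / B with hu
  have hu0 : 0 ≤ u := by positivity
  obtain ⟨M, hM2, hM⟩ : ∃ M : ℕ, 2 ≤ M ∧ u ≤ ((M : ℝ) - 1) * η := by
    obtain ⟨n, hn⟩ := exists_nat_ge (u / η)
    refine ⟨n + 2, by omega, ?_⟩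
    rw [div_le_iff₀ hη] at hn
    push_cast
    nlinarith
  have hM1 : (0 : ℝ) < (M : ℝ) - 1 := by
    have : ((2 : ℕ) : ℝ) ≤ (M : ℕ) := by exact_mod_cast hM2
    push_cast at this
    linarith
  obtain ⟨n₀, hn₀⟩ := EBEnt.ball_block B a κ ha hB h M
  refine ⟨max n₀ 1, fun n hn => ⟨⌊(u + η) * n⌋₊, Nat.floor_le (by positivity), ?_⟩⟩
  intro ι _ _ hι W _ _ φ hW
  have hn1 : 1 ≤ n := le_trans (le_max_right _ _) hn
  have := Fintype.ofFinite W
  have h1 := hn₀ n (le_trans (le_max_left _ _) hn) ι hι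
  have hle : 2 * (a * n) ≤ Fintype.card ι := by
    rw [hι, ← mul_assoc]
    exact Nat.mul_le_mul_right _ hB
  obtain ⟨x, -, y, -, hxy, h2⟩ := eb_exists (ι := ι) (univ : Finset W) (fun w => φ w) (a * n) M hM2
    hle (by
      rw [hι, card_univ, ← Nat.card_eq_fintype_card]
      refine h1.trans (Nat.mul_le_mul ?_ ?_)
      · exact hW
      · refine le_of_eq ?_
        congr 1)
  refine ⟨x - y, sub_ne_zero.2 hxy, ?_⟩
  have h3 : hammingNorm (φ (x - y)) = hammingDist (φ x) (φ y) := by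
    rw [map_sub, hammingDist_comm, hammingDist_eq_hammingNorm, neg_add_eq_sub]
  rw [h3]
  refine Nat.le_floor ?_
  have hsub : B * n - a * n = (B - a) * n := (Nat.sub_mul _ _ _).symm
  rw [hι, hsub] at h2
  have h4 : (((M - 1) * (B * n) * hammingDist (φ x) (φ y) : ℕ) : ℝ) ≤
      ((2 * M * (a * n) * ((B - a) * n) : ℕ) : ℝ) := by exact_mod_cast h2
  push_cast [Nat.cast_sub (by omega : 1 ≤ M), Nat.cast_sub (by omega : a ≤ B)] at h4
  have hn0 : (0 : ℝ) < n := by exact_mod_cast hn1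
  have hpos : 0 < ((M : ℝ) - 1) * (B * n) := by positivity
  refine le_of_mul_le_mul_left (h4.trans ?_) hpos
  have h5 : 2 * (M : ℝ) * (a * n) * (((B : ℝ) - a) * n) = (u * M) * (B * n) * n := by
    rw [hu]
    field_simp
  rw [h5]
  have h6 : u * M ≤ ((M : ℝ) - 1) * (u + η) := by nlinarith
  calc u * M * (B * n) * n ≤ ((M : ℝ) - 1) * (u + η) * (B * n) * n := by
        have : (0 : ℝ) ≤ B * n := by positivity
        exact mul_le_mul_of_nonneg_right (mul_le_mul_of_nonneg_right h6 this) hn0.le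
    _ = _ := by ring

end Pool.Agent.FF
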