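import Pool.Agent.FF.LP

/-! # The first linear programming bound in blocks -/

set_option autoImplicit false
set_option linter.unusedSectionVars false

namespace Pool.Agent.FF.LP

open Finset

/-- A radial function on the ball of radius `t` with eigenvalue almost `2 √(t (N - t))`. -/
theorem window (N t M : ℕ) (hM : 1 ≤ M) (hMt : M ≤ t) (htN : t < N) (σ : ℝ) (hσ0 : 0 ≤ σ)
    (hσ : σ ^ 2 = t * (N - t)) :
    ∃ g : ℕ → ℝ, (∀ i, 0 ≤ g i) ∧ (∀ i, t < i → g i = 0) ∧ 0 < g t ∧
      ∀ i ≤ N, 2 * σ * (1 - M / t) * (1 - 1 / M) * g i ≤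
        i * g (i - 1) + ((N : ℝ) - i) * g (i + 1) := by
  have ht0 : (0 : ℝ) < t := by
    have : 0 < t := by omega
    exact_mod_cast this
  have hNt : (0 : ℝ) < (N : ℝ) - t := by
    have : (t : ℝ) < N := by exact_mod_cast htN
    linarith
  have hM0 : (0 : ℝ) < M := by exact_mod_cast hM
  have hMt' : (M : ℝ) ≤ t := by exact_mod_cast hMt
  have hσp : 0 < σ := by
    rcases hσ0.lt_or_eq with h | h
    · exact h
    · rw [← h] at hσ
      have : (0 : ℝ) < t * (N - t) := mul_pos ht0 hNt
      rw [← hσ] at this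
      norm_num at this
  set r : ℝ := t / σ with hr
  have hr0 : 0 < r := div_pos ht0 hσp
  have h1 : σ * r = t := by rw [hr]; field_simp
  have h2 : ((N : ℝ) - t) * r = σ := by
    rw [hr, ← mul_div_assoc, div_eq_iff hσp.ne']
    rw [← sq, hσ]
    ring
  obtain ⟨c, rfl⟩ : ∃ c, t = c + M := ⟨t - M, by omega⟩
  set g : ℕ → ℝ := fun i => if c ≤ i ∧ i ≤ c + M + 1 then
    r ^ i * (((i : ℝ) - c) * ((c : ℝ) + M + 1 - i)) else 0 with hg
  have hg0 : ∀ i, 0 ≤ g i := by
    intro i
    rw [hg]
    simp only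
    split_ifs with h
    · have e1 : (0 : ℝ) ≤ (i : ℝ) - c := by
        have : (c : ℝ) ≤ i := by exact_mod_cast h.1
        linarith
      have e2 : (0 : ℝ) ≤ (c : ℝ) + M + 1 - i := by
        have : (i : ℝ) ≤ c + M + 1 := by exact_mod_cast h.2
        linarith
      positivity
    · exact le_rfl
  have hmul : 0 ≤ 1 - (M : ℝ) / ((c + M : ℕ) : ℝ) := by
    rw [sub_nonneg, div_le_one ht0]
    exact hMt'
  refine ⟨g, hg0, ?_, ?_, ?_⟩
  · intro i hi
    rw [hg]
    simp only
    split_ifs with h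
    · have : i = c + M + 1 := by omega
      subst this
      push_cast
      ring
    · rfl
  · rw [hg]
    simp only
    rw [if_pos ⟨by omega, by omega⟩]
    push_cast
    have : (0 : ℝ) < r ^ (c + M) := pow_pos hr0 _
    have e : ((c : ℝ) + M - c) * (c + M + 1 - (c + M)) = M := by ring
    rw [e]
    positivity
  · intro i hi
    have hiN : (0 : ℝ) ≤ (N : ℝ) - i := by
      have : (i : ℝ) ≤ N := by exact_mod_cast hi
      linarith
    by_cases hin : c + 1 ≤ i ∧ i ≤ c + M
    · obtain ⟨j, rfl⟩ : ∃ j, i = c + 1 + j := ⟨i - (c + 1), by omega⟩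
      have hjM : j + 1 ≤ M := by omega
      have hjM' : (j : ℝ) + 1 ≤ M := by exact_mod_cast hjM
      have hj0 : (0 : ℝ) ≤ j := Nat.cast_nonneg j
      have g1 : g (c + 1 + j) = r ^ (c + 1 + j) * (((j : ℝ) + 1) * (M - j)) := by
        rw [hg]
        simp only
        rw [if_pos ⟨by omega, by omega⟩]
        push_cast
        ring
      have g2 : g (c + 1 + j - 1) = r ^ (c + j) * ((j : ℝ) * (M + 1 - j)) := by
        have : c + 1 + j - 1 = c + j := by omega
        rw [this, hg]
        simp only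
        rw [if_pos ⟨by omega, by omega⟩]
        push_cast
        ring
      have g3 : g (c + 1 + j + 1) = r ^ (c + 1 + j + 1) * (((j : ℝ) + 2) * (M - 1 - j)) := by
        rw [hg]
        simp only
        rw [if_pos ⟨by omega, by omega⟩]
        push_cast
        ring
      rw [g1, g2, g3]
      set q : ℝ := 1 - (M : ℝ) / ((c + M : ℕ) : ℝ) with hq
      have hq1 : q ≤ 1 := by
        rw [hq]
        have : 0 ≤ (M : ℝ) / ((c + M : ℕ) : ℝ) := by positivity
        linarith
      -- the left neighbour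
      have hcq : (c : ℝ) = σ * r * q := by
        rw [h1, hq]
        push_cast
        have : (c : ℝ) + M ≠ 0 := by
          have := ht0
          push_cast at this
          exact this.ne'
        field_simp
        ring
      have hrp : 0 < r ^ (c + j) := pow_pos hr0 _
      have e1 : r ^ (c + 1 + j) = r ^ (c + j) * r := by rw [← pow_succ]; congr 1; omega
      have e2 : r ^ (c + 1 + j + 1) = r ^ (c + j) * r * r := by
        rw [← pow_succ, ← pow_succ]
        congr 1
        omega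
      have hA : σ * q * r * ((j : ℝ) * (M + 1 - j)) ≤
          ((c + 1 + j : ℕ) : ℝ) * ((j : ℝ) * (M + 1 - j)) := by
        refine mul_le_mul_of_nonneg_right ?_ (mul_nonneg hj0 (by linarith))
        push_cast
        nlinarith [hcq]
      have hB : σ * q * r * (((j : ℝ) + 2) * (M - 1 - j)) ≤
          ((N : ℝ) - ((c + 1 + j : ℕ) : ℝ)) * r * r * (((j : ℝ) + 2) * (M - 1 - j)) := by
        refine mul_le_mul_of_nonneg_right ?_ (mul_nonneg (by linarith) (by linarith))
        refine mul_le_mul_of_nonneg_right ?_ hr0.le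
        calc σ * q ≤ σ * 1 := mul_le_mul_of_nonneg_left hq1 hσp.le
          _ = ((N : ℝ) - ((c + M : ℕ) : ℝ)) * r := by rw [h2, mul_one]
          _ ≤ ((N : ℝ) - ((c + 1 + j : ℕ) : ℝ)) * r := by
              refine mul_le_mul_of_nonneg_right ?_ hr0.le
              push_cast
              linarith
      have hC : (1 - 1 / (M : ℝ)) * (((j : ℝ) + 1) * (M - j)) ≤ ((j : ℝ) + 1) * (M - j) - 1 := by
        have h3 : (M : ℝ) ≤ ((j : ℝ) + 1) * (M - j) := by nlinarith
        have h4 : 1 ≤ 1 / (M : ℝ) * (((j : ℝ) + 1) * (M - j)) := by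
          rw [one_div, inv_mul_eq_div, le_div_iff₀ hM0]
          linarith
        linarith
      have hsq : 0 ≤ 2 * σ * q * r := by positivity
      have hD := mul_le_mul_of_nonneg_left hC hsq
      have hE : 2 * σ * q * r * (((j : ℝ) + 1) * (M - j) - 1) =
          σ * q * r * ((j : ℝ) * (M + 1 - j)) + σ * q * r * (((j : ℝ) + 2) * (M - 1 - j)) := by
        ring
      have hF : 2 * σ * q * (1 - 1 / (M : ℝ)) * r * (((j : ℝ) + 1) * (M - j)) ≤
          ((c + 1 + j : ℕ) : ℝ) * ((j : ℝ) * (M + 1 - j)) +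
            ((N : ℝ) - ((c + 1 + j : ℕ) : ℝ)) * r * r * (((j : ℝ) + 2) * (M - 1 - j)) := by
        calc 2 * σ * q * (1 - 1 / (M : ℝ)) * r * (((j : ℝ) + 1) * (M - j)) =
              2 * σ * q * r * ((1 - 1 / (M : ℝ)) * (((j : ℝ) + 1) * (M - j))) := by ring
          _ ≤ _ := hD
          _ = _ := hE
          _ ≤ _ := add_le_add hA hB
      have hG := mul_le_mul_of_nonneg_left hF hrp.le
      rw [e1, e2]
      calc 2 * σ * q * (1 - 1 / (M : ℝ)) * (r ^ (c + j) * r * (((j : ℝ) + 1) * (M - j))) =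
            r ^ (c + j) * (2 * σ * q * (1 - 1 / (M : ℝ)) * r * (((j : ℝ) + 1) * (M - j))) := by
              ring
        _ ≤ _ := hG
        _ = _ := by ring
    · have hz : g i = 0 := by
        rw [hg]
        simp only
        split_ifs with h
        · rcases (by omega : i = c ∨ i = c + M + 1) with rfl | rfl
          · simp
          · push_cast
            ring
        · rfl
      rw [hz, mul_zero]
      have := hg0 (i - 1)
      have := hg0 (i + 1)
      positivity

/-- upper bound for the ball -/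
theorem ball_le {ι : Type*} [Fintype ι] [DecidableEq ι] (t a b : ℕ) (hab : a ≤ b)
    (ht : t ≤ Fintype.card ι) :
    (univ.filter fun x : ι → ZMod 2 => hammingNorm x ≤ t).card *
      (a ^ t * b ^ (Fintype.card ι - t)) ≤ (a + b) ^ Fintype.card ι := by
  classical
  set N := Fintype.card ι with hN
  let c : ZMod 2 → ℕ := fun z => if z = 0 then b else a
  have h1 : ∑ x : ι → ZMod 2, ∏ i, c (x i) = (a + b) ^ N := by
    have h2 := Finset.prod_univ_sum (fun _ : ι => (univ : Finset (ZMod 2))) (fun _ z => c z)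
    rw [Fintype.piFinset_univ] at h2
    rw [← h2]
    have h3 : ∑ z : ZMod 2, c z = a + b := by
      have : (univ : Finset (ZMod 2)) = {0, 1} := by decide
      rw [this, sum_pair (by decide)]
      have h10 : (1 : ZMod 2) ≠ 0 := by decide
      simp only [c, if_true, if_neg h10]
      exact add_comm _ _
    simp only [h3, prod_const, card_univ]
    rfl
  have h2 : ∀ x : ι → ZMod 2, ∏ i, c (x i) = a ^ hammingNorm x * b ^ (N - hammingNorm x) := by
    intro x
    have h3 : ∏ i, c (x i) = (∏ i ∈ univ.filter (fun i => x i ≠ 0), a) *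
        ∏ i ∈ univ.filter (fun i => ¬ x i ≠ 0), b := by
      rw [← prod_filter_mul_prod_filter_not univ (fun i => x i ≠ 0)]
      congr 1
      · refine prod_congr rfl fun i hi => ?_
        rw [mem_filter] at hi
        simp [c, hi.2]
      · refine prod_congr rfl fun i hi => ?_
        rw [mem_filter, not_not] at hi
        simp [c, hi.2]
    rw [h3, prod_const, prod_const]
    have h4 : (univ.filter fun i => x i ≠ 0).card = hammingNorm x := rfl
    have h5 : (univ.filter fun i => ¬ x i ≠ 0).card = N - hammingNorm x := by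
      have := card_filter_add_card_filter_not (s := (univ : Finset ι)) (fun i => x i ≠ 0)
      rw [card_univ] at this
      omega
    rw [h4, h5]
  rw [← h1, ← smul_eq_mul, ← sum_const]
  refine (sum_le_sum fun x hx => ?_).trans (sum_le_sum_of_subset (subset_univ _))
  rw [mem_filter] at hx
  have h6 : N - hammingNorm x = (t - hammingNorm x) + (N - t) := by omega
  have h7 : t = hammingNorm x + (t - hammingNorm x) := by omega
  rw [h2, h6, pow_add, ← mul_assoc]
  conv_lhs => rw [h7, pow_add]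
  have h8 : hammingNorm x + (t - hammingNorm x) = t := h7.symm
  rw [h8]
  exact Nat.mul_le_mul_right _ (Nat.mul_le_mul_left _ (Nat.pow_le_pow_left hab _))

set_option maxHeartbeats 4000000 in
/-- **The linear programming bound in blocks**: `κ` bits and `B` coordinates per block give a nonzero
element of weight at most `u` per block, if `κ / B > H(a / B)` and `u / B > 1/2 - √(a (B - a)) / B`. -/
theorem lp_block (B a κ u : ℕ) (ha : 0 < a) (h2a : 2 * a ≤ B)
    (hκ : B ^ B < 2 ^ κ * (a ^ a * (B - a) ^ (B - a))) (hu : 2 * u ≤ B)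
    (hlt : (B - 2 * u) ^ 2 < 4 * a * (B - a)) :
    ∃ n₀ : ℕ, ∀ n ≥ n₀, ∀ (ι : Type) [Fintype ι] [DecidableEq ι] (W : Type) [AddCommGroup W]
      [Finite W] (φ : W →+ (ι → ZMod 2)), Fintype.card ι = B * n → 2 ^ (κ * n) ≤ Nat.card W →
      ∃ w : W, w ≠ 0 ∧ hammingNorm (φ w) ≤ u * n := by
  have haB : a < B := by omega
  have ha' : (0 : ℝ) < a := by exact_mod_cast ha
  have hBa : (0 : ℝ) < (B : ℝ) - a := by
    have : (a : ℝ) < B := by exact_mod_cast haB
    linarith
  set S : ℝ := Real.sqrt (a * (B - a)) with hS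
  have hS2 : S ^ 2 = a * (B - a) := Real.sq_sqrt (by positivity)
  have hS0 : 0 < S := Real.sqrt_pos.2 (by positivity)
  have hu' : (0 : ℝ) ≤ (B : ℝ) - 2 * u := by
    have : (2 * (u : ℝ)) ≤ B := by exact_mod_cast hu
    linarith
  have hδ : (B : ℝ) - 2 * u < 2 * S := by
    have h1 : ((B : ℝ) - 2 * u) ^ 2 < (2 * S) ^ 2 := by
      rw [mul_pow, hS2]
      have h2 : (((B - 2 * u) ^ 2 : ℕ) : ℝ) < ((4 * a * (B - a) : ℕ) : ℝ) := by
        exact_mod_cast hlt
      push_cast [Nat.cast_sub hu, Nat.cast_sub haB.le] at h2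
      nlinarith
    exact lt_of_pow_lt_pow_left₀ 2 (by positivity) h1
  set δ : ℝ := 2 * S - (B - 2 * u) with hδd
  have hδ0 : 0 < δ := by rw [hδd]; linarith
  obtain ⟨M, hM⟩ := exists_nat_gt (max 1 (8 * S / δ))
  have hM1 : (1 : ℝ) < M := lt_of_le_of_lt (le_max_left _ _) hM
  have hM2 : 8 * S / δ < M := lt_of_le_of_lt (le_max_right _ _) hM
  have hM1' : 1 ≤ M := by
    have : 1 < M := by exact_mod_cast hM1
    omega
  have hM0 : (0 : ℝ) < M := by linarith
  obtain ⟨n1, hn1⟩ := exists_nat_gt (max (M : ℝ) (8 * S * M / (δ * a)))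
  -- growth
  set X : ℝ := (2 : ℝ) ^ κ * ((a : ℝ) ^ a * ((B : ℝ) - a) ^ (B - a)) with hX
  set Y : ℝ := (B : ℝ) ^ B with hY
  have hXY : Y < X := by
    have h1 : ((B ^ B : ℕ) : ℝ) < ((2 ^ κ * (a ^ a * (B - a) ^ (B - a)) : ℕ) : ℝ) := by
      exact_mod_cast hκ
    push_cast [Nat.cast_sub haB.le] at h1
    exact h1
  have hB0 : (0 : ℝ) < B := by linarith
  have hY0 : 0 < Y := by rw [hY]; positivity
  have hq : 1 < X / Y := by rwa [one_lt_div hY0]
  obtain ⟨n2, hn2⟩ := (((tendsto_pow_atTop_atTop_of_one_lt hq).eventually_gt_atTop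
    (8 * u / δ)).exists_forall_of_atTop)
  refine ⟨max n1 n2 + 1, ?_⟩
  intro n hn ι _ _ W _ _ φ hι hW
  classical
  have := Fintype.ofFinite W
  have hn1' : (max (M : ℝ) (8 * S * M / (δ * a))) < n := by
    refine lt_of_lt_of_le hn1 ?_
    have : n1 ≤ n := by omega
    exact_mod_cast this
  have hnM : (M : ℝ) < n := lt_of_le_of_lt (le_max_left _ _) hn1'
  have hnS : 8 * S * M / (δ * a) < n := lt_of_le_of_lt (le_max_right _ _) hn1'
  have hn0 : (0 : ℝ) < n := by linarith
  have hn0' : 0 < n := by exact_mod_cast hn0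
  by_contra hcon
  push Not at hcon
  have hMn : M ≤ n := by
    have : M < n := by exact_mod_cast hnM
    omega
  have hMt : M ≤ a * n := hMn.trans (Nat.le_mul_of_pos_left _ ha)
  have htN : a * n < B * n := Nat.mul_lt_mul_of_pos_right haB hn0'
  obtain ⟨g, g0, g1, g2, g3⟩ := window (B * n) (a * n) M hM1' hMt htN (S * n) (by positivity) (by
    push_cast
    rw [mul_pow, hS2]
    ring)
  set lam : ℝ := 2 * (S * n) * (1 - M / ((a * n : ℕ) : ℝ)) * (1 - 1 / M) with hlam
  have hlow : ((B : ℝ) - 2 * u) * n + δ / 2 * n ≤ lam := by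
    have e1 : (M : ℝ) / ((a * n : ℕ) : ℝ) ≤ δ / (8 * S) := by
      push_cast
      rw [div_le_div_iff₀ (by positivity) (by positivity)]
      rw [div_lt_iff₀ (by positivity)] at hnS
      nlinarith
    have e2 : 1 / (M : ℝ) ≤ δ / (8 * S) := by
      rw [div_le_div_iff₀ hM0 (by positivity)]
      rw [div_lt_iff₀ hδ0] at hM2
      nlinarith
    have e3 : 0 ≤ (M : ℝ) / ((a * n : ℕ) : ℝ) := by positivity
    have e4 : 0 ≤ 1 / (M : ℝ) := by positivity
    have e5 : 1 - δ / (4 * S) ≤ (1 - M / ((a * n : ℕ) : ℝ)) * (1 - 1 / M) := by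
      have e6 : δ / (4 * S) = δ / (8 * S) + δ / (8 * S) := by
        field_simp
        ring
      rw [e6]
      nlinarith [mul_nonneg e3 e4]
    have e7 : 2 * (S * n) * (1 - δ / (4 * S)) ≤ lam := by
      rw [hlam, mul_assoc (2 * (S * n))]
      exact mul_le_mul_of_nonneg_left e5 (by positivity)
    have e8 : 2 * (S * n) * (1 - δ / (4 * S)) = 2 * S * n - δ / 2 * n := by
      field_simp
      ring
    rw [e8] at e7
    have e9 : 2 * S = δ + (B - 2 * u) := by rw [hδd]; ring
    rw [e9] at e7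
    linarith
  have hmain := lp_bound φ g lam (u * n) (a * n) g0 g1 ⟨a * n, by rw [hι]; exact htN.le, g2⟩
    (by rw [hι]; exact g3) (by
      rw [hι]
      push_cast
      have : 0 ≤ δ / 2 * n := by positivity
      nlinarith) (fun w hw => (hcon w hw).le)
  have hball := ball_le (ι := ι) (a * n) a (B - a) (by omega) (by rw [hι]; exact htN.le)
  set BB := (univ.filter fun x : ι → ZMod 2 => hammingNorm x ≤ a * n).card with hBB
  rw [hι] at hmain hball
  have hball' : (BB : ℝ) * ((a : ℝ) ^ a * ((B : ℝ) - a) ^ (B - a)) ^ n ≤ Y ^ n := by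
    have h1 : B * n - a * n = (B - a) * n := (Nat.sub_mul _ _ _).symm
    have h2 : a + (B - a) = B := by omega
    rw [h1, h2] at hball
    have h3 : ((BB * (a ^ (a * n) * (B - a) ^ ((B - a) * n)) : ℕ) : ℝ) ≤ ((B ^ (B * n) : ℕ) : ℝ) := by
      exact_mod_cast hball
    push_cast [Nat.cast_sub haB.le] at h3
    rw [hY, mul_pow, ← pow_mul, ← pow_mul, ← pow_mul]
    exact h3
  have hW' : (2 : ℝ) ^ (κ * n) ≤ Fintype.card W := by
    rw [← Nat.card_eq_fintype_card]
    exact_mod_cast hW
  have hP0 : (0 : ℝ) < ((a : ℝ) ^ a * ((B : ℝ) - a) ^ (B - a)) ^ n := by positivity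
  have hfin : δ / 2 * n * X ^ n ≤ 2 * (u * n) * Y ^ n := by
    have h1 : δ / 2 * n * (2 : ℝ) ^ (κ * n) ≤ 2 * (u * n) * BB := by
      have h2 : δ / 2 * n ≤ lam - ((B * n : ℕ) : ℝ) + 2 * ((u * n : ℕ) : ℝ) := by
        push_cast
        linarith
      have h3 : δ / 2 * n * (2 : ℝ) ^ (κ * n) ≤
          (lam - ((B * n : ℕ) : ℝ) + 2 * ((u * n : ℕ) : ℝ)) * Fintype.card W :=
        mul_le_mul h2 hW' (by positivity) (le_trans (by positivity) h2)
      refine h3.trans (hmain.trans (le_of_eq ?_))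
      push_cast
      ring
    have h4 : X ^ n = (2 : ℝ) ^ (κ * n) * ((a : ℝ) ^ a * ((B : ℝ) - a) ^ (B - a)) ^ n := by
      rw [hX, mul_pow, ← pow_mul]
    calc δ / 2 * n * X ^ n = (δ / 2 * n * (2 : ℝ) ^ (κ * n)) *
          ((a : ℝ) ^ a * ((B : ℝ) - a) ^ (B - a)) ^ n := by rw [h4]; ring
      _ ≤ (2 * (u * n) * BB) * ((a : ℝ) ^ a * ((B : ℝ) - a) ^ (B - a)) ^ n :=
          mul_le_mul_of_nonneg_right h1 hP0.le
      _ = 2 * (u * n) * (BB * ((a : ℝ) ^ a * ((B : ℝ) - a) ^ (B - a)) ^ n) := by ring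
      _ ≤ _ := mul_le_mul_of_nonneg_left hball' (by positivity)
  have h5 := hn2 n (by omega)
  rw [div_pow, div_lt_div_iff₀ hδ0 (by positivity)] at h5
  have hYn : 0 < Y ^ n := by positivity
  have h6 : 4 * (2 * (u : ℝ)) * Y ^ n ≥ δ * X ^ n * 2 := by
    have h7 : (δ / 2 * X ^ n) * n ≤ (2 * u * Y ^ n) * n := by linarith
    have h8 := le_of_mul_le_mul_right h7 hn0
    linarith
  have hXn : 0 < X ^ n := by positivity
  nlinarith

end Pool.Agent.FF.LP
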