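import Pool.Agent.FF.Blk
import Pool.Agent.FF.LPBlock

/-! # The block property from the first linear programming bound -/

set_option autoImplicit false

namespace Pool.Agent.FF

/-- **Linear programming bound**: `κ` bits and `B` coordinates per block give at most `u` unsplit
points per block, if `κ / B > H(a / B)` and `u / B > 1/2 - √(a (B - a)) / B`. -/
theorem blk_lp {B a κ u : ℕ} (ha : 0 < a) (h2a : 2 * a ≤ B)
    (hκ : B ^ B < 2 ^ κ * (a ^ a * (B - a) ^ (B - a))) (hu : 2 * u ≤ B)
    (hlt : (B - 2 * u) ^ 2 < 4 * a * (B - a)) : Blk B κ (u : ℝ) := by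
  obtain ⟨n₀, h⟩ := LP.lp_block B a κ u ha h2a hκ hu hlt
  intro η hη
  refine ⟨n₀, fun n hn => ⟨u * n, ?_, ?_⟩⟩
  · push_cast
    have : 0 ≤ η * n := by positivity
    linarith
  · intro ι _ _ hι W _ _ φ hW
    exact h n hn ι W φ hι hW

end Pool.Agent.FF
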