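import Pool.Agent.FF.Bomb

/-! Bombieri's bound twisted by an endomorphism which moves the reference place. -/

set_option autoImplicit false

namespace Pool.Agent.FF

section

variable {k F : Type*} [Field k] [Field F] [Algebra k F]

/-- the functions with a pole of order at most `a` at `R`, at most `b` at `R₂`, and no other pole -/
def LRR (R R₂ : DV F) (a b : ℕ) : Set F :=
  {x | R.G (-a) x ∧ R₂.G (-b) x ∧ ∀ v : DV F, v ≠ R → v ≠ R₂ → v.G 0 x}

theorem LRR_sum {R R₂ : DV F} {a b : ℕ} {ι : Type*} (T : Finset ι) (f : ι → F)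
    (h : ∀ i ∈ T, f i ∈ LRR R R₂ a b) : ∑ i ∈ T, f i ∈ LRR R R₂ a b :=
  ⟨G_sum _ _ fun i hi => (h i hi).1, G_sum _ _ fun i hi => (h i hi).2.1,
    fun v h1 h2 => G_sum _ _ fun i hi => (h i hi).2.2 v h1 h2⟩

theorem LRR_mul {R R₂ : DV F} (hne : R₂ ≠ R) {a b : ℕ} {x y : F} (hx : x ∈ LR R a)
    (hy : y ∈ LR R₂ b) : x * y ∈ LRR R R₂ a b :=
  ⟨(hx.1.mul (hy.2 R (Ne.symm hne))).mono (by simp), ((hx.2 R₂ hne).mul hy.1).mono (by simp),
    fun v h1 h2 => by simpa using (hx.2 v h1).mul (hy.2 v h2)⟩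

theorem LRR_finite_card [Finite k] {R R₂ : DV F} (hR : Rt k R) (hR₂ : Rt k R₂)
    (hc : ∀ a : F, (∀ v : DV F, v.G 0 a) → ∃ c : k, a = algebraMap k F c) (a b : ℕ) :
    (LRR R R₂ a b).Finite ∧ Nat.card (LRR R R₂ a b) ≤ Nat.card k ^ (a + b + 1) := by
  classical
  induction b with
  | zero =>
    have h0 : LRR R R₂ a 0 ⊆ LR R a := by
      rintro x ⟨h1, h2, h3⟩
      refine ⟨h1, fun v hv => ?_⟩
      by_cases hv2 : v = R₂
      · rw [hv2]; simpa using h2
      · exact h3 v hv hv2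
    obtain ⟨hf, hcd⟩ := LR_finite_card hR hc a
    refine ⟨hf.subset h0, (Nat.card_mono hf h0).trans (hcd.trans ?_)⟩
    exact Nat.pow_le_pow_right Nat.card_pos (TT_card_le R a)
  | succ b ih =>
    obtain ⟨ih1, ih2⟩ := ih
    by_cases hp : ∃ u : F, u ∈ LRR R R₂ a (b + 1) ∧ u ≠ 0 ∧ R₂.ord u = -((b + 1 : ℕ) : ℤ)
    · obtain ⟨u, hu, hu0, hu1⟩ := hp
      have hsub : LRR R R₂ a (b + 1) ⊆ (fun p : k × F => algebraMap k F p.1 * u + p.2) ''
          (Set.univ ×ˢ LRR R R₂ a b) := by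
        intro x hx
        have h1 : R₂.G 0 (x / u) := by
          rw [div_eq_mul_inv]
          have h2 : R₂.G ((b + 1 : ℕ) : ℤ) u⁻¹ := DV.G_of_le (by rw [R₂.ord_inv hu0, hu1]; simp)
          exact (hx.2.1.mul h2).mono (by simp)
        obtain ⟨c, hc⟩ := hR₂ _ h1
        refine ⟨(c, x - algebraMap k F c * u), ⟨Set.mem_univ _, ⟨?_, ?_, ?_⟩⟩, by simp⟩
        · refine hx.1.sub ?_
          simpa using (G0_algebraMap R c).mul hu.1
        · have h3 : x - algebraMap k F c * u = (x / u - algebraMap k F c) * u := by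
            field_simp
          rw [h3]
          exact (hc.mul (DV.G_ord u)).mono (by rw [hu1]; push_cast; omega)
        · intro v hv hv2
          refine (hx.2.2 v hv hv2).sub ?_
          simpa using (G0_algebraMap v c).mul (hu.2.2 v hv hv2)
      have hfin : ((fun p : k × F => algebraMap k F p.1 * u + p.2) ''
          (Set.univ ×ˢ LRR R R₂ a b)).Finite := (Set.finite_univ.prod ih1).image _
      refine ⟨hfin.subset hsub, ?_⟩
      calc Nat.card (LRR R R₂ a (b + 1)) ≤ _ := Nat.card_mono hfin hsub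
        _ ≤ Nat.card ((Set.univ : Set k) ×ˢ LRR R R₂ a b : Set (k × F)) :=
          Nat.card_image_le (Set.finite_univ.prod ih1)
        _ = Nat.card k * Nat.card (LRR R R₂ a b) := by
          rw [Nat.card_congr (Equiv.Set.prod _ _), Nat.card_prod, Nat.card_univ]
        _ ≤ Nat.card k * Nat.card k ^ (a + b + 1) := Nat.mul_le_mul_left _ ih2
        _ = Nat.card k ^ (a + (b + 1) + 1) := by ring
    · have hsub : LRR R R₂ a (b + 1) ⊆ LRR R R₂ a b := by
        intro x hx
        by_cases hx0 : x = 0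
        · rw [hx0]
          exact ⟨DV.G_zero _, DV.G_zero _, fun _ _ _ => DV.G_zero _⟩
        refine ⟨hx.1, DV.G_of_le ?_, hx.2.2⟩
        by_contra hlt
        push Not at hlt
        refine hp ⟨x, hx, hx0, le_antisymm ?_ ?_⟩
        · push_cast; omega
        · exact hx.2.1.le hx0
      refine ⟨ih1.subset hsub, (Nat.card_mono ih1 hsub).trans (ih2.trans ?_)⟩
      exact Nat.pow_le_pow_right Nat.card_pos (by omega)

end

/-- **Bombieri's bound, twisted by `τ`**, where `τ` maps the spaces `L (n R)` to the spaces `L (n R₂)`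
of another rational place. -/
theorem bombieri₂ {k F : Type*} [Field k] [Finite k] [Field F] [Algebra k F] [CharP F 2]
    {dg : DV F → ℕ} {R R₂ : DV F} (hne : R₂ ≠ R) (hR₂ : Rt k R₂) {g : ℕ} (h : RRone k dg R g)
    (τ : F →+* F) (hτ : ∀ n, ∀ x ∈ LR R n, τ x ∈ LR R₂ n) {e s : ℕ} (hs : s = 2 ^ e)
    (hg : (g + 1) * (g + 2) ≤ s) (S : Finset (DV F))
    (hS : ∀ v ∈ S, v ≠ R ∧ v ≠ R₂ ∧ ∀ n, ∀ x ∈ LR R n, v.G 1 (x ^ s ^ 2 - τ x)) :
    ∑ v ∈ S, dg v + 1 ≤ s ^ 2 + (2 * g + 1) * s := by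
  classical
  have hs1 : 1 ≤ s := by rw [hs]; exact Nat.one_le_two_pow
  obtain ⟨m, rfl⟩ : ∃ m, s = m + 1 := ⟨s - 1, by omega⟩
  set s := m + 1 with hsm
  set n := s + 2 * g with hn
  have hcard1 : 1 < Nat.card k := Finite.one_lt_card
  -- the functions `u i`
  have hu : ∀ i : TT R m, ∃ u : F, u ∈ LR R i ∧ u ≠ 0 ∧ R.ord u = -(i : ℕ) := fun i =>
    (Finset.mem_filter.1 i.2).2
  choose u hu1 hu2 hu3 using hu
  have him : ∀ i : TT R m, (i : ℕ) ≤ m := fun i => by
    have := Finset.mem_range.1 (Finset.mem_filter.1 i.2).1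
    omega
  obtain ⟨hfn, -⟩ := LR_finite_card h.rat h.const n
  obtain ⟨hfN, hcN⟩ := LRR_finite_card h.rat hR₂ h.const (s * m) n
  have : Finite (LR R n) := hfn
  have : Finite (LRR R R₂ (s * m) n) := hfN
  -- the map `ψ`
  have hψ : ∀ z : TT R m → LR R n, ∑ i, u i ^ s * τ (z i : F) ∈ LRR R R₂ (s * m) n := fun z =>
    LRR_sum _ _ fun i _ => LRR_mul hne (LR_mono (LR_pow (hu1 i) s) (Nat.mul_le_mul_left s (him i)))
      (hτ _ _ (z i).2)
  let ψ : (TT R m → LR R n) → LRR R R₂ (s * m) n := fun z => ⟨_, hψ z⟩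
  have hlt : Nat.card (LRR R R₂ (s * m) n) < Nat.card (TT R m → LR R n) := by
    have h1 : Nat.card (TT R m → LR R n) = Nat.card (LR R n) ^ (TT R m).card := by
      rw [Nat.card_fun, Nat.card_eq_fintype_card (α := TT R m), Fintype.card_coe]
    have h2 : Nat.card k ^ (n + 1 - g) ≤ Nat.card (LR R n) := by
      have h3 := h.lower n
      have h4 : n + 1 = g + (n + 1 - g) := by omega
      rw [h4, pow_add] at h3
      exact Nat.le_of_mul_le_mul_left h3 (by positivity)
    have h3 : m + 1 - g ≤ (TT R m).card := by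
      have := h.le_TT m
      omega
    have h4 : (s * m + n) + 1 < (n + 1 - g) * (m + 1 - g) := by
      obtain ⟨d, hd⟩ : ∃ d, s = (g + 1) * (g + 2) + d := ⟨s - (g + 1) * (g + 2), by omega⟩
      have e0 : (g + 1) * (g + 2) = g * g + 3 * g + 2 := by ring
      have e1 : n + 1 - g = s + g + 1 := by omega
      obtain ⟨c, hc⟩ : ∃ c, s = g + c := ⟨s - g, by omega⟩
      have e2 : m + 1 - g = c := by omega
      rw [e1, e2]
      have e3 : s * m + s = s * s := by rw [hsm]; ring
      have e4 : s * m + n + 1 = s * s + 2 * g + 1 := by omega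
      have hc2 : c = g * g + 2 * g + 2 + d := by omega
      rw [e4, hc, hc2]
      nlinarith
    calc Nat.card (LRR R R₂ (s * m) n) ≤ Nat.card k ^ (s * m + n + 1) := hcN
      _ < Nat.card k ^ ((n + 1 - g) * (m + 1 - g)) := Nat.pow_lt_pow_right hcard1 h4
      _ = (Nat.card k ^ (n + 1 - g)) ^ (m + 1 - g) := by rw [pow_mul]
      _ ≤ (Nat.card (LR R n)) ^ (m + 1 - g) := Nat.pow_le_pow_left h2 _
      _ ≤ (Nat.card (LR R n)) ^ (TT R m).card := by
        refine Nat.pow_le_pow_right ?_ h3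
        exact lt_of_lt_of_le (by positivity) h2
      _ = _ := h1.symm
  have hnotinj : ¬ Function.Injective ψ := fun hinj =>
    absurd (Nat.card_le_card_of_injective ψ hinj) (by omega)
  simp only [Function.Injective, not_forall] at hnotinj
  obtain ⟨z1, z2, hz, hne⟩ := hnotinj
  -- the difference
  let z : TT R m → F := fun i => (z1 i : F) - z2 i
  have hzL : ∀ i, z i ∈ LR R n := fun i => LR_sub (z1 i).2 (z2 i).2
  have hz0 : ∑ i, u i ^ s * τ (z i) = 0 := by
    have := congrArg Subtype.val hz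
    simp only [ψ] at this
    simp only [z, map_sub, mul_sub, Finset.sum_sub_distrib]
    rw [this, sub_self]
  have hzne : ∃ i, z i ≠ 0 := by
    by_contra hall
    push Not at hall
    exact hne (funext fun i => Subtype.ext (sub_eq_zero.1 (hall i)))
  -- the function `x`
  set x : F := ∑ i, u i * z i ^ s with hx
  have hxL : x ∈ LR R (m + s * n) := LR_sum _ _ fun i _ =>
    LR_mono (LR_mul (hu1 i) (LR_pow (hzL i) s)) (by have := him i; omega)
  have hx0 : x ≠ 0 := by
    have h1 : x = ∑ i ∈ Finset.univ.filter (fun i => z i ≠ 0), u i * z i ^ s := by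
      rw [hx, Finset.sum_filter]
      refine Finset.sum_congr rfl fun i _ => ?_
      by_cases hi : z i = 0
      · rw [if_neg (by simpa using hi), hi, zero_pow (by omega), mul_zero]
      · rw [if_pos hi]
    rw [h1]
    refine sum_ne_zero_of_ord (P := R) _ _ ?_ ?_ ?_
    · obtain ⟨i, hi⟩ := hzne
      exact ⟨i, by simpa using hi⟩
    · intro i hi
      exact mul_ne_zero (hu2 i) (pow_ne_zero _ (Finset.mem_filter.1 hi).2)
    · intro i hi j hj hij heq
      have hi0 := (Finset.mem_filter.1 hi).2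
      have hj0 := (Finset.mem_filter.1 hj).2
      rw [R.ord_mul _ _ (hu2 i) (pow_ne_zero _ hi0), R.ord_mul _ _ (hu2 j) (pow_ne_zero _ hj0),
        R.ord_pow hi0, R.ord_pow hj0, hu3, hu3] at heq
      have h2 : ((i : ℕ) : ℤ) - (j : ℕ) = s * (R.ord (z i) - R.ord (z j)) := by linarith
      have h3 : ((i : ℕ) : ℤ) - (j : ℕ) = 0 := by
        have hdvd : (s : ℤ) ∣ ((i : ℕ) : ℤ) - (j : ℕ) := ⟨_, h2⟩
        have hi' := him i
        have hj' := him j
        refine Int.eq_zero_of_abs_lt_dvd hdvd ?_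
        rw [abs_lt]
        constructor <;> omega
      exact hij (Subtype.ext (by omega))
  -- it vanishes at all places of `S`
  have hzero : ∀ P ∈ S, P.G 1 x := by
    intro P hP
    obtain ⟨hPR, -, hc⟩ := hS P hP
    have h1 : P.G 1 (∑ i, (u i ^ s * z i ^ s ^ 2 - u i ^ s * τ (z i))) := by
      refine G_sum _ _ fun i _ => ?_
      rw [← mul_sub]
      have h2 := ((hu1 i).2 P hPR).pow s
      exact (h2.mul (hc n (z i) (hzL i))).mono (by simp)
    rw [Finset.sum_sub_distrib, hz0, sub_zero] at h1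
    have h3 : x ^ s = ∑ i, u i ^ s * z i ^ s ^ 2 := by
      rw [hx, hs, sum_pow_char_pow, ← hs]
      refine Finset.sum_congr rfl fun i _ => ?_
      rw [mul_pow, ← pow_mul, sq]
    rw [← h3] at h1
    by_contra hcon
    have hlt := (DV.not_G hx0).1 hcon
    have h4 := h1.le (pow_ne_zero _ hx0)
    rw [P.ord_pow hx0] at h4
    have h5 : P.ord x ≤ 0 := by omega
    have : (s : ℤ) * P.ord x ≤ 0 := mul_nonpos_of_nonneg_of_nonpos (by positivity) h5
    omega
  have hfinal := h.zeros _ x hxL hx0 S fun v hv => ⟨(hS v hv).1, hzero v hv⟩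
  have h7 : m + s * n + 1 = s ^ 2 + (2 * g + 1) * s := by
    rw [hn]
    have : s * (s + 2 * g) = s ^ 2 + 2 * g * s := by ring
    have : (2 * g + 1) * s = 2 * g * s + s := by ring
    omega
  omega

end Pool.Agent.FF
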