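import Pool.Agent.FF.Tower6
import Pool.Agent.FF.Cover

/-! The tower of Artin–Schreier double covers: genus, obstruction, rational points. -/

set_option autoImplicit false

namespace Pool.Agent.FF

open Finset

section ob

variable {k : Type*} [Field k] [Finite k]

theorem Ob.base : Ob (RatFunc k) 0 := by
  intro r hr
  refine ⟨0, 1, by decide, 0, ?_⟩
  have h : (r 0 - r 1) ∈ Adl (RatFunc k) := AddSubgroup.sub_mem _ (hr 0) (hr 1)
  obtain ⟨g, hg⟩ := Rat.genus_zero (fun v => r 0 v - r 1 v) h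
  refine ⟨-g, AddSubgroup.zero_mem _, fun v => ?_⟩
  have := hg v
  have e : r 0 v - r 1 v + wpA (0 : DV (RatFunc k) → RatFunc k) v + -g = r 0 v - r 1 v - g := by
    simp only [wpA, Pi.zero_apply]
    ring
  rw [e]
  exact this

end ob

/-- The closed form of the bounds for the genus and the obstruction at stage `(n, i)`. -/
def Bd (l e μ n i g : ℕ) : Prop :=
  g + e * (2 ^ i * l ^ ((n - 1) / 2) + l ^ (n / 2)) ≤ μ * l ^ (n - 1) * 2 ^ i + 1

theorem Bd.half {l e μ n i g g' : ℕ} (h : Bd l e μ n i g)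
    (hg : g' + 1 ≤ 2 * g + e * l ^ (n / 2)) : Bd l e μ n (i + 1) g' := by
  unfold Bd at *
  rw [pow_succ]
  nlinarith

theorem Bd.up {l e μ n g a : ℕ} (hl : l = 2 ^ a) (hn : 1 ≤ n) (h : Bd l e μ n a g) :
    Bd l e μ (n + 1) 0 g := by
  unfold Bd at *
  have h1 : (n + 1) / 2 = (n - 1) / 2 + 1 := by omega
  have h2 : n + 1 - 1 = (n - 1) + 1 := by omega
  have h3 : (n + 1 - 1) / 2 = n / 2 := by rw [Nat.add_sub_cancel]
  rw [h3, h1, h2, pow_succ, pow_succ, pow_zero]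
  rw [← hl] at h
  calc g + e * (1 * l ^ (n / 2) + l ^ ((n - 1) / 2) * l)
      = g + e * (l * l ^ ((n - 1) / 2) + l ^ (n / 2)) := by ring
    _ ≤ μ * l ^ (n - 1) * l + 1 := h
    _ = μ * (l ^ (n - 1) * l) * 1 + 1 := by ring

theorem Bd.le {l e μ n i g : ℕ} (h : Bd l e μ n i g) : g ≤ μ * l ^ (n - 1) * 2 ^ i + 1 :=
  (Nat.le_add_right _ _).trans h

section chain

variable {k : Type} [Field k] [Finite k] [CharP k 2]

/-- One double step of the tower, for use in inductions along the tower. -/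
structure DStep (k : Type) [Field k] (K K' : Type) [Field K] [Field K'] [Algebra k K] [Algebra k K']
    [Algebra K K'] (f : K) (g g' : ℕ) (D : DV K → ℕ) (b : DV K → K) (B : Finset (DV K)) : Prop where
  cv : Cv k K g
  cv' : Cv k K' g'
  nf : NF f D b
  mem : ∀ v, v ∈ B ↔ D v ≠ 0
  deg : ∑ v ∈ B, v.deg (Nat.card k) ≤ g' + 1
  rat : ∃ v ∈ B, v.Rat k
  eq : g' + 1 = 2 * g + ∑ᶠ v, D v * v.deg (Nat.card k)

/-- The state of the induction at stage `(n, i)`. -/
def St (c : ℕ → k) (a m n i : ℕ) (P : (K : Type) → [Field K] → [Algebra k K] → Prop) : Prop :=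
  ∃ (K : Type) (_ : Field K) (_ : Algebra k K) (_ : CharP K 2) (x : TD K) (g o : ℕ),
    Inv c a m n i x ∧ IsFF k K ∧ Cv k K g ∧ Ob K o ∧
    InvS c a n i x (m * (2 ^ a - 1) * ((2 ^ a) ^ (n - 1) * 2 ^ i)) ∧
    Bd (2 ^ a) ((m + 1) / 2) m n i g ∧ Bd (2 ^ a) 1 1 n i o ∧ P K

theorem St.up {c : ℕ → k} {a m n : ℕ} {P : (K : Type) → [Field K] → [Algebra k K] → Prop}
    (hk : Nat.card k = (2 ^ a) ^ 2) (hF : Flg c a) (hm : Odd m) (h : St c a m n a P) :
    St c a m (n + 1) 0 P := by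
  obtain ⟨K, _, _, _, x, g, o, hI, hFF, hC, hO, hS, hg, ho, hP⟩ := h
  refine ⟨K, ‹_›, ‹_›, ‹_›, levelUp a n x, g, o, hI.up hF hm, hFF, hC, hO, ?_,
    hg.up rfl hI.n1, ho.up rfl hI.n1, hP⟩
  have h1 := hS.up hk hF
  have h2 : m * (2 ^ a - 1) * ((2 ^ a) ^ (n + 1 - 1) * 2 ^ 0) =
      m * (2 ^ a - 1) * ((2 ^ a) ^ (n - 1) * 2 ^ a) := by
    have h3 : n + 1 - 1 = (n - 1) + 1 := by have := hI.n1; omega
    rw [h3, pow_succ, pow_zero, mul_one]
  rw [h2]
  exact h1

theorem St.half {c : ℕ → k} {a m n i : ℕ} {P P' : (K : Type) → [Field K] → [Algebra k K] → Prop}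
    (hF : Flg c a) (hm : Odd m) (hi : i < a)
    (hstep : ∀ (K : Type) [Field K] [Algebra k K] [CharP K 2] (K' : Type) [Field K'] [Algebra k K']
      [CharP K' 2] [Algebra K K'] [IsScalarTower k K K'] (f : K) (_ : AS K K' f) (g g' : ℕ)
      (D : DV K → ℕ) (b : DV K → K) (B : Finset (DV K)), DStep k K K' f g g' D b B →
      g' ≤ m * (2 ^ a) ^ (n - 1) * 2 ^ (i + 1) + 1 → P K → P' K')
    (h : St c a m n i P) : St c a m n (i + 1) P' := by
  classical
  obtain ⟨K, _, _, _, x, g, o, hI, hFF, hC, hO, hS, hg, ho, hP⟩ := h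
  obtain ⟨B, D, b, hNF, hB1, hB2, hBdeg, v₁, hv₁, hrat⟩ := hI.nf hF hm hi
  obtain ⟨K', _, _, ⟨S⟩⟩ := exists_AS (hI.irr hF hm hi)
  letI : Algebra k K' := ((algebraMap K K').comp (algebraMap k K)).toAlgebra
  haveI : IsScalarTower k K K' := IsScalarTower.of_algebraMap_eq fun _ => rfl
  haveI : CharP K' 2 := charP_of_injective_algebraMap (algebraMap K K').injective 2
  have he1 : 1 ≤ (m + 1) / 2 := by
    obtain ⟨r, hr⟩ := hm
    omega
  have hD1 : D v₁ ≠ 0 := by rw [hB1 v₁ hv₁]; omega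
  obtain ⟨g', hg', hC'⟩ := hC.double S hNF ⟨v₁, hD1⟩
  have hmem : ∀ v, v ∈ B ↔ D v ≠ 0 := fun v =>
    ⟨fun hv => by rw [hB1 v hv]; omega, fun hv => by by_contra h1; exact hv (hB2 v h1)⟩
  have hsum : ∑ᶠ v, D v * v.deg (Nat.card k) = (m + 1) / 2 * ∑ v ∈ B, v.deg (Nat.card k) := by
    rw [finsum_eq_sum_of_support_subset (s := B), mul_sum]
    · exact sum_congr rfl fun v hv => by rw [hB1 v hv]
    · intro v hv
      rw [Function.mem_support] at hv
      rw [mem_coe, hmem]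
      exact fun h0 => hv (by rw [h0, zero_mul])
  have hg'' := hg'
  rw [hsum] at hg'
  have hres : ∀ v : DV K, Nat.card v.Res = Nat.card k ^ v.deg (Nat.card k) := fun v => (hC.res v).2
  have hdeg1 : ∀ v : DV K, 1 ≤ v.deg (Nat.card k) := fun v => (hC.res v).1
  have hfin : ∀ v : DV K, Finite v.Res := by
    intro v
    apply Nat.finite_of_card_ne_zero
    rw [hres v]
    exact pow_ne_zero _ Nat.card_pos.ne'
  have hBcard : Nat.card {v : DV K | D v ≠ 0} = B.card := by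
    have : {v : DV K | D v ≠ 0} = (B : Set (DV K)) := by
      ext v
      rw [mem_coe, hmem]
      rfl
    rw [this]
    simp
  have hBle : B.card ≤ (2 ^ a) ^ (n / 2) := by
    refine le_trans ?_ hBdeg
    rw [card_eq_sum_ones]
    exact sum_le_sum fun v _ => hdeg1 v
  have hBpos : 1 ≤ B.card := card_pos.2 ⟨v₁, hv₁⟩
  have hO' := Ob.up S hNF hC.poles hfin hD1 hrat hO
  rw [hBcard] at hO'
  have hBg : ∑ v ∈ B, v.deg (Nat.card k) ≤ g' + 1 := by
    rw [hg']
    calc ∑ v ∈ B, v.deg (Nat.card k) = 1 * ∑ v ∈ B, v.deg (Nat.card k) := (one_mul _).symm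
      _ ≤ (m + 1) / 2 * ∑ v ∈ B, v.deg (Nat.card k) := Nat.mul_le_mul_right _ he1
      _ ≤ _ := Nat.le_add_left _ _
  have hgB : Bd (2 ^ a) ((m + 1) / 2) m n (i + 1) g' := by
    refine hg.half ?_
    rw [hg']
    exact Nat.add_le_add_left (Nat.mul_le_mul_left _ hBdeg) _
  refine ⟨K', ‹_›, ‹_›, ‹_›, _, g', _, hI.half hF hm hi hres S, hFF.up hC' S, hC', hO', ?_, hgB, ?_,
    hstep K K' _ S g g' D b B ⟨hC, hC', hNF, hmem, hBg, ⟨v₁, hv₁, hrat⟩, hg''⟩ hgB.le hP⟩
  · have h1 := hS.half hF hi S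
    have h2 : m * (2 ^ a - 1) * ((2 ^ a) ^ (n - 1) * 2 ^ (i + 1)) =
        2 * (m * (2 ^ a - 1) * ((2 ^ a) ^ (n - 1) * 2 ^ i)) := by
      rw [pow_succ]; ring
    rw [h2]
    exact h1
  · refine ho.half ?_
    rw [one_mul]
    omega

/-- **The tower.** `P J K` is any property which can be carried along the double steps. -/
theorem chain {a m : ℕ} (ha : 1 ≤ a) (hk : Nat.card k = (2 ^ a) ^ 2) (hm : Odd m)
    (hml : m ∣ 2 ^ a + 1) (P : ℕ → (K : Type) → [Field K] → [Algebra k K] → Prop)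
    (h0 : P 0 (RatFunc k))
    (hstep : ∀ (J : ℕ) (K : Type) [Field K] [Algebra k K] [CharP K 2] (K' : Type) [Field K']
      [Algebra k K'] [CharP K' 2] [Algebra K K'] [IsScalarTower k K K'] (f : K) (_ : AS K K' f)
      (g g' : ℕ) (D : DV K → ℕ) (b : DV K → K) (B : Finset (DV K)), DStep k K K' f g g' D b B →
      g' ≤ m * 2 ^ (J + 1) + 1 → P J K → P (J + 1) K') (J : ℕ) :
    ∃ (K : Type) (_ : Field K) (_ : Algebra k K) (_ : CharP K 2) (g o : ℕ),
      IsFF k K ∧ Cv k K g ∧ g ≤ m * 2 ^ J + 1 ∧ Ob K o ∧ o ≤ 2 ^ J + 1 ∧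
      (∃ T : Finset (DV K), m * (2 ^ a - 1) * 2 ^ J ≤ T.card ∧ ∀ v ∈ T, v.Rat k) ∧ P J K := by
  cases nonempty_fintype k
  have hk' : Fintype.card k = (2 ^ a) ^ 2 := by rw [← Nat.card_eq_fintype_card, hk]
  obtain ⟨c, cv, h1, h2, h3, h4⟩ := exists_flag hk' ha
  have hF : Flg c a := ⟨ha, ⟨cv, h1, h2⟩, h3, h4⟩
  have main : ∀ J, ∃ n i, i < a ∧ 1 ≤ n ∧ (n - 1) * a + i = J ∧ St c a m n i (P J) := by
    intro J
    induction J with
    | zero =>
      refine ⟨1, 0, ha, le_rfl, by simp, ?_⟩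
      haveI : CharP (RatFunc k) 2 :=
        charP_of_injective_algebraMap (algebraMap k (RatFunc k)).injective 2
      refine ⟨RatFunc k, inferInstance, inferInstance, inferInstance, TD.base k m, 0, 0,
        Inv.base hF hm, Rat.isFF k, Rat.cv, Ob.base, ?_, ?_, ?_, h0⟩
      · have := InvS.base hk hF hml
        simpa using this
      · unfold Bd
        obtain ⟨r, hr⟩ := hm
        have : (m + 1) / 2 = r + 1 := by omega
        rw [this, hr]
        simp
        omega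
      · unfold Bd
        simp
    | succ J ih =>
      obtain ⟨n, i, hi, hn, hJ, hSt⟩ := ih
      have hpow : m * (2 ^ a) ^ (n - 1) * 2 ^ (i + 1) = m * 2 ^ (J + 1) := by
        rw [mul_assoc, ← pow_mul, ← pow_add, ← hJ]
        congr 2
        ring
      have h5 : St c a m n (i + 1) (P (J + 1)) := by
        refine hSt.half hF hm hi ?_
        intro K _ _ _ K' _ _ _ _ _ f S g g' D b B hD hg hP
        refine hstep J K K' f S g g' D b B hD ?_ hP
        rwa [hpow] at hg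
      by_cases h6 : i + 1 = a
      · refine ⟨n + 1, 0, ha, by omega, ?_, ?_⟩
        · rw [← hJ]
          have h7 : n + 1 - 1 = (n - 1) + 1 := by omega
          rw [h7, add_mul, one_mul]
          omega
        · rw [h6] at h5
          exact h5.up hk hF hm
      · exact ⟨n, i + 1, by omega, hn, by omega, h5⟩
  obtain ⟨n, i, hi, hn, hJ, K, _, _, _, x, g, o, hI, hFF, hC, hO, hS, hg, ho, hP⟩ := main J
  have hpow : (2 ^ a) ^ (n - 1) * 2 ^ i = 2 ^ J := by
    rw [← pow_mul, ← pow_add, ← hJ]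
    congr 1
    ring
  refine ⟨K, ‹_›, ‹_›, ‹_›, g, o, hFF, hC, ?_, hO, ?_, ?_, hP⟩
  · have := hg.le
    rwa [mul_assoc, hpow] at this
  · have := ho.le
    rwa [one_mul, hpow] at this
  · obtain ⟨T, hT, hT'⟩ := hS
    rw [hpow] at hT
    exact ⟨T, hT, fun v hv => (hT' v hv).1⟩

end chain

end Pool.Agent.FF
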