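import Pool.Agent.FF.Chain
import Pool.Agent.FF.DegR

/-! The tower with places of every large degree. -/

set_option autoImplicit false

namespace Pool.Agent.FF

theorem chainPl {k : Type} [Field k] [Finite k] [CharP k 2] {a m : ℕ} (ha : 1 ≤ a)
    (hk : Nat.card k = (2 ^ a) ^ 2) (hm : Odd m) (hml : m ∣ 2 ^ a + 1) (J : ℕ) :
    ∃ (K : Type) (_ : Field K) (_ : Algebra k K) (_ : CharP K 2) (g o C : ℕ),
      IsFF k K ∧ Cv k K g ∧ g ≤ m * 2 ^ J + 1 ∧ Ob K o ∧ o ≤ 2 ^ J + 1 ∧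
      (∃ T : Finset (DV K), m * (2 ^ a - 1) * 2 ^ J ≤ T.card ∧ ∀ v ∈ T, v.Rat k) ∧
      C + 7 ≤ 2 ^ J * (4 * m * J + 7) ∧
      HasPl k K ((m * 2 ^ J + 2) * (m * 2 ^ J + 3)) C (2 ^ J) := by
  obtain ⟨K, h1, h2, h3, g, o, h4, h5, h6, h7, h8, h9, C, h10, h11⟩ := chain ha hk hm hml
    (fun J K _ _ => ∃ C, C + 7 ≤ 2 ^ J * (4 * m * J + 7) ∧
      HasPl k K ((m * 2 ^ J + 2) * (m * 2 ^ J + 3)) C (2 ^ J))
    ⟨0, by simp, (HasPl.base k).mono (Nat.zero_le _) le_rfl (by simp)⟩ (by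
      intro J K _ _ _ K' _ _ _ _ _ f S g g' D b B hD hg hP
      obtain ⟨C, hC, hPl⟩ := hP
      obtain ⟨v, hv, hrat⟩ := hD.rat
      have h := HasPl.up hD.cv hD.cv' S hD.nf hrat ((hD.mem v).1 hv) hD.eq hPl
      refine ⟨_, const_rec hC hg, h.mono ?_ le_rfl (by rw [pow_succ]; omega)⟩
      have h1 : m * 2 ^ J ≤ m * 2 ^ (J + 1) :=
        Nat.mul_le_mul_left _ (Nat.pow_le_pow_right (by norm_num) (by omega))
      refine max_le (Nat.mul_le_mul (by omega) (by omega)) (Nat.mul_le_mul (by omega) (by omega))) J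
  exact ⟨K, h1, h2, h3, g, o, C, h4, h5, h6, h7, h8, h9, h10, h11⟩

end Pool.Agent.FF
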