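import Pool.Agent.FF.Tower6
import Pool.Agent.FF.Cover

/-! Extension of ring homomorphisms to one level `K (z)`, `z ^ l + z = f`, of the tower. -/

set_option autoImplicit false

namespace Pool.Agent.FF

open Polynomial

section ext

variable {K L : Type*} [Field K] [Field L] [Algebra K L] [CharP K 2] {a : ℕ} {z : L} {f : K}

/-- The minimal polynomial of a level. -/
theorem level_minpoly (ha : 1 ≤ a) (hz : IntermediateField.adjoin K {z} = ⊤)
    (hd : Module.finrank K L = 2 ^ a) (hf : z ^ (2 ^ a) + z = algebraMap K L f) :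
    minpoly K z = X ^ (2 ^ a) + X + C f := by
  have hl : 2 ≤ 2 ^ a := by
    calc 2 = 2 ^ 1 := (pow_one 2).symm
      _ ≤ 2 ^ a := Nat.pow_le_pow_right (by norm_num) ha
  have hfin : FiniteDimensional K L := Module.finite_of_finrank_pos (by rw [hd]; positivity)
  have hint : IsIntegral K z := IsIntegral.of_finite K z
  have two : (2 : L) = 0 := by
    have h2 : (2 : K) = 0 := CharTwo.two_eq_zero
    have : algebraMap K L 2 = 0 := by rw [h2, map_zero]
    rwa [map_ofNat] at this
  have hdeg : (X + C f : K[X]).degree < (X ^ (2 ^ a) : K[X]).degree := by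
    rw [degree_X_pow]
    refine lt_of_le_of_lt (degree_X_add_C f).le ?_
    exact_mod_cast (by omega : 1 < 2 ^ a)
  have hmon : (X ^ (2 ^ a) + X + C f : K[X]).Monic := by
    rw [add_assoc]
    exact (monic_X_pow _).add_of_left hdeg
  have hnat : (X ^ (2 ^ a) + X + C f : K[X]).natDegree = 2 ^ a := by
    rw [add_assoc, natDegree_add_eq_left_of_degree_lt hdeg, natDegree_X_pow]
  have hmin : (minpoly K z).natDegree = 2 ^ a := by
    rw [← IntermediateField.adjoin.finrank hint, hz, IntermediateField.finrank_top', hd]
  have hdvd : minpoly K z ∣ X ^ (2 ^ a) + X + C f := by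
    apply minpoly.dvd
    simp only [map_add, map_pow, aeval_X, aeval_C]
    rw [hf]
    linear_combination (algebraMap K L f) * two
  exact (eq_of_monic_of_dvd_of_natDegree_le (minpoly.monic hint) hmon hdvd
    (by rw [hnat, hmin])).symm

/-- A ring homomorphism on `K` extends to the level `L = K (z)`. -/
theorem level_ext (ha : 1 ≤ a) (hz : IntermediateField.adjoin K {z} = ⊤)
    (hd : Module.finrank K L = 2 ^ a) (hf : z ^ (2 ^ a) + z = algebraMap K L f)
    (σ : K →+* K) (t : L) (ht : t ^ (2 ^ a) + t = algebraMap K L (σ f)) :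
    ∃ σ' : L →+* L, (∀ c : K, σ' (algebraMap K L c) = algebraMap K L (σ c)) ∧ σ' z = t := by
  have hfin : FiniteDimensional K L := Module.finite_of_finrank_pos (by rw [hd]; positivity)
  have hint : IsIntegral K z := IsIntegral.of_finite K z
  have two : (2 : L) = 0 := by
    have h2 : (2 : K) = 0 := CharTwo.two_eq_zero
    have : algebraMap K L 2 = 0 := by rw [h2, map_zero]
    rwa [map_ofNat] at this
  have hmin := level_minpoly ha hz hd hf
  let e₁ : AdjoinRoot (minpoly K z) ≃ₐ[K] IntermediateField.adjoin K {z} :=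
    IntermediateField.adjoinRootEquivAdjoin K hint
  let e₂ : IntermediateField.adjoin K {z} ≃ₐ[K] (⊤ : IntermediateField K L) :=
    IntermediateField.equivOfEq hz
  let e₃ : (⊤ : IntermediateField K L) ≃ₐ[K] L := IntermediateField.topEquiv
  let e : AdjoinRoot (minpoly K z) ≃ₐ[K] L := (e₁.trans e₂).trans e₃
  have he : e (AdjoinRoot.root _) = z := by
    have h1 : e₁ (AdjoinRoot.root _) = IntermediateField.AdjoinSimple.gen K z :=
      IntermediateField.adjoinRootEquivAdjoin_apply_root K hint
    change e₃ (e₂ (e₁ (AdjoinRoot.root _))) = z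
    rw [h1]
    rfl
  let φ : AdjoinRoot (minpoly K z) →+* L := AdjoinRoot.lift ((algebraMap K L).comp σ) t (by
    rw [hmin]
    simp only [eval₂_add, eval₂_pow, eval₂_X, eval₂_C, RingHom.comp_apply]
    rw [ht]
    linear_combination (algebraMap K L (σ f)) * two)
  refine ⟨φ.comp e.symm.toRingEquiv.toRingHom, fun c => ?_, ?_⟩
  · change φ (e.symm (algebraMap K L c)) = _
    rw [AlgEquiv.commutes]
    change φ (AdjoinRoot.of _ c) = _
    rw [AdjoinRoot.lift_of]
    rfl
  · change φ (e.symm z) = t
    have h1 : e.symm z = AdjoinRoot.root _ := by rw [AlgEquiv.symm_apply_eq]; exact he.symm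
    rw [h1, AdjoinRoot.lift_root]

/-- A ring homomorphism of `L = K (z)` fixing `K` and `z` is the identity. -/
theorem level_uniq (hz : IntermediateField.adjoin K {z} = ⊤) (τ : L →+* L)
    (h1 : ∀ c : K, τ (algebraMap K L c) = algebraMap K L c) (h2 : τ z = z) (x : L) : τ x = x := by
  let S : IntermediateField K L := (RingHom.eqLocusField τ (RingHom.id L)).toIntermediateField h1
  have h3 : IntermediateField.adjoin K {z} ≤ S := by
    rw [IntermediateField.adjoin_le_iff, Set.singleton_subset_iff]
    exact h2
  have hx : x ∈ IntermediateField.adjoin K {z} := by rw [hz]; trivial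
  exact h3 hx

/-- In an Artin–Schreier step everything is generated by any element whose square gives back the
generator of the previous step. -/
theorem adjoin_step {K₀ : Type*} [Field K₀] [Algebra K₀ K] [Algebra K₀ L] [IsScalarTower K₀ K L]
    {g : K} (S : AS K L g) {s : K} (hs : IntermediateField.adjoin K₀ {s} = ⊤) {c : K₀} (hc : c ≠ 0)
    (hsq : (algebraMap K₀ L c * S.y) ^ 2 + algebraMap K₀ L c * (algebraMap K₀ L c * S.y) =
      algebraMap K L s) :
    IntermediateField.adjoin K₀ {algebraMap K₀ L c * S.y} = ⊤ := by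
  set A := IntermediateField.adjoin K₀ {algebraMap K₀ L c * S.y} with hA
  have hy : algebraMap K₀ L c * S.y ∈ A := IntermediateField.mem_adjoin_simple_self _ _
  have hcA : algebraMap K₀ L c ∈ A := A.algebraMap_mem c
  have hc0 : algebraMap K₀ L c ≠ 0 := (_root_.map_ne_zero _).2 hc
  have hy' : S.y ∈ A := by
    have h1 : S.y = (algebraMap K₀ L c)⁻¹ * (algebraMap K₀ L c * S.y) := by
      field_simp
    rw [h1]
    exact A.mul_mem (A.inv_mem hcA) hy
  have hsA : algebraMap K L s ∈ A := by
    rw [← hsq]
    exact A.add_mem (_root_.pow_mem hy 2) (A.mul_mem hcA hy)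
  have hKA : ∀ x : K, algebraMap K L x ∈ A := by
    intro x
    let T : IntermediateField K₀ K := A.comap (IsScalarTower.toAlgHom K₀ K L)
    have h1 : IntermediateField.adjoin K₀ {s} ≤ T := by
      rw [IntermediateField.adjoin_le_iff, Set.singleton_subset_iff]
      exact hsA
    have hx : x ∈ IntermediateField.adjoin K₀ {s} := by rw [hs]; trivial
    exact h1 hx
  rw [eq_top_iff]
  intro x _
  rw [S.spec x]
  exact A.add_mem (hKA _) (A.mul_mem (hKA _) hy')

/-- The degree of an Artin–Schreier step. -/
theorem AS.finrank {g : K} (S : AS K L g) : Module.finrank K L = 2 := by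
  have hb : LinearIndependent K ![(1 : L), S.y] := by
    rw [LinearIndependent.pair_iff]
    intro s t hst
    have h1 : algebraMap K L s + algebraMap K L t * S.y = algebraMap K L 0 + algebraMap K L 0 * S.y := by
      rw [map_zero, zero_mul, add_zero, ← hst, Algebra.smul_def, Algebra.smul_def, mul_one]
    exact S.unique h1
  have hs : ⊤ ≤ Submodule.span K (Set.range ![(1 : L), S.y]) := by
    intro x _
    rw [S.spec x]
    have h0 : (1 : L) ∈ Submodule.span K (Set.range ![(1 : L), S.y]) :=
      Submodule.subset_span ⟨0, rfl⟩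
    have h1 : S.y ∈ Submodule.span K (Set.range ![(1 : L), S.y]) :=
      Submodule.subset_span ⟨1, rfl⟩
    refine Submodule.add_mem _ ?_ ?_
    · have := Submodule.smul_mem _ (S.a x) h0
      rwa [Algebra.smul_def, mul_one] at this
    · have := Submodule.smul_mem _ (S.b x) h1
      rwa [Algebra.smul_def] at this
  rw [Module.finrank_eq_card_basis (Module.Basis.mk hb hs)]
  rfl

end ext

end Pool.Agent.FF
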