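import Pool.Agent.FF.Chain
import Pool.Agent.FF.Sig1

/-! The tower of Artin–Schreier double covers, with properties of the data carried along. -/

set_option autoImplicit false

namespace Pool.Agent.FF

open Finset

section points

variable {k K K' : Type*} [Field k] [Finite k] [CharP k 2] [Field K] [Field K'] [Algebra k K]
  [Algebra k K'] [Algebra K K'] [IsScalarTower k K K'] [CharP K 2] {c : ℕ → k} {a m n i : ℕ} {x : TD K}

/-- Completely split places, with the residues of `w` and `z 2`. -/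
def PS' (c : ℕ → k) (a n i : ℕ) (v : DV K) (x : TD K) : Prop :=
  PS c a n i v x ∧ v.ord x.w = 0 ∧
    (2 ≤ n → ∃ γ : k, v.G 1 (x.z 2 - algebraMap k K γ) ∧ γ ^ (2 ^ a) + γ ≠ 0)

/-- At least `N` completely split places. -/
def InvS' (c : ℕ → k) (a n i : ℕ) (x : TD K) (N : ℕ) : Prop :=
  ∃ T : Finset (DV K), N ≤ T.card ∧ ∀ v ∈ T, PS' c a n i v x

theorem InvS'.half (hF : Flg c a) (hi : i < a) (hw : x.w ≠ 0)
    (S : AS K K' (stepGen (fun j => algebraMap k K (c j)) a i x)) {N : ℕ} (h : InvS' c a n i x N) :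
    InvS' c a n (i + 1)
      (halfNext (fun j => algebraMap k K' (c j)) a i (x.map (algebraMap K K')) S.y) (2 * N) := by
  classical
  obtain ⟨T, hT, hT'⟩ := h
  have key : ∀ v ∈ T, ∃ F : Finset (DV K'), F.card = 2 ∧ ∀ w ∈ F, Over w v ∧ PS' c a n (i + 1) w
      (halfNext (fun j => algebraMap k K' (c j)) a i (x.map (algebraMap K K')) S.y) := by
    intro v hv
    obtain ⟨g1, g2, g3⟩ := hT' v hv
    obtain ⟨w₁, w₂, hne, ho, h1, h2⟩ := g1.half hF hi S
    have ext : ∀ w : DV K', Over w v → (w.ord (algebraMap K K' x.w) = 0 ∧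
        (2 ≤ n → ∃ γ : k, w.G 1 (algebraMap K K' (x.z 2) - algebraMap k K' γ) ∧
          γ ^ (2 ^ a) + γ ≠ 0)) := by
      intro w hw'
      constructor
      · obtain ⟨e, -, he⟩ := hw'
        rw [he _ hw, g2, mul_zero]
      · intro hn
        obtain ⟨γ, hγ, hγ'⟩ := g3 hn
        refine ⟨γ, ?_, hγ'⟩
        have h3 := (hw'.G_one_iff _).2 hγ
        rwa [map_sub, ← IsScalarTower.algebraMap_apply] at h3
    refine ⟨{w₁, w₂}, card_pair hne, fun w hw => ?_⟩
    rw [mem_insert, mem_singleton] at hw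
    rcases hw with rfl | rfl
    · exact ⟨ho.1, h1, ext _ ho.1⟩
    · exact ⟨ho.2, h2, ext _ ho.2⟩
  choose! F hF1 hF2 using key
  refine ⟨T.biUnion F, ?_, fun w hw => ?_⟩
  · rw [card_biUnion]
    · rw [sum_congr rfl hF1, sum_const, smul_eq_mul]
      omega
    · intro v hv v' hv' hne
      change Disjoint (F v) (F v')
      rw [disjoint_left]
      intro w hw hw'
      exact hne ((hF2 v hv w hw).1.unique (hF2 v' hv' w hw').1)
  · obtain ⟨v, hv, hw⟩ := mem_biUnion.1 hw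
    exact (hF2 v hv w hw).2

theorem InvS'.up (hk : Nat.card k = (2 ^ a) ^ 2) (hF : Flg c a) (hn : 1 ≤ n) {N : ℕ}
    (h : InvS' c a n a x N) : InvS' c a (n + 1) 0 (levelUp a n x) N := by
  obtain ⟨T, hT, hT'⟩ := h
  refine ⟨T, hT, fun v hv => ?_⟩
  obtain ⟨g1, g2, g3⟩ := hT' v hv
  refine ⟨g1.up hk hF, g2, fun _ => ?_⟩
  by_cases h1 : n = 1
  · subst h1
    obtain ⟨-, ζ, hζ0, -, -, hs⟩ := g1
    rw [Nat.sub_self] at hs
    refine ⟨ζ, ?_, hζ0⟩
    have h2 : (levelUp a 1 x).z 2 = x.s := by simp [levelUp]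
    have h3 : x.s - algebraMap k K ζ = x.s + algebraMap k K ζ := by
      have two : (2 : K) = 0 := CharTwo.two_eq_zero
      linear_combination (-(algebraMap k K ζ)) * two
    rw [h2, h3]
    exact hs
  · have h2 : (levelUp a n x).z 2 = x.z 2 := by
      simp only [levelUp]; rw [Function.update_of_ne (by omega)]
    rw [h2]
    exact g3 (by omega)

theorem InvS'.base {c : ℕ → k} {a m : ℕ} (hk : Nat.card k = (2 ^ a) ^ 2) (hF : Flg c a)
    (hm : m ∣ 2 ^ a + 1) : InvS' c a 1 0 (TD.base k m) (m * (2 ^ a - 1)) := by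
  obtain ⟨T, hT, hT'⟩ := InvS.base (c := c) hk hF hm
  refine ⟨T, hT, fun v hv => ⟨hT' v hv, ?_, fun h => by omega⟩⟩
  obtain ⟨-, ζ, hζ0, -, hf, -⟩ := hT' v hv
  have hm0 : 0 < m := Nat.pos_of_dvd_of_pos hm (Nat.succ_pos _)
  change v.G 1 ((RatFunc.X : RatFunc k) ^ m + algebraMap k (RatFunc k) _) at hf
  have hX : (RatFunc.X : RatFunc k) ≠ 0 := RatFunc.X_ne_zero
  have two : (2 : RatFunc k) = 0 := by
    have h2 : (2 : k) = 0 := CharTwo.two_eq_zero
    have : algebraMap k (RatFunc k) 2 = 0 := by rw [h2, map_zero]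
    rwa [map_ofNat] at this
  set τ := ζ ^ (2 ^ a) + ζ with hτ
  have h1 := DV.ord_add_of_lt (v := v) (a := algebraMap k (RatFunc k) τ) ((map_ne_zero _).2 hζ0)
    (b := RatFunc.X ^ m + algebraMap k (RatFunc k) τ) (by rw [v.ord_algebraMap hζ0, zero_add]; exact hf)
  have h2 : algebraMap k (RatFunc k) τ + (RatFunc.X ^ m + algebraMap k (RatFunc k) τ) =
      RatFunc.X ^ m := by
    linear_combination (algebraMap k (RatFunc k) τ) * two
  rw [h2, v.ord_algebraMap hζ0, v.ord_pow hX] at h1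
  change v.ord RatFunc.X = 0
  rcases mul_eq_zero.1 h1.2 with h3 | h3
  · exact absurd h3 (by exact_mod_cast hm0.ne')
  · exact h3

end points

section chainx

variable {k : Type} [Field k] [Finite k] [CharP k 2]

/-- The state of the induction at stage `(n, i)`, with a property of the data. -/
def StX (c : ℕ → k) (a m n i : ℕ) (P : (K : Type) → [Field K] → [Algebra k K] → TD K → Prop) : Prop :=
  ∃ (K : Type) (_ : Field K) (_ : Algebra k K) (_ : CharP K 2) (x : TD K) (g o : ℕ),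
    Inv c a m n i x ∧ IsFF k K ∧ Cv k K g ∧ Ob K o ∧
    InvS' c a n i x (m * (2 ^ a - 1) * ((2 ^ a) ^ (n - 1) * 2 ^ i)) ∧
    Bd (2 ^ a) ((m + 1) / 2) m n i g ∧ Bd (2 ^ a) 1 1 n i o ∧ P K x

theorem StX.up {c : ℕ → k} {a m n : ℕ}
    {P P' : (K : Type) → [Field K] → [Algebra k K] → TD K → Prop}
    (hk : Nat.card k = (2 ^ a) ^ 2) (hF : Flg c a) (hm : Odd m)
    (hP' : ∀ (K : Type) [Field K] [Algebra k K] [CharP K 2] (x : TD K), Inv c a m n a x → P K x →
      P' K (levelUp a n x)) (h : StX c a m n a P) :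
    StX c a m (n + 1) 0 P' := by
  obtain ⟨K, _, _, _, x, g, o, hI, hFF, hC, hO, hS, hg, ho, hP⟩ := h
  refine ⟨K, ‹_›, ‹_›, ‹_›, levelUp a n x, g, o, hI.up hF hm, hFF, hC, hO, ?_,
    hg.up rfl hI.n1, ho.up rfl hI.n1, hP' K x hI hP⟩
  have h1 := hS.up hk hF hI.n1
  have h2 : m * (2 ^ a - 1) * ((2 ^ a) ^ (n + 1 - 1) * 2 ^ 0) =
      m * (2 ^ a - 1) * ((2 ^ a) ^ (n - 1) * 2 ^ a) := by
    have h3 : n + 1 - 1 = (n - 1) + 1 := by have := hI.n1; omega
    rw [h3, pow_succ, pow_zero, mul_one]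
  rw [h2]
  exact h1

theorem StX.half {c : ℕ → k} {a m n i : ℕ}
    {P P' : (K : Type) → [Field K] → [Algebra k K] → TD K → Prop}
    (hF : Flg c a) (hm : Odd m) (hi : i < a)
    (hstep : ∀ (K : Type) [Field K] [Algebra k K] [CharP K 2] (K' : Type) [Field K'] [Algebra k K']
      [CharP K' 2] [Algebra K K'] [IsScalarTower k K K'] (x : TD K)
      (S : AS K K' (stepGen (fun j => algebraMap k K (c j)) a i x)) (g g' : ℕ)
      (D : DV K → ℕ) (b : DV K → K) (B : Finset (DV K)),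
      DStep k K K' (stepGen (fun j => algebraMap k K (c j)) a i x) g g' D b B →
      g' ≤ m * (2 ^ a) ^ (n - 1) * 2 ^ (i + 1) + 1 → Inv c a m n i x → P K x →
      P' K' (halfNext (fun j => algebraMap k K' (c j)) a i (x.map (algebraMap K K')) S.y))
    (h : StX c a m n i P) : StX c a m n (i + 1) P' := by
  classical
  obtain ⟨K, _, _, _, x, g, o, hI, hFF, hC, hO, hS, hg, ho, hP⟩ := h
  obtain ⟨B, D, b, hNF, hB1, hB2, hBdeg, v₁, hv₁, hrat⟩ := hI.nf hF hm hi
  obtain ⟨K', _, _, ⟨S⟩⟩ := exists_AS (hI.irr hF hm hi)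
  letI : Algebra k K' := ((algebraMap K K').comp (algebraMap k K)).toAlgebra
  haveI : IsScalarTower k K K' := IsScalarTower.of_algebraMap_eq fun _ => rfl
  haveI : CharP K' 2 := charP_of_injective_algebraMap (algebraMap K K').injective 2
  have he1 : 1 ≤ (m + 1) / 2 := by
    obtain ⟨r, hr⟩ := hm
    omega
  have hD1 : D v₁ ≠ 0 := by rw [hB1 v₁ hv₁]; omega
  obtain ⟨g', hg', hC'⟩ := hC.double S hNF ⟨v₁, hD1⟩
  have hmem : ∀ v, v ∈ B ↔ D v ≠ 0 := fun v =>
    ⟨fun hv => by rw [hB1 v hv]; omega, fun hv => by by_contra h1; exact hv (hB2 v h1)⟩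
  have hsum : ∑ᶠ v, D v * v.deg (Nat.card k) = (m + 1) / 2 * ∑ v ∈ B, v.deg (Nat.card k) := by
    rw [finsum_eq_sum_of_support_subset (s := B), mul_sum]
    · exact sum_congr rfl fun v hv => by rw [hB1 v hv]
    · intro v hv
      rw [Function.mem_support] at hv
      rw [mem_coe, hmem]
      exact fun h0 => hv (by rw [h0, zero_mul])
  have hg'' := hg'
  rw [hsum] at hg'
  have hres : ∀ v : DV K, Nat.card v.Res = Nat.card k ^ v.deg (Nat.card k) := fun v => (hC.res v).2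
  have hdeg1 : ∀ v : DV K, 1 ≤ v.deg (Nat.card k) := fun v => (hC.res v).1
  have hfin : ∀ v : DV K, Finite v.Res := by
    intro v
    apply Nat.finite_of_card_ne_zero
    rw [hres v]
    exact pow_ne_zero _ Nat.card_pos.ne'
  have hBcard : Nat.card {v : DV K | D v ≠ 0} = B.card := by
    have : {v : DV K | D v ≠ 0} = (B : Set (DV K)) := by
      ext v
      rw [mem_coe, hmem]
      rfl
    rw [this]
    simp
  have hBle : B.card ≤ (2 ^ a) ^ (n / 2) := by
    refine le_trans ?_ hBdeg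
    rw [card_eq_sum_ones]
    exact sum_le_sum fun v _ => hdeg1 v
  have hBpos : 1 ≤ B.card := card_pos.2 ⟨v₁, hv₁⟩
  have hO' := Ob.up S hNF hC.poles hfin hD1 hrat hO
  rw [hBcard] at hO'
  have hBg : ∑ v ∈ B, v.deg (Nat.card k) ≤ g' + 1 := by
    rw [hg']
    calc ∑ v ∈ B, v.deg (Nat.card k) = 1 * ∑ v ∈ B, v.deg (Nat.card k) := (one_mul _).symm
      _ ≤ (m + 1) / 2 * ∑ v ∈ B, v.deg (Nat.card k) := Nat.mul_le_mul_right _ he1
      _ ≤ _ := Nat.le_add_left _ _
  have hgB : Bd (2 ^ a) ((m + 1) / 2) m n (i + 1) g' := by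
    refine hg.half ?_
    rw [hg']
    exact Nat.add_le_add_left (Nat.mul_le_mul_left _ hBdeg) _
  refine ⟨K', ‹_›, ‹_›, ‹_›, _, g', _, hI.half hF hm hi hres S, hFF.up hC' S, hC', hO', ?_, hgB, ?_,
    hstep K K' x S g g' D b B ⟨hC, hC', hNF, hmem, hBg, ⟨v₁, hv₁, hrat⟩, hg''⟩ hgB.le hI hP⟩
  · have h1 := hS.half hF hi hI.tw.w0 S
    have h2 : m * (2 ^ a - 1) * ((2 ^ a) ^ (n - 1) * 2 ^ (i + 1)) =
        2 * (m * (2 ^ a - 1) * ((2 ^ a) ^ (n - 1) * 2 ^ i)) := by
      rw [pow_succ]; ring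
    rw [h2]
    exact h1
  · refine ho.half ?_
    rw [one_mul]
    omega

end chainx

end Pool.Agent.FF
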