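import Pool.Agent.FF.SelEB
import Pool.Agent.FF.Cover

/-!
# Covers with more split points
-/

set_option autoImplicit false
set_option linter.unusedSectionVars false

namespace Pool.Agent.FF

section cover

variable {K : Type*} [Field K] [CharP K 2]

/-- **Double covers ramified exactly at `Q` with many split points**, Elias-Bassalygo form. -/
theorem exists_cover_EB {n : ℕ} (hob : Ob K n) (hres : ∀ v : DV K, Finite v.Res) (Q : DV K)
    (T : Finset (DV K)) (hQT : Q ∉ T) (s t M m e : ℕ) (hM : 2 ≤ M) (ht : 2 * t ≤ m)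
    (hs : s + m ≤ T.card) (hball : M * 2 ^ m ≤ 2 ^ e * ballN m t)
    (hbig : 2 ^ (n + s + e) ≤ Nat.card Q.Res) :
    ∃ (f : K) (D : DV K → ℕ) (c : DV K → K), D Q = 1 ∧ (∀ v, v ≠ Q → D v = 0) ∧ NF f D c ∧
      (∀ d : K, d ^ 2 + d ≠ f) ∧ ∃ T' : Finset (DV K), T' ⊆ T ∧
      (∀ P ∈ T', ∃ d : K, P.G 1 (f + (d ^ 2 + d))) ∧
      (M - 1) * m * T.card ≤ (M - 1) * m * T'.card +
        ((M - 1) * m * (T.card - (s + m)) + 2 * M * t * (m - t)) := by
  classical
  obtain ⟨τ, hτ0, hτ⟩ := Q.exists_ord (-1)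
  choose φ hφ using fun P : T => exists_cls (P : DV K) (hres P)
  have hPQ : ∀ P : T, (P : DV K) ≠ Q := fun P h => hQT (h ▸ P.2)
  have h1 := card_Res_le hob (DV.G_of_le hτ.ge) (hres Q) hPQ φ
  have hres' : Finite Q.Res := hres Q
  have h4 : Nat.card T = T.card := by rw [Nat.card_eq_fintype_card, Fintype.card_coe]
  obtain ⟨w, hw, hw1, hw2⟩ := exists_select_EB (Dat Q τ (fun P : T => (P : DV K)) φ) n s m t M e hM
    ht (by rw [h4]; exact hs) h1 hball hbig
  obtain ⟨f, D, c, hD, hD', hN, hirr, hsp⟩ := Dat.exists_NF hτ0 hτ (fun P x => (hφ P x).1) hw hw1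
  refine ⟨f, D, c, hD, hD', hN, hirr, T.filter (fun P => ∃ d : K, P.G 1 (f + (d ^ 2 + d))),
    Finset.filter_subset _ _, fun P hP => (Finset.mem_filter.1 hP).2, ?_⟩
  have h3 : Nat.card {i : T // w.2 i = 0} ≤
      (T.filter (fun P => ∃ d : K, P.G 1 (f + (d ^ 2 + d)))).card := by
    rw [← Fintype.card_coe, ← Nat.card_eq_fintype_card]
    refine Nat.card_le_card_of_injective
      (fun i => (⟨(i.1 : DV K), Finset.mem_filter.2 ⟨i.1.2, hsp i.1 i.2⟩⟩ :
        {P // P ∈ T.filter (fun P => ∃ d : K, P.G 1 (f + (d ^ 2 + d)))})) ?_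
    intro i j hij
    apply Subtype.ext
    apply Subtype.ext
    simpa using hij
  have h5 : Nat.card {i : T // w.2 i = 0} + Nat.card {i : T // w.2 i ≠ 0} = T.card := by
    have h6 := Nat.card_congr (Equiv.sumCompl (fun i : T => w.2 i = 0))
    rw [Nat.card_sum, h4] at h6
    exact h6
  rw [h4] at hw2
  calc (M - 1) * m * T.card
      = (M - 1) * m * Nat.card {i : T // w.2 i = 0} +
        (M - 1) * m * Nat.card {i : T // w.2 i ≠ 0} := by rw [← h5, mul_add]
    _ ≤ _ := Nat.add_le_add (Nat.mul_le_mul_left _ h3) hw2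

end cover

section curves

variable {k : Type} [Field k] [Finite k] {K : Type} [Field K] [Algebra k K] [CharP K 2]

/-- **Curves of genus `2 g - 1 + deg Q` with many points**, Elias-Bassalygo form. -/
theorem hasCurve_EB {g n : ℕ} (hF : IsFF k K) (C : Cv k K g) (hob : Ob K n) (Q : DV K)
    (T : Finset (DV K)) (hQT : Q ∉ T) (hT : ∀ P ∈ T, P.Rat k) (s t M m e : ℕ) (hM : 2 ≤ M)
    (ht : 2 * t ≤ m) (hs : s + m ≤ T.card) (hball : M * 2 ^ m ≤ 2 ^ e * ballN m t)
    (hbig : n + s + e ≤ Nat.log 2 (Nat.card k) * Q.deg (Nat.card k)) :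
    ∃ N : ℕ, HasCurve k (2 * g + Q.deg (Nat.card k) - 1) N ∧
      (M - 1) * m * (2 * T.card) ≤ (M - 1) * m * N +
        2 * ((M - 1) * m * (T.card - (s + m)) + 2 * M * t * (m - t)) := by
  have hres : ∀ v : DV K, Finite v.Res := fun v => Nat.finite_of_card_ne_zero (by
    rw [(C.res v).2]
    exact pow_ne_zero _ Nat.card_pos.ne')
  have hbig' : 2 ^ (n + s + e) ≤ Nat.card Q.Res := by
    rw [(C.res Q).2]
    calc 2 ^ (n + s + e) ≤ 2 ^ (Nat.log 2 (Nat.card k) * Q.deg (Nat.card k)) :=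
          Nat.pow_le_pow_right (by norm_num) hbig
      _ = (2 ^ Nat.log 2 (Nat.card k)) ^ Q.deg (Nat.card k) := pow_mul _ _ _
      _ ≤ _ := Nat.pow_le_pow_left (Nat.pow_log_le_self 2 Nat.card_pos.ne') _
  obtain ⟨f, D, c, hD, hD', hN, hirr, T', hT', hsp, hcount⟩ :=
    exists_cover_EB hob hres Q T hQT s t M m e hM ht hs hball hbig'
  refine ⟨2 * T'.card, hasCurve_of_cover hF C hD hD' hN hirr T'
    (fun P hP => ⟨hT P (hT' hP), hsp P hP⟩) le_rfl, ?_⟩
  calc (M - 1) * m * (2 * T.card) = 2 * ((M - 1) * m * T.card) := by ring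
    _ ≤ 2 * ((M - 1) * m * T'.card +
        ((M - 1) * m * (T.card - (s + m)) + 2 * M * t * (m - t))) := Nat.mul_le_mul_left _ hcount
    _ = _ := by ring

/-- The same in blocks: `j` blocks of `B` points, in each of them `κ` conditions and about
`2 a (B - a) / B` points which do not split. -/
theorem hasCurve_block {g n : ℕ} (hF : IsFF k K) (C : Cv k K g) (hob : Ob K n) (Q : DV K)
    (T : Finset (DV K)) (hQT : Q ∉ T) (hT : ∀ P ∈ T, P.Rat k) (s M B a κ j : ℕ) (hM : 2 ≤ M)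
    (ha : 2 * a ≤ B) (hj : 0 < j) (hs : s + B * j ≤ T.card)
    (hball : M * 2 ^ (B * j) ≤ 2 ^ (κ * j) * ballN (B * j) (a * j))
    (hbig : n + s + κ * j ≤ Nat.log 2 (Nat.card k) * Q.deg (Nat.card k)) :
    ∃ N : ℕ, HasCurve k (2 * g + Q.deg (Nat.card k) - 1) N ∧
      (M - 1) * B * (2 * T.card) ≤ (M - 1) * B * N +
        2 * ((M - 1) * B * (T.card - (s + B * j)) + 2 * M * a * (B - a) * j) := by
  obtain ⟨N, hN, h1⟩ := hasCurve_EB hF C hob Q T hQT hT s (a * j) M (B * j) (κ * j) hM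
    (by
      rw [← mul_assoc]
      exact Nat.mul_le_mul_right _ ha) hs hball hbig
  refine ⟨N, hN, Nat.le_of_mul_le_mul_left (c := j) ?_ hj⟩
  have h2 : B * j - a * j = (B - a) * j := (Nat.sub_mul _ _ _).symm
  rw [h2] at h1
  calc j * ((M - 1) * B * (2 * T.card)) = (M - 1) * (B * j) * (2 * T.card) := by ring
    _ ≤ _ := h1
    _ = _ := by ring

end curves

end Pool.Agent.FF
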