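import Mathlib

/-! Normalised discrete valuations of a field, written as order functions. -/

set_option autoImplicit false

namespace Pool.Agent.FF

/-- A normalised discrete valuation of the field `K`, as an order function: `ord` is only meaningful on
nonzero elements (and is `0` at `0`). -/
@[ext] structure DV (K : Type*) [Field K] where
  ord : K → ℤ
  ord_zero : ord 0 = 0
  ord_mul : ∀ a b : K, a ≠ 0 → b ≠ 0 → ord (a * b) = ord a + ord b
  ord_add : ∀ a b : K, a ≠ 0 → b ≠ 0 → a + b ≠ 0 → min (ord a) (ord b) ≤ ord (a + b)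
  exists_one : ∃ t : K, t ≠ 0 ∧ ord t = 1

namespace DV

variable {K : Type*} [Field K] (v : DV K)

/-- `a` has order at least `n` (`0` has order at least `n` for all `n`). -/
def G (n : ℤ) (a : K) : Prop := a = 0 ∨ n ≤ v.ord a

theorem ord_one : v.ord 1 = 0 := by
  have h := v.ord_mul 1 1 one_ne_zero one_ne_zero
  rw [mul_one] at h
  omega

theorem ord_neg_one : v.ord (-1) = 0 := by
  have h := v.ord_mul (-1) (-1) (by simp) (by simp)
  rw [neg_one_mul, neg_neg, v.ord_one] at h
  omega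

theorem ord_neg (a : K) : v.ord (-a) = v.ord a := by
  by_cases ha : a = 0
  · simp [ha]
  · have h := v.ord_mul (-1) a (by simp) ha
    rw [neg_one_mul, v.ord_neg_one] at h
    omega

theorem ord_inv {a : K} (ha : a ≠ 0) : v.ord a⁻¹ = - v.ord a := by
  have h := v.ord_mul a a⁻¹ ha (inv_ne_zero ha)
  rw [mul_inv_cancel₀ ha, v.ord_one] at h
  omega

theorem ord_div {a b : K} (ha : a ≠ 0) (hb : b ≠ 0) : v.ord (a / b) = v.ord a - v.ord b := by
  rw [div_eq_mul_inv, v.ord_mul a b⁻¹ ha (inv_ne_zero hb), v.ord_inv hb]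
  ring

theorem ord_pow {a : K} (ha : a ≠ 0) (n : ℕ) : v.ord (a ^ n) = n * v.ord a := by
  induction n with
  | zero => simp [v.ord_one]
  | succ n ih =>
    rw [pow_succ, v.ord_mul _ _ (pow_ne_zero n ha) ha, ih]
    push_cast
    ring

theorem ord_zpow {a : K} (ha : a ≠ 0) (n : ℤ) : v.ord (a ^ n) = n * v.ord a := by
  cases n with
  | ofNat n => simpa using v.ord_pow ha n
  | negSucc n =>
    rw [zpow_negSucc, v.ord_inv (pow_ne_zero _ ha), v.ord_pow ha, Int.negSucc_eq]
    push_cast
    ring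

theorem exists_ord (n : ℤ) : ∃ t : K, t ≠ 0 ∧ v.ord t = n := by
  obtain ⟨t, ht, h1⟩ := v.exists_one
  exact ⟨t ^ n, zpow_ne_zero n ht, by rw [v.ord_zpow ht, h1, mul_one]⟩

variable {v}

theorem G_zero (n : ℤ) : v.G n 0 := Or.inl rfl

theorem G_of_le {n : ℤ} {a : K} (h : n ≤ v.ord a) : v.G n a := Or.inr h

theorem G_ord (a : K) : v.G (v.ord a) a := Or.inr le_rfl

theorem G.le {n : ℤ} {a : K} (h : v.G n a) (ha : a ≠ 0) : n ≤ v.ord a := h.resolve_left ha

theorem G.mono {m n : ℤ} {a : K} (h : v.G n a) (hmn : m ≤ n) : v.G m a :=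
  h.imp id fun h => hmn.trans h

theorem G.add {n : ℤ} {a b : K} (ha : v.G n a) (hb : v.G n b) : v.G n (a + b) := by
  by_cases h0 : a = 0
  · simpa [h0] using hb
  by_cases h1 : b = 0
  · simpa [h1] using ha
  by_cases h2 : a + b = 0
  · exact Or.inl h2
  · exact Or.inr ((le_min (ha.le h0) (hb.le h1)).trans (v.ord_add a b h0 h1 h2))

theorem G.neg {n : ℤ} {a : K} (ha : v.G n a) : v.G n (-a) := by
  rcases ha with h | h
  · exact Or.inl (by simp [h])
  · exact Or.inr (by rwa [v.ord_neg])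

theorem G.sub {n : ℤ} {a b : K} (ha : v.G n a) (hb : v.G n b) : v.G n (a - b) := by
  rw [sub_eq_add_neg]
  exact ha.add hb.neg

theorem G.mul {m n : ℤ} {a b : K} (ha : v.G m a) (hb : v.G n b) : v.G (m + n) (a * b) := by
  by_cases h0 : a = 0
  · exact Or.inl (by simp [h0])
  by_cases h1 : b = 0
  · exact Or.inl (by simp [h1])
  · exact Or.inr (by rw [v.ord_mul a b h0 h1]; exact add_le_add (ha.le h0) (hb.le h1))

theorem G.pow {m : ℤ} {a : K} (ha : v.G m a) (n : ℕ) : v.G (n * m) (a ^ n) := by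
  induction n with
  | zero => simpa using G_of_le (v := v) (a := (1 : K)) (n := 0) v.ord_one.ge
  | succ n ih =>
    rw [pow_succ]
    have := ih.mul ha
    convert this using 1
    push_cast
    ring

theorem G_one : v.G 0 (1 : K) := G_of_le v.ord_one.ge

theorem G_iff {n : ℤ} {a : K} (ha : a ≠ 0) : v.G n a ↔ n ≤ v.ord a :=
  ⟨fun h => h.le ha, G_of_le⟩

theorem not_G {n : ℤ} {a : K} (ha : a ≠ 0) : ¬ v.G n a ↔ v.ord a < n := by
  rw [G_iff ha, not_le]

theorem ne_zero_of_not_G {n : ℤ} {a : K} (h : ¬ v.G n a) : a ≠ 0 := fun h0 => h (Or.inl h0)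

/-- Elements of different order. -/
theorem ord_add_of_lt {a b : K} (ha : a ≠ 0) (h : v.G (v.ord a + 1) b) :
    a + b ≠ 0 ∧ v.ord (a + b) = v.ord a := by
  have hab : a + b ≠ 0 := by
    intro h0
    have h1 : a = -b := by linear_combination h0
    have h2 : v.G (v.ord a + 1) a := by
      have := h.neg
      rwa [← h1] at this
    have := h2.le ha
    omega
  refine ⟨hab, le_antisymm ?_ ?_⟩
  · by_contra hlt
    push Not at hlt
    have h3 : v.G (v.ord a + 1) (a + b) := G_of_le hlt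
    have h4 := (h3.sub h).le (by simpa using ha)
    rw [add_sub_cancel_right] at h4
    omega
  · exact ((G_ord a).add (h.mono (by omega))).le hab

theorem ord_add_eq_min {a b : K} (ha : a ≠ 0) (hb : b ≠ 0) (h : v.ord a ≠ v.ord b) :
    a + b ≠ 0 ∧ v.ord (a + b) = min (v.ord a) (v.ord b) := by
  rcases lt_or_gt_of_ne h with h1 | h1
  · have := ord_add_of_lt ha (G_of_le (by omega : v.ord a + 1 ≤ v.ord b))
    exact ⟨this.1, by rw [this.2, min_eq_left h1.le]⟩
  · have := ord_add_of_lt hb (G_of_le (by omega : v.ord b + 1 ≤ v.ord a))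
    rw [add_comm b a] at this
    exact ⟨this.1, by rw [this.2, min_eq_right h1.le]⟩

/-- Two discrete valuations with `v ≤ c * w` pointwise are equal: if every `v`-integral element is
`w`-integral, then `v = w`. -/
theorem eq_of_integral_imp {w : DV K} (h : ∀ a : K, v.G 0 a → w.G 0 a) : v = w := by
  obtain ⟨t, ht, ht1⟩ := v.exists_one
  have hunit : ∀ a : K, a ≠ 0 → v.ord a = 0 → w.ord a = 0 := by
    intro a ha h0
    have h1 := (h a (G_of_le h0.ge)).le ha
    have h2 := (h a⁻¹ (G_of_le (by rw [v.ord_inv ha, h0]; simp))).le (inv_ne_zero ha)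
    rw [w.ord_inv ha] at h2
    omega
  have hall : ∀ a : K, a ≠ 0 → w.ord a = v.ord a * w.ord t := by
    intro a ha
    have h1 : v.ord (a * t ^ (-v.ord a)) = 0 := by
      rw [v.ord_mul _ _ ha (zpow_ne_zero _ ht), v.ord_zpow ht, ht1]
      ring
    have h2 := hunit _ (mul_ne_zero ha (zpow_ne_zero _ ht)) h1
    rw [w.ord_mul _ _ ha (zpow_ne_zero _ ht), w.ord_zpow ht] at h2
    linarith
  have hwt : w.ord t = 1 := by
    have h0 : 0 ≤ w.ord t := (h t (G_of_le (by omega))).le ht
    obtain ⟨s, hs, hs1⟩ := w.exists_one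
    have := hall s hs
    rw [hs1] at this
    rcases Int.eq_one_or_neg_one_of_mul_eq_one' this.symm with h2 | h2 <;> omega
  ext a
  by_cases ha : a = 0
  · rw [ha, v.ord_zero, w.ord_zero]
  · rw [hall a ha, hwt, mul_one]

end DV

end Pool.Agent.FF
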