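import Pool.Agent.FF.Dbl

/-! The unramified Artin–Schreier double cover of a curve: genus `2 * g - 1`. -/

set_option autoImplicit false
set_option linter.unusedSectionVars false

namespace Pool.Agent.FF

section double

variable {F F' : Type*} [Field F] [Field F'] [Algebra F F'] [CharP F 2] {f : F}
variable (S : AS F F' f)
variable {c : DV F → F} {e : DV F → ℕ} (hd : ∀ v, LocData v f (c v) (e v))
variable (hf : {v : DV F | ¬ v.G 0 f}.Finite) (hcA : c ∈ Adl F)
variable (hfin : Prin F ≤ Adl F)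

/-- multiples of `c` by the global elements in `AdG e`. -/
def Mc (e : DV F → ℕ) (c : DV F → F) : AddSubgroup (DV F → F) :=
  (AdG (fun v => (e v : ℤ)) ⊓ Prin F).map (AddMonoidHom.mulRight c)

include hd hf hcA hfin

include S in
/-- The index of an Artin–Schreier double cover, general form. -/
theorem AS.index_double' : (AdG (0 : DV F' → ℤ) ⊔ Prin F').relIndex (Adl F') =
    (AdG (0 : DV F → ℤ) ⊔ Prin F ⊔ Mc e c).relIndex (Adl F) *
      (AdG (fun v => (e v : ℤ)) ⊔ Prin F).relIndex (Adl F) := by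
  have hM : AdG (0 : DV F' → ℤ) ⊔ Prin F' ≤ Adl F' :=
    sup_le (AdG_le_Ad fun _ => le_rfl) (S.Cst_le hd hf hcA hfin)
  have hU : ((Adl F).prod (Adl F)).map (S.Psi c) ≤ Adl F' := by
    rintro _ ⟨p, hp, rfl⟩
    exact S.Psi_mem hd hf hcA hp.1 hp.2
  have h1 : ((Adl F).prod (Adl F)).map (S.Psi c) ⊔ (AdG (0 : DV F' → ℤ) ⊔ Prin F') = Adl F' := by
    refine le_antisymm (sup_le hU hM) fun r hr => ?_
    obtain ⟨p, hp1, hp2, hp⟩ := S.exists_Psi hd hf hcA hr
    have : r = S.Psi c (-p) + (r + S.Psi c p) := by rw [map_neg]; abel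
    rw [this]
    refine AddSubgroup.add_mem_sup ⟨-p, ⟨(Adl F).neg_mem hp1, (Adl F).neg_mem hp2⟩, rfl⟩ (AddSubgroup.mem_sup_left hp)
  have h2 : (AdG (0 : DV F' → ℤ) ⊔ Prin F').relIndex (Adl F') =
      ((AdG (0 : DV F → ℤ)).prod (AdG fun v => (e v : ℤ)) ⊔ Dg c).relIndex ((Adl F).prod (Adl F)) := by
    rw [← S.comap_sup hd, AddSubgroup.relIndex_comap]
    conv_lhs => rw [← h1]
    rw [AddSubgroup.relIndex_sup_right]
  rw [h2]
  set K := (AdG (0 : DV F → ℤ)).prod (AdG fun v => (e v : ℤ)) ⊔ Dg c with hK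
  have hDU : Dg c ≤ (Adl F).prod (Adl F) := by
    rintro p ⟨g, h, h1, h2⟩
    refine ⟨?_, ?_⟩
    · change p.1 ∈ Adl F
      rw [h1]
      exact add_mem (hfin (cst_mem g)) (Ad_mul (hfin (cst_mem h)) hcA)
    · change p.2 ∈ Adl F
      rw [h2]
      exact hfin (cst_mem h)
  have hKU : K ≤ (Adl F).prod (Adl F) := by
    refine sup_le (fun p hp => ⟨AdG_le_Ad (fun _ => le_rfl) hp.1,
      AdG_le_Ad (fun v => Int.natCast_nonneg _) hp.2⟩) hDU
  set Q := AdG (fun v => (e v : ℤ)) ⊔ Prin F with hQ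
  set K1 := (Adl F).prod Q with hK1
  have hQA : Q ≤ Adl F := sup_le (AdG_le_Ad fun v => Int.natCast_nonneg _) hfin
  have hKK1 : K ⊔ (Adl F).prod ⊥ = K1 := by
    apply le_antisymm
    · refine sup_le (sup_le ?_ ?_) ?_
      · exact fun p hp => ⟨AdG_le_Ad (fun _ => le_rfl) hp.1, AddSubgroup.mem_sup_left hp.2⟩
      · rintro p ⟨g, h, h1, h2⟩
        refine ⟨(hDU ⟨g, h, h1, h2⟩).1, ?_⟩
        change p.2 ∈ Q
        rw [h2]
        exact AddSubgroup.mem_sup_right (cst_mem h)
      · exact fun p hp => ⟨hp.1, by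
          have : p.2 = 0 := hp.2
          change p.2 ∈ Q
          rw [this]; exact zero_mem _⟩
    · rintro p ⟨hp1, hp2⟩
      obtain ⟨u, hu, x, hx, hux⟩ := AddSubgroup.mem_sup.1 hp2
      obtain ⟨h, rfl⟩ := mem_Cst.1 hx
      have hdg : ((fun _ => (0 : F)) + (fun _ => h) * c, fun _ => h) ∈ Dg c := ⟨0, h, rfl, rfl⟩
      have h3 : p = ((0, u) + ((fun _ => (0 : F)) + (fun _ => h) * c, fun _ => h)) +
          (p.1 - ((fun _ => (0 : F)) + (fun _ => h) * c), 0) := by
        refine Prod.ext ?_ ?_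
        · simp
        · simp only [Prod.snd_add, add_zero]
          exact hux.symm
      rw [h3]
      refine AddSubgroup.add_mem_sup (AddSubgroup.add_mem_sup ⟨zero_mem _, hu⟩ hdg) ⟨?_, rfl⟩
      exact (Adl F).sub_mem hp1 (hDU hdg).1
  have h4 : K.relIndex K1 * K1.relIndex ((Adl F).prod (Adl F)) = K.relIndex ((Adl F).prod (Adl F)) :=
    AddSubgroup.relIndex_mul_relIndex _ _ _ (by rw [← hKK1]; exact le_sup_left)
      (AddSubgroup.prod_mono le_rfl hQA)
  rw [← h4]
  congr 1
  · rw [← hKK1, sup_comm, AddSubgroup.relIndex_sup_right]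
    have h5 : (Adl F).prod ⊥ = (Adl F).map (AddMonoidHom.inl (DV F → F) (DV F → F)) := by
      ext p
      constructor
      · rintro ⟨hp1, hp2⟩
        exact ⟨p.1, hp1, Prod.ext rfl (Eq.symm hp2)⟩
      · rintro ⟨a, ha, rfl⟩
        exact ⟨ha, rfl⟩
    rw [h5, ← AddSubgroup.relIndex_comap]
    congr 1
    ext a
    rw [AddSubgroup.mem_comap]
    constructor
    · intro h
      obtain ⟨u, hu, x, ⟨g, h, h1, h2⟩, hux⟩ := AddSubgroup.mem_sup.1 h
      have h6 : u.2 + x.2 = 0 := congrArg Prod.snd hux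
      have h7 : u.1 + x.1 = a := congrArg Prod.fst hux
      have h8 : x.2 ∈ AdG (fun v => (e v : ℤ)) ⊓ Prin F := by
        refine ⟨?_, mem_Cst.2 ⟨h, h2.symm⟩⟩
        have : x.2 = - u.2 := by
          rw [eq_neg_iff_add_eq_zero, add_comm]; exact h6
        rw [this]
        exact (AdG fun v => (e v : ℤ)).neg_mem hu.2
      rw [← h7, h1, ← h2, ← add_assoc]
      exact AddSubgroup.add_mem_sup (AddSubgroup.add_mem_sup hu.1 (cst_mem g)) ⟨x.2, h8, rfl⟩
    · intro h
      obtain ⟨ux, hux', y, ⟨z, hz, rfl⟩, hy⟩ := AddSubgroup.mem_sup.1 h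
      obtain ⟨u, hu, x, hx, hux⟩ := AddSubgroup.mem_sup.1 hux'
      obtain ⟨g, rfl⟩ := mem_Cst.1 hx
      obtain ⟨b, rfl⟩ := mem_Cst.1 hz.2
      rw [← hy, ← hux]
      have h6 : AddMonoidHom.inl (DV F → F) (DV F → F) (u + (fun _ => g) +
          (AddMonoidHom.mulRight c) fun _ => b) =
          (u, -fun _ => b) + ((fun _ => g) + (fun _ => b) * c, fun _ => b) := by
        refine Prod.ext ?_ ?_
        · change (u + (fun _ => g)) + (fun _ => b) * c = u + ((fun _ => g) + (fun _ => b) * c)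
          rw [add_assoc]
        · change (0 : DV F → F) = (-fun _ => b) + fun _ => b
          rw [neg_add_cancel]
      rw [h6]
      exact AddSubgroup.add_mem_sup ⟨hu, (AdG fun v => (e v : ℤ)).neg_mem hz.1⟩ ⟨g, b, rfl, rfl⟩
  · have h5 : K1 = Q.comap (AddMonoidHom.snd (DV F → F) (DV F → F)) ⊓ (Adl F).prod (Adl F) := by
      ext p
      constructor
      · rintro ⟨hp1, hp2⟩
        exact ⟨hp2, hp1, hQA hp2⟩
      · rintro ⟨hp1, hp2⟩
        exact ⟨hp2.1, hp1⟩
    rw [h5, AddSubgroup.inf_relIndex_right, AddSubgroup.relIndex_comap]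
    congr 1
    ext a
    constructor
    · rintro ⟨p, hp, rfl⟩
      exact hp.2
    · intro ha
      exact ⟨(0, a), ⟨zero_mem _, ha⟩, rfl⟩

end double

section curve

variable {k K K' : Type*} [Field k] [Field K] [Field K'] [Algebra k K] [Algebra k K'] [Algebra K K']
  [IsScalarTower k K K'] [CharP K 2] {g : ℕ}

/-- **Genus of an unramified Artin–Schreier double cover** which is not a constant field
extension. -/
theorem Cv.double0 (C : Cv k K g) (hg : 1 ≤ g) {f : K} (S : AS K K' f) {c : DV K → K}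
    (h : NF f 0 c) (hnt : ∀ (b : K) (κ : k), b ^ 2 + b ≠ f + algebraMap k K κ) :
    Cv k K' (2 * g - 1) := by
  classical
  have h2K : (2 : K) = 0 := CharTwo.two_eq_zero
  -- `c` is not in `A(0) + K`
  obtain ⟨c', hc', hcc, -, hd⟩ := h.exists_loc
  have hf := C.poles f
  have hP := C.prin_le
  -- there is a place
  have hne : Nonempty (DV K) := by
    by_contra hn
    rw [not_nonempty_iff] at hn
    obtain ⟨κ, hκ⟩ := C.const f fun v => (hn.false v).elim
    refine hnt 0 (-κ) ?_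
    rw [hκ, map_neg]
    ring
  obtain ⟨v₀⟩ := hne
  obtain ⟨hfin, hq⟩ := C.finite v₀
  set q := Nat.card k with hqdef
  have hcnot : ∀ h : K, ¬ ∀ v : DV K, v.G 0 (c' v + h) := by
    intro b hb
    have h1 : ∀ v : DV K, v.G 0 (f + (b ^ 2 + b)) := by
      intro v
      have h3 := h.int v rfl
      have h4 : v.G 0 (c v + b) := by
        have := (hcc v).add (hb v)
        have h5 : c' v + c v + (c' v + b) = c v + b := by linear_combination (c' v) * h2K
        rwa [h5] at this
      have h5 : v.G 0 ((c v + b) ^ 2) := by simpa using h4.pow 2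
      have h6 := (h3.add h5).add h4
      have h7 : f + (c v ^ 2 + c v) + (c v + b) ^ 2 + (c v + b) = f + (b ^ 2 + b) := by
        linear_combination (c v ^ 2 + c v * b + c v) * h2K
      rwa [h7] at h6
    obtain ⟨κ, hκ⟩ := C.const _ h1
    exact hnt b κ (by linear_combination hκ - f * h2K)
  -- constants
  have hunit : ∀ (x : k), x ≠ 0 → ∀ v : DV K, ∀ a : K, v.G 0 (algebraMap k K x * a) → v.G 0 a := by
    intro x hx v a ha
    have hx0 : algebraMap k K x ≠ 0 := by rwa [Ne, map_eq_zero]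
    have h1 : v.G 0 ((algebraMap k K x)⁻¹) :=
      DV.G_of_le (by rw [v.ord_inv hx0, ord_const' v hx]; norm_num)
    have h3 := h1.mul ha
    rw [inv_mul_cancel_left₀ hx0] at h3
    simpa using h3
  have hc0 : ∀ (x : k) (b : K), (∀ v : DV K, v.G 0 (algebraMap k K x * c' v + b)) → x = 0 := by
    intro x b hb
    by_contra hx
    have hx0 : algebraMap k K x ≠ 0 := by rwa [Ne, map_eq_zero]
    refine hcnot ((algebraMap k K x)⁻¹ * b) fun v => hunit x hx v _ ?_
    have h1 : algebraMap k K x * (c' v + (algebraMap k K x)⁻¹ * b) = algebraMap k K x * c' v + b := by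
      field_simp
    rw [h1]
    exact hb v
  -- the number of constants
  have hx0 : ∀ x : k, (fun _ : DV K => algebraMap k K x) ∈ AdG (0 : DV K → ℤ) := by
    intro x
    rw [mem_AdG]
    intro v
    by_cases hx : x = 0
    · rw [hx, map_zero]; exact DV.G_zero _
    · exact DV.G_of_le (ord_const' v hx).ge
  have hk : Nat.card (AdG (0 : DV K → ℤ) ⊓ Prin K : AddSubgroup _) = q := by
    rw [hqdef]
    symm
    refine Nat.card_congr (Equiv.ofBijective (fun x : k =>
      (⟨fun _ => algebraMap k K x, hx0 x, cst_mem _⟩ :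
        (AdG (0 : DV K → ℤ) ⊓ Prin K : AddSubgroup (DV K → K)))) ⟨?_, ?_⟩)
    · intro x y hxy
      exact (algebraMap k K).injective (congrFun (congrArg Subtype.val hxy) v₀)
    · rintro ⟨r, hr, a, ha⟩
      obtain ⟨x, hx⟩ := C.const a fun v => by rw [← ha v]; exact mem_AdG.1 hr v
      refine ⟨x, Subtype.ext ?_⟩
      ext v
      change algebraMap k K x = r v
      rw [ha v, hx]
  have hgen := hasGenus_iff.1 C.genus
  have he0 : (fun v : DV K => (((0 : DV K → ℕ) v : ℕ) : ℤ)) = 0 := by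
    ext v
    simp
  have h2 := S.index_double' hd hf hc' hP
  have hMc : Mc (0 : DV K → ℕ) c' =
      (AdG (0 : DV K → ℤ) ⊓ Prin K).map (AddMonoidHom.mulRight c') := by
    rw [Mc, he0]
  rw [he0, hgen, hMc] at h2
  -- the index of `A(0) + K` in `A(0) + K + k c`
  have h3 : (AdG (0 : DV K → ℤ) ⊔ Prin K).relIndex (AdG (0 : DV K → ℤ) ⊔ Prin K ⊔
      (AdG (0 : DV K → ℤ) ⊓ Prin K).map (AddMonoidHom.mulRight c')) = q := by
    rw [AddSubgroup.relIndex_sup_left, ← AddSubgroup.relIndex_comap,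
      ← AddSubgroup.inf_relIndex_right]
    have h4 : (AdG (0 : DV K → ℤ) ⊔ Prin K).comap (AddMonoidHom.mulRight c') ⊓
        (AdG (0 : DV K → ℤ) ⊓ Prin K) = ⊥ := by
      rw [eq_bot_iff]
      rintro r ⟨hr, hr0, a, ha⟩
      obtain ⟨x, hx⟩ := C.const a fun v => by rw [← ha v]; exact mem_AdG.1 hr0 v
      obtain ⟨u, hu, z, hz, huz⟩ := AddSubgroup.mem_sup.1 hr
      obtain ⟨b, rfl⟩ := mem_Cst.1 hz
      have h5 : x = 0 := by
        refine hc0 x (-b) fun v => ?_
        have h6 : algebraMap k K x * c' v + -b = u v := by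
          have h7 := congrFun huz v
          change u v + b = r v * c' v at h7
          rw [ha v, hx] at h7
          linear_combination -h7
        rw [h6]
        exact mem_AdG.1 hu v
      rw [AddSubgroup.mem_bot]
      ext v
      rw [ha v, hx, h5, map_zero]
      rfl
    rw [h4, AddSubgroup.relIndex_bot_left, hk]
  have hE : AdG (0 : DV K → ℤ) ⊔ Prin K ⊔
      (AdG (0 : DV K → ℤ) ⊓ Prin K).map (AddMonoidHom.mulRight c') ≤ Adl K := by
    refine sup_le (sup_le (AdG_le_Ad fun _ => le_rfl) hP) ?_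
    rintro _ ⟨r, ⟨hr, hr'⟩, rfl⟩
    exact Ad_mul (hP hr') hc'
  have h5 := AddSubgroup.relIndex_mul_relIndex _ _ _ (le_sup_left : AdG (0 : DV K → ℤ) ⊔ Prin K ≤
    AdG (0 : DV K → ℤ) ⊔ Prin K ⊔
      (AdG (0 : DV K → ℤ) ⊓ Prin K).map (AddMonoidHom.mulRight c')) hE
  rw [h3, hgen] at h5
  have h6 : (AdG (0 : DV K' → ℤ) ⊔ Prin K').relIndex (Adl K') = q ^ (2 * g - 1) := by
    have h7 : q * (AdG (0 : DV K' → ℤ) ⊔ Prin K').relIndex (Adl K') = q * q ^ (2 * g - 1) := by
      rw [h2, ← mul_assoc, h5, ← pow_succ', ← pow_add]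
      congr 1
      omega
    exact Nat.eq_of_mul_eq_mul_left (by omega) h7
  refine ⟨?_, ?_, ?_, hasGenus_iff.2 h6⟩
  · intro a
    have := S.Cst_le hd hf hc' hP (cst_mem a)
    exact this
  · intro x hx
    have hx' : S.Psi c' ((fun _ => S.a x) + (fun _ => S.b x) * c', fun _ => S.b x) ∈
        AdG (0 : DV K' → ℤ) := by
      rw [mem_AdG]
      intro w
      rw [S.Psi_apply]
      change w.G 0 (algebraMap K K' (S.a x + S.b x * c' (S.res w)) +
        algebraMap K K' (S.b x) * (S.y + algebraMap K K' (c' (S.res w))))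
      rw [S.loc_eq (c' (S.res w)) (S.a x) (S.b x), ← S.spec x]
      exact hx w
    have h7 : ((fun _ => S.a x) + (fun _ => S.b x) * c', fun _ => S.b x) ∈
        (AdG (0 : DV K → ℤ)).prod (AdG fun v => (((0 : DV K → ℕ) v : ℕ) : ℤ)) := by
      rw [← S.comap_AdG hd]
      exact hx'
    rw [he0] at h7
    obtain ⟨z, hz⟩ := C.const (S.b x) fun v => mem_AdG.1 h7.2 v
    have hz0 : z = 0 := by
      refine hc0 z (S.a x) fun v => ?_
      have h8 : v.G 0 (S.a x + S.b x * c' v) := mem_AdG.1 h7.1 v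
      rw [hz] at h8
      rwa [add_comm]
    have hb : S.b x = 0 := by rw [hz, hz0, map_zero]
    have ha : ∀ v : DV K, v.G 0 (S.a x) := by
      intro v
      have := mem_AdG.1 h7.1 v
      simpa [hb] using this
    obtain ⟨z, hz⟩ := C.const _ ha
    refine ⟨z, ?_⟩
    rw [S.spec x, hb, map_zero, zero_mul, add_zero, hz, ← IsScalarTower.algebraMap_apply]
  · intro w
    have hw := S.card_Res (hd (S.res w)) (S.res_over w)
    have hr := C.res (S.res w)
    have key : ∀ m : ℕ, 1 ≤ m → Nat.card w.Res = q ^ m →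
        1 ≤ w.deg q ∧ Nat.card w.Res = q ^ w.deg q := by
      intro m hm h6
      have h7 : w.deg q = m := by
        rw [DV.deg, h6, Nat.log_pow (by omega)]
      rw [h7]
      exact ⟨hm, h6⟩
    rcases hw with h6 | h6
    · exact key _ hr.1 (h6.trans hr.2)
    · refine key ((S.res w).deg q * 2) (Nat.mul_pos hr.1 two_pos) ?_
      rw [h6, hr.2, pow_mul]

end curve

end Pool.Agent.FF
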