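import Pool.Agent.FF.DegR

/-! Places of degree exactly `r` in a subfield `K₀` of `K`, from the places of `K` and one function of
`K₀` with a single pole in `K`. -/

set_option autoImplicit false
set_option linter.unusedSectionVars false

namespace Pool.Agent.FF

variable {k K₀ K : Type*} [Field k] [Finite k] [Field K₀] [Field K] [Algebra k K₀] [Algebra k K]
  [Algebra K₀ K]

theorem Er.restrict {w : DV K} {v : DV K₀} (h : Over w v) {r : ℕ} (hE : Er k w r) : Er k v r := by
  intro a ha
  have h1 := hE _ ((h.G_zero_iff a).2 ha)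
  rw [← map_pow, ← map_sub] at h1
  exact (h.G_one_iff _).1 h1

/-- **A place of degree exactly `r` of a subfield.** `u` in `K₀` is not constant and its poles in `K`
are bounded by the effective divisor `D` of degree at most `N`. -/
theorem HasPl.exists_place_sub' (hov : ∀ w : DV K, ∃ v : DV K₀, Over w v)
    (hres : ∀ v : DV K₀, v.resCard ≠ 0) {g : ℕ} (hcv : Cv k K g)
    {u : K₀} {N : ℕ} {D : DV K →₀ ℤ} (hD : ∀ w, 0 ≤ D w) (hDN : RRD.degZ k D ≤ N)
    (hu : ∀ w : DV K, w.G (- D w) (algebraMap K₀ K u))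
    (hu1 : ∃ w : DV K, w.ord (algebraMap K₀ K u) < 0)
    {B C M : ℕ} (h : HasPl k K B C M) {r s e : ℕ} (hr : 1 ≤ r) (hs : s = 2 ^ e)
    (hsq : s ^ 2 = Nat.card k ^ r) (hB : B ≤ s) (hlt : r * N + C + N < s) :
    ∃ v : DV K₀, v.deg (Nat.card k) = r := by
  classical
  obtain ⟨A, hA, hAs⟩ := h.wt r s e hr hs hsq hB
  by_contra hcon
  push Not at hcon
  set q := Nat.card k with hq
  have hq2 : 2 ≤ q := one_lt_card k
  have hs1 : 1 ≤ s := by rw [hs]; exact Nat.one_le_two_pow
  choose p hp using hov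
  set U := algebraMap K₀ K u with hU
  have hu0 : U ≠ 0 := by
    obtain ⟨w, hw⟩ := hu1
    intro h0
    rw [h0, w.ord_zero] at hw
    omega
  -- the degrees of the restrictions
  have hdeg : ∀ w ∈ A, deg k (p w) ∈ Finset.Icc 1 (r / 2) := by
    intro w hw
    have h1 := dvd_of_Er (hres (p w)) ((hA w hw).restrict (hp w))
    have h2 : deg k (p w) ≠ r := hcon (p w)
    obtain ⟨m, hm⟩ := h1
    have h3 := deg_pos k (p w) (hres (p w))
    rw [Finset.mem_Icc]
    refine ⟨h3, ?_⟩
    have hm2 : 2 ≤ m := by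
      rcases m with _ | _ | m
      · omega
      · exact absurd (by rw [hm]; ring) h2
      · omega
    rw [Nat.le_div_iff_mul_le (by norm_num)]
    calc deg k (p w) * 2 ≤ deg k (p w) * m := Nat.mul_le_mul_left _ hm2
      _ = r := hm.symm
  -- the poles
  set V := A.filter (fun w => D w ≠ 0) with hV
  set A₁ := A.filter (fun w => ¬ D w ≠ 0) with hA₁
  have hVA : ∑ w ∈ V, deg k w + ∑ w ∈ A₁, deg k w = ∑ w ∈ A, deg k w :=
    Finset.sum_filter_add_sum_filter_not A _ _
  have hV1 : ∑ w ∈ V, deg k w ≤ N := by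
    have h1 : ((∑ w ∈ V, deg k w : ℕ) : ℤ) ≤ RRD.degZ k D := by
      rw [RRD.degZ, Finsupp.sum_of_support_subset D (s := D.support ∪ V) Finset.subset_union_left _
        (fun P _ => by simp)]
      push_cast
      calc ∑ w ∈ V, (deg k w : ℤ) ≤ ∑ w ∈ V, D w * (RRD.deg k w : ℤ) := by
            refine Finset.sum_le_sum fun w hw => ?_
            have h2 : D w ≠ 0 := (Finset.mem_filter.1 hw).2
            have h3 := hD w
            have h4 : (1 : ℤ) ≤ D w := by omega
            have h5 : (0 : ℤ) ≤ (deg k w : ℤ) := by positivity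
            have h6 : (RRD.deg k w : ℤ) = (deg k w : ℤ) := rfl
            rw [h6]
            nlinarith
        _ ≤ _ := by
            refine Finset.sum_le_sum_of_subset_of_nonneg Finset.subset_union_right fun w _ _ => ?_
            exact mul_nonneg (hD w) (by positivity)
    exact_mod_cast h1.trans hDN
  -- the places whose restriction has degree `d`
  have hfib : ∀ d ∈ Finset.Icc 1 (r / 2),
      ∑ w ∈ A₁.filter (fun w => deg k (p w) = d), deg k w ≤ N * s := by
    intro d hd
    obtain ⟨hd1, hd2⟩ := Finset.mem_Icc.1 hd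
    have hqd : 2 ≤ q ^ d := by
      calc 2 ≤ q := hq2
        _ = q ^ 1 := (pow_one q).symm
        _ ≤ q ^ d := Nat.pow_le_pow_right (by omega) hd1
    set E : DV K →₀ ℤ := ((q ^ d : ℕ) : ℤ) • D with hE
    have hEw : ∀ w, E w = ((q ^ d : ℕ) : ℤ) * D w := fun w => by
      rw [hE, Finsupp.smul_apply, smul_eq_mul]
    have h3 : U ^ (q ^ d) - U ∈ RRD.LInt (-E : DV K → ℤ) := by
      rw [RRD.mem_LInt]
      intro w
      rw [Pi.neg_apply, hEw]
      have h1 := (hu w).pow (q ^ d)
      have h2 : (1 : ℤ) ≤ ((q ^ d : ℕ) : ℤ) := by exact_mod_cast (by omega : 1 ≤ q ^ d)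
      refine (h1.mono (by linarith)).sub ((hu w).mono ?_)
      nlinarith [hD w]
    have h4 : U ^ (q ^ d) - U ≠ 0 := by
      intro h0
      have h5 : U ^ (q ^ d) = U := sub_eq_zero.1 h0
      obtain ⟨w, hw⟩ := hu1
      have h6 := congrArg w.ord h5
      rw [w.ord_pow hu0] at h6
      have h7 : (2 : ℤ) ≤ ((q ^ d : ℕ) : ℤ) := by exact_mod_cast hqd
      nlinarith
    have h5 := RRD.sum_deg_zeros_le hcv h4 h3 (A₁.filter (fun w => deg k (p w) = d))
      (by
        intro w hw
        obtain ⟨hw1, hw2⟩ := Finset.mem_filter.1 hw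
        obtain ⟨hw3, hw4⟩ := Finset.mem_filter.1 hw1
        push Not at hw4
        rw [hEw, hw4, mul_zero, sub_zero]
        have hu' : (p w).G 0 u := ((hp w).G_zero_iff u).1 (by simpa [hw4] using hu w)
        have h6 := Er_of_dvd (k := k) (r := d) (hres (p w)) (by rw [hw2]) u hu'
        have h7 := ((hp w).G_one_iff _).2 h6
        rwa [map_sub, map_pow] at h7)
    have hdE : RRD.degZ k E = ((q ^ d : ℕ) : ℤ) * RRD.degZ k D := by
      rw [RRD.degZ, RRD.degZ, hE, Finsupp.sum_smul_index' (by simp), Finsupp.mul_sum]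
      exact Finsupp.sum_congr fun P _ => by rw [smul_eq_mul]; ring
    have h8 : q ^ d ≤ s := by
      have h9 : (q ^ d) ^ 2 ≤ s ^ 2 := by
        rw [hsq, ← pow_mul]
        refine Nat.pow_le_pow_right (by omega) ?_
        have := Nat.div_mul_le_self r 2
        omega
      exact (Nat.pow_le_pow_iff_left (by norm_num)).1 h9
    have h9 : ((∑ w ∈ A₁.filter (fun w => deg k (p w) = d), deg k w : ℕ) : ℤ) ≤ ((N * s : ℕ) : ℤ) := by
      push_cast
      calc _ ≤ RRD.degZ k E := h5
        _ = ((q ^ d : ℕ) : ℤ) * RRD.degZ k D := hdE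
        _ ≤ (s : ℤ) * N := by
            have h10 : (((q ^ d : ℕ)) : ℤ) ≤ s := by exact_mod_cast h8
            have h11 : (0 : ℤ) ≤ ((q ^ d : ℕ) : ℤ) := by positivity
            have h12 : (0 : ℤ) ≤ N := by positivity
            nlinarith
        _ = N * s := by ring
    exact_mod_cast h9
  have hsum : ∑ w ∈ A₁, deg k w ≤ r / 2 * (N * s) := by
    rw [← Finset.sum_fiberwise_of_maps_to (s := A₁) (t := Finset.Icc 1 (r / 2))
      (g := fun w => deg k (p w)) (fun w hw => hdeg w (Finset.mem_filter.1 hw).1)]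
    calc _ ≤ ∑ _d ∈ Finset.Icc 1 (r / 2), N * s := Finset.sum_le_sum hfib
      _ = r / 2 * (N * s) := by rw [Finset.sum_const, Nat.card_Icc]; simp
  have h10 : r / 2 * (N * s) ≤ r * N * s := by
    rw [mul_assoc]
    exact Nat.mul_le_mul_right _ (Nat.div_le_self r 2)
  have h13 : N ≤ N * s := Nat.le_mul_of_pos_right _ hs1
  have h11 : s ^ 2 ≤ (r * N + C + N) * s := by
    have e1 : (r * N + C + N) * s = r * N * s + C * s + N * s := by ring
    rw [e1]
    omega
  have h12 : (r * N + C + N) * s < s * s := Nat.mul_lt_mul_of_pos_right hlt hs1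
  rw [sq] at h11
  omega

/-- **A place of degree exactly `r` of a subfield.** `u` in `K₀` has in `K` one pole, at the rational
place `R`, of order at most `N`. -/
theorem HasPl.exists_place_sub (hov : ∀ w : DV K, ∃ v : DV K₀, Over w v)
    (hres : ∀ v : DV K₀, v.resCard ≠ 0) {g : ℕ} (hcv : Cv k K g) {R : DV K} (hR : R.Rat k)
    {u : K₀} {N : ℕ} (hu : algebraMap K₀ K u ∈ RRD.LP R N) (hu1 : R.ord (algebraMap K₀ K u) < 0)
    {B C M : ℕ} (h : HasPl k K B C M) {r s e : ℕ} (hr : 1 ≤ r) (hs : s = 2 ^ e)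
    (hsq : s ^ 2 = Nat.card k ^ r) (hB : B ≤ s) (hlt : r * N + C + 1 < s) :
    ∃ v : DV K₀, v.deg (Nat.card k) = r := by
  classical
  obtain ⟨A, hA, hAs⟩ := h.wt r s e hr hs hsq hB
  by_contra hcon
  push Not at hcon
  set q := Nat.card k with hq
  have hq2 : 2 ≤ q := one_lt_card k
  have hs1 : 1 ≤ s := by rw [hs]; exact Nat.one_le_two_pow
  choose p hp using hov
  have hu0 : algebraMap K₀ K u ≠ 0 := by
    intro h0
    rw [h0, R.ord_zero] at hu1
    omega
  -- the degrees of the restrictions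
  have hdeg : ∀ w ∈ A, deg k (p w) ∈ Finset.Icc 1 (r / 2) := by
    intro w hw
    have h1 := dvd_of_Er (hres (p w)) ((hA w hw).restrict (hp w))
    have h2 : deg k (p w) ≠ r := hcon (p w)
    obtain ⟨m, hm⟩ := h1
    have h3 := deg_pos k (p w) (hres (p w))
    rw [Finset.mem_Icc]
    refine ⟨h3, ?_⟩
    have hm2 : 2 ≤ m := by
      rcases m with _ | _ | m
      · omega
      · exact absurd (by rw [hm]; ring) h2
      · omega
    rw [Nat.le_div_iff_mul_le (by norm_num)]
    calc deg k (p w) * 2 ≤ deg k (p w) * m := Nat.mul_le_mul_left _ hm2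
      _ = r := hm.symm
  -- the places whose restriction has degree `d`
  have hfib : ∀ d ∈ Finset.Icc 1 (r / 2),
      ∑ w ∈ (A.erase R).filter (fun w => deg k (p w) = d), deg k w ≤ N * s := by
    intro d hd
    obtain ⟨hd1, hd2⟩ := Finset.mem_Icc.1 hd
    set U := algebraMap K₀ K u with hU
    have hqd : 2 ≤ q ^ d := by
      calc 2 ≤ q := hq2
        _ = q ^ 1 := (pow_one q).symm
        _ ≤ q ^ d := Nat.pow_le_pow_right (by omega) hd1
    have h1 : U ^ (q ^ d) ∈ RRD.LP R (q ^ d * N) := by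
      refine ⟨?_, fun Q hQ => G_pow0 (hu.2 Q hQ) _⟩
      have := hu.1.pow (q ^ d)
      refine this.mono ?_
      push_cast
      linarith [mul_comm (N : ℤ) ((q : ℤ) ^ d)]
    have h2 : U ∈ RRD.LP R (q ^ d * N) := by
      refine ⟨hu.1.mono ?_, hu.2⟩
      have : N ≤ q ^ d * N := Nat.le_mul_of_pos_left _ (by omega)
      omega
    have h3 : U ^ (q ^ d) - U ∈ RRD.LP R (q ^ d * N) := (RRD.LP R (q ^ d * N)).sub_mem h1 h2
    have h4 : U ^ (q ^ d) - U ≠ 0 := by
      intro h0
      have h5 : U ^ (q ^ d) = U := sub_eq_zero.1 h0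
      have h6 := congrArg R.ord h5
      rw [R.ord_pow hu0] at h6
      have h7 : (2 : ℤ) ≤ ((q ^ d : ℕ) : ℤ) := by exact_mod_cast hqd
      nlinarith
    have h5 := RRD.sum_deg_le hcv hR.deg_eq_one h4 h3 ((A.erase R).filter (fun w => deg k (p w) = d))
      (by
        intro w hw
        obtain ⟨hw1, hw2⟩ := Finset.mem_filter.1 hw
        obtain ⟨hw3, hw4⟩ := Finset.mem_erase.1 hw1
        have hu' : (p w).G 0 u := ((hp w).G_zero_iff u).1 (hu.2 w hw3)
        have h6 := Er_of_dvd (k := k) (r := d) (hres (p w)) (by rw [hw2]) u hu'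
        have h7 := ((hp w).G_one_iff _).2 h6
        rwa [map_sub, map_pow] at h7)
    refine h5.trans ?_
    have h8 : q ^ d ≤ s := by
      have h9 : (q ^ d) ^ 2 ≤ s ^ 2 := by
        rw [hsq, ← pow_mul]
        refine Nat.pow_le_pow_right (by omega) ?_
        have := Nat.div_mul_le_self r 2
        omega
      exact (Nat.pow_le_pow_iff_left (by norm_num)).1 h9
    rw [mul_comm N s]
    exact Nat.mul_le_mul_right _ h8
  have hsum : ∑ w ∈ A.erase R, deg k w ≤ r / 2 * (N * s) := by
    rw [← Finset.sum_fiberwise_of_maps_to (s := A.erase R) (t := Finset.Icc 1 (r / 2))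
      (g := fun w => deg k (p w)) (fun w hw => hdeg w (Finset.mem_of_mem_erase hw))]
    calc _ ≤ ∑ _d ∈ Finset.Icc 1 (r / 2), N * s := Finset.sum_le_sum hfib
      _ = r / 2 * (N * s) := by rw [Finset.sum_const, Nat.card_Icc]; simp
  have hRdeg : deg k R = 1 := hR.deg_eq_one
  have hA1 : ∑ w ∈ A, deg k w ≤ ∑ w ∈ A.erase R, deg k w + 1 := by
    by_cases hRA : R ∈ A
    · rw [← Finset.sum_erase_add A _ hRA, hRdeg]
    · rw [Finset.erase_eq_of_notMem hRA]; omega
  have h10 : r / 2 * (N * s) ≤ r * N * s := by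
    rw [mul_assoc]
    exact Nat.mul_le_mul_right _ (Nat.div_le_self r 2)
  have h11 : s ^ 2 ≤ (r * N + C + 1) * s := by
    have e1 : (r * N + C + 1) * s = r * N * s + C * s + s := by ring
    rw [e1]
    omega
  have h12 : (r * N + C + 1) * s < s * s := Nat.mul_lt_mul_of_pos_right hlt hs1
  rw [sq] at h11
  omega

end Pool.Agent.FF
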