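import Mathlib

/-!
# The Elias-Bassalygo argument

Among many binary words of length `N` two are closer than the Plotkin bound predicts.
-/

set_option autoImplicit false

namespace Pool.Agent.FF

open Finset

section

variable {ι α : Type*} [Fintype ι]

/-- some ball of radius `t` contains many of the words -/
theorem eb_center [DecidableEq ι] (s : Finset α) (f : α → ι → ZMod 2) (t M : ℕ)
    (h : M * 2 ^ Fintype.card ι ≤
      s.card * (univ.filter fun w : ι → ZMod 2 => hammingNorm w ≤ t).card) :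
    ∃ c : ι → ZMod 2, M ≤ (s.filter fun a => hammingNorm (f a - c) ≤ t).card := by
  classical
  by_contra hcon
  push Not at hcon
  have h1 : ∑ c : ι → ZMod 2, (s.filter fun a => hammingNorm (f a - c) ≤ t).card =
      s.card * (univ.filter fun w : ι → ZMod 2 => hammingNorm w ≤ t).card := by
    have h2 := sum_card_bipartiteAbove_eq_sum_card_bipartiteBelow (s := (univ : Finset (ι → ZMod 2)))
      (t := s) (fun c a => hammingNorm (f a - c) ≤ t)
    unfold bipartiteAbove bipartiteBelow at h2
    rw [h2, card_eq_sum_ones s, sum_mul]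
    refine sum_congr rfl fun a _ => ?_
    rw [one_mul]
    refine card_equiv (Equiv.subLeft (f a)) fun c => ?_
    simp
  have h3 : ∑ c : ι → ZMod 2, (s.filter fun a => hammingNorm (f a - c) ≤ t).card <
      ∑ _c : ι → ZMod 2, M := sum_lt_sum_of_nonempty univ_nonempty fun c _ => hcon c
  rw [h1, sum_const, smul_eq_mul, card_univ, Fintype.card_fun, ZMod.card] at h3
  rw [mul_comm M] at h
  exact absurd h (not_le.2 h3)

/-- the sum of the distances of words of small weight -/
theorem eb_sum (s : Finset α) (f : α → ι → ZMod 2) :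
    ∑ a ∈ s, ∑ b ∈ s, (hammingDist (f a) (f b) : ℤ) =
      ∑ i : ι, 2 * ((s.filter fun a => f a i ≠ 0).card : ℤ) *
        (s.card - (s.filter fun a => f a i ≠ 0).card) := by
  classical
  have h1 : ∀ a b, (hammingDist (f a) (f b) : ℤ) = ∑ i : ι, if f a i ≠ f b i then (1 : ℤ) else 0 := by
    intro a b
    unfold hammingDist
    rw [card_filter]
    push_cast
    rfl
  simp only [h1]
  have h2 : ∀ a ∈ s, ∑ b ∈ s, ∑ i : ι, (if f a i ≠ f b i then (1 : ℤ) else 0) =
      ∑ i : ι, ∑ b ∈ s, (if f a i ≠ f b i then (1 : ℤ) else 0) := fun a _ => sum_comm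
  rw [sum_congr rfl h2, sum_comm]
  refine sum_congr rfl fun i _ => ?_
  have h3 : ∀ x y : ZMod 2, (if x ≠ y then (1 : ℤ) else 0) =
      (if x ≠ 0 then (1 : ℤ) else 0) + (if y ≠ 0 then (1 : ℤ) else 0) -
        2 * ((if x ≠ 0 then (1 : ℤ) else 0) * (if y ≠ 0 then (1 : ℤ) else 0)) := by
    decide
  have h4 : ((s.filter fun a => f a i ≠ 0).card : ℤ) = ∑ a ∈ s, if f a i ≠ 0 then (1 : ℤ) else 0 := by
    rw [card_filter]
    push_cast
    rfl
  rw [sum_congr rfl fun a _ => sum_congr rfl fun b _ => h3 (f a i) (f b i)]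
  simp only [sum_sub_distrib, sum_add_distrib, ← mul_sum, ← sum_mul, sum_const, nsmul_eq_mul]
  rw [← h4]
  ring

/-- two words of small weight are close -/
theorem eb_pair (s : Finset α) (f : α → ι → ZMod 2) (t : ℕ) (hs : 2 ≤ s.card)
    (ht : 2 * t ≤ Fintype.card ι) (h : ∀ a ∈ s, hammingNorm (f a) ≤ t) :
    ∃ a ∈ s, ∃ b ∈ s, a ≠ b ∧
      (s.card - 1) * Fintype.card ι * hammingDist (f a) (f b) ≤
        2 * s.card * t * (Fintype.card ι - t) := by
  classical
  by_contra hcon
  push Not at hcon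
  set N : ℤ := (Fintype.card ι : ℤ) with hN
  set M : ℤ := (s.card : ℤ) with hM
  have hM2 : (2 : ℤ) ≤ M := by
    rw [hM]
    exact_mod_cast hs
  have htN : 2 * (t : ℤ) ≤ N := by
    rw [hN]
    exact_mod_cast ht
  have ht0 : (0 : ℤ) ≤ t := Int.natCast_nonneg _
  have hcon' : ∀ a ∈ s, ∀ b ∈ s, a ≠ b →
      2 * M * t * (N - t) + 1 ≤ (M - 1) * N * (hammingDist (f a) (f b) : ℤ) := by
    intro a ha b hb hab
    have h1 := hcon a ha b hb hab
    have h2 : ((2 * s.card * t * (Fintype.card ι - t) : ℕ) : ℤ) <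
        (((s.card - 1) * Fintype.card ι * hammingDist (f a) (f b) : ℕ) : ℤ) := by exact_mod_cast h1
    have h3 : t ≤ Fintype.card ι := by omega
    have h4 : 1 ≤ s.card := by omega
    push_cast [Nat.cast_sub h3, Nat.cast_sub h4] at h2
    linarith
  set A : ι → ℤ := fun i => ((s.filter fun a => f a i ≠ 0).card : ℤ) with hA
  set S : ℤ := ∑ i, A i with hS
  have hsum := eb_sum s f
  have h5 : N * ∑ a ∈ s, ∑ b ∈ s, (hammingDist (f a) (f b) : ℤ) ≤ 2 * M * N * S - 2 * S ^ 2 := by
    rw [hsum]
    have h6 : ∑ i : ι, 2 * ((s.filter fun a => f a i ≠ 0).card : ℤ) *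
        (s.card - (s.filter fun a => f a i ≠ 0).card) = 2 * M * S - 2 * ∑ i, A i ^ 2 := by
      rw [hS, mul_sum, mul_sum, ← sum_sub_distrib]
      refine sum_congr rfl fun i _ => ?_
      simp only [hA]
      ring
    have h7 : S ^ 2 ≤ N * ∑ i, A i ^ 2 := by
      have h8 := sq_sum_le_card_mul_sum_sq (s := (univ : Finset ι)) (f := A)
      rw [card_univ] at h8
      exact h8
    rw [h6]
    nlinarith [h7]
  have h8 : S ≤ M * t := by
    have h9 : S = ∑ a ∈ s, (hammingNorm (f a) : ℤ) := by
      rw [hS]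
      have h10 : ∀ i, A i = ∑ a ∈ s, if f a i ≠ 0 then (1 : ℤ) else 0 := by
        intro i
        simp only [hA]
        rw [card_filter]
        push_cast
        rfl
      simp only [h10]
      rw [sum_comm]
      refine sum_congr rfl fun a _ => ?_
      unfold hammingNorm
      rw [card_filter]
      push_cast
      rfl
    rw [h9]
    calc ∑ a ∈ s, (hammingNorm (f a) : ℤ) ≤ ∑ _a ∈ s, (t : ℤ) :=
          sum_le_sum fun a ha => by exact_mod_cast h a ha
      _ = M * t := by rw [sum_const, nsmul_eq_mul]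
  have h11 : N * ∑ a ∈ s, ∑ b ∈ s, (hammingDist (f a) (f b) : ℤ) ≤ 2 * M ^ 2 * t * (N - t) := by
    refine h5.trans ?_
    have h12 : 0 ≤ (M * t - S) * (M * N - M * t - S) := by
      refine mul_nonneg (by linarith) ?_
      nlinarith
    nlinarith [h12]
  have h13 : M * (M - 1) * (2 * M * t * (N - t) + 1) ≤
      (M - 1) * N * ∑ a ∈ s, ∑ b ∈ s, (hammingDist (f a) (f b) : ℤ) := by
    have h14 : ∀ a ∈ s, (M - 1) * (2 * M * t * (N - t) + 1) ≤
        ∑ b ∈ s, (M - 1) * N * (hammingDist (f a) (f b) : ℤ) := by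
      intro a ha
      rw [← add_sum_erase s _ ha]
      have h15 : (s.erase a).card = s.card - 1 := card_erase_of_mem ha
      have h16 : ((s.erase a).card : ℤ) = M - 1 := by
        rw [h15, Nat.cast_sub (by omega)]
        rfl
      calc (M - 1) * (2 * M * t * (N - t) + 1)
          = ∑ _b ∈ s.erase a, (2 * M * t * (N - t) + 1) := by
            rw [sum_const, nsmul_eq_mul, h16]
        _ ≤ ∑ b ∈ s.erase a, (M - 1) * N * (hammingDist (f a) (f b) : ℤ) :=
            sum_le_sum fun b hb => hcon' a ha b (mem_of_mem_erase hb) (ne_of_mem_erase hb).symm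
        _ ≤ _ := by
            rw [hammingDist_self]
            simp
    calc M * (M - 1) * (2 * M * t * (N - t) + 1)
        = ∑ _a ∈ s, (M - 1) * (2 * M * t * (N - t) + 1) := by
          rw [sum_const, nsmul_eq_mul]
          ring
      _ ≤ ∑ a ∈ s, ∑ b ∈ s, (M - 1) * N * (hammingDist (f a) (f b) : ℤ) := sum_le_sum h14
      _ = _ := by
          rw [mul_sum]
          refine sum_congr rfl fun a _ => ?_
          rw [mul_sum]
  have h17 : (M - 1) * (N * ∑ a ∈ s, ∑ b ∈ s, (hammingDist (f a) (f b) : ℤ)) ≤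
      (M - 1) * (2 * M ^ 2 * t * (N - t)) := mul_le_mul_of_nonneg_left h11 (by linarith)
  nlinarith [h13, h17]

/-- **Elias-Bassalygo.** -/
theorem eb_exists [DecidableEq ι] (s : Finset α) (f : α → ι → ZMod 2) (t M : ℕ) (hM : 2 ≤ M)
    (ht : 2 * t ≤ Fintype.card ι)
    (h : M * 2 ^ Fintype.card ι ≤
      s.card * (univ.filter fun w : ι → ZMod 2 => hammingNorm w ≤ t).card) :
    ∃ a ∈ s, ∃ b ∈ s, a ≠ b ∧
      (M - 1) * Fintype.card ι * hammingDist (f a) (f b) ≤ 2 * M * t * (Fintype.card ι - t) := by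
  classical
  obtain ⟨c, hc⟩ := eb_center s f t M h
  obtain ⟨s', hs', hcard⟩ := exists_subset_card_eq hc
  obtain ⟨a, ha, b, hb, hab, h1⟩ := eb_pair s' (fun a => f a - c) t (by omega) ht
    (fun a ha => (mem_filter.1 (hs' ha)).2)
  refine ⟨a, (mem_filter.1 (hs' ha)).1, b, (mem_filter.1 (hs' hb)).1, hab, ?_⟩
  rw [hcard] at h1
  have h2 : hammingDist (f a - c) (f b - c) = hammingDist (f a) (f b) := by
    unfold hammingDist
    congr 1
    ext i
    simp
  rwa [h2] at h1

/-- the volume of a ball -/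
theorem choose_le_ball [DecidableEq ι] (t : ℕ) :
    (Fintype.card ι).choose t ≤
      (univ.filter fun w : ι → ZMod 2 => hammingNorm w ≤ t).card := by
  classical
  rw [← card_univ, ← card_powersetCard]
  refine card_le_card_of_injOn (fun S i => if i ∈ S then (1 : ZMod 2) else 0) ?_ ?_
  · intro S hS
    rw [mem_coe, mem_powersetCard] at hS
    rw [mem_coe, mem_filter]
    refine ⟨mem_univ _, ?_⟩
    unfold hammingNorm
    rw [← hS.2]
    refine card_le_card fun i hi => ?_
    rw [mem_filter] at hi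
    by_contra hiS
    exact hi.2 (if_neg hiS)
  · intro S _ S' _ h
    ext i
    have h1 := congrFun h i
    simp only at h1
    by_cases h2 : i ∈ S
    · by_cases h3 : i ∈ S'
      · exact ⟨fun _ => h3, fun _ => h2⟩
      · rw [if_pos h2, if_neg h3] at h1
        exact absurd h1 one_ne_zero
    · by_cases h3 : i ∈ S'
      · rw [if_neg h2, if_pos h3] at h1
        exact absurd h1.symm one_ne_zero
      · exact ⟨fun h => absurd h h2, fun h => absurd h h3⟩

end

end Pool.Agent.FF
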