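import Pool.Agent.FF.Fiber

/-! Reduced pole orders at most one, in Artin–Schreier double extensions. -/

set_option autoImplicit false

namespace Pool.Agent.FF

/-- `b` has a pole of order at most one at `v` modulo `c ^ 2 + c`. -/
def W1 {K : Type*} [Field K] (v : DV K) (b : K) : Prop := ∃ c : K, v.G (-1) (b + (c ^ 2 + c))

section

variable {K K' : Type*} [Field K] [Field K'] [Algebra K K'] [CharP K 2] {f : K} (S : AS K K' f)

theorem W1.over (S : AS K K' f) {v : DV K} (hp : v.Perf) {b : K} (hf : W1 v f) (hb : W1 v b)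
    {w : DV K'} (hw : Over w v) : W1 w (algebraMap K K' b) := by
  obtain ⟨c, hc⟩ := hf
  obtain ⟨d, hd⟩ := hb
  have h2 := AS.two' K K'
  by_cases h0 : v.G 0 (f + (c ^ 2 + c))
  · have h1 := S.over_of_int hw h0
    refine ⟨algebraMap K K' d, ?_⟩
    have e : algebraMap K K' b + ((algebraMap K K' d) ^ 2 + algebraMap K K' d) =
        algebraMap K K' (b + (d ^ 2 + d)) := by simp only [map_add, map_pow]
    rw [e]
    rcases hd with h3 | h3
    · exact Or.inl (by rw [h3, map_zero])
    · exact Or.inr (by rw [h1]; exact h3)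
  · have hf0 : f + (c ^ 2 + c) ≠ 0 := DV.ne_zero_of_not_G h0
    have h1 := (DV.not_G hf0).1 h0
    have h3 := hc.le hf0
    have hord : v.ord (f + (c ^ 2 + c)) = 1 - 2 * ((1 : ℕ) : ℤ) := by push_cast; omega
    obtain ⟨h4, h5, -, -⟩ := S.over_of_odd hw le_rfl hord
    by_cases h6 : v.G 0 (b + (d ^ 2 + d))
    · refine ⟨algebraMap K K' d, ?_⟩
      have e : algebraMap K K' b + ((algebraMap K K' d) ^ 2 + algebraMap K K' d) =
          algebraMap K K' (b + (d ^ 2 + d)) := by simp only [map_add, map_pow]
      rw [e]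
      exact ((hw.G_zero_iff _).2 h6).mono (by norm_num)
    · have hb0 : b + (d ^ 2 + d) ≠ 0 := DV.ne_zero_of_not_G h6
      have h7 := (DV.not_G hb0).1 h6
      have h8 := hd.le hb0
      obtain ⟨t, ht, ht1⟩ := hp ((b + (d ^ 2 + d)) / (f + (c ^ 2 + c))) (DV.G_of_le (by
        rw [v.ord_div hb0 hf0]; omega))
      have h9 : v.G 0 (b + (d ^ 2 + d) + t ^ 2 * (f + (c ^ 2 + c))) := by
        have e : b + (d ^ 2 + d) + t ^ 2 * (f + (c ^ 2 + c)) =
            (f + (c ^ 2 + c)) * ((b + (d ^ 2 + d)) / (f + (c ^ 2 + c)) + t ^ 2) := by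
          have e1 : (b + (d ^ 2 + d)) / (f + (c ^ 2 + c)) * (f + (c ^ 2 + c)) = b + (d ^ 2 + d) :=
            div_mul_cancel₀ _ hf0
          linear_combination -e1
        rw [e]
        exact (hc.mul ht1).mono (by norm_num)
      have h10 : w.G (-1) (S.y + algebraMap K K' c) := DV.G_of_le (by rw [h5]; norm_num)
      have h11 : w.G 0 (algebraMap K K' (t ^ 2 + t)) :=
        (hw.G_zero_iff _).2 ((by simpa using ht.pow 2 : v.G 0 (t ^ 2)).add ht)
      refine ⟨algebraMap K K' d + algebraMap K K' t * (S.y + algebraMap K K' c), ?_⟩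
      have e : algebraMap K K' b + ((algebraMap K K' d + algebraMap K K' t *
          (S.y + algebraMap K K' c)) ^ 2 + (algebraMap K K' d + algebraMap K K' t *
          (S.y + algebraMap K K' c))) =
          algebraMap K K' (b + (d ^ 2 + d) + t ^ 2 * (f + (c ^ 2 + c))) +
          algebraMap K K' (t ^ 2 + t) * (S.y + algebraMap K K' c) := by
        simp only [map_add, map_mul, map_pow]
        linear_combination (algebraMap K K' t) ^ 2 * S.eq +
          (algebraMap K K' d * algebraMap K K' t * (S.y + algebraMap K K' c) +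
            algebraMap K K' t ^ 2 * S.y * algebraMap K K' c - algebraMap K K' t ^ 2 * S.y
            - algebraMap K K' t ^ 2 * algebraMap K K' c) * h2
      rw [e]
      refine (((hw.G_zero_iff _).2 h9).mono (by norm_num)).add ?_
      exact (h11.mul h10).mono (by norm_num)

end

end Pool.Agent.FF
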