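import Pool.Agent.FF.Eight1

/-! Artin–Schreier double extensions inside a fixed field: `L + L y`. -/

set_option autoImplicit false
set_option linter.unusedSectionVars false
set_option linter.style.haveILetI false

namespace Pool.Agent.FF

open IntermediateField

section

variable {k Ω : Type*} [Field k] [Field Ω] [Algebra k Ω] [CharP Ω 2]

/-- `L + L y` for `y ^ 2 + y ∈ L`. -/
def asExt (L : IntermediateField k Ω) (y : Ω) (hy : y ^ 2 + y ∈ L) : IntermediateField k Ω where
  carrier := {x | ∃ a ∈ L, ∃ b ∈ L, x = a + b * y}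
  mul_mem' := by
    rintro _ _ ⟨a, ha, b, hb, rfl⟩ ⟨c, hc, d, hd, rfl⟩
    refine ⟨a * c + b * d * (y ^ 2 + y), L.add_mem (L.mul_mem ha hc) (L.mul_mem (L.mul_mem hb hd) hy),
      a * d + b * c + b * d, L.add_mem (L.add_mem (L.mul_mem ha hd) (L.mul_mem hb hc))
      (L.mul_mem hb hd), ?_⟩
    have h2 : (2 : Ω) = 0 := CharTwo.two_eq_zero
    linear_combination -(b * d * y) * h2
  add_mem' := by
    rintro _ _ ⟨a, ha, b, hb, rfl⟩ ⟨c, hc, d, hd, rfl⟩
    exact ⟨a + c, L.add_mem ha hc, b + d, L.add_mem hb hd, by ring⟩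
  algebraMap_mem' r := ⟨algebraMap k Ω r, L.algebraMap_mem r, 0, L.zero_mem, by ring⟩
  inv_mem' := by
    rintro _ ⟨a, ha, b, hb, rfl⟩
    have h2 : (2 : Ω) = 0 := CharTwo.two_eq_zero
    by_cases hyL : y ∈ L
    · exact ⟨(a + b * y)⁻¹, L.inv_mem (L.add_mem ha (L.mul_mem hb hyL)), 0, L.zero_mem, by ring⟩
    · by_cases h0 : a + b * y = 0
      · exact ⟨0, L.zero_mem, 0, L.zero_mem, by rw [h0]; simp⟩
      have hb' : a + b + b * y ≠ 0 := by
        intro h1
        by_cases hb0 : b = 0
        · rw [hb0] at h1 h0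
          apply h0
          linear_combination h1
        · apply hyL
          have h3 : y = -((a + b) / b) := by
            field_simp
            linear_combination h1
          rw [h3]
          exact L.neg_mem (L.div_mem (L.add_mem ha hb) hb)
      set N : Ω := a ^ 2 + a * b + b ^ 2 * (y ^ 2 + y) with hN
      have hNL : N ∈ L := L.add_mem (L.add_mem (pow_mem ha 2) (L.mul_mem ha hb))
        (L.mul_mem (pow_mem hb 2) hy)
      have hNe : (a + b * y) * (a + b + b * y) = N := by
        rw [hN]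
        linear_combination (a * b * y) * h2
      have hN0 : N ≠ 0 := by rw [← hNe]; exact mul_ne_zero h0 hb'
      refine ⟨(a + b) / N, L.div_mem (L.add_mem ha hb) hNL, b / N, L.div_mem hb hNL, ?_⟩
      rw [inv_eq_iff_eq_inv, ← one_div, eq_div_iff (by
        intro h3
        apply hb'
        have : (a + b) / N + b / N * y = (a + b + b * y) / N := by ring
        rw [this, div_eq_zero_iff] at h3
        exact h3.resolve_right hN0)]
      have : (a + b * y) * ((a + b) / N + b / N * y) = ((a + b * y) * (a + b + b * y)) / N := by ring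
      rw [this, hNe, div_self hN0]

theorem le_asExt (L : IntermediateField k Ω) (y : Ω) (hy : y ^ 2 + y ∈ L) : L ≤ asExt L y hy :=
  fun x hx => ⟨x, hx, 0, L.zero_mem, by ring⟩

theorem mem_asExt (L : IntermediateField k Ω) (y : Ω) (hy : y ^ 2 + y ∈ L) : y ∈ asExt L y hy :=
  ⟨0, L.zero_mem, 1, L.one_mem, by ring⟩

theorem asExt_le (L : IntermediateField k Ω) (y : Ω) (hy : y ^ 2 + y ∈ L) {M : IntermediateField k Ω}
    (h1 : L ≤ M) (h2 : y ∈ M) : asExt L y hy ≤ M := by
  rintro _ ⟨a, ha, b, hb, rfl⟩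
  exact M.add_mem (h1 ha) (M.mul_mem (h1 hb) h2)

/-- the inclusion as an algebra structure -/
@[reducible] def inclAlg {L M : IntermediateField k Ω} (h : L ≤ M) : Algebra L M :=
  (inclusion h).toRingHom.toAlgebra

theorem inclAlg_tower {L M : IntermediateField k Ω} (h : L ≤ M) :
    letI := inclAlg h
    IsScalarTower k L M := by
  letI := inclAlg h
  exact IsScalarTower.of_algebraMap_eq fun _ => rfl

theorem inclAlg_map {L M : IntermediateField k Ω} (h : L ≤ M) (a : L) :
    letI := inclAlg h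
    ((algebraMap L M a : M) : Ω) = (a : Ω) := rfl

/-- The Artin–Schreier structure of `L + L y` over `L`. -/
noncomputable def asAS (L M : IntermediateField k Ω) (y : Ω) (hy : y ^ 2 + y ∈ L)
    (hM : M = asExt L y hy) (hyL : y ∉ L) (h : L ≤ M) :
    letI := inclAlg h
    AS L M (⟨y ^ 2 + y, hy⟩ : L) := by
  letI := inclAlg h
  exact
    { y := ⟨y, by rw [hM]; exact mem_asExt L y hy⟩
      eq := Subtype.ext rfl
      span := by
        rintro ⟨x, hx⟩
        rw [hM] at hx
        obtain ⟨a, ha, b, hb, rfl⟩ := hx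
        exact ⟨(⟨a, ha⟩, ⟨b, hb⟩), Subtype.ext rfl⟩
      irr := by
        rintro ⟨c, hc⟩ h1
        have h2 : (2 : Ω) = 0 := CharTwo.two_eq_zero
        have h3 : c ^ 2 + c = y ^ 2 + y := congrArg Subtype.val h1
        have h4 : (y + c) * (y + c + 1) = 0 := by linear_combination h3 + (y ^ 2 + y * c + y) * h2
        rcases mul_eq_zero.1 h4 with h5 | h5
        · apply hyL
          have : y = -c := by linear_combination h5
          rw [this]
          exact L.neg_mem hc
        · apply hyL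
          have : y = -(c + 1) := by linear_combination h5
          rw [this]
          exact L.neg_mem (L.add_mem hc L.one_mem) }

/-- all places have finite residue fields -/
def FinRes (L : IntermediateField k Ω) : Prop := ∀ v : DV L, v.resCard ≠ 0

/-- the reduced pole orders of `b` are at most one -/
def AllW (L : IntermediateField k Ω) (b : Ω) : Prop := ∀ (h : b ∈ L) (v : DV L), W1 v (⟨b, h⟩ : L)

theorem AllW.step {L M : IntermediateField k Ω} {y : Ω} {hy : y ^ 2 + y ∈ L} (hM : M = asExt L y hy)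
    (hres : FinRes L) (hf : AllW L (y ^ 2 + y)) : FinRes M ∧ ∀ b ∈ L, AllW L b → AllW M b := by
  by_cases hyL : y ∈ L
  · have : M = L := by
      rw [hM]
      exact le_antisymm (asExt_le L y hy le_rfl hyL) (le_asExt L y hy)
    rw [this]
    exact ⟨hres, fun b _ h => h⟩
  · have hLM : L ≤ M := by rw [hM]; exact le_asExt L y hy
    letI := inclAlg hLM
    have : CharP L 2 := (algebraMap L Ω).charP (algebraMap L Ω).injective 2
    let S : AS L M (⟨y ^ 2 + y, hy⟩ : L) := asAS L M y hy hM hyL hLM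
    refine ⟨fun w => ?_, fun b hb h hbM w => ?_⟩
    · obtain ⟨v, hv⟩ := S.exists_over w
      exact S.resCard_ne_zero (hres v) hv
    · obtain ⟨v, hv⟩ := S.exists_over w
      exact W1.over S (DV.perf_of_res (hres v)) (hf hy v) (h hb v) hv

theorem AllW.sq {L : IntermediateField k Ω} {u : Ω} (hu : u ∈ L) (h : AllW L u) : AllW L (u ^ 2) := by
  intro h2 v
  obtain ⟨c, hc⟩ := h hu v
  have two : (2 : L) = 0 := by
    apply Subtype.ext
    exact (CharTwo.two_eq_zero : (2 : Ω) = 0)
  refine ⟨c + ⟨u, hu⟩, ?_⟩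
  have e : (⟨u ^ 2, h2⟩ : L) + ((c + ⟨u, hu⟩) ^ 2 + (c + ⟨u, hu⟩)) = ⟨u, hu⟩ + (c ^ 2 + c) := by
    have e1 : (⟨u ^ 2, h2⟩ : L) = (⟨u, hu⟩ : L) ^ 2 := rfl
    rw [e1]
    linear_combination ((⟨u, hu⟩ : L) ^ 2 + c * ⟨u, hu⟩) * two
  rw [e]
  exact hc

end

end Pool.Agent.FF
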