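import Pool.Agent.FF.Eight2
import Pool.Agent.FF.RatWt

/-! The base of the pyramid: the fields `k (t)`, `t` transcendental. -/

set_option autoImplicit false
set_option linter.unusedSectionVars false

namespace Pool.Agent.FF

open IntermediateField Polynomial

section comap

variable {K L : Type*} [Field K] [Field L]

/-- Transport of a discrete valuation along an isomorphism. -/
def DV.tr (v : DV L) (e : K ≃+* L) : DV K where
  ord a := v.ord (e a)
  ord_zero := by rw [map_zero, v.ord_zero]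
  ord_mul a b ha hb := by
    rw [map_mul, v.ord_mul _ _ (by simpa using ha) (by simpa using hb)]
  ord_add a b ha hb hab := by
    rw [map_add]
    refine v.ord_add _ _ (by simpa using ha) (by simpa using hb) ?_
    rw [← map_add]
    exact fun h => hab (e.injective (by rw [h, map_zero]))
  exists_one := by
    obtain ⟨t, ht, ht1⟩ := v.exists_one
    exact ⟨e.symm t, by simpa using ht, by simpa using ht1⟩

theorem DV.tr_G (v : DV L) (e : K ≃+* L) (n : ℤ) (a : K) : (v.tr e).G n a ↔ v.G n (e a) := by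
  unfold DV.G
  have : e a = 0 ↔ a = 0 := by simp
  rw [this]
  rfl

theorem DV.tr_resCard (v : DV L) (e : K ≃+* L) : (v.tr e).resCard = v.resCard := by
  have h : ∀ n : ℤ, (v.tr e).O n = (v.O n).comap (e : K →+ L) := by
    intro n
    ext a
    exact v.tr_G e n a
  unfold DV.resCard
  rw [h, h, AddSubgroup.relIndex_comap, AddSubgroup.map_comap_eq_self_of_surjective]
  exact e.surjective

theorem W1.tr {v : DV L} {e : K ≃+* L} {b : K} (h : W1 (v.tr e) b) : W1 v (e b) := by
  obtain ⟨c, hc⟩ := h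
  refine ⟨e c, ?_⟩
  rw [v.tr_G] at hc
  simpa using hc

end comap

namespace Rat

variable {k : Type*} [Field k] [Finite k] [CharP k 2]

theorem ord_X_le {v : DV (RatFunc k)} : v.ord RatFunc.X ≤ 1 := by
  rcases inf_or_at v with rfl | ⟨π, h⟩
  · rw [inf_X]; norm_num
  · by_cases h1 : π ∣ X
    · have h2 := h.irr.associated_of_dvd irreducible_X h1
      have h3 := eq_of_monic_of_associated h.monic monic_X h2
      rw [← RatFunc.algebraMap_X, ← h3, h.ord_self]
    · rw [← RatFunc.algebraMap_X, h.ord_zero' h1]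
      norm_num

theorem W1_g (v : DV (RatFunc k)) : W1 v (RatFunc.X + 1 + (RatFunc.X : RatFunc k)⁻¹) := by
  refine ⟨0, ?_⟩
  have hX := RatFunc.X_ne_zero (K := k)
  have e : RatFunc.X + 1 + (RatFunc.X : RatFunc k)⁻¹ + ((0 : RatFunc k) ^ 2 + 0) =
    RatFunc.X + 1 + (RatFunc.X : RatFunc k)⁻¹ := by ring
  rw [e]
  refine DV.G.add (DV.G.add ?_ ?_) ?_
  · rcases inf_or_at v with rfl | ⟨π, h⟩
    · exact DV.G_of_le (by rw [inf_X])
    · have := h.int X
      rw [RatFunc.algebraMap_X] at this
      exact this.mono (by norm_num)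
  · exact DV.G_one.mono (by norm_num)
  · refine DV.G_of_le ?_
    rw [v.ord_inv hX]
    have := ord_X_le (v := v)
    omega

/-- `X ^ 2 + X + 1` has no multiple factors in characteristic two. -/
theorem ord_h_le {v : DV (RatFunc k)} (hv : v ≠ inf k) :
    v.ord (algebraMap k[X] (RatFunc k) (X ^ 2 + X + 1)) ≤ 1 := by
  rcases inf_or_at v with h0 | ⟨π, h⟩
  · exact absurd h0 hv
  have hder : derivative (X ^ 2 + X + 1 : k[X]) = 1 := by
    have : (2 : k) = 0 := CharTwo.two_eq_zero
    simp only [derivative_add, derivative_one, derivative_X, derivative_X_pow]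
    simp [this]
  by_cases h1 : π ∣ (X ^ 2 + X + 1 : k[X])
  · obtain ⟨c, hc⟩ := h1
    have h2 : ¬ π ∣ c := by
      rintro ⟨d, hd⟩
      have h3 : π ∣ (1 : k[X]) := by
        rw [← hder, hc, hd]
        simp only [derivative_mul]
        exact ⟨derivative π * d + derivative π * d + π * derivative d, by ring⟩
      exact h.irr.not_isUnit (isUnit_of_dvd_one h3)
    have hc0 : c ≠ 0 := by rintro rfl; exact h2 (dvd_zero _)
    rw [hc, map_mul, v.ord_mul _ _ (coe_ne h.irr.ne_zero) (coe_ne hc0), h.ord_self, h.ord_zero' h2]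
    norm_num
  · rw [h.ord_zero' h1]
    norm_num

theorem W1_u (v : DV (RatFunc k)) :
    W1 v ((RatFunc.X : RatFunc k) ^ 2 + RatFunc.X + 1)⁻¹ := by
  refine ⟨0, ?_⟩
  have e : ((RatFunc.X : RatFunc k) ^ 2 + RatFunc.X + 1)⁻¹ + ((0 : RatFunc k) ^ 2 + 0) =
    (algebraMap k[X] (RatFunc k) (X ^ 2 + X + 1))⁻¹ := by
    simp [RatFunc.algebraMap_X]
  rw [e]
  have hne : (X ^ 2 + X + 1 : k[X]) ≠ 0 := by
    intro h
    have := congrArg (fun p : k[X] => p.coeff 0) h
    simp at this
  refine DV.G_of_le ?_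
  rw [v.ord_inv (coe_ne hne)]
  by_cases hv : v = inf k
  · rw [hv, inf_poly]
    omega
  · have := ord_h_le hv
    omega

end Rat

section base

variable {k Ω : Type*} [Field k] [Finite k] [CharP k 2] [Field Ω] [Algebra k Ω] [CharP Ω 2]

theorem base_finRes {t : Ω} (ht : Transcendental k t) : FinRes k⟮t⟯ := by
  intro v
  rw [← v.tr_resCard (RatFunc.algEquivOfTranscendental t ht).toRingEquiv]
  exact Rat.resCard_ne _

theorem base_g {t : Ω} (ht : Transcendental k t) : AllW k⟮t⟯ (t + 1 + t⁻¹) := by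
  intro h v
  have h1 := W1.tr (v := v) (e := (RatFunc.algEquivOfTranscendental t ht).toRingEquiv) (Rat.W1_g _)
  have h2 : (⟨t + 1 + t⁻¹, h⟩ : k⟮t⟯) = (RatFunc.algEquivOfTranscendental t ht).toRingEquiv
      (RatFunc.X + 1 + (RatFunc.X : RatFunc k)⁻¹) := by
    apply Subtype.ext
    simp [RatFunc.algEquivOfTranscendental_X]
  rw [h2]
  exact h1

theorem base_u {t : Ω} (ht : Transcendental k t) : AllW k⟮t⟯ (t ^ 2 + t + 1)⁻¹ := by
  intro h v
  have h1 := W1.tr (v := v) (e := (RatFunc.algEquivOfTranscendental t ht).toRingEquiv) (Rat.W1_u _)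
  have h2 : (⟨(t ^ 2 + t + 1)⁻¹, h⟩ : k⟮t⟯) = (RatFunc.algEquivOfTranscendental t ht).toRingEquiv
      (((RatFunc.X : RatFunc k) ^ 2 + RatFunc.X + 1)⁻¹) := by
    apply Subtype.ext
    simp [RatFunc.algEquivOfTranscendental_X]
  rw [h2]
  exact h1

end base

end Pool.Agent.FF
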