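import Pool.Agent.FF.Eight3

/-! The pyramid of the tower `x (n + 1) ^ 2 + x (n + 1) = x n + 1 + 1 / x n`: the reduced pole orders of
`x n + 1 + 1 / x n` are at most one in `k (x 0, .., x n)`. -/

set_option autoImplicit false
set_option linter.unusedSectionVars false
set_option linter.style.haveILetI false

namespace Pool.Agent.FF

open IntermediateField

section

variable {k Ω : Type*} [Field k] [Field Ω] [Algebra k Ω] [CharP Ω 2]

/-- a sequence of generators of the tower -/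
structure Sq8 (k : Type*) {Ω : Type*} [Field k] [Field Ω] [Algebra k Ω] (x : ℕ → Ω) : Prop where
  rel : ∀ n, x (n + 1) ^ 2 + x (n + 1) = x n + 1 + (x n)⁻¹
  t0 : Transcendental k (x 0)

theorem algebraic_of_add_inv {y : Ω} (hy : y ≠ 0) (h : IsAlgebraic k (y + y⁻¹)) : IsAlgebraic k y := by
  have hz : IsIntegral k (y + y⁻¹) := h.isIntegral
  let A := integralClosure k Ω
  have h1 : IsIntegral A y := by
    refine ⟨Polynomial.X ^ 2 + (Polynomial.C (-⟨y + y⁻¹, hz⟩ : A) * Polynomial.X + 1), ?_, ?_⟩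
    · refine Polynomial.monic_X_pow_add ?_
      refine lt_of_le_of_lt (Polynomial.degree_add_le _ _) (max_lt ?_ ?_)
      · exact lt_of_le_of_lt (Polynomial.degree_C_mul_X_le _) (by decide)
      · exact lt_of_le_of_lt Polynomial.degree_one_le (by decide)
    · simp only [Polynomial.eval₂_add, Polynomial.eval₂_mul, Polynomial.eval₂_pow, Polynomial.eval₂_X,
        Polynomial.eval₂_C, Polynomial.eval₂_one]
      change y ^ 2 + (-(y + y⁻¹) * y + 1) = 0
      field_simp
      ring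
  exact (isIntegral_trans (R := k) (A := A) y h1).isAlgebraic

variable {x : ℕ → Ω} (hx : Sq8 k x)

include hx

theorem Sq8.tr (n : ℕ) : Transcendental k (x n) := by
  induction n with
  | zero => exact hx.t0
  | succ n ih =>
    intro h
    apply ih
    have h0 : x n ≠ 0 := by
      intro h0
      exact ih (by rw [h0]; exact isAlgebraic_zero)
    apply algebraic_of_add_inv h0
    have h2 : (2 : Ω) = 0 := CharTwo.two_eq_zero
    have h1 : x n + (x n)⁻¹ = x (n + 1) ^ 2 + x (n + 1) - 1 := by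
      rw [hx.rel n]; ring
    rw [h1]
    exact ((h.pow 2).add h).sub isAlgebraic_one

theorem Sq8.ne_zero (n : ℕ) : x n ≠ 0 := fun h => hx.tr n (by rw [h]; exact isAlgebraic_zero)

theorem Sq8.h_ne (n : ℕ) : x n ^ 2 + x n + 1 ≠ 0 := by
  intro h
  apply hx.tr n
  refine ⟨Polynomial.X ^ 2 + Polynomial.X + 1, ?_, ?_⟩
  · intro h0
    have := congrArg (fun p : Polynomial k => p.coeff 0) h0
    simp at this
  · simpa using h

omit hx in
/-- `k (x i, .., x (i + n))` -/
def Fx (k : Type*) {Ω : Type*} [Field k] [Field Ω] [Algebra k Ω] (x : ℕ → Ω) (i n : ℕ) :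
    IntermediateField k Ω := adjoin k (x '' Set.Icc i (i + n))

omit hx in
theorem mem_Fx {i n j : ℕ} (h1 : i ≤ j) (h2 : j ≤ i + n) : x j ∈ Fx k x i n :=
  subset_adjoin k _ ⟨j, ⟨h1, h2⟩, rfl⟩

omit hx in
theorem g_mem {i n j : ℕ} (h1 : i ≤ j) (h2 : j ≤ i + n) : x j + 1 + (x j)⁻¹ ∈ Fx k x i n :=
  add_mem (add_mem (mem_Fx h1 h2) (one_mem _)) (inv_mem (mem_Fx h1 h2))

omit hx in
theorem u_mem {i n j : ℕ} (h1 : i ≤ j) (h2 : j ≤ i + n) : (x j ^ 2 + x j + 1)⁻¹ ∈ Fx k x i n :=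
  inv_mem (add_mem (add_mem (pow_mem (mem_Fx h1 h2) 2) (mem_Fx h1 h2)) (one_mem _))

theorem Sq8.right (i n : ℕ) : x (i + n + 1) ^ 2 + x (i + n + 1) ∈ Fx k x i n := by
  rw [hx.rel]
  exact g_mem (by omega) le_rfl

theorem Sq8.eq_right (i n : ℕ) : Fx k x i (n + 1) = asExt (Fx k x i n) (x (i + n + 1)) (hx.right i n) := by
  apply le_antisymm
  · refine adjoin_le_iff.2 ?_
    rintro _ ⟨j, ⟨h1, h2⟩, rfl⟩
    by_cases h3 : j ≤ i + n
    · exact le_asExt _ _ _ (mem_Fx h1 h3)
    · have : j = i + n + 1 := by omega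
      rw [this]
      exact mem_asExt _ _ _
  · refine asExt_le _ _ _ ?_ (mem_Fx (by omega) (by omega))
    exact adjoin.mono k _ _ (Set.image_mono (Set.Icc_subset_Icc le_rfl (by omega)))

/-- the generator of the left step -/
theorem Sq8.left_eq (i : ℕ) : (x i / (x (i + 1) ^ 2 + x (i + 1) + 1)) ^ 2 +
    x i / (x (i + 1) ^ 2 + x (i + 1) + 1) = ((x (i + 1) ^ 2 + x (i + 1) + 1)⁻¹) ^ 2 := by
  have h2 : (2 : Ω) = 0 := CharTwo.two_eq_zero
  have h0 := hx.ne_zero i
  have h1 := hx.h_ne (i + 1)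
  have h3 := hx.rel i
  have h4 : x i * (x (i + 1) ^ 2 + x (i + 1) + 1) = x i ^ 2 + 1 := by
    rw [h3]
    field_simp
    linear_combination (x i) * h2
  generalize x (i + 1) ^ 2 + x (i + 1) + 1 = H at *
  field_simp
  linear_combination h4 + (x i ^ 2) * h2

theorem Sq8.left (i n : ℕ) : (x i / (x (i + 1) ^ 2 + x (i + 1) + 1)) ^ 2 +
    x i / (x (i + 1) ^ 2 + x (i + 1) + 1) ∈ Fx k x (i + 1) n := by
  rw [hx.left_eq]
  exact pow_mem (u_mem le_rfl (by omega)) 2

theorem Sq8.eq_left (i n : ℕ) : Fx k x i (n + 1) = asExt (Fx k x (i + 1) n)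
    (x i / (x (i + 1) ^ 2 + x (i + 1) + 1)) (hx.left i n) := by
  apply le_antisymm
  · refine adjoin_le_iff.2 ?_
    rintro _ ⟨j, ⟨h1, h2⟩, rfl⟩
    by_cases h3 : i + 1 ≤ j
    · exact le_asExt _ _ _ (mem_Fx h3 (by omega))
    · have : j = i := by omega
      rw [this]
      have h4 : x i = (x i / (x (i + 1) ^ 2 + x (i + 1) + 1)) * (x (i + 1) ^ 2 + x (i + 1) + 1) :=
        (div_mul_cancel₀ _ (hx.h_ne (i + 1))).symm
      have h5 : x i / (x (i + 1) ^ 2 + x (i + 1) + 1) ∈ asExt (Fx k x (i + 1) n)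
        (x i / (x (i + 1) ^ 2 + x (i + 1) + 1)) (hx.left i n) := mem_asExt _ _ _
      have h6 : x (i + 1) ^ 2 + x (i + 1) + 1 ∈ asExt (Fx k x (i + 1) n)
        (x i / (x (i + 1) ^ 2 + x (i + 1) + 1)) (hx.left i n) := by
        apply le_asExt
        exact add_mem (add_mem (pow_mem (mem_Fx le_rfl (by omega)) 2) (mem_Fx le_rfl (by omega)))
          (one_mem _)
      have h7 := mul_mem h5 h6
      rwa [← h4] at h7
  · refine asExt_le _ _ _ ?_ ?_
    · exact adjoin.mono k _ _ (Set.image_mono (Set.Icc_subset_Icc (by omega) (by omega)))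
    · exact div_mem (mem_Fx le_rfl (by omega)) (add_mem (add_mem (pow_mem (mem_Fx (by omega)
        (by omega)) 2) (mem_Fx (by omega) (by omega))) (one_mem _))

/-- **The pyramid.** -/
theorem Sq8.pyramid [Finite k] [CharP k 2] (n : ℕ) : ∀ i, FinRes (Fx k x i n) ∧
    AllW (Fx k x i n) (x (i + n) + 1 + (x (i + n))⁻¹) ∧
    AllW (Fx k x i n) (x i ^ 2 + x i + 1)⁻¹ := by
  induction n with
  | zero =>
    intro i
    have h : Fx k x i 0 = k⟮x i⟯ := by
      unfold Fx
      rw [add_zero, Set.Icc_self, Set.image_singleton]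
    rw [h, add_zero]
    exact ⟨base_finRes (hx.tr i), base_g (hx.tr i), base_u (hx.tr i)⟩
  | succ n ih =>
    intro i
    obtain ⟨h1, h2, h3⟩ := ih i
    obtain ⟨h4, h5, h6⟩ := ih (i + 1)
    have hr := AllW.step (hx.eq_right i n) h1 (by rw [hx.rel]; exact h2)
    have hl := AllW.step (hx.eq_left i n) h4 (by
      rw [hx.left_eq]
      exact h6.sq (u_mem le_rfl (by omega)))
    refine ⟨hr.1, ?_, hr.2 _ (u_mem le_rfl (by omega)) h3⟩
    have e : i + (n + 1) = i + 1 + n := by omega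
    rw [e]
    exact hl.2 _ (g_mem (by omega) le_rfl) h5

end

end Pool.Agent.FF
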