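import Pool.Agent.FF.Chain
import Pool.Agent.FF.PlX
import Pool.Agent.FF.Eight1

/-! One step of the tower `z ^ 2 + z = y + 1 + 1 / y` over the field with `8` elements. -/

set_option autoImplicit false
set_option linter.unusedSectionVars false
set_option linter.style.haveILetI false

namespace Pool.Agent.FF

open Finset

/-- `y` is a unit at `v`, different from `0`, `1` and the primitive third roots of unity. -/
def U8 {K : Type*} [Field K] (v : DV K) (y : K) : Prop :=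
  v.ord y = 0 ∧ v.ord (y + 1) = 0 ∧ v.ord (y ^ 2 + y + 1) = 0 ∧ y ≠ 0 ∧ y + 1 ≠ 0 ∧ y ^ 2 + y + 1 ≠ 0

/-- The state of the tower at level `j`. -/
def St8 (k : Type) [Field k] (K : Type) [Field K] [Algebra k K] (y : K) (j : ℕ) : Prop :=
  ∃ (g o C : ℕ) (B T : Finset (DV K)), IsFF k K ∧ Cv k K g ∧ Ob K o ∧
    (∀ v, v ∉ B → U8 v y) ∧
    g + ∑ v ∈ B, v.deg (Nat.card k) ≤ 4 * 2 ^ j + 1 ∧
    o + ∑ v ∈ B, v.deg (Nat.card k) ≤ 4 * 2 ^ j + 1 ∧
    (∃ P : DV K, P.Rat k ∧ P.ord y = -1) ∧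
    6 * 2 ^ j ≤ T.card ∧
    (∀ v ∈ T, v.Rat k ∧ ∃ ζ : k, ζ ≠ 0 ∧ ζ ≠ 1 ∧ v.G 1 (y + algebraMap k K ζ)) ∧
    C + 7 ≤ 2 ^ j * (4 * 4 * j + 7) ∧
    HasPlX k K ((4 * 2 ^ j + 2) * (4 * 2 ^ j + 3)) C (2 ^ j)

section unit

variable {K K' : Type*} [Field K] [Field K'] [Algebra K K'] [CharP K 2]

theorem f_eq {y : K} (hy : y ≠ 0) : y + 1 + y⁻¹ = (y ^ 2 + y + 1) / y := by
  field_simp

theorem U8.f {v : DV K} {y : K} (h : U8 v y) : y + 1 + y⁻¹ ≠ 0 ∧ v.ord (y + 1 + y⁻¹) = 0 := by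
  obtain ⟨h1, h2, h3, h4, h5, h6⟩ := h
  rw [f_eq h4]
  refine ⟨div_ne_zero h6 h4, ?_⟩
  rw [v.ord_div h6 h4, h1, h3, sub_zero]

/-- If `z ^ 2 + z` is a unit then so is `z`. -/
theorem ord_of_AS {w : DV K'} {z : K'} (h0 : z ^ 2 + z ≠ 0) (h : w.ord (z ^ 2 + z) = 0) : w.ord z = 0 := by
  have hz0 : z ≠ 0 := by rintro rfl; simp at h0
  have hz1 : z + 1 ≠ 0 := by
    intro h1
    apply h0
    have : z ^ 2 + z = z * (z + 1) := by ring
    rw [this, h1, mul_zero]
  have e : z ^ 2 + z = z * (z + 1) := by ring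
  rw [e, w.ord_mul _ _ hz0 hz1] at h
  rcases lt_trichotomy (w.ord z) 0 with h1 | h1 | h1
  · have h2 := DV.ord_add_of_lt (v := w) (a := z) (b := 1) hz0
      (DV.G_of_le (by rw [w.ord_one]; omega))
    rw [h2.2] at h
    omega
  · exact h1
  · have h2 := DV.ord_add_of_lt (v := w) (a := 1) (b := z) one_ne_zero
      (DV.G_of_le (by rw [w.ord_one]; omega))
    rw [add_comm 1 z, w.ord_one] at h2
    rw [h2.2] at h
    omega

theorem U8.up {v : DV K} {y : K} (h : U8 v y) {w : DV K'} (hw : Over w v) {z : K'}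
    (hz : z ^ 2 + z = algebraMap K K' (y + 1 + y⁻¹)) : U8 w z := by
  have two : (2 : K') = 0 := by
    have : (2 : K) = 0 := CharTwo.two_eq_zero
    calc (2 : K') = algebraMap K K' 2 := (map_ofNat (algebraMap K K') 2).symm
      _ = 0 := by rw [this, map_zero]
  obtain ⟨hf0, hf⟩ := h.f
  obtain ⟨e, he, hord⟩ := hw
  have h0 : z ^ 2 + z ≠ 0 := by rw [hz]; exact map_ne_zero' hf0
  have h1 : w.ord (z ^ 2 + z) = 0 := by rw [hz, hord _ hf0, hf, mul_zero]
  have hz0 : z ≠ 0 := by rintro rfl; simp at h0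
  have hz1 : z + 1 ≠ 0 := by
    intro h1
    apply h0
    have : z ^ 2 + z = z * (z + 1) := by ring
    rw [this, h1, mul_zero]
  have h2 : (z + 1) ^ 2 + (z + 1) = z ^ 2 + z := by linear_combination (z + 1) * two
  have h3 : z ^ 2 + z + 1 = algebraMap K K' ((y + 1) ^ 2 / y) := by
    have h4 : y + 1 + y⁻¹ + 1 = (y + 1) ^ 2 / y := by
      have : (2 : K) = 0 := CharTwo.two_eq_zero
      have hy := h.2.2.2.1
      field_simp
      linear_combination 0 * this
    rw [hz, ← h4]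
    simp only [map_add, map_one]
  have hy0 := h.2.2.2.1
  have hy1 := h.2.2.2.2.1
  have h5 : (y + 1) ^ 2 / y ≠ 0 := div_ne_zero (pow_ne_zero 2 hy1) hy0
  refine ⟨ord_of_AS h0 h1, ord_of_AS (by rw [h2]; exact h0) (by rw [h2]; exact h1), ?_, hz0, hz1, ?_⟩
  · rw [h3, hord _ h5, v.ord_div (pow_ne_zero 2 hy1) hy0, v.ord_pow hy1, h.1, h.2.1]
    simp
  · rw [h3]
    exact map_ne_zero' h5

end unit

/-- In the field with `8` elements `ζ + 1 + 1 / ζ` has the form `η ^ 2 + η` for `ζ ≠ 0, 1`. -/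
theorem exists_eta {k : Type} [Field k] [Finite k] [CharP k 2] (hk : Nat.card k = 8) {ζ : k}
    (h0 : ζ ≠ 0) (h1 : ζ ≠ 1) : ∃ η : k, η ≠ 0 ∧ η ≠ 1 ∧ η ^ 2 + η = ζ + 1 + ζ⁻¹ := by
  cases nonempty_fintype k
  have two : (2 : k) = 0 := CharTwo.two_eq_zero
  have h7 : ζ ^ 7 = 1 := by
    have := FiniteField.pow_card_sub_one_eq_one ζ h0
    rwa [← Nat.card_eq_fintype_card, hk] at this
  have hne : ζ ^ 2 + ζ + 1 ≠ 0 := by
    intro h
    apply h1
    have h3 : ζ ^ 3 = 1 := by linear_combination (ζ + 1) * h - (ζ ^ 2 + ζ + 1) * two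
    have h6 : ζ ^ 7 = ζ := by
      calc ζ ^ 7 = (ζ ^ 3) ^ 2 * ζ := by ring
        _ = ζ := by rw [h3]; ring
    rw [← h6]; exact h7
  have key : (ζ ^ 3 + ζ + 1) * (ζ ^ 3 + ζ ^ 2 + 1) = 0 := by
    have h8 : (ζ - 1) * ((ζ ^ 3 + ζ + 1) * (ζ ^ 3 + ζ ^ 2 + 1)) = 0 := by
      linear_combination h7 + (ζ ^ 4 - ζ ^ 3) * two
    exact (mul_eq_zero.1 h8).resolve_left (sub_ne_zero.2 h1)
  have hfin : ∀ η : k, η ^ 2 + η = ζ + 1 + ζ⁻¹ → η ≠ 0 ∧ η ≠ 1 := by
    intro η hη
    have h9 : ζ + 1 + ζ⁻¹ ≠ 0 := by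
      rw [show ζ + 1 + ζ⁻¹ = (ζ ^ 2 + ζ + 1) / ζ by field_simp]
      exact div_ne_zero hne h0
    constructor
    · rintro rfl
      exact h9 (by rw [← hη]; ring)
    · rintro rfl
      exact h9 (by rw [← hη]; linear_combination two)
  rcases mul_eq_zero.1 key with h | h
  · have hη : ζ ^ 2 + ζ = ζ + 1 + ζ⁻¹ := by
      field_simp
      linear_combination h - (ζ + 1) * two
    exact ⟨ζ, h0, h1, hη⟩
  · have hη : (ζ ^ 2 + ζ) ^ 2 + (ζ ^ 2 + ζ) = ζ + 1 + ζ⁻¹ := by
      field_simp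
      linear_combination (ζ ^ 2 + ζ - 1) * h + (ζ ^ 3 - ζ) * two
    exact ⟨ζ ^ 2 + ζ, (hfin _ hη).1, (hfin _ hη).2, hη⟩

section step

variable {k : Type} [Field k] [Finite k] [CharP k 2]

theorem f_ord_neg {K : Type*} [Field K] {P : DV K} {y : K} (h : P.ord y = -1) :
    P.ord (y + 1 + y⁻¹) = -1 := by
  have hy : y ≠ 0 := by
    rintro rfl
    rw [P.ord_zero] at h
    omega
  have h1 : P.G (P.ord y + 1) (1 + y⁻¹) := by
    rw [h]
    refine DV.G.add ?_ ?_
    · exact DV.G_one.mono (by norm_num)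
    · exact DV.G_of_le (by rw [P.ord_inv hy, h]; norm_num)
  have h2 := (DV.ord_add_of_lt hy h1).2
  rw [← add_assoc] at h2
  rw [h2, h]

theorem St8.irr {K : Type} [Field K] [Algebra k K] [CharP K 2] {y : K} {j : ℕ} (h : St8 k K y j)
    (c : K) : c ^ 2 + c ≠ y + 1 + y⁻¹ := by
  obtain ⟨g, o, C, B, T, -, -, -, -, -, -, ⟨P, -, hP⟩, -⟩ := h
  intro hc
  have h1 := f_ord_neg hP
  rw [← hc] at h1
  exact DV.not_odd_pole (v := P) (c := c) (e := 1) le_rfl (by rw [h1]; norm_num)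

theorem St8.step (hk : Nat.card k = 8) {K K' : Type} [Field K] [Algebra k K] [CharP K 2] [Field K']
    [Algebra k K'] [CharP K' 2] [Algebra K K'] [IsScalarTower k K K'] {y f : K} {j : ℕ}
    (h : St8 k K y j) (hf : f = y + 1 + y⁻¹) (hW : ∀ v : DV K, W1 v f) (S : AS K K' f) :
    St8 k K' S.y (j + 1) := by
  classical
  obtain ⟨g, o, C, B, T, hFF, hC, hO, hU, hg, ho, ⟨P, hPr, hP⟩, hT, hT', hCb, hPl⟩ := h
  have two : (2 : K) = 0 := CharTwo.two_eq_zero
  have two' := AS.two' K K'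
  -- normal form
  have hnf : ∀ v : DV K, ∃ (c : K) (D : ℕ), (v.G 0 f → c = 0 ∧ D = 0) ∧
      ((D = 0 ∧ v.G 0 (f + (c ^ 2 + c))) ∨ (D = 1 ∧ v.ord (f + (c ^ 2 + c)) = -1)) := by
    intro v
    by_cases h1 : v.G 0 f
    · exact ⟨0, 0, fun _ => ⟨rfl, rfl⟩, Or.inl ⟨rfl, by simpa using h1⟩⟩
    · obtain ⟨c, hc⟩ := hW v
      by_cases h2 : v.G 0 (f + (c ^ 2 + c))
      · exact ⟨c, 0, fun h3 => absurd h3 h1, Or.inl ⟨rfl, h2⟩⟩
      · refine ⟨c, 1, fun h3 => absurd h3 h1, Or.inr ⟨rfl, ?_⟩⟩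
        have h3 := DV.ne_zero_of_not_G h2
        have h4 := (DV.not_G h3).1 h2
        have h5 := hc.le h3
        omega
  choose c D hcD hnf using hnf
  have hNF : NF f D c :=
    { cA := (hC.poles f).subset fun v hv h1 => hv (by rw [(hcD v h1).1]; exact DV.G_zero _)
      fin := (hC.poles f).subset fun v hv h1 => hv (hcD v h1).2
      int := fun v hv => by
        rcases hnf v with h1 | h1
        · exact h1.2
        · exact absurd (h1.1.symm.trans hv) one_ne_zero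
      odd := fun v hv => by
        rcases hnf v with h1 | h1
        · exact absurd h1.1 hv
        · rw [h1.2, h1.1]; norm_num }
  -- the ramified places
  set R : Finset (DV K) := hNF.fin.toFinset with hR
  have hRm : ∀ v, v ∈ R ↔ D v ≠ 0 := fun v => by rw [hR, Set.Finite.mem_toFinset]; exact Iff.rfl
  have hRB : R ⊆ B := by
    intro v hv
    by_contra h1
    have h2 := (hU v h1).f
    rw [← hf] at h2
    exact (hRm v).1 hv (hcD v (DV.G_of_le h2.2.ge)).2
  have hD1 : ∀ v ∈ R, D v = 1 := fun v hv => by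
    rcases hnf v with h1 | h1
    · exact absurd h1.1 ((hRm v).1 hv)
    · exact h1.1
  have hfP := f_ord_neg hP
  rw [← hf] at hfP
  have hPR : D P ≠ 0 := by
    intro h1
    exact DV.not_int_of_odd (v := P) (f := f + (c P ^ 2 + c P)) (c := c P) (e := 1) le_rfl (by
      have e1 : f + (c P ^ 2 + c P) + (c P ^ 2 + c P) = f := by
        linear_combination (c P ^ 2 + c P) * two
      rw [e1, hfP]
      norm_num) (hNF.int P h1)
  have hPR' : P ∈ R := (hRm P).2 hPR
  obtain ⟨g', hg', hC'⟩ := hC.double S hNF ⟨P, hPR⟩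
  have hsum : ∑ᶠ v, D v * v.deg (Nat.card k) = ∑ v ∈ R, v.deg (Nat.card k) := by
    rw [finsum_eq_sum_of_support_subset (s := R)]
    · exact sum_congr rfl fun v hv => by rw [hD1 v hv, one_mul]
    · intro v hv
      rw [Function.mem_support] at hv
      rw [mem_coe, hRm]
      exact fun h0 => hv (by rw [h0, zero_mul])
  have hres : ∀ v : DV K, Nat.card v.Res = Nat.card k ^ v.deg (Nat.card k) := fun v => (hC.res v).2
  have hdeg1 : ∀ v : DV K, 1 ≤ v.deg (Nat.card k) := fun v => (hC.res v).1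
  have hfin : ∀ v : DV K, Finite v.Res := by
    intro v
    apply Nat.finite_of_card_ne_zero
    rw [hres v]
    exact pow_ne_zero _ Nat.card_pos.ne'
  have hRcard : Nat.card {v : DV K | D v ≠ 0} = R.card := by
    have : {v : DV K | D v ≠ 0} = (R : Set (DV K)) := by
      ext v
      rw [mem_coe, hRm]
      rfl
    rw [this]
    simp
  have hRle : R.card ≤ ∑ v ∈ R, v.deg (Nat.card k) := by
    rw [card_eq_sum_ones]
    exact sum_le_sum fun v _ => hdeg1 v
  have hRpos : 1 ≤ R.card := card_pos.2 ⟨P, hPR'⟩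
  have hO' := Ob.up S hNF hC.poles hfin hPR hPr hO
  rw [hRcard] at hO'
  have hq : 2 ≤ Nat.card k := Finite.one_lt_card
  -- the places over `B`
  obtain ⟨B₁, hB₁, hB₁d⟩ := exists_fibers (K' := K') (Nat.card k) 1 R fun v hv => by
    obtain ⟨w₀, h1, h2⟩ := (S.shift (c v)).fib_ram (Nat.card k) (m := 1) odd_one (by
      rcases hnf v with h1 | h1
      · exact absurd h1.1 ((hRm v).1 hv)
      · rw [h1.2]; norm_num)
    exact ⟨{w₀}, fun w => by rw [mem_singleton]; exact h1 w, by rw [sum_singleton, h2, one_mul]⟩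
  obtain ⟨B₂, hB₂, hB₂d⟩ := exists_fibers (K' := K') (Nat.card k) 2 (B \ R) fun v hv =>
    S.fib_unram hq (hres v) (hNF.int v (by
      by_contra h1
      exact (mem_sdiff.1 hv).2 ((hRm v).2 h1)))
  have hsplit : ∑ v ∈ B \ R, v.deg (Nat.card k) + ∑ v ∈ R, v.deg (Nat.card k) =
      ∑ v ∈ B, v.deg (Nat.card k) := sum_sdiff hRB
  have hB' : ∑ w ∈ B₁ ∪ B₂, w.deg (Nat.card k) + ∑ v ∈ R, v.deg (Nat.card k) ≤
      2 * ∑ v ∈ B, v.deg (Nat.card k) := by
    have h1 : ∑ w ∈ B₁ ∪ B₂, w.deg (Nat.card k) ≤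
        ∑ w ∈ B₁, w.deg (Nat.card k) + ∑ w ∈ B₂, w.deg (Nat.card k) := by
      rw [← sum_union_inter]
      exact Nat.le_add_right _ _
    omega
  -- the split places
  have key : ∀ v ∈ T, ∃ F : Finset (DV K'), F.card = 2 ∧ ∀ w ∈ F, Over w v ∧ w.Rat k ∧
      ∃ ζ : k, ζ ≠ 0 ∧ ζ ≠ 1 ∧ w.G 1 (S.y + algebraMap k K' ζ) := by
    intro v hv
    obtain ⟨hvr, ζ, hz0, hz1, hζ⟩ := hT' v hv
    obtain ⟨η, he0, he1, he⟩ := exists_eta hk hz0 hz1
    have hζK : algebraMap k K ζ ≠ 0 := (_root_.map_ne_zero _).2 hz0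
    have hordζ : v.ord (algebraMap k K ζ) = 0 := v.ord_const ζ
    have hs : v.G 1 (f + ((algebraMap k K η) ^ 2 + algebraMap k K η)) := by
      have hy := hζ.add (DV.G_zero 1)
      have hyne : y ≠ 0 := by
        rintro rfl
        rw [zero_add] at hζ
        have := hζ.le hζK
        omega
      have hordy : v.ord y = 0 := by
        have h1 : v.G (v.ord (algebraMap k K ζ) + 1) (y + algebraMap k K ζ) := by
          rw [hordζ]; exact hζ
        have h2 := (DV.ord_add_of_lt hζK h1).2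
        have h3 : algebraMap k K ζ + (y + algebraMap k K ζ) = y := by
          linear_combination (algebraMap k K ζ) * two
        rw [h3, hordζ] at h2
        exact h2
      have h4 : f + ((algebraMap k K η) ^ 2 + algebraMap k K η) =
          (y + algebraMap k K ζ) + (y + algebraMap k K ζ) * (y * algebraMap k K ζ)⁻¹ := by
        have h5 := congrArg (algebraMap k K) he
        simp only [map_add, map_pow, map_one, map_inv₀] at h5
        rw [h5, hf]
        field_simp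
        linear_combination (y * algebraMap k K ζ) * two
      rw [h4]
      refine hζ.add ?_
      have h6 : v.G 0 (y * algebraMap k K ζ)⁻¹ := DV.G_of_le (by
        rw [v.ord_inv (mul_ne_zero hyne hζK), v.ord_mul _ _ hyne hζK, hordy, hordζ]; norm_num)
      exact (hζ.mul h6).mono (by norm_num)
    obtain ⟨w₁, w₂, hne, ho1, ho2, -, hr1, hr2, -, -, hy1, hy2⟩ := S.split_places_rat hvr hs
    rw [← IsScalarTower.algebraMap_apply] at hy1 hy2
    refine ⟨{w₁, w₂}, card_pair hne, fun w hw => ?_⟩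
    rw [mem_insert, mem_singleton] at hw
    rcases hw with rfl | rfl
    · exact ⟨ho1, hr1, η, he0, he1, hy1⟩
    · refine ⟨ho2, hr2, η + 1, ?_, ?_, ?_⟩
      · intro h1
        apply he1
        have twok : (2 : k) = 0 := CharTwo.two_eq_zero
        linear_combination h1 - twok
      · intro h1
        apply he0
        linear_combination h1
      · rw [map_add, map_one, ← add_assoc]
        exact hy2
  choose! F hF1 hF2 using key
  obtain ⟨P', hP'1, -⟩ := S.fib_ram (Nat.card k) (m := 1) odd_one (v := P) (by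
    rw [hfP]; norm_num)
  have hP'o : Over P' P := (hP'1 P').1 rfl
  have hg'8 : g' ≤ 4 * 2 ^ (j + 1) + 1 := by
    rw [hsum] at hg'
    have : ∑ v ∈ R, v.deg (Nat.card k) ≤ ∑ v ∈ B, v.deg (Nat.card k) := sum_le_sum_of_subset hRB
    rw [pow_succ]
    omega
  refine ⟨g', _, _, B₁ ∪ B₂, T.biUnion F, hFF.up hC' S, hC', hO', ?_, ?_, ?_,
    ⟨P', S.rat_ram hPr (m := 1) odd_one (by rw [hfP]; norm_num) hP'o,
      (S.over_of_odd' hP'o (m := 1) odd_one (by rw [hfP]; norm_num)).2.1⟩, ?_, ?_,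
    const_rec (m := 4) hCb hg'8, ?_⟩
  · intro w hw
    obtain ⟨v, hv⟩ := S.exists_over w
    have hvB : v ∉ B := by
      intro h1
      apply hw
      by_cases h2 : v ∈ R
      · exact mem_union_left _ ((hB₁ w).2 ⟨v, h2, hv⟩)
      · exact mem_union_right _ ((hB₂ w).2 ⟨v, mem_sdiff.2 ⟨h1, h2⟩, hv⟩)
    exact (hU v hvB).up hv (by rw [S.eq, hf])
  · rw [hsum] at hg'
    rw [pow_succ]
    omega
  · rw [pow_succ]
    omega
  · rw [card_biUnion]
    · rw [sum_congr rfl hF1, sum_const, smul_eq_mul, pow_succ]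
      omega
    · intro v hv v' hv' hne
      change Disjoint (F v) (F v')
      rw [disjoint_left]
      intro w hw hw'
      exact hne ((hF2 v hv w hw).1.unique (hF2 v' hv' w hw').1)
  · intro w hw
    obtain ⟨v, hv, hw⟩ := mem_biUnion.1 hw
    exact (hF2 v hv w hw).2
  · have h := HasPlX.up hC hC' S hNF hPr hPR hg' hPl
    refine h.mono ?_ le_rfl (by rw [pow_succ]; omega)
    have h1 : 4 * 2 ^ j ≤ 4 * 2 ^ (j + 1) :=
      Nat.mul_le_mul_left _ (Nat.pow_le_pow_right (by norm_num) (by omega))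
    exact max_le (Nat.mul_le_mul (by omega) (by omega)) (Nat.mul_le_mul (by omega) (by omega))

end step

end Pool.Agent.FF
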