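import Pool.Agent.FF.Eight4
import Pool.Agent.FF.Eight5

/-! The base of the tower over the field with `8` elements: the rational function field. -/

set_option autoImplicit false
set_option linter.unusedSectionVars false
set_option linter.style.haveILetI false

namespace Pool.Agent.FF

open Finset Polynomial

section base

variable {k : Type} [Field k] [Finite k] [CharP k 2]

theorem no_root8 (hk : Nat.card k = 8) (ζ : k) : ζ ^ 2 + ζ + 1 ≠ 0 := by
  cases nonempty_fintype k
  have two : (2 : k) = 0 := CharTwo.two_eq_zero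
  intro h
  have h0 : ζ ≠ 0 := by
    rintro rfl
    simp at h
  have h7 : ζ ^ 7 = 1 := by
    have := FiniteField.pow_card_sub_one_eq_one ζ h0
    rwa [← Nat.card_eq_fintype_card, hk] at this
  have h3 : ζ ^ 3 = 1 := by linear_combination (ζ + 1) * h - (ζ ^ 2 + ζ + 1) * two
  have h6 : ζ ^ 7 = ζ := by
    calc ζ ^ 7 = (ζ ^ 3) ^ 2 * ζ := by ring
      _ = ζ := by rw [h3]; ring
  have h8 : ζ = 1 := by rw [← h6]; exact h7
  rw [h8] at h
  have h9 : (1 : k) = 0 := by linear_combination h - two
  exact one_ne_zero h9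

theorem monic_h (k : Type) [Field k] : (X ^ 2 + X + 1 : k[X]).Monic := by
  rw [add_assoc]
  exact monic_X_pow_add (lt_of_le_of_lt (degree_add_le _ _) (max_lt (by rw [degree_X]; decide)
    (lt_of_le_of_lt degree_one_le (by decide))))

theorem natDegree_h (k : Type) [Field k] : (X ^ 2 + X + 1 : k[X]).natDegree = 2 := by
  compute_degree!

theorem irreducible_h (hk : Nat.card k = 8) : Irreducible (X ^ 2 + X + 1 : k[X]) := by
  refine irreducible_of_degree_le_three_of_not_isRoot (by rw [natDegree_h]; simp) ?_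
  intro ζ h
  refine no_root8 hk ζ ?_
  simpa using h

open Classical in
theorem St8.base (hk : Nat.card k = 8) : St8 k (RatFunc k) RatFunc.X 0 := by
  cases nonempty_fintype k
  have twok : (2 : k) = 0 := CharTwo.two_eq_zero
  have hirr := irreducible_h hk
  set Q : DV (RatFunc k) := Rat.fin _ hirr with hQ
  have hQat : Rat.At Q (X ^ 2 + X + 1 : k[X]) := Rat.fin_at hirr (monic_h k)
  have hQd : Q.deg (Nat.card k) = 2 := by rw [hQat.deg, natDegree_h]
  have h1 : Rat.inf k ∉ ({Rat.pt 0, Rat.pt 1, Q} : Finset (DV (RatFunc k))) := by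
    simp only [mem_insert, mem_singleton, not_or]
    exact ⟨(Rat.pt_ne_inf 0).symm, (Rat.pt_ne_inf 1).symm, hQat.ne_inf.symm⟩
  have hne : ∀ a : k, Rat.pt a ≠ Q := by
    intro a h
    have h2 := (Rat.pt_at a).inj (h ▸ hQat)
    have h3 := congrArg natDegree h2
    rw [natDegree_X_sub_C, natDegree_h] at h3
    omega
  have h2 : Rat.pt (0 : k) ∉ ({Rat.pt 1, Q} : Finset (DV (RatFunc k))) := by
    simp only [mem_insert, mem_singleton, not_or]
    exact ⟨fun h => zero_ne_one (Rat.pt_injective h), hne 0⟩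
  have h3 : Rat.pt (1 : k) ∉ ({Q} : Finset (DV (RatFunc k))) := by
    simp only [mem_singleton]
    exact hne 1
  have hsum : ∑ v ∈ ({Rat.inf k, Rat.pt 0, Rat.pt 1, Q} : Finset (DV (RatFunc k))),
      v.deg (Nat.card k) = 5 := by
    rw [sum_insert h1, sum_insert h2, sum_insert h3, sum_singleton, Rat.deg_inf, Rat.deg_pt,
      Rat.deg_pt, hQd]
    norm_num
  refine ⟨0, 0, 0, {Rat.inf k, Rat.pt 0, Rat.pt 1, Q},
    (univ.filter fun a : k => a ≠ 0 ∧ a ≠ 1).image Rat.pt, Rat.isFF k, Rat.cv, Ob.base, ?_, ?_, ?_,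
    ⟨Rat.inf k, Rat.inf_rat, Rat.inf_X⟩, ?_, ?_, by norm_num, ?_⟩
  · intro v hv
    simp only [mem_insert, mem_singleton, not_or] at hv
    obtain ⟨v1, v2, v3, v4⟩ := hv
    rcases Rat.inf_or_at v with h | ⟨π, h⟩
    · exact absurd h v1
    have hX : ¬ π ∣ (X : k[X]) := by
      intro hd
      have h4 := h.irr.associated_of_dvd irreducible_X hd
      have h5 := eq_of_monic_of_associated h.monic monic_X h4
      have h6 : Rat.At (Rat.pt (0 : k)) π := by
        have := Rat.pt_at (0 : k)
        rwa [C_0, sub_zero, ← h5] at this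
      exact v2 (h.unique h6)
    have hX1 : ¬ π ∣ (X + 1 : k[X]) := by
      intro hd
      have e : (X + 1 : k[X]) = X - C 1 := by
        have : (2 : k[X]) = 0 := CharTwo.two_eq_zero
        rw [C_1]
        linear_combination this
      rw [e] at hd
      have h4 := h.irr.associated_of_dvd (irreducible_X_sub_C 1) hd
      have h5 := eq_of_monic_of_associated h.monic (monic_X_sub_C 1) h4
      have h6 : Rat.At (Rat.pt (1 : k)) π := by
        have := Rat.pt_at (1 : k)
        rwa [← h5] at this
      exact v3 (h.unique h6)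
    have hX2 : ¬ π ∣ (X ^ 2 + X + 1 : k[X]) := by
      intro hd
      have h4 := h.irr.associated_of_dvd hirr hd
      have h5 := eq_of_monic_of_associated h.monic (monic_h k) h4
      exact v4 (h.unique (h5 ▸ hQat))
    have e0 : (RatFunc.X : RatFunc k) = algebraMap k[X] (RatFunc k) X := RatFunc.algebraMap_X.symm
    have e1 : (RatFunc.X + 1 : RatFunc k) = algebraMap k[X] (RatFunc k) (X + 1) := by
      rw [map_add, map_one, RatFunc.algebraMap_X]
    have e2 : (RatFunc.X ^ 2 + RatFunc.X + 1 : RatFunc k) =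
        algebraMap k[X] (RatFunc k) (X ^ 2 + X + 1) := by
      rw [map_add, map_add, map_pow, map_one, RatFunc.algebraMap_X]
    refine ⟨?_, ?_, ?_, RatFunc.X_ne_zero, ?_, ?_⟩
    · rw [e0, h.ord_zero' hX]
    · rw [e1, h.ord_zero' hX1]
    · rw [e2, h.ord_zero' hX2]
    · rw [e1]
      exact Rat.coe_ne fun h0 => hX1 (h0 ▸ dvd_zero _)
    · rw [e2]
      exact Rat.coe_ne fun h0 => hX2 (h0 ▸ dvd_zero _)
  · rw [hsum]
    norm_num
  · rw [hsum]
    norm_num
  · rw [card_image_of_injective _ Rat.pt_injective]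
    have h4 : (univ.filter fun a : k => a ≠ 0 ∧ a ≠ 1) = (univ.erase 0).erase 1 := by
      ext a
      simp only [mem_filter, mem_univ, true_and, mem_erase, and_true]
      tauto
    rw [h4, card_erase_of_mem (by simp), card_erase_of_mem (mem_univ _), card_univ,
      ← Nat.card_eq_fintype_card, hk]
    norm_num
  · intro v hv
    obtain ⟨a, ha, rfl⟩ := mem_image.1 hv
    obtain ⟨-, ha0, ha1⟩ := mem_filter.1 ha
    refine ⟨Rat.pt_rat a, a, ha0, ha1, ?_⟩
    have e : (RatFunc.X : RatFunc k) + algebraMap k (RatFunc k) a =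
        RatFunc.X - algebraMap k (RatFunc k) a := by
      have : (2 : RatFunc k) = 0 := by
        have h5 := congrArg (algebraMap k (RatFunc k)) twok
        rwa [map_ofNat, map_zero] at h5
      linear_combination (algebraMap k (RatFunc k) a) * this
    rw [e]
    exact DV.G_of_le (Rat.pt_ord a).ge
  · exact (HasPlX.base k).mono (Nat.zero_le _) le_rfl (by simp)

end base

end Pool.Agent.FF
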