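import Pool.Agent.FF.Eight6
import Pool.Agent.FF.AssemN

/-! The tower over the field with `8` elements. -/

set_option autoImplicit false
set_option linter.unusedSectionVars false
set_option linter.style.haveILetI false

namespace Pool.Agent.FF

open IntermediateField

section lift

variable {K K' Ω : Type*} [Field K] [Field K'] [Field Ω] [Algebra K K'] [CharP K 2] {f : K}

/-- Extension of an embedding to `K + K y`. -/
noncomputable def AS.lift (S : AS K K' f) (ψ : K →+* Ω) (z : Ω) (hz : z ^ 2 + z = ψ f) : K' →+* Ω where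
  toFun x := ψ (S.a x) + ψ (S.b x) * z
  map_zero' := by rw [S.ab_zero.1, S.ab_zero.2]; simp
  map_one' := by rw [S.ab_one.1, S.ab_one.2]; simp
  map_add' x y := by rw [S.a_add, S.b_add, map_add, map_add]; ring
  map_mul' x y := by
    have two : (2 : Ω) = 0 := by
      have : (2 : K) = 0 := CharTwo.two_eq_zero
      have h := congrArg ψ this
      rwa [map_ofNat, map_zero] at h
    rw [(S.ab_mul x y).1, (S.ab_mul x y).2]
    simp only [map_add, map_mul]
    linear_combination -(ψ (S.b x) * ψ (S.b y)) * hz + (ψ (S.b x) * ψ (S.b y) * z) * two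

theorem AS.lift_apply (S : AS K K' f) (ψ : K →+* Ω) (z : Ω) (hz : z ^ 2 + z = ψ f) (x : K') :
    S.lift ψ z hz x = ψ (S.a x) + ψ (S.b x) * z := rfl

end lift

section chain

variable {k : Type} [Field k] [Finite k] [CharP k 2]

/-- a sequence of generators in an algebraically closed field -/
theorem exists_Sq8 (k : Type) [Field k] : ∃ x : ℕ → AlgebraicClosure (RatFunc k), Sq8 k x := by
  have h : ∀ c : AlgebraicClosure (RatFunc k), ∃ z : AlgebraicClosure (RatFunc k), z ^ 2 + z = c := by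
    intro c
    obtain ⟨z, hz⟩ := IsAlgClosed.exists_root (Polynomial.X ^ 2 + (Polynomial.X - Polynomial.C c) :
      Polynomial (AlgebraicClosure (RatFunc k))) (by
      rw [Polynomial.degree_add_eq_left_of_degree_lt]
      · rw [Polynomial.degree_X_pow]; decide
      · rw [Polynomial.degree_X_pow]
        exact lt_of_le_of_lt (Polynomial.degree_sub_le _ _) (max_lt (by
          rw [Polynomial.degree_X]; decide) (lt_of_le_of_lt Polynomial.degree_C_le (by decide))))
    refine ⟨z, ?_⟩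
    have h1 : z ^ 2 + (z - c) = 0 := by simpa using hz
    linear_combination h1
  choose rt hrt using h
  let x : ℕ → AlgebraicClosure (RatFunc k) := fun n => Nat.rec
    (algebraMap (RatFunc k) (AlgebraicClosure (RatFunc k)) RatFunc.X) (fun _ y => rt (y + 1 + y⁻¹)) n
  refine ⟨x, fun n => hrt _, ?_⟩
  change Transcendental k (algebraMap (RatFunc k) (AlgebraicClosure (RatFunc k)) RatFunc.X)
  rw [transcendental_algebraMap_iff (algebraMap (RatFunc k) _).injective]
  exact RatFunc.transcendental_X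

theorem chain8 (hk : Nat.card k = 8) {Ω : Type} [Field Ω] [Algebra k Ω] [CharP Ω 2] {x : ℕ → Ω}
    (hx : Sq8 k x) (n : ℕ) : ∃ (K : Type) (_ : Field K) (_ : Algebra k K) (_ : CharP K 2) (y : K)
      (ψ : K →+* Ω), ψ y = x n ∧ (∀ z : Ω, z ∈ Fx k x 0 n ↔ ∃ a, ψ a = z) ∧ St8 k K y n := by
  induction n with
  | zero =>
    have : CharP (RatFunc k) 2 :=
      charP_of_injective_algebraMap (algebraMap k (RatFunc k)).injective 2
    have h0 : Fx k x 0 0 = k⟮x 0⟯ := by
      unfold Fx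
      rw [add_zero, Set.Icc_self, Set.image_singleton]
    let e := RatFunc.algEquivOfTranscendental (x 0) (hx.tr 0)
    refine ⟨RatFunc k, inferInstance, inferInstance, this, RatFunc.X,
      (algebraMap k⟮x 0⟯ Ω).comp (e : RatFunc k →+* k⟮x 0⟯), ?_, ?_, St8.base hk⟩
    · exact RatFunc.algEquivOfTranscendental_X (x 0) (hx.tr 0)
    · intro z
      rw [h0]
      constructor
      · intro hz
        refine ⟨e.symm ⟨z, hz⟩, ?_⟩
        change ((e (e.symm ⟨z, hz⟩) : k⟮x 0⟯) : Ω) = z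
        rw [AlgEquiv.apply_symm_apply]
      · rintro ⟨a, rfl⟩
        exact (e a).2
  | succ n ih =>
    obtain ⟨K, _, _, _, y, ψ, hy, hr, hS⟩ := ih
    obtain ⟨K', _, _, ⟨S⟩⟩ := exists_AS (f := y + 1 + y⁻¹) (fun c h => hS.irr c h)
    letI : Algebra k K' := ((algebraMap K K').comp (algebraMap k K)).toAlgebra
    haveI : IsScalarTower k K K' := IsScalarTower.of_algebraMap_eq fun _ => rfl
    haveI : CharP K' 2 := charP_of_injective_algebraMap (algebraMap K K').injective 2
    have hψf : ψ (y + 1 + y⁻¹) = x n + 1 + (x n)⁻¹ := by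
      rw [map_add, map_add, map_one, map_inv₀, hy]
    have hz : x (n + 1) ^ 2 + x (n + 1) = ψ (y + 1 + y⁻¹) := by rw [hx.rel, hψf]
    -- the reduced pole orders
    have hW : ∀ v : DV K, W1 v (y + 1 + y⁻¹) := by
      intro v
      let e0 : K →+* Fx k x 0 n := ψ.codRestrict (Fx k x 0 n).toSubfield.toSubring
        (fun a => (hr _).2 ⟨a, rfl⟩)
      have hbij : Function.Bijective e0 := by
        refine ⟨e0.injective, ?_⟩
        rintro ⟨z, hz⟩
        obtain ⟨a, ha⟩ := (hr z).1 hz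
        exact ⟨a, Subtype.ext ha⟩
      let e : K ≃+* Fx k x 0 n := RingEquiv.ofBijective e0 hbij
      have h1 := (hx.pyramid n 0).2.1
      have h2 : x (0 + n) + 1 + (x (0 + n))⁻¹ ∈ Fx k x 0 n := g_mem (by omega) (by omega)
      have h3 := W1.tr (v := v) (e := e.symm) (h1 h2 (v.tr e.symm))
      have h4 : e.symm ⟨_, h2⟩ = y + 1 + y⁻¹ := by
        rw [RingEquiv.symm_apply_eq]
        apply Subtype.ext
        change x (0 + n) + 1 + (x (0 + n))⁻¹ = ψ (y + 1 + y⁻¹)
        rw [hψf, Nat.zero_add]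
      rwa [h4] at h3
    refine ⟨K', inferInstance, inferInstance, inferInstance, S.y, S.lift ψ (x (n + 1)) hz, ?_, ?_,
      hS.step hk rfl hW S⟩
    · rw [S.lift_apply, S.ab_y.1, S.ab_y.2]
      simp
    · intro z
      have h5 := hx.eq_right 0 n
      have e1 : 0 + n + 1 = n + 1 := by omega
      rw [h5]
      constructor
      · rintro ⟨a, ha, b, hb, rfl⟩
        obtain ⟨a', rfl⟩ := (hr a).1 ha
        obtain ⟨b', rfl⟩ := (hr b).1 hb
        refine ⟨algebraMap K K' a' + algebraMap K K' b' * S.y, ?_⟩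
        obtain ⟨h6, h7⟩ := S.ab_eq (x := algebraMap K K' a' + algebraMap K K' b' * S.y) rfl
        rw [S.lift_apply, h6, h7, e1]
      · rintro ⟨a, rfl⟩
        refine ⟨ψ (S.a a), (hr _).2 ⟨_, rfl⟩, ψ (S.b a), (hr _).2 ⟨_, rfl⟩, ?_⟩
        rw [S.lift_apply, e1]

/-- place inequality -/
theorem place_ineq8 : ∃ A : ℕ, 1 ≤ A ∧ ∀ j r s s' e' : ℕ, A * (j + 1) ≤ r → s' = 2 ^ e' →
    8 ^ r ≤ 2 * (s' * s') → s' ≤ s →
    (4 * 2 ^ j + 2) * (4 * 2 ^ j + 3) ≤ s ∧ r * 2 ^ j * (1 + 8) + 2 ^ j * (4 * 4 * j + 7) < s' := by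
  refine ⟨16, by norm_num, ?_⟩
  intro j r s s' e' hr _ h8 hss
  obtain ⟨h, hh⟩ : ∃ h : ℕ, h = r / 2 := ⟨_, rfl⟩
  have hh1 : 8 * (j + 1) ≤ h := by omega
  have hr2 : r ≤ 2 * h + 1 := by omega
  -- `2 ^ r ≤ s'`
  have hs' : 2 ^ r ≤ s' := by
    have h1 : (2 ^ r) ^ 2 ≤ s' ^ 2 := by
      have h2 : (8 : ℕ) ^ r = 2 ^ r * (2 ^ r) ^ 2 := by
        rw [← pow_mul, ← pow_add]
        have : r + r * 2 = 3 * r := by ring
        rw [this, pow_mul]
        norm_num
      have h3 : 2 ≤ 2 ^ r := by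
        calc 2 = 2 ^ 1 := (pow_one 2).symm
          _ ≤ 2 ^ r := Nat.pow_le_pow_right (by norm_num) (by omega)
      have h4 : 2 * (2 ^ r) ^ 2 ≤ 2 * s' ^ 2 := by
        calc 2 * (2 ^ r) ^ 2 ≤ 2 ^ r * (2 ^ r) ^ 2 := Nat.mul_le_mul_right _ h3
          _ = 8 ^ r := h2.symm
          _ ≤ 2 * (s' * s') := h8
          _ = 2 * s' ^ 2 := by ring
      omega
    exact (Nat.pow_le_pow_iff_left (by norm_num)).1 h1
  set H := 2 ^ h with hH
  set J := 2 ^ j with hJ
  have hJ1 : 1 ≤ J := Nat.one_le_two_pow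
  have hjJ : j + 1 ≤ J := Nat.lt_two_pow_self
  have hH1 : h + 1 ≤ H := Nat.lt_two_pow_self
  have hHJ : 256 * (J * J) ≤ H := by
    have e1 : 2 ^ (8 * (j + 1)) ≤ H := Nat.pow_le_pow_right (by norm_num) hh1
    have e2 : (2 : ℕ) ^ (8 * (j + 1)) = 256 * (J ^ 8) := by
      rw [hJ, ← pow_mul, mul_add, pow_add]
      norm_num
      ring
    have e3 : J * J ≤ J ^ 8 := by
      calc J * J = J ^ 2 := (sq J).symm
        _ ≤ J ^ 8 := Nat.pow_le_pow_right hJ1 (by norm_num)
    omega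
  have hHH : H * H ≤ s' := by
    refine le_trans ?_ hs'
    rw [hH, ← pow_add]
    exact Nat.pow_le_pow_right (by norm_num) (by omega)
  have hJJ : J ≤ J * J := Nat.le_mul_of_pos_left J hJ1
  have hH256 : 256 ≤ H := by
    have : 1 ≤ J * J := Nat.mul_le_mul hJ1 hJ1
    omega
  have hH2 : H ≤ H * H := Nat.le_mul_of_pos_left H (by omega)
  constructor
  · have e1 : (4 * J + 2) * (4 * J + 3) = 16 * (J * J) + 20 * J + 6 := by ring
    rw [e1]
    have : 1 ≤ J * J := Nat.mul_le_mul hJ1 hJ1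
    omega
  · have e1 : r * J * (1 + 8) ≤ 18 * (H * J) := by
      have : r * J ≤ 2 * H * J := Nat.mul_le_mul_right _ (by omega)
      calc r * J * (1 + 8) = 9 * (r * J) := by ring
        _ ≤ 9 * (2 * H * J) := Nat.mul_le_mul_left _ this
        _ = 18 * (H * J) := by ring
    have e2 : 256 * (H * J) ≤ H * H := by
      calc 256 * (H * J) = H * (256 * J) := by ring
        _ ≤ H * H := Nat.mul_le_mul_left _ (by omega)
    have e3 : J * (4 * 4 * j + 7) ≤ 16 * (J * J) := by
      calc J * (4 * 4 * j + 7) ≤ J * (16 * J) := Nat.mul_le_mul_left _ (by omega)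
        _ = 16 * (J * J) := by ring
    have e4 : 0 < H * H := Nat.mul_pos (by omega) (by omega)
    omega

theorem towerN8 (hk : Nat.card k = 8) : TowerN k (4, 4, 6) := by
  obtain ⟨A, hA1, hA⟩ := place_ineq8
  obtain ⟨x, hx⟩ := exists_Sq8 k
  have : CharP (AlgebraicClosure (RatFunc k)) 2 :=
    charP_of_injective_algebraMap (algebraMap k (AlgebraicClosure (RatFunc k))).injective 2
  refine ⟨A, 1, fun j => ?_⟩
  obtain ⟨K, iF, iA, iC, y, ψ, -, -, g, o, C, B, T, hFF, hCv, hO, -, hg, ho, -, hT, hT', hC, hPl⟩ :=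
    chain8 hk hx j
  refine ⟨K, iF, iA, iC, g, o, T, hFF, hCv, ?_, hO, ?_, fun P hP => (hT' P hP).1, ?_, fun r hr => ?_⟩
  · have : g ≤ 4 * 2 ^ j + 1 := by omega
    have : (g : ℝ) ≤ ((4 * 2 ^ j + 1 : ℕ) : ℝ) := by exact_mod_cast this
    push_cast at this
    simp only
    linarith
  · have : o ≤ 4 * 2 ^ j + 1 := by omega
    have : (o : ℝ) ≤ ((4 * 2 ^ j + 1 : ℕ) : ℝ) := by exact_mod_cast this
    push_cast at this
    simp only
    linarith
  · have : ((6 * 2 ^ j : ℕ) : ℝ) ≤ (T.card : ℝ) := by exact_mod_cast hT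
    push_cast at this
    simp only
    linarith
  · have hr1 : 1 ≤ r := by
      have : 1 ≤ A * (j + 1) := Nat.mul_pos hA1 (Nat.succ_pos j)
      omega
    -- the two powers of two
    obtain ⟨e', he'⟩ : ∃ e', e' = 3 * r / 2 := ⟨_, rfl⟩
    obtain ⟨e, he⟩ : ∃ e, e = 3 * r - e' := ⟨_, rfl⟩
    have h1 : e + e' = 3 * r := by omega
    have h2 : e' ≤ e := by omega
    have h3 : e ≤ e' + 1 := by omega
    have h8 : (8 : ℕ) ^ r = 2 ^ (3 * r) := by rw [pow_mul]; norm_num
    have h4 : 8 ^ r ≤ 2 * (2 ^ e' * 2 ^ e') := by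
      have : 2 * (2 ^ e' * 2 ^ e') = 2 ^ (e' + 1 + e') := by
        rw [pow_add, pow_succ]; ring
      rw [this, h8]
      exact Nat.pow_le_pow_right (by norm_num) (by omega)
    obtain ⟨h5, h6⟩ := hA j r (2 ^ e) (2 ^ e') e' hr rfl h4
      (Nat.pow_le_pow_right (by norm_num) h2)
    refine hPl.exists_place hCv hr1 (s := 2 ^ e) (e := e) rfl (s' := 2 ^ e') (e' := e') rfl
      (Nat.pow_le_pow_right (by norm_num) h2) ?_ h5 ?_
    · rw [← pow_add, h1, hk, h8]
    · rw [hk]
      omega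

end chain

end Pool.Agent.FF
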