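import Pool.Agent.FF.EightA

/-! The base of the tower over the field with `8` elements: the rational function field. -/

set_option autoImplicit false
set_option linter.unusedSectionVars false
set_option linter.style.haveILetI false

namespace Pool.Agent.FF

open Finset Polynomial

section base

variable {k : Type} [Field k] [Finite k] [CharP k 2]

open Classical in
theorem StA.base (hk : Nat.card k = 8) : StA k (RatFunc k) RatFunc.X 0 := by
  cases nonempty_fintype k
  have twok : (2 : k) = 0 := CharTwo.two_eq_zero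
  have hirr := irreducible_h hk
  set Q : DV (RatFunc k) := Rat.fin _ hirr with hQ
  have hQat : Rat.At Q (X ^ 2 + X + 1 : k[X]) := Rat.fin_at hirr (monic_h k)
  have hQd : Q.deg (Nat.card k) = 2 := by rw [hQat.deg, natDegree_h]
  have hne : ∀ a : k, Rat.pt a ≠ Q := by
    intro a h
    have h2 := (Rat.pt_at a).inj (h ▸ hQat)
    have h3 := congrArg natDegree h2
    rw [natDegree_X_sub_C, natDegree_h] at h3
    omega
  have h1 : Rat.inf k ∉ ({Rat.pt 0} : Finset (DV (RatFunc k))) := by
    simp only [mem_singleton]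
    exact (Rat.pt_ne_inf 0).symm
  have h3 : Rat.pt (1 : k) ∉ ({Q} : Finset (DV (RatFunc k))) := by
    simp only [mem_singleton]
    exact hne 1
  have hsA : ∑ v ∈ ({Rat.inf k, Rat.pt 0} : Finset (DV (RatFunc k))), v.deg (Nat.card k) = 2 := by
    rw [sum_insert h1, sum_singleton, Rat.deg_inf, Rat.deg_pt]
  have hsB : ∑ v ∈ ({Rat.pt 1, Q} : Finset (DV (RatFunc k))), v.deg (Nat.card k) = 3 := by
    rw [sum_insert h3, sum_singleton, Rat.deg_pt, hQd]
  have e0 : (RatFunc.X : RatFunc k) = algebraMap k[X] (RatFunc k) X := RatFunc.algebraMap_X.symm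
  have e1 : (RatFunc.X + 1 : RatFunc k) = algebraMap k[X] (RatFunc k) (X + 1) := by
    rw [map_add, map_one, RatFunc.algebraMap_X]
  have e2 : (RatFunc.X ^ 2 + RatFunc.X + 1 : RatFunc k) =
      algebraMap k[X] (RatFunc k) (X ^ 2 + X + 1) := by
    rw [map_add, map_add, map_pow, map_one, RatFunc.algebraMap_X]
  refine ⟨0, 0, 0, {Rat.inf k, Rat.pt 0}, {Rat.pt 1, Q},
    (univ.filter fun a : k => a ≠ 0 ∧ a ≠ 1).image Rat.pt, Rat.isFF k, Rat.cv, Ob.base, ?_,
    card_le_two, ?_, ?_, ?_, ?_, ⟨Rat.inf k, Rat.inf_rat, Rat.inf_X⟩, ?_, ?_, by norm_num, ?_⟩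
  · intro v hvA hvB
    simp only [mem_insert, mem_singleton, not_or] at hvA hvB
    obtain ⟨v1, v2⟩ := hvA
    obtain ⟨v3, v4⟩ := hvB
    rcases Rat.inf_or_at v with h | ⟨π, h⟩
    · exact absurd h v1
    have hX : ¬ π ∣ (X : k[X]) := by
      intro hd
      have h4 := h.irr.associated_of_dvd irreducible_X hd
      have h5 := eq_of_monic_of_associated h.monic monic_X h4
      have h6 : Rat.At (Rat.pt (0 : k)) π := by
        have := Rat.pt_at (0 : k)
        rwa [C_0, sub_zero, ← h5] at this
      exact v2 (h.unique h6)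
    have hX1 : ¬ π ∣ (X + 1 : k[X]) := by
      intro hd
      have e : (X + 1 : k[X]) = X - C 1 := by
        have : (2 : k[X]) = 0 := CharTwo.two_eq_zero
        rw [C_1]
        linear_combination this
      rw [e] at hd
      have h4 := h.irr.associated_of_dvd (irreducible_X_sub_C 1) hd
      have h5 := eq_of_monic_of_associated h.monic (monic_X_sub_C 1) h4
      have h6 : Rat.At (Rat.pt (1 : k)) π := by
        have := Rat.pt_at (1 : k)
        rwa [← h5] at this
      exact v3 (h.unique h6)
    have hX2 : ¬ π ∣ (X ^ 2 + X + 1 : k[X]) := by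
      intro hd
      have h4 := h.irr.associated_of_dvd hirr hd
      have h5 := eq_of_monic_of_associated h.monic (monic_h k) h4
      exact v4 (h.unique (h5 ▸ hQat))
    refine ⟨?_, ?_, ?_, RatFunc.X_ne_zero, ?_, ?_⟩
    · rw [e0, h.ord_zero' hX]
    · rw [e1, h.ord_zero' hX1]
    · rw [e2, h.ord_zero' hX2]
    · rw [e1]
      exact Rat.coe_ne fun h0 => hX1 (h0 ▸ dvd_zero _)
    · rw [e2]
      exact Rat.coe_ne fun h0 => hX2 (h0 ▸ dvd_zero _)
  · intro v hv
    simp only [mem_insert, mem_singleton] at hv
    rcases hv with rfl | rfl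
    · exact f_ord_neg Rat.inf_X
    · -- the place `0`
      have h4 : (Rat.pt (0 : k)).ord (RatFunc.X : RatFunc k) = 1 := by
        have := Rat.pt_ord (0 : k)
        rwa [map_zero, sub_zero] at this
      have h5 : (Rat.pt (0 : k)).ord ((RatFunc.X : RatFunc k)⁻¹) = -1 := by
        rw [(Rat.pt (0 : k)).ord_inv RatFunc.X_ne_zero, h4]
      have h6 := f_ord_neg h5
      rw [inv_inv] at h6
      have h7 : (RatFunc.X : RatFunc k)⁻¹ + 1 + RatFunc.X = RatFunc.X + 1 + (RatFunc.X)⁻¹ := by ring
      rwa [h7] at h6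
  · intro v hv
    simp only [mem_insert, mem_singleton] at hv
    rcases hv with rfl | rfl
    · right
      have : (RatFunc.X : RatFunc k) + 1 = RatFunc.X - algebraMap k (RatFunc k) 1 := by
        have h5 := congrArg (algebraMap k (RatFunc k)) twok
        rw [map_ofNat, map_zero] at h5
        rw [map_one]
        linear_combination h5
      rw [this]
      exact DV.G_of_le (Rat.pt_ord (1 : k)).ge
    · left
      refine ⟨RatFunc.X, ?_⟩
      rw [e2]
      exact DV.G_of_le hQat.ord_self.ge
  · rw [hsA, hsB]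
    norm_num
  · rw [hsB]
    norm_num
  · rw [card_image_of_injective _ Rat.pt_injective]
    have h4 : (univ.filter fun a : k => a ≠ 0 ∧ a ≠ 1) = (univ.erase 0).erase 1 := by
      ext a
      simp only [mem_filter, mem_univ, true_and, mem_erase, and_true]
      tauto
    rw [h4, card_erase_of_mem (by simp), card_erase_of_mem (mem_univ _), card_univ,
      ← Nat.card_eq_fintype_card, hk]
    norm_num
  · intro v hv
    obtain ⟨a, ha, rfl⟩ := mem_image.1 hv
    obtain ⟨-, ha0, ha1⟩ := mem_filter.1 ha
    refine ⟨Rat.pt_rat a, a, ha0, ha1, ?_⟩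
    have e : (RatFunc.X : RatFunc k) + algebraMap k (RatFunc k) a =
        RatFunc.X - algebraMap k (RatFunc k) a := by
      have : (2 : RatFunc k) = 0 := by
        have h5 := congrArg (algebraMap k (RatFunc k)) twok
        rwa [map_ofNat, map_zero] at h5
      linear_combination (algebraMap k (RatFunc k) a) * this
    rw [e]
    exact DV.G_of_le (Rat.pt_ord a).ge
  · exact (HasPlX.base k).mono (Nat.zero_le _) le_rfl (by simp)

end base

end Pool.Agent.FF
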