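import Pool.Agent.FF.EightB
import Pool.Agent.FF.Eight7

/-! The tower over the field with `8` elements. -/

set_option autoImplicit false
set_option linter.unusedSectionVars false
set_option linter.style.haveILetI false

namespace Pool.Agent.FF

open IntermediateField

section chain

variable {k : Type} [Field k] [Finite k] [CharP k 2]

theorem chainA (hk : Nat.card k = 8) {Ω : Type} [Field Ω] [Algebra k Ω] [CharP Ω 2] {x : ℕ → Ω}
    (hx : Sq8 k x) (n : ℕ) : ∃ (K : Type) (_ : Field K) (_ : Algebra k K) (_ : CharP K 2) (y : K)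
      (ψ : K →+* Ω), ψ y = x n ∧ (∀ z : Ω, z ∈ Fx k x 0 n ↔ ∃ a, ψ a = z) ∧ StA k K y n := by
  induction n with
  | zero =>
    have : CharP (RatFunc k) 2 :=
      charP_of_injective_algebraMap (algebraMap k (RatFunc k)).injective 2
    have h0 : Fx k x 0 0 = k⟮x 0⟯ := by
      unfold Fx
      rw [add_zero, Set.Icc_self, Set.image_singleton]
    let e := RatFunc.algEquivOfTranscendental (x 0) (hx.tr 0)
    refine ⟨RatFunc k, inferInstance, inferInstance, this, RatFunc.X,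
      (algebraMap k⟮x 0⟯ Ω).comp (e : RatFunc k →+* k⟮x 0⟯), ?_, ?_, StA.base hk⟩
    · exact RatFunc.algEquivOfTranscendental_X (x 0) (hx.tr 0)
    · intro z
      rw [h0]
      constructor
      · intro hz
        refine ⟨e.symm ⟨z, hz⟩, ?_⟩
        change ((e (e.symm ⟨z, hz⟩) : k⟮x 0⟯) : Ω) = z
        rw [AlgEquiv.apply_symm_apply]
      · rintro ⟨a, rfl⟩
        exact (e a).2
  | succ n ih =>
    obtain ⟨K, _, _, _, y, ψ, hy, hr, hS⟩ := ih
    obtain ⟨K', _, _, ⟨S⟩⟩ := exists_AS (f := y + 1 + y⁻¹) (fun c h => hS.irr c h)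
    letI : Algebra k K' := ((algebraMap K K').comp (algebraMap k K)).toAlgebra
    haveI : IsScalarTower k K K' := IsScalarTower.of_algebraMap_eq fun _ => rfl
    haveI : CharP K' 2 := charP_of_injective_algebraMap (algebraMap K K').injective 2
    have hψf : ψ (y + 1 + y⁻¹) = x n + 1 + (x n)⁻¹ := by
      rw [map_add, map_add, map_one, map_inv₀, hy]
    have hz : x (n + 1) ^ 2 + x (n + 1) = ψ (y + 1 + y⁻¹) := by rw [hx.rel, hψf]
    -- the reduced pole orders
    have hW : ∀ v : DV K, W1 v (y + 1 + y⁻¹) := by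
      intro v
      let e0 : K →+* Fx k x 0 n := ψ.codRestrict (Fx k x 0 n).toSubfield.toSubring
        (fun a => (hr _).2 ⟨a, rfl⟩)
      have hbij : Function.Bijective e0 := by
        refine ⟨e0.injective, ?_⟩
        rintro ⟨z, hz⟩
        obtain ⟨a, ha⟩ := (hr z).1 hz
        exact ⟨a, Subtype.ext ha⟩
      let e : K ≃+* Fx k x 0 n := RingEquiv.ofBijective e0 hbij
      have h1 := (hx.pyramid n 0).2.1
      have h2 : x (0 + n) + 1 + (x (0 + n))⁻¹ ∈ Fx k x 0 n := g_mem (by omega) (by omega)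
      have h3 := W1.tr (v := v) (e := e.symm) (h1 h2 (v.tr e.symm))
      have h4 : e.symm ⟨_, h2⟩ = y + 1 + y⁻¹ := by
        rw [RingEquiv.symm_apply_eq]
        apply Subtype.ext
        change x (0 + n) + 1 + (x (0 + n))⁻¹ = ψ (y + 1 + y⁻¹)
        rw [hψf, Nat.zero_add]
      rwa [h4] at h3
    refine ⟨K', inferInstance, inferInstance, inferInstance, S.y, S.lift ψ (x (n + 1)) hz, ?_, ?_,
      hS.step hk rfl hW S⟩
    · rw [S.lift_apply, S.ab_y.1, S.ab_y.2]
      simp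
    · intro z
      have h5 := hx.eq_right 0 n
      have e1 : 0 + n + 1 = n + 1 := by omega
      rw [h5]
      constructor
      · rintro ⟨a, ha, b, hb, rfl⟩
        obtain ⟨a', rfl⟩ := (hr a).1 ha
        obtain ⟨b', rfl⟩ := (hr b).1 hb
        refine ⟨algebraMap K K' a' + algebraMap K K' b' * S.y, ?_⟩
        obtain ⟨h6, h7⟩ := S.ab_eq (x := algebraMap K K' a' + algebraMap K K' b' * S.y) rfl
        rw [S.lift_apply, h6, h7, e1]
      · rintro ⟨a, rfl⟩
        refine ⟨ψ (S.a a), (hr _).2 ⟨_, rfl⟩, ψ (S.b a), (hr _).2 ⟨_, rfl⟩, ?_⟩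
        rw [S.lift_apply, e1]

theorem towerNA (hk : Nat.card k = 8) : TowerN k (4, 5 / 2, 6) := by
  obtain ⟨A₀, hA1, hA⟩ := place_ineq8
  obtain ⟨x, hx⟩ := exists_Sq8 k
  have : CharP (AlgebraicClosure (RatFunc k)) 2 :=
    charP_of_injective_algebraMap (algebraMap k (AlgebraicClosure (RatFunc k))).injective 2
  refine ⟨A₀, 1, fun j => ?_⟩
  obtain ⟨K, iF, iA, iC, y, ψ, -, -, g, o, C, A, B, T, hFF, hCv, hO, -, -, -, -, hg, ho, -, hT, hT',
    hC, hPl⟩ := chainA hk hx j
  refine ⟨K, iF, iA, iC, g, o, T, hFF, hCv, ?_, hO, ?_, fun P hP => (hT' P hP).1, ?_, fun r hr => ?_⟩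
  · have : g ≤ 4 * 2 ^ j + 1 := by omega
    have : (g : ℝ) ≤ ((4 * 2 ^ j + 1 : ℕ) : ℝ) := by exact_mod_cast this
    push_cast at this
    simp only
    linarith
  · have : 2 * o ≤ 5 * 2 ^ j := by omega
    have : ((2 * o : ℕ) : ℝ) ≤ ((5 * 2 ^ j : ℕ) : ℝ) := by exact_mod_cast this
    push_cast at this
    simp only
    linarith
  · have : ((6 * 2 ^ j : ℕ) : ℝ) ≤ (T.card : ℝ) := by exact_mod_cast hT
    push_cast at this
    simp only
    linarith
  · have hr1 : 1 ≤ r := by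
      have : 1 ≤ A₀ * (j + 1) := Nat.mul_pos hA1 (Nat.succ_pos j)
      omega
    -- the two powers of two
    obtain ⟨e', he'⟩ : ∃ e', e' = 3 * r / 2 := ⟨_, rfl⟩
    obtain ⟨e, he⟩ : ∃ e, e = 3 * r - e' := ⟨_, rfl⟩
    have h1 : e + e' = 3 * r := by omega
    have h2 : e' ≤ e := by omega
    have h3 : e ≤ e' + 1 := by omega
    have h8 : (8 : ℕ) ^ r = 2 ^ (3 * r) := by rw [pow_mul]; norm_num
    have h4 : 8 ^ r ≤ 2 * (2 ^ e' * 2 ^ e') := by
      have : 2 * (2 ^ e' * 2 ^ e') = 2 ^ (e' + 1 + e') := by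
        rw [pow_add, pow_succ]; ring
      rw [this, h8]
      exact Nat.pow_le_pow_right (by norm_num) (by omega)
    obtain ⟨h5, h6⟩ := hA j r (2 ^ e) (2 ^ e') e' hr rfl h4
      (Nat.pow_le_pow_right (by norm_num) h2)
    refine hPl.exists_place hCv hr1 (s := 2 ^ e) (e := e) rfl (s' := 2 ^ e') (e' := e') rfl
      (Nat.pow_le_pow_right (by norm_num) h2) ?_ h5 ?_
    · rw [← pow_add, h1, hk, h8]
    · rw [hk]
      omega

end chain

end Pool.Agent.FF
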