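import Pool.Agent.FF.FinalN

/-!
# Numerical values with the quotient families, and the value for `q = 8`
-/

namespace FF

/-- `q = 16`, quotients by `μ_3` with obstruction at most the genus: `16 / 9` -/
theorem final_sixteen_h (E : ℕ → ℝ → Prop) (mono : ∀ G x y, y ≤ x → E G x → E G y)
    (H : CoversN E 4 25 {(5, 1, 15), (1 / 3, 1 / 3, 1), (5 / 3, 5 / 3, 5), (1, 1, 3)}) :
    ∀ ε : ℝ, 0 < ε → ∃ G0 : ℕ, ∀ G : ℕ, G0 ≤ G → E G ((16 / 9 - ε) * G) := by
  apply final_generalN E mono 4 (16 / 9) (25 / 2) (1 / 2) 25 (by norm_num) (by norm_num)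
    (by norm_num) _ _ _ H
  · intro p hp
    simp only [Set.mem_insert_iff, Set.mem_singleton_iff] at hp
    rcases hp with rfl | rfl | rfl | rfl <;> norm_num
  intro x hx1 hx2
  rcases le_or_gt x (31 / 2) with h1 | h1
  · refine ⟨(5, 1, 15), by simp, 0, ?_, ?_, ?_⟩
    · norm_num; linarith
    · norm_num; linarith
    · unfold phiN
      rw [le_min_iff]
      constructor
      · norm_num; linarith
      · norm_num; linarith
  rcases le_or_gt x 18 with h2 | h2
  · refine ⟨(1 / 3, 1 / 3, 1), by simp, 4, ?_, ?_, ?_⟩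
    · norm_num; linarith
    · norm_num; linarith
    · unfold phiN
      rw [le_min_iff]
      constructor
      · norm_num; linarith
      · norm_num; linarith
  rcases le_or_gt x 22 with h3 | h3
  · refine ⟨(5 / 3, 5 / 3, 5), by simp, 2, ?_, ?_, ?_⟩
    · norm_num; linarith
    · norm_num; linarith
    · unfold phiN
      rw [le_min_iff]
      constructor
      · norm_num; linarith
      · norm_num; linarith
  · refine ⟨(1, 1, 3), by simp, 3, ?_, ?_, ?_⟩
    · norm_num; linarith
    · norm_num; linarith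
    · unfold phiN
      rw [le_min_iff]
      constructor
      · norm_num; linarith
      · norm_num; linarith

/-- `q = 16`, quotients by `μ_3` with obstruction at most `min 1 h`: `20 / 11` -/
theorem final_sixteen_one (E : ℕ → ℝ → Prop) (mono : ∀ G x y, y ≤ x → E G x → E G y)
    (H : CoversN E 4 25 {(5, 1, 15), (1 / 3, 1 / 3, 1), (5 / 3, 1, 5), (1, 1, 3)}) :
    ∀ ε : ℝ, 0 < ε → ∃ G0 : ℕ, ∀ G : ℕ, G0 ≤ G → E G ((20 / 11 - ε) * G) := by
  apply final_generalN E mono 4 (20 / 11) (25 / 2) (1 / 2) 25 (by norm_num) (by norm_num)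
    (by norm_num) _ _ _ H
  · intro p hp
    simp only [Set.mem_insert_iff, Set.mem_singleton_iff] at hp
    rcases hp with rfl | rfl | rfl | rfl <;> norm_num
  intro x hx1 hx2
  rcases le_or_gt x (31 / 2) with h1 | h1
  · refine ⟨(5, 1, 15), by simp, 0, ?_, ?_, ?_⟩
    · norm_num; linarith
    · norm_num; linarith
    · unfold phiN
      rw [le_min_iff]
      constructor
      · norm_num; linarith
      · norm_num; linarith
  rcases le_or_gt x (35 / 2) with h2 | h2
  · refine ⟨(1 / 3, 1 / 3, 1), by simp, 4, ?_, ?_, ?_⟩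
    · norm_num; linarith
    · norm_num; linarith
    · unfold phiN
      rw [le_min_iff]
      constructor
      · norm_num; linarith
      · norm_num; linarith
  rcases le_or_gt x 22 with h3 | h3
  · refine ⟨(5 / 3, 1, 5), by simp, 2, ?_, ?_, ?_⟩
    · norm_num; linarith
    · norm_num; linarith
    · unfold phiN
      rw [le_min_iff]
      constructor
      · norm_num; linarith
      · norm_num; linarith
  · refine ⟨(1, 1, 3), by simp, 3, ?_, ?_, ?_⟩
    · norm_num; linarith
    · norm_num; linarith
    · unfold phiN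
      rw [le_min_iff]
      constructor
      · norm_num; linarith
      · norm_num; linarith

/-- `q = 64`, quotients by `μ_7` with obstruction at most the genus: `294 / 73` -/
theorem final_sixtyfour_h (E : ℕ → ℝ → Prop) (mono : ∀ G x y, y ≤ x → E G x → E G y)
    (H : CoversN E 6 50 {(9, 1, 63), (9 / 7, 9 / 7, 9), (3, 1, 21), (3 / 7, 3 / 7, 3)}) :
    ∀ ε : ℝ, 0 < ε → ∃ G0 : ℕ, ∀ G : ℕ, G0 ≤ G → E G ((294 / 73 - ε) * G) := by
  apply final_generalN E mono 6 (294 / 73) (71 / 3) (1 / 2) 50 (by norm_num) (by norm_num)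
    (by norm_num) _ _ _ H
  · intro p hp
    simp only [Set.mem_insert_iff, Set.mem_singleton_iff] at hp
    rcases hp with rfl | rfl | rfl | rfl <;> norm_num
  intro x hx1 hx2
  rcases le_or_gt x (219 / 7) with h1 | h1
  · refine ⟨(9, 1, 63), by simp, 0, ?_, ?_, ?_⟩
    · norm_num; linarith
    · norm_num; linarith
    · unfold phiN
      rw [le_min_iff]
      constructor
      · norm_num; linarith
      · norm_num; linarith
  rcases le_or_gt x (104 / 3) with h2 | h2
  · refine ⟨(9 / 7, 9 / 7, 9), by simp, 3, ?_, ?_, ?_⟩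
    · norm_num; linarith
    · norm_num; linarith
    · unfold phiN
      rw [le_min_iff]
      constructor
      · norm_num; linarith
      · norm_num; linarith
  rcases le_or_gt x (292 / 7) with h3 | h3
  · refine ⟨(3, 1, 21), by simp, 2, ?_, ?_, ?_⟩
    · norm_num; linarith
    · norm_num; linarith
    · unfold phiN
      rw [le_min_iff]
      constructor
      · norm_num; linarith
      · norm_num; linarith
  · refine ⟨(3 / 7, 3 / 7, 3), by simp, 5, ?_, ?_, ?_⟩
    · norm_num; linarith
    · norm_num; linarith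
    · unfold phiN
      rw [le_min_iff]
      constructor
      · norm_num; linarith
      · norm_num; linarith

/-- `q = 256`, quotients by `μ_3`, `μ_5` with obstruction at most `1`: `1224 / 161` -/
theorem final_twofiftysix_one (E : ℕ → ℝ → Prop) (mono : ∀ G x y, y ≤ x → E G x → E G y)
    (H : CoversN E 8 70 {(17, 1, 255), (17 / 3, 1, 85), (17 / 5, 1, 51)}) :
    ∀ ε : ℝ, 0 < ε → ∃ G0 : ℕ, ∀ G : ℕ, G0 ≤ G → E G ((1224 / 161 - ε) * G) := by
  apply final_generalN E mono 8 (1224 / 161) (805 / 24) (1 / 2) 70 (by norm_num) (by norm_num)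
    (by norm_num) _ _ _ H
  · intro p hp
    simp only [Set.mem_insert_iff, Set.mem_singleton_iff] at hp
    rcases hp with rfl | rfl | rfl <;> norm_num
  intro x hx1 hx2
  rcases le_or_gt x (447 / 10) with h1 | h1
  · refine ⟨(17 / 3, 1, 85), by simp, 1, ?_, ?_, ?_⟩
    · norm_num; linarith
    · norm_num; linarith
    · unfold phiN
      rw [le_min_iff]
      constructor
      · norm_num; linarith
      · norm_num; linarith
  rcases le_or_gt x (213 / 4) with h2 | h2
  · refine ⟨(17 / 5, 1, 51), by simp, 2, ?_, ?_, ?_⟩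
    · norm_num; linarith
    · norm_num; linarith
    · unfold phiN
      rw [le_min_iff]
      constructor
      · norm_num; linarith
      · norm_num; linarith
  · refine ⟨(17, 1, 255), by simp, 0, ?_, ?_, ?_⟩
    · norm_num; linarith
    · norm_num; linarith
    · unfold phiN
      rw [le_min_iff]
      constructor
      · norm_num; linarith
      · norm_num; linarith

/-- `q = 8`: `9 / 14` -/
theorem final_eight (E : ℕ → ℝ → Prop) (mono : ∀ G x y, y ≤ x → E G x → E G y)
    (H : CoversN E 3 20 {(4, 4, 6)}) :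
    ∀ ε : ℝ, 0 < ε → ∃ G0 : ℕ, ∀ G : ℕ, G0 ≤ G → E G ((9 / 14 - ε) * G) := by
  apply final_limit E mono
  intro η hη
  set δ : ℝ := min η 1 with hδdef
  have hδ : 0 < δ := lt_min hη one_pos
  have hδ1 : δ ≤ 1 := min_le_right _ _
  have hδη : δ ≤ η := min_le_left _ _
  refine ⟨9 / 14 - δ, by linarith, ?_⟩
  apply final_generalN E mono 3 _ ((28 + δ) / 3) δ 20 (by norm_num)
    (by positivity) hδ {(4, 4, 6)} _ _ H
  · intro p hp
    rw [Set.mem_singleton_iff] at hp
    subst hp
    norm_num
  intro x hx1 hx2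
  refine ⟨(4, 4, 6), by simp, 0, ?_, ?_, ?_⟩
  · norm_num; linarith
  · norm_num; linarith
  · unfold phiN
    rw [le_min_iff]
    have h4 : 9 * δ ≤ δ * x := by nlinarith
    constructor
    · norm_num; nlinarith
    · norm_num; nlinarith

end FF
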