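import Pool.Agent.FF.Assem
import Pool.Agent.FF.DegR

/-!
# From the chain of double covers to the tower with places of all large degrees
-/

set_option autoImplicit false

namespace Pool.Agent.FF

/-- The chain of double covers, with the data on the number of places. -/
def ChainD (k : Type) [Field k] (a d : ℕ) : Prop :=
  ∀ j : ℕ, ∃ (K : Type) (_ : Field K) (_ : Algebra k K) (_ : CharP K 2) (g n : ℕ)
    (T : Finset (DV K)) (B C M : ℕ), IsFF k K ∧ Cv k K g ∧ g ≤ 1 + d * 2 ^ j ∧ Ob K n ∧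
      n ≤ 1 + 2 ^ j ∧ (∀ P ∈ T, P.Rat k) ∧ d * (2 ^ a - 1) * 2 ^ j ≤ T.card ∧
      HasPl k K B C M ∧ B ≤ (d * 2 ^ j + 2) * (d * 2 ^ j + 3) ∧ C + 7 ≤ 2 ^ j * (4 * d * j + 7) ∧
      M ≤ 2 ^ j

theorem place_ineq (a d q : ℕ) (ha : 1 ≤ a) : ∃ A : ℕ, 1 ≤ A ∧ ∀ j r : ℕ, A * (j + 1) ≤ r →
    (d * 2 ^ j + 2) * (d * 2 ^ j + 3) ≤ 2 ^ (a * r) ∧
    r * 2 ^ j * (1 + q) + 2 ^ j * (4 * d * j + 7) < 2 ^ (a * r) := by
  obtain ⟨A', hA'⟩ : ∃ A' : ℕ, (d + 3) ^ 2 + 8 * (1 + q) + 8 * (4 * d + 7) ≤ 2 ^ A' :=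
    ⟨_, Nat.lt_two_pow_self.le⟩
  refine ⟨2 * (A' + 1), by omega, fun j r hr => ?_⟩
  set W := 2 ^ A' with hW
  have hW4 : 4 ≤ W := by
    have : 8 ≤ 8 * (1 + q) := by omega
    have h2 := Nat.zero_le ((d + 3) ^ 2)
    omega
  -- half of the exponent
  obtain ⟨h, hh⟩ : ∃ h : ℕ, h = r / 2 := ⟨_, rfl⟩
  have hh1 : (A' + 1) * (j + 1) ≤ h := by
    rw [hh, Nat.le_div_iff_mul_le (by norm_num)]
    calc (A' + 1) * (j + 1) * 2 = 2 * (A' + 1) * (j + 1) := by ring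
      _ ≤ r := hr
  have hr2 : r ≤ 2 * h + 1 := by omega
  set H := 2 ^ h with hH
  have hH1 : 1 ≤ H := Nat.one_le_two_pow
  have hHh : h < H := Nat.lt_two_pow_self
  have hP : W * 4 ^ j ≤ H := by
    have e1 : 2 ^ (A' * (j + 1)) ≤ H := Nat.pow_le_pow_right (by norm_num) (by nlinarith)
    have e2 : 2 ^ (A' * (j + 1)) = W ^ j * W := by rw [pow_mul, pow_succ]
    have e3 : 4 ^ j ≤ W ^ j := Nat.pow_le_pow_left hW4 j
    calc W * 4 ^ j ≤ W * W ^ j := Nat.mul_le_mul_left _ e3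
      _ = 2 ^ (A' * (j + 1)) := by rw [e2]; ring
      _ ≤ H := e1
  have hs : H * H ≤ 2 ^ (a * r) := by
    calc H * H = 2 ^ (h + h) := (pow_add _ _ _).symm
      _ ≤ 2 ^ (a * r) := Nat.pow_le_pow_right (by norm_num) (by
          have : r ≤ a * r := Nat.le_mul_of_pos_left r ha
          omega)
  have h4 : (4 : ℕ) ^ j = 2 ^ j * 2 ^ j := by
    rw [← pow_add, ← two_mul, pow_mul]; norm_num
  have hj1 : 1 ≤ 2 ^ j := Nat.one_le_two_pow
  have hjj : j + 1 ≤ 2 ^ j := Nat.lt_two_pow_self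
  set J := 2 ^ j with hJ
  rw [h4] at hP
  have hJJ : 1 ≤ J * J := Nat.mul_le_mul hj1 hj1
  constructor
  · have h5 : (d * J + 2) * (d * J + 3) ≤ (d + 3) ^ 2 * (J * J) := by
      have e1 : d * J + 2 ≤ (d + 3) * J := by nlinarith
      have e2 : d * J + 3 ≤ (d + 3) * J := by nlinarith
      calc (d * J + 2) * (d * J + 3) ≤ ((d + 3) * J) * ((d + 3) * J) := Nat.mul_le_mul e1 e2
        _ = _ := by ring
    calc (d * J + 2) * (d * J + 3) ≤ (d + 3) ^ 2 * (J * J) := h5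
      _ ≤ W * (J * J) := Nat.mul_le_mul_right _ (by omega)
      _ ≤ H := hP
      _ ≤ H * H := Nat.le_mul_of_pos_left H hH1
      _ ≤ _ := hs
  · have h6 : 8 * (1 + q) * J ≤ H := by
      calc 8 * (1 + q) * J ≤ W * (J * J) := by
            apply Nat.mul_le_mul
            · have h2 := Nat.zero_le ((d + 3) ^ 2); omega
            · exact Nat.le_mul_of_pos_left J hj1
        _ ≤ H := hP
    have h7 : 8 * (J * (4 * d * j + 7)) ≤ H := by
      have e1 : 4 * d * j + 7 ≤ (4 * d + 7) * J := by nlinarith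
      calc 8 * (J * (4 * d * j + 7)) ≤ 8 * (J * ((4 * d + 7) * J)) :=
            Nat.mul_le_mul_left _ (Nat.mul_le_mul_left _ e1)
        _ = 8 * (4 * d + 7) * (J * J) := by ring
        _ ≤ W * (J * J) := Nat.mul_le_mul_right _ (by
            have h2 := Nat.zero_le ((d + 3) ^ 2); omega)
        _ ≤ H := hP
    have h8 : r ≤ 2 * H := by omega
    have h9 : 4 * (r * J * (1 + q)) ≤ H * H := by
      calc 4 * (r * J * (1 + q)) = r * (4 * (1 + q) * J) := by ring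
        _ ≤ 2 * H * (4 * (1 + q) * J) := Nat.mul_le_mul_right _ h8
        _ = H * (8 * (1 + q) * J) := by ring
        _ ≤ H * H := Nat.mul_le_mul_left _ h6
    have h10 : 8 * (J * (4 * d * j + 7)) ≤ H * H :=
      h7.trans (Nat.le_mul_of_pos_left H hH1)
    have h11 : 0 < H * H := Nat.mul_pos hH1 hH1
    refine lt_of_lt_of_le ?_ hs
    omega

theorem tower_of_chain {k : Type} [Field k] [Finite k] {a d : ℕ} (ha : 1 ≤ a)
    (hk : Nat.card k = (2 ^ a) ^ 2) (H : ChainD k a d) : Tower k a d := by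
  obtain ⟨A, hA1, hA⟩ := place_ineq a d (Nat.card k) ha
  refine ⟨A, fun j => ?_⟩
  obtain ⟨K, iF, iA, iC, g, n, T, B, C, M, hFF, hCv, hg, hOb, hn, hT, hTc, hPl, hB, hC, hM⟩ := H j
  refine ⟨K, iF, iA, iC, g, n, T, hFF, hCv, hg, hOb, hn, hT, hTc, fun r hr => ?_⟩
  obtain ⟨h1, h2⟩ := hA j r hr
  have hr1 : 1 ≤ r := by
    have : 1 ≤ A * (j + 1) := Nat.mul_pos hA1 (Nat.succ_pos j)
    omega
  refine hPl.exists_place hCv hr1 (e := a * r) rfl ?_ (hB.trans h1) ?_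
  · rw [hk, ← pow_mul, ← pow_mul, ← pow_mul]
    congr 1
    ring
  · refine lt_of_le_of_lt ?_ h2
    have e1 : r * M * (1 + Nat.card k) ≤ r * 2 ^ j * (1 + Nat.card k) :=
      Nat.mul_le_mul_right _ (Nat.mul_le_mul_left _ hM)
    omega

end Pool.Agent.FF
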