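import Pool.Agent.FF.ChainPl
import Pool.Agent.FF.TowerOf

/-!
# Lower bounds for `L(q)`, `q = 4 ^ a`
-/

set_option autoImplicit false

namespace Pool.Agent.FF

theorem charP_two {k : Type} [Field k] [Finite k] {a : ℕ} (ha : 1 ≤ a)
    (hk : Nat.card k = (2 ^ a) ^ 2) : CharP k 2 := by
  have : Fintype k := Fintype.ofFinite k
  obtain ⟨p, hp⟩ := CharP.exists k
  obtain ⟨n, hprime, hn⟩ := FiniteField.card k p
  rw [← Nat.card_eq_fintype_card, hk, ← pow_mul] at hn
  have h1 : p ∣ 2 ^ (a * 2) := by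
    rw [hn]
    exact dvd_pow_self p n.ne_zero
  have h2 : p = 2 := (Nat.prime_dvd_prime_iff_eq hprime Nat.prime_two).1 (hprime.dvd_of_dvd_pow h1)
  rw [← h2]
  exact hp

/-- The tower with the parameter `d`, an odd divisor of `2 ^ a + 1`. -/
theorem tower {k : Type} [Field k] [Finite k] {a d : ℕ} (ha : 1 ≤ a)
    (hk : Nat.card k = (2 ^ a) ^ 2) (hd : Odd d) (hdiv : d ∣ 2 ^ a + 1) : Tower k a d := by
  have := charP_two ha hk
  refine tower_of_chain ha hk fun j => ?_
  obtain ⟨K, h1, h2, h3, g, o, C, h4, h5, h6, h7, h8, ⟨T, hT1, hT2⟩, h10, h11⟩ :=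
    chainPl ha hk hd hdiv j
  exact ⟨K, h1, h2, h3, g, o, T, _, C, _, h4, h5, by omega, h7, by omega, hT2, hT1, h11, le_rfl,
    h10, le_rfl⟩

/-- The families for a finite set of odd divisors of `2 ^ a + 1`. -/
theorem covers_of_dvd {k : Type} [Field k] [Finite k] {a : ℕ} (ha : 1 ≤ a)
    (hk : Nat.card k = (2 ^ a) ^ 2) (D : Set ℕ) (hD : ∀ d ∈ D, Odd d ∧ d ∣ 2 ^ a + 1) (C : ℝ) :
    _root_.FF.Covers (EC k) (2 ^ a - 1) (2 * a) C D :=
  covers ha hk D (2 ^ a + 1) (fun d hd =>
    ⟨(hD d hd).1.pos, Nat.le_of_dvd (Nat.succ_pos _) (hD d hd).2,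
      tower ha hk (hD d hd).1 (hD d hd).2⟩) C

theorem LL_four {k : Type} [Field k] (hk : Nat.card k = 4) : ENNReal.ofReal (6 / 11) ≤ LL k := by
  have : Finite k := Nat.finite_of_card_ne_zero (by omega)
  refine ofReal_le_LL (_root_.FF.final_four (EC k) (EC_mono k) ?_)
  have h := covers_of_dvd (k := k) (a := 1) le_rfl (by rw [hk]; norm_num) {1, 3} (by
    intro d hd
    rcases hd with rfl | rfl
    · exact ⟨by decide, by norm_num⟩
    · exact ⟨by decide, by norm_num⟩) 11
  convert h using 1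
  · norm_num
  · norm_num

theorem LL_sixteen {k : Type} [Field k] (hk : Nat.card k = 16) :
    ENNReal.ofReal (20 / 13) ≤ LL k := by
  have : Finite k := Nat.finite_of_card_ne_zero (by omega)
  refine ofReal_le_LL (_root_.FF.final_sixteen (EC k) (EC_mono k) ?_)
  have h := covers_of_dvd (k := k) (a := 2) (by norm_num) (by rw [hk]; norm_num) {1, 5} (by
    intro d hd
    rcases hd with rfl | rfl
    · exact ⟨by decide, by norm_num⟩
    · exact ⟨by decide, by norm_num⟩) 20
  convert h using 1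
  · norm_num
  · norm_num

theorem LL_sixtyfour {k : Type} [Field k] (hk : Nat.card k = 64) :
    ENNReal.ofReal (252 / 65) ≤ LL k := by
  have : Finite k := Nat.finite_of_card_ne_zero (by omega)
  refine ofReal_le_LL (_root_.FF.final_sixtyfour (EC k) (EC_mono k) ?_)
  have h := covers_of_dvd (k := k) (a := 3) (by norm_num) (by rw [hk]; norm_num) {3, 9} (by
    intro d hd
    rcases hd with rfl | rfl
    · exact ⟨by decide, by norm_num⟩
    · exact ⟨by decide, by norm_num⟩) 34
  convert h using 1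
  · norm_num
  · norm_num

theorem LL_twofiftysix {k : Type} [Field k] (hk : Nat.card k = 256) :
    ENNReal.ofReal (680 / 91) ≤ LL k := by
  have : Finite k := Nat.finite_of_card_ne_zero (by omega)
  refine ofReal_le_LL (_root_.FF.final_twofiftysix (EC k) (EC_mono k) ?_)
  have h := covers_of_dvd (k := k) (a := 4) (by norm_num) (by rw [hk]; norm_num) {17} (by
    intro d hd
    rw [Set.mem_singleton_iff] at hd
    subst hd
    exact ⟨by decide, by norm_num⟩) 70
  convert h using 1
  · norm_num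
  · norm_num

end Pool.Agent.FF
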