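import Pool.Agent.FF.AssemN
import Pool.Agent.FF.FinalLL
import Pool.Agent.FF.Final3
import Pool.Agent.FF.Main

/-!
# Lower bounds for `L(q)` from towers with real parameters
-/

set_option autoImplicit false

namespace Pool.Agent.FF

theorem LL_eight_of {k : Type} [Field k] (hk : Nat.card k = 8) (H : TowerN k (4, 4, 6)) :
    ENNReal.ofReal (9 / 14) ≤ LL k := by
  have : Finite k := Nat.finite_of_card_ne_zero (by omega)
  refine ofReal_le_LL (_root_.FF.final_eight (EC k) (EC_mono k) ?_)
  have h := coversN (k := k) (e := 3) (by norm_num) (by rw [hk]; norm_num)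
    ({(4, 4, 6)} : Set (ℝ × ℝ × ℝ)) (Set.finite_singleton _) (by
      intro p hp
      rw [Set.mem_singleton_iff] at hp
      subst hp
      exact ⟨by norm_num, by norm_num, by norm_num, H⟩) 20
  have h3 : ((3 : ℕ) : ℝ) = 3 := by norm_num
  rwa [h3] at h

/-- `q = 16`, the quotients by `μ_3` with obstruction at most the genus. -/
theorem LL_sixteen_of {k : Type} [Field k] (hk : Nat.card k = 16)
    (H1 : TowerN k (1 / 3, 1 / 3, 1)) (H2 : TowerN k (5 / 3, 5 / 3, 5)) :
    ENNReal.ofReal (16 / 9) ≤ LL k := by
  have : Finite k := Nat.finite_of_card_ne_zero (by omega)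
  refine ofReal_le_LL (_root_.FF.final_sixteen_h (EC k) (EC_mono k) ?_)
  have t1 : TowerN k (1, 1, 3) := by
    have := (tower (k := k) (a := 2) (d := 1) (by norm_num) (by rw [hk]; norm_num) (by decide)
      (by norm_num)).toN
    norm_num at this
    exact this
  have t5 : TowerN k (5, 1, 15) := by
    have := (tower (k := k) (a := 2) (d := 5) (by norm_num) (by rw [hk]; norm_num) (by decide)
      (by norm_num)).toN
    norm_num at this
    exact this
  have h := coversN (k := k) (e := 4) (by norm_num) (by rw [hk]; norm_num)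
    ({(5, 1, 15), (1 / 3, 1 / 3, 1), (5 / 3, 5 / 3, 5), (1, 1, 3)} : Set (ℝ × ℝ × ℝ))
    (Set.toFinite _) (by
      intro p hp
      simp only [Set.mem_insert_iff, Set.mem_singleton_iff] at hp
      rcases hp with rfl | rfl | rfl | rfl
      · exact ⟨by norm_num, by norm_num, by norm_num, t5⟩
      · exact ⟨by norm_num, by norm_num, by norm_num, H1⟩
      · exact ⟨by norm_num, by norm_num, by norm_num, H2⟩
      · exact ⟨by norm_num, by norm_num, by norm_num, t1⟩) 25
  have h3 : ((4 : ℕ) : ℝ) = 4 := by norm_num
  rwa [h3] at h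

/-- `q = 16`, the quotients by `μ_3` with obstruction at most `min 1 h`. -/
theorem LL_sixteen_of_one {k : Type} [Field k] (hk : Nat.card k = 16)
    (H1 : TowerN k (1 / 3, 1 / 3, 1)) (H2 : TowerN k (5 / 3, 1, 5)) :
    ENNReal.ofReal (20 / 11) ≤ LL k := by
  have : Finite k := Nat.finite_of_card_ne_zero (by omega)
  refine ofReal_le_LL (_root_.FF.final_sixteen_one (EC k) (EC_mono k) ?_)
  have t1 : TowerN k (1, 1, 3) := by
    have := (tower (k := k) (a := 2) (d := 1) (by norm_num) (by rw [hk]; norm_num) (by decide)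
      (by norm_num)).toN
    norm_num at this
    exact this
  have t5 : TowerN k (5, 1, 15) := by
    have := (tower (k := k) (a := 2) (d := 5) (by norm_num) (by rw [hk]; norm_num) (by decide)
      (by norm_num)).toN
    norm_num at this
    exact this
  have h := coversN (k := k) (e := 4) (by norm_num) (by rw [hk]; norm_num)
    ({(5, 1, 15), (1 / 3, 1 / 3, 1), (5 / 3, 1, 5), (1, 1, 3)} : Set (ℝ × ℝ × ℝ))
    (Set.toFinite _) (by
      intro p hp
      simp only [Set.mem_insert_iff, Set.mem_singleton_iff] at hp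
      rcases hp with rfl | rfl | rfl | rfl
      · exact ⟨by norm_num, by norm_num, by norm_num, t5⟩
      · exact ⟨by norm_num, by norm_num, by norm_num, H1⟩
      · exact ⟨by norm_num, by norm_num, by norm_num, H2⟩
      · exact ⟨by norm_num, by norm_num, by norm_num, t1⟩) 25
  have h3 : ((4 : ℕ) : ℝ) = 4 := by norm_num
  rwa [h3] at h

/-- `q = 64`, the quotients by `μ_7`. -/
theorem LL_sixtyfour_of {k : Type} [Field k] (hk : Nat.card k = 64)
    (H1 : TowerN k (9 / 7, 9 / 7, 9)) (H2 : TowerN k (3 / 7, 3 / 7, 3)) :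
    ENNReal.ofReal (294 / 73) ≤ LL k := by
  have : Finite k := Nat.finite_of_card_ne_zero (by omega)
  refine ofReal_le_LL (_root_.FF.final_sixtyfour_h (EC k) (EC_mono k) ?_)
  have t9 : TowerN k (9, 1, 63) := by
    have := (tower (k := k) (a := 3) (d := 9) (by norm_num) (by rw [hk]; norm_num) (by decide)
      (by norm_num)).toN
    norm_num at this
    exact this
  have t3 : TowerN k (3, 1, 21) := by
    have := (tower (k := k) (a := 3) (d := 3) (by norm_num) (by rw [hk]; norm_num) (by decide)
      (by norm_num)).toN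
    norm_num at this
    exact this
  have h := coversN (k := k) (e := 6) (by norm_num) (by rw [hk]; norm_num)
    ({(9, 1, 63), (9 / 7, 9 / 7, 9), (3, 1, 21), (3 / 7, 3 / 7, 3)} : Set (ℝ × ℝ × ℝ))
    (Set.toFinite _) (by
      intro p hp
      simp only [Set.mem_insert_iff, Set.mem_singleton_iff] at hp
      rcases hp with rfl | rfl | rfl | rfl
      · exact ⟨by norm_num, by norm_num, by norm_num, t9⟩
      · exact ⟨by norm_num, by norm_num, by norm_num, H1⟩
      · exact ⟨by norm_num, by norm_num, by norm_num, t3⟩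
      · exact ⟨by norm_num, by norm_num, by norm_num, H2⟩) 50
  have h3 : ((6 : ℕ) : ℝ) = 6 := by norm_num
  rwa [h3] at h

/-- `q = 256`, the quotients by `μ_3` and `μ_5` with obstruction at most `1`. -/
theorem LL_twofiftysix_of {k : Type} [Field k] (hk : Nat.card k = 256)
    (H1 : TowerN k (17 / 3, 1, 85)) (H2 : TowerN k (17 / 5, 1, 51)) :
    ENNReal.ofReal (1224 / 161) ≤ LL k := by
  have : Finite k := Nat.finite_of_card_ne_zero (by omega)
  refine ofReal_le_LL (_root_.FF.final_twofiftysix_one (EC k) (EC_mono k) ?_)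
  have t17 : TowerN k (17, 1, 255) := by
    have := (tower (k := k) (a := 4) (d := 17) (by norm_num) (by rw [hk]; norm_num) (by decide)
      (by norm_num)).toN
    norm_num at this
    exact this
  have h := coversN (k := k) (e := 8) (by norm_num) (by rw [hk]; norm_num)
    ({(17, 1, 255), (17 / 3, 1, 85), (17 / 5, 1, 51)} : Set (ℝ × ℝ × ℝ))
    (Set.toFinite _) (by
      intro p hp
      simp only [Set.mem_insert_iff, Set.mem_singleton_iff] at hp
      rcases hp with rfl | rfl | rfl
      · exact ⟨by norm_num, by norm_num, by norm_num, t17⟩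
      · exact ⟨by norm_num, by norm_num, by norm_num, H1⟩
      · exact ⟨by norm_num, by norm_num, by norm_num, H2⟩) 70
  have h3 : ((8 : ℕ) : ℝ) = 8 := by norm_num
  rwa [h3] at h

end Pool.Agent.FF
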