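import Pool.Agent.FF.EightC
import Pool.Agent.FF.MainN

/-! `L(8) ≥ 36/53`. -/

set_option autoImplicit false

namespace Pool.Agent.FF

theorem final_eight {E : ℕ → ℝ → Prop} (mono : ∀ G x y, y ≤ x → E G x → E G y)
    (H : _root_.FF.CoversN E 3 20 {(4, 5 / 2, 6)}) :
    ∀ ε : ℝ, 0 < ε → ∃ G0 : ℕ, ∀ G : ℕ, G0 ≤ G → E G ((36 / 53 - ε) * G) := by
  apply _root_.FF.final_limit E mono
  intro η hη
  set δ : ℝ := min η 1 with hδdef
  have hδ : 0 < δ := lt_min hη one_pos
  have hδ1 : δ ≤ 1 := min_le_right _ _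
  have hδη : δ ≤ η := min_le_left _ _
  refine ⟨36 / 53 - δ, by linarith, ?_⟩
  apply _root_.FF.final_generalN E mono 3 _ ((53 / 2 + δ) / 3) δ 20 (by norm_num)
    (by positivity) hδ {(4, 5 / 2, 6)} _ _ H
  · intro p hp
    rw [Set.mem_singleton_iff] at hp
    subst hp
    norm_num
  intro x hx1 hx2
  refine ⟨(4, 5 / 2, 6), by simp, 0, ?_, ?_, ?_⟩
  · norm_num; linarith
  · norm_num; linarith
  · unfold _root_.FF.phiN
    rw [le_min_iff]
    have h4 : 8 * δ ≤ δ * x := by nlinarith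
    constructor
    · norm_num; nlinarith
    · norm_num; nlinarith

theorem charP_eight {k : Type} [Field k] [Finite k] (hk : Nat.card k = 8) : CharP k 2 := by
  have : Fintype k := Fintype.ofFinite k
  obtain ⟨p, hp⟩ := CharP.exists k
  obtain ⟨n, hprime, hn⟩ := FiniteField.card k p
  rw [← Nat.card_eq_fintype_card, hk] at hn
  have h1 : p ∣ 2 ^ 3 := by
    have e : (2 : ℕ) ^ 3 = 8 := by norm_num
    rw [e, hn]
    exact dvd_pow_self p n.ne_zero
  have h2 : p = 2 := (Nat.prime_dvd_prime_iff_eq hprime Nat.prime_two).1 (hprime.dvd_of_dvd_pow h1)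
  rw [← h2]
  exact hp

theorem LL_eight {k : Type} [Field k] (hk : Nat.card k = 8) : ENNReal.ofReal (36 / 53) ≤ LL k := by
  have : Finite k := Nat.finite_of_card_ne_zero (by omega)
  have := charP_eight hk
  refine ofReal_le_LL (final_eight (EC_mono k) ?_)
  have h := coversN (k := k) (e := 3) (by norm_num) (by rw [hk]; norm_num)
    ({(4, 5 / 2, 6)} : Set (ℝ × ℝ × ℝ)) (Set.finite_singleton _) (by
      intro p hp
      rw [Set.mem_singleton_iff] at hp
      subst hp
      exact ⟨by norm_num, by norm_num, by norm_num, towerNA hk⟩) 20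
  have h3 : ((3 : ℕ) : ℝ) = 3 := by norm_num
  rwa [h3] at h

end Pool.Agent.FF
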