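import Pool.Agent.FF.EightA

/-! One step of the tower `z ^ 2 + z = y + 1 + 1 / y` over an extension of the rational function field
over the field with `8` elements in which the pole orders are at most `2 w - 1`. -/

set_option autoImplicit false
set_option linter.unusedSectionVars false
set_option linter.style.haveILetI false

namespace Pool.Agent.FF

open Finset Polynomial

/-- `b` has a pole of order at most `N` at `v` modulo `c ^ 2 + c`. -/
def WN (N : ℕ) {K : Type*} [Field K] (v : DV K) (b : K) : Prop :=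
  ∃ c : K, v.G (-(N : ℤ)) (b + (c ^ 2 + c))

theorem WN.nf {K : Type*} [Field K] [CharP K 2] {w N : ℕ} (hN : N + 1 = 2 * w) {v : DV K}
    (hp : v.Perf) {f : K} (h : WN N v f) : ∃ (c : K) (D : ℕ), D ≤ w ∧
      ((D = 0 ∧ v.G 0 (f + (c ^ 2 + c))) ∨ (D ≠ 0 ∧ v.ord (f + (c ^ 2 + c)) = 1 - 2 * D)) := by
  have two : (2 : K) = 0 := CharTwo.two_eq_zero
  obtain ⟨c, hc⟩ := h
  obtain ⟨d, hd⟩ := DV.reduce hp (f + (c ^ 2 + c))
  have e1 : f + (c ^ 2 + c) + (d ^ 2 + d) = f + ((c + d) ^ 2 + (c + d)) := by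
    linear_combination -(c * d) * two
  rcases hd with hd | ⟨e, he, hd⟩
  · exact ⟨c + d, 0, Nat.zero_le _, Or.inl ⟨rfl, by rwa [e1] at hd⟩⟩
  · refine ⟨c + d, e, ?_, Or.inr ⟨by omega, by rwa [e1] at hd⟩⟩
    by_contra hlt
    have h0 : f + (c ^ 2 + c) + (d ^ 2 + d) ≠ 0 := by
      intro h0
      rw [h0, v.ord_zero] at hd
      omega
    have h1 := DV.ord_add_of_lt (v := v) h0 (b := f + (c ^ 2 + c)) (hc.mono (by rw [hd]; omega))
    have e2 : f + (c ^ 2 + c) + (d ^ 2 + d) + (f + (c ^ 2 + c)) = d ^ 2 + d := by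
      linear_combination (f + (c ^ 2 + c)) * two
    rw [e2, hd] at h1
    exact DV.not_odd_pole he h1.2

/-- The state of the tower at level `j`. -/
def StG (k : Type) [Field k] (w m μ κ ν c₀ d₀ : ℕ) (K : Type) [Field K] [Algebra k K] (y : K)
    (j : ℕ) : Prop :=
  ∃ (g o C : ℕ) (A B T : Finset (DV K)), IsFF k K ∧ Cv k K g ∧ Ob K o ∧
    (∀ v, v ∉ A → v ∉ B → U8 v y) ∧
    A.card ≤ 2 ∧
    (∀ v ∈ A, v.ord (y + 1 + y⁻¹) = -(m : ℤ)) ∧
    (∀ v ∈ B, (∃ a : K, v.G 1 (a ^ 2 + a + 1)) ∨ v.G 1 (y + 1)) ∧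
    g + (w * ∑ v ∈ A, v.deg (Nat.card k) + w * ∑ v ∈ B, v.deg (Nat.card k)) ≤ μ * 2 ^ j + 1 ∧
    2 * o + 2 + ∑ v ∈ B, v.deg (Nat.card k) ≤ κ * 2 ^ j ∧
    (∃ P : DV K, P.Rat k ∧ P.ord y = -(m : ℤ)) ∧
    ν * 2 ^ j ≤ T.card ∧
    (∀ v ∈ T, v.Rat k ∧ ∃ ζ : k, ζ ≠ 0 ∧ ζ ≠ 1 ∧ v.G 1 (y + algebraMap k K ζ)) ∧
    C + 7 ≤ 2 ^ j * (4 * μ * j + c₀) ∧
    HasPlX k K ((μ * 2 ^ j + 2) * (μ * 2 ^ j + 3)) C (d₀ * 2 ^ j)

theorem f_ord_negN {K : Type*} [Field K] {P : DV K} {y : K} {m : ℕ} (hm : 1 ≤ m)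
    (h : P.ord y = -(m : ℤ)) : P.ord (y + 1 + y⁻¹) = -(m : ℤ) := by
  have hy : y ≠ 0 := by
    rintro rfl
    rw [P.ord_zero] at h
    omega
  have h1 : P.G (P.ord y + 1) (1 + y⁻¹) := by
    rw [h]
    refine DV.G.add ?_ ?_
    · exact DV.G_one.mono (by omega)
    · exact DV.G_of_le (by rw [P.ord_inv hy, h]; omega)
  have h2 := (DV.ord_add_of_lt hy h1).2
  rw [← add_assoc] at h2
  rw [h2, h]

theorem const_recG {μ j C g' c₀ : ℕ} (hC : C + 7 ≤ 2 ^ j * (4 * μ * j + c₀))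
    (hg : g' ≤ μ * 2 ^ (j + 1) + 1) :
    2 * C + 4 * g' + 3 + 7 ≤ 2 ^ (j + 1) * (4 * μ * (j + 1) + c₀) := by
  have e : 2 ^ (j + 1) * (4 * μ * (j + 1) + c₀) =
      2 * (2 ^ j * (4 * μ * j + c₀)) + 4 * (μ * 2 ^ (j + 1)) := by
    rw [pow_succ]; ring
  rw [e]
  omega

section step

variable {k : Type} [Field k] [Finite k] [CharP k 2] {w m μ κ ν c₀ d₀ : ℕ}

theorem StG.irr (hm : m + 1 = 2 * w) {K : Type} [Field K] [Algebra k K] [CharP K 2] {y : K} {j : ℕ}
    (h : StG k w m μ κ ν c₀ d₀ K y j) (c : K) : c ^ 2 + c ≠ y + 1 + y⁻¹ := by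
  obtain ⟨g, o, C, A, B, T, -, -, -, -, -, -, -, -, -, ⟨P, -, hP⟩, -⟩ := h
  intro hc
  have h1 := f_ord_negN (by omega) hP
  rw [← hc] at h1
  exact DV.not_odd_pole (v := P) (c := c) (e := w) (by omega) (by rw [h1]; omega)

theorem StG.step (hk : Nat.card k = 8) (hm : m + 1 = 2 * w) {K K' : Type} [Field K] [Algebra k K]
    [CharP K 2] [Field K'] [Algebra k K'] [CharP K' 2] [Algebra K K'] [IsScalarTower k K K'] {y f : K}
    {j : ℕ} (h : StG k w m μ κ ν c₀ d₀ K y j) (hf : f = y + 1 + y⁻¹) (hW : ∀ v : DV K, WN m v f)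
    (S : AS K K' f) : StG k w m μ κ ν c₀ d₀ K' S.y (j + 1) := by
  classical
  obtain ⟨g, o, C, A, B, T, hFF, hC, hO, hU, hA2, hAf, hBr, hg, ho, ⟨P, hPr, hP⟩, hT, hT', hCb,
    hPl⟩ := h
  have two : (2 : K) = 0 := CharTwo.two_eq_zero
  have two' := AS.two' K K'
  have hm1 : 1 ≤ m := by omega
  have hmo : Odd m := ⟨w - 1, by omega⟩
  have hres : ∀ v : DV K, Nat.card v.Res = Nat.card k ^ v.deg (Nat.card k) := fun v => (hC.res v).2
  have hdeg1 : ∀ v : DV K, 1 ≤ v.deg (Nat.card k) := fun v => (hC.res v).1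
  -- normal form
  have hnf : ∀ v : DV K, ∃ (c : K) (D : ℕ), (v.G 0 f → c = 0 ∧ D = 0) ∧ D ≤ w ∧
      ((D = 0 ∧ v.G 0 (f + (c ^ 2 + c))) ∨ (D ≠ 0 ∧ v.ord (f + (c ^ 2 + c)) = 1 - 2 * D)) := by
    intro v
    by_cases h1 : v.G 0 f
    · exact ⟨0, 0, fun _ => ⟨rfl, rfl⟩, Nat.zero_le _, Or.inl ⟨rfl, by simpa using h1⟩⟩
    · obtain ⟨c, D, h2, h3⟩ := (hW v).nf hm (DV.perf_of_res (hC.resCard_ne v))
      exact ⟨c, D, fun h4 => absurd h4 h1, h2, h3⟩
  choose c D hcD hDw hnf using hnf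
  have hNF : NF f D c :=
    { cA := (hC.poles f).subset fun v hv h1 => hv (by rw [(hcD v h1).1]; exact DV.G_zero _)
      fin := (hC.poles f).subset fun v hv h1 => hv (hcD v h1).2
      int := fun v hv => by
        rcases hnf v with h1 | h1
        · exact h1.2
        · exact absurd hv h1.1
      odd := fun v hv => by
        rcases hnf v with h1 | h1
        · exact absurd h1.1 hv
        · exact h1.2 }
  -- the ramified places
  set R : Finset (DV K) := hNF.fin.toFinset with hR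
  have hRm : ∀ v, v ∈ R ↔ D v ≠ 0 := fun v => by rw [hR, Set.Finite.mem_toFinset]; exact Iff.rfl
  have hRB : ∀ v ∈ R, v ∉ A → v ∈ B := by
    intro v hv hA
    by_contra h1
    have h2 := (hU v hA h1).f
    rw [← hf] at h2
    exact (hRm v).1 hv (hcD v (DV.G_of_le h2.2.ge)).2
  have hDR : ∀ v ∈ R, v.ord (f + (c v ^ 2 + c v)) = 1 - 2 * (D v : ℤ) := fun v hv => by
    rcases hnf v with h1 | h1
    · exact absurd h1.1 ((hRm v).1 hv)
    · exact h1.2
  have hfP := f_ord_negN hm1 hP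
  rw [← hf] at hfP
  have hPR : D P ≠ 0 := by
    intro h1
    exact DV.not_int_of_odd (v := P) (f := f + (c P ^ 2 + c P)) (c := c P) (e := w) (by omega) (by
      have e1 : f + (c P ^ 2 + c P) + (c P ^ 2 + c P) = f := by
        linear_combination (c P ^ 2 + c P) * two
      rw [e1, hfP]
      omega) (hNF.int P h1)
  have hPR' : P ∈ R := (hRm P).2 hPR
  obtain ⟨g', hg', hC'⟩ := hC.double S hNF ⟨P, hPR⟩
  have hsum : ∑ᶠ v, D v * v.deg (Nat.card k) ≤ w * ∑ v ∈ R, v.deg (Nat.card k) := by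
    rw [finsum_eq_sum_of_support_subset (s := R), mul_sum]
    · exact sum_le_sum fun v _ => Nat.mul_le_mul_right _ (hDw v)
    · intro v hv
      rw [Function.mem_support] at hv
      rw [mem_coe, hRm]
      exact fun h0 => hv (by rw [h0, zero_mul])
  have hfin : ∀ v : DV K, Finite v.Res := by
    intro v
    apply Nat.finite_of_card_ne_zero
    rw [hres v]
    exact pow_ne_zero _ Nat.card_pos.ne'
  have hRcard : Nat.card {v : DV K | D v ≠ 0} = R.card := by
    have : {v : DV K | D v ≠ 0} = (R : Set (DV K)) := by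
      ext v
      rw [mem_coe, hRm]
      rfl
    rw [this]
    simp
  -- splitting of the ramified places
  have hR1 : R ⊆ A ∪ (R ∩ B) := by
    intro v hv
    by_cases hA : v ∈ A
    · exact mem_union_left _ hA
    · exact mem_union_right _ (mem_inter.2 ⟨hv, hRB v hv hA⟩)
  have hRle : R.card ≤ 2 + (R ∩ B).card :=
    (card_le_card hR1).trans ((card_union_le _ _).trans (Nat.add_le_add_right hA2 _))
  have hRdeg : ∑ v ∈ R, v.deg (Nat.card k) ≤
      ∑ v ∈ A, v.deg (Nat.card k) + ∑ v ∈ R ∩ B, v.deg (Nat.card k) := by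
    refine (sum_le_sum_of_subset hR1).trans ?_
    rw [← sum_union_inter]
    exact Nat.le_add_right _ _
  have hRdegw : w * ∑ v ∈ R, v.deg (Nat.card k) ≤
      w * ∑ v ∈ A, v.deg (Nat.card k) + w * ∑ v ∈ R ∩ B, v.deg (Nat.card k) := by
    rw [← mul_add]
    exact Nat.mul_le_mul_left _ hRdeg
  have hRB2 : 2 * (R ∩ B).card ≤ ∑ v ∈ R ∩ B, v.deg (Nat.card k) := by
    rw [mul_comm, ← smul_eq_mul]
    refine card_nsmul_le_sum _ _ _ fun v hv => ?_
    obtain ⟨hv1, hv2⟩ := mem_inter.1 hv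
    have h1 : ¬ v.Rat k := by
      rcases hBr v hv2 with ⟨a, ha⟩ | hy1
      · exact not_rat8 hk ha
      · exfalso
        -- `y` is congruent to `1`, so `f` is integral
        have hy : v.ord y = 0 ∧ y ≠ 0 := by
          have h3 : v.G (v.ord (1 : K) + 1) (y + 1) := by rw [v.ord_one]; exact hy1
          have h4 := DV.ord_add_of_lt (v := v) (a := 1) (b := y + 1) one_ne_zero h3
          have h5 : (1 : K) + (y + 1) = y := by linear_combination two
          rw [h5, v.ord_one] at h4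
          exact ⟨h4.2, h4.1⟩
        have h6 : v.G 0 f := by
          rw [hf]
          refine DV.G.add (DV.G.add (DV.G_of_le hy.1.ge) DV.G_one) (DV.G_of_le ?_)
          rw [v.ord_inv hy.2, hy.1, neg_zero]
        exact (hRm v).1 hv1 (hcD v h6).2
    have h2 := hdeg1 v
    have h3 : v.deg (Nat.card k) ≠ 1 := fun h => h1 ((DV.rat_iff (hres v)).2 h)
    omega
  have hRpos : 1 ≤ R.card := card_pos.2 ⟨P, hPR'⟩
  have hO' := Ob.up S hNF hC.poles hfin hPR hPr hO
  rw [hRcard] at hO'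
  have hq : 2 ≤ Nat.card k := Finite.one_lt_card
  -- the places over `A` and `B`
  obtain ⟨A₁, hA₁, hA₁d⟩ := exists_fibers (K' := K') (Nat.card k) 1 A fun v hv => by
    obtain ⟨w₀, h1, h2⟩ := S.fib_ram (Nat.card k) (m := m) hmo (v := v) (by
      rw [hf, hAf v hv])
    exact ⟨{w₀}, fun w => by rw [mem_singleton]; exact h1 w, by rw [sum_singleton, h2, one_mul]⟩
  have hA₁f : ∀ w ∈ A₁, w.ord (S.y + 1 + S.y⁻¹) = -(m : ℤ) := by
    intro w hw
    obtain ⟨v, hv, ho⟩ := (hA₁ w).1 hw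
    exact f_ord_negN hm1 (S.over_of_odd' ho (m := m) hmo (by rw [hf, hAf v hv])).2.1
  have hA₁2 : A₁.card ≤ 2 := by
    have h1 : ∀ w ∈ A₁, ∃ v ∈ A, Over w v := fun w hw => (hA₁ w).1 hw
    haveI : Nonempty (DV K) := ⟨P⟩
    choose! u hu1 hu2 using h1
    refine (card_le_card_of_injOn u (fun w hw => hu1 w hw) ?_).trans hA2
    intro w hw w' hw' he
    have h2 := hu2 w hw
    have h3 := hu2 w' hw'
    rw [← he] at h3
    exact ((S.over_of_odd' h2 (m := m) hmo (by rw [hf, hAf _ (hu1 w hw)])).2.2.2 w' h3).symm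
  obtain ⟨B₁, hB₁, hB₁d⟩ := exists_fibers (K' := K') (Nat.card k) 1 (R ∩ B) fun v hv => by
    have hvR := (mem_inter.1 hv).1
    have hD0 := (hRm v).1 hvR
    obtain ⟨w₀, h1, h2⟩ := (S.shift (c v)).fib_ram (Nat.card k) (m := 2 * D v - 1)
      ⟨D v - 1, by omega⟩ (by rw [hDR v hvR]; omega)
    exact ⟨{w₀}, fun w => by rw [mem_singleton]; exact h1 w, by rw [sum_singleton, h2, one_mul]⟩
  obtain ⟨B₂, hB₂, hB₂d⟩ := exists_fibers (K' := K') (Nat.card k) 2 (B \ R) fun v hv =>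
    S.fib_unram hq (hres v) (hNF.int v (by
      by_contra h1
      exact (mem_sdiff.1 hv).2 ((hRm v).2 h1)))
  have hsplit : ∑ v ∈ B \ R, v.deg (Nat.card k) + ∑ v ∈ R ∩ B, v.deg (Nat.card k) =
      ∑ v ∈ B, v.deg (Nat.card k) := by
    rw [inter_comm, ← sdiff_inter_self_left B R]
    exact sum_sdiff inter_subset_left
  have hB' : ∑ w ∈ B₁ ∪ B₂, w.deg (Nat.card k) + ∑ v ∈ R ∩ B, v.deg (Nat.card k) ≤
      2 * ∑ v ∈ B, v.deg (Nat.card k) := by
    have h1 : ∑ w ∈ B₁ ∪ B₂, w.deg (Nat.card k) ≤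
        ∑ w ∈ B₁, w.deg (Nat.card k) + ∑ w ∈ B₂, w.deg (Nat.card k) := by
      rw [← sum_union_inter]
      exact Nat.le_add_right _ _
    omega
  have hB'w : w * ∑ w ∈ B₁ ∪ B₂, w.deg (Nat.card k) + w * ∑ v ∈ R ∩ B, v.deg (Nat.card k) ≤
      2 * (w * ∑ v ∈ B, v.deg (Nat.card k)) := by
    rw [← mul_add]
    calc _ ≤ w * (2 * ∑ v ∈ B, v.deg (Nat.card k)) := Nat.mul_le_mul_left _ hB'
      _ = _ := by ring
  have hA'w : w * ∑ w ∈ A₁, w.deg (Nat.card k) ≤ w * ∑ v ∈ A, v.deg (Nat.card k) :=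
    Nat.mul_le_mul_left _ (by rwa [one_mul] at hA₁d)
  have hBo : ∀ w ∈ B₁ ∪ B₂, ∃ v ∈ B, Over w v := by
    intro w hw
    rcases mem_union.1 hw with h1 | h1
    · obtain ⟨v, hv, ho⟩ := (hB₁ w).1 h1
      exact ⟨v, (mem_inter.1 hv).2, ho⟩
    · obtain ⟨v, hv, ho⟩ := (hB₂ w).1 h1
      exact ⟨v, (mem_sdiff.1 hv).1, ho⟩
  -- the split places
  have key : ∀ v ∈ T, ∃ F : Finset (DV K'), F.card = 2 ∧ ∀ w ∈ F, Over w v ∧ w.Rat k ∧
      ∃ ζ : k, ζ ≠ 0 ∧ ζ ≠ 1 ∧ w.G 1 (S.y + algebraMap k K' ζ) := by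
    intro v hv
    obtain ⟨hvr, ζ, hz0, hz1, hζ⟩ := hT' v hv
    obtain ⟨η, he0, he1, he⟩ := exists_eta hk hz0 hz1
    have hζK : algebraMap k K ζ ≠ 0 := (_root_.map_ne_zero _).2 hz0
    have hordζ : v.ord (algebraMap k K ζ) = 0 := v.ord_const ζ
    have hs : v.G 1 (f + ((algebraMap k K η) ^ 2 + algebraMap k K η)) := by
      have hy := hζ.add (DV.G_zero 1)
      have hyne : y ≠ 0 := by
        rintro rfl
        rw [zero_add] at hζ
        have := hζ.le hζK
        omega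
      have hordy : v.ord y = 0 := by
        have h1 : v.G (v.ord (algebraMap k K ζ) + 1) (y + algebraMap k K ζ) := by
          rw [hordζ]; exact hζ
        have h2 := (DV.ord_add_of_lt hζK h1).2
        have h3 : algebraMap k K ζ + (y + algebraMap k K ζ) = y := by
          linear_combination (algebraMap k K ζ) * two
        rw [h3, hordζ] at h2
        exact h2
      have h4 : f + ((algebraMap k K η) ^ 2 + algebraMap k K η) =
          (y + algebraMap k K ζ) + (y + algebraMap k K ζ) * (y * algebraMap k K ζ)⁻¹ := by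
        have h5 := congrArg (algebraMap k K) he
        simp only [map_add, map_pow, map_one, map_inv₀] at h5
        rw [h5, hf]
        field_simp
        linear_combination (y * algebraMap k K ζ) * two
      rw [h4]
      refine hζ.add ?_
      have h6 : v.G 0 (y * algebraMap k K ζ)⁻¹ := DV.G_of_le (by
        rw [v.ord_inv (mul_ne_zero hyne hζK), v.ord_mul _ _ hyne hζK, hordy, hordζ]; norm_num)
      exact (hζ.mul h6).mono (by norm_num)
    obtain ⟨w₁, w₂, hne, ho1, ho2, -, hr1, hr2, -, -, hy1, hy2⟩ := S.split_places_rat hvr hs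
    rw [← IsScalarTower.algebraMap_apply] at hy1 hy2
    refine ⟨{w₁, w₂}, card_pair hne, fun w hw => ?_⟩
    rw [mem_insert, mem_singleton] at hw
    rcases hw with rfl | rfl
    · exact ⟨ho1, hr1, η, he0, he1, hy1⟩
    · refine ⟨ho2, hr2, η + 1, ?_, ?_, ?_⟩
      · intro h1
        apply he1
        have twok : (2 : k) = 0 := CharTwo.two_eq_zero
        linear_combination h1 - twok
      · intro h1
        apply he0
        linear_combination h1
      · rw [map_add, map_one, ← add_assoc]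
        exact hy2
  choose! F hF1 hF2 using key
  obtain ⟨P', hP'1, -⟩ := S.fib_ram (Nat.card k) (m := m) hmo (v := P) hfP
  have hP'o : Over P' P := (hP'1 P').1 rfl
  have hg'8 : g' ≤ μ * 2 ^ (j + 1) + 1 := by
    have : w * ∑ v ∈ R ∩ B, v.deg (Nat.card k) ≤ w * ∑ v ∈ B, v.deg (Nat.card k) :=
      Nat.mul_le_mul_left _ (sum_le_sum_of_subset inter_subset_right)
    rw [pow_succ, ← mul_assoc]
    omega
  refine ⟨g', _, _, A₁, B₁ ∪ B₂, T.biUnion F, hFF.up hC' S, hC', hO', ?_, hA₁2, hA₁f, ?_, ?_, ?_,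
    ⟨P', S.rat_ram hPr (m := m) hmo hfP hP'o,
      (S.over_of_odd' hP'o (m := m) hmo hfP).2.1⟩, ?_, ?_, const_recG hCb hg'8, ?_⟩
  · intro w hwA hwB
    obtain ⟨v, hv⟩ := S.exists_over w
    have hvA : v ∉ A := fun h1 => hwA ((hA₁ w).2 ⟨v, h1, hv⟩)
    have hvB : v ∉ B := by
      intro h1
      apply hwB
      by_cases h2 : v ∈ R
      · exact mem_union_left _ ((hB₁ w).2 ⟨v, mem_inter.2 ⟨h2, h1⟩, hv⟩)
      · exact mem_union_right _ ((hB₂ w).2 ⟨v, mem_sdiff.2 ⟨h1, h2⟩, hv⟩)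
    exact (hU v hvA hvB).up hv (by rw [S.eq, hf])
  · intro w hw
    obtain ⟨v, hv, hov⟩ := hBo w hw
    left
    rcases hBr v hv with ⟨a, ha⟩ | hy1
    · refine ⟨algebraMap K K' a, ?_⟩
      have h1 := (hov.G_one_iff (a ^ 2 + a + 1)).2 ha
      rwa [map_add, map_add, map_pow, map_one] at h1
    · refine ⟨S.y, ?_⟩
      have hy : v.ord y = 0 ∧ y ≠ 0 := by
        have h3 : v.G (v.ord (1 : K) + 1) (y + 1) := by rw [v.ord_one]; exact hy1
        have h4 := DV.ord_add_of_lt (v := v) (a := 1) (b := y + 1) one_ne_zero h3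
        have h5 : (1 : K) + (y + 1) = y := by linear_combination two
        rw [h5, v.ord_one] at h4
        exact ⟨h4.2, h4.1⟩
      have h6 : S.y ^ 2 + S.y + 1 = algebraMap K K' ((y + 1) * ((y + 1) * y⁻¹)) := by
        have h7 : (y + 1) * ((y + 1) * y⁻¹) = f + 1 := by
          have hy0 := hy.2
          rw [hf]
          field_simp
          linear_combination 0 * two
        rw [h7, map_add, map_one, ← S.eq]
      rw [h6]
      refine (hov.G_one_iff _).2 ?_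
      have h8 : v.G 0 ((y + 1) * y⁻¹) := by
        have h9 : v.G 0 y⁻¹ := DV.G_of_le (by rw [v.ord_inv hy.2, hy.1, neg_zero])
        exact ((hy1.mul h9).mono (by norm_num))
      exact (hy1.mul h8).mono (by norm_num)
  · rw [pow_succ, ← mul_assoc]
    omega
  · rw [pow_succ, ← mul_assoc]
    omega
  · rw [card_biUnion]
    · rw [sum_congr rfl hF1, sum_const, smul_eq_mul, pow_succ, ← mul_assoc]
      omega
    · intro v hv v' hv' hne
      change Disjoint (F v) (F v')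
      rw [disjoint_left]
      intro w hw hw'
      exact hne ((hF2 v hv w hw).1.unique (hF2 v' hv' w hw').1)
  · intro w hw
    obtain ⟨v, hv, hw⟩ := mem_biUnion.1 hw
    exact (hF2 v hv w hw).2
  · have h := HasPlX.up hC hC' S hNF hPr hPR hg' hPl
    refine h.mono ?_ le_rfl (le_of_eq (by ring))
    have h1 : μ * 2 ^ j ≤ μ * 2 ^ (j + 1) :=
      Nat.mul_le_mul_left _ (Nat.pow_le_pow_right (by norm_num) (by omega))
    exact max_le (Nat.mul_le_mul (by omega) (by omega)) (Nat.mul_le_mul (by omega) (by omega))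

end step

end Pool.Agent.FF
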