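import Pool.Agent.FF.EightG
import Pool.Agent.FF.EightC
import Pool.Agent.FF.TmRes

/-! Reduced pole orders in a finite extension of degree at most `N` of a field of the tower. -/

set_option autoImplicit false
set_option linter.unusedSectionVars false
set_option linter.style.haveILetI false

namespace Pool.Agent.FF

open IntermediateField

theorem vs_ord {F : Type*} [Field F] {w : DV F} {a b : F} (ha : a ≠ 0) (hb : b ≠ 0)
    (h : w.vs.valuation a = w.vs.valuation b) : w.ord a = w.ord b := by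
  have key : ∀ a b : F, a ≠ 0 → b ≠ 0 → w.vs.valuation a = w.vs.valuation b → w.ord b ≤ w.ord a := by
    intro a b ha hb h
    have hb' : w.vs.valuation b ≠ 0 := by
      rw [Ne, map_eq_zero]; exact hb
    have h1 : a / b ∈ w.vs := by
      rw [← w.vs.valuation_le_one_iff, map_div₀, h, div_self hb']
    have h2 := (DV.mem_vs.1 h1).le (div_ne_zero ha hb)
    rw [w.ord_div ha hb] at h2
    omega
  exact le_antisymm (key b a hb ha h.symm) (key a b ha hb h)

/-- The ramification index is at most the degree. -/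
theorem exists_below_le {F M : Type*} [Field F] [Field M] [Algebra F M] [FiniteDimensional F M]
    {N : ℕ} (hN : Module.finrank F M ≤ N) (w : DV M) : ∃ (v : DV F) (e : ℤ), 0 < e ∧ e ≤ N ∧
      ∀ a : F, a ≠ 0 → w.ord (algebraMap F M a) = e * v.ord a := by
  obtain ⟨v, e, he, h⟩ := exists_below (K := F) w
  obtain ⟨π, hπ, hπ1⟩ := w.exists_ord 1
  obtain ⟨m, hm0, hm, a, ha, hval⟩ := exists_pow_val (K := F) w.vs hπ
  have h1 := vs_ord (pow_ne_zero m hπ) (map_ne_zero' ha) hval
  rw [w.ord_pow hπ, hπ1, h a ha, mul_one] at h1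
  refine ⟨v, e, by exact_mod_cast he, ?_, h⟩
  have h2 : (e : ℤ) ∣ (m : ℤ) := ⟨v.ord a, h1⟩
  have h3 := Int.le_of_dvd (by exact_mod_cast hm0) h2
  have h4 : (m : ℤ) ≤ N := by exact_mod_cast hm.trans hN
  exact h3.trans h4

theorem W1.up {F M : Type*} [Field F] [Field M] [Algebra F M] {b : F} {v : DV F} {w : DV M} {e : ℤ}
    {N : ℕ} (he0 : 0 < e) (he : e ≤ N)
    (h : ∀ a : F, a ≠ 0 → w.ord (algebraMap F M a) = e * v.ord a) (hb : W1 v b) :
    WN N w (algebraMap F M b) := by
  obtain ⟨c, hc⟩ := hb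
  refine ⟨algebraMap F M c, ?_⟩
  have e1 : algebraMap F M b + ((algebraMap F M c) ^ 2 + algebraMap F M c) =
      algebraMap F M (b + (c ^ 2 + c)) := by simp only [map_add, map_pow]
  rw [e1]
  by_cases h0 : b + (c ^ 2 + c) = 0
  · rw [h0, map_zero]
    exact DV.G_zero _
  · have h1 := hc.le h0
    refine DV.G_of_le ?_
    rw [h _ h0]
    nlinarith

section pyramid

variable {k : Type} [Field k] [Finite k] [CharP k 2] {Ω : Type} [Field Ω] [Algebra k Ω] [CharP Ω 2]
  {x : ℕ → Ω}

theorem WN_of_pyramid (hx : Sq8 k x) {K : Type} [Field K] (ψ : K →+* Ω) {n N : ℕ} {u : Ω}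
    (hF : ∀ z ∈ Fx k x 0 n, ∃ a, ψ a = z) (hu : ∃ a, ψ a = u)
    (hspan : ∀ a : K, ∃ c : Fin N → Ω, (∀ i, c i ∈ Fx k x 0 n) ∧ ψ a = ∑ i, c i * u ^ (i : ℕ))
    {b : K} (hb : ψ b = x n + 1 + (x n)⁻¹) (v : DV K) : WN N v b := by
  classical
  set F := Fx k x 0 n with hFdef
  choose g hg using fun z : F => hF z z.2
  let φ : F →+* K :=
    { toFun := g
      map_zero' := ψ.injective (by rw [hg, map_zero]; rfl)
      map_one' := ψ.injective (by rw [hg, map_one]; rfl)
      map_add' := fun a b => ψ.injective (by rw [hg, map_add, hg, hg]; rfl)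
      map_mul' := fun a b => ψ.injective (by rw [hg, map_mul, hg, hg]; rfl) }
  letI : Algebra F K := φ.toAlgebra
  have hφ : ∀ z : F, ψ (algebraMap F K z) = z := hg
  obtain ⟨u', hu'⟩ := hu
  have hs : Submodule.span F (Set.range fun i : Fin N => u' ^ (i : ℕ)) = ⊤ := by
    rw [eq_top_iff]
    rintro a -
    obtain ⟨c, hc, ha⟩ := hspan a
    have h1 : a = ∑ i : Fin N, (⟨c i, hc i⟩ : F) • u' ^ (i : ℕ) := by
      apply ψ.injective
      rw [ha, map_sum]
      refine Finset.sum_congr rfl fun i _ => ?_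
      rw [Algebra.smul_def, map_mul, map_pow, hφ, hu']
    rw [h1]
    exact Submodule.sum_mem _ fun i _ => Submodule.smul_mem _ _ (Submodule.subset_span ⟨i, rfl⟩)
  haveI : FiniteDimensional F K := ⟨⟨Finset.univ.image fun i : Fin N => u' ^ (i : ℕ), by
    rw [Finset.coe_image, Finset.coe_univ, Set.image_univ, hs]⟩⟩
  have hfin : Module.finrank F K ≤ N := by
    have h1 := finrank_range_le_card (R := F) (fun i : Fin N => u' ^ (i : ℕ))
    rw [Set.finrank, hs, finrank_top, Fintype.card_fin] at h1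
    exact h1
  obtain ⟨v', e, he0, he, h⟩ := exists_below_le hfin v
  have h1 := (hx.pyramid n 0).2.1
  have h2 : x (0 + n) + 1 + (x (0 + n))⁻¹ ∈ Fx k x 0 n := g_mem (by omega) (by omega)
  have h3 := (h1 h2 v').up he0 he h
  have h4 : algebraMap F K ⟨_, h2⟩ = b := by
    apply ψ.injective
    rw [hφ, hb]
    change x (0 + n) + 1 + (x (0 + n))⁻¹ = _
    rw [Nat.zero_add]
  rwa [h4] at h3

end pyramid

end Pool.Agent.FF
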