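import Pool.Agent.FF.EightG
import Pool.Agent.FF.TmOb

/-! The base of the family of degree seven over the field with `8` elements: the double cover
`x ^ 2 + x = t` of the Klein quartic `θ ^ 7 = t ^ 4 (t + 1)`. -/

set_option autoImplicit false
set_option linter.unusedSectionVars false
set_option linter.style.haveILetI false

namespace Pool.Agent.FF

open Finset

/-- The facts on the Klein quartic used below. -/
structure KB (k : Type) [Field k] (L : Type) [Field L] [Algebra k L] (t : L) : Prop where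
  ff : IsFF k L
  cv : Cv k L 3
  pl : HasPlX k L 20 63 7
  places : ∃ P0 P1 Pi : DV L, P0.Rat k ∧ P1.Rat k ∧ Pi.Rat k ∧ P0.ord t = 7 ∧ P1.ord (t + 1) = 7 ∧
    Pi.ord t = -7 ∧ ∀ v, v ≠ P0 → v ≠ P1 → v ≠ Pi → v.ord t = 0 ∧ v.ord (t + 1) = 0
  split : ∃ T : Finset (DV L), T.card = 21 ∧
    ∀ v ∈ T, v.Rat k ∧ ∃ ζ : k, ζ ^ 3 + ζ + 1 = 0 ∧ v.G 1 (t + algebraMap k L ζ)

section base

variable {k : Type} [Field k] [Finite k] [CharP k 2]

theorem eta_of_cubic {ζ : k} (h : ζ ^ 3 + ζ + 1 = 0) :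
    ∃ η : k, η ≠ 0 ∧ η ≠ 1 ∧ η + 1 ≠ 0 ∧ η + 1 ≠ 1 ∧ η ^ 2 + η = ζ := by
  have two : (2 : k) = 0 := CharTwo.two_eq_zero
  have h0 : ζ ≠ 0 := by
    rintro rfl
    simp at h
  have hη : (ζ ^ 2) ^ 2 + ζ ^ 2 = ζ := by linear_combination ζ * h - ζ * two
  have h1 : ζ ^ 2 ≠ 0 := pow_ne_zero 2 h0
  have h2 : ζ ^ 2 ≠ 1 := by
    intro h2
    apply h0
    rw [← hη, h2]
    linear_combination two
  refine ⟨ζ ^ 2, h1, h2, ?_, ?_, hη⟩
  · intro h3
    apply h2
    linear_combination h3 - two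
  · intro h3
    apply h1
    linear_combination h3

theorem KB.irr {L : Type} [Field L] [Algebra k L] [CharP L 2] {t : L} (h : KB k L t) (c : L) :
    c ^ 2 + c ≠ t := by
  obtain ⟨P0, P1, Pi, -, -, -, -, -, hPi, -⟩ := h.places
  intro hc
  rw [← hc] at hPi
  exact DV.not_odd_pole (v := Pi) (c := c) (e := 4) (by norm_num) (by rw [hPi]; norm_num)

theorem KB.base {L L' : Type} [Field L] [Algebra k L] [CharP L 2] [Field L']
    [Algebra k L'] [CharP L' 2] [Algebra L L'] [IsScalarTower k L L'] {t : L} (h : KB k L t)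
    (S : AS L L' t) : StG k 4 7 28 17 42 172 14 L' S.y 0 := by
  classical
  obtain ⟨hFF, hC, hPl, ⟨P0, P1, Pi, h0r, h1r, hir, h0, h1, hi, hP⟩, T, hT, hT'⟩ := h
  have two : (2 : L) = 0 := CharTwo.two_eq_zero
  have two' := AS.two' L L'
  have hq : 2 ≤ Nat.card k := Finite.one_lt_card
  have hres : ∀ v : DV L, Nat.card v.Res = Nat.card k ^ v.deg (Nat.card k) := fun v => (hC.res v).2
  have hfin : ∀ v : DV L, Finite v.Res := by
    intro v
    apply Nat.finite_of_card_ne_zero
    rw [hres v]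
    exact pow_ne_zero _ Nat.card_pos.ne'
  have ht0 : t ≠ 0 := by
    rintro rfl
    rw [P0.ord_zero] at h0
    omega
  have ht1 : t + 1 ≠ 0 := by
    intro h2
    rw [h2, P1.ord_zero] at h1
    omega
  have hi' : Pi.ord t = -((7 : ℕ) : ℤ) := by rw [hi]; norm_num
  -- `t` has a pole only at `Pi`
  have hord : ∀ v, v ≠ Pi → v.G 0 t := by
    intro v hv
    by_cases hv0 : v = P0
    · exact DV.G_of_le (by rw [hv0, h0]; norm_num)
    · by_cases hv1 : v = P1
      · have h2 : v.G 0 (t + 1 + 1) := (DV.G_of_le (by rw [hv1, h1]; norm_num) : v.G 0 (t + 1)).add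
          DV.G_one
        have e : t + 1 + 1 = t := by linear_combination two
        rwa [e] at h2
      · exact DV.G_of_le (hP v hv0 hv1 hv).1.ge
  set D : DV L → ℕ := fun v => if v = Pi then 4 else 0 with hD
  have hDi : D Pi = 4 := if_pos rfl
  have hDn : ∀ v, v ≠ Pi → D v = 0 := fun v hv => if_neg hv
  have hNF : NF t D (fun _ => (0 : L)) :=
    { cA := (hC.poles (0 : L)).subset fun v hv h2 => hv (DV.G_zero _)
      fin := (Set.finite_singleton Pi).subset fun v hv => by
        by_contra h2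
        exact hv (hDn v h2)
      int := fun v hv => by
        have h2 : v ≠ Pi := by
          rintro rfl
          rw [hDi] at hv
          omega
        simpa using hord v h2
      odd := fun v hv => by
        have h2 : v = Pi := by
          by_contra h2
          exact hv (hDn v h2)
        rw [h2, hDi]
        have e : t + ((0 : L) ^ 2 + 0) = t := by ring
        rw [e, hi]
        norm_num }
  have hDR : D Pi ≠ 0 := by rw [hDi]; norm_num
  obtain ⟨g', hg', hC'⟩ := hC.double S hNF ⟨Pi, hDR⟩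
  have hsum : ∑ᶠ v, D v * v.deg (Nat.card k) = 4 := by
    rw [finsum_eq_sum_of_support_subset (s := {Pi})]
    · rw [sum_singleton, hDi, hir.deg_eq_one]
    · intro v hv
      rw [Function.mem_support] at hv
      rw [coe_singleton, Set.mem_singleton_iff]
      by_contra h2
      exact hv (by rw [hDn v h2, zero_mul])
  have hgv : g' = 9 := by rw [hsum] at hg'; omega
  have hO' := Ob.up S hNF hC.poles hfin hDR hir (Ob.of_genus hC)
  have hcard : Nat.card {v : DV L | D v ≠ 0} = 1 := by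
    have : {v : DV L | D v ≠ 0} = {Pi} := by
      ext v
      rw [Set.mem_singleton_iff]
      change D v ≠ 0 ↔ v = Pi
      constructor
      · intro h2
        by_contra h3
        exact h2 (hDn v h3)
      · rintro rfl
        exact hDR
    rw [this]
    simp
  rw [hcard] at hO'
  have hm7 : Odd 7 := by decide
  -- the place over `Pi`
  obtain ⟨Wi, hWi, hWid⟩ := S.fib_ram (Nat.card k) (m := 7) hm7 (v := Pi) hi'
  have hWio : Over Wi Pi := (hWi Wi).1 rfl
  have hWir : Wi.Rat k := S.rat_ram hir (m := 7) hm7 hi' hWio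
  have hWiy : Wi.ord S.y = -((7 : ℕ) : ℤ) := (S.over_of_odd' hWio (m := 7) hm7 hi').2.1
  -- the places over `P0`
  have hs0 : P0.G 1 (t + ((0 : L) ^ 2 + 0)) := by
    have e : t + ((0 : L) ^ 2 + 0) = t := by ring
    rw [e]
    exact DV.G_of_le (by rw [h0]; norm_num)
  obtain ⟨w₁, w₂, hne, ho1, ho2, hall, hr1, hr2, hm1, hm2, hy1, hy2⟩ := S.split_places_rat h0r hs0
  rw [map_zero, add_zero] at hy1 hy2
  -- the places over `P1`
  obtain ⟨B₁, hB₁, hB₁d⟩ := exists_fibers (K' := L') (Nat.card k) 2 {P1} fun v hv =>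
    S.fib_unram hq (hres v) (b := 0) (by
      have e : t + ((0 : L) ^ 2 + 0) = t := by ring
      rw [e]
      apply hord
      rw [mem_singleton.1 hv]
      rintro rfl
      have h2 := (DV.ord_add_of_lt (v := P1) ht0 (b := 1) (DV.G_of_le (by
        rw [P1.ord_one, hi]; norm_num))).2
      rw [h1, hi] at h2
      omega)
  rw [sum_singleton, h1r.deg_eq_one] at hB₁d
  -- the order of `y` at `w₁`
  have hyw : w₁.ord S.y = 7 := by
    have h2 : w₁.ord (S.y + 1) = 0 := by
      have h3 := DV.ord_add_of_lt (v := w₁) (a := 1) (b := S.y) one_ne_zero (by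
        rw [w₁.ord_one]; exact hy1)
      rw [add_comm, h3.2, w₁.ord_one]
    have e : S.y * (S.y + 1) = algebraMap L L' t := by
      rw [← S.eq]; ring
    have hy0 : S.y ≠ 0 := by
      rintro h3
      rw [h3, zero_mul] at e
      exact map_ne_zero' ht0 e.symm
    have hy10 : S.y + 1 ≠ 0 := by
      rintro h3
      rw [h3, mul_zero] at e
      exact map_ne_zero' ht0 e.symm
    have h4 := congrArg w₁.ord e
    rw [w₁.ord_mul _ _ hy0 hy10, h2, hm1, h0] at h4
    omega
  -- the split places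
  have key : ∀ v ∈ T, ∃ F : Finset (DV L'), F.card = 2 ∧ ∀ w ∈ F, Over w v ∧ w.Rat k ∧
      ∃ ζ : k, ζ ≠ 0 ∧ ζ ≠ 1 ∧ w.G 1 (S.y + algebraMap k L' ζ) := by
    intro v hv
    obtain ⟨hvr, ζ, hz, hζ⟩ := hT' v hv
    obtain ⟨η, he0, he1, he2, he3, he⟩ := eta_of_cubic hz
    have hs : v.G 1 (t + ((algebraMap k L η) ^ 2 + algebraMap k L η)) := by
      rw [← map_pow, ← map_add, he]
      exact hζ
    obtain ⟨u₁, u₂, hne, ho1, ho2, -, hr1, hr2, -, -, hy1, hy2⟩ := S.split_places_rat hvr hs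
    rw [← IsScalarTower.algebraMap_apply] at hy1 hy2
    refine ⟨{u₁, u₂}, card_pair hne, fun w hw => ?_⟩
    rw [mem_insert, mem_singleton] at hw
    rcases hw with rfl | rfl
    · exact ⟨ho1, hr1, η, he0, he1, hy1⟩
    · refine ⟨ho2, hr2, η + 1, he2, he3, ?_⟩
      rw [map_add, map_one, ← add_assoc]
      exact hy2
  choose! F hF1 hF2 using key
  refine ⟨g', _, _, {Wi, w₁}, insert w₂ B₁, T.biUnion F, hFF.up hC' S, hC', hO', ?_, card_le_two,
    ?_, ?_, ?_, ?_, ⟨Wi, hWir, hWiy⟩, ?_, ?_, ?_, HasPlX.up hC hC' S hNF hir hDR hg' hPl |>.mono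
      ?_ le_rfl (by norm_num)⟩
  · -- units
    intro w hwA hwB
    simp only [mem_insert, mem_singleton, not_or] at hwA hwB
    obtain ⟨v, hv⟩ := S.exists_over w
    have hvi : v ≠ Pi := fun h2 => hwA.1 ((hWi w).2 (h2 ▸ hv))
    have hv0 : v ≠ P0 := by
      rintro rfl
      rcases hall w hv with h2 | h2
      · exact hwA.2 h2
      · exact hwB.1 h2
    have hv1 : v ≠ P1 := fun h2 => hwB.2 ((hB₁ w).2 ⟨P1, mem_singleton_self _, h2 ▸ hv⟩)
    obtain ⟨h2, h3⟩ := hP v hv0 hv1 hvi
    obtain ⟨e, he, hor⟩ := hv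
    have h4 : S.y ^ 2 + S.y ≠ 0 := by rw [S.eq]; exact map_ne_zero' ht0
    have h5 : w.ord (S.y ^ 2 + S.y) = 0 := by rw [S.eq, hor _ ht0, h2, mul_zero]
    have e1 : (S.y + 1) ^ 2 + (S.y + 1) = S.y ^ 2 + S.y := by linear_combination (S.y + 1) * two'
    have e2 : S.y ^ 2 + S.y + 1 = algebraMap L L' (t + 1) := by rw [S.eq, map_add, map_one]
    refine ⟨ord_of_AS h4 h5, ord_of_AS (by rw [e1]; exact h4) (by rw [e1]; exact h5), ?_, ?_, ?_, ?_⟩
    · rw [e2, hor _ ht1, h3, mul_zero]
    · rintro h6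
      apply h4
      rw [h6]; ring
    · intro h6
      apply h4
      have : S.y ^ 2 + S.y = S.y * (S.y + 1) := by ring
      rw [this, h6, mul_zero]
    · rw [e2]
      exact map_ne_zero' ht1
  · intro w hw
    simp only [mem_insert, mem_singleton] at hw
    rcases hw with rfl | rfl
    · exact f_ord_negN (by norm_num) hWiy
    · have hy0 : S.y ≠ 0 := by
        intro h2
        rw [h2, DV.ord_zero] at hyw
        omega
      have h2 : w.ord (S.y)⁻¹ = -((7 : ℕ) : ℤ) := by rw [w.ord_inv hy0, hyw]; norm_num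
      have h3 := f_ord_negN (by norm_num) h2
      rw [inv_inv] at h3
      have e : (S.y)⁻¹ + 1 + S.y = S.y + 1 + (S.y)⁻¹ := by ring
      rwa [e] at h3
  · intro w hw
    rw [mem_insert] at hw
    rcases hw with rfl | hw
    · right; exact hy2
    · left
      obtain ⟨v, hv, ho⟩ := (hB₁ w).1 hw
      rw [mem_singleton] at hv
      subst hv
      refine ⟨S.y, ?_⟩
      have e2 : S.y ^ 2 + S.y + 1 = algebraMap L L' (t + 1) := by rw [S.eq, map_add, map_one]
      rw [e2]
      exact (ho.G_one_iff _).2 (DV.G_of_le (by rw [h1]; norm_num))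
  · have h2 : ∑ v ∈ ({Wi, w₁} : Finset (DV L')), v.deg (Nat.card k) ≤ 2 := by
      have h3 : ∑ v ∈ ({Wi, w₁} : Finset (DV L')), v.deg (Nat.card k) ≤
          ∑ v ∈ ({Wi, w₁} : Finset (DV L')), 1 := by
        refine sum_le_sum fun v hv => ?_
        simp only [mem_insert, mem_singleton] at hv
        rcases hv with rfl | rfl
        · exact hWir.deg_eq_one.le
        · exact hr1.deg_eq_one.le
      rw [← card_eq_sum_ones] at h3
      exact h3.trans card_le_two
    have h3 : ∑ v ∈ insert w₂ B₁, v.deg (Nat.card k) ≤ 3 := by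
      by_cases h4 : w₂ ∈ B₁
      · rw [insert_eq_of_mem h4]; omega
      · rw [sum_insert h4, hr2.deg_eq_one]; omega
    rw [hgv]
    omega
  · have h3 : ∑ v ∈ insert w₂ B₁, v.deg (Nat.card k) ≤ 3 := by
      by_cases h4 : w₂ ∈ B₁
      · rw [insert_eq_of_mem h4]; omega
      · rw [sum_insert h4, hr2.deg_eq_one]; omega
    omega
  · rw [card_biUnion]
    · rw [sum_congr rfl hF1, sum_const, smul_eq_mul, hT]
      norm_num
    · intro v hv v' hv' hne
      change Disjoint (F v) (F v')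
      rw [disjoint_left]
      intro w hw hw'
      exact hne ((hF2 v hv w hw).1.unique (hF2 v' hv' w hw').1)
  · intro w hw
    obtain ⟨v, hv, hw⟩ := mem_biUnion.1 hw
    exact (hF2 v hv w hw).2
  · rw [hgv]
    norm_num
  · rw [hgv]
    norm_num

end base

end Pool.Agent.FF
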