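import Pool.Agent.FF.TmRes
import Pool.Agent.FF.RRD

/-! # The fixed field of an automorphism of odd order: places, genus

`L / K` is cyclic of odd degree `n`, generated by an `n`-th root `θ` of an element of `K`. -/

set_option autoImplicit false
set_option linter.unusedSectionVars false

namespace Pool.Agent.FF

open Finset

/-- A cyclic extension `L / K` of odd degree `n`, generated by an `n`-th root `θ`. -/
structure Tm (k K L : Type*) [Field k] [Field K] [Field L] [Algebra k K] [Algebra k L]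
    [Algebra K L] (n : ℕ) where
  σ : L ≃+* L
  σK : ∀ a : K, σ (algebraMap K L a) = algebraMap K L a
  fix : ∀ x : L, σ x = x → ∃ a : K, algebraMap K L a = x
  per : ∀ x : L, σ^[n] x = x
  odd : Odd n
  θ : L
  θ_ne : θ ≠ 0
  ζ : k
  prim : IsPrimitiveRoot ζ n
  σθ : σ θ = algebraMap k L ζ * θ

namespace Tm

variable {k K L : Type*} [Field k] [Field K] [Field L] [Algebra k K] [Algebra k L]
  [Algebra K L] [IsScalarTower k K L] [CharP L 2] {n : ℕ} (S : Tm k K L n)

include S in
theorem n_pos : 0 < n := S.odd.pos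

/-- the root of unity in `L` -/
def z : L := algebraMap k L S.ζ

theorem z_ne : S.z ≠ 0 := by
  rw [z, Ne, map_eq_zero]
  exact S.prim.ne_zero S.n_pos.ne'

theorem z_pow : S.z ^ n = 1 := by
  rw [z, ← map_pow, S.prim.pow_eq_one, map_one]

theorem σk (c : k) : S.σ (algebraMap k L c) = algebraMap k L c := by
  rw [IsScalarTower.algebraMap_apply k K L, S.σK]

theorem σz : S.σ S.z = S.z := S.σk _

/-- iterates -/
theorem it_θ (j : ℕ) : S.σ^[j] S.θ = S.z ^ j * S.θ := by
  induction j with
  | zero => simp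
  | succ j ih =>
    rw [Function.iterate_succ_apply', ih, map_mul, map_pow, S.σz, S.σθ, pow_succ]
    rw [show algebraMap k L S.ζ = S.z from rfl]
    ring

theorem it_add (j : ℕ) (x y : L) : S.σ^[j] (x + y) = S.σ^[j] x + S.σ^[j] y := by
  exact iterate_map_add S.σ j x y

theorem it_mul (j : ℕ) (x y : L) : S.σ^[j] (x * y) = S.σ^[j] x * S.σ^[j] y := by
  exact iterate_map_mul S.σ j x y

theorem it_K (j : ℕ) (a : K) : S.σ^[j] (algebraMap K L a) = algebraMap K L a := by
  induction j with
  | zero => rfl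
  | succ j ih => rw [Function.iterate_succ_apply', ih, S.σK]

/-- the `i`-th component -/
def E (i : ℕ) (x : L) : L := ∑ j ∈ range n, S.z⁻¹ ^ (i * j) * S.σ^[j] x

theorem E_add (i : ℕ) (x y : L) : S.E i (x + y) = S.E i x + S.E i y := by
  unfold E
  rw [← sum_add_distrib]
  refine sum_congr rfl fun j _ => ?_
  rw [S.it_add, mul_add]

theorem E_zero (i : ℕ) : S.E i 0 = 0 := by
  have := S.E_add i 0 0
  rw [add_zero] at this
  exact left_eq_add.1 this

theorem E_sum {ι : Type*} (i : ℕ) (s : Finset ι) (f : ι → L) :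
    S.E i (∑ a ∈ s, f a) = ∑ a ∈ s, S.E i (f a) := by
  classical
  induction s using Finset.induction_on with
  | empty => simp [E_zero]
  | insert a s ha ih => rw [sum_insert ha, sum_insert ha, E_add, ih]

theorem E_K (i : ℕ) (a : K) (x : L) :
    S.E i (algebraMap K L a * x) = algebraMap K L a * S.E i x := by
  unfold E
  rw [mul_sum]
  refine sum_congr rfl fun j _ => ?_
  rw [S.it_mul, S.it_K]
  ring

theorem σE (i : ℕ) (x : L) : S.σ (S.E i x) = S.z ^ i * S.E i x := by
  unfold E
  rw [map_sum, mul_sum]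
  set f : ℕ → L := fun j => S.z ^ i * (S.z⁻¹ ^ (i * j) * S.σ^[j] x) with hf
  have h1 : ∀ j ∈ range n, S.σ (S.z⁻¹ ^ (i * j) * S.σ^[j] x) = f (j + 1) := by
    intro j _
    rw [hf]
    simp only
    rw [map_mul, map_pow, map_inv₀, S.σz, Function.iterate_succ_apply', mul_add, mul_one,
      pow_add, mul_comm (S.z⁻¹ ^ (i * j)) (S.z⁻¹ ^ i), ← mul_assoc, ← mul_assoc, ← mul_pow,
      mul_inv_cancel₀ S.z_ne, one_pow, one_mul]
  rw [sum_congr rfl h1]
  have h2 := sum_range_succ' f n
  have h3 := sum_range_succ f n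
  have h4 : f n = f 0 := by
    rw [hf]
    simp only
    rw [S.per, mul_zero, pow_zero, Function.iterate_zero, id, inv_pow, mul_comm i n, pow_mul,
      S.z_pow, one_pow, inv_one]
  rw [h2, h4] at h3
  exact add_right_cancel h3

include S in
/-- `n = 1` in characteristic two -/
theorem n_one : (n : L) = 1 := by
  obtain ⟨m, hm⟩ := S.odd
  rw [hm]
  push_cast
  have : (2 : L) = 0 := CharTwo.two_eq_zero
  rw [this]
  ring

theorem pow_ne_one {j : ℕ} (hj : 0 < j) (hjn : j < n) : S.z ^ j ≠ 1 := by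
  intro h
  have h1 : algebraMap k L (S.ζ ^ j) = algebraMap k L 1 := by
    rw [map_pow, map_one]
    exact h
  exact S.prim.pow_ne_one_of_pos_of_lt hj.ne' hjn ((algebraMap k L).injective h1)

include S in
/-- orthogonality -/
theorem geom_zero {x : L} (hx : x ^ n = 1) (h1 : x ≠ 1) : ∑ i ∈ range n, x ^ i = 0 := by
  have := mul_neg_geom_sum x n
  rw [hx, sub_self] at this
  rcases mul_eq_zero.1 this with h | h
  · exact absurd (sub_eq_zero.1 h).symm h1
  · exact h

theorem sum_E (x : L) : ∑ i ∈ range n, S.E i x = x := by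
  unfold E
  rw [sum_comm]
  have h0 : 0 ∈ range n := mem_range.2 S.n_pos
  rw [← add_sum_erase _ _ h0]
  have h1 : ∑ i ∈ range n, S.z⁻¹ ^ (i * 0) * S.σ^[0] x = x := by
    simp only [mul_zero, pow_zero, one_mul, Function.iterate_zero, id, sum_const, card_range,
      nsmul_eq_mul]
    rw [S.n_one, one_mul]
  have h2 : ∑ j ∈ (range n).erase 0, ∑ i ∈ range n, S.z⁻¹ ^ (i * j) * S.σ^[j] x = 0 := by
    refine sum_eq_zero fun j hj => ?_
    rw [mem_erase, mem_range] at hj
    rw [← sum_mul]
    have : ∑ i ∈ range n, S.z⁻¹ ^ (i * j) = 0 := by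
      have h3 : ∀ i ∈ range n, S.z⁻¹ ^ (i * j) = (S.z⁻¹ ^ j) ^ i := by
        intro i _
        rw [← pow_mul, mul_comm]
      rw [sum_congr rfl h3]
      refine S.geom_zero ?_ ?_
      · rw [← pow_mul, mul_comm, pow_mul, inv_pow, S.z_pow, inv_one, one_pow]
      · rw [inv_pow, Ne, inv_eq_one]
        exact S.pow_ne_one (by omega) hj.2
    rw [this, zero_mul]
  rw [h1, h2, add_zero]

/-- components of the powers of `θ` -/
theorem E_θ {i l : ℕ} (hi : i < n) (hl : l < n) : S.E i (S.θ ^ l) = if i = l then S.θ ^ l else 0 := by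
  unfold E
  have h1 : ∀ j ∈ range n, S.z⁻¹ ^ (i * j) * S.σ^[j] (S.θ ^ l) =
      (S.z⁻¹ ^ i * S.z ^ l) ^ j * S.θ ^ l := by
    intro j _
    have : S.σ^[j] (S.θ ^ l) = (S.σ^[j] S.θ) ^ l := iterate_map_pow S.σ j S.θ l
    rw [this, S.it_θ, mul_pow, mul_pow, ← pow_mul, ← pow_mul, ← pow_mul, mul_comm j l]
    ring
  rw [sum_congr rfl h1, ← sum_mul]
  split_ifs with h
  · subst h
    rw [← mul_pow, inv_mul_cancel₀ S.z_ne, one_pow]
    simp only [one_pow, sum_const, card_range, nsmul_eq_mul, mul_one]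
    rw [S.n_one, one_mul]
  · rw [S.geom_zero, zero_mul]
    · rw [mul_pow, ← pow_mul, ← pow_mul, mul_comm i n, mul_comm l n, pow_mul, pow_mul, inv_pow,
        S.z_pow, inv_one, one_pow, one_pow, one_mul]
    · intro h2
      have h3 : S.z ^ l = S.z ^ i := by
        have := congrArg (fun t => S.z ^ i * t) h2
        simp only [mul_one] at this
        rwa [← mul_assoc, ← mul_pow, mul_inv_cancel₀ S.z_ne, one_pow, one_mul] at this
      rcases lt_or_gt_of_ne h with h4 | h4
      · refine S.pow_ne_one (j := l - i) (by omega) (by omega) ?_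
        have h5 : S.z ^ l = S.z ^ (l - i) * S.z ^ i := by
          rw [← pow_add]; congr 1; omega
        rw [h5] at h3
        exact mul_right_cancel₀ (pow_ne_zero i S.z_ne) (by rw [h3, one_mul])
      · refine S.pow_ne_one (j := i - l) (by omega) (by omega) ?_
        have h5 : S.z ^ i = S.z ^ (i - l) * S.z ^ l := by
          rw [← pow_add]; congr 1; omega
        rw [h5] at h3
        exact (mul_right_cancel₀ (pow_ne_zero l S.z_ne) (by rw [← h3, one_mul]))

/-- coordinates: every element is a combination of powers of `θ` -/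
theorem exists_coord (x : L) (i : ℕ) : ∃ a : K, algebraMap K L a * S.θ ^ i = S.E i x := by
  obtain ⟨a, ha⟩ := S.fix (S.E i x * (S.θ ^ i)⁻¹) (by
    rw [map_mul, map_inv₀, map_pow, S.σE, S.σθ, mul_pow]
    rw [show algebraMap k L S.ζ = S.z from rfl, mul_inv]
    have := pow_ne_zero i S.z_ne
    field_simp)
  refine ⟨a, ?_⟩
  rw [ha, inv_mul_cancel_right₀ (pow_ne_zero i S.θ_ne)]

theorem exists_coords (x : L) : ∃ a : ℕ → K, x = ∑ i ∈ range n, algebraMap K L (a i) * S.θ ^ i := by
  choose a ha using S.exists_coord x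
  refine ⟨a, ?_⟩
  rw [sum_congr rfl fun i _ => ha i, S.sum_E]

theorem E_coords {a : ℕ → K} {i : ℕ} (hi : i < n) :
    S.E i (∑ l ∈ range n, algebraMap K L (a l) * S.θ ^ l) = algebraMap K L (a i) * S.θ ^ i := by
  rw [S.E_sum]
  have h1 : ∀ l ∈ range n, S.E i (algebraMap K L (a l) * S.θ ^ l) =
      if i = l then algebraMap K L (a i) * S.θ ^ i else 0 := by
    intro l hl
    rw [S.E_K, S.E_θ hi (mem_range.1 hl)]
    split_ifs with h
    · rw [h]
    · rw [mul_zero]
  rw [sum_congr rfl h1, sum_ite_eq, if_pos (mem_range.2 hi)]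

include S in
theorem finite : Module.Finite K L := by
  classical
  refine ⟨⟨(range n).image fun i => S.θ ^ i, ?_⟩⟩
  rw [eq_top_iff]
  rintro x -
  obtain ⟨a, ha⟩ := S.exists_coords x
  rw [ha]
  refine Submodule.sum_mem _ fun i hi => ?_
  rw [← Algebra.smul_def]
  refine Submodule.smul_mem _ _ (Submodule.subset_span ?_)
  exact Finset.mem_coe.2 (mem_image_of_mem _ hi)

/-- the `n`-th power of `θ` lies in `K` -/
theorem exists_Θ : ∃ a : K, algebraMap K L a = S.θ ^ n := by
  apply S.fix
  rw [map_pow, S.σθ, mul_pow]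
  rw [show algebraMap k L S.ζ = S.z from rfl, S.z_pow, one_mul]

/-! ### Integrality -/

/-- composition of a place with an iterate -/
theorem exists_it (w : DV L) (j : ℕ) : ∃ w' : DV L, (∀ x : L, w'.ord x = w.ord (S.σ^[j] x)) ∧
    ∀ v : DV K, Over w v → Over w' v := by
  induction j with
  | zero => exact ⟨w, fun x => rfl, fun v h => h⟩
  | succ j ih =>
    obtain ⟨w', h1, h2⟩ := ih
    refine ⟨w'.comp S.σ, fun x => ?_, fun v hv => (h2 v hv).comp S.σ S.σK⟩
    rw [DV.comp_ord, h1, Function.iterate_succ_apply]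

theorem G_it {v : DV K} {m : ℤ} {x : L} (hx : ∀ w : DV L, Over w v → w.G m x) (j : ℕ) (w : DV L)
    (hw : Over w v) : w.G m (S.σ^[j] x) := by
  obtain ⟨w', h1, h2⟩ := S.exists_it w j
  rcases hx w' (h2 v hw) with h | h
  · left
    rw [h]
    exact iterate_map_zero S.σ j
  · right
    rwa [h1] at h

theorem G_z [Finite k] (w : DV L) (i : ℕ) : w.G 0 (S.z⁻¹ ^ i) := by
  rw [z, ← map_inv₀, ← map_pow]
  exact RRD.G_algebraMap w _

theorem G_E [Finite k] {v : DV K} {m : ℤ} {x : L} (hx : ∀ w : DV L, Over w v → w.G m x) (i : ℕ) (w : DV L)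
    (hw : Over w v) : w.G m (S.E i x) := by
  unfold E
  have : ∀ s : Finset ℕ, w.G m (∑ j ∈ s, S.z⁻¹ ^ (i * j) * S.σ^[j] x) := by
    classical
    intro s
    induction s using Finset.induction_on with
    | empty => simpa using DV.G_zero (v := w) m
    | insert a s ha ih =>
      rw [sum_insert ha]
      refine DV.G.add ?_ ih
      have := (S.G_z w (i * a)).mul (S.G_it hx a w hw)
      rwa [zero_add] at this
  exact this _

end Tm

end Pool.Agent.FF
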