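import Pool.Agent.FF.EightH
import Pool.Agent.FF.EightI
import Pool.Agent.FF.TmCv

/-! The family of degree seven over the field with `8` elements. -/

set_option autoImplicit false
set_option linter.unusedSectionVars false
set_option linter.style.haveILetI false

namespace Pool.Agent.FF

open IntermediateField

/-- a sequence of generators with a given start -/
theorem exists_Sq8_of {k Ω : Type*} [Field k] [Field Ω] [Algebra k Ω] [IsAlgClosed Ω] {c : Ω}
    (hc : Transcendental k c) : ∃ x : ℕ → Ω, x 0 = c ∧ Sq8 k x := by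
  have h : ∀ c : Ω, ∃ z : Ω, z ^ 2 + z = c := by
    intro c
    obtain ⟨z, hz⟩ := IsAlgClosed.exists_root (Polynomial.X ^ 2 + (Polynomial.X - Polynomial.C c) :
      Polynomial Ω) (by
      rw [Polynomial.degree_add_eq_left_of_degree_lt]
      · rw [Polynomial.degree_X_pow]; decide
      · rw [Polynomial.degree_X_pow]
        exact lt_of_le_of_lt (Polynomial.degree_sub_le _ _) (max_lt (by
          rw [Polynomial.degree_X]; decide) (lt_of_le_of_lt Polynomial.degree_C_le (by decide))))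
    refine ⟨z, ?_⟩
    have h1 : z ^ 2 + (z - c) = 0 := by simpa using hz
    linear_combination h1
  choose rt hrt using h
  let x : ℕ → Ω := fun n => Nat.rec c (fun _ y => rt (y + 1 + y⁻¹)) n
  exact ⟨x, rfl, fun n => hrt _, hc⟩

theorem exists_root_AS {Ω : Type*} [Field Ω] [IsAlgClosed Ω] (c : Ω) : ∃ z : Ω, z ^ 2 + z = c := by
  obtain ⟨z, hz⟩ := IsAlgClosed.exists_root (Polynomial.X ^ 2 + (Polynomial.X - Polynomial.C c) :
    Polynomial Ω) (by
    rw [Polynomial.degree_add_eq_left_of_degree_lt]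
    · rw [Polynomial.degree_X_pow]; decide
    · rw [Polynomial.degree_X_pow]
      exact lt_of_le_of_lt (Polynomial.degree_sub_le _ _) (max_lt (by
        rw [Polynomial.degree_X]; decide) (lt_of_le_of_lt Polynomial.degree_C_le (by decide))))
  refine ⟨z, ?_⟩
  have h1 : z ^ 2 + (z - c) = 0 := by simpa using hz
  linear_combination h1

section chain

variable {k : Type} [Field k] [Finite k] [CharP k 2]

/-- coordinates of `a + b z` -/
theorem coords_lift {Ω : Type} [Field Ω] [Algebra k Ω] {F F' : IntermediateField k Ω} (h : F ≤ F')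
    {z u a b : Ω} (hz : z ∈ F') {N : ℕ}
    (ha : ∃ c : Fin N → Ω, (∀ i, c i ∈ F) ∧ a = ∑ i, c i * u ^ (i : ℕ))
    (hb : ∃ c : Fin N → Ω, (∀ i, c i ∈ F) ∧ b = ∑ i, c i * u ^ (i : ℕ)) :
    ∃ c : Fin N → Ω, (∀ i, c i ∈ F') ∧ a + b * z = ∑ i, c i * u ^ (i : ℕ) := by
  obtain ⟨c, hc, rfl⟩ := ha
  obtain ⟨d, hd, rfl⟩ := hb
  refine ⟨fun i => c i + d i * z, fun i => F'.add_mem (h (hc i)) (F'.mul_mem (h (hd i)) hz), ?_⟩
  rw [Finset.sum_mul, ← Finset.sum_add_distrib]
  exact Finset.sum_congr rfl fun i _ => by ring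

theorem chainB (hk : Nat.card k = 8) {L : Type} [Field L] [Algebra k L] [CharP L 2] {t : L}
    (hKB : KB k L t) {Ω : Type} [Field Ω] [Algebra k Ω] [CharP Ω 2] (ψ₀ : L →+* Ω) {x : ℕ → Ω}
    (hx : Sq8 k x) (ht : x 0 ^ 2 + x 0 = ψ₀ t) (hψk : ∀ c : k, ψ₀ (algebraMap k L c) = algebraMap k Ω c)
    {u : Ω} (hu : ∃ a, ψ₀ a = u)
    (hspan : ∀ a : L, ∃ c : Fin 7 → Ω, (∀ i, c i ∈ Fx k x 0 0) ∧ ψ₀ a = ∑ i, c i * u ^ (i : ℕ))
    (n : ℕ) : ∃ (K : Type) (_ : Field K) (_ : Algebra k K) (_ : CharP K 2) (y : K)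
      (ψ : K →+* Ω), ψ y = x n ∧ (∀ z ∈ Fx k x 0 n, ∃ a, ψ a = z) ∧ (∃ a, ψ a = u) ∧
      (∀ a : K, ∃ c : Fin 7 → Ω, (∀ i, c i ∈ Fx k x 0 n) ∧ ψ a = ∑ i, c i * u ^ (i : ℕ)) ∧
      StG k 4 7 28 17 42 172 14 K y n := by
  induction n with
  | zero =>
    obtain ⟨K', _, _, ⟨S⟩⟩ := exists_AS (f := t) (fun c h => hKB.irr c h)
    letI : Algebra k K' := ((algebraMap L K').comp (algebraMap k L)).toAlgebra
    haveI : IsScalarTower k L K' := IsScalarTower.of_algebraMap_eq fun _ => rfl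
    haveI : CharP K' 2 := charP_of_injective_algebraMap (algebraMap L K').injective 2
    have hlift : ∀ a b : L, S.lift ψ₀ (x 0) ht (algebraMap L K' a + algebraMap L K' b * S.y) =
        ψ₀ a + ψ₀ b * x 0 := by
      intro a b
      obtain ⟨h6, h7⟩ := S.ab_eq (x := algebraMap L K' a + algebraMap L K' b * S.y) rfl
      rw [S.lift_apply, h6, h7]
    have hlL : ∀ a : L, S.lift ψ₀ (x 0) ht (algebraMap L K' a) = ψ₀ a := by
      intro a
      have := hlift a 0
      simpa using this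
    have hy : S.lift ψ₀ (x 0) ht S.y = x 0 := by
      rw [S.lift_apply, S.ab_y.1, S.ab_y.2]
      simp
    refine ⟨K', inferInstance, inferInstance, inferInstance, S.y, S.lift ψ₀ (x 0) ht, hy, ?_, ?_, ?_,
      hKB.base S⟩
    · intro z hz
      let R : IntermediateField k Ω := (S.lift ψ₀ (x 0) ht).fieldRange.toIntermediateField
        (fun c => ⟨algebraMap L K' (algebraMap k L c), by rw [hlL, hψk]⟩)
      have h1 : Fx k x 0 0 ≤ R := by
        refine adjoin_le_iff.2 ?_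
        rintro _ ⟨j, ⟨h2, h3⟩, rfl⟩
        have : j = 0 := by omega
        rw [this]
        exact ⟨S.y, hy⟩
      exact h1 hz
    · obtain ⟨a, ha⟩ := hu
      exact ⟨algebraMap L K' a, by rw [hlL, ha]⟩
    · intro a
      rw [S.lift_apply]
      exact coords_lift le_rfl (mem_Fx le_rfl (by omega)) (hspan _) (hspan _)
  | succ n ih =>
    obtain ⟨K, _, _, _, y, ψ, hy, hr, hu', hsp, hS⟩ := ih
    obtain ⟨K', _, _, ⟨S⟩⟩ := exists_AS (f := y + 1 + y⁻¹) (fun c h => hS.irr (by norm_num) c h)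
    letI : Algebra k K' := ((algebraMap K K').comp (algebraMap k K)).toAlgebra
    haveI : IsScalarTower k K K' := IsScalarTower.of_algebraMap_eq fun _ => rfl
    haveI : CharP K' 2 := charP_of_injective_algebraMap (algebraMap K K').injective 2
    have hψf : ψ (y + 1 + y⁻¹) = x n + 1 + (x n)⁻¹ := by
      rw [map_add, map_add, map_one, map_inv₀, hy]
    have hz : x (n + 1) ^ 2 + x (n + 1) = ψ (y + 1 + y⁻¹) := by rw [hx.rel, hψf]
    have hW : ∀ v : DV K, WN 7 v (y + 1 + y⁻¹) := fun v => WN_of_pyramid hx ψ hr hu' hsp hψf v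
    have hlift : ∀ a b : K, S.lift ψ (x (n + 1)) hz (algebraMap K K' a + algebraMap K K' b * S.y) =
        ψ a + ψ b * x (n + 1) := by
      intro a b
      obtain ⟨h6, h7⟩ := S.ab_eq (x := algebraMap K K' a + algebraMap K K' b * S.y) rfl
      rw [S.lift_apply, h6, h7]
    refine ⟨K', inferInstance, inferInstance, inferInstance, S.y, S.lift ψ (x (n + 1)) hz, ?_, ?_,
      ?_, ?_, hS.step hk (by norm_num) rfl hW S⟩
    · rw [S.lift_apply, S.ab_y.1, S.ab_y.2]
      simp
    · intro z hzF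
      have h5 := hx.eq_right 0 n
      have e1 : 0 + n + 1 = n + 1 := by omega
      rw [h5] at hzF
      obtain ⟨a, ha, b, hb, rfl⟩ := hzF
      obtain ⟨a', rfl⟩ := hr a ha
      obtain ⟨b', rfl⟩ := hr b hb
      exact ⟨algebraMap K K' a' + algebraMap K K' b' * S.y, by rw [hlift, e1]⟩
    · obtain ⟨a, ha⟩ := hu'
      refine ⟨algebraMap K K' a, ?_⟩
      have := hlift a 0
      rw [map_zero, zero_mul, add_zero, map_zero, zero_mul, add_zero] at this
      rw [this, ha]
    · intro a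
      rw [S.lift_apply]
      refine coords_lift ?_ (mem_Fx (by omega) (by omega)) (hsp _) (hsp _)
      exact adjoin.mono k _ _ (Set.image_mono (Set.Icc_subset_Icc le_rfl (by omega)))

/-- place inequality -/
theorem place_ineqB : ∃ A : ℕ, 1 ≤ A ∧ ∀ j r s s' e' : ℕ, A * (j + 1) ≤ r → s' = 2 ^ e' →
    8 ^ r ≤ 2 * (s' * s') → s' ≤ s →
    (28 * 2 ^ j + 2) * (28 * 2 ^ j + 3) ≤ s ∧
      r * (14 * 2 ^ j) * (1 + 8) + 2 ^ j * (4 * 28 * j + 172) < s' := by
  refine ⟨40, by norm_num, ?_⟩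
  intro j r s s' e' hr _ h8 hss
  obtain ⟨h, hh⟩ : ∃ h : ℕ, h = r / 2 := ⟨_, rfl⟩
  have hh1 : 20 * (j + 1) ≤ h := by omega
  have hr2 : r ≤ 2 * h + 1 := by omega
  -- `2 ^ r ≤ s'`
  have hs' : 2 ^ r ≤ s' := by
    have h1 : (2 ^ r) ^ 2 ≤ s' ^ 2 := by
      have h2 : (8 : ℕ) ^ r = 2 ^ r * (2 ^ r) ^ 2 := by
        rw [← pow_mul, ← pow_add]
        have : r + r * 2 = 3 * r := by ring
        rw [this, pow_mul]
        norm_num
      have h3 : 2 ≤ 2 ^ r := by
        calc 2 = 2 ^ 1 := (pow_one 2).symm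
          _ ≤ 2 ^ r := Nat.pow_le_pow_right (by norm_num) (by omega)
      have h4 : 2 * (2 ^ r) ^ 2 ≤ 2 * s' ^ 2 := by
        calc 2 * (2 ^ r) ^ 2 ≤ 2 ^ r * (2 ^ r) ^ 2 := Nat.mul_le_mul_right _ h3
          _ = 8 ^ r := h2.symm
          _ ≤ 2 * (s' * s') := h8
          _ = 2 * s' ^ 2 := by ring
      omega
    exact (Nat.pow_le_pow_iff_left (by norm_num)).1 h1
  set H := 2 ^ h with hH
  set J := 2 ^ j with hJ
  have hJ1 : 1 ≤ J := Nat.one_le_two_pow
  have hjJ : j + 1 ≤ J := Nat.lt_two_pow_self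
  have hH1 : h + 1 ≤ H := Nat.lt_two_pow_self
  have hHJ : 1048576 * (J * J) ≤ H := by
    have e1 : 2 ^ (20 * (j + 1)) ≤ H := Nat.pow_le_pow_right (by norm_num) hh1
    have e2 : (2 : ℕ) ^ (20 * (j + 1)) = 1048576 * (J ^ 20) := by
      rw [hJ, ← pow_mul, mul_add, pow_add]
      norm_num
      ring
    have e3 : J * J ≤ J ^ 20 := by
      calc J * J = J ^ 2 := (sq J).symm
        _ ≤ J ^ 20 := Nat.pow_le_pow_right hJ1 (by norm_num)
    omega
  have hHH : H * H ≤ s' := by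
    refine le_trans ?_ hs'
    rw [hH, ← pow_add]
    exact Nat.pow_le_pow_right (by norm_num) (by omega)
  have hJJ : J ≤ J * J := Nat.le_mul_of_pos_left J hJ1
  have hJJ1 : 1 ≤ J * J := Nat.mul_le_mul hJ1 hJ1
  have hH2 : H ≤ H * H := Nat.le_mul_of_pos_left H (by omega)
  constructor
  · have e1 : (28 * J + 2) * (28 * J + 3) = 784 * (J * J) + 140 * J + 6 := by ring
    rw [e1]
    omega
  · have e1 : r * (14 * J) * (1 + 8) ≤ 252 * (H * J) := by
      have : r * J ≤ 2 * H * J := Nat.mul_le_mul_right _ (by omega)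
      calc r * (14 * J) * (1 + 8) = 126 * (r * J) := by ring
        _ ≤ 126 * (2 * H * J) := Nat.mul_le_mul_left _ this
        _ = 252 * (H * J) := by ring
    have e2 : 1048576 * (H * J) ≤ H * H := by
      calc 1048576 * (H * J) = H * (1048576 * J) := by ring
        _ ≤ H * H := Nat.mul_le_mul_left _ (by omega)
    have e3 : J * (4 * 28 * j + 172) ≤ 172 * (J * J) := by
      calc J * (4 * 28 * j + 172) ≤ J * (172 * J) := Nat.mul_le_mul_left _ (by omega)
        _ = 172 * (J * J) := by ring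
    have e4 : 0 < H * H := Nat.mul_pos (by omega) (by omega)
    omega

theorem towerNB (hk : Nat.card k = 8) {L : Type} [Field L] [Algebra k L] [CharP L 2]
    [Algebra (RatFunc k) L] [IsScalarTower k (RatFunc k) L] (S : Tm k (RatFunc k) L 7)
    (hKB : KB k L (algebraMap (RatFunc k) L RatFunc.X)) : TowerN k (28, 17 / 2, 42) := by
  obtain ⟨A₀, hA1, hA⟩ := place_ineqB
  set Ω := AlgebraicClosure L
  have : CharP Ω 2 := charP_of_injective_algebraMap (algebraMap L Ω).injective 2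
  set tΩ : Ω := algebraMap L Ω (algebraMap (RatFunc k) L RatFunc.X) with htΩ
  have htr : Transcendental k tΩ := by
    rw [htΩ, transcendental_algebraMap_iff (algebraMap L Ω).injective,
      transcendental_algebraMap_iff (algebraMap (RatFunc k) L).injective]
    exact RatFunc.transcendental_X
  obtain ⟨c, hc⟩ := exists_root_AS tΩ
  have hctr : Transcendental k c := by
    intro h
    apply htr
    rw [← hc]
    exact (h.pow 2).add h
  obtain ⟨x, hx0, hx⟩ := exists_Sq8_of hctr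
  have hspan : ∀ a : L, ∃ c : Fin 7 → Ω, (∀ i, c i ∈ Fx k x 0 0) ∧
      algebraMap L Ω a = ∑ i, c i * (algebraMap L Ω S.θ) ^ (i : ℕ) := by
    intro a
    obtain ⟨b, hb⟩ := S.exists_coords a
    refine ⟨fun i => algebraMap L Ω (algebraMap (RatFunc k) L (b i)), fun i => ?_, ?_⟩
    · let f : RatFunc k →ₐ[k] Ω := (IsScalarTower.toAlgHom k L Ω).comp
        (IsScalarTower.toAlgHom k (RatFunc k) L)
      have h1 : (⊤ : IntermediateField k (RatFunc k)).map f ≤ Fx k x 0 0 := by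
        rw [← RatFunc.adjoin_X, adjoin_map, Set.image_singleton, adjoin_le_iff,
          Set.singleton_subset_iff]
        have h2 : f RatFunc.X = x 0 ^ 2 + x 0 := by rw [hx0, hc]; rfl
        rw [h2]
        exact add_mem (pow_mem (mem_Fx le_rfl (by omega)) 2) (mem_Fx le_rfl (by omega))
      exact h1 ⟨b i, mem_top, rfl⟩
    · rw [hb, map_sum, ← Fin.sum_univ_eq_sum_range
        (fun i => algebraMap L Ω (algebraMap (RatFunc k) L (b i) * S.θ ^ i))]
      exact Finset.sum_congr rfl fun i _ => by rw [map_mul, map_pow]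
  refine ⟨A₀, 1, fun j => ?_⟩
  obtain ⟨K, iF, iA, iC, y, ψ, -, -, -, -, g, o, C, A, B, T, hFF, hCv, hO, -, -, -, -, hg, ho, -, hT,
    hT', hC, hPl⟩ := chainB hk hKB (algebraMap L Ω) hx (by rw [hx0, hc])
      (fun c => (IsScalarTower.algebraMap_apply k L Ω c).symm) ⟨S.θ, rfl⟩ hspan j
  refine ⟨K, iF, iA, iC, g, o, T, hFF, hCv, ?_, hO, ?_, fun P hP => (hT' P hP).1, ?_, fun r hr => ?_⟩
  · have : g ≤ 28 * 2 ^ j + 1 := by omega
    have : (g : ℝ) ≤ ((28 * 2 ^ j + 1 : ℕ) : ℝ) := by exact_mod_cast this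
    push_cast at this
    simp only
    linarith
  · have : 2 * o ≤ 17 * 2 ^ j := by omega
    have : ((2 * o : ℕ) : ℝ) ≤ ((17 * 2 ^ j : ℕ) : ℝ) := by exact_mod_cast this
    push_cast at this
    simp only
    linarith
  · have : ((42 * 2 ^ j : ℕ) : ℝ) ≤ (T.card : ℝ) := by exact_mod_cast hT
    push_cast at this
    simp only
    linarith
  · have hr1 : 1 ≤ r := by
      have : 1 ≤ A₀ * (j + 1) := Nat.mul_pos hA1 (Nat.succ_pos j)
      omega
    -- the two powers of two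
    obtain ⟨e', he'⟩ : ∃ e', e' = 3 * r / 2 := ⟨_, rfl⟩
    obtain ⟨e, he⟩ : ∃ e, e = 3 * r - e' := ⟨_, rfl⟩
    have h1 : e + e' = 3 * r := by omega
    have h2 : e' ≤ e := by omega
    have h3 : e ≤ e' + 1 := by omega
    have h8 : (8 : ℕ) ^ r = 2 ^ (3 * r) := by rw [pow_mul]; norm_num
    have h4 : 8 ^ r ≤ 2 * (2 ^ e' * 2 ^ e') := by
      have : 2 * (2 ^ e' * 2 ^ e') = 2 ^ (e' + 1 + e') := by
        rw [pow_add, pow_succ]; ring
      rw [this, h8]
      exact Nat.pow_le_pow_right (by norm_num) (by omega)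
    obtain ⟨h5, h6⟩ := hA j r (2 ^ e) (2 ^ e') e' hr rfl h4
      (Nat.pow_le_pow_right (by norm_num) h2)
    refine hPl.exists_place hCv hr1 (s := 2 ^ e) (e := e) rfl (s' := 2 ^ e') (e' := e') rfl
      (Nat.pow_le_pow_right (by norm_num) h2) ?_ h5 ?_
    · rw [← pow_add, h1, hk, h8]
    · rw [hk]
      omega

end chain

end Pool.Agent.FF
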