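import Pool.Agent.FF.EightJ
import Pool.Agent.FF.EightC
import Pool.Agent.FF.AssemE
import Pool.Agent.FF.LPBlock
import Pool.Agent.FF.FinalE

/-! The arithmetic of the final step for `q = 8`: `L(8) ≥ 4/5`. -/

set_option autoImplicit false

namespace Pool.Agent.FF

open LP in
theorem blk125 : Blk 125 10 52 := by
  intro η hη
  obtain ⟨n₀, hn₀⟩ := LP.lp_block 125 1 10 52 (by norm_num) (by norm_num) (by decide +kernel)
    (by norm_num) (by norm_num)
  refine ⟨n₀, fun n hn => ⟨52 * n, ?_, ?_⟩⟩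
  · push_cast
    have : (0 : ℝ) ≤ n := Nat.cast_nonneg _
    nlinarith
  · intro ι _ _ hι W _ _ φ hW
    exact hn₀ n hn ι W φ hι hW

theorem final_eightE {E : ℕ → ℝ → Prop} (mono : ∀ G x y, y ≤ x → E G x → E G y)
    (H : _root_.FF.CoversE E 3 100
      {((28, 17 / 2, 42), (2 / 25, 104 / 115)), ((4, 5 / 2, 6), (0, 1))}) :
    ∀ ε : ℝ, 0 < ε → ∃ G0 : ℕ, ∀ G : ℕ, G0 ≤ G → E G ((4 / 5 - ε) * G) := by
  apply _root_.FF.final_generalE E mono 3 (4 / 5) 60 (7 / 50) 100 (by norm_num) (by norm_num)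
    (by norm_num) _ _ _ H
  · intro p hp
    simp only [Set.mem_insert_iff, Set.mem_singleton_iff] at hp
    rcases hp with rfl | rfl <;> norm_num
  intro x hx1 hx2
  rcases le_or_gt x 80 with h1 | h1
  · refine ⟨((28, 17 / 2, 42), (2 / 25, 104 / 115)), by simp, 0, ?_, ?_, ?_⟩
    · norm_num; linarith
    · norm_num; linarith
    · unfold _root_.FF.phiE
      rw [le_min_iff]
      constructor
      · norm_num; linarith
      · norm_num; linarith
  · refine ⟨((4, 5 / 2, 6), (0, 1)), by simp, 3, ?_, ?_, ?_⟩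
    · norm_num; linarith
    · norm_num; linarith
    · unfold _root_.FF.phiE
      rw [le_min_iff]
      constructor
      · norm_num; linarith
      · norm_num; linarith

theorem LL_eight_of_two {k : Type} [Field k] (hk : Nat.card k = 8) (HA : TowerN k (4, 5 / 2, 6))
    (HB : TowerN k (28, 17 / 2, 42)) : ENNReal.ofReal (4 / 5) ≤ LL k := by
  have : Finite k := Nat.finite_of_card_ne_zero (by omega)
  refine ofReal_le_LL (final_eightE (EC_mono k) ?_)
  have h3 : ((3 : ℕ) : ℝ) = 3 := by norm_num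
  have hk' : Nat.card k = 2 ^ 3 := by rw [hk]; norm_num
  have h1 := coversE_one (k := k) (e := 3) (p := (28, 17 / 2, 42)) (by norm_num) (by norm_num)
    (by norm_num) (by norm_num) (by norm_num) (by norm_num) blk125 hk' HB 100
  have h2 := (coversN_one (k := k) (e := 3) (p := (4, 5 / 2, 6)) (by norm_num) (by norm_num)
    (by norm_num) (by norm_num) hk' HA 100).toE
  rw [h3] at h1 h2
  have e1 : (((10 : ℕ) : ℝ) / (125 : ℕ), 2 * (52 : ℝ) / (((125 : ℕ) : ℝ) - (10 : ℕ))) =
      ((2 : ℝ) / 25, (104 : ℝ) / 115) := by norm_num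
  rw [e1] at h1
  rw [Set.insert_eq]
  exact h1.union h2

end Pool.Agent.FF
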