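import Pool.Agent.FF.Kl2

/-!
# Places of the Klein quartic
-/

set_option autoImplicit false
set_option linter.unusedSectionVars false

namespace Pool.Agent.FF

open Finset

/-- **Places of every large degree** of the cover `θ ^ 7 = t ^ 4 (t + 1)`. -/
theorem hasPlX_klein {k L : Type*} [Field k] [Finite k] [Field L] [Algebra k L]
    [Algebra (RatFunc k) L] [IsScalarTower k (RatFunc k) L] [CharP L 2]
    (S : Tm k (RatFunc k) L 7) (C : Cv k L 3) (hΘ : S.Θ = RatFunc.X ^ 4 * (RatFunc.X + 1))
    {P0 P1 Pi : DV L} (h0 : P0.Rat k) (h1 : P1.Rat k) (hi : Pi.Rat k)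
    (e0 : P0.ord (algebraMap (RatFunc k) L RatFunc.X) = 7)
    (e1 : P1.ord (algebraMap (RatFunc k) L RatFunc.X + 1) = 7)
    (ei : Pi.ord (algebraMap (RatFunc k) L RatFunc.X) = -7)
    (hcl : ∀ v : DV L, v ≠ P0 → v ≠ P1 → v ≠ Pi →
      v.ord (algebraMap (RatFunc k) L RatFunc.X) = 0 ∧
        v.ord (algebraMap (RatFunc k) L RatFunc.X + 1) = 0) :
    HasPlX k L 20 63 7 := by
  classical
  have hX : (RatFunc.X : RatFunc k) ≠ 0 := RatFunc.X_ne_zero
  have hX1 : (RatFunc.X + 1 : RatFunc k) ≠ 0 := by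
    intro h
    have h2 := congrArg (algebraMap (RatFunc k) L) h
    rw [map_add, map_one, map_zero] at h2
    rw [h2, P1.ord_zero] at e1
    norm_num at e1
  set t := algebraMap (RatFunc k) L RatFunc.X with ht
  have ht0 : t ≠ 0 := map_ne_zero' hX
  have ht1 : t + 1 ≠ 0 := by
    have := map_ne_zero' (K' := L) hX1
    rwa [map_add, map_one] at this
  have hΘL : algebraMap (RatFunc k) L S.Θ = t ^ 4 * (t + 1) := by
    rw [hΘ, map_mul, map_pow, map_add, map_one]
  have hordΘ : ∀ w : DV L, w.ord (algebraMap (RatFunc k) L S.Θ) = 4 * w.ord t + w.ord (t + 1) := by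
    intro w
    rw [hΘL, w.ord_mul _ _ (pow_ne_zero 4 ht0) ht1, w.ord_pow ht0]
    norm_num
  -- the place at infinity
  have hPiov := S.dn_over Pi
  set R := S.dn Pi with hR
  have hRX : R.ord RatFunc.X < 0 := by
    obtain ⟨e, he, h⟩ := hPiov
    have h2 := h _ hX
    rw [← ht, ei] at h2
    by_contra hcon
    push Not at hcon
    have := mul_nonneg he.le hcon
    omega
  have hneg : ∀ w : DV L, Over w R → w.ord t < 0 := by
    rintro w ⟨e, he, h⟩
    rw [ht, h _ hX]
    exact mul_neg_of_pos_of_neg he hRX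
  have hP1t : P1.ord t = 0 := by
    have h2 : P1.G 7 (t + 1) := DV.G_of_le e1.ge
    have h3 : P1.G 0 t := by
      have h4 := (h2.mono (by norm_num : (0 : ℤ) ≤ 7)).sub (DV.G_one (v := P1))
      rwa [add_sub_cancel_right] at h4
    have h5 := h3.le ht0
    rcases eq_or_lt_of_le h5 with h6 | h6
    · exact h6.symm
    · exfalso
      have h7 : P1.G 1 t := DV.G_of_le (by omega)
      have h8 := (h2.mono (by norm_num : (1 : ℤ) ≤ 7)).sub h7
      rw [add_sub_cancel_left] at h8
      have h9 := h8.le one_ne_zero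
      rw [P1.ord_one] at h9
      omega
  have hu : ∀ w : DV L, Over w R → w = Pi := by
    intro w hw
    have h2 := hneg w hw
    by_contra hne
    have hw0 : w ≠ P0 := by
      rintro rfl
      omega
    have hw1 : w ≠ P1 := by
      rintro rfl
      omega
    have := (hcl w hw0 hw1 hne).1
    omega
  have hRΘ : R.ord S.Θ ≠ 0 := by
    intro h2
    have h3 := hordΘ Pi
    obtain ⟨e, he, h⟩ := hPiov
    rw [h _ S.Θ_ne, h2, mul_zero, ei] at h3
    -- `ord (t + 1) = -7`
    have h4 : Pi.ord (t + 1) < 0 := by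
      by_contra hcon
      push Not at hcon
      have h5 : Pi.G 0 t := by
        have h6 := (DV.G_of_le (v := Pi) hcon).sub (DV.G_one (v := Pi))
        rwa [add_sub_cancel_right] at h6
      have := h5.le ht0
      omega
    omega
  have hρ : ∀ A : Finset (DV (RatFunc k)), (∀ v ∈ A, v.ord S.Θ ≠ 0) → ∑ v ∈ A, deg k v ≤ 3 := by
    intro A hA
    have h2 : ∀ v ∈ A, S.up v = P0 ∨ S.up v = P1 ∨ S.up v = Pi := by
      intro v hv
      by_contra hcon
      push Not at hcon
      obtain ⟨h3, h4⟩ := hcl _ hcon.1 hcon.2.1 hcon.2.2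
      have h5 := hordΘ (S.up v)
      rw [h3, h4] at h5
      obtain ⟨e, he, h⟩ := S.up_over v
      rw [h _ S.Θ_ne] at h5
      rcases mul_eq_zero.1 (h5.trans (by norm_num)) with h6 | h6
      · omega
      · exact hA v hv h6
    have hdeg : ∀ v ∈ A, deg k v ≤ 1 := by
      intro v hv
      have h3 := deg_le_of_over (k := k) (S.up_over v) (C.resCard_ne _) ((Rat.cv (K := k)).resCard_ne v)
      refine h3.trans (le_of_eq ?_)
      rcases h2 v hv with h4 | h4 | h4
      · rw [h4]; exact h0.deg_eq_one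
      · rw [h4]; exact h1.deg_eq_one
      · rw [h4]; exact hi.deg_eq_one
    have hcard : A.card ≤ 3 := by
      calc A.card = (A.image S.up).card := (card_image_of_injective _ S.up_inj).symm
        _ ≤ ({P0, P1, Pi} : Finset (DV L)).card := by
            refine card_le_card fun w hw => ?_
            obtain ⟨v, hv, rfl⟩ := mem_image.1 hw
            rw [mem_insert, mem_insert, mem_singleton]
            exact h2 v hv
        _ ≤ 3 := card_le_three
    calc ∑ v ∈ A, deg k v ≤ ∑ _v ∈ A, 1 := sum_le_sum hdeg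
      _ = A.card := by rw [sum_const, smul_eq_mul, mul_one]
      _ ≤ 3 := hcard
  have h9 := HasPlX.tm S (by norm_num) (Rat.cv (K := k)) C hPiov hu hi hRΘ hρ (HasPlX.base k)
  exact h9.mono (by norm_num) (by norm_num) (by norm_num)

end Pool.Agent.FF
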