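import Pool.Agent.FF.EightL
import Pool.Agent.FF.Kl1
import Pool.Agent.FF.Kl2b

/-! `L(8) ≥ 4/5`. -/

set_option autoImplicit false

namespace Pool.Agent.FF

theorem LL_eight_four_fifths {k : Type} [Field k] (hk : Nat.card k = 8) :
    ENNReal.ofReal (4 / 5) ≤ LL k := by
  have : Finite k := Nat.finite_of_card_ne_zero (by omega)
  have := charP_two_of_card hk
  obtain ⟨L, _, _, _, _, _, S, hΘ, -, hFF, hC, ⟨P0, P1, Pi, h0, h1, hi, e0, e1, ei, hcl⟩, hT⟩ :=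
    exists_klein hk
  have hKB : KB k L (algebraMap (RatFunc k) L RatFunc.X) :=
    ⟨hFF, hC, hasPlX_klein S hC hΘ h0 h1 hi e0 e1 ei hcl, ⟨P0, P1, Pi, h0, h1, hi, e0, e1, ei, hcl⟩,
      hT⟩
  exact LL_eight_of_two hk (towerNA hk) (towerNB hk S hKB)

end Pool.Agent.FF
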