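import Pool.Agent.FF.Over
import Pool.Agent.FF.Adele

/-! The local data of an Artin–Schreier double extension at a place of the base field. -/

set_option autoImplicit false
set_option linter.unusedSectionVars false

namespace Pool.Agent.FF

/-- The local behaviour of `K' = K + K y`, `y ^ 2 + y = f`, at the place `v` of `K`: with
`x = (a + b c) + b (y + c)`, an element `x` is integral at all places over `v` if and only if `a + b c`
is integral and `b` has order at least `e` (the exponent of the conductor at `v`). -/
structure AS.Local {K K' : Type*} [Field K] [Field K'] [Algebra K K'] {f : K}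
    (S : AS K K' f) (v : DV K) (c : K) (e : ℕ) : Prop where
  of_int : v.G 0 f → c = 0 ∧ e = 0
  iff : ∀ x : K', (∀ w : DV K', Over w v → w.G 0 x) ↔ v.G 0 (S.a x + S.b x * c) ∧ v.G e (S.b x)
  approx : ∀ r : DV K' → K', ∃ x : K', ∀ w : DV K', Over w v → w.G 0 (x - r w)
  fin : {w : DV K' | Over w v}.Finite
  exists_over : ∃ w : DV K', Over w v

end Pool.Agent.FF
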