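import Pool.Agent.FF.Deg
import Pool.Agent.FF.LocDef

/-! The fibre of an Artin–Schreier double extension over a place with perfect residue field. -/

set_option autoImplicit false
set_option linter.unusedSectionVars false

namespace Pool.Agent.FF

section perf

variable {K : Type*} [Field K] [CharP K 2]

/-- Finite residue fields are perfect. -/
theorem DV.perf_of_res {v : DV K} (h : v.resCard ≠ 0) : v.Perf := by
  let f : K →+ K :=
    { toFun := fun a => a ^ 2
      map_zero' := by simp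
      map_add' := fun a b => CharTwo.add_sq a b }
  have hcomap : (v.O 1).comap f = v.O 1 := by
    ext a
    change v.G 1 (a ^ 2) ↔ v.G 1 a
    by_cases ha : a = 0
    · simp [ha, DV.G_zero]
    · rw [DV.G_iff (pow_ne_zero 2 ha), DV.G_iff ha, v.ord_pow ha]
      push_cast
      omega
  have hle : (v.O 0).map f ⊔ v.O 1 ≤ v.O 0 := by
    refine sup_le ?_ (v.O_anti (by norm_num))
    rintro _ ⟨a, ha, rfl⟩
    change v.G 0 (a ^ 2)
    have h1 : v.G 0 a := ha
    simpa using h1.pow 2
  have h1 : (v.O 1).relIndex ((v.O 0).map f ⊔ v.O 1) = v.resCard := by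
    rw [relIndex_comap_of_sup f rfl, hcomap]
    rfl
  have h2 := AddSubgroup.relIndex_mul_relIndex (v.O 1) ((v.O 0).map f ⊔ v.O 1) (v.O 0)
    le_sup_right hle
  rw [h1] at h2
  have h3 : ((v.O 0).map f ⊔ v.O 1).relIndex (v.O 0) = 1 := by
    have h4 : v.resCard * ((v.O 0).map f ⊔ v.O 1).relIndex (v.O 0) = v.resCard * 1 := by
      rw [h2, mul_one]
      rfl
    exact Nat.eq_of_mul_eq_mul_left (Nat.pos_of_ne_zero h) h4
  intro a ha
  obtain ⟨_, ⟨b, hb, rfl⟩, c, hc, hab⟩ := AddSubgroup.mem_sup.1 ((AddSubgroup.relIndex_eq_one.1 h3) ha)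
  refine ⟨b, hb, ?_⟩
  have h2 : (2 : K) = 0 := CharTwo.two_eq_zero
  have h5 : a + b ^ 2 = c := by
    have h6 : b ^ 2 + c = a := hab
    linear_combination -h6 + (b ^ 2) * h2
  rw [h5]
  exact hc

/-- `c ^ 2 + c` never has an odd pole. -/
theorem DV.not_odd_pole {v : DV K} {c : K} {e : ℕ} (he : 1 ≤ e) : v.ord (c ^ 2 + c) ≠ 1 - 2 * e := by
  intro h
  have h0 : c ^ 2 + c ≠ 0 := by
    intro h0
    rw [h0, v.ord_zero] at h
    omega
  by_cases hc : v.G 0 c
  · have h1 : v.G 0 (c ^ 2 + c) := by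
      refine DV.G.add ?_ hc
      simpa using hc.pow 2
    have := h1.le h0
    omega
  · have hc0 := DV.ne_zero_of_not_G hc
    have hlt := (DV.not_G hc0).1 hc
    have h2 := DV.ord_add_of_lt (v := v) (pow_ne_zero 2 hc0) (b := c) (DV.G_of_le (by
      rw [v.ord_pow hc0]; push_cast; omega))
    rw [h2.2, v.ord_pow hc0] at h
    push_cast at h
    omega

theorem DV.not_int_of_odd {v : DV K} {f c : K} {e : ℕ} (he : 1 ≤ e)
    (hf : v.ord (f + (c ^ 2 + c)) = 1 - 2 * e) (h : v.G 0 f) : False := by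
  have h2 : (2 : K) = 0 := CharTwo.two_eq_zero
  have h0 : f + (c ^ 2 + c) ≠ 0 := by
    intro h0
    rw [h0, v.ord_zero] at hf
    omega
  have h3 := DV.ord_add_of_lt (v := v) h0 (b := f) (h.mono (by rw [hf]; omega))
  have h4 : f + (c ^ 2 + c) + f = c ^ 2 + c := by linear_combination f * h2
  rw [h4, hf] at h3
  exact DV.not_odd_pole he h3.2

end perf

namespace AS

variable {K K' : Type*} [Field K] [Field K'] [Algebra K K'] [CharP K 2] {f : K} (S : AS K K' f)

include S

/-- Local data at a place where `f` has an odd pole, up to `c ^ 2 + c`. -/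
theorem local_of_odd {v : DV K} {c : K} {e : ℕ} (he : 1 ≤ e)
    (hf : v.ord (f + (c ^ 2 + c)) = 1 - 2 * e) : S.Local v c e where
  of_int h := (DV.not_int_of_odd he hf h).elim
  iff x := by
    rw [← (S.shift_ab c x).1, ← (S.shift_ab c x).2, ← (S.shift c).ramDV_int he hf]
    exact ⟨fun h => h _ ((S.shift c).ramDV_over he hf), fun h w hw => by
      rw [(S.shift c).ramDV_unique he hf hw]; exact h⟩
  approx r := ⟨r ((S.shift c).ramDV he hf), fun w hw => by
    rw [(S.shift c).ramDV_unique he hf hw, sub_self]; exact DV.G_zero _⟩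
  fin := (Set.finite_singleton ((S.shift c).ramDV he hf)).subset fun w hw =>
    (S.shift c).ramDV_unique he hf hw
  exists_over := ⟨_, (S.shift c).ramDV_over he hf⟩

omit S in
/-- The double shift used at split places. -/
theorem shift_shift_f (c d : K) : f + (c ^ 2 + c) + (d ^ 2 + d) = f + ((c + d) ^ 2 + (c + d)) := by
  have h2 : (2 : K) = 0 := CharTwo.two_eq_zero
  linear_combination -(c * d) * h2

theorem local_of_split {v : DV K} {c d : K} (hc : v.G 0 f → c = 0) (hd : v.G 0 d)
    (hs : v.G 1 (f + (c ^ 2 + c) + (d ^ 2 + d))) : S.Local v c 0 where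
  of_int h := ⟨hc h, rfl⟩
  iff x := by
    have h2 : (2 : K) = 0 := CharTwo.two_eq_zero
    set T := (S.shift c).shift d with hT
    have hab : T.a x = S.a x + S.b x * c + S.b x * d ∧ T.b x = S.b x := by
      rw [hT, ((S.shift c).shift_ab d x).1, ((S.shift c).shift_ab d x).2, (S.shift_ab c x).1,
        (S.shift_ab c x).2]
      exact ⟨rfl, rfl⟩
    have h1 : (∀ w : DV K', Over w v → w.G 0 x) ↔ v.G 0 (T.a x) ∧ v.G 0 (T.b x) := by
      rw [← T.split_both hs]
      constructor
      · intro h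
        exact ⟨h _ (T.splitDV_over hs), h _ (T.conj.splitDV_over hs)⟩
      · rintro ⟨h, h'⟩ w hw
        rcases T.splitDV_cases hs hw with h3 | h3
        · rw [h3]; exact h
        · rw [h3]; exact h'
    rw [h1, hab.1, hab.2]
    push_cast
    constructor
    · rintro ⟨h, h'⟩
      refine ⟨?_, h'⟩
      have h4 := h.add (by simpa using h'.mul hd)
      have h5 : S.a x + S.b x * c + S.b x * d + S.b x * d = S.a x + S.b x * c := by
        linear_combination (S.b x * d) * h2
      rwa [h5] at h4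
    · rintro ⟨h, h'⟩
      exact ⟨h.add (by simpa using h'.mul hd), h'⟩
  approx r := by
    set T := (S.shift c).shift d
    obtain ⟨x, h1, h2⟩ := T.split_approx hs (-r (T.splitDV hs)) (-r (T.conj.splitDV hs))
    refine ⟨x, fun w hw => ?_⟩
    rcases T.splitDV_cases hs hw with h3 | h3
    · rw [h3, sub_eq_add_neg]; exact h1
    · rw [h3, sub_eq_add_neg]; exact h2
  fin := by
    set T := (S.shift c).shift d
    refine (Set.toFinite {T.splitDV hs, T.conj.splitDV hs}).subset fun w hw => ?_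
    exact T.splitDV_cases hs hw
  exists_over := ⟨_, ((S.shift c).shift d).splitDV_over hs⟩

theorem local_of_inert {v : DV K} {c : K} (hc : v.G 0 f → c = 0) (hf : v.G 0 (f + (c ^ 2 + c)))
    (hr : ∀ d : K, v.G 0 d → ¬ v.G 1 (d ^ 2 + d + (f + (c ^ 2 + c)))) : S.Local v c 0 where
  of_int h := ⟨hc h, rfl⟩
  iff x := by
    rw [← (S.shift_ab c x).1, ← (S.shift_ab c x).2]
    push_cast
    rw [← (S.shift c).inertDV_G hf hr]
    exact ⟨fun h => h _ ((S.shift c).inertDV_over hf hr), fun h w hw => by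
      rw [(S.shift c).inertDV_unique hf hr hw]; exact h⟩
  approx r := ⟨r ((S.shift c).inertDV hf hr), fun w hw => by
    rw [(S.shift c).inertDV_unique hf hr hw, sub_self]; exact DV.G_zero _⟩
  fin := (Set.finite_singleton ((S.shift c).inertDV hf hr)).subset fun w hw =>
    (S.shift c).inertDV_unique hf hr hw
  exists_over := ⟨_, (S.shift c).inertDV_over hf hr⟩

theorem local_of_int {v : DV K} {c : K} (hc : v.G 0 f → c = 0) (hf : v.G 0 (f + (c ^ 2 + c))) :
    S.Local v c 0 := by
  by_cases h : ∃ d : K, v.G 0 d ∧ v.G 1 (f + (c ^ 2 + c) + (d ^ 2 + d))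
  · obtain ⟨d, hd, hs⟩ := h
    exact S.local_of_split hc hd hs
  · push Not at h
    exact S.local_of_inert hc hf fun d hd h' => h d hd (by rwa [add_comm])

/-- Local data exist at every place with perfect residue field. -/
theorem exists_local {v : DV K} (hp : v.Perf) : ∃ (c : K) (e : ℕ), S.Local v c e := by
  by_cases h : v.G 0 f
  · exact ⟨0, 0, S.local_of_int (fun _ => rfl) (by simpa using h)⟩
  · obtain ⟨c, hc | ⟨e, he, hc⟩⟩ := DV.reduce hp f
    · exact ⟨c, 0, S.local_of_int (fun h' => absurd h' h) hc⟩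
    · exact ⟨c, e, S.local_of_odd he hc⟩

theorem exists_over' {v : DV K} (hp : v.Perf) : ∃ w : DV K', Over w v := by
  obtain ⟨c, e, h⟩ := S.exists_local hp
  exact h.exists_over

/-! ### The three cases, for a given place above -/

/-- Where `f` has an odd pole. -/
theorem over_of_odd {v : DV K} {w : DV K'} (hw : Over w v) {c : K} {e : ℕ} (he : 1 ≤ e)
    (hf : v.ord (f + (c ^ 2 + c)) = 1 - 2 * e) :
    (∀ a : K, w.ord (algebraMap K K' a) = 2 * v.ord a) ∧
    w.ord (S.y + algebraMap K K' c) = 1 - 2 * e ∧ w.resCard = v.resCard ∧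
    ∀ w' : DV K', Over w' v → w' = w := by
  have h := (S.shift c).ramDV_unique he hf hw
  rw [h]
  refine ⟨(S.shift c).ramDV_map he hf, ?_, ramDV_resCard (S.shift c) he hf, fun w' hw' =>
    (S.shift c).ramDV_unique he hf hw'⟩
  have h0 : S.y + algebraMap K K' c ≠ 0 := by
    intro h0
    exact (S.shift c).y_notMem 0 (by rw [shift_y, h0, map_zero])
  have h1 : (S.shift c).N (S.y + algebraMap K K' c) = f + (c ^ 2 + c) := by
    unfold N
    rw [← S.shift_y c, (S.shift c).ab_y.1, (S.shift c).ab_y.2]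
    ring
  change v.ord ((S.shift c).N (S.y + algebraMap K K' c)) = _
  rw [h1, hf]

/-- Where `f` has an odd pole, in terms of the order of `f`. -/
theorem over_of_odd' {v : DV K} {w : DV K'} (hw : Over w v) {m : ℕ} (hm : Odd m)
    (hf : v.ord f = -m) :
    (∀ a : K, w.ord (algebraMap K K' a) = 2 * v.ord a) ∧ w.ord S.y = -m ∧
    w.resCard = v.resCard ∧ ∀ w' : DV K', Over w' v → w' = w := by
  obtain ⟨j, hj⟩ := hm
  have hf' : v.ord (f + ((0 : K) ^ 2 + 0)) = 1 - 2 * ((j + 1 : ℕ) : ℤ) := by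
    simp only [ne_eq, OfNat.ofNat_ne_zero, not_false_eq_true, zero_pow, add_zero]
    rw [hf, hj]
    push_cast
    ring
  have h := S.over_of_odd hw (by omega) hf'
  rw [map_zero, add_zero] at h
  refine ⟨h.1, ?_, h.2.2⟩
  rw [h.2.1, hj]
  push_cast
  ring

theorem exists_unique_of_odd {v : DV K} {m : ℕ} (hm : Odd m) (hf : v.ord f = -m) :
    ∃ w : DV K', Over w v ∧ ∀ w' : DV K', Over w' v → w' = w := by
  obtain ⟨j, hj⟩ := hm
  have hf' : v.ord f = 1 - 2 * ((j + 1 : ℕ) : ℤ) := by
    rw [hf, hj]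
    push_cast
    ring
  exact ⟨_, S.ramDV_over (by omega) hf', fun w' hw' => S.ramDV_unique (by omega) hf' hw'⟩

/-- The split case. -/
theorem split_places {v : DV K} {c : K} (hs : v.G 1 (f + (c ^ 2 + c))) :
    ∃ w₁ w₂ : DV K', w₁ ≠ w₂ ∧ Over w₁ v ∧ Over w₂ v ∧ (∀ w : DV K', Over w v → w = w₁ ∨ w = w₂) ∧
    w₁.resCard = v.resCard ∧ w₂.resCard = v.resCard ∧
    (∀ a : K, w₁.ord (algebraMap K K' a) = v.ord a) ∧ (∀ a : K, w₂.ord (algebraMap K K' a) = v.ord a) ∧
    w₁.G 1 (S.y + algebraMap K K' c) ∧ w₂.G 1 (S.y + algebraMap K K' c + 1) := by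
  set T := S.shift c with hT
  refine ⟨T.splitDV hs, T.conj.splitDV hs, T.splitDV_ne hs, T.splitDV_over hs, T.conj.splitDV_over hs,
    fun w hw => T.splitDV_cases hs hw, splitDV_resCard T hs, splitDV_resCard T.conj hs,
    T.splitDV_map hs, T.conj.splitDV_map hs, (T.splitDV_y hs).1, ?_⟩
  have := (T.conj.splitDV_y hs).1
  exact this

/-- The inert case. -/
theorem inert_places {v : DV K} {c : K} (hf : v.G 0 (f + (c ^ 2 + c)))
    (hr : ∀ d : K, v.G 0 d → ¬ v.G 1 (f + (c ^ 2 + c) + (d ^ 2 + d))) :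
    ∃ w : DV K', Over w v ∧ (∀ w' : DV K', Over w' v → w' = w) ∧ w.resCard = v.resCard ^ 2 ∧
    (∀ a : K, w.ord (algebraMap K K' a) = v.ord a) := by
  have hr' : ∀ d : K, v.G 0 d → ¬ v.G 1 (d ^ 2 + d + (f + (c ^ 2 + c))) := fun d hd h =>
    hr d hd (by rwa [add_comm])
  exact ⟨_, (S.shift c).inertDV_over hf hr', fun w' hw' => (S.shift c).inertDV_unique hf hr' hw',
    inertDV_resCard (S.shift c) hf hr', (S.shift c).inertDV_map hf hr'⟩

/-- Where `f` is integral, up to `c ^ 2 + c`, the extension is unramified. -/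
theorem over_of_int {v : DV K} {w : DV K'} (hw : Over w v) {c : K} (hf : v.G 0 (f + (c ^ 2 + c))) :
    ∀ a : K, w.ord (algebraMap K K' a) = v.ord a := by
  by_cases h : ∃ d : K, v.G 0 d ∧ v.G 1 (f + (c ^ 2 + c) + (d ^ 2 + d))
  · obtain ⟨d, hd, hs⟩ := h
    rw [shift_shift_f] at hs
    obtain ⟨w₁, w₂, -, -, -, hall, -, -, h1, h2, -⟩ := S.split_places hs
    rcases hall w hw with h | h
    · rw [h]; exact h1
    · rw [h]; exact h2
  · push Not at h
    obtain ⟨w', -, hall, -, h1⟩ := S.inert_places hf h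
    rw [hall w hw]
    exact h1

/-- The ramification index is one or two. -/
theorem over_index {v : DV K} (hp : v.Perf) {w : DV K'} (hw : Over w v) :
    (∀ a : K, w.ord (algebraMap K K' a) = v.ord a) ∨
    (∀ a : K, w.ord (algebraMap K K' a) = 2 * v.ord a) := by
  obtain ⟨c, hc | ⟨e, he, hc⟩⟩ := DV.reduce hp f
  · exact Or.inl (S.over_of_int hw hc)
  · exact Or.inr (S.over_of_odd hw he hc).1

/-- The residue field above is the same or quadratic. -/
theorem over_resCard {v : DV K} (hp : v.Perf) {w : DV K'} (hw : Over w v) :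
    w.resCard = v.resCard ∨ (w.resCard = v.resCard ^ 2 ∧ ∀ w' : DV K', Over w' v → w' = w) := by
  obtain ⟨c, hc | ⟨e, he, hc⟩⟩ := DV.reduce hp f
  · by_cases h : ∃ d : K, v.G 0 d ∧ v.G 1 (f + (c ^ 2 + c) + (d ^ 2 + d))
    · obtain ⟨d, hd, hs⟩ := h
      rw [shift_shift_f] at hs
      obtain ⟨w₁, w₂, -, -, -, hall, h1, h2, -⟩ := S.split_places hs
      rcases hall w hw with h | h
      · rw [h]; exact Or.inl h1
      · rw [h]; exact Or.inl h2
    · push Not at h
      obtain ⟨w', -, hall, h1, -⟩ := S.inert_places hc h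
      have h3 := hall w hw
      rw [h3]
      exact Or.inr ⟨h1, hall⟩
  · exact Or.inl (S.over_of_odd hw he hc).2.2.1

theorem resCard_ne_zero {v : DV K} (hv : v.resCard ≠ 0) {w : DV K'} (hw : Over w v) :
    w.resCard ≠ 0 := by
  rcases S.over_resCard (DV.perf_of_res hv) hw with h | h
  · rwa [h]
  · rw [h.1]; exact pow_ne_zero 2 hv

/-- At most two places above. -/
theorem card_over_le {v : DV K} (hp : v.Perf) (B : Finset (DV K')) (hB : ∀ w ∈ B, Over w v) :
    B.card ≤ 2 := by
  classical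
  obtain ⟨c, hc | ⟨e, he, hc⟩⟩ := DV.reduce hp f
  · by_cases h : ∃ d : K, v.G 0 d ∧ v.G 1 (f + (c ^ 2 + c) + (d ^ 2 + d))
    · obtain ⟨d, hd, hs⟩ := h
      rw [shift_shift_f] at hs
      obtain ⟨w₁, w₂, -, -, -, hall, -⟩ := S.split_places hs
      refine (Finset.card_le_card (t := {w₁, w₂}) fun w hw => ?_).trans Finset.card_le_two
      simpa using hall w (hB w hw)
    · push Not at h
      obtain ⟨w', -, hall, -, -⟩ := S.inert_places hc h
      refine (Finset.card_le_card (t := {w'}) fun w hw => ?_).trans (by simp)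
      simpa using hall w (hB w hw)
  · refine (Finset.card_le_card (t := {(S.shift c).ramDV he hc}) fun w hw => ?_).trans (by simp)
    simpa using (S.shift c).ramDV_unique he hc (hB w hw)

end AS

section degree

variable {k K K' : Type*} [Field k] [Finite k] [Field K] [Field K'] [Algebra k K] [Algebra k K']
  [Algebra K K'] [CharP K 2] {f : K} (S : AS K K' f)

theorem deg_of_eq {v : DV K} {w : DV K'} (h : w.resCard = v.resCard) : deg k w = deg k v := by
  unfold deg
  rw [h]

theorem deg_of_sq {v : DV K} {w : DV K'} (hv : v.resCard ≠ 0) (h : w.resCard = v.resCard ^ 2) :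
    deg k w = 2 * deg k v := by
  have h1 : w.resCard = Nat.card k ^ (2 * deg k v) := by
    rw [h, resCard_eq_pow k v hv, ← pow_mul, mul_comm]
  unfold deg
  rw [h1, Nat.log_pow (one_lt_card k)]
  rfl

include S in
/-- The fundamental inequality. -/
theorem AS.sum_deg_le {v : DV K} (hv : v.resCard ≠ 0) (B : Finset (DV K'))
    (hB : ∀ w ∈ B, Over w v) : ∑ w ∈ B, deg k w ≤ 2 * deg k v := by
  classical
  have hp := DV.perf_of_res hv
  by_cases h : ∃ w ∈ B, w.resCard = v.resCard ^ 2 ∧ ∀ w' : DV K', Over w' v → w' = w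
  · obtain ⟨w, hw, h1, h2⟩ := h
    have h3 : B = {w} := by
      ext w'
      rw [Finset.mem_singleton]
      exact ⟨fun h => h2 w' (hB w' h), fun h => by rw [h]; exact hw⟩
    rw [h3, Finset.sum_singleton, deg_of_sq (k := k) hv h1]
  · have h1 : ∀ w ∈ B, deg k w = deg k v := by
      intro w hw
      rcases S.over_resCard hp (hB w hw) with h2 | h2
      · exact deg_of_eq h2
      · exact absurd ⟨w, hw, h2⟩ h
    rw [Finset.sum_congr rfl h1, Finset.sum_const, smul_eq_mul]
    exact Nat.mul_le_mul_right _ (S.card_over_le hp B hB)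

end degree

end Pool.Agent.FF
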