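import Pool.Agent.FF.Final

/-!
# The arithmetic of the final step for `q = 4 ^ k`, `k` odd or `k ≡ 2 mod 4`

Three families per octave: `d ∈ {3, t, 3 t}` with `3 t = l + 1` (`k` odd) and
`d ∈ {5, t, 5 t}` with `5 t = l + 1` (`k ≡ 2 mod 4`).
-/

namespace FF

/-- one family, between its first genus and the first genus of the next one -/
theorem phi_ge {s lam c δ : ℝ} {d : ℕ} {m h y x : ℝ} (hlam : 0 < lam) (hδ : 0 ≤ δ)
    (hm : 0 ≤ m) (hc : 0 ≤ c) (hh : h = d * m)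
    (hA : c * (2 * h + (1 + δ) * m / lam) ≤ s * h)
    (hB : (c - lam) * y ≤ (s - 2 * lam) * h - m)
    (hC : c * y ≤ 2 * s * h)
    (h1 : 2 * h + (1 + δ) * m / lam ≤ x) (h2 : x ≤ y) :
    (1 + δ) * m ≤ (x - 2 * d * m) * lam ∧ c * x ≤ phi s lam d m x := by
  have e1 : (1 + δ) * m / lam * lam = (1 + δ) * m := by field_simp
  have e2 : 2 * (d : ℝ) * m = 2 * h := by rw [hh]; ring
  refine ⟨?_, ?_⟩
  · rw [e2]
    have := mul_le_mul_of_nonneg_right h1 hlam.le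
    nlinarith
  · unfold phi
    rw [e2, le_min_iff]
    have e3 : s * (d : ℝ) * m = s * h := by rw [hh]; ring
    have e4 : 2 * s * (d : ℝ) * m = 2 * s * h := by rw [hh]; ring
    rw [e3, e4]
    constructor
    · have g1 : c * (2 * h + (1 + δ) * m / lam) ≤
          (s * h - 2 * h * lam - m) + lam * (2 * h + (1 + δ) * m / lam) := by
        have e5 : lam * (2 * h + (1 + δ) * m / lam) = 2 * h * lam + (1 + δ) * m := by
          linear_combination e1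
        rw [e5]
        have : 0 ≤ δ * m := mul_nonneg hδ hm
        linarith
      have g2 : c * y ≤ (s * h - 2 * h * lam - m) + lam * y := by linarith
      have := affine_le h1 h2 g1 g2
      linarith
    · exact (mul_le_mul_of_nonneg_left h2 hc).trans hC

/-- three families per octave -/
theorem final_three (E : ℕ → ℝ → Prop) (mono : ∀ G x y, y ≤ x → E G x → E G y)
    (s lam c : ℝ) (hlam : 0 < lam) (hc : 0 ≤ c) (d1 d2 d3 e1 e2 e3 : ℕ) (m1 m2 m3 h1 h2 h3 C : ℝ)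
    (hm1 : m1 = 2 ^ e1) (hm2 : m2 = 2 ^ e2) (hm3 : m3 = 2 ^ e3)
    (hh1 : h1 = d1 * m1) (hh2 : h2 = d2 * m2) (hh3 : h3 = d3 * m3) (hd1 : 1 ≤ d1)
    (hCC : 2 * (2 * h1 + 2 * m1 / lam) ≤ C)
    (A1 : c * (2 * h1 + 2 * m1 / lam) ≤ s * h1)
    (A2 : c * (2 * h2 + 2 * m2 / lam) ≤ s * h2)
    (A3 : c * (2 * h3 + 2 * m3 / lam) ≤ s * h3)
    (B1 : (c - lam) * (2 * h2 + 2 * m2 / lam) ≤ (s - 2 * lam) * h1 - m1)
    (B2 : (c - lam) * (2 * h3 + 2 * m3 / lam) ≤ (s - 2 * lam) * h2 - m2)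
    (B3 : (c - lam) * (2 * (2 * h1 + 2 * m1 / lam)) ≤ (s - 2 * lam) * h3 - m3)
    (C1 : c * (2 * h2 + 2 * m2 / lam) ≤ 2 * s * h1)
    (C2 : c * (2 * h3 + 2 * m3 / lam) ≤ 2 * s * h2)
    (C3 : c * (2 * (2 * h1 + 2 * m1 / lam)) ≤ 2 * s * h3)
    (H : Covers E s lam C {d1, d2, d3}) :
    ∀ ε : ℝ, 0 < ε → ∃ G0 : ℕ, ∀ G : ℕ, G0 ≤ G → E G ((c - ε) * G) := by
  have p1 : 0 < m1 := by rw [hm1]; positivity
  have p2 : 0 < m2 := by rw [hm2]; positivity
  have p3 : 0 < m3 := by rw [hm3]; positivity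
  have q1 : 0 < h1 := by
    rw [hh1]
    have : (1 : ℝ) ≤ d1 := by exact_mod_cast hd1
    positivity
  have ha : 0 < 2 * h1 + 2 * m1 / lam := by positivity
  have hone : (1 : ℝ) + 1 = 2 := by norm_num
  have hC0 : 0 ≤ C := le_trans (by positivity) hCC
  apply final_general E mono s lam c (2 * h1 + 2 * m1 / lam) 1 C hlam ha one_pos {d1, d2, d3} _ H
  intro x hx1 hx2
  have hCx : ∀ e : ℕ, x ≤ C * 2 ^ e := by
    intro e
    have : (1 : ℝ) ≤ 2 ^ e := one_le_pow₀ (by norm_num)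
    calc x ≤ C := hx2.trans hCC
      _ = C * 1 := (mul_one C).symm
      _ ≤ C * 2 ^ e := mul_le_mul_of_nonneg_left this hC0
  rcases le_or_gt x (2 * h2 + 2 * m2 / lam) with k1 | k1
  · have := phi_ge (s := s) (lam := lam) (c := c) (δ := 1) (d := d1) (m := m1) (h := h1)
      (y := 2 * h2 + 2 * m2 / lam) (x := x) hlam zero_le_one p1.le hc hh1 (by rw [hone]; exact A1) B1
      C1 (by rw [hone]; exact hx1) k1
    rw [hm1] at this
    exact ⟨d1, by simp, e1, this.1, hCx e1, this.2⟩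
  rcases le_or_gt x (2 * h3 + 2 * m3 / lam) with k2 | k2
  · have := phi_ge (s := s) (lam := lam) (c := c) (δ := 1) (d := d2) (m := m2) (h := h2)
      (y := 2 * h3 + 2 * m3 / lam) (x := x) hlam zero_le_one p2.le hc hh2 (by rw [hone]; exact A2) B2
      C2 (by rw [hone]; exact k1.le) k2
    rw [hm2] at this
    exact ⟨d2, by simp, e2, this.1, hCx e2, this.2⟩
  · have := phi_ge (s := s) (lam := lam) (c := c) (δ := 1) (d := d3) (m := m3) (h := h3)
      (y := 2 * (2 * h1 + 2 * m1 / lam)) (x := x) hlam zero_le_one p3.le hc hh3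
      (by rw [hone]; exact A3) B3 C3 (by rw [hone]; exact k2.le) hx2
    rw [hm3] at this
    exact ⟨d3, by simp, e3, this.1, hCx e3, this.2⟩

/-- `q = 4 ^ k`, `k ≥ 5` odd: `l = 2 ^ k`, `l + 1 = 3 t`, `s = l - 1`, `lam = 2 k`:
the constant `3 s / 8 + lam / 4 - 3 / 5`. -/
theorem final_odd (E : ℕ → ℝ → Prop) (mono : ∀ G x y, y ≤ x → E G x → E G y)
    (s lam : ℝ) (k t : ℕ) (hk : 5 ≤ k) (ht : 2 ^ k + 1 = 3 * t) (hs : s = 2 ^ k - 1)
    (hlam : lam = 2 * k) (H : Covers E s lam (5 * 2 ^ k) {3 * t, t, 3}) :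
    ∀ ε : ℝ, 0 < ε → ∃ G0 : ℕ, ∀ G : ℕ, G0 ≤ G → E G ((3 / 8 * s + lam / 4 - 3 / 5 - ε) * G) := by
  have hkl : ∀ n : ℕ, 5 ≤ n → 6 * n + 1 ≤ 2 ^ n := by
    intro n hn
    induction n, hn using Nat.le_induction with
    | base => norm_num
    | succ n hn ih => rw [pow_succ]; omega
  obtain ⟨l, hl⟩ : ∃ l : ℝ, l = 2 ^ k := ⟨_, rfl⟩
  have hkR : (5 : ℝ) ≤ k := by exact_mod_cast hk
  have hl1 : 6 * (k : ℝ) + 1 ≤ l := by rw [hl]; exact_mod_cast hkl k hk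
  have hT : (t : ℝ) = (l + 1) / 3 := by
    have : (2 : ℝ) ^ k + 1 = 3 * t := by exact_mod_cast ht
    rw [hl]; linarith
  have hs' : s = l - 1 := by rw [hs, hl]
  have hlam10 : 10 ≤ lam := by rw [hlam]; linarith
  have h3lam : 3 * lam ≤ s := by rw [hs', hlam]; linarith
  have hlam0 : 0 < lam := by linarith
  have hl31 : 31 ≤ l := by linarith
  obtain ⟨μ, hμ⟩ : ∃ μ : ℝ, μ = 1 / lam := ⟨_, rfl⟩
  have hμ0 : 0 < μ := by rw [hμ]; positivity
  have hμ1 : μ ≤ 1 / 10 := by rw [hμ]; exact one_div_le_one_div_of_le (by norm_num) hlam10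
  have hhalf : l / 2 = 2 ^ (k - 1) := by
    obtain ⟨n, rfl⟩ : ∃ n, k = n + 1 := ⟨k - 1, by omega⟩
    rw [hl, pow_succ, Nat.add_sub_cancel]; ring
  have hdiv : ∀ z : ℝ, z / lam = z * μ := by intro z; rw [hμ]; ring
  have hc0 : 0 ≤ 3 / 8 * s + lam / 4 - 3 / 5 := by linarith
  have hc1 : 3 / 8 * s + lam / 4 - 3 / 5 ≤ 11 / 24 * s := by linarith
  have hsl : 0 ≤ s - 2 * lam := by linarith
  have hs0 : 0 ≤ s := by linarith
  have hsl2 : s - 2 * lam ≤ l := by linarith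
  have key : ∀ z w : ℝ, 0 ≤ z → 11 / 24 * z ≤ w →
      (3 / 8 * s + lam / 4 - 3 / 5) * z ≤ s * w := by
    intro z w hz hw
    calc (3 / 8 * s + lam / 4 - 3 / 5) * z ≤ 11 / 24 * s * z := mul_le_mul_of_nonneg_right hc1 hz
      _ = s * (11 / 24 * z) := by ring
      _ ≤ s * w := mul_le_mul_of_nonneg_left hw hs0
  have hlμ : l * μ ≤ l / 10 := by nlinarith
  have hlμ0 : 0 ≤ l * μ := by positivity
  have hb : (s - 2 * lam) * μ ≤ (s - 2 * lam) / 10 := by nlinarith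
  have hb0 : 0 ≤ (s - 2 * lam) * μ := mul_nonneg hsl hμ0.le
  have hbl : (s - 2 * lam) * (l * μ) ≤ (s - 2 * lam) * (l / 10) :=
    mul_le_mul_of_nonneg_left hlμ hsl
  have hbl0 : 0 ≤ (s - 2 * lam) * l := mul_nonneg hsl (by linarith)
  apply final_three E mono s lam _ hlam0 hc0 (3 * t) t 3 0 2 (k - 1) 1 4 (l / 2) (l + 1)
    (4 * (l + 1) / 3) (3 * l / 2) (5 * 2 ^ k) (by norm_num) (by norm_num) hhalf
    (by push_cast; rw [hT]; ring) (by rw [hT]; ring) (by push_cast; ring)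
    (by
      have : 1 ≤ 2 ^ k := Nat.one_le_two_pow
      omega)
  · rw [hdiv, ← hl]; linarith
  · rw [hdiv]; apply key <;> linarith
  · rw [hdiv]; apply key <;> linarith
  · rw [hdiv]; apply key <;> linarith
  · rw [hdiv]; nlinarith
  · rw [hdiv]; nlinarith
  · rw [hdiv]; nlinarith
  · rw [hdiv]
    have := key (2 * (4 * (l + 1) / 3) + 2 * 4 * μ) (2 * (l + 1)) (by positivity) (by linarith)
    linarith
  · rw [hdiv]
    have := key (2 * (3 * l / 2) + 2 * (l / 2) * μ) (2 * (4 * (l + 1) / 3)) (by positivity)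
      (by linarith)
    linarith
  · rw [hdiv]
    have := key (2 * (2 * (l + 1) + 2 * 1 * μ)) (2 * (3 * l / 2)) (by positivity) (by linarith)
    linarith
  · exact H

/-- `q = 4 ^ k`, `k ≥ 6`, `k ≡ 2 mod 4`: `l = 2 ^ k`, `l + 1 = 5 t`, `s = l - 1`, `lam = 2 k`:
the constant `25 s / 64 + 7 lam / 32 - 2 / 3`. -/
theorem final_two_mod_four (E : ℕ → ℝ → Prop) (mono : ∀ G x y, y ≤ x → E G x → E G y)
    (s lam : ℝ) (k t : ℕ) (hk : 6 ≤ k) (ht : 2 ^ k + 1 = 5 * t) (hs : s = 2 ^ k - 1)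
    (hlam : lam = 2 * k) (H : Covers E s lam (5 * 2 ^ k) {5 * t, 5, t}) :
    ∀ ε : ℝ, 0 < ε → ∃ G0 : ℕ, ∀ G : ℕ, G0 ≤ G →
      E G ((25 / 64 * s + 7 / 32 * lam - 2 / 3 - ε) * G) := by
  have hkl : ∀ n : ℕ, 6 ≤ n → 10 * n + 1 ≤ 2 ^ n := by
    intro n hn
    induction n, hn using Nat.le_induction with
    | base => norm_num
    | succ n hn ih => rw [pow_succ]; omega
  obtain ⟨l, hl⟩ : ∃ l : ℝ, l = 2 ^ k := ⟨_, rfl⟩
  have hkR : (6 : ℝ) ≤ k := by exact_mod_cast hk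
  have hl1 : 10 * (k : ℝ) + 1 ≤ l := by rw [hl]; exact_mod_cast hkl k hk
  have hT : (t : ℝ) = (l + 1) / 5 := by
    have : (2 : ℝ) ^ k + 1 = 5 * t := by exact_mod_cast ht
    rw [hl]; linarith
  have hs' : s = l - 1 := by rw [hs, hl]
  have hlam12 : 12 ≤ lam := by rw [hlam]; linarith
  have h5lam : 5 * lam ≤ s := by rw [hs', hlam]; linarith
  have hlam0 : 0 < lam := by linarith
  have hl61 : 61 ≤ l := by linarith
  obtain ⟨μ, hμ⟩ : ∃ μ : ℝ, μ = 1 / lam := ⟨_, rfl⟩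
  have hμ0 : 0 < μ := by rw [hμ]; positivity
  have hμ1 : μ ≤ 1 / 12 := by rw [hμ]; exact one_div_le_one_div_of_le (by norm_num) hlam12
  have hquart : l / 4 = 2 ^ (k - 2) := by
    obtain ⟨n, rfl⟩ : ∃ n, k = n + 2 := ⟨k - 2, by omega⟩
    rw [hl, pow_add, Nat.add_sub_cancel]; ring
  have hdiv : ∀ z : ℝ, z / lam = z * μ := by intro z; rw [hμ]; ring
  have hc0 : 0 ≤ 25 / 64 * s + 7 / 32 * lam - 2 / 3 := by linarith
  have hc1 : 25 / 64 * s + 7 / 32 * lam - 2 / 3 ≤ 139 / 320 * s := by linarith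
  have hsl : 0 ≤ s - 2 * lam := by linarith
  have hs0 : 0 ≤ s := by linarith
  have hsl2 : s - 2 * lam ≤ l := by linarith
  have key : ∀ z w : ℝ, 0 ≤ z → 139 / 320 * z ≤ w →
      (25 / 64 * s + 7 / 32 * lam - 2 / 3) * z ≤ s * w := by
    intro z w hz hw
    calc (25 / 64 * s + 7 / 32 * lam - 2 / 3) * z ≤ 139 / 320 * s * z :=
          mul_le_mul_of_nonneg_right hc1 hz
      _ = s * (139 / 320 * z) := by ring
      _ ≤ s * w := mul_le_mul_of_nonneg_left hw hs0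
  have hlμ : l * μ ≤ l / 12 := by nlinarith
  have hlμ0 : 0 ≤ l * μ := by positivity
  have hb : (s - 2 * lam) * μ ≤ (s - 2 * lam) / 12 := by nlinarith
  have hb0 : 0 ≤ (s - 2 * lam) * μ := mul_nonneg hsl hμ0.le
  have hbl : (s - 2 * lam) * (l * μ) ≤ (s - 2 * lam) * (l / 12) :=
    mul_le_mul_of_nonneg_left hlμ hsl
  have hbl0 : 0 ≤ (s - 2 * lam) * l := mul_nonneg hsl (by linarith)
  apply final_three E mono s lam _ hlam0 hc0 (5 * t) 5 t 0 (k - 2) 3 1 (l / 4) 8 (l + 1)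
    (5 * l / 4) (8 * (l + 1) / 5) (5 * 2 ^ k) (by norm_num) hquart (by norm_num)
    (by push_cast; rw [hT]; ring) (by push_cast; ring) (by rw [hT]; ring)
    (by
      have : 1 ≤ 2 ^ k := Nat.one_le_two_pow
      omega)
  · rw [hdiv, ← hl]; linarith
  · rw [hdiv]; apply key <;> linarith
  · rw [hdiv]; apply key <;> linarith
  · rw [hdiv]; apply key <;> linarith
  · rw [hdiv]; nlinarith
  · rw [hdiv]; nlinarith
  · rw [hdiv]; nlinarith
  · rw [hdiv]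
    have := key (2 * (5 * l / 4) + 2 * (l / 4) * μ) (2 * (l + 1)) (by positivity) (by linarith)
    linarith
  · rw [hdiv]
    have := key (2 * (8 * (l + 1) / 5) + 2 * 8 * μ) (2 * (5 * l / 4)) (by positivity)
      (by linarith)
    linarith
  · rw [hdiv]
    have := key (2 * (2 * (l + 1) + 2 * 1 * μ)) (2 * (8 * (l + 1) / 5)) (by positivity)
      (by linarith)
    linarith
  · exact H

end FF
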