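import Pool.Agent.FF.FinalE

/-!
# Numerical values with the Elias - Bassalygo bound and the quotient families
-/

namespace FF

/-- `q = 4` : `5 / 9` -/
theorem final_four_E (E : ℕ → ℝ → Prop) (mono : ∀ G x y, y ≤ x → E G x → E G y)
    (H : CoversE E 2 12 {((1, 1, 1), (57 / 143, 5124 / 6149)),
      ((3, 1, 3), (0, 1))}) :
    ∀ ε : ℝ, 0 < ε → ∃ G0 : ℕ, ∀ G : ℕ, G0 ≤ G → E G ((5 / 9 - ε) * G) := by
  apply final_generalE E mono 2 (5 / 9) (54 / 5) (1 / 1000) 12 (by norm_num) (by norm_num)
    (by norm_num) _ _ _ H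
  · intro p hp
    simp only [Set.mem_insert_iff, Set.mem_singleton_iff] at hp
    rcases hp with rfl | rfl <;> norm_num
  intro x hx1 hx2
  rcases le_or_gt x (14) with h0 | h0
  · refine ⟨((1, 1, 1), (57 / 143, 5124 / 6149)), by simp, 2, ?_, ?_, ?_⟩
    · norm_num; linarith
    · norm_num; linarith
    · unfold phiE
      rw [le_min_iff]
      constructor
      · norm_num; linarith
      · norm_num; linarith
  · refine ⟨((3, 1, 3), (0, 1)), by simp, 1, ?_, ?_, ?_⟩
    · norm_num; linarith
    · norm_num; linarith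
    · unfold phiE
      rw [le_min_iff]
      constructor
      · norm_num; linarith
      · norm_num; linarith

/-- `q = 16` : `1.87` -/
theorem final_sixteen_E (E : ℕ → ℝ → Prop) (mono : ∀ G x y, y ≤ x → E G x → E G y)
    (H : CoversE E 4 17 {((5 / 3, 1, 5), (4 / 9, 329 / 405)),
      ((1, 1, 3), (23 / 42, 16 / 21)),
      ((5, 1, 15), (0, 1)),
      ((1 / 3, 1 / 3, 1), (0, 1))}) :
    ∀ ε : ℝ, 0 < ε → ∃ G0 : ℕ, ∀ G : ℕ, G0 ≤ G → E G ((187 / 100 - ε) * G) := by
  apply final_generalE E mono 4 (187 / 100) (17 / 2) (1 / 1000) 17 (by norm_num) (by norm_num)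
    (by norm_num) _ _ _ H
  · intro p hp
    simp only [Set.mem_insert_iff, Set.mem_singleton_iff] at hp
    rcases hp with rfl | rfl | rfl | rfl <;> norm_num
  intro x hx1 hx2
  rcases le_or_gt x (139 / 13) with h0 | h0
  · refine ⟨((5 / 3, 1, 5), (4 / 9, 329 / 405)), by simp, 1, ?_, ?_, ?_⟩
    · norm_num; linarith
    · norm_num; linarith
    · unfold phiE
      rw [le_min_iff]
      constructor
      · norm_num; linarith
      · norm_num; linarith
  rcases le_or_gt x (25 / 2) with h1 | h1
  · refine ⟨((1, 1, 3), (23 / 42, 16 / 21)), by simp, 2, ?_, ?_, ?_⟩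
    · norm_num; linarith
    · norm_num; linarith
    · unfold phiE
      rw [le_min_iff]
      constructor
      · norm_num; linarith
      · norm_num; linarith
  rcases le_or_gt x (16) with h2 | h2
  · refine ⟨((5, 1, 15), (0, 1)), by simp, 0, ?_, ?_, ?_⟩
    · norm_num; linarith
    · norm_num; linarith
    · unfold phiE
      rw [le_min_iff]
      constructor
      · norm_num; linarith
      · norm_num; linarith
  · refine ⟨((1 / 3, 1 / 3, 1), (0, 1)), by simp, 4, ?_, ?_, ?_⟩
    · norm_num; linarith
    · norm_num; linarith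
    · unfold phiE
      rw [le_min_iff]
      constructor
      · norm_num; linarith
      · norm_num; linarith

/-- `q = 64` : `4.19` -/
theorem final_sixtyfour_E (E : ℕ → ℝ → Prop) (mono : ∀ G x y, y ≤ x → E G x → E G y)
    (H : CoversE E 6 31 {((3, 1, 21), (3 / 8, 27 / 32)),
      ((3 / 7, 3 / 7, 3), (38 / 59, 880 / 1239)),
      ((9, 1, 63), (8 / 25, 369 / 425)),
      ((9 / 7, 1, 9), (25 / 48, 215 / 276))}) :
    ∀ ε : ℝ, 0 < ε → ∃ G0 : ℕ, ∀ G : ℕ, G0 ≤ G → E G ((419 / 100 - ε) * G) := by
  apply final_generalE E mono 6 (419 / 100) (16) (1 / 1000) 31 (by norm_num) (by norm_num)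
    (by norm_num) _ _ _ H
  · intro p hp
    simp only [Set.mem_insert_iff, Set.mem_singleton_iff] at hp
    rcases hp with rfl | rfl | rfl | rfl <;> norm_num
  intro x hx1 hx2
  rcases le_or_gt x (421 / 21) with h0 | h0
  · refine ⟨((3, 1, 21), (3 / 8, 27 / 32)), by simp, 1, ?_, ?_, ?_⟩
    · norm_num; linarith
    · norm_num; linarith
    · unfold phiE
      rw [le_min_iff]
      constructor
      · norm_num; linarith
      · norm_num; linarith
  rcases le_or_gt x (229 / 10) with h1 | h1
  · refine ⟨((3 / 7, 3 / 7, 3), (38 / 59, 880 / 1239)), by simp, 4, ?_, ?_, ?_⟩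
    · norm_num; linarith
    · norm_num; linarith
    · unfold phiE
      rw [le_min_iff]
      constructor
      · norm_num; linarith
      · norm_num; linarith
  rcases le_or_gt x (30) with h2 | h2
  · refine ⟨((9, 1, 63), (8 / 25, 369 / 425)), by simp, 0, ?_, ?_, ?_⟩
    · norm_num; linarith
    · norm_num; linarith
    · unfold phiE
      rw [le_min_iff]
      constructor
      · norm_num; linarith
      · norm_num; linarith
  · refine ⟨((9 / 7, 1, 9), (25 / 48, 215 / 276)), by simp, 3, ?_, ?_, ?_⟩
    · norm_num; linarith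
    · norm_num; linarith
    · unfold phiE
      rw [le_min_iff]
      constructor
      · norm_num; linarith
      · norm_num; linarith

/-- `q = 256` : `8` -/
theorem final_twofiftysix_E (E : ℕ → ℝ → Prop) (mono : ∀ G x y, y ≤ x → E G x → E G y)
    (H : CoversE E 8 60 {((17 / 3, 1, 85), (4 / 9, 329 / 405)),
      ((17 / 3, 1, 85), (5 / 9, 245 / 324)),
      ((17 / 5, 1, 51), (3 / 8, 27 / 32)),
      ((17 / 5, 1, 51), (4 / 9, 329 / 405)),
      ((17 / 5, 1, 51), (8 / 15, 27 / 35)),
      ((17, 1, 255), (2 / 7, 99 / 112)),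
      ((17, 1, 255), (3 / 8, 27 / 32)),
      ((17, 1, 255), (23 / 42, 16 / 21)),
      ((17, 1, 255), (24 / 35, 24 / 35)),
      ((17 / 3, 1, 85), (16 / 53, 1720 / 1961)),
      ((17 / 3, 1, 85), (7 / 20, 100 / 117))}) :
    ∀ ε : ℝ, 0 < ε → ∃ G0 : ℕ, ∀ G : ℕ, G0 ≤ G → E G ((8 - ε) * G) := by
  apply final_generalE E mono 8 (8) (65 / 2) (1 / 1000) 60 (by norm_num) (by norm_num)
    (by norm_num) _ _ _ H
  · intro p hp
    simp only [Set.mem_insert_iff, Set.mem_singleton_iff] at hp
    rcases hp with rfl | rfl | rfl | rfl | rfl | rfl | rfl | rfl | rfl | rfl | rfl <;> norm_num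
  intro x hx1 hx2
  rcases le_or_gt x (35) with h0 | h0
  · refine ⟨((17 / 3, 1, 85), (4 / 9, 329 / 405)), by simp, 1, ?_, ?_, ?_⟩
    · norm_num; linarith
    · norm_num; linarith
    · unfold phiE
      rw [le_min_iff]
      constructor
      · norm_num; linarith
      · norm_num; linarith
  rcases le_or_gt x (261 / 7) with h1 | h1
  · refine ⟨((17 / 3, 1, 85), (5 / 9, 245 / 324)), by simp, 1, ?_, ?_, ?_⟩
    · norm_num; linarith
    · norm_num; linarith
    · unfold phiE
      rw [le_min_iff]
      constructor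
      · norm_num; linarith
      · norm_num; linarith
  rcases le_or_gt x (352 / 9) with h2 | h2
  · refine ⟨((17 / 5, 1, 51), (3 / 8, 27 / 32)), by simp, 2, ?_, ?_, ?_⟩
    · norm_num; linarith
    · norm_num; linarith
    · unfold phiE
      rw [le_min_iff]
      constructor
      · norm_num; linarith
      · norm_num; linarith
  rcases le_or_gt x (124 / 3) with h3 | h3
  · refine ⟨((17 / 5, 1, 51), (4 / 9, 329 / 405)), by simp, 2, ?_, ?_, ?_⟩
    · norm_num; linarith
    · norm_num; linarith
    · unfold phiE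
      rw [le_min_iff]
      constructor
      · norm_num; linarith
      · norm_num; linarith
  rcases le_or_gt x (87 / 2) with h4 | h4
  · refine ⟨((17 / 5, 1, 51), (8 / 15, 27 / 35)), by simp, 2, ?_, ?_, ?_⟩
    · norm_num; linarith
    · norm_num; linarith
    · unfold phiE
      rw [le_min_iff]
      constructor
      · norm_num; linarith
      · norm_num; linarith
  rcases le_or_gt x (93 / 2) with h5 | h5
  · refine ⟨((17, 1, 255), (2 / 7, 99 / 112)), by simp, 0, ?_, ?_, ?_⟩
    · norm_num; linarith
    · norm_num; linarith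
    · unfold phiE
      rw [le_min_iff]
      constructor
      · norm_num; linarith
      · norm_num; linarith
  rcases le_or_gt x (258 / 5) with h6 | h6
  · refine ⟨((17, 1, 255), (3 / 8, 27 / 32)), by simp, 0, ?_, ?_, ?_⟩
    · norm_num; linarith
    · norm_num; linarith
    · unfold phiE
      rw [le_min_iff]
      constructor
      · norm_num; linarith
      · norm_num; linarith
  rcases le_or_gt x (56) with h7 | h7
  · refine ⟨((17, 1, 255), (23 / 42, 16 / 21)), by simp, 0, ?_, ?_, ?_⟩
    · norm_num; linarith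
    · norm_num; linarith
    · unfold phiE
      rw [le_min_iff]
      constructor
      · norm_num; linarith
      · norm_num; linarith
  rcases le_or_gt x (176 / 3) with h8 | h8
  · refine ⟨((17, 1, 255), (24 / 35, 24 / 35)), by simp, 0, ?_, ?_, ?_⟩
    · norm_num; linarith
    · norm_num; linarith
    · unfold phiE
      rw [le_min_iff]
      constructor
      · norm_num; linarith
      · norm_num; linarith
  rcases le_or_gt x (61) with h9 | h9
  · refine ⟨((17 / 3, 1, 85), (16 / 53, 1720 / 1961)), by simp, 2, ?_, ?_, ?_⟩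
    · norm_num; linarith
    · norm_num; linarith
    · unfold phiE
      rw [le_min_iff]
      constructor
      · norm_num; linarith
      · norm_num; linarith
  · refine ⟨((17 / 3, 1, 85), (7 / 20, 100 / 117)), by simp, 2, ?_, ?_, ?_⟩
    · norm_num; linarith
    · norm_num; linarith
    · unfold phiE
      rw [le_min_iff]
      constructor
      · norm_num; linarith
      · norm_num; linarith

end FF
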