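import Pool.Agent.FF.FinalE

/-!
# Numerical values with the Elias - Bassalygo and linear programming bounds, quotient families
-/

namespace FF

/-- `q = 4` : `14 / 25` -/
theorem final_q4 (E : ℕ → ℝ → Prop) (mono : ∀ G x y, y ≤ x → E G x → E G y)
    (H : CoversE E 2 12 {((1, 1, 1), (8 / 23, 7 / 9)),
      ((3, 1, 3), (0, 1))}) :
    ∀ ε : ℝ, 0 < ε → ∃ G0 : ℕ, ∀ G : ℕ, G0 ≤ G → E G ((14 / 25 - ε) * G) := by
  apply final_generalE E mono 2 (14 / 25) (75 / 7) (1 / 1000) 12 (by norm_num) (by norm_num)
    (by norm_num) _ _ _ H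
  · intro p hp
    simp only [Set.mem_insert_iff, Set.mem_singleton_iff] at hp
    rcases hp with rfl | rfl <;> norm_num
  intro x hx1 hx2
  rcases le_or_gt x (14) with h0 | h0
  · refine ⟨((1, 1, 1), (8 / 23, 7 / 9)),
      Set.mem_insert _ _, 2, ?_, ?_, ?_⟩
    · norm_num; linarith
    · norm_num; linarith
    · unfold phiE
      rw [le_min_iff]
      constructor
      · norm_num; linarith
      · norm_num; linarith
  · refine ⟨((3, 1, 3), (0, 1)),
      Set.mem_insert_of_mem _ (Set.mem_singleton _), 1, ?_, ?_, ?_⟩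
    · norm_num; linarith
    · norm_num; linarith
    · unfold phiE
      rw [le_min_iff]
      constructor
      · norm_num; linarith
      · norm_num; linarith

/-- `q = 16` : `15 / 8` -/
theorem final_q16 (E : ℕ → ℝ → Prop) (mono : ∀ G x y, y ≤ x → E G x → E G y)
    (H : CoversE E 4 17 {((5 / 3, 1, 5), (13 / 35, 17 / 22)),
      ((1, 1, 3), (6 / 11, 3 / 4)),
      ((5, 1, 15), (0, 1)),
      ((1 / 3, 1 / 3, 1), (0, 1))}) :
    ∀ ε : ℝ, 0 < ε → ∃ G0 : ℕ, ∀ G : ℕ, G0 ≤ G → E G ((15 / 8 - ε) * G) := by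
  apply final_generalE E mono 4 (15 / 8) (17 / 2) (1 / 1000) 17 (by norm_num) (by norm_num)
    (by norm_num) _ _ _ H
  · intro p hp
    simp only [Set.mem_insert_iff, Set.mem_singleton_iff] at hp
    rcases hp with rfl | rfl | rfl | rfl <;> norm_num
  intro x hx1 hx2
  rcases le_or_gt x (32 / 3) with h0 | h0
  · refine ⟨((5 / 3, 1, 5), (13 / 35, 17 / 22)),
      Set.mem_insert _ _, 1, ?_, ?_, ?_⟩
    · norm_num; linarith
    · norm_num; linarith
    · unfold phiE
      rw [le_min_iff]
      constructor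
      · norm_num; linarith
      · norm_num; linarith
  rcases le_or_gt x (25 / 2) with h1 | h1
  · refine ⟨((1, 1, 3), (6 / 11, 3 / 4)),
      Set.mem_insert_of_mem _ (Set.mem_insert _ _), 2, ?_, ?_, ?_⟩
    · norm_num; linarith
    · norm_num; linarith
    · unfold phiE
      rw [le_min_iff]
      constructor
      · norm_num; linarith
      · norm_num; linarith
  rcases le_or_gt x (16) with h2 | h2
  · refine ⟨((5, 1, 15), (0, 1)),
      Set.mem_insert_of_mem _ (Set.mem_insert_of_mem _ (Set.mem_insert _ _)), 0, ?_, ?_, ?_⟩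
    · norm_num; linarith
    · norm_num; linarith
    · unfold phiE
      rw [le_min_iff]
      constructor
      · norm_num; linarith
      · norm_num; linarith
  · refine ⟨((1 / 3, 1 / 3, 1), (0, 1)),
      Set.mem_insert_of_mem _ (Set.mem_insert_of_mem _ (Set.mem_insert_of_mem _ (Set.mem_singleton _))), 4, ?_, ?_, ?_⟩
    · norm_num; linarith
    · norm_num; linarith
    · unfold phiE
      rw [le_min_iff]
      constructor
      · norm_num; linarith
      · norm_num; linarith

/-- `q = 64` : `4.19` -/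
theorem final_q64 (E : ℕ → ℝ → Prop) (mono : ∀ G x y, y ≤ x → E G x → E G y)
    (H : CoversE E 6 31 {((9, 1, 63), (13 / 64, 14 / 17)),
      ((3, 1, 21), (1 / 4, 29 / 36)),
      ((3 / 7, 3 / 7, 3), (38 / 59, 880 / 1239))}) :
    ∀ ε : ℝ, 0 < ε → ∃ G0 : ℕ, ∀ G : ℕ, G0 ≤ G → E G ((419 / 100 - ε) * G) := by
  apply final_generalE E mono 6 (419 / 100) (21) (1 / 1000) 31 (by norm_num) (by norm_num)
    (by norm_num) _ _ _ H
  · intro p hp
    simp only [Set.mem_insert_iff, Set.mem_singleton_iff] at hp
    rcases hp with rfl | rfl | rfl <;> norm_num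
  intro x hx1 hx2
  rcases le_or_gt x (30) with h0 | h0
  · refine ⟨((9, 1, 63), (13 / 64, 14 / 17)),
      Set.mem_insert _ _, 0, ?_, ?_, ?_⟩
    · norm_num; linarith
    · norm_num; linarith
    · unfold phiE
      rw [le_min_iff]
      constructor
      · norm_num; linarith
      · norm_num; linarith
  rcases le_or_gt x (441 / 11) with h1 | h1
  · refine ⟨((3, 1, 21), (1 / 4, 29 / 36)),
      Set.mem_insert_of_mem _ (Set.mem_insert _ _), 2, ?_, ?_, ?_⟩
    · norm_num; linarith
    · norm_num; linarith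
    · unfold phiE
      rw [le_min_iff]
      constructor
      · norm_num; linarith
      · norm_num; linarith
  · refine ⟨((3 / 7, 3 / 7, 3), (38 / 59, 880 / 1239)),
      Set.mem_insert_of_mem _ (Set.mem_insert_of_mem _ (Set.mem_singleton _)), 5, ?_, ?_, ?_⟩
    · norm_num; linarith
    · norm_num; linarith
    · unfold phiE
      rw [le_min_iff]
      constructor
      · norm_num; linarith
      · norm_num; linarith

/-- `q = 256` : `33 / 4` -/
theorem final_q256 (E : ℕ → ℝ → Prop) (mono : ∀ G x y, y ≤ x → E G x → E G y)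
    (H : CoversE E 8 51 {((17 / 5, 1, 51), (19 / 90, 58 / 71)),
      ((17 / 5, 1, 51), (23 / 81, 23 / 29)),
      ((17, 1, 255), (8 / 93, 74 / 85)),
      ((17, 1, 255), (14 / 95, 68 / 81)),
      ((17, 1, 255), (23 / 81, 23 / 29)),
      ((17, 1, 255), (12 / 31, 44 / 57)),
      ((17, 1, 255), (43 / 95, 10 / 13)),
      ((17 / 3, 1, 85), (8 / 93, 74 / 85)),
      ((17 / 3, 1, 85), (8 / 75, 58 / 67)),
      ((17 / 3, 1, 85), (4 / 33, 25 / 29)),
      ((17 / 3, 1, 85), (14 / 95, 68 / 81)),
      ((17 / 3, 1, 85), (1 / 4, 29 / 36)),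
      ((17 / 3, 1, 85), (32 / 91, 46 / 59)),
      ((17 / 5, 1, 51), (7 / 44, 31 / 37))}) :
    ∀ ε : ℝ, 0 < ε → ∃ G0 : ℕ, ∀ G : ℕ, G0 ≤ G → E G ((33 / 4 - ε) * G) := by
  apply final_generalE E mono 8 (33 / 4) (166 / 5) (1 / 1000) 51 (by norm_num) (by norm_num)
    (by norm_num) _ _ _ H
  · intro p hp
    simp only [Set.mem_insert_iff, Set.mem_singleton_iff] at hp
    rcases hp with rfl | rfl | rfl | rfl | rfl | rfl | rfl | rfl | rfl | rfl | rfl | rfl | rfl | rfl <;> norm_num
  intro x hx1 hx2
  rcases le_or_gt x (35) with h0 | h0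
  · refine ⟨((17 / 5, 1, 51), (19 / 90, 58 / 71)),
      Set.mem_insert _ _, 2, ?_, ?_, ?_⟩
    · norm_num; linarith
    · norm_num; linarith
    · unfold phiE
      rw [le_min_iff]
      constructor
      · norm_num; linarith
      · norm_num; linarith
  rcases le_or_gt x (295 / 8) with h1 | h1
  · refine ⟨((17 / 5, 1, 51), (23 / 81, 23 / 29)),
      Set.mem_insert_of_mem _ (Set.mem_insert _ _), 2, ?_, ?_, ?_⟩
    · norm_num; linarith
    · norm_num; linarith
    · unfold phiE
      rw [le_min_iff]
      constructor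
      · norm_num; linarith
      · norm_num; linarith
  rcases le_or_gt x (39) with h2 | h2
  · refine ⟨((17, 1, 255), (8 / 93, 74 / 85)),
      Set.mem_insert_of_mem _ (Set.mem_insert_of_mem _ (Set.mem_insert _ _)), 0, ?_, ?_, ?_⟩
    · norm_num; linarith
    · norm_num; linarith
    · unfold phiE
      rw [le_min_iff]
      constructor
      · norm_num; linarith
      · norm_num; linarith
  rcases le_or_gt x (87 / 2) with h3 | h3
  · refine ⟨((17, 1, 255), (14 / 95, 68 / 81)),
      Set.mem_insert_of_mem _ (Set.mem_insert_of_mem _ (Set.mem_insert_of_mem _ (Set.mem_insert _ _))), 0, ?_, ?_, ?_⟩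
    · norm_num; linarith
    · norm_num; linarith
    · unfold phiE
      rw [le_min_iff]
      constructor
      · norm_num; linarith
      · norm_num; linarith
  rcases le_or_gt x (47) with h4 | h4
  · refine ⟨((17, 1, 255), (23 / 81, 23 / 29)),
      Set.mem_insert_of_mem _ (Set.mem_insert_of_mem _ (Set.mem_insert_of_mem _ (Set.mem_insert_of_mem _ (Set.mem_insert _ _)))), 0, ?_, ?_, ?_⟩
    · norm_num; linarith
    · norm_num; linarith
    · unfold phiE
      rw [le_min_iff]
      constructor
      · norm_num; linarith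
      · norm_num; linarith
  rcases le_or_gt x (49) with h5 | h5
  · refine ⟨((17, 1, 255), (12 / 31, 44 / 57)),
      Set.mem_insert_of_mem _ (Set.mem_insert_of_mem _ (Set.mem_insert_of_mem _ (Set.mem_insert_of_mem _ (Set.mem_insert_of_mem _ (Set.mem_insert _ _))))), 0, ?_, ?_, ?_⟩
    · norm_num; linarith
    · norm_num; linarith
    · unfold phiE
      rw [le_min_iff]
      constructor
      · norm_num; linarith
      · norm_num; linarith
  rcases le_or_gt x (99 / 2) with h6 | h6
  · refine ⟨((17, 1, 255), (43 / 95, 10 / 13)),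
      Set.mem_insert_of_mem _ (Set.mem_insert_of_mem _ (Set.mem_insert_of_mem _ (Set.mem_insert_of_mem _ (Set.mem_insert_of_mem _ (Set.mem_insert_of_mem _ (Set.mem_insert _ _)))))), 0, ?_, ?_, ?_⟩
    · norm_num; linarith
    · norm_num; linarith
    · unfold phiE
      rw [le_min_iff]
      constructor
      · norm_num; linarith
      · norm_num; linarith
  rcases le_or_gt x (252 / 5) with h7 | h7
  · refine ⟨((17 / 3, 1, 85), (8 / 93, 74 / 85)),
      Set.mem_insert_of_mem _ (Set.mem_insert_of_mem _ (Set.mem_insert_of_mem _ (Set.mem_insert_of_mem _ (Set.mem_insert_of_mem _ (Set.mem_insert_of_mem _ (Set.mem_insert_of_mem _ (Set.mem_insert _ _))))))), 2, ?_, ?_, ?_⟩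
    · norm_num; linarith
    · norm_num; linarith
    · unfold phiE
      rw [le_min_iff]
      constructor
      · norm_num; linarith
      · norm_num; linarith
  rcases le_or_gt x (51) with h8 | h8
  · refine ⟨((17 / 3, 1, 85), (8 / 75, 58 / 67)),
      Set.mem_insert_of_mem _ (Set.mem_insert_of_mem _ (Set.mem_insert_of_mem _ (Set.mem_insert_of_mem _ (Set.mem_insert_of_mem _ (Set.mem_insert_of_mem _ (Set.mem_insert_of_mem _ (Set.mem_insert_of_mem _ (Set.mem_insert _ _)))))))), 2, ?_, ?_, ?_⟩
    · norm_num; linarith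
    · norm_num; linarith
    · unfold phiE
      rw [le_min_iff]
      constructor
      · norm_num; linarith
      · norm_num; linarith
  rcases le_or_gt x (209 / 4) with h9 | h9
  · refine ⟨((17 / 3, 1, 85), (4 / 33, 25 / 29)),
      Set.mem_insert_of_mem _ (Set.mem_insert_of_mem _ (Set.mem_insert_of_mem _ (Set.mem_insert_of_mem _ (Set.mem_insert_of_mem _ (Set.mem_insert_of_mem _ (Set.mem_insert_of_mem _ (Set.mem_insert_of_mem _ (Set.mem_insert_of_mem _ (Set.mem_insert _ _))))))))), 2, ?_, ?_, ?_⟩
    · norm_num; linarith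
    · norm_num; linarith
    · unfold phiE
      rw [le_min_iff]
      constructor
      · norm_num; linarith
      · norm_num; linarith
  rcases le_or_gt x (113 / 2) with h10 | h10
  · refine ⟨((17 / 3, 1, 85), (14 / 95, 68 / 81)),
      Set.mem_insert_of_mem _ (Set.mem_insert_of_mem _ (Set.mem_insert_of_mem _ (Set.mem_insert_of_mem _ (Set.mem_insert_of_mem _ (Set.mem_insert_of_mem _ (Set.mem_insert_of_mem _ (Set.mem_insert_of_mem _ (Set.mem_insert_of_mem _ (Set.mem_insert_of_mem _ (Set.mem_insert _ _)))))))))), 2, ?_, ?_, ?_⟩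
    · norm_num; linarith
    · norm_num; linarith
    · unfold phiE
      rw [le_min_iff]
      constructor
      · norm_num; linarith
      · norm_num; linarith
  rcases le_or_gt x (61) with h11 | h11
  · refine ⟨((17 / 3, 1, 85), (1 / 4, 29 / 36)),
      Set.mem_insert_of_mem _ (Set.mem_insert_of_mem _ (Set.mem_insert_of_mem _ (Set.mem_insert_of_mem _ (Set.mem_insert_of_mem _ (Set.mem_insert_of_mem _ (Set.mem_insert_of_mem _ (Set.mem_insert_of_mem _ (Set.mem_insert_of_mem _ (Set.mem_insert_of_mem _ (Set.mem_insert_of_mem _ (Set.mem_insert _ _))))))))))), 2, ?_, ?_, ?_⟩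
    · norm_num; linarith
    · norm_num; linarith
    · unfold phiE
      rw [le_min_iff]
      constructor
      · norm_num; linarith
      · norm_num; linarith
  rcases le_or_gt x (64) with h12 | h12
  · refine ⟨((17 / 3, 1, 85), (32 / 91, 46 / 59)),
      Set.mem_insert_of_mem _ (Set.mem_insert_of_mem _ (Set.mem_insert_of_mem _ (Set.mem_insert_of_mem _ (Set.mem_insert_of_mem _ (Set.mem_insert_of_mem _ (Set.mem_insert_of_mem _ (Set.mem_insert_of_mem _ (Set.mem_insert_of_mem _ (Set.mem_insert_of_mem _ (Set.mem_insert_of_mem _ (Set.mem_insert_of_mem _ (Set.mem_insert _ _)))))))))))), 2, ?_, ?_, ?_⟩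
    · norm_num; linarith
    · norm_num; linarith
    · unfold phiE
      rw [le_min_iff]
      constructor
      · norm_num; linarith
      · norm_num; linarith
  · refine ⟨((17 / 5, 1, 51), (7 / 44, 31 / 37)),
      Set.mem_insert_of_mem _ (Set.mem_insert_of_mem _ (Set.mem_insert_of_mem _ (Set.mem_insert_of_mem _ (Set.mem_insert_of_mem _ (Set.mem_insert_of_mem _ (Set.mem_insert_of_mem _ (Set.mem_insert_of_mem _ (Set.mem_insert_of_mem _ (Set.mem_insert_of_mem _ (Set.mem_insert_of_mem _ (Set.mem_insert_of_mem _ (Set.mem_insert_of_mem _ (Set.mem_singleton _))))))))))))), 3, ?_, ?_, ?_⟩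
    · norm_num; linarith
    · norm_num; linarith
    · unfold phiE
      rw [le_min_iff]
      constructor
      · norm_num; linarith
      · norm_num; linarith

/-- `q = 1024` : `31 / 2` -/
theorem final_q1024 (E : ℕ → ℝ → Prop) (mono : ∀ G x y, y ≤ x → E G x → E G y)
    (H : CoversE E 10 91 {((3, 1, 93), (613 / 3000, 278 / 341)),
      ((3, 1, 93), (343 / 1500, 934 / 1157)),
      ((3, 1, 93), (709 / 3000, 1844 / 2291)),
      ((33, 1, 1023), (13 / 3000, 2892 / 2987)),
      ((33, 1, 1023), (19 / 375, 1275 / 1424)),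
      ((33, 1, 1023), (469 / 3000, 2108 / 2531)),
      ((11, 1, 341), (1 / 125, 1423 / 1488)),
      ((11, 1, 341), (13 / 200, 826 / 935)),
      ((3, 1, 93), (11 / 120, 2356 / 2725)),
      ((3, 1, 93), (517 / 3000, 2052 / 2483))}) :
    ∀ ε : ℝ, 0 < ε → ∃ G0 : ℕ, ∀ G : ℕ, G0 ≤ G → E G ((31 / 2 - ε) * G) := by
  apply final_generalE E mono 10 (31 / 2) (129 / 2) (1 / 1000) 91 (by norm_num) (by norm_num)
    (by norm_num) _ _ _ H
  · intro p hp
    simp only [Set.mem_insert_iff, Set.mem_singleton_iff] at hp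
    rcases hp with rfl | rfl | rfl | rfl | rfl | rfl | rfl | rfl | rfl | rfl <;> norm_num
  intro x hx1 hx2
  rcases le_or_gt x (724 / 11) with h0 | h0
  · refine ⟨((3, 1, 93), (613 / 3000, 278 / 341)),
      Set.mem_insert _ _, 3, ?_, ?_, ?_⟩
    · norm_num; linarith
    · norm_num; linarith
    · unfold phiE
      rw [le_min_iff]
      constructor
      · norm_num; linarith
      · norm_num; linarith
  rcases le_or_gt x (332 / 5) with h1 | h1
  · refine ⟨((3, 1, 93), (343 / 1500, 934 / 1157)),
      Set.mem_insert_of_mem _ (Set.mem_insert _ _), 3, ?_, ?_, ?_⟩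
    · norm_num; linarith
    · norm_num; linarith
    · unfold phiE
      rw [le_min_iff]
      constructor
      · norm_num; linarith
      · norm_num; linarith
  rcases le_or_gt x (333 / 5) with h2 | h2
  · refine ⟨((3, 1, 93), (709 / 3000, 1844 / 2291)),
      Set.mem_insert_of_mem _ (Set.mem_insert_of_mem _ (Set.mem_insert _ _)), 3, ?_, ?_, ?_⟩
    · norm_num; linarith
    · norm_num; linarith
    · unfold phiE
      rw [le_min_iff]
      constructor
      · norm_num; linarith
      · norm_num; linarith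
  rcases le_or_gt x (214 / 3) with h3 | h3
  · refine ⟨((33, 1, 1023), (13 / 3000, 2892 / 2987)),
      Set.mem_insert_of_mem _ (Set.mem_insert_of_mem _ (Set.mem_insert_of_mem _ (Set.mem_insert _ _))), 0, ?_, ?_, ?_⟩
    · norm_num; linarith
    · norm_num; linarith
    · unfold phiE
      rw [le_min_iff]
      constructor
      · norm_num; linarith
      · norm_num; linarith
  rcases le_or_gt x (411 / 5) with h4 | h4
  · refine ⟨((33, 1, 1023), (19 / 375, 1275 / 1424)),
      Set.mem_insert_of_mem _ (Set.mem_insert_of_mem _ (Set.mem_insert_of_mem _ (Set.mem_insert_of_mem _ (Set.mem_insert _ _)))), 0, ?_, ?_, ?_⟩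
    · norm_num; linarith
    · norm_num; linarith
    · unfold phiE
      rw [le_min_iff]
      constructor
      · norm_num; linarith
      · norm_num; linarith
  rcases le_or_gt x (179 / 2) with h5 | h5
  · refine ⟨((33, 1, 1023), (469 / 3000, 2108 / 2531)),
      Set.mem_insert_of_mem _ (Set.mem_insert_of_mem _ (Set.mem_insert_of_mem _ (Set.mem_insert_of_mem _ (Set.mem_insert_of_mem _ (Set.mem_insert _ _))))), 0, ?_, ?_, ?_⟩
    · norm_num; linarith
    · norm_num; linarith
    · unfold phiE
      rw [le_min_iff]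
      constructor
      · norm_num; linarith
      · norm_num; linarith
  rcases le_or_gt x (292 / 3) with h6 | h6
  · refine ⟨((11, 1, 341), (1 / 125, 1423 / 1488)),
      Set.mem_insert_of_mem _ (Set.mem_insert_of_mem _ (Set.mem_insert_of_mem _ (Set.mem_insert_of_mem _ (Set.mem_insert_of_mem _ (Set.mem_insert_of_mem _ (Set.mem_insert _ _)))))), 2, ?_, ?_, ?_⟩
    · norm_num; linarith
    · norm_num; linarith
    · unfold phiE
      rw [le_min_iff]
      constructor
      · norm_num; linarith
      · norm_num; linarith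
  rcases le_or_gt x (445 / 4) with h7 | h7
  · refine ⟨((11, 1, 341), (13 / 200, 826 / 935)),
      Set.mem_insert_of_mem _ (Set.mem_insert_of_mem _ (Set.mem_insert_of_mem _ (Set.mem_insert_of_mem _ (Set.mem_insert_of_mem _ (Set.mem_insert_of_mem _ (Set.mem_insert_of_mem _ (Set.mem_insert _ _))))))), 2, ?_, ?_, ?_⟩
    · norm_num; linarith
    · norm_num; linarith
    · unfold phiE
      rw [le_min_iff]
      constructor
      · norm_num; linarith
      · norm_num; linarith
  rcases le_or_gt x (370 / 3) with h8 | h8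
  · refine ⟨((3, 1, 93), (11 / 120, 2356 / 2725)),
      Set.mem_insert_of_mem _ (Set.mem_insert_of_mem _ (Set.mem_insert_of_mem _ (Set.mem_insert_of_mem _ (Set.mem_insert_of_mem _ (Set.mem_insert_of_mem _ (Set.mem_insert_of_mem _ (Set.mem_insert_of_mem _ (Set.mem_insert _ _)))))))), 4, ?_, ?_, ?_⟩
    · norm_num; linarith
    · norm_num; linarith
    · unfold phiE
      rw [le_min_iff]
      constructor
      · norm_num; linarith
      · norm_num; linarith
  · refine ⟨((3, 1, 93), (517 / 3000, 2052 / 2483)),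
      Set.mem_insert_of_mem _ (Set.mem_insert_of_mem _ (Set.mem_insert_of_mem _ (Set.mem_insert_of_mem _ (Set.mem_insert_of_mem _ (Set.mem_insert_of_mem _ (Set.mem_insert_of_mem _ (Set.mem_insert_of_mem _ (Set.mem_insert_of_mem _ (Set.mem_singleton _))))))))), 4, ?_, ?_, ?_⟩
    · norm_num; linarith
    · norm_num; linarith
    · unfold phiE
      rw [le_min_iff]
      constructor
      · norm_num; linarith
      · norm_num; linarith

/-- `q = 4096` : `63 / 2` -/
theorem final_q4096 (E : ℕ → ℝ → Prop) (mono : ∀ G x y, y ≤ x → E G x → E G y)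
    (H : CoversE E 12 149 {((65 / 9, 1, 455), (43 / 1000, 288 / 319)),
      ((65, 1, 4095), (13 / 3000, 2892 / 2987)),
      ((65, 1, 4095), (9 / 500, 1378 / 1473)),
      ((65, 1, 4095), (113 / 3000, 2622 / 2887)),
      ((13 / 3, 1, 273), (21 / 1000, 2732 / 2937)),
      ((65 / 7, 1, 585), (1 / 125, 1423 / 1488)),
      ((65 / 7, 1, 585), (21 / 1000, 2732 / 2937)),
      ((65 / 7, 1, 585), (113 / 3000, 2622 / 2887)),
      ((5, 1, 315), (9 / 500, 1378 / 1473)),
      ((5, 1, 315), (97 / 3000, 2656 / 2903)),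
      ((65 / 3, 1, 1365), (7 / 600, 2812 / 2965)),
      ((65 / 3, 1, 1365), (2 / 75, 673 / 730)),
      ((65 / 3, 1, 1365), (43 / 1000, 288 / 319)),
      ((65 / 3, 1, 1365), (53 / 1000, 846 / 947)),
      ((65 / 3, 1, 1365), (181 / 3000, 2500 / 2819)),
      ((65 / 3, 1, 1365), (47 / 750, 1245 / 1406)),
      ((65 / 21, 1, 195), (13 / 3000, 2892 / 2987)),
      ((65 / 21, 1, 195), (1 / 125, 1423 / 1488)),
      ((65 / 21, 1, 195), (9 / 500, 1378 / 1473)),
      ((13, 1, 819), (7 / 600, 2812 / 2965)),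
      ((13, 1, 819), (2 / 75, 673 / 730)),
      ((13, 1, 819), (43 / 1000, 288 / 319)),
      ((65 / 9, 1, 455), (1 / 125, 1423 / 1488)),
      ((65 / 9, 1, 455), (21 / 1000, 2732 / 2937)),
      ((65 / 9, 1, 455), (113 / 3000, 2622 / 2887))}) :
    ∀ ε : ℝ, 0 < ε → ∃ G0 : ℕ, ∀ G : ℕ, G0 ≤ G → E G ((63 / 2 - ε) * G) := by
  apply final_generalE E mono 12 (63 / 2) (130) (1 / 1000) 149 (by norm_num) (by norm_num)
    (by norm_num) _ _ _ H
  · intro p hp
    simp only [Set.mem_insert_iff, Set.mem_singleton_iff] at hp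
    rcases hp with rfl | rfl | rfl | rfl | rfl | rfl | rfl | rfl | rfl | rfl | rfl | rfl | rfl | rfl | rfl | rfl | rfl | rfl | rfl | rfl | rfl | rfl | rfl | rfl | rfl <;> norm_num
  intro x hx1 hx2
  rcases le_or_gt x (132) with h0 | h0
  · refine ⟨((65 / 9, 1, 455), (43 / 1000, 288 / 319)),
      Set.mem_insert _ _, 3, ?_, ?_, ?_⟩
    · norm_num; linarith
    · norm_num; linarith
    · unfold phiE
      rw [le_min_iff]
      constructor
      · norm_num; linarith
      · norm_num; linarith
  rcases le_or_gt x (273 / 2) with h1 | h1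
  · refine ⟨((65, 1, 4095), (13 / 3000, 2892 / 2987)),
      Set.mem_insert_of_mem _ (Set.mem_insert _ _), 0, ?_, ?_, ?_⟩
    · norm_num; linarith
    · norm_num; linarith
    · unfold phiE
      rw [le_min_iff]
      constructor
      · norm_num; linarith
      · norm_num; linarith
  rcases le_or_gt x (2287 / 16) with h2 | h2
  · refine ⟨((65, 1, 4095), (9 / 500, 1378 / 1473)),
      Set.mem_insert_of_mem _ (Set.mem_insert_of_mem _ (Set.mem_insert _ _)), 0, ?_, ?_, ?_⟩
    · norm_num; linarith
    · norm_num; linarith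
    · unfold phiE
      rw [le_min_iff]
      constructor
      · norm_num; linarith
      · norm_num; linarith
  rcases le_or_gt x (148) with h3 | h3
  · refine ⟨((65, 1, 4095), (113 / 3000, 2622 / 2887)),
      Set.mem_insert_of_mem _ (Set.mem_insert_of_mem _ (Set.mem_insert_of_mem _ (Set.mem_insert _ _))), 0, ?_, ?_, ?_⟩
    · norm_num; linarith
    · norm_num; linarith
    · unfold phiE
      rw [le_min_iff]
      constructor
      · norm_num; linarith
      · norm_num; linarith
  rcases le_or_gt x (305 / 2) with h4 | h4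
  · refine ⟨((13 / 3, 1, 273), (21 / 1000, 2732 / 2937)),
      Set.mem_insert_of_mem _ (Set.mem_insert_of_mem _ (Set.mem_insert_of_mem _ (Set.mem_insert_of_mem _ (Set.mem_insert _ _)))), 4, ?_, ?_, ?_⟩
    · norm_num; linarith
    · norm_num; linarith
    · unfold phiE
      rw [le_min_iff]
      constructor
      · norm_num; linarith
      · norm_num; linarith
  rcases le_or_gt x (158) with h5 | h5
  · refine ⟨((65 / 7, 1, 585), (1 / 125, 1423 / 1488)),
      Set.mem_insert_of_mem _ (Set.mem_insert_of_mem _ (Set.mem_insert_of_mem _ (Set.mem_insert_of_mem _ (Set.mem_insert_of_mem _ (Set.mem_insert _ _))))), 3, ?_, ?_, ?_⟩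
    · norm_num; linarith
    · norm_num; linarith
    · unfold phiE
      rw [le_min_iff]
      constructor
      · norm_num; linarith
      · norm_num; linarith
  rcases le_or_gt x (164) with h6 | h6
  · refine ⟨((65 / 7, 1, 585), (21 / 1000, 2732 / 2937)),
      Set.mem_insert_of_mem _ (Set.mem_insert_of_mem _ (Set.mem_insert_of_mem _ (Set.mem_insert_of_mem _ (Set.mem_insert_of_mem _ (Set.mem_insert_of_mem _ (Set.mem_insert _ _)))))), 3, ?_, ?_, ?_⟩
    · norm_num; linarith
    · norm_num; linarith
    · unfold phiE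
      rw [le_min_iff]
      constructor
      · norm_num; linarith
      · norm_num; linarith
  rcases le_or_gt x (169) with h7 | h7
  · refine ⟨((65 / 7, 1, 585), (113 / 3000, 2622 / 2887)),
      Set.mem_insert_of_mem _ (Set.mem_insert_of_mem _ (Set.mem_insert_of_mem _ (Set.mem_insert_of_mem _ (Set.mem_insert_of_mem _ (Set.mem_insert_of_mem _ (Set.mem_insert_of_mem _ (Set.mem_insert _ _))))))), 3, ?_, ?_, ?_⟩
    · norm_num; linarith
    · norm_num; linarith
    · unfold phiE
      rw [le_min_iff]
      constructor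
      · norm_num; linarith
      · norm_num; linarith
  rcases le_or_gt x (175) with h8 | h8
  · refine ⟨((5, 1, 315), (9 / 500, 1378 / 1473)),
      Set.mem_insert_of_mem _ (Set.mem_insert_of_mem _ (Set.mem_insert_of_mem _ (Set.mem_insert_of_mem _ (Set.mem_insert_of_mem _ (Set.mem_insert_of_mem _ (Set.mem_insert_of_mem _ (Set.mem_insert_of_mem _ (Set.mem_insert _ _)))))))), 4, ?_, ?_, ?_⟩
    · norm_num; linarith
    · norm_num; linarith
    · unfold phiE
      rw [le_min_iff]
      constructor
      · norm_num; linarith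
      · norm_num; linarith
  rcases le_or_gt x (179) with h9 | h9
  · refine ⟨((5, 1, 315), (97 / 3000, 2656 / 2903)),
      Set.mem_insert_of_mem _ (Set.mem_insert_of_mem _ (Set.mem_insert_of_mem _ (Set.mem_insert_of_mem _ (Set.mem_insert_of_mem _ (Set.mem_insert_of_mem _ (Set.mem_insert_of_mem _ (Set.mem_insert_of_mem _ (Set.mem_insert_of_mem _ (Set.mem_insert _ _))))))))), 4, ?_, ?_, ?_⟩
    · norm_num; linarith
    · norm_num; linarith
    · unfold phiE
      rw [le_min_iff]
      constructor
      · norm_num; linarith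
      · norm_num; linarith
  rcases le_or_gt x (186) with h10 | h10
  · refine ⟨((65 / 3, 1, 1365), (7 / 600, 2812 / 2965)),
      Set.mem_insert_of_mem _ (Set.mem_insert_of_mem _ (Set.mem_insert_of_mem _ (Set.mem_insert_of_mem _ (Set.mem_insert_of_mem _ (Set.mem_insert_of_mem _ (Set.mem_insert_of_mem _ (Set.mem_insert_of_mem _ (Set.mem_insert_of_mem _ (Set.mem_insert_of_mem _ (Set.mem_insert _ _)))))))))), 2, ?_, ?_, ?_⟩
    · norm_num; linarith
    · norm_num; linarith
    · unfold phiE
      rw [le_min_iff]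
      constructor
      · norm_num; linarith
      · norm_num; linarith
  rcases le_or_gt x (194) with h11 | h11
  · refine ⟨((65 / 3, 1, 1365), (2 / 75, 673 / 730)),
      Set.mem_insert_of_mem _ (Set.mem_insert_of_mem _ (Set.mem_insert_of_mem _ (Set.mem_insert_of_mem _ (Set.mem_insert_of_mem _ (Set.mem_insert_of_mem _ (Set.mem_insert_of_mem _ (Set.mem_insert_of_mem _ (Set.mem_insert_of_mem _ (Set.mem_insert_of_mem _ (Set.mem_insert_of_mem _ (Set.mem_insert _ _))))))))))), 2, ?_, ?_, ?_⟩
    · norm_num; linarith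
    · norm_num; linarith
    · unfold phiE
      rw [le_min_iff]
      constructor
      · norm_num; linarith
      · norm_num; linarith
  rcases le_or_gt x (198) with h12 | h12
  · refine ⟨((65 / 3, 1, 1365), (43 / 1000, 288 / 319)),
      Set.mem_insert_of_mem _ (Set.mem_insert_of_mem _ (Set.mem_insert_of_mem _ (Set.mem_insert_of_mem _ (Set.mem_insert_of_mem _ (Set.mem_insert_of_mem _ (Set.mem_insert_of_mem _ (Set.mem_insert_of_mem _ (Set.mem_insert_of_mem _ (Set.mem_insert_of_mem _ (Set.mem_insert_of_mem _ (Set.mem_insert_of_mem _ (Set.mem_insert _ _)))))))))))), 2, ?_, ?_, ?_⟩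
    · norm_num; linarith
    · norm_num; linarith
    · unfold phiE
      rw [le_min_iff]
      constructor
      · norm_num; linarith
      · norm_num; linarith
  rcases le_or_gt x (1207 / 6) with h13 | h13
  · refine ⟨((65 / 3, 1, 1365), (53 / 1000, 846 / 947)),
      Set.mem_insert_of_mem _ (Set.mem_insert_of_mem _ (Set.mem_insert_of_mem _ (Set.mem_insert_of_mem _ (Set.mem_insert_of_mem _ (Set.mem_insert_of_mem _ (Set.mem_insert_of_mem _ (Set.mem_insert_of_mem _ (Set.mem_insert_of_mem _ (Set.mem_insert_of_mem _ (Set.mem_insert_of_mem _ (Set.mem_insert_of_mem _ (Set.mem_insert_of_mem _ (Set.mem_insert _ _))))))))))))), 2, ?_, ?_, ?_⟩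
    · norm_num; linarith
    · norm_num; linarith
    · unfold phiE
      rw [le_min_iff]
      constructor
      · norm_num; linarith
      · norm_num; linarith
  rcases le_or_gt x (405 / 2) with h14 | h14
  · refine ⟨((65 / 3, 1, 1365), (181 / 3000, 2500 / 2819)),
      Set.mem_insert_of_mem _ (Set.mem_insert_of_mem _ (Set.mem_insert_of_mem _ (Set.mem_insert_of_mem _ (Set.mem_insert_of_mem _ (Set.mem_insert_of_mem _ (Set.mem_insert_of_mem _ (Set.mem_insert_of_mem _ (Set.mem_insert_of_mem _ (Set.mem_insert_of_mem _ (Set.mem_insert_of_mem _ (Set.mem_insert_of_mem _ (Set.mem_insert_of_mem _ (Set.mem_insert_of_mem _ (Set.mem_insert _ _)))))))))))))), 2, ?_, ?_, ?_⟩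
    · norm_num; linarith
    · norm_num; linarith
    · unfold phiE
      rw [le_min_iff]
      constructor
      · norm_num; linarith
      · norm_num; linarith
  rcases le_or_gt x (1828 / 9) with h15 | h15
  · refine ⟨((65 / 3, 1, 1365), (47 / 750, 1245 / 1406)),
      Set.mem_insert_of_mem _ (Set.mem_insert_of_mem _ (Set.mem_insert_of_mem _ (Set.mem_insert_of_mem _ (Set.mem_insert_of_mem _ (Set.mem_insert_of_mem _ (Set.mem_insert_of_mem _ (Set.mem_insert_of_mem _ (Set.mem_insert_of_mem _ (Set.mem_insert_of_mem _ (Set.mem_insert_of_mem _ (Set.mem_insert_of_mem _ (Set.mem_insert_of_mem _ (Set.mem_insert_of_mem _ (Set.mem_insert_of_mem _ (Set.mem_insert _ _))))))))))))))), 2, ?_, ?_, ?_⟩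
    · norm_num; linarith
    · norm_num; linarith
    · unfold phiE
      rw [le_min_iff]
      constructor
      · norm_num; linarith
      · norm_num; linarith
  rcases le_or_gt x (205) with h16 | h16
  · refine ⟨((65 / 21, 1, 195), (13 / 3000, 2892 / 2987)),
      Set.mem_insert_of_mem _ (Set.mem_insert_of_mem _ (Set.mem_insert_of_mem _ (Set.mem_insert_of_mem _ (Set.mem_insert_of_mem _ (Set.mem_insert_of_mem _ (Set.mem_insert_of_mem _ (Set.mem_insert_of_mem _ (Set.mem_insert_of_mem _ (Set.mem_insert_of_mem _ (Set.mem_insert_of_mem _ (Set.mem_insert_of_mem _ (Set.mem_insert_of_mem _ (Set.mem_insert_of_mem _ (Set.mem_insert_of_mem _ (Set.mem_insert_of_mem _ (Set.mem_insert _ _)))))))))))))))), 5, ?_, ?_, ?_⟩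
    · norm_num; linarith
    · norm_num; linarith
    · unfold phiE
      rw [le_min_iff]
      constructor
      · norm_num; linarith
      · norm_num; linarith
  rcases le_or_gt x (1261 / 6) with h17 | h17
  · refine ⟨((65 / 21, 1, 195), (1 / 125, 1423 / 1488)),
      Set.mem_insert_of_mem _ (Set.mem_insert_of_mem _ (Set.mem_insert_of_mem _ (Set.mem_insert_of_mem _ (Set.mem_insert_of_mem _ (Set.mem_insert_of_mem _ (Set.mem_insert_of_mem _ (Set.mem_insert_of_mem _ (Set.mem_insert_of_mem _ (Set.mem_insert_of_mem _ (Set.mem_insert_of_mem _ (Set.mem_insert_of_mem _ (Set.mem_insert_of_mem _ (Set.mem_insert_of_mem _ (Set.mem_insert_of_mem _ (Set.mem_insert_of_mem _ (Set.mem_insert_of_mem _ (Set.mem_insert _ _))))))))))))))))), 5, ?_, ?_, ?_⟩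
    · norm_num; linarith
    · norm_num; linarith
    · unfold phiE
      rw [le_min_iff]
      constructor
      · norm_num; linarith
      · norm_num; linarith
  rcases le_or_gt x (216) with h18 | h18
  · refine ⟨((65 / 21, 1, 195), (9 / 500, 1378 / 1473)),
      Set.mem_insert_of_mem _ (Set.mem_insert_of_mem _ (Set.mem_insert_of_mem _ (Set.mem_insert_of_mem _ (Set.mem_insert_of_mem _ (Set.mem_insert_of_mem _ (Set.mem_insert_of_mem _ (Set.mem_insert_of_mem _ (Set.mem_insert_of_mem _ (Set.mem_insert_of_mem _ (Set.mem_insert_of_mem _ (Set.mem_insert_of_mem _ (Set.mem_insert_of_mem _ (Set.mem_insert_of_mem _ (Set.mem_insert_of_mem _ (Set.mem_insert_of_mem _ (Set.mem_insert_of_mem _ (Set.mem_insert_of_mem _ (Set.mem_insert _ _)))))))))))))))))), 5, ?_, ?_, ?_⟩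
    · norm_num; linarith
    · norm_num; linarith
    · unfold phiE
      rw [le_min_iff]
      constructor
      · norm_num; linarith
      · norm_num; linarith
  rcases le_or_gt x (224) with h19 | h19
  · refine ⟨((13, 1, 819), (7 / 600, 2812 / 2965)),
      Set.mem_insert_of_mem _ (Set.mem_insert_of_mem _ (Set.mem_insert_of_mem _ (Set.mem_insert_of_mem _ (Set.mem_insert_of_mem _ (Set.mem_insert_of_mem _ (Set.mem_insert_of_mem _ (Set.mem_insert_of_mem _ (Set.mem_insert_of_mem _ (Set.mem_insert_of_mem _ (Set.mem_insert_of_mem _ (Set.mem_insert_of_mem _ (Set.mem_insert_of_mem _ (Set.mem_insert_of_mem _ (Set.mem_insert_of_mem _ (Set.mem_insert_of_mem _ (Set.mem_insert_of_mem _ (Set.mem_insert_of_mem _ (Set.mem_insert_of_mem _ (Set.mem_insert _ _))))))))))))))))))), 3, ?_, ?_, ?_⟩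
    · norm_num; linarith
    · norm_num; linarith
    · unfold phiE
      rw [le_min_iff]
      constructor
      · norm_num; linarith
      · norm_num; linarith
  rcases le_or_gt x (465 / 2) with h20 | h20
  · refine ⟨((13, 1, 819), (2 / 75, 673 / 730)),
      Set.mem_insert_of_mem _ (Set.mem_insert_of_mem _ (Set.mem_insert_of_mem _ (Set.mem_insert_of_mem _ (Set.mem_insert_of_mem _ (Set.mem_insert_of_mem _ (Set.mem_insert_of_mem _ (Set.mem_insert_of_mem _ (Set.mem_insert_of_mem _ (Set.mem_insert_of_mem _ (Set.mem_insert_of_mem _ (Set.mem_insert_of_mem _ (Set.mem_insert_of_mem _ (Set.mem_insert_of_mem _ (Set.mem_insert_of_mem _ (Set.mem_insert_of_mem _ (Set.mem_insert_of_mem _ (Set.mem_insert_of_mem _ (Set.mem_insert_of_mem _ (Set.mem_insert_of_mem _ (Set.mem_insert _ _)))))))))))))))))))), 3, ?_, ?_, ?_⟩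
    · norm_num; linarith
    · norm_num; linarith
    · unfold phiE
      rw [le_min_iff]
      constructor
      · norm_num; linarith
      · norm_num; linarith
  rcases le_or_gt x (238) with h21 | h21
  · refine ⟨((13, 1, 819), (43 / 1000, 288 / 319)),
      Set.mem_insert_of_mem _ (Set.mem_insert_of_mem _ (Set.mem_insert_of_mem _ (Set.mem_insert_of_mem _ (Set.mem_insert_of_mem _ (Set.mem_insert_of_mem _ (Set.mem_insert_of_mem _ (Set.mem_insert_of_mem _ (Set.mem_insert_of_mem _ (Set.mem_insert_of_mem _ (Set.mem_insert_of_mem _ (Set.mem_insert_of_mem _ (Set.mem_insert_of_mem _ (Set.mem_insert_of_mem _ (Set.mem_insert_of_mem _ (Set.mem_insert_of_mem _ (Set.mem_insert_of_mem _ (Set.mem_insert_of_mem _ (Set.mem_insert_of_mem _ (Set.mem_insert_of_mem _ (Set.mem_insert_of_mem _ (Set.mem_insert _ _))))))))))))))))))))), 3, ?_, ?_, ?_⟩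
    · norm_num; linarith
    · norm_num; linarith
    · unfold phiE
      rw [le_min_iff]
      constructor
      · norm_num; linarith
      · norm_num; linarith
  rcases le_or_gt x (246) with h22 | h22
  · refine ⟨((65 / 9, 1, 455), (1 / 125, 1423 / 1488)),
      Set.mem_insert_of_mem _ (Set.mem_insert_of_mem _ (Set.mem_insert_of_mem _ (Set.mem_insert_of_mem _ (Set.mem_insert_of_mem _ (Set.mem_insert_of_mem _ (Set.mem_insert_of_mem _ (Set.mem_insert_of_mem _ (Set.mem_insert_of_mem _ (Set.mem_insert_of_mem _ (Set.mem_insert_of_mem _ (Set.mem_insert_of_mem _ (Set.mem_insert_of_mem _ (Set.mem_insert_of_mem _ (Set.mem_insert_of_mem _ (Set.mem_insert_of_mem _ (Set.mem_insert_of_mem _ (Set.mem_insert_of_mem _ (Set.mem_insert_of_mem _ (Set.mem_insert_of_mem _ (Set.mem_insert_of_mem _ (Set.mem_insert_of_mem _ (Set.mem_insert _ _)))))))))))))))))))))), 4, ?_, ?_, ?_⟩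
    · norm_num; linarith
    · norm_num; linarith
    · unfold phiE
      rw [le_min_iff]
      constructor
      · norm_num; linarith
      · norm_num; linarith
  rcases le_or_gt x (766 / 3) with h23 | h23
  · refine ⟨((65 / 9, 1, 455), (21 / 1000, 2732 / 2937)),
      Set.mem_insert_of_mem _ (Set.mem_insert_of_mem _ (Set.mem_insert_of_mem _ (Set.mem_insert_of_mem _ (Set.mem_insert_of_mem _ (Set.mem_insert_of_mem _ (Set.mem_insert_of_mem _ (Set.mem_insert_of_mem _ (Set.mem_insert_of_mem _ (Set.mem_insert_of_mem _ (Set.mem_insert_of_mem _ (Set.mem_insert_of_mem _ (Set.mem_insert_of_mem _ (Set.mem_insert_of_mem _ (Set.mem_insert_of_mem _ (Set.mem_insert_of_mem _ (Set.mem_insert_of_mem _ (Set.mem_insert_of_mem _ (Set.mem_insert_of_mem _ (Set.mem_insert_of_mem _ (Set.mem_insert_of_mem _ (Set.mem_insert_of_mem _ (Set.mem_insert_of_mem _ (Set.mem_insert _ _))))))))))))))))))))))), 4, ?_, ?_, ?_⟩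
    · norm_num; linarith
    · norm_num; linarith
    · unfold phiE
      rw [le_min_iff]
      constructor
      · norm_num; linarith
      · norm_num; linarith
  · refine ⟨((65 / 9, 1, 455), (113 / 3000, 2622 / 2887)),
      Set.mem_insert_of_mem _ (Set.mem_insert_of_mem _ (Set.mem_insert_of_mem _ (Set.mem_insert_of_mem _ (Set.mem_insert_of_mem _ (Set.mem_insert_of_mem _ (Set.mem_insert_of_mem _ (Set.mem_insert_of_mem _ (Set.mem_insert_of_mem _ (Set.mem_insert_of_mem _ (Set.mem_insert_of_mem _ (Set.mem_insert_of_mem _ (Set.mem_insert_of_mem _ (Set.mem_insert_of_mem _ (Set.mem_insert_of_mem _ (Set.mem_insert_of_mem _ (Set.mem_insert_of_mem _ (Set.mem_insert_of_mem _ (Set.mem_insert_of_mem _ (Set.mem_insert_of_mem _ (Set.mem_insert_of_mem _ (Set.mem_insert_of_mem _ (Set.mem_insert_of_mem _ (Set.mem_insert_of_mem _ (Set.mem_singleton _)))))))))))))))))))))))), 4, ?_, ?_, ?_⟩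
    · norm_num; linarith
    · norm_num; linarith
    · unfold phiE
      rw [le_min_iff]
      constructor
      · norm_num; linarith
      · norm_num; linarith

end FF
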