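import Mathlib

/-! Flags of the additive polynomial `X ^ l + X`, `l = 2 ^ a`, over a finite field with `l ^ 2` elements:
`L_0 = X`, `L_(j+1) = L_j ^ 2 + c_j L_j`, `L_a = X ^ l + X`. -/

set_option autoImplicit false

namespace Pool.Agent.FF

open Finset

section defs

variable {K : Type*} [CommRing K]

/-- `L_0 = X`, `L_(j+1) = L_j ^ 2 + c_j L_j`. -/
def Lf (c : ℕ → K) : ℕ → K → K
  | 0, x => x
  | j + 1, x => Lf c j x ^ 2 + c j * Lf c j x

/-- `R_0 = X`, `R_(i+1) (X) = R_i (X ^ 2 + c_(a-1-i) X)`. -/
def Rf (c : ℕ → K) (a : ℕ) : ℕ → K → K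
  | 0, x => x
  | i + 1, x => Rf c a i (x ^ 2 + c (a - 1 - i) * x)

theorem Rf_Lf (c : ℕ → K) (a : ℕ) (x : K) : ∀ i, i ≤ a → Rf c a i (Lf c (a - i) x) = Lf c a x := by
  intro i
  induction i with
  | zero => intro _; rfl
  | succ i ih =>
    intro hi
    rw [← ih (by omega)]
    have h1 : a - i = (a - (i + 1)) + 1 := by omega
    have h2 : a - 1 - i = a - (i + 1) := by omega
    rw [h1]
    simp only [Rf, Lf]
    rw [h2]

theorem Rf_self (c : ℕ → K) (a : ℕ) (x : K) : Rf c a a x = Lf c a x := by
  have := Rf_Lf c a x a le_rfl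
  rwa [Nat.sub_self] at this

theorem Lf_congr {c c' : ℕ → K} {j : ℕ} (h : ∀ i, i < j → c i = c' i) (x : K) : Lf c j x = Lf c' j x := by
  induction j with
  | zero => rfl
  | succ j ih =>
    simp only [Lf]
    rw [ih fun i hi => h i (by omega), h j (by omega)]

theorem Lf_add [CharP K 2] (c : ℕ → K) (j : ℕ) (x y : K) : Lf c j (x + y) = Lf c j x + Lf c j y := by
  have h2 : (2 : K) = 0 := CharTwo.two_eq_zero
  induction j with
  | zero => rfl
  | succ j ih =>
    simp only [Lf]
    rw [ih]
    linear_combination (Lf c j x * Lf c j y) * h2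

theorem map_Lf {K' : Type*} [CommRing K'] (φ : K →+* K') (c : ℕ → K) (j : ℕ) (x : K) :
    φ (Lf c j x) = Lf (fun i => φ (c i)) j (φ x) := by
  induction j with
  | zero => rfl
  | succ j ih =>
    simp only [Lf]
    rw [map_add, map_pow, map_mul, ih]

theorem map_Rf {K' : Type*} [CommRing K'] (φ : K →+* K') (c : ℕ → K) (a i : ℕ) (x : K) :
    φ (Rf c a i x) = Rf (fun i => φ (c i)) a i (φ x) := by
  induction i generalizing x with
  | zero => rfl
  | succ i ih =>
    simp only [Rf]
    rw [ih, map_add, map_pow, map_mul]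

end defs

section poly

open Polynomial

variable {k : Type*} [Field k]

/-- The polynomial `L_j`. -/
noncomputable def LfP (c : ℕ → k) (j : ℕ) : k[X] := Lf (fun i => C (c i)) j X

theorem LfP_monic (c : ℕ → k) (j : ℕ) : (LfP c j).Monic ∧ (LfP c j).natDegree = 2 ^ j := by
  induction j with
  | zero => exact ⟨monic_X, natDegree_X⟩
  | succ j ih =>
    have hpos : 0 < 2 ^ j := by positivity
    have e : LfP c (j + 1) = LfP c j ^ 2 + C (c j) * LfP c j := rfl
    have hd : (LfP c j ^ 2).natDegree = 2 ^ (j + 1) := by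
      rw [ih.1.natDegree_pow, ih.2, pow_succ]
      ring
    have hlt : (C (c j) * LfP c j).degree < (LfP c j ^ 2).degree := by
      refine lt_of_le_of_lt ((degree_mul_le _ _).trans (add_le_add_left degree_C_le _)) ?_
      rw [zero_add]
      rw [degree_eq_natDegree ih.1.ne_zero, degree_eq_natDegree (ih.1.pow 2).ne_zero, hd, ih.2]
      exact_mod_cast Nat.pow_lt_pow_right (by norm_num) (by omega)
    rw [e]
    refine ⟨(ih.1.pow 2).add_of_left hlt, ?_⟩
    rw [natDegree_add_eq_left_of_degree_lt hlt, hd]

theorem eval_LfP (c : ℕ → k) (j : ℕ) (x : k) : (LfP c j).eval x = Lf c j x := by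
  have := map_Lf (Polynomial.evalRingHom x) (fun i => C (c i)) j X
  simpa [LfP] using this

theorem aeval_LfP {K : Type*} [Field K] [Algebra k K] (c : ℕ → k) (j : ℕ) (x : K) :
    aeval x (LfP c j) = Lf (fun i => algebraMap k K (c i)) j x := by
  have := map_Lf (aeval (R := k) x).toRingHom (fun i => C (c i)) j X
  simpa [LfP] using this

variable [Fintype k]

theorem card_pow_eq_one [DecidableEq k] {m : ℕ} (hm : m ∣ Fintype.card k - 1) :
    (univ.filter fun x : k => x ^ m = 1).card = m := by
  have hq : 1 < Fintype.card k := Fintype.one_lt_card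
  have hm0 : m ≠ 0 := by
    rintro rfl
    have := Nat.eq_zero_of_zero_dvd hm
    omega
  obtain ⟨g, hg⟩ := IsCyclic.exists_generator (α := kˣ)
  have hord : orderOf g = Fintype.card k - 1 := by
    rw [orderOf_eq_card_of_forall_mem_zpowers hg, Nat.card_eq_fintype_card, Fintype.card_units]
  have hprim : IsPrimitiveRoot (g : k) (Fintype.card k - 1) := by
    rw [← hord]
    exact IsPrimitiveRoot.coe_units_iff.2 (IsPrimitiveRoot.orderOf g)
  obtain ⟨r, hr⟩ := hm
  have hprim' : IsPrimitiveRoot ((g : k) ^ r) m :=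
    hprim.pow (by omega) (by rw [hr, mul_comm])
  refine Eq.trans ?_ hprim'.card_nthRootsFinset
  congr 1
  ext x
  rw [mem_filter, mem_nthRootsFinset (Nat.pos_of_ne_zero hm0)]
  simp

/-- The elements of the subfield with `l` elements. -/
theorem card_fix [DecidableEq k] {l : ℕ} (hl : 2 ≤ l) (hk : Fintype.card k = l ^ 2) :
    (univ.filter fun x : k => x ^ l = x).card = l := by
  have h1 : (univ.filter fun x : k => x ^ l = x) =
      insert 0 (univ.filter fun x : k => x ^ (l - 1) = 1) := by
    ext x
    simp only [mem_filter, mem_univ, true_and, mem_insert]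
    obtain ⟨m, rfl⟩ : ∃ m, l = m + 1 := ⟨l - 1, by omega⟩
    rw [Nat.add_sub_cancel]
    by_cases hx : x = 0
    · simp [hx]
    · simp only [hx, false_or]
      rw [pow_succ]
      constructor
      · intro h
        exact mul_right_cancel₀ hx (by rw [h, one_mul])
      · intro h
        rw [h, one_mul]
  rw [h1, card_insert_of_notMem, card_pow_eq_one]
  · omega
  · rw [hk]
    have : l ^ 2 - 1 = (l - 1) * (l + 1) := by
      obtain ⟨m, rfl⟩ : ∃ m, l = m + 1 := ⟨l - 1, by omega⟩
      rw [Nat.add_sub_cancel]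
      have : (m + 1) ^ 2 = m * (m + 1 + 1) + 1 := by ring
      omega
    rw [this]
    exact Dvd.intro _ rfl
  · simp only [mem_filter, mem_univ, true_and]
    rw [zero_pow (by omega)]
    exact zero_ne_one

theorem exists_flag [CharP k 2] {a : ℕ} (hk : Fintype.card k = (2 ^ a) ^ 2) (ha : 1 ≤ a) :
    ∃ c v : ℕ → k, (∀ j, j < a → v j ^ (2 ^ a) = v j) ∧ (∀ j, j < a → c j = Lf c j (v j)) ∧
      (∀ j, j < a → c j ≠ 0) ∧ LfP c a = X ^ (2 ^ a) + X := by
  classical
  have h2 : (2 : k) = 0 := CharTwo.two_eq_zero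
  have hl : 2 ≤ 2 ^ a := by
    calc 2 = 2 ^ 1 := by norm_num
      _ ≤ 2 ^ a := Nat.pow_le_pow_right (by norm_num) ha
  set Fl : Finset k := univ.filter fun x : k => x ^ (2 ^ a) = x with hFl
  have hcard : Fl.card = 2 ^ a := card_fix hl hk
  have hadd : ∀ x ∈ Fl, ∀ y ∈ Fl, x + y ∈ Fl := by
    intro x hx y hy
    rw [hFl, mem_filter] at *
    refine ⟨mem_univ _, ?_⟩
    rw [add_pow_char_pow, hx.2, hy.2]
  have main : ∀ j, j ≤ a → ∃ c v : ℕ → k, (∀ i, i < j → v i ∈ Fl) ∧ (∀ i, i < j → c i = Lf c i (v i)) ∧
      (∀ i, i < j → c i ≠ 0) ∧ 2 ^ j ≤ (Fl.filter fun x => Lf c j x = 0).card := by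
    intro j
    induction j with
    | zero =>
      intro _
      refine ⟨fun _ => 0, fun _ => 0, by simp, by simp, by simp, ?_⟩
      rw [pow_zero]
      refine Nat.succ_le_of_lt (card_pos.2 ⟨0, ?_⟩)
      rw [mem_filter, hFl, mem_filter]
      refine ⟨⟨mem_univ _, zero_pow (by positivity)⟩, rfl⟩
    | succ j ih =>
      intro hj
      obtain ⟨c, v, h1, h3, h4, h5⟩ := ih (by omega)
      have hv : ∃ x ∈ Fl, Lf c j x ≠ 0 := by
        by_contra hno
        push Not at hno
        have h6 : Fl.card ≤ (LfP c j).natDegree := by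
          refine Polynomial.card_le_degree_of_subset_roots (p := LfP c j) ?_
          intro x hx
          have hx' : x ∈ Fl := hx
          rw [mem_roots (LfP_monic c j).1.ne_zero, IsRoot.def, eval_LfP]
          exact hno x hx'
        rw [hcard, (LfP_monic c j).2] at h6
        exact absurd h6 (not_le.2 (Nat.pow_lt_pow_right (by norm_num) (by omega)))
      obtain ⟨x, hx, hx0⟩ := hv
      set c' := Function.update c j (Lf c j x) with hc'
      set v' := Function.update v j x with hv'
      have hcc : ∀ i, i < j → c' i = c i := fun i hi => by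
        rw [hc', Function.update_of_ne (by omega)]
      have hvv : ∀ i, i < j → v' i = v i := fun i hi => by
        rw [hv', Function.update_of_ne (by omega)]
      have hcj : c' j = Lf c j x := by rw [hc', Function.update_self]
      have hvj : v' j = x := by rw [hv', Function.update_self]
      have hLf : ∀ i, i ≤ j → ∀ y, Lf c' i y = Lf c i y := fun i hi y =>
        Lf_congr (fun i' hi' => hcc i' (by omega)) y
      refine ⟨c', v', ?_, ?_, ?_, ?_⟩
      · intro i hi
        rcases Nat.lt_succ_iff_lt_or_eq.1 hi with h | h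
        · rw [hvv i h]; exact h1 i h
        · rw [h, hvj]; exact hx
      · intro i hi
        rcases Nat.lt_succ_iff_lt_or_eq.1 hi with h | h
        · rw [hcc i h, hvv i h, hLf i h.le]; exact h3 i h
        · rw [h, hcj, hvj, hLf j le_rfl]
      · intro i hi
        rcases Nat.lt_succ_iff_lt_or_eq.1 hi with h | h
        · rw [hcc i h]; exact h4 i h
        · rw [h, hcj]; exact hx0
      · have e1 : ∀ y, Lf c' (j + 1) y = Lf c j y * (Lf c j y + Lf c j x) := by
          intro y
          simp only [Lf]
          rw [hLf j le_rfl, hcj]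
          ring
        set A := Fl.filter fun y => Lf c j y = 0 with hA
        set B := A.image (fun y => y + x) with hB
        have hdis : Disjoint A B := by
          rw [disjoint_left]
          intro y hy hy'
          rw [hB, mem_image] at hy'
          obtain ⟨z, hz, rfl⟩ := hy'
          rw [hA, mem_filter] at hy hz
          have := hy.2
          rw [Lf_add, hz.2, zero_add] at this
          exact hx0 this
        have hsub : A ∪ B ⊆ Fl.filter fun y => Lf c' (j + 1) y = 0 := by
          intro y hy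
          rw [mem_filter, e1]
          rcases mem_union.1 hy with hy | hy
          · rw [hA, mem_filter] at hy
            exact ⟨hy.1, by rw [hy.2, zero_mul]⟩
          · rw [hB, mem_image] at hy
            obtain ⟨z, hz, rfl⟩ := hy
            rw [hA, mem_filter] at hz
            refine ⟨hadd _ hz.1 _ hx, ?_⟩
            rw [Lf_add, hz.2, zero_add]
            linear_combination (Lf c j x ^ 2) * h2
        have h6 := card_le_card hsub
        rw [card_union_of_disjoint hdis, hB, card_image_of_injective _ (add_left_injective x)] at h6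
        rw [pow_succ]
        omega
  obtain ⟨c, v, h1, h3, h4, h5⟩ := main a le_rfl
  refine ⟨c, v, fun j hj => ?_, h3, h4, ?_⟩
  · have := h1 j hj
    rw [hFl, mem_filter] at this
    exact this.2
  have hall : ∀ x ∈ Fl, Lf c a x = 0 := by
    have h6 : (Fl.filter fun x => Lf c a x = 0) = Fl := by
      apply eq_of_subset_of_card_le (filter_subset _ _)
      rw [hcard]
      exact h5
    intro x hx
    rw [← h6, mem_filter] at hx
    exact hx.2
  have hm := LfP_monic c a
  have hm2 : (X ^ (2 ^ a) + X : k[X]).Monic ∧ (X ^ (2 ^ a) + X : k[X]).natDegree = 2 ^ a := by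
    have hlt : (X : k[X]).degree < (X ^ (2 ^ a) : k[X]).degree := by
      rw [degree_X_pow, degree_X]
      exact_mod_cast (by omega : 1 < 2 ^ a)
    refine ⟨(monic_X_pow _).add_of_left hlt, ?_⟩
    rw [natDegree_add_eq_left_of_degree_lt hlt, natDegree_X_pow]
  by_contra hne
  have hsub0 : LfP c a - (X ^ (2 ^ a) + X) ≠ 0 := sub_ne_zero.2 hne
  have hdeg : (LfP c a - (X ^ (2 ^ a) + X)).degree < (LfP c a).degree := by
    refine degree_sub_lt_left ?_ hm.1.ne_zero ?_
    · rw [degree_eq_natDegree hm.1.ne_zero, degree_eq_natDegree hm2.1.ne_zero, hm.2, hm2.2]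
    · rw [hm.1.leadingCoeff, hm2.1.leadingCoeff]
  have hroots : Fl.card ≤ (LfP c a - (X ^ (2 ^ a) + X)).natDegree := by
    refine Polynomial.card_le_degree_of_subset_roots ?_
    intro x hx
    have hx' : x ∈ Fl := hx
    rw [mem_roots hsub0, IsRoot.def, eval_sub, eval_LfP, hall x hx', eval_add, eval_pow, eval_X]
    rw [hFl, mem_filter] at hx'
    rw [hx'.2]
    linear_combination (-x) * h2
  have h7 := natDegree_lt_natDegree hsub0 hdeg
  rw [hm.2] at h7
  omega

end poly

end Pool.Agent.FF
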