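import Pool.Agent.FF.Psi

/-! The genus of an Artin–Schreier double cover. -/

set_option autoImplicit false
set_option linter.unusedSectionVars false

namespace Pool.Agent.FF

/-! ### Riemann's theorem for one effective divisor -/

section riemann

variable {F : Type*} [Field F]

theorem index_eff {e : DV F → ℤ} (he : ∀ v, 0 ≤ e v) (h0 : AdG e ⊓ Prin F = ⊥) (hc : Prin F ≤ Adl F) :
    (AdG e ⊔ Prin F).relIndex (Adl F) * Nat.card (AdG (0 : DV F → ℤ) ⊓ Prin F : AddSubgroup _) =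
      (AdG (0 : DV F → ℤ) ⊔ Prin F).relIndex (Adl F) * (AdG e).relIndex (AdG (0 : DV F → ℤ)) := by
  have h1 : AdG e ≤ AdG (0 : DV F → ℤ) := AdG_mono he
  have h2 : AdG e ⊔ Prin F ≤ AdG (0 : DV F → ℤ) ⊔ Prin F := sup_le_sup_right h1 _
  have h3 : AdG (0 : DV F → ℤ) ⊔ Prin F ≤ Adl F := sup_le (AdG_le_Ad fun _ => le_rfl) hc
  have h4 := AddSubgroup.relIndex_mul_relIndex _ _ _ h2 h3
  have h5 : AdG (0 : DV F → ℤ) ⊔ Prin F = AdG (0 : DV F → ℤ) ⊔ (AdG e ⊔ Prin F) := by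
    rw [← sup_assoc, sup_eq_left.2 h1]
  have h6 : (AdG e ⊔ Prin F).relIndex (AdG (0 : DV F → ℤ) ⊔ Prin F) =
      (AdG e ⊔ Prin F).relIndex (AdG (0 : DV F → ℤ)) := by
    rw [h5, AddSubgroup.relIndex_sup_right]
  have h7 : (AdG e).relIndex ((AdG e ⊔ Prin F) ⊓ AdG (0 : DV F → ℤ)) *
      ((AdG e ⊔ Prin F) ⊓ AdG (0 : DV F → ℤ)).relIndex (AdG (0 : DV F → ℤ)) =
      (AdG e).relIndex (AdG (0 : DV F → ℤ)) :=
    AddSubgroup.relIndex_mul_relIndex _ _ _ (le_inf le_sup_left h1) inf_le_right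
  have h8 : (AdG e ⊔ Prin F) ⊓ AdG (0 : DV F → ℤ) = AdG e ⊔ (AdG (0 : DV F → ℤ) ⊓ Prin F) := by
    rw [sup_inf_assoc_of_le _ h1, inf_comm (Prin F)]
  have h9 : (AdG e).relIndex (AdG e ⊔ (AdG (0 : DV F → ℤ) ⊓ Prin F)) =
      Nat.card (AdG (0 : DV F → ℤ) ⊓ Prin F : AddSubgroup _) := by
    rw [sup_comm, AddSubgroup.relIndex_sup_right, ← AddSubgroup.inf_relIndex_right]
    have : AdG e ⊓ (AdG (0 : DV F → ℤ) ⊓ Prin F) = ⊥ := by
      rw [← inf_assoc, inf_eq_left.2 h1, h0]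
    rw [this, AddSubgroup.relIndex_bot_left]
  rw [h8, h9] at h7
  rw [← h8, AddSubgroup.inf_relIndex_right] at h7
  rw [← h4, h6, ← h7]
  ring

end riemann


/-! ### Artin–Schreier double covers -/

section double

variable {F F' : Type*} [Field F] [Field F'] [Algebra F F'] [CharP F 2] {f : F}
variable (S : AS F F' f)
variable {c : DV F → F} {e : DV F → ℕ} (hd : ∀ v, LocData v f (c v) (e v))
variable (hf : {v : DV F | ¬ v.G 0 f}.Finite) (hcA : c ∈ Adl F)
variable (hfin : Prin F ≤ Adl F) (hcst : AdG (fun v => (e v : ℤ)) ⊓ Prin F = ⊥)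

include hd hf hcA hfin hcst

include S in
/-- **The genus of an Artin–Schreier double cover.** -/
theorem AS.index_double : (AdG (0 : DV F' → ℤ) ⊔ Prin F').relIndex (Adl F') =
    (AdG (0 : DV F → ℤ) ⊔ Prin F).relIndex (Adl F) *
      (AdG (fun v => (e v : ℤ)) ⊔ Prin F).relIndex (Adl F) := by
  have hM : AdG (0 : DV F' → ℤ) ⊔ Prin F' ≤ Adl F' :=
    sup_le (AdG_le_Ad fun _ => le_rfl) (S.Cst_le hd hf hcA hfin)
  have hU : ((Adl F).prod (Adl F)).map (S.Psi c) ≤ Adl F' := by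
    rintro _ ⟨p, hp, rfl⟩
    exact S.Psi_mem hd hf hcA hp.1 hp.2
  have h1 : ((Adl F).prod (Adl F)).map (S.Psi c) ⊔ (AdG (0 : DV F' → ℤ) ⊔ Prin F') = Adl F' := by
    refine le_antisymm (sup_le hU hM) fun r hr => ?_
    obtain ⟨p, hp1, hp2, hp⟩ := S.exists_Psi hd hf hcA hr
    have : r = S.Psi c (-p) + (r + S.Psi c p) := by rw [map_neg]; abel
    rw [this]
    refine AddSubgroup.add_mem_sup ⟨-p, ⟨(Adl F).neg_mem hp1, (Adl F).neg_mem hp2⟩, rfl⟩ (AddSubgroup.mem_sup_left hp)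
  have h2 : (AdG (0 : DV F' → ℤ) ⊔ Prin F').relIndex (Adl F') =
      ((AdG (0 : DV F → ℤ)).prod (AdG fun v => (e v : ℤ)) ⊔ Dg c).relIndex ((Adl F).prod (Adl F)) := by
    rw [← S.comap_sup hd, AddSubgroup.relIndex_comap]
    conv_lhs => rw [← h1]
    rw [AddSubgroup.relIndex_sup_right]
  rw [h2]
  set K := (AdG (0 : DV F → ℤ)).prod (AdG fun v => (e v : ℤ)) ⊔ Dg c with hK
  have hDU : Dg c ≤ (Adl F).prod (Adl F) := by
    rintro p ⟨g, h, h1, h2⟩
    refine ⟨?_, ?_⟩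
    · change p.1 ∈ Adl F
      rw [h1]
      exact add_mem (hfin (cst_mem g)) (Ad_mul (hfin (cst_mem h)) hcA)
    · change p.2 ∈ Adl F
      rw [h2]
      exact hfin (cst_mem h)
  have hKU : K ≤ (Adl F).prod (Adl F) := by
    refine sup_le (fun p hp => ⟨AdG_le_Ad (fun _ => le_rfl) hp.1,
      AdG_le_Ad (fun v => Int.natCast_nonneg _) hp.2⟩) hDU
  set Q := AdG (fun v => (e v : ℤ)) ⊔ Prin F with hQ
  set K1 := (Adl F).prod Q with hK1
  have hQA : Q ≤ Adl F := sup_le (AdG_le_Ad fun v => Int.natCast_nonneg _) hfin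
  have hKK1 : K ⊔ (Adl F).prod ⊥ = K1 := by
    apply le_antisymm
    · refine sup_le (sup_le ?_ ?_) ?_
      · exact fun p hp => ⟨AdG_le_Ad (fun _ => le_rfl) hp.1, AddSubgroup.mem_sup_left hp.2⟩
      · rintro p ⟨g, h, h1, h2⟩
        refine ⟨(hDU ⟨g, h, h1, h2⟩).1, ?_⟩
        change p.2 ∈ Q
        rw [h2]
        exact AddSubgroup.mem_sup_right (cst_mem h)
      · exact fun p hp => ⟨hp.1, by
          have : p.2 = 0 := hp.2
          change p.2 ∈ Q
          rw [this]; exact zero_mem _⟩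
    · rintro p ⟨hp1, hp2⟩
      obtain ⟨u, hu, x, hx, hux⟩ := AddSubgroup.mem_sup.1 hp2
      obtain ⟨h, rfl⟩ := mem_Cst.1 hx
      have hdg : ((fun _ => (0 : F)) + (fun _ => h) * c, fun _ => h) ∈ Dg c := ⟨0, h, rfl, rfl⟩
      have h3 : p = ((0, u) + ((fun _ => (0 : F)) + (fun _ => h) * c, fun _ => h)) +
          (p.1 - ((fun _ => (0 : F)) + (fun _ => h) * c), 0) := by
        refine Prod.ext ?_ ?_
        · simp
        · simp only [Prod.snd_add, add_zero]
          exact hux.symm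
      rw [h3]
      refine AddSubgroup.add_mem_sup (AddSubgroup.add_mem_sup ⟨zero_mem _, hu⟩ hdg) ⟨?_, rfl⟩
      exact (Adl F).sub_mem hp1 (hDU hdg).1
  have h4 : K.relIndex K1 * K1.relIndex ((Adl F).prod (Adl F)) = K.relIndex ((Adl F).prod (Adl F)) :=
    AddSubgroup.relIndex_mul_relIndex _ _ _ (by rw [← hKK1]; exact le_sup_left)
      (AddSubgroup.prod_mono le_rfl hQA)
  rw [← h4]
  congr 1
  · rw [← hKK1, sup_comm, AddSubgroup.relIndex_sup_right]
    have h5 : (Adl F).prod ⊥ = (Adl F).map (AddMonoidHom.inl (DV F → F) (DV F → F)) := by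
      ext p
      constructor
      · rintro ⟨hp1, hp2⟩
        exact ⟨p.1, hp1, Prod.ext rfl (Eq.symm hp2)⟩
      · rintro ⟨a, ha, rfl⟩
        exact ⟨ha, rfl⟩
    rw [h5, ← AddSubgroup.relIndex_comap]
    congr 1
    ext a
    rw [AddSubgroup.mem_comap]
    constructor
    · intro h
      obtain ⟨u, hu, x, ⟨g, h, h1, h2⟩, hux⟩ := AddSubgroup.mem_sup.1 h
      have h6 : u.2 + x.2 = 0 := congrArg Prod.snd hux
      have h7 : u.1 + x.1 = a := congrArg Prod.fst hux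
      have h8 : x.2 ∈ AdG (fun v => (e v : ℤ)) ⊓ Prin F := by
        refine ⟨?_, mem_Cst.2 ⟨h, h2.symm⟩⟩
        have : x.2 = - u.2 := by
          rw [eq_neg_iff_add_eq_zero, add_comm]; exact h6
        rw [this]
        exact (AdG fun v => (e v : ℤ)).neg_mem hu.2
      rw [hcst, AddSubgroup.mem_bot, h2] at h8
      have h9 : (fun _ : DV F => h) * c = 0 := by
        rw [h8]; simp
      rw [← h7, h1, h9, add_zero]
      exact AddSubgroup.add_mem_sup hu.1 (cst_mem g)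
    · intro h
      obtain ⟨u, hu, x, hx, hux⟩ := AddSubgroup.mem_sup.1 h
      obtain ⟨g, rfl⟩ := mem_Cst.1 hx
      rw [← hux]
      have h6 : AddMonoidHom.inl (DV F → F) (DV F → F) (u + fun _ => g) =
          (u, 0) + ((fun _ => g) + (fun _ => (0 : F)) * c, fun _ => 0) := by
        refine Prod.ext ?_ ?_
        · change u + (fun _ => g) = u + ((fun _ => g) + (fun _ => (0 : F)) * c)
          ext v
          simp
        · change (0 : DV F → F) = 0 + fun _ => 0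
          ext v
          simp
      rw [h6]
      exact AddSubgroup.add_mem_sup ⟨hu, zero_mem _⟩ ⟨g, 0, rfl, rfl⟩
  · have h5 : K1 = Q.comap (AddMonoidHom.snd (DV F → F) (DV F → F)) ⊓ (Adl F).prod (Adl F) := by
      ext p
      constructor
      · rintro ⟨hp1, hp2⟩
        exact ⟨hp2, hp1, hQA hp2⟩
      · rintro ⟨hp1, hp2⟩
        exact ⟨hp2.1, hp1⟩
    rw [h5, AddSubgroup.inf_relIndex_right, AddSubgroup.relIndex_comap]
    congr 1
    ext a
    constructor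
    · rintro ⟨p, hp, rfl⟩
      exact hp.2
    · intro ha
      exact ⟨(0, a), ⟨zero_mem _, ha⟩, rfl⟩

end double

end Pool.Agent.FF
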