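import Pool.Agent.FF.TmStr
import Pool.Agent.FF.PlX

/-!
# Places in a cyclic Kummer extension of prime degree

The step `HasPlX` for a Kummer extension: places of every large degree.
-/

set_option autoImplicit false
set_option linter.unusedSectionVars false

namespace Pool.Agent.FF

open Finset

section deg

variable {k K L : Type*} [Field k] [Finite k] [Field K] [Field L] [Algebra k K] [Algebra k L]
  [Algebra K L]

theorem Er.down {w : DV L} {v : DV K} (h : Over w v) {r : ℕ} (hE : Er k w r) : Er k v r := by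
  intro a ha
  have h1 := hE _ ((h.G_zero_iff a).2 ha)
  rw [← map_pow, ← map_sub] at h1
  exact (h.G_one_iff _).1 h1

theorem deg_dvd_of_over {w : DV L} {v : DV K} (h : Over w v) (hw : w.resCard ≠ 0)
    (hv : v.resCard ≠ 0) : deg k v ∣ deg k w :=
  dvd_of_Er hv (Er.down h (Er_of_dvd hw dvd_rfl))

theorem deg_le_of_over {w : DV L} {v : DV K} (h : Over w v) (hw : w.resCard ≠ 0)
    (hv : v.resCard ≠ 0) : deg k v ≤ deg k w :=
  Nat.le_of_dvd (deg_pos k w hw) (deg_dvd_of_over h hw hv)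

/-- Places over the same place with the same residue cardinality: the residue map is onto. -/
theorem exists_residue {w : DV L} {v : DV K} (h : Over w v) (hw : w.resCard ≠ 0)
    (he : w.resCard = v.resCard) {x : L} (hx : w.G 0 x) :
    ∃ a : K, v.G 0 a ∧ w.G 1 (x - algebraMap K L a) := by
  classical
  let f : v.O 0 →+ (w.O 0 ⧸ (w.O 1).addSubgroupOf (w.O 0)) :=
    { toFun := fun a => QuotientAddGroup.mk ⟨algebraMap K L a, (h.G_zero_iff _).2 a.2⟩
      map_zero' := by
        rw [QuotientAddGroup.eq_zero_iff, AddSubgroup.mem_addSubgroupOf]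
        show w.G 1 (algebraMap K L 0)
        rw [map_zero]
        exact DV.G_zero 1
      map_add' := fun a b => by
        rw [← QuotientAddGroup.mk_add]
        congr 1
        apply Subtype.ext
        show algebraMap K L ((a : K) + b) = algebraMap K L a + algebraMap K L b
        rw [map_add] }
  have hker : (v.O 1).addSubgroupOf (v.O 0) = f.ker := by
    ext a
    rw [AddSubgroup.mem_addSubgroupOf, AddMonoidHom.mem_ker]
    show v.G 1 (a : K) ↔ QuotientAddGroup.mk _ = (0 : w.O 0 ⧸ (w.O 1).addSubgroupOf (w.O 0))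
    rw [QuotientAddGroup.eq_zero_iff, AddSubgroup.mem_addSubgroupOf]
    exact (h.G_one_iff _).symm
  have hfin : Finite (w.O 0 ⧸ (w.O 1).addSubgroupOf (w.O 0)) := Nat.finite_of_card_ne_zero hw
  have hc1 : Nat.card (w.O 0 ⧸ (w.O 1).addSubgroupOf (w.O 0)) = w.resCard := rfl
  have hc2 : Nat.card (v.O 0 ⧸ f.ker) = v.resCard := by
    rw [← hker]
    rfl
  have hc3 : Nat.card f.range = Nat.card (w.O 0 ⧸ (w.O 1).addSubgroupOf (w.O 0)) := by
    rw [hc1, he, ← hc2]
    exact (Nat.card_congr (QuotientAddGroup.quotientKerEquivRange f).toEquiv).symm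
  have htop : f.range = ⊤ := AddSubgroup.eq_top_of_card_eq _ hc3
  obtain ⟨a, ha⟩ : (QuotientAddGroup.mk ⟨x, hx⟩ : w.O 0 ⧸ (w.O 1).addSubgroupOf (w.O 0)) ∈ f.range := by
    rw [htop]
    trivial
  refine ⟨a, a.2, ?_⟩
  have h1 : (QuotientAddGroup.mk ⟨algebraMap K L a, (h.G_zero_iff _).2 a.2⟩ :
      w.O 0 ⧸ (w.O 1).addSubgroupOf (w.O 0)) = QuotientAddGroup.mk ⟨x, hx⟩ := ha
  rw [QuotientAddGroup.eq, AddSubgroup.mem_addSubgroupOf] at h1
  have h2 : w.G 1 (-(algebraMap K L a) + x) := h1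
  have h3 : x - algebraMap K L a = -(algebraMap K L a) + x := by ring
  rw [h3]
  exact h2

end deg

namespace Tm

variable {k K L : Type*} [Field k] [Finite k] [Field K] [Field L] [Algebra k K] [Algebra k L]
  [Algebra K L] [IsScalarTower k K L] [CharP L 2] {n : ℕ} (S : Tm k K L n)

/-- the conjugates of a place -/
def tw (w : DV L) : ℕ → DV L
  | 0 => w
  | j + 1 => (tw w j).comp S.σ

theorem tw_ord (w : DV L) (j : ℕ) (x : L) : (S.tw w j).ord x = w.ord (S.σ^[j] x) := by
  induction j generalizing x with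
  | zero => rfl
  | succ j ih =>
    show (S.tw w j).ord (S.σ x) = _
    rw [ih, Function.iterate_succ_apply]

theorem it_zero (j : ℕ) : S.σ^[j] (0 : L) = 0 := iterate_map_zero S.σ j

theorem it_eq_zero (j : ℕ) (x : L) : S.σ^[j] x = 0 ↔ x = 0 := by
  constructor
  · intro h
    exact (S.σ.injective.iterate j) (h.trans (S.it_zero j).symm)
  · rintro rfl
    exact S.it_zero j

theorem tw_G (w : DV L) (j : ℕ) (m : ℤ) (x : L) : (S.tw w j).G m x ↔ w.G m (S.σ^[j] x) := by
  unfold DV.G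
  rw [S.tw_ord, S.it_eq_zero]

theorem tw_over {w : DV L} {v : DV K} (h : Over w v) (j : ℕ) : Over (S.tw w j) v := by
  induction j with
  | zero => exact h
  | succ j ih => exact ih.comp S.σ S.σK

theorem tw_tw (w : DV L) (i j : ℕ) : S.tw (S.tw w i) j = S.tw w (i + j) := by
  induction j with
  | zero => rfl
  | succ j ih =>
    show (S.tw (S.tw w i) j).comp S.σ = (S.tw w (i + j)).comp S.σ
    rw [ih]

theorem tw_n (w : DV L) : S.tw w n = w := by
  refine DV.eq_of_integral_imp fun a ha => ?_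
  rw [S.tw_G, S.per] at ha
  exact ha

theorem tw_mul_n (w : DV L) (m : ℕ) : S.tw w (n * m) = w := by
  induction m with
  | zero => rfl
  | succ m ih => rw [Nat.mul_succ, ← S.tw_tw, ih, S.tw_n]

theorem tw_mod (w : DV L) (j : ℕ) : S.tw w j = S.tw w (j % n) := by
  conv_lhs => rw [← Nat.div_add_mod j n]
  rw [← S.tw_tw, S.tw_mul_n]

/-- if two conjugates are equal and `n` is prime then all are -/
theorem tw_const (hn : n.Prime) {w : DV L} {i j : ℕ} (hij : i < j) (hj : j < n)
    (h : S.tw w i = S.tw w j) (m : ℕ) : S.tw w m = w := by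
  -- `d = j - i` is a period
  have hd : S.tw w (j - i) = w := by
    have h1 : S.tw (S.tw w i) (n - i) = S.tw (S.tw w j) (n - i) := by rw [h]
    rw [S.tw_tw, S.tw_tw, show i + (n - i) = n by omega, S.tw_n,
      show j + (n - i) = n + (j - i) by omega, ← S.tw_tw, S.tw_n] at h1
    exact h1.symm
  have hmul : ∀ l : ℕ, S.tw w ((j - i) * l) = w := by
    intro l
    induction l with
    | zero => rfl
    | succ l ih => rw [Nat.mul_succ, ← S.tw_tw, ih, hd]
  have hcop : Nat.Coprime (j - i) n :=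
    (Nat.coprime_of_lt_prime (by omega) (by omega) hn).symm
  -- `(j - i) * l ≡ m` mod `n`
  obtain ⟨l, hl⟩ : ∃ l : ℕ, (j - i) * l ≡ m [MOD n] := by
    obtain ⟨l, -, hl⟩ := Nat.exists_mul_mod_eq_one_of_coprime hcop hn.one_lt
    refine ⟨l * m, ?_⟩
    rw [← mul_assoc]
    have h2 : (j - i) * l ≡ 1 [MOD n] := by
      rw [Nat.ModEq, hl, Nat.mod_eq_of_lt hn.one_lt]
    have h3 := h2.mul_right m
    rwa [one_mul] at h3
  have h4 := hmul l
  rw [S.tw_mod, hl, ← S.tw_mod] at h4
  exact h4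

theorem it_sub (j : ℕ) (x y : L) : S.σ^[j] (x - y) = S.σ^[j] x - S.σ^[j] y :=
  iterate_map_sub S.σ j x y

theorem it_one (j : ℕ) : S.σ^[j] (1 : L) = 1 := iterate_map_one S.σ j

theorem prod_shift {M : Type*} [CommMonoid M] (F : ℕ → M) (m : ℕ) (h : F m = F 0) :
    ∏ j ∈ range m, F (j + 1) = ∏ j ∈ range m, F j := by
  cases m with
  | zero => rfl
  | succ m => rw [prod_range_succ, prod_range_succ', h]

/-- the conjugates exhaust the fibre -/
theorem fibre {g : ℕ} (C : Cv k L g) {R : DV K} {R' : DV L} (hR' : Over R' R)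
    (hu : ∀ w : DV L, Over w R → w = R') {v : DV K} {w w' : DV L} (hw : Over w v)
    (hw' : Over w' v) : ∃ j < n, w' = S.tw w j := by
  classical
  by_cases hv : v = R
  · subst hv
    exact ⟨0, S.n_pos, (hu w' hw').trans (hu w hw).symm⟩
  have hne : ∀ u : DV L, Over u v → u ≠ R' := by
    rintro u hu1 rfl
    exact hv (hu1.unique hR')
  by_contra hcon
  push Not at hcon
  let W : Finset (DV L) := insert w' ((range n).image fun j => S.tw w j)
  have hWR : R' ∉ W := by
    intro h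
    rcases mem_insert.1 h with h | h
    · exact hne w' hw' h.symm
    · obtain ⟨j, -, hj⟩ := mem_image.1 h
      exact hne _ (S.tw_over hw j) hj
  obtain ⟨N, y, ⟨-, hy⟩, hyW⟩ := strong_approx C W hWR (fun u => if u = w' then 0 else 1) (by
    intro u _
    show u.G 0 (if u = w' then (0 : L) else 1)
    split_ifs
    · exact DV.G_zero 0
    · exact DV.G_one)
  -- the norm
  obtain ⟨a, ha⟩ := S.fix (∏ j ∈ range n, S.σ^[j] y) (by
    rw [map_prod]
    have h1 : ∀ j, S.σ (S.σ^[j] y) = S.σ^[j + 1] y := fun j => (Function.iterate_succ_apply' _ _ _).symm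
    rw [prod_congr rfl fun j _ => h1 j]
    exact prod_shift (fun j => S.σ^[j] y) n (S.per y))
  -- at `w`
  have h1 : w.G 1 (algebraMap K L (a - 1)) := by
    rw [map_sub, map_one, ha]
    have h2 : ∀ T : Finset ℕ, T ⊆ range n → w.G 1 (∏ j ∈ T, S.σ^[j] y - 1) := by
      intro T
      induction T using Finset.induction_on with
      | empty => intro _; simpa using DV.G_zero 1
      | insert j T hj ih =>
        intro hT
        have hjn : j < n := mem_range.1 (hT (mem_insert_self _ _))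
        rw [prod_insert hj]
        have h3 := ih ((subset_insert _ _).trans hT)
        have h4 : w.G 1 (S.σ^[j] y - 1) := by
          have h5 := hyW (S.tw w j) (mem_insert_of_mem (mem_image.2 ⟨j, mem_range.2 hjn, rfl⟩))
          have h6 : (if S.tw w j = w' then (0 : L) else 1) = 1 := if_neg (hcon j hjn).symm
          rw [h6, S.tw_G, S.it_sub, S.it_one] at h5
          exact h5
        have h7 := cong_mul h4 h3 ?_ DV.G_one
        · rwa [mul_one] at h7
        · have h8 := (h3.mono (by norm_num : (0 : ℤ) ≤ 1)).add (DV.G_one (v := w))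
          rwa [sub_add_cancel] at h8
    exact h2 _ subset_rfl
  have h2 : w'.G 1 (algebraMap K L a) := by
    rw [ha]
    have h0 : 0 ∈ range n := mem_range.2 S.n_pos
    rw [← mul_prod_erase _ _ h0]
    have h3 : w'.G 1 y := by
      have h5 := hyW w' (mem_insert_self _ _)
      rw [if_pos rfl, sub_zero] at h5
      exact h5
    have h4 : ∀ T : Finset ℕ, w'.G 0 (∏ j ∈ T, S.σ^[j] y) := by
      intro T
      induction T using Finset.induction_on with
      | empty => simpa using DV.G_one (v := w')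
      | insert j T hj ih =>
        rw [prod_insert hj]
        have h5 : w'.G 0 (S.σ^[j] y) := (S.tw_G w' j 0 y).1 (hy _ (hne _ (S.tw_over hw' j)))
        simpa using h5.mul ih
    simpa using h3.mul (h4 _)
  have h3 := (hw.G_one_iff _).1 h1
  have h4 := (hw'.G_one_iff _).1 h2
  have h5 : v.G 1 (1 : K) := by
    have := h4.sub h3
    rwa [sub_sub_cancel] at this
  have h6 := h5.le one_ne_zero
  rw [v.ord_one] at h6
  omega

include S in
/-- few places -/
theorem few {g g' : ℕ} (hcv : Cv k K g) (C : Cv k L g') {R : DV K} {R' : DV L} (hR' : Over R' R)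
    (hu : ∀ w : DV L, Over w R → w = R') {D N : ℕ} (h : Few k K D N) : Few k L D (n * N) := by
  classical
  intro A hA
  have h1 : ∀ v ∈ A.image S.dn, deg k v ≤ D := by
    intro v hv
    obtain ⟨w, hw, rfl⟩ := mem_image.1 hv
    exact (deg_le_of_over (S.dn_over w) (C.resCard_ne w) (hcv.resCard_ne _)).trans (hA w hw)
  calc A.card ≤ n * (A.image S.dn).card := by
        refine card_le_mul_card_image A n fun v _ => ?_
        rcases (A.filter fun w => S.dn w = v).eq_empty_or_nonempty with h0 | ⟨w, hw⟩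
        · rw [h0, card_empty]
          exact Nat.zero_le _
        · have hwv : Over w v := by
            have := (mem_filter.1 hw).2
            rw [← this]
            exact S.dn_over w
          have hsub : (A.filter fun w => S.dn w = v) ⊆ (range n).image fun j => S.tw w j := by
            intro w' hw'
            have hwv' : Over w' v := by
              have := (mem_filter.1 hw').2
              rw [← this]
              exact S.dn_over w'
            obtain ⟨j, hj, rfl⟩ := S.fibre C hR' hu hwv hwv'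
            exact mem_image.2 ⟨j, mem_range.2 hj, rfl⟩
          exact (card_le_card hsub).trans (card_image_le.trans (card_range n).le)
    _ ≤ n * N := Nat.mul_le_mul_left _ (h _ h1)

theorem G_z_pow (w : DV L) (j : ℕ) : w.G 0 (S.z ^ j) := by
  rw [z, ← map_pow]
  exact G_algebraMap w _

theorem G_zinv_pow (w : DV L) (j : ℕ) : w.G 0 (S.z⁻¹ ^ j) := by
  rw [z, ← map_inv₀, ← map_pow]
  exact G_algebraMap w _

/-- the value of `θ` at good places -/
theorem ord_θ {v : DV K} {w : DV L} (hw : Over w v) (hv : v.ord S.Θ = 0) : w.ord S.θ = 0 := by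
  obtain ⟨e, he, h⟩ := hw
  have h1 := h _ S.Θ_ne
  rw [hv, mul_zero, S.Θ_spec, w.ord_pow S.θ_ne] at h1
  rcases mul_eq_zero.1 h1 with h2 | h2
  · have := S.n_pos
    omega
  · exact h2

theorem G_θ {v : DV K} {w : DV L} (hw : Over w v) (hv : v.ord S.Θ = 0) : w.G 0 S.θ :=
  DV.G_of_le (S.ord_θ hw hv).ge

/-- **The action of the Frobenius** on elements integral on the fibre. -/
theorem frob_cong {v : DV K} {w : DV L} (hw : Over w v) (hv : v.ord S.Θ = 0) {r M i : ℕ}
    (hM : Nat.card k ^ r = 2 ^ M) (hE : Er k v r)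
    (hi : w.G 1 (S.θ ^ (Nat.card k ^ r) - S.z ^ i * S.θ)) {x : L}
    (hx : ∀ j, w.G 0 (S.σ^[j] x)) : w.G 1 (x ^ (Nat.card k ^ r) - S.σ^[i] x) := by
  classical
  obtain ⟨a, ha⟩ := S.exists_coords x
  have hGθ := S.G_θ hw hv
  have haint : ∀ l < n, v.G 0 (a l) := by
    intro l hl
    have h1 : w.G 0 (S.E l x) := by
      unfold E
      refine G_sum _ _ fun j _ => ?_
      simpa using (S.G_zinv_pow w (l * j)).mul (hx j)
    rw [ha, S.E_coords hl] at h1
    rw [← hw.G_zero_iff]
    by_cases h0 : algebraMap K L (a l) = 0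
    · rw [h0]
      exact DV.G_zero 0
    · have h2 := h1.le (mul_ne_zero h0 (pow_ne_zero l S.θ_ne))
      rw [w.ord_mul _ _ h0 (pow_ne_zero l S.θ_ne), w.ord_pow S.θ_ne, S.ord_θ hw hv, mul_zero,
        add_zero] at h2
      exact DV.G_of_le h2
  have hσ : ∀ m, S.σ^[m] x = ∑ l ∈ range n, algebraMap K L (a l) * (S.z ^ m * S.θ) ^ l := by
    intro m
    conv_lhs => rw [ha]
    have h1 : ∀ T : Finset ℕ, S.σ^[m] (∑ l ∈ T, algebraMap K L (a l) * S.θ ^ l) =
        ∑ l ∈ T, algebraMap K L (a l) * (S.z ^ m * S.θ) ^ l := by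
      intro T
      induction T using Finset.induction_on with
      | empty => simp [S.it_zero]
      | insert l T hl ih =>
        rw [sum_insert hl, sum_insert hl, S.it_add, ih, S.it_mul, S.it_K,
          iterate_map_pow S.σ m S.θ l, S.it_θ]
    exact h1 _
  have hpow : x ^ (Nat.card k ^ r) =
      ∑ l ∈ range n, algebraMap K L (a l) ^ (Nat.card k ^ r) * (S.θ ^ (Nat.card k ^ r)) ^ l := by
    conv_lhs => rw [ha]
    rw [hM, sum_pow_char_pow]
    refine sum_congr rfl fun l _ => ?_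
    rw [mul_pow, ← pow_mul, ← pow_mul, mul_comm l]
  rw [hpow, hσ i, ← sum_sub_distrib]
  refine G_sum _ _ fun l hl => ?_
  have hl' := haint l (mem_range.1 hl)
  have h1 : w.G 1 (algebraMap K L (a l) ^ (Nat.card k ^ r) - algebraMap K L (a l)) := by
    rw [← map_pow, ← map_sub]
    exact (hw.G_one_iff _).2 (hE _ hl')
  have hG1 : w.G 0 (algebraMap K L (a l)) := (hw.G_zero_iff _).2 hl'
  have hG2 : w.G 0 (S.z ^ i * S.θ) := by simpa using (S.G_z_pow w i).mul hGθ
  have hG3 : w.G 0 (S.θ ^ (Nat.card k ^ r)) := G_pow0 hGθ _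
  exact cong_mul h1 (cong_pow hi hG3 hG2 l) (G_pow0 hG3 l) hG1

include S in
/-- `n` divides `q - 1` -/
theorem n_dvd : n ∣ Nat.card k - 1 := by
  have h1 : S.ζ ^ (Nat.card k - 1) = 1 := by
    cases nonempty_fintype k
    rw [Nat.card_eq_fintype_card]
    exact FiniteField.pow_card_sub_one_eq_one _ (S.prim.ne_zero S.n_pos.ne')
  exact S.prim.dvd_of_pow_eq_one _ h1

include S in
theorem n_dvd_pow (r : ℕ) : n ∣ Nat.card k ^ r - 1 :=
  S.n_dvd.trans (by simpa using Nat.sub_dvd_pow_sub_pow (Nat.card k) 1 r)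

/-- the class of a place -/
theorem exists_class {v : DV K} (hv : v.ord S.Θ = 0) {r : ℕ} (hE : Er k v r) :
    ∃ i < n, ∀ w : DV L, Over w v → w.G 1 (S.θ ^ (Nat.card k ^ r) - S.z ^ i * S.θ) := by
  classical
  obtain ⟨m, hm⟩ := S.n_dvd_pow r
  have hq : 1 ≤ Nat.card k ^ r := Nat.one_le_pow _ _ Nat.card_pos
  have hQ : Nat.card k ^ r = n * m + 1 := by omega
  -- `u = Θ ^ m`, `u ^ n ≡ 1`
  have h1 : v.G 1 (S.Θ ^ (Nat.card k ^ r) - S.Θ) := hE _ (DV.G_of_le hv.ge)
  have h2 : v.G 1 ((S.Θ ^ m) ^ n - 1) := by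
    have h3 : S.Θ ^ (Nat.card k ^ r) - S.Θ = S.Θ * ((S.Θ ^ m) ^ n - 1) := by
      rw [hQ, pow_succ, ← pow_mul, mul_comm m n]
      ring
    rw [h3] at h1
    rcases G1_mul h1 with h4 | h4
    · have := h4.le S.Θ_ne
      omega
    · exact h4
  -- factorisation
  have hprimK : IsPrimitiveRoot (algebraMap k K S.ζ) n :=
    S.prim.map_of_injective (algebraMap k K).injective
  have h5 : (S.Θ ^ m) ^ n - 1 = ∏ c ∈ Polynomial.nthRootsFinset n (1 : K), (S.Θ ^ m - c) := by
    have h6 := congrArg (Polynomial.eval (S.Θ ^ m)) (Polynomial.X_pow_sub_one_eq_prod S.n_pos hprimK)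
    rw [Polynomial.eval_prod] at h6
    simpa using h6
  have h6 : ∀ T : Finset K, v.G 1 (∏ c ∈ T, (S.Θ ^ m - c)) → ∃ c ∈ T, v.G 1 (S.Θ ^ m - c) := by
    intro T
    induction T using Finset.induction_on with
    | empty =>
      intro h
      rw [prod_empty] at h
      have := h.le one_ne_zero
      rw [v.ord_one] at this
      omega
    | insert c T hc ih =>
      intro h
      rw [prod_insert hc] at h
      rcases G1_mul h with h7 | h7
      · exact ⟨c, mem_insert_self _ _, h7⟩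
      · obtain ⟨c', hc', h8⟩ := ih h7
        exact ⟨c', mem_insert_of_mem hc', h8⟩
  rw [h5] at h2
  obtain ⟨c, hc, h7⟩ := h6 _ h2
  have : NeZero n := ⟨S.n_pos.ne'⟩
  obtain ⟨i, hi, rfl⟩ := hprimK.eq_pow_of_pow_eq_one ((Polynomial.mem_nthRootsFinset S.n_pos 1).1 hc)
  refine ⟨i, hi, fun w hw => ?_⟩
  have h8 : S.θ ^ (Nat.card k ^ r) - S.z ^ i * S.θ =
      algebraMap K L (S.Θ ^ m - algebraMap k K S.ζ ^ i) * S.θ := by
    rw [map_sub, map_pow, map_pow, S.Θ_spec, ← IsScalarTower.algebraMap_apply k K L, hQ, pow_succ,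
      pow_mul]
    rw [show S.z = algebraMap k L S.ζ from rfl]
    ring
  rw [h8]
  simpa using ((hw.G_one_iff _).2 h7).mul (S.G_θ hw hv)

theorem frob_LR {v : DV K} {w : DV L} (hw : Over w v) {R : DV K} {R' : DV L} (hR' : Over R' R)
    (hvR : v ≠ R) (hv : v.ord S.Θ = 0) {r M i : ℕ} (hM : Nat.card k ^ r = 2 ^ M) (hE : Er k v r)
    (hi : w.G 1 (S.θ ^ (Nat.card k ^ r) - S.z ^ i * S.θ)) {x : L}
    (hx : ∀ u : DV L, u ≠ R' → u.G 0 x) : w.G 1 (x ^ (Nat.card k ^ r) - S.σ^[i] x) := by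
  refine S.frob_cong hw hv hM hE hi fun j => ?_
  rw [← S.tw_G]
  refine hx _ ?_
  rintro rfl
  exact hvR ((S.tw_over hw j).unique hR')

/-- the residue field at a place of class `0` -/
theorem Er_up {g' : ℕ} (C : Cv k L g') {v : DV K} {w : DV L} (hw : Over w v) {R : DV K}
    {R' : DV L} (hR' : Over R' R) (hvR : v ≠ R) (hv : v.ord S.Θ = 0) {r M : ℕ}
    (hM : Nat.card k ^ r = 2 ^ M) (hE : Er k v r)
    (hi : w.G 1 (S.θ ^ (Nat.card k ^ r) - S.z ^ 0 * S.θ)) : Er k w r := by
  classical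
  intro x hx
  have hwR : w ≠ R' := by
    rintro rfl
    exact hvR (hw.unique hR')
  obtain ⟨N, y, ⟨-, hy⟩, hyW⟩ := strong_approx C {w} (by
    rw [mem_singleton]
    exact fun h => hwR h.symm) (fun _ => x) (by
    intro u hu
    rw [mem_singleton] at hu
    rw [hu]
    exact hx)
  have h1 := hyW w (mem_singleton_self _)
  have h2 := S.frob_LR hw hR' hvR hv hM hE hi hy
  rw [Function.iterate_zero, id] at h2
  have hy0 : w.G 0 y := hy w hwR
  have h3 := cong_pow h1 hy0 hx (Nat.card k ^ r)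
  have h4 : x ^ (Nat.card k ^ r) - x = (y ^ (Nat.card k ^ r) - y) + (y - x) -
      (y ^ (Nat.card k ^ r) - x ^ (Nat.card k ^ r)) := by ring
  rw [h4]
  exact (h2.add h1).sub h3

include S in
theorem card_two_pow : ∃ a : ℕ, Nat.card k = 2 ^ a := by
  have h1 : CharP k 2 := (algebraMap k L).charP (algebraMap k L).injective 2
  cases nonempty_fintype k
  obtain ⟨a, -, ha⟩ := FiniteField.card k 2
  exact ⟨a, by rw [Nat.card_eq_fintype_card, ha]⟩

theorem z_pow_card (r : ℕ) : S.z ^ (Nat.card k ^ r) = S.z := by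
  obtain ⟨m, hm⟩ := S.n_dvd_pow r
  have hq : 1 ≤ Nat.card k ^ r := Nat.one_le_pow _ _ Nat.card_pos
  have hQ : Nat.card k ^ r = n * m + 1 := by omega
  rw [hQ, pow_succ, pow_mul, S.z_pow, one_pow, one_mul]

/-- iterating the Frobenius -/
theorem θ_iter {v : DV K} {w : DV L} (hw : Over w v) (hv : v.ord S.Θ = 0) {d i : ℕ}
    (hi : w.G 1 (S.θ ^ (Nat.card k ^ d) - S.z ^ i * S.θ)) (m : ℕ) :
    w.G 1 (S.θ ^ (Nat.card k ^ (d * m)) - S.z ^ (i * m) * S.θ) := by
  have hGθ := S.G_θ hw hv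
  induction m with
  | zero => simpa using DV.G_zero 1
  | succ m ih =>
    have hG1 : w.G 0 (S.θ ^ (Nat.card k ^ (d * m))) := G_pow0 hGθ _
    have hG2 : w.G 0 (S.z ^ (i * m) * S.θ) := by simpa using (S.G_z_pow w (i * m)).mul hGθ
    have h1 := cong_pow ih hG1 hG2 (Nat.card k ^ d)
    have h2 : (S.z ^ (i * m) * S.θ) ^ (Nat.card k ^ d) =
        S.z ^ (i * m) * S.θ ^ (Nat.card k ^ d) := by
      rw [mul_pow, ← pow_mul, mul_comm (i * m), pow_mul, S.z_pow_card]
    have h3 : w.G 1 (S.z ^ (i * m) * (S.θ ^ (Nat.card k ^ d) - S.z ^ i * S.θ)) := by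
      simpa using (S.G_z_pow w (i * m)).mul hi
    have h4 := h1.add h3
    have h5 : S.θ ^ (Nat.card k ^ (d * (m + 1))) - S.z ^ (i * (m + 1)) * S.θ =
        (S.θ ^ (Nat.card k ^ (d * m))) ^ (Nat.card k ^ d) -
          (S.z ^ (i * m) * S.θ) ^ (Nat.card k ^ d) +
          S.z ^ (i * m) * (S.θ ^ (Nat.card k ^ d) - S.z ^ i * S.θ) := by
      rw [h2, Nat.mul_succ, Nat.mul_succ, pow_add (Nat.card k), pow_mul S.θ, pow_add S.z]
      ring
    rw [h5]
    exact h4

theorem G1_unit {w : DV L} (hθ : w.ord S.θ = 0) {c : k}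
    (h : w.G 1 (algebraMap k L c * S.θ)) : c = 0 := by
  rcases G1_mul h with h1 | h1
  · exact eq_zero_of_G1 w h1
  · have := h1.le S.θ_ne
    omega

/-- **The fundamental inequality** in a good fibre. -/
theorem exists_B (hn : n.Prime) {g g' : ℕ} (hcv : Cv k K g) (C : Cv k L g') {v : DV K} {R : DV K}
    {R' : DV L} (hR' : Over R' R) (hvR : v ≠ R) (hv : v.ord S.Θ = 0) :
    ∃ B : Finset (DV L), (∀ w ∈ B, Over w v) ∧ n * deg k v ≤ ∑ w ∈ B, deg k w := by
  classical
  set w := S.up v with hwdef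
  have hw : Over w v := S.up_over v
  have hresL := C.resCard_ne
  have hresK := hcv.resCard_ne
  by_cases hinj : Set.InjOn (fun j => S.tw w j) (range n : Set ℕ)
  · refine ⟨(range n).image fun j => S.tw w j, ?_, ?_⟩
    · intro u hu
      obtain ⟨j, -, rfl⟩ := mem_image.1 hu
      exact S.tw_over hw j
    · rw [sum_image hinj]
      calc n * deg k v = ∑ _j ∈ range n, deg k v := by rw [sum_const, card_range, smul_eq_mul]
        _ ≤ _ := sum_le_sum fun j _ => deg_le_of_over (S.tw_over hw j) (hresL _) (hresK _)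
  · have hconst : ∀ m, S.tw w m = w := by
      unfold Set.InjOn at hinj
      push Not at hinj
      obtain ⟨i, hi, j, hj, hij, hne⟩ := hinj
      have hi' : i < n := mem_range.1 hi
      have hj' : j < n := mem_range.1 hj
      rcases lt_or_gt_of_ne hne with h | h
      · exact S.tw_const hn h hj' hij
      · exact S.tw_const hn h hi' hij.symm
    refine ⟨{w}, fun u hu => by rw [mem_singleton.1 hu]; exact hw, ?_⟩
    rw [sum_singleton]
    have hd0 : 0 < deg k v := deg_pos k v (hresK v)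
    have hD0 : 0 < deg k w := deg_pos k w (hresL w)
    have hEv : Er k v (deg k v) := Er_of_dvd (hresK v) dvd_rfl
    have hEw : Er k w (deg k w) := Er_of_dvd (hresL w) dvd_rfl
    obtain ⟨f, hf⟩ := deg_dvd_of_over (k := k) hw (hresL w) (hresK v)
    obtain ⟨i, hin, hi⟩ := S.exists_class hv hEv
    obtain ⟨a, ha⟩ := S.card_two_pow
    have hM : Nat.card k ^ deg k v = 2 ^ (a * deg k v) := by rw [ha, pow_mul]
    have hθ0 := S.ord_θ hw hv
    have hGθ := S.G_θ hw hv
    rcases Nat.eq_zero_or_pos i with h0 | hpos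
    · -- class `0`: the residue fields are equal, `θ` is congruent to an element of `K`
      exfalso
      subst h0
      have h1 := S.Er_up C hw hR' hvR hv hM hEv (hi w hw)
      have h2 := dvd_of_Er (hresL w) h1
      have h3 : deg k w = deg k v :=
        Nat.dvd_antisymm h2 (deg_dvd_of_over hw (hresL w) (hresK v))
      have h4 : w.resCard = v.resCard := by
        rw [resCard_eq_pow k w (hresL w), resCard_eq_pow k v (hresK v), h3]
      obtain ⟨b, -, hb⟩ := exists_residue hw (hresL w) h4 hGθ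
      have h5 : w.G 1 (S.z * S.θ - algebraMap K L b) := by
        have h6 : (S.tw w 1).G 1 (S.θ - algebraMap K L b) := by rw [hconst]; exact hb
        rw [S.tw_G, S.it_sub, S.it_K, S.it_θ, pow_one] at h6
        exact h6
      have h6 : w.G 1 (algebraMap k L (S.ζ - 1) * S.θ) := by
        have h7 := h5.sub hb
        have h8 : algebraMap k L (S.ζ - 1) * S.θ =
            S.z * S.θ - algebraMap K L b - (S.θ - algebraMap K L b) := by
          rw [map_sub, map_one, show algebraMap k L S.ζ = S.z from rfl]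
          ring
        rw [h8]
        exact h7
      have h7 := S.G1_unit hθ0 h6
      exact S.prim.ne_one hn.one_lt (sub_eq_zero.1 h7)
    · have h1 := S.θ_iter hw hv (hi w hw) f
      rw [← hf] at h1
      have h2 := hEw _ hGθ
      have h3 : w.G 1 (algebraMap k L (S.ζ ^ (i * f) - 1) * S.θ) := by
        have h4 := h2.sub h1
        have h5 : algebraMap k L (S.ζ ^ (i * f) - 1) * S.θ =
            S.θ ^ Nat.card k ^ deg k w - S.θ -
              (S.θ ^ Nat.card k ^ deg k w - S.z ^ (i * f) * S.θ) := by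
          rw [map_sub, map_one, map_pow, show algebraMap k L S.ζ = S.z from rfl]
          ring
        rw [h5]
        exact h4
      have h4 := sub_eq_zero.1 (S.G1_unit hθ0 h3)
      have h5 : n ∣ i * f := S.prim.dvd_of_pow_eq_one _ h4
      have h6 : n ∣ f := by
        rcases hn.dvd_mul.1 h5 with h7 | h7
        · exact absurd (Nat.le_of_dvd hpos h7) (by omega)
        · exact h7
      have hf0 : 0 < f := by
        rcases Nat.eq_zero_or_pos f with h7 | h7
        · rw [h7, mul_zero] at hf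
          omega
        · exact h7
      rw [hf, mul_comm]
      exact Nat.mul_le_mul_left _ (Nat.le_of_dvd hf0 h6)

end Tm

section step

variable {k K L : Type*} [Field k] [Finite k] [Field K] [Field L] [Algebra k K] [Algebra k L]
  [Algebra K L] [IsScalarTower k K L] [CharP L 2] {n : ℕ} (S : Tm k K L n)

/-- the iterate of `σ` as a homomorphism -/
noncomputable def Tm.τ (i : ℕ) : L →+* L := (S.σ : L →+* L) ^ i

theorem Tm.τ_apply (i : ℕ) (x : L) : S.τ i x = S.σ^[i] x := by
  unfold Tm.τ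
  rw [RingHom.coe_pow]
  rfl

/-- **The step** for a Kummer extension of prime degree. -/
theorem WtX.tm (hn : n.Prime) {g g' : ℕ} (hcv : Cv k K g) (C : Cv k L g') {r s e s' e' C₀ ρ : ℕ}
    (hs : s = 2 ^ e) (hs' : s' = 2 ^ e') (hss : s' ≤ s) (hsq : s * s' = Nat.card k ^ r)
    {R : DV K} {R' : DV L} (hR' : Over R' R) (hu : ∀ w : DV L, Over w R → w = R')
    (hRrat : R'.Rat k) (hRΘ : R.ord S.Θ ≠ 0) (hg : (g' + 1) * (g' + 2) ≤ s)
    (hρ : ∀ A : Finset (DV K), (∀ v ∈ A, v.ord S.Θ ≠ 0) → ∑ v ∈ A, deg k v ≤ ρ)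
    (h : WtX k K r s C₀) : WtX k L r s (n * C₀ + n * ρ + (n - 1) * (2 * g' + 1)) := by
  classical
  have hM : Nat.card k ^ r = 2 ^ (e + e') := by rw [← hsq, hs, hs', pow_add]
  obtain ⟨A, hA, hAs⟩ := h
  set A₁ := A.filter (fun v => v.ord S.Θ = 0) with hA₁
  set A₂ := A.filter (fun v => ¬ v.ord S.Θ = 0) with hA₂
  have hA2 : ∑ v ∈ A₂, deg k v ≤ ρ := hρ A₂ fun v hv => (mem_filter.1 hv).2
  have hA12 : ∑ v ∈ A₁, deg k v + ∑ v ∈ A₂, deg k v = ∑ v ∈ A, deg k v :=
    sum_filter_add_sum_filter_not A _ _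
  have hgood : ∀ v ∈ A₁, Er k v r ∧ v.ord S.Θ = 0 ∧ v ≠ R := fun v hv => by
    obtain ⟨h1, h2⟩ := mem_filter.1 hv
    refine ⟨hA v h1, h2, ?_⟩
    rintro rfl
    exact hRΘ h2
  -- the classes
  have hcl : ∀ v : DV K, ∃ i : ℕ, v ∈ A₁ → i < n ∧
      ∀ w : DV L, Over w v → w.G 1 (S.θ ^ (Nat.card k ^ r) - S.z ^ i * S.θ) := by
    intro v
    by_cases hv : v ∈ A₁
    · obtain ⟨i, hi, h1⟩ := S.exists_class (hgood v hv).2.1 (hgood v hv).1
      exact ⟨i, fun _ => ⟨hi, h1⟩⟩
    · exact ⟨0, fun h => absurd h hv⟩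
  choose cl hcl using hcl
  -- the fibres
  have hB : ∀ v : DV K, ∃ B : Finset (DV L), v ∈ A₁ →
      (∀ w ∈ B, Over w v) ∧ n * deg k v ≤ ∑ w ∈ B, deg k w := by
    intro v
    by_cases hv : v ∈ A₁
    · obtain ⟨B, hB⟩ := S.exists_B hn hcv C hR' (hgood v hv).2.2 (hgood v hv).2.1
      exact ⟨B, fun _ => hB⟩
    · exact ⟨∅, fun h => absurd h hv⟩
  choose B hB using hB
  let V : ℕ → Finset (DV K) := fun i => A₁.filter (fun v => cl v = i)
  let W : ℕ → Finset (DV L) := fun i => (V i).biUnion B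
  have hVA : ∀ i, ∀ v ∈ V i, v ∈ A₁ ∧ cl v = i := fun i v hv => mem_filter.1 hv
  have hsum : ∑ v ∈ A₁, deg k v = ∑ i ∈ range n, ∑ v ∈ V i, deg k v :=
    (sum_fiberwise_of_maps_to (fun v hv => mem_range.2 (hcl v hv).1) _).symm
  have hW : ∀ i, n * ∑ v ∈ V i, deg k v ≤ ∑ w ∈ W i, deg k w := by
    intro i
    have h1 : ∑ w ∈ W i, deg k w = ∑ v ∈ V i, ∑ w ∈ B v, deg k w := by
      refine sum_biUnion fun v hv v' hv' hne => ?_
      rw [Function.onFun, disjoint_left]
      intro w hw hw'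
      exact hne (((hB v (hVA i v hv).1).1 w hw).unique ((hB v' (hVA i v' hv').1).1 w hw'))
    rw [h1, mul_sum]
    exact sum_le_sum fun v hv => (hB v (hVA i v hv).1).2
  have hWov : ∀ i, ∀ w ∈ W i, ∃ v ∈ A₁, cl v = i ∧ Over w v := by
    intro i w hw
    obtain ⟨v, hv, hwv⟩ := mem_biUnion.1 hw
    exact ⟨v, (hVA i v hv).1, (hVA i v hv).2, (hB v (hVA i v hv).1).1 w hwv⟩
  -- Bombieri
  have hRR : RRone k (deg k) R' g' := C.rrone hRrat
  have hbomb : ∀ i ∈ (range n).erase 0, n * ∑ v ∈ V i, deg k v ≤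
      Nat.card k ^ r + (2 * g' + 1) * s := by
    intro i _
    refine (hW i).trans ?_
    have h1 := bombieriX hRR (S.τ i) (fun m x hx => by
      rw [S.τ_apply]
      refine ⟨?_, fun w hw => ?_⟩
      · rw [← S.tw_G, hu _ (S.tw_over hR' i)]
        exact hx.1
      · rw [← S.tw_G]
        refine hx.2 _ fun h => hw ?_
        have h1 : Over (S.tw w i) (S.dn w) := S.tw_over (S.dn_over w) i
        rw [h] at h1
        have h2 := S.dn_over w
        rw [h1.unique hR'] at h2
        exact hu _ h2) hs hs' hss hg (W i) (by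
      intro w hw
      obtain ⟨v, hv, hclv, hwv⟩ := hWov i w hw
      obtain ⟨hE, hΘ, hvR⟩ := hgood v hv
      refine ⟨?_, fun m x hx => ?_⟩
      · rintro rfl
        exact hvR (hwv.unique hR')
      · rw [hsq, S.τ_apply]
        have h2 := (hcl v hv).2 w hwv
        rw [hclv] at h2
        exact S.frob_LR hwv hR' hvR hΘ hM hE h2 hx.2)
    rw [hsq] at h1
    omega
  refine ⟨W 0, ?_, ?_⟩
  · intro w hw
    obtain ⟨v, hv, hclv, hwv⟩ := hWov 0 w hw
    obtain ⟨hE, hΘ, hvR⟩ := hgood v hv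
    have h2 := (hcl v hv).2 w hwv
    rw [hclv] at h2
    exact S.Er_up C hwv hR' hvR hΘ hM hE h2
  · have h0 : 0 ∈ range n := mem_range.2 hn.pos
    have h1 : n * ∑ v ∈ A₁, deg k v ≤ ∑ w ∈ W 0, deg k w +
        (n - 1) * (Nat.card k ^ r + (2 * g' + 1) * s) := by
      rw [hsum, mul_sum, ← add_sum_erase _ _ h0]
      refine Nat.add_le_add (hW 0) ?_
      calc ∑ i ∈ (range n).erase 0, n * ∑ v ∈ V i, deg k v
          ≤ ∑ _i ∈ (range n).erase 0, (Nat.card k ^ r + (2 * g' + 1) * s) := sum_le_sum hbomb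
        _ = _ := by rw [sum_const, card_erase_of_mem h0, card_range, smul_eq_mul]
    have hs1 : 1 ≤ s := by rw [hs]; exact Nat.one_le_two_pow
    set Q := Nat.card k ^ r with hQ
    have h2 : Q ≤ ∑ v ∈ A₁, deg k v + ρ + C₀ * s := by omega
    have h3 : n * Q ≤ n * ∑ v ∈ A₁, deg k v + n * ρ + n * (C₀ * s) := by
      calc n * Q ≤ n * (∑ v ∈ A₁, deg k v + ρ + C₀ * s) := Nat.mul_le_mul_left _ h2
        _ = _ := by ring
    have h4 : n * Q = Q + (n - 1) * Q := by
      obtain ⟨m, rfl⟩ : ∃ m, n = m + 1 := ⟨n - 1, by have := hn.pos; omega⟩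
      rw [Nat.add_sub_cancel]
      ring
    have h5 : (n - 1) * (Q + (2 * g' + 1) * s) = (n - 1) * Q + (n - 1) * (2 * g' + 1) * s := by ring
    have h6 : (n * C₀ + n * ρ + (n - 1) * (2 * g' + 1)) * s =
        n * (C₀ * s) + n * ρ * s + (n - 1) * (2 * g' + 1) * s := by ring
    have h7 : n * ρ ≤ n * ρ * s := Nat.le_mul_of_pos_right _ hs1
    rw [h6]
    rw [h5] at h1
    omega

/-- **The step.** -/
theorem HasPlX.tm (hn : n.Prime) {g g' : ℕ} (hcv : Cv k K g) (C : Cv k L g')
    {R : DV K} {R' : DV L} (hR' : Over R' R) (hu : ∀ w : DV L, Over w R → w = R')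
    (hRrat : R'.Rat k) (hRΘ : R.ord S.Θ ≠ 0) {ρ : ℕ}
    (hρ : ∀ A : Finset (DV K), (∀ v ∈ A, v.ord S.Θ ≠ 0) → ∑ v ∈ A, deg k v ≤ ρ)
    {B C₀ M : ℕ} (h : HasPlX k K B C₀ M) :
    HasPlX k L (max B ((g' + 1) * (g' + 2))) (n * C₀ + n * ρ + (n - 1) * (2 * g' + 1)) (n * M) where
  wt r s e s' e' hr hs hs' hss hsq hBs :=
    WtX.tm S hn hcv C hs hs' hss hsq hR' hu hRrat hRΘ ((le_max_right _ _).trans hBs) hρ
      (h.wt r s e s' e' hr hs hs' hss hsq ((le_max_left _ _).trans hBs))
  few D := by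
    have h1 := S.few hcv C hR' hu (h.few D)
    rwa [← mul_assoc] at h1

end step

end Pool.Agent.FF
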