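import Pool.Agent.FF.KlUp

/-! # Places of Kummer extensions -/

set_option autoImplicit false
set_option linter.unusedSectionVars false

namespace Pool.Agent.FF

open Finset RRD

theorem DV.not_G_prod {F ι : Type*} [Field F] {w : DV F} (s : Finset ι) (f : ι → F)
    (h : ∀ i ∈ s, ¬ w.G 1 (f i)) : ¬ w.G 1 (∏ i ∈ s, f i) := by
  classical
  induction s using Finset.induction_on with
  | empty =>
    rw [prod_empty, DV.not_G one_ne_zero, w.ord_one]
    norm_num
  | insert a s ha ih =>
    have h1 := h a (mem_insert_self a s)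
    have h2 := ih fun i hi => h i (mem_insert_of_mem hi)
    have a1 := DV.ne_zero_of_not_G h1
    have a2 := DV.ne_zero_of_not_G h2
    rw [prod_insert ha, DV.not_G (mul_ne_zero a1 a2), w.ord_mul _ _ a1 a2]
    have b1 := (DV.not_G a1).1 h1
    have b2 := (DV.not_G a2).1 h2
    omega

theorem DV.G_pow_sub {F : Type*} [Field F] {w : DV F} {a b : F} (ha : w.G 0 a) (hb : w.G 0 b)
    (h : w.G 1 (a - b)) (i : ℕ) : w.G 1 (a ^ i - b ^ i) := by
  induction i with
  | zero => simpa using DV.G_zero (v := w) 1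
  | succ i ih =>
    have e : a ^ (i + 1) - b ^ (i + 1) = a * (a ^ i - b ^ i) + (a - b) * b ^ i := by ring
    rw [e]
    have h1 := ha.mul ih
    have h2 := h.mul (hb.pow i)
    rw [zero_add] at h1
    rw [mul_zero, add_zero] at h2
    exact h1.add h2

namespace Tm

variable {k K L : Type*} [Field k] [Finite k] [Field K] [Field L] [Algebra k K] [Algebra k L]
  [Algebra K L] [IsScalarTower k K L] [CharP L 2] {n : ℕ} (S : Tm k K L n)

theorem z_prim : IsPrimitiveRoot S.z n := S.prim.map_of_injective (algebraMap k L).injective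

theorem exists_factor {w : DV L} {c : L} (hw : w.G 1 (S.θ ^ n - c ^ n)) :
    ∃ j < n, w.G 1 (S.θ - S.z ^ j * c) := by
  classical
  rw [S.z_prim.pow_sub_pow_eq_prod_sub_mul _ _ S.n_pos] at hw
  by_contra hno
  push Not at hno
  refine DV.not_G_prod _ _ (fun μ hμ => ?_) hw
  rw [Polynomial.mem_nthRootsFinset S.n_pos] at hμ
  have : NeZero n := ⟨S.n_pos.ne'⟩
  obtain ⟨i, hi, rfl⟩ := S.z_prim.eq_pow_of_pow_eq_one hμ
  exact hno i hi

/-- the places over a place at which `Θ` is congruent to an `n`-th power of a constant -/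
theorem exists_over_residue {v : DV K} {c : k}
    (hΘ : v.G 1 (S.Θ - algebraMap k K (c ^ n))) (l : ℕ) :
    ∃ w : DV L, Over w v ∧ w.G 1 (S.θ - algebraMap k L (S.ζ ^ l * c)) := by
  have h1 : (S.up v).G 1 (S.θ ^ n - (algebraMap k L c) ^ n) := by
    rw [← S.Θ_spec, ← map_pow, IsScalarTower.algebraMap_apply k K L, ← map_sub,
      (S.up_over v).G_one_iff]
    exact hΘ
  obtain ⟨j, hj, hw⟩ := S.exists_factor h1
  obtain ⟨w, hw1, hw2⟩ := S.exists_it (S.up v) (l + (n - j))
  refine ⟨w, hw2 v (S.up_over v), ?_⟩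
  have e : S.σ^[l + (n - j)] (S.θ - algebraMap k L (S.ζ ^ l * c)) =
      S.z ^ (l + (n - j)) * (S.θ - S.z ^ j * algebraMap k L c) := by
    have h2 : S.σ^[l + (n - j)] (algebraMap k L (S.ζ ^ l * c)) = algebraMap k L (S.ζ ^ l * c) := by
      rw [IsScalarTower.algebraMap_apply k K L, S.it_K]
    have h3 : S.σ^[l + (n - j)] (S.θ - algebraMap k L (S.ζ ^ l * c)) =
        S.σ^[l + (n - j)] S.θ - S.σ^[l + (n - j)] (algebraMap k L (S.ζ ^ l * c)) := by
      exact iterate_map_sub S.σ _ _ _
    have h4 : S.z ^ (l + (n - j)) * S.z ^ j = S.z ^ l := by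
      rw [← pow_add, show l + (n - j) + j = l + n by omega, pow_add, S.z_pow, mul_one]
    rw [h3, h2, S.it_θ, mul_sub, ← mul_assoc, h4, map_mul, map_pow]
    rfl
  have h4 : (S.up v).G 1 (S.σ^[l + (n - j)] (S.θ - algebraMap k L (S.ζ ^ l * c))) := by
    rw [e]
    have h5 : (S.up v).G 0 (S.z ^ (l + (n - j))) := by
      rw [z, ← map_pow]
      exact RRD.G_algebraMap _ _
    have h6 := h5.mul hw
    rwa [zero_add] at h6
  by_cases h0 : S.θ - algebraMap k L (S.ζ ^ l * c) = 0
  · rw [h0]
    exact DV.G_zero _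
  · apply DV.G_of_le
    rw [hw1]
    refine h4.le ?_
    intro h7
    apply h0
    rw [e] at h7
    have h8 : S.θ - S.z ^ j * algebraMap k L c = 0 := by
      rcases mul_eq_zero.1 h7 with h | h
      · exact absurd h (pow_ne_zero _ S.z_ne)
      · exact h
    have h9 : ∀ m : ℕ, S.σ^[m] 0 = 0 := fun m => iterate_map_zero S.σ m
    have h10 : Function.Injective (S.σ^[l + (n - j)]) := S.σ.injective.iterate _
    apply h10
    rw [h9, e, h8, mul_zero]

theorem rat_of_residue {v : DV K} (hv : v.Rat k) (h0 : v.ord S.Θ = 0) {w : DV L} (hw : Over w v)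
    {c : k} (hc : w.G 1 (S.θ - algebraMap k L c)) : w.Rat k := by
  classical
  intro x hx
  obtain ⟨a, ha1, ha2⟩ := S.exists_terms hw hx
  have hD : ∀ i, S.D i v = 0 := by
    intro i
    unfold D
    rw [h0, mul_zero, Int.zero_ediv, neg_zero]
  have hex : ∀ i : ℕ, ∃ d : k, i < n → v.G 1 (a i - algebraMap k K d) := by
    intro i
    by_cases hi : i < n
    · have h1 := ha1 i hi
      rw [hD] at h1
      obtain ⟨d, hd⟩ := hv (a i) h1
      exact ⟨d, fun _ => hd⟩
    · exact ⟨0, fun h => absurd h hi⟩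
  choose d hd using hex
  refine ⟨∑ i ∈ range n, d i * c ^ i, ?_⟩
  have hc0 : w.G 0 (algebraMap k L c) := RRD.G_algebraMap w c
  have hθ0 : w.G 0 S.θ := by
    have h := (hc.mono (show (0 : ℤ) ≤ 1 by norm_num)).add hc0
    rwa [sub_add_cancel] at h
  have e : x - algebraMap k L (∑ i ∈ range n, d i * c ^ i) =
      (x - ∑ i ∈ range n, algebraMap K L (a i) * S.θ ^ i) +
      ∑ i ∈ range n, ((algebraMap K L (a i) - algebraMap k L (d i)) * S.θ ^ i +
        algebraMap k L (d i) * (S.θ ^ i - algebraMap k L c ^ i)) := by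
    rw [map_sum]
    simp only [map_mul, map_pow, sub_mul, mul_sub, sum_add_distrib, sum_sub_distrib]
    ring
  rw [e]
  refine ha2.add (G_sum_terms fun i hi => DV.G.add ?_ ?_)
  · have h1 : w.G 1 (algebraMap K L (a i) - algebraMap k L (d i)) := by
      rw [IsScalarTower.algebraMap_apply k K L, ← map_sub, hw.G_one_iff]
      exact hd i (mem_range.1 hi)
    have h2 := h1.mul (hθ0.pow i)
    rwa [mul_zero, add_zero] at h2
  · have h2 := (RRD.G_algebraMap w (d i)).mul (DV.G_pow_sub hθ0 hc0 hc i)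
    rwa [zero_add] at h2

/-! ### Total ramification -/

section ram

variable {v : DV K} (h : IsCoprime (v.ord S.Θ) (n : ℤ)) {w : DV L} (hw : Over w v)

include h hw

/-- the order of a sum of terms -/
theorem ord_sum (a : ℕ → K) (s : Finset ℕ) (hs : ∀ i ∈ s, i < n) (hne : ∃ i ∈ s, a i ≠ 0) :
    (∑ i ∈ s, algebraMap K L (a i) * S.θ ^ i) ≠ 0 ∧ ∃ i ∈ s, a i ≠ 0 ∧
      w.ord (∑ i ∈ s, algebraMap K L (a i) * S.θ ^ i) = w.ord (algebraMap K L (a i) * S.θ ^ i) ∧
      ∀ j ∈ s, a j ≠ 0 → w.ord (∑ i ∈ s, algebraMap K L (a i) * S.θ ^ i) ≤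
        w.ord (algebraMap K L (a j) * S.θ ^ j) := by
  classical
  obtain ⟨e, he, -, hte⟩ := S.ord_term hw
  have hn := S.n_pos'
  -- the orders are distinct
  have hdist : ∀ i j : ℕ, i < n → j < n → i ≠ j → a i ≠ 0 → a j ≠ 0 →
      w.ord (algebraMap K L (a i) * S.θ ^ i) ≠ w.ord (algebraMap K L (a j) * S.θ ^ j) := by
    intro i j hi hj hij hai haj heq
    have h1 := hte (a i) i hai
    have h2 := hte (a j) j haj
    rw [heq, h2] at h1
    have h3 : (n : ℤ) * v.ord (a j) + j * v.ord S.Θ = n * v.ord (a i) + i * v.ord S.Θ :=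
      mul_left_cancel₀ he.ne' h1
    have h4 : (n : ℤ) ∣ ((i : ℤ) - j) * v.ord S.Θ := ⟨v.ord (a j) - v.ord (a i), by linarith⟩
    have h5 : (n : ℤ) ∣ (i : ℤ) - j := h.symm.dvd_of_dvd_mul_right h4
    obtain ⟨m, hm⟩ := h5
    have h6 : (i : ℤ) < n := by exact_mod_cast hi
    have h7 : (j : ℤ) < n := by exact_mod_cast hj
    have h8 : (0 : ℤ) ≤ i := by positivity
    have h9 : (0 : ℤ) ≤ j := by positivity
    have h10 : m = 0 := by
      rcases lt_trichotomy m 0 with hm0 | hm0 | hm0
      · exfalso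
        have : (n : ℤ) * m ≤ n * (-1) := mul_le_mul_of_nonneg_left (by omega) hn.le
        omega
      · exact hm0
      · exfalso
        have : (n : ℤ) * 1 ≤ n * m := mul_le_mul_of_nonneg_left (by omega) hn.le
        omega
    rw [h10, mul_zero] at hm
    apply hij
    omega
  induction s using Finset.induction_on with
  | empty =>
    obtain ⟨i, hi, -⟩ := hne
    exact absurd hi (notMem_empty i)
  | insert b s hb ih =>
    rw [sum_insert hb]
    have hs' : ∀ i ∈ s, i < n := fun i hi => hs i (mem_insert_of_mem hi)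
    have hbn := hs b (mem_insert_self b s)
    by_cases hex : ∃ i ∈ s, a i ≠ 0
    · obtain ⟨h1, i, hi, hai, h2, h3⟩ := ih hs' hex
      by_cases hab : a b = 0
      · rw [hab, map_zero, zero_mul, zero_add]
        refine ⟨h1, i, mem_insert_of_mem hi, hai, h2, fun j hj haj => ?_⟩
        rcases mem_insert.1 hj with rfl | hj
        · exact absurd hab haj
        · exact h3 j hj haj
      · have ht : algebraMap K L (a b) * S.θ ^ b ≠ 0 :=
          mul_ne_zero (map_ne_zero' hab) (pow_ne_zero b S.θ_ne)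
        have hne' : w.ord (algebraMap K L (a b) * S.θ ^ b) ≠
            w.ord (∑ i ∈ s, algebraMap K L (a i) * S.θ ^ i) := by
          rw [h2]
          exact hdist b i hbn (hs' i hi) (fun hbi => hb (hbi ▸ hi)) hab hai
        have h4 := DV.ord_add_eq_min (v := w) ht h1 hne'
        have h5 : algebraMap K L (a b) * S.θ ^ b + ∑ i ∈ s, algebraMap K L (a i) * S.θ ^ i ≠ 0 :=
          h4.1
        refine ⟨h5, ?_⟩
        rcases le_total (w.ord (algebraMap K L (a b) * S.θ ^ b))
          (w.ord (∑ i ∈ s, algebraMap K L (a i) * S.θ ^ i)) with hle | hle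
        · refine ⟨b, mem_insert_self b s, hab, by rw [h4.2, min_eq_left hle], fun j hj haj => ?_⟩
          rw [h4.2, min_eq_left hle]
          rcases mem_insert.1 hj with rfl | hj
          · exact le_rfl
          · exact hle.trans (h3 j hj haj)
        · refine ⟨i, mem_insert_of_mem hi, hai, by rw [h4.2, min_eq_right hle, h2],
            fun j hj haj => ?_⟩
          rw [h4.2, min_eq_right hle]
          rcases mem_insert.1 hj with rfl | hj
          · exact hle
          · exact h3 j hj haj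
    · have hz : ∑ i ∈ s, algebraMap K L (a i) * S.θ ^ i = 0 := by
        refine sum_eq_zero fun i hi => ?_
        have : a i = 0 := by
          by_contra h0
          exact hex ⟨i, hi, h0⟩
        rw [this, map_zero, zero_mul]
      rw [hz, add_zero]
      obtain ⟨i, hi, hai⟩ := hne
      rcases mem_insert.1 hi with rfl | hi
      · refine ⟨mul_ne_zero (map_ne_zero' hai) (pow_ne_zero i S.θ_ne), i, mem_insert_self i s, hai,
          rfl, fun j hj haj => ?_⟩
        rcases mem_insert.1 hj with rfl | hj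
        · exact le_rfl
        · exact absurd ⟨j, hj, haj⟩ hex
      · exact absurd ⟨i, hi, hai⟩ hex

/-- integrality through the terms -/
theorem G_iff_terms (a : ℕ → K) :
    w.G 0 (∑ i ∈ range n, algebraMap K L (a i) * S.θ ^ i) ↔ ∀ i < n, v.G (S.D i v) (a i) := by
  constructor
  · intro hG i hi
    by_cases h0 : a i = 0
    · rw [h0]; exact DV.G_zero _
    · obtain ⟨h1, -, -, -, -, h2⟩ := S.ord_sum h hw a (range n) (fun i hi => mem_range.1 hi)
        ⟨i, mem_range.2 hi, h0⟩
      rw [← S.G_term hw]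
      exact DV.G_of_le ((hG.le h1).trans (h2 i (mem_range.2 hi) h0))
  · intro hG
    exact G_sum_terms fun i hi => (S.G_term hw _ _).2 (hG i (mem_range.1 hi))

theorem over_unique {w' : DV L} (hw' : Over w' v) : w = w' := by
  refine DV.eq_of_integral_imp fun x hx => ?_
  obtain ⟨a, ha⟩ := S.exists_coords x
  rw [ha, S.G_iff_terms h hw] at hx
  rw [ha, S.G_iff_terms h hw']
  exact hx

theorem ram_ord : (∀ a : K, a ≠ 0 → w.ord (algebraMap K L a) = n * v.ord a) ∧
    w.ord S.θ = v.ord S.Θ := by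
  obtain ⟨e, he, hov, hte⟩ := S.ord_term hw
  have hn := S.n_pos'
  have h1 : (n : ℤ) * w.ord S.θ = e * v.ord S.Θ := by
    have := hte 1 1 one_ne_zero
    rw [map_one, one_mul, pow_one, v.ord_one, mul_zero, zero_add, Nat.cast_one, one_mul] at this
    exact this
  have h2 : (n : ℤ) ∣ e := h.symm.dvd_of_dvd_mul_right ⟨w.ord S.θ, h1.symm⟩
  obtain ⟨e', rfl⟩ := h2
  have he' : 0 < e' := by
    by_contra hneg
    push Not at hneg
    nlinarith
  obtain ⟨t, ht, ht1⟩ := w.exists_one
  obtain ⟨a, ha⟩ := S.exists_coords t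
  have hex : ∃ i ∈ range n, a i ≠ 0 := by
    by_contra hno
    push Not at hno
    apply ht
    rw [ha]
    refine sum_eq_zero fun i hi => ?_
    rw [hno i hi, map_zero, zero_mul]
  obtain ⟨-, i, hi, hai, h3, -⟩ := S.ord_sum h hw a (range n) (fun i hi => mem_range.1 hi) hex
  rw [← ha, ht1] at h3
  have h4 := hte (a i) i hai
  rw [← h3, mul_one, mul_assoc] at h4
  have h5 : 1 = e' * (n * v.ord (a i) + i * v.ord S.Θ) := by
    have : (n : ℤ) * 1 = n * (e' * (n * v.ord (a i) + i * v.ord S.Θ)) := by rw [mul_one]; exact h4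
    exact mul_left_cancel₀ hn.ne' this
  have h6 : e' = 1 := by
    have h7 : e' ∣ 1 := ⟨_, h5⟩
    exact Int.eq_one_of_dvd_one he'.le h7
  subst h6
  rw [mul_one] at hov h1
  exact ⟨hov, mul_left_cancel₀ hn.ne' h1⟩

theorem ram_rat (hv : v.Rat k) : w.Rat k := by
  classical
  intro x hx
  obtain ⟨a, ha1, ha2⟩ := S.exists_terms hw hx
  have hn := S.n_pos'
  have h0 := ha1 0 S.n_pos
  rw [show S.D 0 v = 0 from congrFun S.D_zero v] at h0
  obtain ⟨d, hd⟩ := hv (a 0) h0
  refine ⟨d, ?_⟩
  have e : x - algebraMap k L d = (x - ∑ i ∈ range n, algebraMap K L (a i) * S.θ ^ i) +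
      ((algebraMap K L (a 0) - algebraMap k L d) +
        ∑ i ∈ (range n).erase 0, algebraMap K L (a i) * S.θ ^ i) := by
    rw [← add_sum_erase _ _ (mem_range.2 S.n_pos), pow_zero, mul_one]
    ring
  rw [e]
  refine ha2.add (DV.G.add ?_ (G_sum_terms fun i hi => ?_))
  · rw [IsScalarTower.algebraMap_apply k K L, ← map_sub, hw.G_one_iff]
    exact hd
  · rw [mem_erase, mem_range] at hi
    by_cases hai : a i = 0
    · rw [hai, map_zero, zero_mul]
      exact DV.G_zero _
    have h1 := (S.G_term hw (a i) i).2 (ha1 i hi.2)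
    have h2 := h1.le (mul_ne_zero (map_ne_zero' hai) (pow_ne_zero i S.θ_ne))
    obtain ⟨e, he, hov, hte⟩ := S.ord_term hw
    have h3 := hte (a i) i hai
    apply DV.G_of_le
    by_contra hlt
    push Not at hlt
    have h4 : w.ord (algebraMap K L (a i) * S.θ ^ i) = 0 := by omega
    rw [h4, mul_zero] at h3
    have h5 : (n : ℤ) * v.ord (a i) + i * v.ord S.Θ = 0 := by
      rcases mul_eq_zero.1 h3.symm with h | h
      · omega
      · exact h
    have h6 : (n : ℤ) ∣ i * v.ord S.Θ := ⟨-v.ord (a i), by linarith⟩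
    have h7 : (n : ℤ) ∣ (i : ℤ) := h.symm.dvd_of_dvd_mul_right h6
    have h8 : n ∣ i := by exact_mod_cast h7
    have := Nat.le_of_dvd (by omega) h8
    omega

end ram

end Tm

end Pool.Agent.FF
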