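import Pool.Agent.FF.TmGen

/-! # Rational places of a cyclic extension over one place: at most `n` of them -/

set_option autoImplicit false
set_option linter.unusedSectionVars false

namespace Pool.Agent.FF

open Finset RRD Polynomial

namespace Tm

variable {k K L : Type*} [Field k] [Finite k] [Field K] [Field L] [Algebra k K] [Algebra k L]
  [Algebra K L] [IsScalarTower k K L] [CharP L 2] {n : ℕ} (S : Tm k K L n)

/-- the integral elements of `K` in `L` -/
def φ (v : DV K) : v.vs →+* L := (algebraMap K L).comp v.vs.subtype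

theorem φ_apply (v : DV K) (a : v.vs) : (φ v a : L) = algebraMap K L a := rfl

/-- polynomials with integral coefficients take integral values -/
theorem G_eval {v : DV K} {w : DV L} (hw : Over w v) {x : L} (hx : w.G 0 x) (p : (v.vs)[X]) :
    w.G 0 (p.eval₂ (φ v) x) := by
  induction p using Polynomial.induction_on' with
  | add p q hp hq => rw [eval₂_add]; exact hp.add hq
  | monomial i a =>
    rw [eval₂_monomial]
    have h1 : w.G 0 (φ v a : L) := (hw.G_zero_iff _).2 a.2
    have h2 := h1.mul (hx.pow i)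
    simpa using h2

include S in
/-- **Uniqueness.** A place over `v` is determined by the residue of `θ` if this is a non zero
constant. -/
theorem unique_of_residue {v : DV K} {w₁ w₂ : DV L} (h₁ : Over w₁ v) (h₂ : Over w₂ v) {c : k}
    (hc : c ≠ 0) (hθ₁ : w₁.G 1 (S.θ - algebraMap k L c)) (hθ₂ : w₂.G 1 (S.θ - algebraMap k L c)) :
    w₁ = w₂ := by
  classical
  have hcL : algebraMap k L c ≠ 0 := by rwa [Ne, map_eq_zero]
  -- the constant as an integral element
  let c' : v.vs := ⟨algebraMap k K c, G_algebraMap v c⟩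
  have hφc : (φ v c' : L) = algebraMap k L c := by
    rw [φ_apply]
    exact (IsScalarTower.algebraMap_apply k K L c).symm
  have hθint : ∀ w : DV L, w.G 1 (S.θ - algebraMap k L c) → w.G 0 S.θ := by
    intro w hw
    have h := (hw.mono (show (0 : ℤ) ≤ 1 by norm_num)).add (G_algebraMap w c)
    rwa [sub_add_cancel] at h
  let Pl : (v.vs)[X] := ∑ i ∈ range n, X ^ i * C (c' ^ (n - 1 - i))
  have hPl : Pl.eval₂ (φ v) S.θ = ∑ i ∈ range n, S.θ ^ i * (algebraMap k L c) ^ (n - 1 - i) := by
    simp only [Pl, eval₂_finset_sum, eval₂_mul, eval₂_pow, eval₂_X, eval₂_C, map_pow, hφc]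
  set π : L := ∑ i ∈ range n, S.θ ^ i * (algebraMap k L c) ^ (n - 1 - i) with hπ
  have hmul : π * (S.θ - algebraMap k L c) = S.θ ^ n - (algebraMap k L c) ^ n :=
    geom_sum₂_mul S.θ (algebraMap k L c) n
  -- `π` is a unit
  have hπord : ∀ w : DV L, w.G 1 (S.θ - algebraMap k L c) → w.ord π = 0 := by
    intro w hw
    have h1 : w.G 1 (π - (algebraMap k L c) ^ (n - 1)) := by
      have h2 : (algebraMap k L c) ^ (n - 1) =
          ∑ i ∈ range n, (algebraMap k L c) ^ i * (algebraMap k L c) ^ (n - 1 - i) := by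
        have h3 : ∀ i ∈ range n, (algebraMap k L c) ^ i * (algebraMap k L c) ^ (n - 1 - i) =
            (algebraMap k L c) ^ (n - 1) := by
          intro i hi
          rw [mem_range] at hi
          rw [← pow_add]
          congr 1
          omega
        rw [sum_congr rfl h3, sum_const, card_range, nsmul_eq_mul, S.n_one, one_mul]
      rw [h2, hπ, ← sum_sub_distrib]
      have h4 : ∀ s : Finset ℕ, w.G 1 (∑ i ∈ s, (S.θ ^ i * (algebraMap k L c) ^ (n - 1 - i) -
          (algebraMap k L c) ^ i * (algebraMap k L c) ^ (n - 1 - i))) := by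
        intro s
        induction s using Finset.induction_on with
        | empty => simpa using DV.G_zero (v := w) 1
        | insert a s ha ih =>
          rw [sum_insert ha]
          refine DV.G.add ?_ ih
          rw [← sub_mul]
          obtain ⟨y, hy⟩ := (Commute.all S.θ (algebraMap k L c)).sub_dvd_pow_sub_pow a
          have h5 : w.G 1 (S.θ ^ a - (algebraMap k L c) ^ a) := by
            have h6 : S.θ ^ a - (algebraMap k L c) ^ a = (S.θ - algebraMap k L c) *
                ∑ i ∈ range a, S.θ ^ i * (algebraMap k L c) ^ (a - 1 - i) := by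
              rw [mul_comm]
              exact (geom_sum₂_mul S.θ (algebraMap k L c) a).symm
            rw [h6]
            have h7 : w.G 0 (∑ i ∈ range a, S.θ ^ i * (algebraMap k L c) ^ (a - 1 - i)) := by
              have h8 : ∀ s : Finset ℕ,
                  w.G 0 (∑ i ∈ s, S.θ ^ i * (algebraMap k L c) ^ (a - 1 - i)) := by
                intro s
                induction s using Finset.induction_on with
                | empty => simpa using DV.G_zero (v := w) 0
                | insert b s hb ih =>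
                  rw [sum_insert hb]
                  refine DV.G.add ?_ ih
                  have h9 := ((hθint w hw).pow b).mul ((G_algebraMap w c).pow (a - 1 - b))
                  simpa using h9
              exact h8 _
            have h10 := hw.mul h7
            rwa [add_zero] at h10
          have h11 := h5.mul ((G_algebraMap w c).pow (n - 1 - a))
          simpa using h11
      exact h4 _
    have h2 : w.ord ((algebraMap k L c) ^ (n - 1)) = 0 := by
      rw [w.ord_pow hcL, RRD.ord_algebraMap w hc, mul_zero]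
    have h3 := DV.ord_add_of_lt (v := w) (a := (algebraMap k L c) ^ (n - 1))
      (b := π - (algebraMap k L c) ^ (n - 1)) (pow_ne_zero _ hcL) (by rw [h2]; exact h1)
    rw [add_sub_cancel, h2] at h3
    exact h3.2
  have hπ0 : π ≠ 0 := by
    intro h0
    have h3 : w₁.G 1 (S.θ - algebraMap k L c) := hθ₁
    have h1 := hπord w₁ hθ₁
    -- `π = 0` contradicts the unit statement: use the addition lemma again
    have h2 : (algebraMap k L c) ^ (n - 1) ≠ 0 := pow_ne_zero _ hcL
    have h4 : S.θ ^ n = (algebraMap k L c) ^ n := by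
      rw [h0, zero_mul] at hmul
      exact (sub_eq_zero.1 hmul.symm)
    -- evaluate at `z`-conjugates: apply `σ` to `π`
    have h5 : S.E 0 π = (algebraMap k L c) ^ (n - 1) := by
      have h6 : π = ∑ i ∈ range n, algebraMap K L ((algebraMap k K c) ^ (n - 1 - i)) * S.θ ^ i := by
        rw [hπ]
        refine sum_congr rfl fun i _ => ?_
        rw [map_pow, ← IsScalarTower.algebraMap_apply k K L]
        ring
      rw [h6, S.E_coords (a := fun i => (algebraMap k K c) ^ (n - 1 - i)) S.n_pos]
      rw [pow_zero, mul_one, map_pow, ← IsScalarTower.algebraMap_apply k K L, Nat.sub_zero]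
    rw [h0, S.E_zero] at h5
    exact h2 h5.symm
  -- the element `Θ - c ^ n`
  set δ : K := S.Θ - (algebraMap k K c) ^ n with hδ
  have hδL : algebraMap K L δ = S.θ ^ n - (algebraMap k L c) ^ n := by
    rw [hδ, map_sub, S.Θ_spec, map_pow, ← IsScalarTower.algebraMap_apply k K L]
  have hδG : v.G 1 δ := by
    rw [← h₁.G_one_iff, hδL, ← hmul]
    have h1 : w₁.G 0 π := DV.G_of_le (hπord w₁ hθ₁).ge
    have h2 := h1.mul hθ₁
    rwa [zero_add] at h2
  obtain ⟨t, ht, ht1⟩ := v.exists_one
  have hdiv : ∀ a : K, v.G 1 a → v.G 0 (a / t) := by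
    intro a ha
    have h1 : v.G (-1) t⁻¹ := DV.G_of_le (by rw [v.ord_inv ht, ht1])
    have h2 := ha.mul h1
    rw [← div_eq_mul_inv] at h2
    simpa using h2
  have hpos : ∀ w : DV L, Over w v → 0 < w.ord (algebraMap K L t) := by
    rintro w ⟨e, he, h⟩
    rw [h t ht, ht1, mul_one]
    exact he
  set e₁ := w₁.ord (algebraMap K L t) with he₁
  set e₂ := w₂.ord (algebraMap K L t) with he₂
  have hmapt : algebraMap K L t ≠ 0 := map_ne_zero' ht
  -- the comparison
  have key : ∀ m : ℕ, ∀ p : (v.vs)[X], p.eval₂ (φ v) S.θ ≠ 0 → w₁.ord (p.eval₂ (φ v) S.θ) ≤ m →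
      w₁.ord (p.eval₂ (φ v) S.θ) * e₂ = w₂.ord (p.eval₂ (φ v) S.θ) * e₁ := by
    intro m
    induction m with
    | zero =>
      intro p hp hle
      obtain ⟨Q, hQ⟩ : ∃ Q : (v.vs)[X], p = (X - C c') * Q + C (p.eval c') := by
        obtain ⟨Q, hQ⟩ := (dvd_iff_isRoot (p := p - C (p.eval c')) (a := c')).2 (by
          simp [IsRoot.def])
        exact ⟨Q, by rw [← hQ]; ring⟩
      have hev : p.eval₂ (φ v) S.θ = (S.θ - algebraMap k L c) * Q.eval₂ (φ v) S.θ +
          φ v (p.eval c') := by
        conv_lhs => rw [hQ]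
        rw [eval₂_add, eval₂_mul, eval₂_sub, eval₂_X, eval₂_C, eval₂_C, hφc]
      by_cases hγ : v.G 1 ((p.eval c' : v.vs) : K)
      · -- both sides positive: contradiction
        exfalso
        have h1 : w₁.G 1 (p.eval₂ (φ v) S.θ) := by
          rw [hev]
          refine DV.G.add ?_ ((h₁.G_one_iff _).2 hγ)
          have h2 := hθ₁.mul (G_eval h₁ (hθint w₁ hθ₁) Q)
          rwa [add_zero] at h2
        have := h1.le hp
        push_cast at hle
        omega
      · have hγ0 : ((p.eval c' : v.vs) : K) ≠ 0 := DV.ne_zero_of_not_G hγ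
        have hγord : v.ord ((p.eval c' : v.vs) : K) = 0 := by
          have h1 := (DV.not_G hγ0).1 hγ
          have h2 : v.G 0 ((p.eval c' : v.vs) : K) := (p.eval c').2
          have h3 := h2.le hγ0
          omega
        have hunit : ∀ w : DV L, Over w v → w.G 1 (S.θ - algebraMap k L c) →
            w.ord (p.eval₂ (φ v) S.θ) = 0 := by
          intro w hw hwθ
          have h2 := hwθ.mul (G_eval hw (hθint w hwθ) Q)
          rw [add_zero] at h2
          have h3 : w.ord (φ v (p.eval c') : L) = 0 := by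
            obtain ⟨e, he, h⟩ := hw
            rw [φ_apply, h _ hγ0, hγord, mul_zero]
          have h4 := DV.ord_add_of_lt (v := w) (a := (φ v (p.eval c') : L))
            (b := (S.θ - algebraMap k L c) * Q.eval₂ (φ v) S.θ)
            (by rw [φ_apply]; exact map_ne_zero' hγ0) (by rw [h3]; exact h2)
          rw [hev, add_comm, h4.2, h3]
        rw [hunit w₁ h₁ hθ₁, hunit w₂ h₂ hθ₂]
        ring
    | succ m ih =>
      intro p hp hle
      obtain ⟨Q, hQ⟩ : ∃ Q : (v.vs)[X], p = (X - C c') * Q + C (p.eval c') := by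
        obtain ⟨Q, hQ⟩ := (dvd_iff_isRoot (p := p - C (p.eval c')) (a := c')).2 (by
          simp [IsRoot.def])
        exact ⟨Q, by rw [← hQ]; ring⟩
      have hev : p.eval₂ (φ v) S.θ = (S.θ - algebraMap k L c) * Q.eval₂ (φ v) S.θ +
          φ v (p.eval c') := by
        conv_lhs => rw [hQ]
        rw [eval₂_add, eval₂_mul, eval₂_sub, eval₂_X, eval₂_C, eval₂_C, hφc]
      by_cases hγ : v.G 1 ((p.eval c' : v.vs) : K)
      · -- divide by `t`
        let δ' : v.vs := ⟨δ / t, hdiv _ hδG⟩
        let γ' : v.vs := ⟨((p.eval c' : v.vs) : K) / t, hdiv _ hγ⟩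
        let p' : (v.vs)[X] := C δ' * Q + C γ' * Pl
        have hp' : p.eval₂ (φ v) S.θ * π = algebraMap K L t * p'.eval₂ (φ v) S.θ := by
          have h1 : (φ v δ' : L) = algebraMap K L δ / algebraMap K L t := by
            rw [φ_apply]; exact map_div₀ _ _ _
          have h2 : (φ v γ' : L) = algebraMap K L ((p.eval c' : v.vs) : K) / algebraMap K L t := by
            rw [φ_apply]; exact map_div₀ _ _ _
          have h3 : p'.eval₂ (φ v) S.θ = φ v δ' * Q.eval₂ (φ v) S.θ + φ v γ' * π := by
            simp only [p', eval₂_add, eval₂_mul, eval₂_C, hPl]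
          rw [h3, h1, h2, hev, hδL, ← hmul, φ_apply]
          field_simp
        have hp'0 : p'.eval₂ (φ v) S.θ ≠ 0 := by
          intro h0
          rw [h0, mul_zero] at hp'
          exact mul_ne_zero hp hπ0 hp'
        have ho : ∀ w : DV L, w.G 1 (S.θ - algebraMap k L c) → w.ord (p.eval₂ (φ v) S.θ) =
            w.ord (algebraMap K L t) + w.ord (p'.eval₂ (φ v) S.θ) := by
          intro w hwθ
          have h1 := congrArg w.ord hp'
          rw [w.ord_mul _ _ hp hπ0, w.ord_mul _ _ hmapt hp'0, hπord w hwθ, add_zero] at h1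
          exact h1
        have h1 := ho w₁ hθ₁
        have h2 := ho w₂ hθ₂
        have h3 := ih p' hp'0 (by
          have := hpos w₁ h₁
          push_cast at hle
          omega)
        rw [h1, h2]
        linear_combination h3
      · have hγ0 : ((p.eval c' : v.vs) : K) ≠ 0 := DV.ne_zero_of_not_G hγ
        have hγord : v.ord ((p.eval c' : v.vs) : K) = 0 := by
          have h1 := (DV.not_G hγ0).1 hγ
          have h2 : v.G 0 ((p.eval c' : v.vs) : K) := (p.eval c').2
          have h3 := h2.le hγ0
          omega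
        have hunit : ∀ w : DV L, Over w v → w.G 1 (S.θ - algebraMap k L c) →
            w.ord (p.eval₂ (φ v) S.θ) = 0 := by
          intro w hw hwθ
          have h2 := hwθ.mul (G_eval hw (hθint w hwθ) Q)
          rw [add_zero] at h2
          have h3 : w.ord (φ v (p.eval c') : L) = 0 := by
            obtain ⟨e, he, h⟩ := hw
            rw [φ_apply, h _ hγ0, hγord, mul_zero]
          have h4 := DV.ord_add_of_lt (v := w) (a := (φ v (p.eval c') : L))
            (b := (S.θ - algebraMap k L c) * Q.eval₂ (φ v) S.θ)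
            (by rw [φ_apply]; exact map_ne_zero' hγ0) (by rw [h3]; exact h2)
          rw [hev, add_comm, h4.2, h3]
        rw [hunit w₁ h₁ hθ₁, hunit w₂ h₂ hθ₂]
        ring
  -- all elements
  have hall : ∀ x : L, x ≠ 0 → w₁.ord x * e₂ = w₂.ord x * e₁ := by
    intro x hx
    obtain ⟨a, ha⟩ := S.exists_coords x
    obtain ⟨M, hM⟩ : ∃ M : ℕ, ∀ i ∈ range n, v.G 0 (t ^ M * a i) := by
      have hex : ∀ i : ℕ, ∃ M : ℕ, ∀ M' ≥ M, v.G 0 (t ^ M' * a i) := by
        intro i
        refine ⟨(v.ord (a i)).natAbs, fun M' hM' => ?_⟩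
        by_cases h0 : a i = 0
        · rw [h0, mul_zero]; exact DV.G_zero 0
        · apply DV.G_of_le
          rw [v.ord_mul _ _ (pow_ne_zero _ ht) h0, v.ord_pow ht, ht1, mul_one]
          omega
      choose M hM using hex
      exact ⟨(range n).sup M, fun i hi => hM i _ (le_sup (f := M) hi)⟩
    let p : (v.vs)[X] := ∑ i ∈ (range n).attach, C ⟨t ^ M * a i, hM i i.2⟩ * X ^ (i : ℕ)
    have hpe : p.eval₂ (φ v) S.θ = algebraMap K L (t ^ M) * x := by
      have h1 : p.eval₂ (φ v) S.θ = ∑ i ∈ (range n).attach,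
          algebraMap K L (t ^ M * a i) * S.θ ^ (i : ℕ) := by
        simp only [p, eval₂_finset_sum, eval₂_mul, eval₂_pow, eval₂_X, eval₂_C]
        rfl
      rw [h1, sum_attach (range n) fun i => algebraMap K L (t ^ M * a i) * S.θ ^ i]
      conv_rhs => rw [ha]
      rw [mul_sum]
      refine sum_congr rfl fun i _ => ?_
      rw [map_mul]
      ring
    have htM : algebraMap K L (t ^ M) ≠ 0 := map_ne_zero' (pow_ne_zero _ ht)
    have hne : p.eval₂ (φ v) S.θ ≠ 0 := by
      rw [hpe]
      exact mul_ne_zero htM hx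
    have h2 := key (w₁.ord (p.eval₂ (φ v) S.θ)).toNat p hne (Int.self_le_toNat _)
    rw [hpe, w₁.ord_mul _ _ htM hx, w₂.ord_mul _ _ htM hx] at h2
    have h3 : w₁.ord (algebraMap K L (t ^ M)) = M * e₁ := by
      rw [map_pow, w₁.ord_pow hmapt]
    have h4 : w₂.ord (algebraMap K L (t ^ M)) = M * e₂ := by
      rw [map_pow, w₂.ord_pow hmapt]
    rw [h3, h4] at h2
    linear_combination h2
  refine DV.eq_of_integral_imp fun x hx => ?_
  by_cases h0 : x = 0
  · rw [h0]; exact DV.G_zero 0
  · apply DV.G_of_le
    have h1 := hx.le h0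
    have h2 := hall x h0
    have h3 := hpos w₁ h₁
    have h4 := hpos w₂ h₂
    by_contra hneg
    push Not at hneg
    nlinarith

/-- **At most `n` rational places over one place.** -/
theorem card_fiber_le (v : DV K) (A : Finset (DV L))
    (hA : ∀ w ∈ A, Over w v ∧ w.Rat k ∧ w.ord S.θ = 0) : A.card ≤ n := by
  classical
  rcases A.eq_empty_or_nonempty with h | ⟨w₀, hw₀⟩
  · rw [h, card_empty]; exact Nat.zero_le _
  have hex : ∀ w : DV L, ∃ c : k, w ∈ A → w.G 1 (S.θ - algebraMap k L c) := by
    intro w
    by_cases hw : w ∈ A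
    · obtain ⟨c, hc⟩ := (hA w hw).2.1 S.θ (DV.G_of_le (hA w hw).2.2.ge)
      exact ⟨c, fun _ => hc⟩
    · exact ⟨0, fun h => absurd h hw⟩
  choose c hc using hex
  have hc0 : ∀ w ∈ A, c w ≠ 0 := by
    intro w hw h0
    have h1 := hc w hw
    rw [h0, map_zero, sub_zero] at h1
    have := h1.le S.θ_ne
    rw [(hA w hw).2.2] at this
    omega
  have hpow : ∀ w ∈ A, v.G 1 (S.Θ - algebraMap k K (c w ^ n)) := by
    intro w hw
    rw [← (hA w hw).1.G_one_iff, map_sub, S.Θ_spec, ← IsScalarTower.algebraMap_apply k K L, map_pow]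
    rw [← geom_sum₂_mul]
    have h1 : w.G 0 (∑ i ∈ range n, S.θ ^ i * (algebraMap k L (c w)) ^ (n - 1 - i)) := by
      have h8 : ∀ s : Finset ℕ,
          w.G 0 (∑ i ∈ s, S.θ ^ i * (algebraMap k L (c w)) ^ (n - 1 - i)) := by
        intro s
        induction s using Finset.induction_on with
        | empty => simpa using DV.G_zero (v := w) 0
        | insert b s hb ih =>
          rw [sum_insert hb]
          refine DV.G.add ?_ ih
          have h9 := ((DV.G_of_le (v := w) (a := S.θ) (hA w hw).2.2.ge).pow b).mul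
            ((G_algebraMap w (c w)).pow (n - 1 - b))
          simpa using h9
      exact h8 _
    have h2 := h1.mul (hc w hw)
    rwa [zero_add] at h2
  have heq : ∀ w ∈ A, c w ^ n = c w₀ ^ n := by
    intro w hw
    by_contra hne
    have h1 := (hpow w₀ hw₀).sub (hpow w hw)
    have h2 : S.Θ - algebraMap k K (c w₀ ^ n) - (S.Θ - algebraMap k K (c w ^ n)) =
        algebraMap k K (c w ^ n - c w₀ ^ n) := by
      rw [map_sub]; ring
    rw [h2] at h1
    have h3 : c w ^ n - c w₀ ^ n ≠ 0 := sub_ne_zero.2 hne
    have h4 := h1.le (by rwa [Ne, map_eq_zero])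
    rw [RRD.ord_algebraMap v h3] at h4
    omega
  have hinj : Set.InjOn c A := by
    intro w hw w' hw' h
    refine S.unique_of_residue (hA w hw).1 (hA w' hw').1 (hc0 w hw) (hc w hw) ?_
    rw [h]
    exact hc w' hw'
  have h1 : A.image c ⊆ (nthRoots n (c w₀ ^ n)).toFinset := by
    intro x hx
    obtain ⟨w, hw, rfl⟩ := mem_image.1 hx
    rw [Multiset.mem_toFinset, mem_nthRoots S.n_pos]
    exact heq w hw
  calc A.card = (A.image c).card := (card_image_of_injOn hinj).symm
    _ ≤ (nthRoots n (c w₀ ^ n)).toFinset.card := card_le_card h1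
    _ ≤ Multiset.card (nthRoots n (c w₀ ^ n)) := Multiset.toFinset_card_le _
    _ ≤ n := card_nthRoots n _

end Tm

end Pool.Agent.FF
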