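import Pool.Agent.FF.WApp
import Pool.Agent.FF.TmFib

/-! # Kummer extensions of a curve: the field above is a curve, its genus -/

set_option autoImplicit false
set_option linter.unusedSectionVars false

namespace Pool.Agent.FF

open Finset RRD

namespace Tm

variable {k K L : Type*} [Field k] [Finite k] [Field K] [Field L] [Algebra k K] [Algebra k L]
  [Algebra K L] [IsScalarTower k K L] [CharP L 2] {n : ℕ} (S : Tm k K L n)

include S in
theorem fib_finite (v : DV K) : {w : DV L | Over w v}.Finite := by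
  have := S.finite
  exact over_finite' v

theorem preimage_finite {B : Set (DV K)} (hB : B.Finite) : {w : DV L | S.dn w ∈ B}.Finite := by
  refine (hB.biUnion fun v _ => S.fib_finite v).subset fun w hw => ?_
  exact Set.mem_biUnion hw (S.dn_over w)

/-- the order of a term -/
theorem ord_term {v : DV K} {w : DV L} (hw : Over w v) : ∃ e : ℤ, 0 < e ∧
    (∀ a : K, a ≠ 0 → w.ord (algebraMap K L a) = e * v.ord a) ∧
    ∀ (a : K) (i : ℕ), a ≠ 0 → (n : ℤ) * w.ord (algebraMap K L a * S.θ ^ i) =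
      e * (n * v.ord a + i * v.ord S.Θ) := by
  obtain ⟨e, he, hov⟩ := hw
  refine ⟨e, he, hov, fun a i ha => ?_⟩
  rw [w.ord_mul _ _ (map_ne_zero' ha) (pow_ne_zero i S.θ_ne), hov _ ha, w.ord_pow S.θ_ne]
  have h6 : (n : ℤ) * w.ord S.θ = e * v.ord S.Θ := by
    rw [← w.ord_pow S.θ_ne, ← S.Θ_spec, hov _ S.Θ_ne]
  calc (n : ℤ) * (e * v.ord a + i * w.ord S.θ) = e * (n * v.ord a) + i * (n * w.ord S.θ) := by ring
    _ = _ := by rw [h6]; ring

include S in
theorem n_pos' : (0 : ℤ) < n := by exact_mod_cast S.n_pos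

theorem D_spec (i : ℕ) (v : DV K) : 0 ≤ (n : ℤ) * S.D i v + i * v.ord S.Θ ∧
    (n : ℤ) * S.D i v + i * v.ord S.Θ < n := by
  have hn := S.n_pos'
  have h1 := Int.emod_add_mul_ediv (i * v.ord S.Θ) (n : ℤ)
  have h2 := Int.emod_nonneg (i * v.ord S.Θ) hn.ne'
  have h3 := Int.emod_lt_of_pos (i * v.ord S.Θ) hn
  unfold D
  constructor <;> linarith

/-- integrality of a term -/
theorem G_term {v : DV K} {w : DV L} (hw : Over w v) (a : K) (i : ℕ) :
    w.G 0 (algebraMap K L a * S.θ ^ i) ↔ v.G (S.D i v) a := by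
  by_cases h0 : a = 0
  · subst h0
    rw [map_zero, zero_mul]
    exact ⟨fun _ => DV.G_zero _, fun _ => DV.G_zero _⟩
  obtain ⟨e, he, -, hte⟩ := S.ord_term hw
  have h1 := hte a i h0
  have hn := S.n_pos'
  obtain ⟨d1, d2⟩ := S.D_spec i v
  rw [DV.G_iff (mul_ne_zero (map_ne_zero' h0) (pow_ne_zero i S.θ_ne)), DV.G_iff h0]
  constructor
  · intro h
    have h2 : 0 ≤ e * (n * v.ord a + i * v.ord S.Θ) := by rw [← h1]; exact mul_nonneg hn.le h
    have h3 : 0 ≤ n * v.ord a + i * v.ord S.Θ := by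
      by_contra hneg
      push Not at hneg
      have := mul_neg_of_pos_of_neg he hneg
      omega
    by_contra hlt
    push Not at hlt
    have h4 : v.ord a + 1 ≤ S.D i v := hlt
    nlinarith
  · intro h
    have h3 : 0 ≤ n * v.ord a + i * v.ord S.Θ := by nlinarith
    have h4 : 0 ≤ (n : ℤ) * w.ord (algebraMap K L a * S.θ ^ i) := by
      rw [h1]; exact mul_nonneg he.le h3
    by_contra hneg
    push Not at hneg
    have := mul_neg_of_pos_of_neg hn hneg
    omega

/-- positive order of a term -/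
theorem G_term_one {v : DV K} {w : DV L} (hw : Over w v) {a : K} {i : ℕ}
    (h : v.G (S.D i v + 1) a) : w.G 1 (algebraMap K L a * S.θ ^ i) := by
  by_cases h0 : a = 0
  · subst h0
    rw [map_zero, zero_mul]
    exact DV.G_zero _
  obtain ⟨e, he, -, hte⟩ := S.ord_term hw
  have h1 := hte a i h0
  have hn := S.n_pos'
  obtain ⟨d1, d2⟩ := S.D_spec i v
  have h2 := h.le h0
  apply DV.G_of_le
  have h3 : 0 < n * v.ord a + i * v.ord S.Θ := by nlinarith
  have h4 : 0 < (n : ℤ) * w.ord (algebraMap K L a * S.θ ^ i) := by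
    rw [h1]; exact mul_pos he h3
  by_contra hneg
  push Not at hneg
  have : w.ord (algebraMap K L a * S.θ ^ i) ≤ 0 := by omega
  nlinarith

theorem G_sum_terms {w : DV L} {m : ℤ} {f : ℕ → L} {s : Finset ℕ} (h : ∀ i ∈ s, w.G m (f i)) :
    w.G m (∑ i ∈ s, f i) := by
  classical
  induction s using Finset.induction_on with
  | empty => simpa using DV.G_zero (v := w) m
  | insert a s ha ih =>
    rw [sum_insert ha]
    exact (h a (mem_insert_self a s)).add (ih fun i hi => h i (mem_insert_of_mem hi))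

include S in
/-- the poles -/
theorem polesL (hp : ∀ a : K, {v : DV K | ¬ v.G 0 a}.Finite) (x : L) :
    {w : DV L | ¬ w.G 0 x}.Finite := by
  obtain ⟨a, ha⟩ := S.exists_coords x
  have hB : ((⋃ i ∈ (range n : Finset ℕ), {v : DV K | ¬ v.G 0 (a i)}) ∪
      {v : DV K | ¬ v.G 0 S.Θ}).Finite :=
    ((range n).finite_toSet.biUnion fun i _ => hp (a i)).union (hp S.Θ)
  refine (S.preimage_finite hB).subset fun w hw => ?_
  by_contra hc
  apply hw
  have hc' : S.dn w ∉ (⋃ i ∈ (range n : Finset ℕ), {v : DV K | ¬ v.G 0 (a i)}) ∪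
      {v : DV K | ¬ v.G 0 S.Θ} := hc
  rw [Set.mem_union, not_or] at hc'
  have h1 : (S.dn w).G 0 S.Θ := not_not.1 hc'.2
  have h2 : ∀ i ∈ range n, (S.dn w).G 0 (a i) := by
    intro i hi
    by_contra h3
    exact hc'.1 (Set.mem_biUnion (by exact_mod_cast hi) h3)
  have h3 : 0 ≤ (S.dn w).ord S.Θ := h1.le S.Θ_ne
  rw [ha]
  refine G_sum_terms fun i hi => ?_
  rw [S.G_term (S.dn_over w)]
  refine (h2 i hi).mono ?_
  have hn := S.n_pos'
  obtain ⟨d1, d2⟩ := S.D_spec i (S.dn w)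
  by_contra hpos
  push Not at hpos
  have : (0 : ℤ) ≤ i * (S.dn w).ord S.Θ := mul_nonneg (by positivity) h3
  nlinarith

/-- the constants -/
theorem constL (hc : ∀ a : K, (∀ v : DV K, v.G 0 a) → ∃ c : k, a = algebraMap k K c)
    {v₀ : DV K} (h0 : IsCoprime (v₀.ord S.Θ) (n : ℤ)) (x : L) (hx : ∀ w : DV L, w.G 0 x) :
    ∃ c : k, x = algebraMap k L c := by
  obtain ⟨a, ha⟩ := S.exists_coords x
  have hn := S.n_pos'
  have h1 : ∀ i < n, ∀ v : DV K, v.G (S.D i v) (a i) := by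
    intro i hi v
    rw [← S.G_term (S.up_over v), ← S.E_coords hi, ← ha]
    exact S.G_E (fun w _ => hx w) i (S.up v) (S.up_over v)
  have h2 : ∀ i, 0 < i → i < n → a i = 0 := by
    intro i hi0 hi
    by_contra hai
    have hb0 : a i ^ n * S.Θ ^ i ≠ 0 := mul_ne_zero (pow_ne_zero n hai) (pow_ne_zero i S.Θ_ne)
    have h3 : ∀ v : DV K, v.ord (a i ^ n * S.Θ ^ i) = n * v.ord (a i) + i * v.ord S.Θ := by
      intro v
      rw [v.ord_mul _ _ (pow_ne_zero n hai) (pow_ne_zero i S.Θ_ne), v.ord_pow hai,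
        v.ord_pow S.Θ_ne]
    obtain ⟨c, hc'⟩ := hc (a i ^ n * S.Θ ^ i) (by
      intro v
      apply DV.G_of_le
      rw [h3]
      have h4 := (h1 i hi v).le hai
      obtain ⟨d1, d2⟩ := S.D_spec i v
      nlinarith)
    have hc0 : c ≠ 0 := by
      rintro rfl
      rw [map_zero] at hc'
      exact hb0 hc'
    have h4 := h3 v₀
    rw [hc', RRD.ord_algebraMap v₀ hc0] at h4
    have h5 : (n : ℤ) ∣ i * v₀.ord S.Θ := ⟨-v₀.ord (a i), by linarith⟩
    have h6 : (n : ℤ) ∣ i := (h0.symm).dvd_of_dvd_mul_right h5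
    have h7 : n ∣ i := by exact_mod_cast h6
    exact absurd (Nat.le_of_dvd hi0 h7) (by omega)
  obtain ⟨c, hc'⟩ := hc (a 0) (by
    intro v
    have := h1 0 S.n_pos v
    rwa [show S.D 0 = 0 from S.D_zero] at this)
  refine ⟨c, ?_⟩
  rw [ha, ← add_sum_erase _ _ (mem_range.2 S.n_pos)]
  rw [sum_eq_zero fun i hi => ?_, add_zero, pow_zero, mul_one, hc',
    ← IsScalarTower.algebraMap_apply k K L]
  rw [mem_erase, mem_range] at hi
  rw [h2 i (by omega) hi.2, map_zero, zero_mul]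

/-- Every integral element is congruent to a sum of integral terms. -/
theorem exists_terms {v : DV K} {w : DV L} (hw : Over w v) {x : L} (hx : w.G 0 x) :
    ∃ a : ℕ → K, (∀ i < n, v.G (S.D i v) (a i)) ∧
      w.G 1 (x - ∑ i ∈ range n, algebraMap K L (a i) * S.θ ^ i) := by
  classical
  obtain ⟨y, hy⟩ := DV.weak_approx (S.fib_finite v).toFinset (fun u => if u = w then x else 0) 1
  have hy1 : ∀ u : DV L, Over u v → u.G 0 y := by
    intro u hu
    have h1 := hy u (by simpa using hu)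
    have h2 : u.G 0 (if u = w then x else 0) := by
      split_ifs with h
      · rw [h]; exact hx
      · exact DV.G_zero 0
    have h3 := (h1.mono (show (0 : ℤ) ≤ ((1 : ℕ) : ℤ) by norm_num)).add h2
    rwa [sub_add_cancel] at h3
  obtain ⟨a, ha⟩ := S.exists_coords y
  refine ⟨a, fun i hi => ?_, ?_⟩
  · rw [← S.G_term hw, ← S.E_coords hi, ← ha]
    exact S.G_E hy1 i w hw
  · rw [← ha]
    have h1 := hy w (by simpa using hw)
    simp only [if_true, Nat.cast_one] at h1
    have h2 : x - y = -(y - x) := by ring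
    rw [h2]
    exact h1.neg

include S in
theorem finite_Res (hr : ∀ v : DV K, Nat.card v.Res ≠ 0) (w : DV L) : Finite w.Res := by
  classical
  set v := S.dn w with hv
  have hw : Over w v := S.dn_over w
  have hfin : ∀ i : Fin n, Finite (v.grp (S.D i v) ⧸
      (v.grp (S.D i v + 1)).addSubgroupOf (v.grp (S.D i v))) := by
    intro i
    apply Nat.finite_of_card_ne_zero
    have := relIndex_succ v (S.D i v)
    rw [show Nat.card (v.grp (S.D i v) ⧸
      (v.grp (S.D i v + 1)).addSubgroupOf (v.grp (S.D i v))) = Nat.card v.Res from this]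
    exact hr v
  let f : (∀ i : Fin n, v.grp (S.D i v) ⧸
      (v.grp (S.D i v + 1)).addSubgroupOf (v.grp (S.D i v))) → w.Res := fun q =>
    QuotientAddGroup.mk ⟨∑ i ∈ range n, algebraMap K L
      (if h : i < n then ((q ⟨i, h⟩).out : K) else 0) * S.θ ^ i, by
        refine G_sum_terms fun i hi => ?_
        rw [S.G_term hw, dif_pos (mem_range.1 hi)]
        exact (q ⟨i, mem_range.1 hi⟩).out.2⟩
  refine Finite.of_surjective f fun y => ?_
  obtain ⟨⟨x, hx⟩, rfl⟩ := QuotientAddGroup.mk_surjective y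
  obtain ⟨a, ha1, ha2⟩ := S.exists_terms hw hx
  refine ⟨fun i => QuotientAddGroup.mk ⟨a i, ha1 i i.2⟩, ?_⟩
  show QuotientAddGroup.mk _ = _
  rw [QuotientAddGroup.eq, AddSubgroup.mem_addSubgroupOf]
  show w.G 1 (-_ + x)
  have h1 : -(∑ i ∈ range n, algebraMap K L (if h : i < n then
      (((QuotientAddGroup.mk (⟨a i, ha1 i h⟩ : v.grp (S.D i v)) : v.grp (S.D i v) ⧸
      (v.grp (S.D i v + 1)).addSubgroupOf (v.grp (S.D i v)))).out : K) else 0) * S.θ ^ i) + x =
      (x - ∑ i ∈ range n, algebraMap K L (a i) * S.θ ^ i) -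
      ∑ i ∈ range n, algebraMap K L ((if h : i < n then
      (((QuotientAddGroup.mk (⟨a i, ha1 i h⟩ : v.grp (S.D i v)) : v.grp (S.D i v) ⧸
      (v.grp (S.D i v + 1)).addSubgroupOf (v.grp (S.D i v)))).out : K) else 0) - a i) * S.θ ^ i := by
    simp only [map_sub, sub_mul, sum_sub_distrib]
    ring
  refine (show w.G 1 _ from ?_)
  change w.G 1 (-(∑ i ∈ range n, algebraMap K L (if h : i < n then
      (((QuotientAddGroup.mk (⟨a i, ha1 i h⟩ : v.grp (S.D i v)) : v.grp (S.D i v) ⧸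
      (v.grp (S.D i v + 1)).addSubgroupOf (v.grp (S.D i v)))).out : K) else 0) * S.θ ^ i) + x)
  rw [h1]
  refine ha2.sub (G_sum_terms fun i hi => ?_)
  rw [mem_range] at hi
  apply S.G_term_one hw
  rw [dif_pos hi]
  have h2 := QuotientAddGroup.out_eq' (QuotientAddGroup.mk (⟨a i, ha1 i hi⟩ : v.grp (S.D i v)) :
    v.grp (S.D i v) ⧸ (v.grp (S.D i v + 1)).addSubgroupOf (v.grp (S.D i v)))
  rw [QuotientAddGroup.eq, AddSubgroup.mem_addSubgroupOf] at h2
  have h3 : v.G (S.D i v + 1) (-((QuotientAddGroup.mk (⟨a i, ha1 i hi⟩ : v.grp (S.D i v)) :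
    v.grp (S.D i v) ⧸ (v.grp (S.D i v + 1)).addSubgroupOf (v.grp (S.D i v))).out : K) + a i) := h2
  have h4 := h3.neg
  rwa [neg_add, neg_neg, ← sub_eq_add_neg] at h4

include S in
theorem resL (hr : ∀ v : DV K, Nat.card v.Res ≠ 0) (w : DV L) : 1 ≤ w.deg (Nat.card k) ∧
    Nat.card w.Res = Nat.card k ^ w.deg (Nat.card k) := by
  haveI := S.finite_Res hr w
  obtain ⟨d, hd⟩ := card_Res_pow k w Nat.card_pos.ne'
  have h1 : w.deg (Nat.card k) = d := by
    unfold DV.deg
    rw [hd, Nat.log_pow Finite.one_lt_card]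
  rw [h1]
  refine ⟨?_, hd⟩
  rcases Nat.eq_zero_or_pos d with h | h
  · rw [h, pow_zero] at hd
    exact absurd hd w.card_Res_ne_one
  · exact h

/-! ### The genus -/

theorem Psi_mem' (hp : ∀ a : K, {v : DV K | ¬ v.G 0 a}.Finite) {a : ℕ → DV K → K}
    (ha : ∀ i, i < n → a i ∈ Adl K) : S.Psi a ∈ Adl L := by
  have h1 : S.Psi a = ∑ i ∈ range n, fun w => algebraMap K L (a i (S.dn w)) * S.θ ^ i := by
    funext w
    rw [Finset.sum_apply]
    rfl
  rw [h1]
  refine AddSubgroup.sum_mem _ fun i hi => ?_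
  have h2 : {v : DV K | ¬ v.G 0 (a i v)}.Finite := ha i (mem_range.1 hi)
  refine ((S.preimage_finite h2).union (S.polesL hp (S.θ ^ i))).subset fun w hw => ?_
  by_contra hc
  rw [Set.mem_union, not_or] at hc
  apply hw
  have h4 : w.G 0 (S.θ ^ i) := not_not.1 hc.2
  have h5 : (S.dn w).G 0 (a i (S.dn w)) := not_not.1 hc.1
  have h7 := (((S.dn_over w).G_zero_iff _).2 h5).mul h4
  rwa [add_zero] at h7

theorem Psi_add (a b : ℕ → DV K → K) : S.Psi (a + b) = S.Psi a + S.Psi b := by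
  funext w
  simp only [Psi, Pi.add_apply, map_add, add_mul, sum_add_distrib]

/-- the converse of `key` -/
theorem key' {a : ℕ → DV K → K} (h : ∀ i < n, a i ∈ AInt (S.D i) ⊔ Prin K) :
    S.Psi a ∈ AInt (0 : DV L → ℤ) ⊔ Prin L := by
  classical
  have hex : ∀ i : ℕ, ∃ (b : DV K → K) (c : K), i < n → b ∈ AInt (S.D i) ∧ ∀ v, a i v = b v + c := by
    intro i
    by_cases hi : i < n
    · obtain ⟨b, hb, r, ⟨c, hr⟩, hsum⟩ := AddSubgroup.mem_sup.1 (h i hi)
      refine ⟨b, c, fun _ => ⟨hb, fun v => ?_⟩⟩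
      rw [← hsum, Pi.add_apply, hr]
    · exact ⟨0, 0, fun h => absurd h hi⟩
  choose b c hbc using hex
  refine AddSubgroup.mem_sup.2 ⟨S.Psi b, ?_, fun _ => ∑ i ∈ range n, algebraMap K L (c i) * S.θ ^ i,
    ⟨_, fun _ => rfl⟩, ?_⟩
  · intro w
    refine G_sum_terms fun i hi => ?_
    show w.G 0 _
    rw [S.G_term (S.dn_over w)]
    exact (hbc i (mem_range.1 hi)).1 (S.dn w)
  · funext w
    show S.Psi b w + ∑ i ∈ range n, algebraMap K L (c i) * S.θ ^ i = S.Psi a w
    unfold Psi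
    rw [← sum_add_distrib]
    refine sum_congr rfl fun i hi => ?_
    rw [(hbc i (mem_range.1 hi)).2, map_add, add_mul]

/-- the map on classes -/
noncomputable def Fu (hp : ∀ a : K, {v : DV K | ¬ v.G 0 a}.Finite)
    (q : ∀ i : Fin n, Q K (S.D i)) : Q L (0 : DV L → ℤ) :=
  QuotientAddGroup.mk ⟨S.Psi fun i => if h : i < n then ((q ⟨i, h⟩).out : DV K → K) else 0,
    S.Psi_mem' hp fun i hi => by rw [dif_pos hi]; exact (q ⟨i, hi⟩).out.2⟩

theorem Fu_inj (hp : ∀ a : K, {v : DV K | ¬ v.G 0 a}.Finite) : Function.Injective (S.Fu hp) := by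
  intro q q' h
  unfold Fu at h
  rw [QuotientAddGroup.eq, AddSubgroup.mem_addSubgroupOf] at h
  funext i
  set a : ℕ → DV K → K := fun i => if h : i < n then ((q ⟨i, h⟩).out : DV K → K) else 0 with ha
  set a' : ℕ → DV K → K := fun i => if h : i < n then ((q' ⟨i, h⟩).out : DV K → K) else 0 with ha'
  have h1 : S.Psi (a' - a) ∈ AInt (0 : DV L → ℤ) ⊔ Prin L := by
    rw [← S.Psi_sub]
    have h2 : S.Psi a' - S.Psi a = -S.Psi a + S.Psi a' := by ring
    rw [h2]
    exact h
  have h3 := S.key h1 i.2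
  have h4 : (a' - a) (i : ℕ) = -((q i).out : DV K → K) + ((q' i).out : DV K → K) := by
    rw [Pi.sub_apply, ha, ha']
    simp only [i.2, dif_pos]
    ring
  rw [h4] at h3
  rw [← QuotientAddGroup.out_eq' (q i), ← QuotientAddGroup.out_eq' (q' i), QuotientAddGroup.eq,
    AddSubgroup.mem_addSubgroupOf]
  exact h3

theorem Fu_surj (hp : ∀ a : K, {v : DV K | ¬ v.G 0 a}.Finite) : Function.Surjective (S.Fu hp) := by
  classical
  intro y
  obtain ⟨⟨r, hr⟩, rfl⟩ := QuotientAddGroup.mk_surjective y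
  -- the local approximations
  have hB : (S.dn '' {w : DV L | ¬ w.G 0 (r w)}).Finite := Set.Finite.image _ hr
  have hex : ∀ v : DV K, ∃ a : ℕ → K, (v ∉ S.dn '' {w : DV L | ¬ w.G 0 (r w)} → ∀ i, a i = 0) ∧
      ∀ w : DV L, Over w v → w.G 0 (r w - ∑ i ∈ range n, algebraMap K L (a i) * S.θ ^ i) := by
    intro v
    by_cases hv : v ∈ S.dn '' {w : DV L | ¬ w.G 0 (r w)}
    · obtain ⟨x, hx⟩ := DV.weak_approx (S.fib_finite v).toFinset r 0
      obtain ⟨a, ha⟩ := S.exists_coords x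
      refine ⟨a, fun h => absurd hv h, fun w hw => ?_⟩
      rw [← ha]
      have h1 := hx w (by simpa using hw)
      have h2 : r w - x = -(x - r w) := by ring
      rw [h2]
      exact h1.neg
    · refine ⟨fun _ => 0, fun _ _ => rfl, fun w hw => ?_⟩
      simp only [map_zero, zero_mul, sum_const_zero, sub_zero]
      by_contra hc
      exact hv ⟨w, hc, S.dn_eq hw⟩
  choose a ha1 ha2 using hex
  have hA : ∀ i : ℕ, (fun v => a v i) ∈ Adl K := by
    intro i
    show Set.Finite _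
    refine hB.subset fun v hv => ?_
    by_contra hc
    apply hv
    show v.G 0 (a v i)
    rw [ha1 v hc i]
    exact DV.G_zero 0
  refine ⟨fun i => QuotientAddGroup.mk ⟨fun v => a v i, hA i⟩, ?_⟩
  unfold Fu
  rw [QuotientAddGroup.eq, AddSubgroup.mem_addSubgroupOf]
  set q : ∀ i : Fin n, Q K (S.D i) := fun i => QuotientAddGroup.mk ⟨fun v => a v i, hA i⟩ with hq
  set α : ℕ → DV K → K := fun i => if h : i < n then ((q ⟨i, h⟩).out : DV K → K) else 0 with hα
  set β : ℕ → DV K → K := fun i v => a v i with hβ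
  show -S.Psi α + r ∈ AInt (0 : DV L → ℤ) ⊔ Prin L
  have h1 : -S.Psi α + r = S.Psi (β - α) + (r - S.Psi β) := by
    rw [← S.Psi_sub]
    ring
  rw [h1]
  refine AddSubgroup.add_mem _ (S.key' fun i hi => ?_) (AddSubgroup.mem_sup_left ?_)
  · have h2 := QuotientAddGroup.out_eq' (q ⟨i, hi⟩)
    rw [hq, QuotientAddGroup.eq, AddSubgroup.mem_addSubgroupOf] at h2
    have h3 : (β - α) i = -((q ⟨i, hi⟩).out : DV K → K) + fun v => a v i := by
      funext v
      show a v i - α i v = _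
      rw [hα]
      simp only [dif_pos hi, Pi.add_apply, Pi.neg_apply]
      ring
    rw [h3]
    exact h2
  · intro w
    have h2 := ha2 (S.dn w) w (S.dn_over w)
    exact h2

theorem card_eq (hp : ∀ a : K, {v : DV K | ¬ v.G 0 a}.Finite) :
    hCard (0 : DV L → ℤ) = ∏ i : Fin n, hCard (S.D i) := by
  have h1 := Nat.card_congr (Equiv.ofBijective _ ⟨S.Fu_inj hp, S.Fu_surj hp⟩)
  rw [Nat.card_pi, card_Q] at h1
  rw [← h1]
  rfl

/-- **Kummer extensions of curves.** -/
theorem cvUp {g : ℕ} (C : Cv k K g) {v₀ : DV K} (h0 : IsCoprime (v₀.ord S.Θ) (n : ℤ)) {e : ℕ → ℕ}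
    (he : ∀ i < n, hCard (S.D i) = Nat.card k ^ e i) : Cv k L (∑ i ∈ range n, e i) where
  poles := S.polesL C.poles
  const := S.constL C.const h0
  res := S.resL fun v => by rw [(C.res v).2]; exact pow_ne_zero _ Nat.card_pos.ne'
  genus := by
    show Nat.card (HH (0 : DV L → ℤ)) = _
    rw [card_HH_zero, S.card_eq C.poles, ← prod_pow_eq_pow_sum, Finset.prod_range]
    exact Finset.prod_congr rfl fun i _ => he i i.2

end Tm

end Pool.Agent.FF
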