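import Mathlib

/-! # The first linear programming bound for binary linear codes

If every nonzero element of a finite group `W` has a word `φ w` of weight at least `d`, and `g` is a
nonnegative radial function on the ball of radius `t` with `A g ≥ λ g` (`A` the adjacency operator of
the cube), then `(λ - N + 2 d) |W| ≤ 2 d |ball|`. -/

set_option autoImplicit false
set_option linter.unusedSectionVars false

namespace Pool.Agent.FF.LP

open Finset

/-- the sign of an element of `ZMod 2` -/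
noncomputable def sg (a : ZMod 2) : ℝ := if a = 0 then 1 else -1

theorem sg_zero : sg 0 = 1 := by simp [sg]

theorem zmod_cases (a : ZMod 2) : a = 0 ∨ a = 1 := by
  revert a; decide

theorem sg_one : sg 1 = -1 := by
  have : (1 : ZMod 2) ≠ 0 := by decide
  simp [sg, this]

theorem sg_add (a b : ZMod 2) : sg (a + b) = sg a * sg b := by
  have h : (1 : ZMod 2) + 1 = 0 := by decide
  rcases zmod_cases a with rfl | rfl <;> rcases zmod_cases b with rfl | rfl <;>
    simp [sg_zero, sg_one, h]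

variable {ι : Type*} [Fintype ι] [DecidableEq ι]

/-- the characters of the cube -/
noncomputable def chi (y x : ι → ZMod 2) : ℝ := ∏ i, sg (y i * x i)

theorem chi_add_left (y y' x : ι → ZMod 2) : chi (y + y') x = chi y x * chi y' x := by
  unfold chi
  rw [← prod_mul_distrib]
  refine prod_congr rfl fun i _ => ?_
  rw [Pi.add_apply, add_mul, sg_add]

theorem chi_add_right (y x x' : ι → ZMod 2) : chi y (x + x') = chi y x * chi y x' := by
  unfold chi
  rw [← prod_mul_distrib]
  refine prod_congr rfl fun i _ => ?_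
  rw [Pi.add_apply, mul_add, sg_add]

theorem chi_zero_left (x : ι → ZMod 2) : chi 0 x = 1 := by
  unfold chi
  exact prod_eq_one fun i _ => by rw [Pi.zero_apply, zero_mul, sg_zero]

theorem chi_zero_right (y : ι → ZMod 2) : chi y 0 = 1 := by
  unfold chi
  exact prod_eq_one fun i _ => by rw [Pi.zero_apply, mul_zero, sg_zero]

theorem add_self (x : ι → ZMod 2) : x + x = 0 := by
  ext i
  have h : ∀ a : ZMod 2, a + a = 0 := by decide
  exact h (x i)

theorem chi_mul_self (y x : ι → ZMod 2) : chi y x * chi y x = 1 := by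
  rw [← chi_add_left, add_self, chi_zero_left]

/-- the unit vectors -/
def ev (i : ι) : ι → ZMod 2 := Pi.single i 1

theorem chi_ev (y : ι → ZMod 2) (i : ι) : chi y (ev i) = sg (y i) := by
  unfold chi
  rw [prod_eq_single i]
  · simp [ev]
  · intro j _ hj
    simp [ev, hj, sg_zero]
  · intro h
    exact absurd (mem_univ i) h

theorem sum_sg (y : ι → ZMod 2) : ∑ i, sg (y i) = (Fintype.card ι : ℝ) - 2 * hammingNorm y := by
  have h1 : ∀ i, sg (y i) = 1 - 2 * (if y i ≠ 0 then 1 else 0) := by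
    intro i
    by_cases h : y i = 0
    · simp [sg, h]
    · simp [sg, h]
      norm_num
  simp_rw [h1]
  rw [sum_sub_distrib, ← mul_sum, sum_boole]
  simp [hammingNorm]

/-- the adjacency operator -/
noncomputable def adj (f : (ι → ZMod 2) → ℝ) (x : ι → ZMod 2) : ℝ := ∑ i, f (x + ev i)

/-- Fourier transform -/
noncomputable def hat (f : (ι → ZMod 2) → ℝ) (y : ι → ZMod 2) : ℝ := ∑ x, f x * chi y x

theorem hat_adj (f : (ι → ZMod 2) → ℝ) (y : ι → ZMod 2) :
    hat (adj f) y = ((Fintype.card ι : ℝ) - 2 * hammingNorm y) * hat f y := by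
  unfold hat adj
  calc ∑ x, (∑ i, f (x + ev i)) * chi y x = ∑ x, ∑ i, f (x + ev i) * chi y x :=
        sum_congr rfl fun x _ => sum_mul _ _ _
    _ = ∑ i, ∑ x, f (x + ev i) * chi y x := sum_comm
    _ = ∑ i, ∑ x, f x * (chi y x * sg (y i)) := by
        refine sum_congr rfl fun i _ => ?_
        refine Fintype.sum_equiv (Equiv.addRight (ev i)) _ _ fun x => ?_
        rw [Equiv.coe_addRight, chi_add_right, chi_ev, mul_assoc (chi y x)]
        have h : sg (y i) * sg (y i) = 1 := by
          rw [← sg_add]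
          have h : ∀ a : ZMod 2, a + a = 0 := by decide
          rw [h, sg_zero]
        rw [h, mul_one]
    _ = ∑ i, sg (y i) * ∑ x, f x * chi y x := by
        refine sum_congr rfl fun i _ => ?_
        rw [mul_sum]
        exact sum_congr rfl fun x _ => by ring
    _ = _ := by rw [← sum_mul, sum_sg]

theorem sum_char_nonneg {W : Type*} [AddCommGroup W] [Fintype W] (ψ : W → ℝ)
    (hadd : ∀ a b, ψ (a + b) = ψ a * ψ b) (hsq : ∀ a, ψ a * ψ a = 1) : 0 ≤ ∑ w, ψ w := by
  by_cases h : ∀ w, ψ w = 1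
  · simp_rw [h]
    simp
  · push Not at h
    obtain ⟨w₀, h0⟩ := h
    have h1 : ψ w₀ = -1 := (mul_self_eq_one_iff.1 (hsq w₀)).resolve_left h0
    have h2 : ∑ w, ψ w = ∑ w, ψ (w₀ + w) :=
      (Fintype.sum_equiv (Equiv.addLeft w₀) (fun w => ψ (w₀ + w)) ψ fun w => rfl).symm
    have h3 : ∑ w, ψ (w₀ + w) = - ∑ w, ψ w := by
      rw [← sum_neg_distrib]
      exact sum_congr rfl fun w _ => by rw [hadd, h1]; ring
    linarith

section main

variable {W : Type*} [AddCommGroup W] [Fintype W] (φ : W →+ (ι → ZMod 2))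

theorem sum_chi_nonneg (z : ι → ZMod 2) : 0 ≤ ∑ w, chi (φ w) z :=
  sum_char_nonneg _ (fun a b => by rw [map_add, chi_add_left]) fun a => chi_mul_self _ _

theorem mul_hat (f h : (ι → ZMod 2) → ℝ) (y : ι → ZMod 2) :
    hat f y * hat h y = ∑ x, ∑ x', f x * h x' * chi y (x + x') := by
  unfold hat
  rw [sum_mul_sum]
  refine sum_congr rfl fun x _ => sum_congr rfl fun x' _ => ?_
  rw [chi_add_right]
  ring

theorem sum_mul_hat (f h : (ι → ZMod 2) → ℝ) :
    ∑ w, hat f (φ w) * hat h (φ w) = ∑ x, ∑ x', f x * h x' * ∑ w, chi (φ w) (x + x') := by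
  simp_rw [mul_hat]
  rw [sum_comm]
  refine sum_congr rfl fun x _ => ?_
  rw [sum_comm]
  exact sum_congr rfl fun x' _ => by rw [mul_sum]

theorem key1 (f : (ι → ZMod 2) → ℝ) (hf : ∀ x, 0 ≤ f x) (lam : ℝ)
    (hA : ∀ x, lam * f x ≤ adj f x) :
    ∑ w, (lam - ((Fintype.card ι : ℝ) - 2 * hammingNorm (φ w))) * hat f (φ w) ^ 2 ≤ 0 := by
  have h1 : ∀ w, (lam - ((Fintype.card ι : ℝ) - 2 * hammingNorm (φ w))) * hat f (φ w) ^ 2 =
      hat (fun x => lam * f x - adj f x) (φ w) * hat f (φ w) := by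
    intro w
    have h2 : hat (fun x => lam * f x - adj f x) (φ w) = lam * hat f (φ w) - hat (adj f) (φ w) := by
      unfold hat
      rw [mul_sum, ← sum_sub_distrib]
      exact sum_congr rfl fun x _ => by ring
    rw [h2, hat_adj]
    ring
  simp_rw [h1]
  rw [sum_mul_hat]
  refine sum_nonpos fun x _ => sum_nonpos fun x' _ => ?_
  have h2 : lam * f x - adj f x ≤ 0 := by linarith [hA x]
  exact mul_nonpos_of_nonpos_of_nonneg (mul_nonpos_of_nonpos_of_nonneg h2 (hf x'))
    (sum_chi_nonneg φ _)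

theorem key2 (f : (ι → ZMod 2) → ℝ) (hf : ∀ x, 0 ≤ f x) :
    (Fintype.card W : ℝ) * ∑ x, f x ^ 2 ≤ ∑ w, hat f (φ w) ^ 2 := by
  have h0 : ∑ w, hat f (φ w) ^ 2 = ∑ w, hat f (φ w) * hat f (φ w) :=
    sum_congr rfl fun w _ => sq _
  rw [h0, sum_mul_hat, mul_sum]
  refine sum_le_sum fun x _ => ?_
  have h1 : f x * f x * ∑ w, chi (φ w) (x + x) ≤
      ∑ x', f x * f x' * ∑ w, chi (φ w) (x + x') :=
    single_le_sum (f := fun x' => f x * f x' * ∑ w, chi (φ w) (x + x'))
      (fun x' _ => mul_nonneg (mul_nonneg (hf x) (hf x')) (sum_chi_nonneg φ _)) (mem_univ x)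
  refine le_trans (le_of_eq ?_) h1
  have h2 : ∑ w, chi (φ w) (x + x) = Fintype.card W := by
    rw [add_self]
    simp [chi_zero_right]
  rw [h2]
  ring

/-- **The linear programming bound**, abstract form. -/
theorem lp_abstract (f : (ι → ZMod 2) → ℝ) (hf : ∀ x, 0 ≤ f x) (lam : ℝ)
    (hA : ∀ x, lam * f x ≤ adj f x) (d : ℕ) (hlam : (Fintype.card ι : ℝ) - 2 * d ≤ lam)
    (hd : ∀ w : W, w ≠ 0 → d ≤ hammingNorm (φ w)) :
    (lam - Fintype.card ι + 2 * d) * Fintype.card W * ∑ x, f x ^ 2 ≤ 2 * d * (∑ x, f x) ^ 2 := by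
  classical
  have h1 := key1 φ f hf lam hA
  have h2 := key2 φ f hf
  have h0 : hat f (φ 0) = ∑ x, f x := by
    unfold hat
    rw [map_zero]
    exact sum_congr rfl fun x _ => by rw [chi_zero_left, mul_one]
  have e1 : ∑ w, (lam - ((Fintype.card ι : ℝ) - 2 * hammingNorm (φ w))) * hat f (φ w) ^ 2 =
      (lam - Fintype.card ι) * (∑ x, f x) ^ 2 + ∑ w ∈ univ.erase (0 : W),
        (lam - ((Fintype.card ι : ℝ) - 2 * hammingNorm (φ w))) * hat f (φ w) ^ 2 := by
    rw [← add_sum_erase univ _ (mem_univ (0 : W)), h0, map_zero, hammingNorm_zero]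
    push_cast
    ring
  have e2 : ∑ w, hat f (φ w) ^ 2 = (∑ x, f x) ^ 2 + ∑ w ∈ univ.erase (0 : W), hat f (φ w) ^ 2 := by
    rw [← add_sum_erase univ _ (mem_univ (0 : W)), h0]
  have h3 : (lam - Fintype.card ι + 2 * d) * ∑ w ∈ univ.erase (0 : W), hat f (φ w) ^ 2 ≤
      ∑ w ∈ univ.erase (0 : W),
        (lam - ((Fintype.card ι : ℝ) - 2 * hammingNorm (φ w))) * hat f (φ w) ^ 2 := by
    rw [mul_sum]
    refine sum_le_sum fun w hw => mul_le_mul_of_nonneg_right ?_ (sq_nonneg _)
    have h4 : (d : ℝ) ≤ hammingNorm (φ w) := by exact_mod_cast hd w (ne_of_mem_erase hw)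
    linarith
  have h5 : 0 ≤ lam - Fintype.card ι + 2 * d := by linarith
  have h6 : (lam - Fintype.card ι + 2 * d) * (Fintype.card W * ∑ x, f x ^ 2) ≤
      (lam - Fintype.card ι + 2 * d) * ((∑ x, f x) ^ 2 +
        ∑ w ∈ univ.erase (0 : W), hat f (φ w) ^ 2) :=
    mul_le_mul_of_nonneg_left (h2.trans_eq e2) h5
  rw [e1] at h1
  nlinarith [h1, h3, h6]

end main

/-! ### Radial functions -/

theorem hammingNorm_add_ev (x : ι → ZMod 2) (i : ι) :
    hammingNorm (x + ev i) = if x i = 0 then hammingNorm x + 1 else hammingNorm x - 1 := by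
  have hne : ∀ j, j ≠ i → (x + ev i) j = x j := by
    intro j hj
    rw [Pi.add_apply, ev, Pi.single_eq_of_ne hj, add_zero]
  have heq : (x + ev i) i = x i + 1 := by
    rw [Pi.add_apply, ev, Pi.single_eq_same]
  unfold hammingNorm
  split_ifs with h
  · have h1 : (univ.filter fun j => (x + ev i) j ≠ 0) =
        insert i (univ.filter fun j => x j ≠ 0) := by
      ext j
      rw [mem_filter, mem_insert, mem_filter]
      by_cases hj : j = i
      · subst hj
        rw [heq, h]
        simp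
      · rw [hne j hj]
        simp [hj]
    rw [h1, card_insert_of_notMem]
    rw [mem_filter]
    simp [h]
  · have h1 : (univ.filter fun j => (x + ev i) j ≠ 0) =
        (univ.filter fun j => x j ≠ 0).erase i := by
      ext j
      rw [mem_filter, mem_erase, mem_filter]
      by_cases hj : j = i
      · subst hj
        have h2 : x j = 1 := (zmod_cases (x j)).resolve_left h
        have h3 : (1 : ZMod 2) + 1 = 0 := by decide
        rw [heq, h2, h3]
        simp
      · rw [hne j hj]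
        simp [hj]
    rw [h1, card_erase_of_mem]
    rw [mem_filter]
    exact ⟨mem_univ _, h⟩

theorem adj_radial (g : ℕ → ℝ) (x : ι → ZMod 2) :
    adj (fun x => g (hammingNorm x)) x = hammingNorm x * g (hammingNorm x - 1) +
      ((Fintype.card ι : ℝ) - hammingNorm x) * g (hammingNorm x + 1) := by
  unfold adj
  have h1 : ∀ i, g (hammingNorm (x + ev i)) = (if x i ≠ 0 then 1 else 0) *
      (g (hammingNorm x - 1) - g (hammingNorm x + 1)) + g (hammingNorm x + 1) := by
    intro i
    rw [hammingNorm_add_ev]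
    by_cases h : x i = 0
    · simp [h]
    · simp [h]
  simp_rw [h1]
  rw [sum_add_distrib, ← sum_mul, sum_boole]
  have h2 : ((univ.filter fun i => x i ≠ 0).card : ℝ) = hammingNorm x := rfl
  rw [h2]
  simp
  ring

theorem hammingNorm_le (x : ι → ZMod 2) : hammingNorm x ≤ Fintype.card ι := by
  exact hammingNorm_le_card_fintype

/-- **The linear programming bound** for radial functions on a ball. -/
theorem lp_bound {W : Type*} [AddCommGroup W] [Fintype W] (φ : W →+ (ι → ZMod 2))
    (g : ℕ → ℝ) (lam : ℝ) (d t : ℕ) (hg0 : ∀ i, 0 ≤ g i) (hgt : ∀ i, t < i → g i = 0)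
    (hpos : ∃ i ≤ Fintype.card ι, 0 < g i)
    (hg : ∀ i ≤ Fintype.card ι, lam * g i ≤ i * g (i - 1) + ((Fintype.card ι : ℝ) - i) * g (i + 1))
    (hlam : (Fintype.card ι : ℝ) - 2 * d ≤ lam)
    (hd : ∀ w : W, w ≠ 0 → d ≤ hammingNorm (φ w)) :
    (lam - Fintype.card ι + 2 * d) * Fintype.card W ≤
      2 * d * (univ.filter fun x : ι → ZMod 2 => hammingNorm x ≤ t).card := by
  classical
  set f : (ι → ZMod 2) → ℝ := fun x => g (hammingNorm x) with hf
  have h1 := lp_abstract φ f (fun x => hg0 _) lam (fun x => by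
    rw [hf, adj_radial]
    exact hg _ (hammingNorm_le x)) d hlam hd
  set BB := univ.filter fun x : ι → ZMod 2 => hammingNorm x ≤ t with hBB
  have h2 : ∑ x, f x = ∑ x ∈ BB, f x := by
    refine (sum_subset (subset_univ BB) fun x _ hx => ?_).symm
    refine hgt _ ?_
    by_contra h
    exact hx (by rw [hBB, mem_filter]; exact ⟨mem_univ _, not_lt.1 h⟩)
  have h3 : (∑ x ∈ BB, f x) ^ 2 ≤ BB.card * ∑ x ∈ BB, f x ^ 2 := sq_sum_le_card_mul_sum_sq
  have h4 : ∑ x ∈ BB, f x ^ 2 ≤ ∑ x, f x ^ 2 :=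
    sum_le_sum_of_subset_of_nonneg (subset_univ BB) fun x _ _ => sq_nonneg _
  have h5 : 0 < ∑ x, f x ^ 2 := by
    obtain ⟨i, hi, hgi⟩ := hpos
    obtain ⟨s, hs, hsc⟩ := Finset.exists_subset_card_eq (s := (univ : Finset ι)) (n := i)
      (by rwa [card_univ])
    let x : ι → ZMod 2 := fun j => if j ∈ s then 1 else 0
    have hx : hammingNorm x = i := by
      unfold hammingNorm
      rw [← hsc]
      congr 1
      ext j
      simp [x]
    have h6 : 0 < f x ^ 2 := by
      rw [hf]
      simp only [hx]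
      positivity
    exact lt_of_lt_of_le h6 (single_le_sum (f := fun x => f x ^ 2) (fun x _ => sq_nonneg _)
      (mem_univ x))
  have h7 : 2 * (d : ℝ) * (∑ x, f x) ^ 2 ≤ 2 * d * BB.card * ∑ x, f x ^ 2 := by
    rw [h2]
    calc 2 * (d : ℝ) * (∑ x ∈ BB, f x) ^ 2 ≤ 2 * d * (BB.card * ∑ x, f x ^ 2) :=
          mul_le_mul_of_nonneg_left (h3.trans (mul_le_mul_of_nonneg_left h4 (by positivity)))
            (by positivity)
      _ = _ := by ring
  have h8 := h1.trans h7
  exact le_of_mul_le_mul_right h8 h5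

end Pool.Agent.FF.LP
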