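import Pool.Agent.FF.LPBlock

/-! # The first linear programming bound for arbitrary families of words -/

set_option autoImplicit false
set_option linter.unusedSectionVars false

namespace Pool.Agent.FF.LP

open Finset

variable {ι : Type*} [Fintype ι] [DecidableEq ι]

section fam

variable {C : Type*} [Fintype C] (w : C → ι → ZMod 2)

theorem sum_sum_chi (z : ι → ZMod 2) :
    ∑ a, ∑ b, chi (w a + w b) z = (∑ a, chi (w a) z) ^ 2 := by
  rw [sq, sum_mul_sum]
  exact sum_congr rfl fun a _ => sum_congr rfl fun b _ => chi_add_left _ _ _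

theorem sum_mul_hat_fam (f h : (ι → ZMod 2) → ℝ) :
    ∑ a, ∑ b, hat f (w a + w b) * hat h (w a + w b) =
      ∑ x, ∑ x', f x * h x' * (∑ a, chi (w a) (x + x')) ^ 2 := by
  simp_rw [mul_hat]
  calc ∑ a, ∑ b, ∑ x, ∑ x', f x * h x' * chi (w a + w b) (x + x')
      = ∑ a, ∑ x, ∑ b, ∑ x', f x * h x' * chi (w a + w b) (x + x') :=
        sum_congr rfl fun a _ => sum_comm
    _ = ∑ x, ∑ a, ∑ b, ∑ x', f x * h x' * chi (w a + w b) (x + x') := sum_comm
    _ = ∑ x, ∑ x', f x * h x' * (∑ a, chi (w a) (x + x')) ^ 2 := by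
        refine sum_congr rfl fun x _ => ?_
        calc ∑ a, ∑ b, ∑ x', f x * h x' * chi (w a + w b) (x + x')
            = ∑ a, ∑ x', ∑ b, f x * h x' * chi (w a + w b) (x + x') :=
              sum_congr rfl fun a _ => sum_comm
          _ = ∑ x', ∑ a, ∑ b, f x * h x' * chi (w a + w b) (x + x') := sum_comm
          _ = _ := by
              refine sum_congr rfl fun x' _ => ?_
              rw [← sum_sum_chi, mul_sum]
              exact sum_congr rfl fun a _ => by rw [mul_sum]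

theorem key1_fam (f : (ι → ZMod 2) → ℝ) (hf : ∀ x, 0 ≤ f x) (lam : ℝ)
    (hA : ∀ x, lam * f x ≤ adj f x) :
    ∑ a, ∑ b, (lam - ((Fintype.card ι : ℝ) - 2 * hammingNorm (w a + w b))) *
      hat f (w a + w b) ^ 2 ≤ 0 := by
  have h1 : ∀ y : ι → ZMod 2, (lam - ((Fintype.card ι : ℝ) - 2 * hammingNorm y)) * hat f y ^ 2 =
      hat (fun x => lam * f x - adj f x) y * hat f y := by
    intro y
    have h2 : hat (fun x => lam * f x - adj f x) y = lam * hat f y - hat (adj f) y := by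
      unfold hat
      rw [mul_sum, ← sum_sub_distrib]
      exact sum_congr rfl fun x _ => by ring
    rw [h2, hat_adj]
    ring
  simp_rw [h1]
  rw [sum_mul_hat_fam]
  refine sum_nonpos fun x _ => sum_nonpos fun x' _ => ?_
  have h2 : lam * f x - adj f x ≤ 0 := by linarith [hA x]
  exact mul_nonpos_of_nonpos_of_nonneg (mul_nonpos_of_nonpos_of_nonneg h2 (hf x')) (sq_nonneg _)

theorem key2_fam (f : (ι → ZMod 2) → ℝ) (hf : ∀ x, 0 ≤ f x) :
    (Fintype.card C : ℝ) ^ 2 * ∑ x, f x ^ 2 ≤ ∑ a, ∑ b, hat f (w a + w b) ^ 2 := by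
  have h0 : ∑ a, ∑ b, hat f (w a + w b) ^ 2 =
      ∑ a, ∑ b, hat f (w a + w b) * hat f (w a + w b) :=
    sum_congr rfl fun a _ => sum_congr rfl fun b _ => sq _
  rw [h0, sum_mul_hat_fam, mul_sum]
  refine sum_le_sum fun x _ => ?_
  have h1 : f x * f x * (∑ a, chi (w a) (x + x)) ^ 2 ≤
      ∑ x', f x * f x' * (∑ a, chi (w a) (x + x')) ^ 2 :=
    single_le_sum (f := fun x' => f x * f x' * (∑ a, chi (w a) (x + x')) ^ 2)
      (fun x' _ => mul_nonneg (mul_nonneg (hf x) (hf x')) (sq_nonneg _)) (mem_univ x)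
  refine le_trans (le_of_eq ?_) h1
  have h2 : ∑ a, chi (w a) (x + x) = Fintype.card C := by
    rw [add_self]
    simp [chi_zero_right]
  rw [h2]
  ring

/-- **The linear programming bound for families**, abstract form. -/
theorem lp_abstract_fam (f : (ι → ZMod 2) → ℝ) (hf : ∀ x, 0 ≤ f x) (lam : ℝ)
    (hA : ∀ x, lam * f x ≤ adj f x) (d : ℕ) (hlam : (Fintype.card ι : ℝ) - 2 * d ≤ lam)
    (hd : ∀ a b : C, a ≠ b → d ≤ hammingNorm (w a + w b)) :
    (lam - Fintype.card ι + 2 * d) * Fintype.card C * ∑ x, f x ^ 2 ≤ 2 * d * (∑ x, f x) ^ 2 := by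
  classical
  rcases isEmpty_or_nonempty C with hE | hE
  · have h0 : Fintype.card C = 0 := Fintype.card_eq_zero
    rw [h0]
    push_cast
    rw [mul_zero, zero_mul]
    positivity
  have hC : (0 : ℝ) < Fintype.card C := by exact_mod_cast Fintype.card_pos
  have h1 := key1_fam w f hf lam hA
  have h2 := key2_fam w f hf
  have h0 : ∀ a, hat f (w a + w a) = ∑ x, f x := by
    intro a
    unfold hat
    rw [add_self]
    exact sum_congr rfl fun x _ => by rw [chi_zero_left, mul_one]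
  have e1 : ∑ a, ∑ b, (lam - ((Fintype.card ι : ℝ) - 2 * hammingNorm (w a + w b))) *
      hat f (w a + w b) ^ 2 = Fintype.card C * ((lam - Fintype.card ι) * (∑ x, f x) ^ 2) +
      ∑ a, ∑ b ∈ univ.erase a, (lam - ((Fintype.card ι : ℝ) - 2 * hammingNorm (w a + w b))) *
        hat f (w a + w b) ^ 2 := by
    have e0 : ∀ a, ∑ b, (lam - ((Fintype.card ι : ℝ) - 2 * hammingNorm (w a + w b))) *
        hat f (w a + w b) ^ 2 = (lam - Fintype.card ι) * (∑ x, f x) ^ 2 +
        ∑ b ∈ univ.erase a, (lam - ((Fintype.card ι : ℝ) - 2 * hammingNorm (w a + w b))) *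
          hat f (w a + w b) ^ 2 := by
      intro a
      rw [← add_sum_erase univ _ (mem_univ a), h0, add_self, hammingNorm_zero]
      push_cast
      ring
    rw [sum_congr rfl fun a _ => e0 a, sum_add_distrib, sum_const, card_univ, nsmul_eq_mul]
  have e2 : ∑ a, ∑ b, hat f (w a + w b) ^ 2 = Fintype.card C * (∑ x, f x) ^ 2 +
      ∑ a, ∑ b ∈ univ.erase a, hat f (w a + w b) ^ 2 := by
    have e0 : ∀ a, ∑ b, hat f (w a + w b) ^ 2 = (∑ x, f x) ^ 2 +
        ∑ b ∈ univ.erase a, hat f (w a + w b) ^ 2 := by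
      intro a
      rw [← add_sum_erase univ _ (mem_univ a), h0]
    rw [sum_congr rfl fun a _ => e0 a, sum_add_distrib, sum_const, card_univ, nsmul_eq_mul]
  have h3 : (lam - Fintype.card ι + 2 * d) * ∑ a, ∑ b ∈ univ.erase a, hat f (w a + w b) ^ 2 ≤
      ∑ a, ∑ b ∈ univ.erase a, (lam - ((Fintype.card ι : ℝ) - 2 * hammingNorm (w a + w b))) *
        hat f (w a + w b) ^ 2 := by
    rw [mul_sum]
    refine sum_le_sum fun a _ => ?_
    rw [mul_sum]
    refine sum_le_sum fun b hb => mul_le_mul_of_nonneg_right ?_ (sq_nonneg _)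
    have h4 : (d : ℝ) ≤ hammingNorm (w a + w b) := by
      exact_mod_cast hd a b (ne_of_mem_erase hb).symm
    linarith
  have h5 : 0 ≤ lam - Fintype.card ι + 2 * d := by linarith
  have h6 := mul_le_mul_of_nonneg_left (h2.trans_eq e2) h5
  rw [e1] at h1
  have h7 : Fintype.card C * ((lam - Fintype.card ι + 2 * d) * Fintype.card C * ∑ x, f x ^ 2) ≤
      Fintype.card C * (2 * d * (∑ x, f x) ^ 2) := by
    nlinarith [h1, h3, h6]
  exact le_of_mul_le_mul_left h7 hC

end fam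

/-- **The linear programming bound for families** and radial functions on a ball. -/
theorem lp_bound_fam {C : Type*} [Fintype C] (w : C → ι → ZMod 2)
    (g : ℕ → ℝ) (lam : ℝ) (d t : ℕ) (hg0 : ∀ i, 0 ≤ g i) (hgt : ∀ i, t < i → g i = 0)
    (hpos : ∃ i ≤ Fintype.card ι, 0 < g i)
    (hg : ∀ i ≤ Fintype.card ι, lam * g i ≤ i * g (i - 1) + ((Fintype.card ι : ℝ) - i) * g (i + 1))
    (hlam : (Fintype.card ι : ℝ) - 2 * d ≤ lam)
    (hd : ∀ a b : C, a ≠ b → d ≤ hammingNorm (w a + w b)) :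
    (lam - Fintype.card ι + 2 * d) * Fintype.card C ≤
      2 * d * (univ.filter fun x : ι → ZMod 2 => hammingNorm x ≤ t).card := by
  classical
  set f : (ι → ZMod 2) → ℝ := fun x => g (hammingNorm x) with hf
  have h1 := lp_abstract_fam w f (fun x => hg0 _) lam (fun x => by
    rw [hf, adj_radial]
    exact hg _ (hammingNorm_le x)) d hlam hd
  set BB := univ.filter fun x : ι → ZMod 2 => hammingNorm x ≤ t with hBB
  have h2 : ∑ x, f x = ∑ x ∈ BB, f x := by
    refine (sum_subset (subset_univ BB) fun x _ hx => ?_).symm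
    refine hgt _ ?_
    by_contra h
    exact hx (by rw [hBB, mem_filter]; exact ⟨mem_univ _, not_lt.1 h⟩)
  have h3 : (∑ x ∈ BB, f x) ^ 2 ≤ BB.card * ∑ x ∈ BB, f x ^ 2 := sq_sum_le_card_mul_sum_sq
  have h4 : ∑ x ∈ BB, f x ^ 2 ≤ ∑ x, f x ^ 2 :=
    sum_le_sum_of_subset_of_nonneg (subset_univ BB) fun x _ _ => sq_nonneg _
  have h5 : 0 < ∑ x, f x ^ 2 := by
    obtain ⟨i, hi, hgi⟩ := hpos
    obtain ⟨s, hs, hsc⟩ := Finset.exists_subset_card_eq (s := (univ : Finset ι)) (n := i)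
      (by rwa [card_univ])
    let x : ι → ZMod 2 := fun j => if j ∈ s then 1 else 0
    have hx : hammingNorm x = i := by
      unfold hammingNorm
      rw [← hsc]
      congr 1
      ext j
      simp [x]
    have h6 : 0 < f x ^ 2 := by
      rw [hf]
      simp only [hx]
      positivity
    exact lt_of_lt_of_le h6 (single_le_sum (f := fun x => f x ^ 2) (fun x _ => sq_nonneg _)
      (mem_univ x))
  have h7 : 2 * (d : ℝ) * (∑ x, f x) ^ 2 ≤ 2 * d * BB.card * ∑ x, f x ^ 2 := by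
    rw [h2]
    calc 2 * (d : ℝ) * (∑ x ∈ BB, f x) ^ 2 ≤ 2 * d * (BB.card * ∑ x, f x ^ 2) :=
          mul_le_mul_of_nonneg_left (h3.trans (mul_le_mul_of_nonneg_left h4 (by positivity)))
            (by positivity)
      _ = _ := by ring
  have h8 := h1.trans h7
  exact le_of_mul_le_mul_right h8 h5

set_option maxHeartbeats 4000000 in
/-- **The linear programming bound in blocks, for families of words**: `2 ^ κ` words and `B`
coordinates per block give two words at distance at most `u` per block. -/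
theorem lp_block_fam (B a κ u : ℕ) (ha : 0 < a) (h2a : 2 * a ≤ B)
    (hκ : B ^ B < 2 ^ κ * (a ^ a * (B - a) ^ (B - a))) (hu : 2 * u ≤ B)
    (hlt : (B - 2 * u) ^ 2 < 4 * a * (B - a)) :
    ∃ n₀ : ℕ, ∀ n ≥ n₀, ∀ (ι : Type) [Fintype ι] [DecidableEq ι] (W : Type)
      [Finite W] (φ : W → ι → ZMod 2), Fintype.card ι = B * n → 2 ^ (κ * n) ≤ Nat.card W →
      ∃ a b : W, a ≠ b ∧ hammingNorm (φ a + φ b) ≤ u * n := by
  have haB : a < B := by omega
  have ha' : (0 : ℝ) < a := by exact_mod_cast ha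
  have hBa : (0 : ℝ) < (B : ℝ) - a := by
    have : (a : ℝ) < B := by exact_mod_cast haB
    linarith
  set S : ℝ := Real.sqrt (a * (B - a)) with hS
  have hS2 : S ^ 2 = a * (B - a) := Real.sq_sqrt (by positivity)
  have hS0 : 0 < S := Real.sqrt_pos.2 (by positivity)
  have hu' : (0 : ℝ) ≤ (B : ℝ) - 2 * u := by
    have : (2 * (u : ℝ)) ≤ B := by exact_mod_cast hu
    linarith
  have hδ : (B : ℝ) - 2 * u < 2 * S := by
    have h1 : ((B : ℝ) - 2 * u) ^ 2 < (2 * S) ^ 2 := by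
      rw [mul_pow, hS2]
      have h2 : (((B - 2 * u) ^ 2 : ℕ) : ℝ) < ((4 * a * (B - a) : ℕ) : ℝ) := by
        exact_mod_cast hlt
      push_cast [Nat.cast_sub hu, Nat.cast_sub haB.le] at h2
      nlinarith
    exact lt_of_pow_lt_pow_left₀ 2 (by positivity) h1
  set δ : ℝ := 2 * S - (B - 2 * u) with hδd
  have hδ0 : 0 < δ := by rw [hδd]; linarith
  obtain ⟨M, hM⟩ := exists_nat_gt (max 1 (8 * S / δ))
  have hM1 : (1 : ℝ) < M := lt_of_le_of_lt (le_max_left _ _) hM
  have hM2 : 8 * S / δ < M := lt_of_le_of_lt (le_max_right _ _) hM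
  have hM1' : 1 ≤ M := by
    have : 1 < M := by exact_mod_cast hM1
    omega
  have hM0 : (0 : ℝ) < M := by linarith
  obtain ⟨n1, hn1⟩ := exists_nat_gt (max (M : ℝ) (8 * S * M / (δ * a)))
  -- growth
  set X : ℝ := (2 : ℝ) ^ κ * ((a : ℝ) ^ a * ((B : ℝ) - a) ^ (B - a)) with hX
  set Y : ℝ := (B : ℝ) ^ B with hY
  have hXY : Y < X := by
    have h1 : ((B ^ B : ℕ) : ℝ) < ((2 ^ κ * (a ^ a * (B - a) ^ (B - a)) : ℕ) : ℝ) := by
      exact_mod_cast hκ
    push_cast [Nat.cast_sub haB.le] at h1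
    exact h1
  have hB0 : (0 : ℝ) < B := by linarith
  have hY0 : 0 < Y := by rw [hY]; positivity
  have hq : 1 < X / Y := by rwa [one_lt_div hY0]
  obtain ⟨n2, hn2⟩ := (((tendsto_pow_atTop_atTop_of_one_lt hq).eventually_gt_atTop
    (8 * u / δ)).exists_forall_of_atTop)
  refine ⟨max n1 n2 + 1, ?_⟩
  intro n hn ι _ _ W _ φ hι hW
  classical
  have := Fintype.ofFinite W
  have hn1' : (max (M : ℝ) (8 * S * M / (δ * a))) < n := by
    refine lt_of_lt_of_le hn1 ?_
    have : n1 ≤ n := by omega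
    exact_mod_cast this
  have hnM : (M : ℝ) < n := lt_of_le_of_lt (le_max_left _ _) hn1'
  have hnS : 8 * S * M / (δ * a) < n := lt_of_le_of_lt (le_max_right _ _) hn1'
  have hn0 : (0 : ℝ) < n := by linarith
  have hn0' : 0 < n := by exact_mod_cast hn0
  by_contra hcon
  push Not at hcon
  have hMn : M ≤ n := by
    have : M < n := by exact_mod_cast hnM
    omega
  have hMt : M ≤ a * n := hMn.trans (Nat.le_mul_of_pos_left _ ha)
  have htN : a * n < B * n := Nat.mul_lt_mul_of_pos_right haB hn0'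
  obtain ⟨g, g0, g1, g2, g3⟩ := window (B * n) (a * n) M hM1' hMt htN (S * n) (by positivity) (by
    push_cast
    rw [mul_pow, hS2]
    ring)
  set lam : ℝ := 2 * (S * n) * (1 - M / ((a * n : ℕ) : ℝ)) * (1 - 1 / M) with hlam
  have hlow : ((B : ℝ) - 2 * u) * n + δ / 2 * n ≤ lam := by
    have e1 : (M : ℝ) / ((a * n : ℕ) : ℝ) ≤ δ / (8 * S) := by
      push_cast
      rw [div_le_div_iff₀ (by positivity) (by positivity)]
      rw [div_lt_iff₀ (by positivity)] at hnS
      nlinarith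
    have e2 : 1 / (M : ℝ) ≤ δ / (8 * S) := by
      rw [div_le_div_iff₀ hM0 (by positivity)]
      rw [div_lt_iff₀ hδ0] at hM2
      nlinarith
    have e3 : 0 ≤ (M : ℝ) / ((a * n : ℕ) : ℝ) := by positivity
    have e4 : 0 ≤ 1 / (M : ℝ) := by positivity
    have e5 : 1 - δ / (4 * S) ≤ (1 - M / ((a * n : ℕ) : ℝ)) * (1 - 1 / M) := by
      have e6 : δ / (4 * S) = δ / (8 * S) + δ / (8 * S) := by
        field_simp
        ring
      rw [e6]
      nlinarith [mul_nonneg e3 e4]
    have e7 : 2 * (S * n) * (1 - δ / (4 * S)) ≤ lam := by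
      rw [hlam, mul_assoc (2 * (S * n))]
      exact mul_le_mul_of_nonneg_left e5 (by positivity)
    have e8 : 2 * (S * n) * (1 - δ / (4 * S)) = 2 * S * n - δ / 2 * n := by
      field_simp
      ring
    rw [e8] at e7
    have e9 : 2 * S = δ + (B - 2 * u) := by rw [hδd]; ring
    rw [e9] at e7
    linarith
  have hmain := lp_bound_fam φ g lam (u * n) (a * n) g0 g1 ⟨a * n, by rw [hι]; exact htN.le, g2⟩
    (by rw [hι]; exact g3) (by
      rw [hι]
      push_cast
      have : 0 ≤ δ / 2 * n := by positivity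
      nlinarith) (fun a b hab => (hcon a b hab).le)
  have hball := ball_le (ι := ι) (a * n) a (B - a) (by omega) (by rw [hι]; exact htN.le)
  set BB := (univ.filter fun x : ι → ZMod 2 => hammingNorm x ≤ a * n).card with hBB
  rw [hι] at hmain hball
  have hball' : (BB : ℝ) * ((a : ℝ) ^ a * ((B : ℝ) - a) ^ (B - a)) ^ n ≤ Y ^ n := by
    have h1 : B * n - a * n = (B - a) * n := (Nat.sub_mul _ _ _).symm
    have h2 : a + (B - a) = B := by omega
    rw [h1, h2] at hball
    have h3 : ((BB * (a ^ (a * n) * (B - a) ^ ((B - a) * n)) : ℕ) : ℝ) ≤ ((B ^ (B * n) : ℕ) : ℝ) := by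
      exact_mod_cast hball
    push_cast [Nat.cast_sub haB.le] at h3
    rw [hY, mul_pow, ← pow_mul, ← pow_mul, ← pow_mul]
    exact h3
  have hW' : (2 : ℝ) ^ (κ * n) ≤ Fintype.card W := by
    rw [← Nat.card_eq_fintype_card]
    exact_mod_cast hW
  have hP0 : (0 : ℝ) < ((a : ℝ) ^ a * ((B : ℝ) - a) ^ (B - a)) ^ n := by positivity
  have hfin : δ / 2 * n * X ^ n ≤ 2 * (u * n) * Y ^ n := by
    have h1 : δ / 2 * n * (2 : ℝ) ^ (κ * n) ≤ 2 * (u * n) * BB := by
      have h2 : δ / 2 * n ≤ lam - ((B * n : ℕ) : ℝ) + 2 * ((u * n : ℕ) : ℝ) := by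
        push_cast
        linarith
      have h3 : δ / 2 * n * (2 : ℝ) ^ (κ * n) ≤
          (lam - ((B * n : ℕ) : ℝ) + 2 * ((u * n : ℕ) : ℝ)) * Fintype.card W :=
        mul_le_mul h2 hW' (by positivity) (le_trans (by positivity) h2)
      refine h3.trans (hmain.trans (le_of_eq ?_))
      push_cast
      ring
    have h4 : X ^ n = (2 : ℝ) ^ (κ * n) * ((a : ℝ) ^ a * ((B : ℝ) - a) ^ (B - a)) ^ n := by
      rw [hX, mul_pow, ← pow_mul]
    calc δ / 2 * n * X ^ n = (δ / 2 * n * (2 : ℝ) ^ (κ * n)) *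
          ((a : ℝ) ^ a * ((B : ℝ) - a) ^ (B - a)) ^ n := by rw [h4]; ring
      _ ≤ (2 * (u * n) * BB) * ((a : ℝ) ^ a * ((B : ℝ) - a) ^ (B - a)) ^ n :=
          mul_le_mul_of_nonneg_right h1 hP0.le
      _ = 2 * (u * n) * (BB * ((a : ℝ) ^ a * ((B : ℝ) - a) ^ (B - a)) ^ n) := by ring
      _ ≤ _ := mul_le_mul_of_nonneg_left hball' (by positivity)
  have h5 := hn2 n (by omega)
  rw [div_pow, div_lt_div_iff₀ hδ0 (by positivity)] at h5
  have hYn : 0 < Y ^ n := by positivity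
  have h6 : 4 * (2 * (u : ℝ)) * Y ^ n ≥ δ * X ^ n * 2 := by
    have h7 : (δ / 2 * X ^ n) * n ≤ (2 * u * Y ^ n) * n := by linarith
    have h8 := le_of_mul_le_mul_right h7 hn0
    linarith
  have hXn : 0 < X ^ n := by positivity
  nlinarith

end Pool.Agent.FF.LP
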