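import Pool.Agent.FF.PRank

/-! # The `p`-rank recursion for unramified double covers -/

set_option autoImplicit false

namespace Pool.Agent.FF

/-- **The `p`-rank recursion**, unramified double covers. -/
theorem Ob.up₀ {K K' : Type*} [Field K] [Field K'] [Algebra K K']
    [CharP K 2] [CharP K' 2] {f : K} (S : AS K K' f) {c : DV K → K} (hN : NF f 0 c)
    (hpol : ∀ a : K, {P : DV K | ¬ P.G 0 a}.Finite) {n : ℕ} (hob : Ob K n) :
    Ob K' (n + n) := by
  obtain ⟨h1, h2⟩ := ob_iff.1 hob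
  obtain ⟨c', hc'A, -, -, hd⟩ := hN.exists_loc
  have h4 := ob_up S hd hpol hc'A h1 h1
  refine ob_iff.2 ⟨h4.1, h4.2.trans ?_⟩
  rw [pow_add]
  exact Nat.mul_le_mul h2 h2

end Pool.Agent.FF
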