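import Pool.Agent.FF.Twist2
import Pool.Agent.FF.Cover
import Pool.Agent.FF.PRank0

/-! Unramified double covers `y ^ 2 + y = lam (z₂ / w ^ m + eps)` of the fields of the tower: one layer,
with an automorphism of odd order, rational places, poles. -/

set_option autoImplicit false
set_option linter.unusedSectionVars false

namespace Pool.Agent.FF

/-! ### The Artin–Schreier equation in the constants -/

theorem exists_wp_of_fix {k : Type*} [Field k] [CharP k 2] {a : ℕ} {eps φ : k}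
    (he : eps ^ 2 ^ a + eps = 1) (hφ : φ ^ 2 ^ a = φ) : ∃ d : k, d ^ 2 + d = φ := by
  refine ⟨AS.tr (φ * eps) a, ?_⟩
  rw [AS.tr_eq, mul_pow, hφ, ← mul_add, he, mul_one]

/-! ### Lifting automorphisms -/

namespace AS

variable {K K' : Type*} [Field K] [Field K'] [Algebra K K'] [CharP K 2] {f : K} (S : AS K K' f)

/-- The extension by `y ↦ y` of a ring endomorphism of `K` fixing `f`. -/
noncomputable def lift (φ : K →+* K) (h : φ f = f) : K' →+* K' where
  toFun x := algebraMap K K' (φ (S.a x)) + algebraMap K K' (φ (S.b x)) * S.y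
  map_zero' := by simp [S.ab_zero.1, S.ab_zero.2]
  map_one' := by simp [S.ab_one.1, S.ab_one.2]
  map_add' x y := by simp only [S.a_add, S.b_add, map_add]; ring
  map_mul' x y := by
    have h2 := two' K K'
    rw [(S.ab_mul x y).1, (S.ab_mul x y).2]
    simp only [map_add, map_mul, h]
    linear_combination (-(algebraMap K K' (φ (S.b x)) * algebraMap K K' (φ (S.b y)))) * S.eq +
      (algebraMap K K' (φ (S.b x)) * algebraMap K K' (φ (S.b y)) * S.y) * h2

theorem lift_apply (φ : K →+* K) (h : φ f = f) (x : K') :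
    S.lift φ h x = algebraMap K K' (φ (S.a x)) + algebraMap K K' (φ (S.b x)) * S.y := rfl

theorem lift_ab (φ : K →+* K) (h : φ f = f) (x : K') :
    S.a (S.lift φ h x) = φ (S.a x) ∧ S.b (S.lift φ h x) = φ (S.b x) := S.ab_eq rfl

theorem lift_map (φ : K →+* K) (h : φ f = f) (c : K) :
    S.lift φ h (algebraMap K K' c) = algebraMap K K' (φ c) := by
  rw [S.lift_apply, (S.ab_map c).1, (S.ab_map c).2]
  simp

theorem lift_comp (φ ψ : K →+* K) (h : φ f = f) (h' : ψ f = f) (x : K') (hφψ : ∀ c : K, φ (ψ c) = c) :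
    S.lift φ h (S.lift ψ h' x) = x := by
  rw [S.lift_apply, (S.lift_ab ψ h' x).1, (S.lift_ab ψ h' x).2, hφψ, hφψ]
  exact (S.spec x).symm

theorem lift_iter (φ : K →+* K) (h : φ f = f) (n : ℕ) (x : K') :
    (S.lift φ h)^[n] x = algebraMap K K' (φ^[n] (S.a x)) + algebraMap K K' (φ^[n] (S.b x)) * S.y := by
  induction n with
  | zero => exact S.spec x
  | succ n ih =>
    rw [Function.iterate_succ_apply', ih, Function.iterate_succ_apply', Function.iterate_succ_apply',
      map_add, map_mul, S.lift_map, S.lift_map]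
    congr 2
    rw [S.lift_apply, S.ab_y.1, S.ab_y.2]
    simp

variable {k : Type*} [Field k] [Algebra k K] [Algebra k K'] [IsScalarTower k K K']

/-- The extension by `y ↦ y` of an automorphism of `K` over `k` fixing `f`. -/
noncomputable def liftE (σ : K ≃ₐ[k] K) (h : σ f = f) : K' ≃ₐ[k] K' where
  toFun := S.lift σ.toAlgHom.toRingHom h
  invFun := S.lift σ.symm.toAlgHom.toRingHom
    (by change σ.symm f = f; rw [← h, AlgEquiv.symm_apply_apply, h])
  left_inv x := S.lift_comp _ _ _ _ x fun c => σ.symm_apply_apply c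
  right_inv x := S.lift_comp _ _ _ _ x fun c => σ.apply_symm_apply c
  map_mul' := map_mul _
  map_add' := map_add _
  commutes' c := by
    rw [IsScalarTower.algebraMap_apply k K K', S.lift_map]
    congr 1
    exact σ.commutes c

theorem liftE_map (σ : K ≃ₐ[k] K) (h : σ f = f) (c : K) :
    S.liftE σ h (algebraMap K K' c) = algebraMap K K' (σ c) :=
  S.lift_map σ.toAlgHom.toRingHom h c

theorem liftE_iter (σ : K ≃ₐ[k] K) (h : σ f = f) (n : ℕ) (hn : ∀ c : K, σ^[n] c = c) (x : K') :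
    (S.liftE σ h)^[n] x = x := by
  have h1 := S.lift_iter σ.toAlgHom.toRingHom h n x
  have h2 : ∀ c : K, (σ.toAlgHom.toRingHom)^[n] c = c := hn
  rw [h2, h2, ← S.spec x] at h1
  exact h1

end AS

/-! ### The data -/

/-- The functions `w, z₂, z₃`, the automorphism, and the classes `lam z₂ / w ^ m` which are not trivial
(those with `lam` outside `Lam`). -/
structure LevL {k K : Type*} [Field k] [Field K] [Algebra k K] (a m m' : ℕ) (w z₂ z₃ : K)
    (sig : K ≃ₐ[k] K) (zeta : k) (Lam : AddSubgroup k) : Prop where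
  w_ne : w ≠ 0
  e₂ : z₂ ^ 2 ^ a + z₂ = w ^ m
  e₃ : z₃ ^ 2 ^ a + z₃ = z₂ ^ (2 ^ a + 1) / w ^ m
  prim : IsPrimitiveRoot zeta m'
  zl : zeta ^ 2 ^ a = zeta
  sw : sig w = algebraMap k K zeta * w
  s₂ : sig z₂ = algebraMap k K zeta ^ m * z₂
  s₃ : sig z₃ = algebraMap k K zeta ^ m * z₃
  per : ∀ x : K, sig^[m'] x = x
  nontriv : ∀ lam : k, lam ^ 2 ^ a = lam → lam ∉ Lam → ∀ (κ : k) (b : K),
    b ^ 2 + b ≠ algebraMap k K lam * (z₂ / w ^ m) + algebraMap k K κ

/-- The rational places which are kept. -/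
def PtL (k : Type*) {K : Type*} [Field k] [Field K] [Algebra k K] (a : ℕ) (w z₂ : K) (v : DV K) :
    Prop :=
  v.Rat k ∧ v.ord w = 0 ∧ ∃ γ : k, v.G 1 (z₂ - algebraMap k K γ) ∧ γ ^ 2 ^ a + γ ≠ 0

/-- The poles of `w` are bounded by an effective divisor of degree at most `N`. -/
def PolB (k : Type*) {K : Type*} [Field k] [Field K] [Finite k] [Algebra k K] (w : K) (N : ℕ) : Prop :=
  ∃ D : DV K →₀ ℤ, (∀ v, 0 ≤ D v) ∧ RRD.degZ k D ≤ N ∧ ∀ v : DV K, v.G (- D v) w

section layer

variable {k K K' : Type*} [Field k] [Finite k] [CharP k 2] [Field K] [Field K'] [Algebra k K]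
  [Algebra k K'] [Algebra K K'] [IsScalarTower k K K'] [CharP K 2]
  {a m m' : ℕ} {w z₂ z₃ : K} {sig : K ≃ₐ[k] K} {zeta : k} {Lam : AddSubgroup k}

/-- The orders of `u ^ l + u` at a pole of `u`. -/
theorem ord_pow_add {v : DV K} {u : K} {l : ℕ} (hl : 2 ≤ l) (hu : v.ord u < 0) :
    u ^ l + u ≠ 0 ∧ v.ord (u ^ l + u) = l * v.ord u := by
  have hu0 : u ≠ 0 := by
    intro h0
    rw [h0, v.ord_zero] at hu
    omega
  have hl' : (2 : ℤ) ≤ l := by exact_mod_cast hl
  have h1 := DV.ord_add_of_lt (v := v) (pow_ne_zero l hu0) (b := u) (DV.G_of_le (by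
    rw [v.ord_pow hu0]
    nlinarith))
  rw [v.ord_pow hu0] at h1
  exact h1

/-- The generator of the layer. -/
def layF (k : Type*) {K : Type*} [Field k] [Field K] [Algebra k K] (m : ℕ) (w z₂ : K) (lam eps : k) :
    K := algebraMap k K lam * (z₂ / w ^ m + algebraMap k K eps)

/-- Integrality of `z₃ / (z₂ ^ (l + 1) / w ^ m)` at the poles of `z₂ / w ^ m`. -/
theorem LevL.int₃ (h : LevL a m m' w z₂ z₃ sig zeta Lam) (ha : 1 ≤ a) {v : DV K}
    (hv : ¬ v.G 0 (z₂ / w ^ m)) : z₂ ≠ 0 ∧ v.G 0 (z₃ / (z₂ ^ (2 ^ a + 1) / w ^ m)) := by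
  set l := 2 ^ a with hl
  have hl2 : 2 ≤ l := by
    rw [hl]
    calc 2 = 2 ^ 1 := rfl
      _ ≤ 2 ^ a := Nat.pow_le_pow_right (by norm_num) ha
  have e₂ : z₂ ^ l + z₂ = w ^ m := h.e₂
  have e₃ : z₃ ^ l + z₃ = z₂ ^ (l + 1) / w ^ m := h.e₃
  have hW : w ^ m ≠ 0 := pow_ne_zero _ h.w_ne
  have hz : z₂ ≠ 0 := by
    intro h0
    rw [h0, zero_div] at hv
    exact hv (DV.G_zero _)
  have h1 := (DV.not_G (div_ne_zero hz hW)).1 hv
  rw [v.ord_div hz hW] at h1
  have hA : v.ord z₂ = 0 := by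
    rcases lt_trichotomy (v.ord z₂) 0 with h2 | h2 | h2
    · exfalso
      have h3 := (ord_pow_add hl2 h2).2
      rw [e₂] at h3
      have : (2 : ℤ) ≤ l := by exact_mod_cast hl2
      nlinarith
    · exact h2
    · exfalso
      have h3 := DV.ord_add_of_lt (v := v) hz (b := z₂ ^ l) (DV.G_of_le (by
        rw [v.ord_pow hz]
        have : (2 : ℤ) ≤ l := by exact_mod_cast hl2
        nlinarith))
      rw [add_comm, e₂] at h3
      omega
  have hB : 0 < v.ord (w ^ m) := by omega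
  refine ⟨hz, ?_⟩
  have hf0 : z₂ ^ (l + 1) / w ^ m ≠ 0 := div_ne_zero (pow_ne_zero _ hz) hW
  have hf : v.ord (z₂ ^ (l + 1) / w ^ m) < 0 := by
    rw [v.ord_div (pow_ne_zero _ hz) hW, v.ord_pow hz, hA]
    omega
  have hC : v.ord z₃ < 0 := by
    by_contra hC
    push Not at hC
    have h3 : v.G 0 z₃ := DV.G_of_le hC
    have h4 : v.G 0 (z₃ ^ l + z₃) := (G_pow0 h3 l).add h3
    rw [e₃] at h4
    have := h4.le hf0
    omega
  have hz3 : z₃ ≠ 0 := by
    intro h0
    rw [h0, v.ord_zero] at hC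
    omega
  have h5 := (ord_pow_add hl2 hC).2
  rw [e₃] at h5
  refine DV.G_of_le ?_
  rw [v.ord_div hz3 hf0, h5]
  have : (2 : ℤ) ≤ l := by exact_mod_cast hl2
  nlinarith

/-- The generator is integral at every place, up to `c ^ 2 + c`. -/
theorem LevL.unr (h : LevL a m m' w z₂ z₃ sig zeta Lam) (ha : 1 ≤ a) {lam : k}
    (hlam : lam ^ 2 ^ a = lam) (eps : k) (v : DV K) :
    ∃ c : K, v.G 0 (layF k m w z₂ lam eps + (c ^ 2 + c)) ∧
      (v.G 0 (layF k m w z₂ lam eps) → c = 0) := by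
  by_cases hv : v.G 0 (layF k m w z₂ lam eps)
  · exact ⟨0, by simpa using hv, fun _ => rfl⟩
  have h2 : (2 : K) = 0 := CharTwo.two_eq_zero
  have hL := G0_algebraMap (k := k) v lam
  have hE := G0_algebraMap (k := k) v eps
  have hv' : ¬ v.G 0 (z₂ / w ^ m) := by
    intro h1
    refine hv ?_
    unfold layF
    simpa using hL.mul (h1.add hE)
  obtain ⟨hz, hint⟩ := h.int₃ ha hv'
  have hW : w ^ m ≠ 0 := pow_ne_zero _ h.w_ne
  refine ⟨AS.tr (algebraMap k K lam * (z₃ / z₂)) a, ?_, fun h1 => absurd h1 hv⟩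
  have hLl : algebraMap k K lam ^ 2 ^ a = algebraMap k K lam := by rw [← map_pow, hlam]
  have e1 : layF k m w z₂ lam eps + (AS.tr (algebraMap k K lam * (z₃ / z₂)) a ^ 2 +
      AS.tr (algebraMap k K lam * (z₃ / z₂)) a) =
      algebraMap k K lam * (z₃ / (z₂ ^ (2 ^ a + 1) / w ^ m) + algebraMap k K eps) := by
    rw [AS.tr_eq, mul_pow, hLl, div_pow]
    unfold layF
    have hz3 : z₃ ^ 2 ^ a = z₂ ^ (2 ^ a + 1) / w ^ m + z₃ := by
      linear_combination h.e₃ - z₃ * h2
    have hz2 : w ^ m = z₂ ^ 2 ^ a + z₂ := h.e₂.symm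
    rw [hz3]
    have hZ : z₂ ^ 2 ^ a ≠ 0 := pow_ne_zero _ hz
    rw [pow_succ]
    set P := z₂ ^ 2 ^ a with hP
    set W := w ^ m with hWd
    field_simp
    rw [hz2]
    linear_combination (algebraMap k K lam * P * z₂ * z₂) * h2
  rw [e1]
  simpa using hL.mul (hint.add hE)

/-- The normal form of the generator. -/
theorem LevL.nf (h : LevL a m m' w z₂ z₃ sig zeta Lam) (ha : 1 ≤ a) {lam : k}
    (hlam : lam ^ 2 ^ a = lam) (eps : k) (hpol : ∀ x : K, {v : DV K | ¬ v.G 0 x}.Finite) :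
    ∃ c : DV K → K, NF (layF k m w z₂ lam eps) 0 c := by
  choose c hc1 hc2 using h.unr ha hlam eps
  refine ⟨c, ?_, ?_, fun v _ => hc1 v, fun v hv => absurd rfl hv⟩
  · refine Set.Finite.subset (hpol (layF k m w z₂ lam eps)) fun v hv hv' => hv ?_
    rw [hc2 v hv']
    exact DV.G_zero _
  · simp

/-- The generator is fixed by the automorphism. -/
theorem LevL.sig_fix (h : LevL a m m' w z₂ z₃ sig zeta Lam) (hz : zeta ≠ 0) (lam eps : k) :
    sig (layF k m w z₂ lam eps) = layF k m w z₂ lam eps := by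
  unfold layF
  have hz' : algebraMap k K zeta ≠ 0 := by rwa [Ne, map_eq_zero]
  rw [map_mul, map_add, map_div₀, map_pow, h.sw, h.s₂, AlgEquiv.commutes, AlgEquiv.commutes, mul_pow,
    mul_div_mul_left _ _ (pow_ne_zero _ hz')]

/-- The group of the classes which become trivial. -/
def addOne (Lam : AddSubgroup k) (lam : k) : AddSubgroup k where
  carrier := {x | x ∈ Lam ∨ x + lam ∈ Lam}
  zero_mem' := Or.inl Lam.zero_mem
  add_mem' := by
    have h2 : (2 : k) = 0 := CharTwo.two_eq_zero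
    rintro x y (hx | hx) (hy | hy)
    · exact Or.inl (Lam.add_mem hx hy)
    · refine Or.inr ?_
      rw [add_assoc]
      exact Lam.add_mem hx hy
    · refine Or.inr ?_
      have : x + y + lam = (x + lam) + y := by ring
      rw [this]
      exact Lam.add_mem hx hy
    · refine Or.inl ?_
      have : x + y = (x + lam) + (y + lam) := by linear_combination (-lam) * h2
      rw [this]
      exact Lam.add_mem hx hy
  neg_mem' := by
    intro x hx
    rw [CharTwo.neg_eq]
    exact hx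

theorem card_addOne (Lam : AddSubgroup k) (lam : k) : Nat.card (addOne Lam lam) ≤ 2 * Nat.card Lam := by
  classical
  have hsub : ((addOne Lam lam : AddSubgroup k) : Set k) ⊆ (Lam : Set k) ∪ (fun x => x + lam) ⁻¹' (Lam : Set k) :=
    fun x hx => hx
  have hinj : Function.Injective fun x : k => x + lam := add_left_injective lam
  calc Nat.card (addOne Lam lam) = Set.ncard ((addOne Lam lam : AddSubgroup k) : Set k) :=
        (Nat.card_coe_set_eq _)
    _ ≤ Set.ncard ((Lam : Set k) ∪ (fun x => x + lam) ⁻¹' (Lam : Set k)) :=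
        Set.ncard_le_ncard hsub (Set.toFinite _)
    _ ≤ Set.ncard (Lam : Set k) + Set.ncard ((fun x => x + lam) ⁻¹' (Lam : Set k)) :=
        Set.ncard_union_le _ _
    _ ≤ Set.ncard (Lam : Set k) + Set.ncard (Lam : Set k) := by
        refine Nat.add_le_add_left ?_ _
        exact Set.ncard_le_ncard_of_injOn (fun x => x + lam) (fun x hx => hx) (hinj.injOn)
          (Set.toFinite _)
    _ = 2 * Nat.card Lam := by
        rw [two_mul]
        rfl

/-- **One layer**: the functions and the automorphism. -/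
theorem LevL.up (h : LevL a m m' w z₂ z₃ sig zeta Lam) (hz : zeta ≠ 0) {lam eps : k}
    (hlam : lam ^ 2 ^ a = lam) (S : AS K K' (layF k m w z₂ lam eps)) :
    LevL a m m' (algebraMap K K' w) (algebraMap K K' z₂) (algebraMap K K' z₃)
      (S.liftE sig (h.sig_fix hz lam eps)) zeta (addOne Lam lam) where
  w_ne := by rw [Ne, map_eq_zero]; exact h.w_ne
  e₂ := by rw [← map_pow, ← map_add, h.e₂, map_pow]
  e₃ := by rw [← map_pow, ← map_add, h.e₃, map_div₀, map_pow, map_pow]
  prim := h.prim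
  zl := h.zl
  sw := by rw [S.liftE_map, h.sw, map_mul, ← IsScalarTower.algebraMap_apply]
  s₂ := by rw [S.liftE_map, h.s₂, map_mul, map_pow, ← IsScalarTower.algebraMap_apply]
  s₃ := by rw [S.liftE_map, h.s₃, map_mul, map_pow, ← IsScalarTower.algebraMap_apply]
  per := S.liftE_iter sig _ m' h.per
  nontriv := by
    intro μ hμ hμL κ b hb
    have h2 : (2 : K) = 0 := CharTwo.two_eq_zero
    have h2' := AS.two' K K'
    have hμ1 : μ ∉ Lam := fun h1 => hμL (Or.inl h1)
    have hμ2 : μ + lam ∉ Lam := fun h1 => hμL (Or.inr h1)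
    set F := layF k m w z₂ lam eps with hF
    set A := S.a b with hA
    set B := S.b b with hB
    have e1 : algebraMap K K' (A ^ 2 + A + B ^ 2 * F) + algebraMap K K' (B ^ 2 + B) * S.y =
        algebraMap K K' (algebraMap k K μ * (z₂ / w ^ m) + algebraMap k K κ) +
          algebraMap K K' 0 * S.y := by
      have e2 : b ^ 2 + b = algebraMap K K' (A ^ 2 + A + B ^ 2 * F) +
          algebraMap K K' (B ^ 2 + B) * S.y := by
        conv_lhs => rw [S.spec b]
        simp only [map_add, map_mul, map_pow]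
        linear_combination (algebraMap K K' B) ^ 2 * S.eq + (algebraMap K K' A * algebraMap K K' B * S.y -
          (algebraMap K K' B) ^ 2 * S.y) * h2'
      rw [← e2, hb]
      simp only [map_add, map_mul, map_div₀, map_pow, map_zero, zero_mul, add_zero]
      rw [← IsScalarTower.algebraMap_apply, ← IsScalarTower.algebraMap_apply]
    obtain ⟨e3, e4⟩ := S.unique e1
    have e5 : B * (B + 1) = 0 := by linear_combination e4
    rcases mul_eq_zero.1 e5 with h5 | h5
    · rw [h5] at e3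
      exact h.nontriv μ hμ hμ1 κ A (by linear_combination e3)
    · have hB1 : B = 1 := by linear_combination h5 - h2
      rw [hB1] at e3
      have hμl : (μ + lam) ^ 2 ^ a = μ + lam := by rw [add_pow_char_pow, hμ, hlam]
      refine h.nontriv (μ + lam) hμl hμ2 (κ + lam * eps) A ?_
      rw [map_add, map_add, map_mul]
      have e6 : F = algebraMap k K lam * (z₂ / w ^ m + algebraMap k K eps) := rfl
      linear_combination e3 - F * h2 + e6

/-- The points of the layer. -/
theorem PtL.split (h : LevL a m m' w z₂ z₃ sig zeta Lam) {lam eps : k} (hk : Nat.card k = (2 ^ a) ^ 2)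
    (hlam : lam ^ 2 ^ a = lam) (he : eps ^ 2 ^ a + eps = 1) {v : DV K} (hv : PtL k a w z₂ v) :
    ∃ d : k, v.G 1 (layF k m w z₂ lam eps + (algebraMap k K d ^ 2 + algebraMap k K d)) := by
  obtain ⟨hr, hw, γ, hγ, hne⟩ := hv
  have h2 : (2 : k) = 0 := CharTwo.two_eq_zero
  have h2K : (2 : K) = 0 := CharTwo.two_eq_zero
  have hFr : ∀ x : k, (x ^ 2 ^ a) ^ 2 ^ a = x := by
    intro x
    rw [← pow_mul, ← sq, ← hk]
    have := Fintype.ofFinite k
    rw [Nat.card_eq_fintype_card]
    exact FiniteField.pow_card x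
  set δ := γ ^ 2 ^ a + γ with hδ
  have hδl : δ ^ 2 ^ a = δ := by
    rw [hδ, add_pow_char_pow, hFr, add_comm]
  have hφ : (lam * (γ / δ + eps)) ^ 2 ^ a = lam * (γ / δ + eps) := by
    rw [mul_pow, add_pow_char_pow, div_pow, hδl, hlam]
    have e1 : γ ^ 2 ^ a = δ + γ := by rw [hδ]; linear_combination (-γ) * h2
    have e2 : eps ^ 2 ^ a = 1 + eps := by linear_combination he - eps * h2
    rw [e1, e2]
    field_simp
    linear_combination (lam * δ) * h2
  obtain ⟨d, hd⟩ := exists_wp_of_fix he hφ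
  refine ⟨d, ?_⟩
  -- congruences
  have hW : v.ord (w ^ m) = 0 := by rw [v.ord_pow h.w_ne, hw, mul_zero]
  have hW0 : w ^ m ≠ 0 := pow_ne_zero _ h.w_ne
  have hγ0 : v.G 0 (algebraMap k K γ) := G0_algebraMap v γ
  have hz0 : v.G 0 z₂ := by
    have h3 := (hγ.mono (by norm_num : (0 : ℤ) ≤ 1)).add hγ0
    rwa [sub_add_cancel] at h3
  have hWc : v.G 1 (w ^ m - algebraMap k K δ) := by
    rw [← h.e₂, hδ, map_add, map_pow]
    have h3 := cong_pow hγ hz0 hγ0 (2 ^ a)
    have h4 := h3.add hγ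
    have e1 : z₂ ^ 2 ^ a - algebraMap k K γ ^ 2 ^ a + (z₂ - algebraMap k K γ) =
        z₂ ^ 2 ^ a + z₂ - (algebraMap k K γ ^ 2 ^ a + algebraMap k K γ) := by ring
    rwa [e1] at h4
  have hδ0 : algebraMap k K δ ≠ 0 := by rwa [Ne, map_eq_zero]
  have hq : v.G 1 (z₂ / w ^ m - algebraMap k K (γ / δ)) := by
    have h5 : v.G 0 ((w ^ m)⁻¹) := DV.G_of_le (by rw [v.ord_inv hW0, hW]; norm_num)
    have h6 : v.G 0 (algebraMap k K (δ⁻¹)) := G0_algebraMap v _
    have h7 : v.G 1 ((z₂ - algebraMap k K γ) * (w ^ m)⁻¹) := (hγ.mul h5).mono (by norm_num)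
    have h8 : v.G 1 (algebraMap k K γ * ((w ^ m - algebraMap k K δ) * ((w ^ m)⁻¹ * algebraMap k K (δ⁻¹)))) :=
      (hγ0.mul ((hWc.mul (h5.mul h6)))).mono (by norm_num)
    have h9 := h7.sub h8
    have e1 : (z₂ - algebraMap k K γ) * (w ^ m)⁻¹ -
        algebraMap k K γ * ((w ^ m - algebraMap k K δ) * ((w ^ m)⁻¹ * algebraMap k K (δ⁻¹))) =
        z₂ / w ^ m - algebraMap k K (γ / δ) - (algebraMap k K γ * (w ^ m)⁻¹ -
          algebraMap k K γ * (w ^ m)⁻¹) := by
      rw [map_div₀, map_inv₀]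
      field_simp
      ring
    rw [e1, sub_self, sub_zero] at h9
    exact h9
  have hL : v.G 0 (algebraMap k K lam) := G0_algebraMap v lam
  have h10 : v.G 1 (algebraMap k K lam * (z₂ / w ^ m - algebraMap k K (γ / δ))) :=
    (hL.mul hq).mono (by norm_num)
  have e2 : layF k m w z₂ lam eps + (algebraMap k K d ^ 2 + algebraMap k K d) =
      algebraMap k K lam * (z₂ / w ^ m - algebraMap k K (γ / δ)) := by
    have e3 : algebraMap k K d ^ 2 + algebraMap k K d =
        algebraMap k K lam * (algebraMap k K (γ / δ) + algebraMap k K eps) := by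
      rw [← map_pow, ← map_add, hd, map_mul, map_add]
    rw [e3]
    unfold layF
    linear_combination (algebraMap k K lam * algebraMap k K (γ / δ) +
      algebraMap k K lam * algebraMap k K eps) * h2K
  rw [e2]
  exact h10

/-- The points double. -/
theorem LevL.points (h : LevL a m m' w z₂ z₃ sig zeta Lam) {lam eps : k}
    (hk : Nat.card k = (2 ^ a) ^ 2) (hlam : lam ^ 2 ^ a = lam) (he : eps ^ 2 ^ a + eps = 1)
    (S : AS K K' (layF k m w z₂ lam eps)) (T : Finset (DV K)) (hT : ∀ v ∈ T, PtL k a w z₂ v) :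
    ∃ T' : Finset (DV K'), 2 * T.card ≤ T'.card ∧
      ∀ v ∈ T', PtL k a (algebraMap K K' w) (algebraMap K K' z₂) v := by
  classical
  have key : ∀ v : T, ∃ w₁ w₂ : DV K', w₁ ≠ w₂ ∧ Over w₁ v.1 ∧ Over w₂ v.1 ∧
      PtL k a (algebraMap K K' w) (algebraMap K K' z₂) w₁ ∧
      PtL k a (algebraMap K K' w) (algebraMap K K' z₂) w₂ := by
    intro v
    obtain ⟨hr, hw, γ, hγ, hne⟩ := hT v.1 v.2
    obtain ⟨d, hd⟩ := PtL.split h hk hlam he (hT v.1 v.2)
    obtain ⟨w₁, w₂, h1, h2, h3, -, h5, h6, h7, h8, -⟩ := S.split_places_rat hr hd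
    refine ⟨w₁, w₂, h1, h2, h3, ⟨h5, by rw [h7, hw], γ, ?_, hne⟩, ⟨h6, by rw [h8, hw], γ, ?_, hne⟩⟩
    · rw [IsScalarTower.algebraMap_apply k K K', ← map_sub]
      exact (h2.G_one_iff _).2 hγ
    · rw [IsScalarTower.algebraMap_apply k K K', ← map_sub]
      exact (h3.G_one_iff _).2 hγ
  choose w₁ w₂ h1 h2 h3 h4 h5 using key
  refine ⟨T.attach.biUnion fun v => {w₁ v, w₂ v}, ?_, ?_⟩
  · rw [Finset.card_biUnion]
    · rw [Finset.sum_congr rfl fun v _ => Finset.card_pair (h1 v), Finset.sum_const, Finset.card_attach,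
        smul_eq_mul]
      omega
    · intro v _ v' _ hne
      rw [Function.onFun, Finset.disjoint_left]
      intro u hu hu'
      have o1 : Over u v.1 := by
        rcases Finset.mem_insert.1 hu with rfl | hu
        · exact h2 v
        · rw [Finset.mem_singleton.1 hu]; exact h3 v
      have o2 : Over u v'.1 := by
        rcases Finset.mem_insert.1 hu' with h | hu'
        · rw [h]; exact h2 v'
        · rw [Finset.mem_singleton.1 hu']; exact h3 v'
      exact hne (Subtype.ext (o1.unique o2))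
  · intro u hu
    obtain ⟨v, -, hv⟩ := Finset.mem_biUnion.1 hu
    rcases Finset.mem_insert.1 hv with rfl | hv
    · exact h4 v
    · rw [Finset.mem_singleton.1 hv]; exact h5 v

/-- The poles of `w`: the degree doubles. -/
theorem PolB.up (hres : ∀ v : DV K, v.resCard ≠ 0) {f : K} (S : AS K K' f)
    (hunr : ∀ v : DV K, ∃ c : K, v.G 0 (f + (c ^ 2 + c))) {u : K} {N : ℕ} (h : PolB k u N) :
    PolB k (algebraMap K K' u) (2 * N) := by
  classical
  obtain ⟨D, hD, hDN, hDu⟩ := h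
  choose p hp using fun w : DV K' => S.exists_over w
  have hfib : ∀ v : DV K, {w : DV K' | Over w v}.Finite := fun v => by
    obtain ⟨c, e, hl⟩ := S.exists_local (DV.perf_of_res (hres v))
    exact hl.fin
  let F : DV K → Finset (DV K') := fun v => (hfib v).toFinset
  have hF : ∀ v w, w ∈ F v ↔ Over w v := fun v w => by simp [F]
  let D' : DV K' →₀ ℤ := Finsupp.onFinset (D.support.biUnion F) (fun w => D (p w)) (by
    intro w hw
    rw [Finset.mem_biUnion]
    exact ⟨p w, Finsupp.mem_support_iff.2 hw, (hF _ _).2 (hp w)⟩)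
  have hD' : ∀ w, D' w = D (p w) := fun w => rfl
  refine ⟨D', fun w => hD _, ?_, ?_⟩
  · have h1 : RRD.degZ k D' = ∑ v ∈ D.support, ∑ w ∈ F v, D (p w) * (RRD.deg k w : ℤ) := by
      rw [RRD.degZ, Finsupp.onFinset_sum _ (fun w => by simp), Finset.sum_biUnion]
      intro v _ v' _ hne
      rw [Function.onFun, Finset.disjoint_left]
      intro w hw hw'
      exact hne (((hF _ _).1 hw).unique ((hF _ _).1 hw'))
    have h2 : RRD.degZ k D = ∑ v ∈ D.support, D v * (RRD.deg k v : ℤ) := rfl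
    have h3 : RRD.degZ k D' ≤ 2 * RRD.degZ k D := by
      rw [h1, h2, Finset.mul_sum]
      refine Finset.sum_le_sum fun v _ => ?_
      have h4 : ∑ w ∈ F v, D (p w) * (RRD.deg k w : ℤ) = D v * ((∑ w ∈ F v, deg k w : ℕ) : ℤ) := by
        rw [Nat.cast_sum, Finset.mul_sum]
        refine Finset.sum_congr rfl fun w hw => ?_
        rw [(hp w).unique ((hF _ _).1 hw)]
        rfl
      rw [h4]
      have h5 : ((∑ w ∈ F v, deg k w : ℕ) : ℤ) ≤ 2 * (RRD.deg k v : ℤ) := by
        have h6 := S.sum_deg_le (k := k) (hres v) (F v) fun w hw => (hF _ _).1 hw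
        exact_mod_cast h6
      nlinarith [hD v]
    push_cast
    linarith
  · intro w
    obtain ⟨c, hc⟩ := hunr (p w)
    have h1 := S.over_of_int (hp w) hc u
    rw [hD']
    rcases hDu (p w) with h2 | h2
    · rw [h2, map_zero]; exact DV.G_zero _
    · exact DV.G_of_le (by rw [h1]; exact h2)

end layer

/-- All the data at one layer. -/
structure LayD (k K : Type) [Field k] [Finite k] [Field K] [Algebra k K] (a m m' : ℕ) (w z₂ z₃ : K)
    (sig : K ≃ₐ[k] K) (zeta : k) (Lam : AddSubgroup k) (g n t N B C M : ℕ) : Prop where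
  ff : IsFF k K
  cv : Cv k K g
  g1 : 1 ≤ g
  ob : Ob K n
  lev : LevL a m m' w z₂ z₃ sig zeta Lam
  pts : ∃ T : Finset (DV K), t ≤ T.card ∧ ∀ v ∈ T, PtL k a w z₂ v
  pol : PolB k w N
  pole : ∃ v : DV K, v.ord w < 0
  pl : HasPl k K B C M

/-- **One layer**, from the genus of the layer. -/
theorem LayD.up {k K K' : Type} [Field k] [Finite k] [CharP k 2] [Field K] [Field K'] [Algebra k K]
    [Algebra k K'] [Algebra K K'] [IsScalarTower k K K'] [CharP K 2] [CharP K' 2]
    {a m m' : ℕ} {w z₂ z₃ : K} {sig : K ≃ₐ[k] K} {zeta : k} {Lam : AddSubgroup k}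
    {g n t N B C M : ℕ} (h : LayD k K a m m' w z₂ z₃ sig zeta Lam g n t N B C M) (ha : 1 ≤ a)
    (hz : zeta ≠ 0) (ht : 1 ≤ t) {lam eps : k} (hk : Nat.card k = (2 ^ a) ^ 2)
    (hlam : lam ^ 2 ^ a = lam) (he : eps ^ 2 ^ a + eps = 1)
    (S : AS K K' (layF k m w z₂ lam eps)) (hcv' : Cv k K' (2 * g - 1)) :
    LayD k K' a m m' (algebraMap K K' w) (algebraMap K K' z₂) (algebraMap K K' z₃)
      (S.liftE sig (h.lev.sig_fix hz lam eps)) zeta (addOne Lam lam) (2 * g - 1) (n + n) (2 * t)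
      (2 * N) (max B ((2 * g - 1 + 1) * (2 * g - 1 + 2))) (2 * C + 2 * (2 * g - 1) + 1) (2 * M) := by
  have hunr : ∀ v : DV K, ∃ c : K, v.G 0 (layF k m w z₂ lam eps + (c ^ 2 + c)) := fun v => by
    obtain ⟨c, hc, -⟩ := h.lev.unr ha hlam eps v
    exact ⟨c, hc⟩
  obtain ⟨c, hN⟩ := h.lev.nf ha hlam eps h.cv.poles
  obtain ⟨T, hTc, hT⟩ := h.pts
  obtain ⟨T', hTc', hT'⟩ := h.lev.points hk hlam he S T hT
  have hTne : T.Nonempty := by
    rw [← Finset.card_pos]
    omega
  obtain ⟨R, hR⟩ := hTne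
  obtain ⟨d, hd⟩ := PtL.split h.lev hk hlam he (hT R hR)
  refine ⟨h.ff.up hcv' S, hcv', by have := h.g1; omega, Ob.up₀ S hN h.cv.poles h.ob,
    h.lev.up hz hlam S, ⟨T', by omega, hT'⟩, h.pol.up h.cv.resCard_ne S hunr, ?_, ?_⟩
  · obtain ⟨v, hv⟩ := h.pole
    obtain ⟨w', hw'⟩ := S.exists_over' (DV.perf_of_res (h.cv.resCard_ne v))
    obtain ⟨c, hc⟩ := hunr v
    exact ⟨w', by rw [S.over_of_int hw' hc]; exact hv⟩
  · exact HasPl.up₀ h.cv hcv' S hunr (hT R hR).1 hd h.pl

end Pool.Agent.FF
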