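import Pool.Agent.FF.ChainX
import Pool.Agent.FF.ChainPl
import Pool.Agent.FF.RRD

/-! The tower of Artin–Schreier double covers with its automorphism `w ↦ ζ w`. -/

set_option autoImplicit false

namespace Pool.Agent.FF

open Finset

/-- The tower at a level `n ≥ 3`, with the automorphism `sig : w ↦ ζ w`. -/
structure Lev {k K : Type*} [Field k] [Field K] [Algebra k K] (a m m' : ℕ) (w z2 z3 : K)
    (sig : K ≃ₐ[k] K) (zeta : k) : Prop where
  w0 : w ≠ 0
  e2 : z2 ^ (2 ^ a) + z2 = w ^ m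
  e3 : z3 ^ (2 ^ a) + z3 = z2 ^ (2 ^ a + 1) / w ^ m
  prim : IsPrimitiveRoot zeta m'
  zl : zeta ^ (2 ^ a) = zeta
  sw : sig w = algebraMap k K zeta * w
  sz2 : sig z2 = algebraMap k K (zeta ^ m) * z2
  sz3 : sig z3 = algebraMap k K (zeta ^ m) * z3
  per : ∀ x : K, sig^[m'] x = x
  nontriv : ∀ lam : k, lam ^ (2 ^ a) = lam → lam ≠ 0 → ∀ (κ : k) (b : K),
    b ^ 2 + b ≠ algebraMap k K lam * (z2 / w ^ m) + algebraMap k K κ

section defs

variable {k K K' : Type*} [Field k] [Field K] [Algebra k K] [Field K'] [Algebra k K']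

/-- `σ` acts on the data of the tower. -/
structure Sig (a m m' n : ℕ) (ζ : k) (x : TD K) (σ : K →+* K) : Prop where
  fix : ∀ κ : k, σ (algebraMap k K κ) = algebraMap k K κ
  sw : σ x.w = algebraMap k K ζ * x.w
  sz : ∀ i, 2 ≤ i → i ≤ n → σ (x.z i) = algebraMap k K (ζ ^ m) * x.z i
  sf : σ (x.f n) = algebraMap k K (ζ ^ m) * x.f n
  per : ∀ y, σ^[m'] y = y

/-- The place at infinity. -/
structure Rp (k : Type*) {K : Type*} [Field k] [Field K] [Algebra k K] (m n J : ℕ) (x : TD K)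
    (R : DV K) : Prop where
  rat : R.Rat k
  pb : PB m R x
  ord : R.ord x.w = -((2 ^ J : ℕ) : ℤ)
  uniq : ∀ v : DV K, v.ord x.w < 0 → v = R
  g : 2 ≤ n → R.G 1 (x.z 2 / x.w ^ m)

/-- The classes `lam * z 2 / w ^ m` are not trivial. -/
def NT (k : Type*) {K : Type*} [Field k] [Field K] [Algebra k K] (a m : ℕ) (x : TD K) : Prop :=
  ∀ lam : k, lam ^ (2 ^ a) = lam → lam ≠ 0 → ∀ (κ : k) (b : K),
    b ^ 2 + b ≠ algebraMap k K lam * (x.z 2 / x.w ^ m) + algebraMap k K κ

end defs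

section step

variable {k K K' : Type*} [Field k] [Finite k] [CharP k 2] [Field K] [Field K'] [Algebra k K]
  [Algebra k K'] [Algebra K K'] [IsScalarTower k K K'] [CharP K 2] {c : ℕ → k} {a m n i : ℕ} {x : TD K}

/-- One double step keeps the place at infinity. -/
theorem Rp.half (hF : Flg c a) (hm : Odd m) (hi : i < a) (hw0 : x.w ≠ 0)
    (S : AS K K' (stepGen (fun j => algebraMap k K (c j)) a i x)) {J : ℕ} {R : DV K}
    (h : Rp k m n J x R) : ∃ R' : DV K', Rp k m n (J + 1)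
      (halfNext (fun j => algebraMap k K' (c j)) a i (x.map (algebraMap K K')) S.y) R' := by
  have hc : c (a - 1 - i) ≠ 0 := hF.ne _ (by omega)
  have hgen := h.pb.gen hc hm.pos
  obtain ⟨R', h1, -⟩ := S.fib_ram (Nat.card k) hm hgen
  have hov := (h1 R').1 rfl
  have hord := (S.over_ram hov hm hgen).2
  refine ⟨R', S.rat_ram h.rat hm hgen hov, h.pb.half hc hm S hov, ?_, fun v hv => ?_, fun hn => ?_⟩
  · change R'.ord (algebraMap K K' x.w) = _
    rw [hord, h.ord, pow_succ]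
    push_cast
    ring
  · change v.ord (algebraMap K K' x.w) < 0 at hv
    obtain ⟨u, hu⟩ := S.exists_over v
    obtain ⟨e, he, he'⟩ := id hu
    rw [he' _ hw0] at hv
    have h2 : u.ord x.w < 0 := by
      by_contra h3
      have h4 : 0 ≤ (e : ℤ) * u.ord x.w := mul_nonneg (by positivity) (by omega)
      omega
    have h3 := h.uniq u h2
    subst h3
    exact (h1 v).2 hu
  · have h2 := (hov.G_one_iff _).2 (h.g hn)
    rw [map_div₀, map_pow] at h2
    exact h2

/-- One double step keeps the classes nontrivial. -/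
theorem NT.half (hF : Flg c a) (hm : Odd m) (hi : i < a)
    (S : AS K K' (stepGen (fun j => algebraMap k K (c j)) a i x)) {J : ℕ} {R : DV K} (hn : 2 ≤ n)
    (hR : Rp k m n J x R) (h : NT k a m x) :
    NT k a m (halfNext (fun j => algebraMap k K' (c j)) a i (x.map (algebraMap K K')) S.y) := by
  intro lam hl hl0 κ b' hb
  change b' ^ 2 + b' = algebraMap k K' lam * (algebraMap K K' (x.z 2) / (algebraMap K K' x.w) ^ m) +
    algebraMap k K' κ at hb
  have hc : c (a - 1 - i) ≠ 0 := hF.ne _ (by omega)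
  have two := AS.two' K K'
  have twoK : (2 : K) = 0 := CharTwo.two_eq_zero
  set f := stepGen (fun j => algebraMap k K (c j)) a i x with hf
  set t := algebraMap k K lam * (x.z 2 / x.w ^ m) + algebraMap k K κ with ht
  have ht' : algebraMap k K' lam * (algebraMap K K' (x.z 2) / (algebraMap K K' x.w) ^ m) +
      algebraMap k K' κ = algebraMap K K' t := by
    rw [ht, map_add, map_mul, map_div₀, map_pow, ← IsScalarTower.algebraMap_apply,
      ← IsScalarTower.algebraMap_apply]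
  rw [ht'] at hb
  have hsp := S.spec b'
  set p := S.a b'
  set q := S.b b'
  have hy : S.y ^ 2 = S.y + algebraMap K K' f := by
    have := S.eq
    linear_combination this - S.y * two
  have h1 : algebraMap K K' (p ^ 2 + p + q ^ 2 * f) + algebraMap K K' (q ^ 2 + q) * S.y =
      algebraMap K K' t + algebraMap K K' 0 * S.y := by
    rw [map_zero, zero_mul, add_zero, ← hb, hsp]
    simp only [map_add, map_mul, map_pow]
    linear_combination (-(algebraMap K K' q) ^ 2) * hy -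
      (algebraMap K K' p * algebraMap K K' q * S.y) * two
  obtain ⟨h2, h3⟩ := S.unique h1
  rcases mul_eq_zero.1 (by rw [← h3]; ring : q * (q + 1) = 0) with h4 | h4
  · rw [h4] at h2
    exact h lam hl hl0 κ p (by rw [← ht, ← h2]; ring)
  · have h5 : q = 1 := by linear_combination h4 - twoK
    rw [h5, one_pow, one_mul] at h2
    have hgen := hR.pb.gen hc hm.pos
    rw [← hf] at hgen
    have htint : R.G 0 t := by
      have h6 := ((hR.g hn).const_mul lam).mono (by norm_num : (0 : ℤ) ≤ 1)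
      exact h6.add (R.G_algebraMap κ)
    have hf0 : f ≠ 0 := by
      intro h0
      rw [h0, R.ord_zero] at hgen
      have := hm.pos
      omega
    have h7 : p ^ 2 + p = f + t := by
      linear_combination h2 - f * twoK
    have h8 := DV.ord_add_of_lt (v := R) (a := f) hf0 (b := t) (by
      rw [hgen]
      exact htint.mono (by have := hm.pos; omega))
    obtain ⟨r, hr⟩ := hm
    apply DV.not_odd_pole (v := R) (c := p) (e := r + 1) (by omega)
    rw [h7, h8.2, hgen, hr]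
    push_cast
    ring

end step

section level

variable {k K : Type*} [Field k] [Finite k] [CharP k 2] [Field K] [Algebra k K] [CharP K 2]
  {c : ℕ → k} {a m n : ℕ} {x : TD K}

theorem Rp.up (ha : 1 ≤ a) (hm : 1 ≤ m) (hn : 1 ≤ n) (T : Tw a m x.w x.z x.f n)
    (hs : x.s ^ (2 ^ a) + x.s = x.f n) {J : ℕ} (hJ : 1 ≤ J) {R : DV K} (h : Rp k m n J x R) :
    Rp k m (n + 1) J (levelUp a n x) R := by
  refine ⟨h.rat, h.pb.up ha hm hn T hs, h.ord, h.uniq, fun _ => ?_⟩
  by_cases h1 : n = 1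
  · subst h1
    have h2 : (levelUp a 1 x).z 2 = x.s := by simp [levelUp]
    rw [h2]
    change R.G 1 (x.s / x.w ^ m)
    have hpb : R.ord x.s = -(m : ℤ) := h.pb
    have hs0 : x.s ≠ 0 := by
      intro h0
      rw [h0, R.ord_zero] at hpb
      omega
    apply DV.G_of_le
    rw [R.ord_div hs0 (pow_ne_zero m T.w0), R.ord_pow T.w0, hpb, h.ord]
    have h3 : 2 ≤ 2 ^ J := by
      calc 2 = 2 ^ 1 := (pow_one 2).symm
        _ ≤ 2 ^ J := Nat.pow_le_pow_right (by norm_num) hJ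
    have h4 : (2 : ℤ) ≤ ((2 ^ J : ℕ) : ℤ) := by exact_mod_cast h3
    have h5 : (1 : ℤ) ≤ m := by exact_mod_cast hm
    nlinarith
  · have h2 : (levelUp a n x).z 2 = x.z 2 := by
      simp only [levelUp]; rw [Function.update_of_ne (by omega)]
    rw [h2]
    exact h.g (by omega)

theorem NT.start (hm : Odd m) (T : Tw a m x.w x.z x.f 1) {v : DV K} (h : PZ c a 1 a v x)
    (h0 : ¬ v.G 1 x.s) : NT k a m (levelUp a 1 x) := by
  intro lam hl hl0 κ b hb
  have h2 : (levelUp a 1 x).z 2 = x.s := by simp [levelUp]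
  rw [h2] at hb
  change b ^ 2 + b = algebraMap k K lam * (x.s / x.w ^ m) + algebraMap k K κ at hb
  have hw : v.ord x.w = 1 := h.1.1
  have hs0 : x.s ≠ 0 := fun h3 => h0 (by rw [h3]; exact DV.G_zero 1)
  have hs : v.ord x.s = 0 := by
    have h3 := h.int.le hs0
    have h4 : ¬ 1 ≤ v.ord x.s := fun h5 => h0 (DV.G_of_le h5)
    omega
  have hlK : algebraMap k K lam ≠ 0 := (map_ne_zero _).2 hl0
  have hq0 : x.s / x.w ^ m ≠ 0 := div_ne_zero hs0 (pow_ne_zero m T.w0)
  have h5 : v.ord (algebraMap k K lam * (x.s / x.w ^ m)) = -(m : ℤ) := by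
    rw [v.ord_mul _ _ hlK hq0, v.ord_algebraMap hl0, v.ord_div hs0 (pow_ne_zero m T.w0),
      v.ord_pow T.w0, hs, hw]
    ring
  have h6 := DV.ord_add_of_lt (v := v) (a := algebraMap k K lam * (x.s / x.w ^ m))
    (mul_ne_zero hlK hq0) (b := algebraMap k K κ) (by
      rw [h5]
      exact (v.G_algebraMap κ).mono (by have := hm.pos; omega))
  obtain ⟨r, hr⟩ := hm
  apply DV.not_odd_pole (v := v) (c := b) (e := r + 1) (by omega)
  rw [hb, h6.2, h5, hr]
  push_cast
  ring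

omit [Finite k] [CharP k 2] [CharP K 2] in
theorem NT.up (hn : 2 ≤ n) (h : NT k a m x) : NT k a m (levelUp a n x) := by
  have h2 : (levelUp a n x).z 2 = x.z 2 := by
    simp only [levelUp]; rw [Function.update_of_ne (by omega)]
  intro lam hl hl0 κ b
  rw [h2]
  exact h lam hl hl0 κ b

/-- The automorphism goes up one level. -/
theorem Sig.up {k K₀ K : Type*} [Field k] [Field K₀] [Field K] [Algebra k K₀] [Algebra k K]
    [Algebra K₀ K] [IsScalarTower k K₀ K] [CharP K₀ 2] {a m m' n : ℕ} (ha : 1 ≤ a)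
    {ζ : k} (hζ : ζ ^ (2 ^ a) = ζ) (hm' : ζ ^ m' = 1) (hζ0 : ζ ≠ 0)
    {x₀ : TD K₀} {x : TD K} (hw : x.w = algebraMap K₀ K x₀.w)
    (hz : ∀ j, x.z j = algebraMap K₀ K (x₀.z j)) (hf : ∀ j, x.f j = algebraMap K₀ K (x₀.f j))
    (hd : Module.finrank K₀ K = 2 ^ a) (hadj : IntermediateField.adjoin K₀ {x.s} = ⊤)
    (hs : x.s ^ (2 ^ a) + x.s = x.f n) {σ₀ : K₀ →+* K₀} (h : Sig a m m' n ζ x₀ σ₀) :
    ∃ σ : K →+* K, Sig a m m' (n + 1) ζ (levelUp a n x) σ := by
  have hη : (algebraMap k K (ζ ^ m)) ^ (2 ^ a) = algebraMap k K (ζ ^ m) := by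
    rw [← map_pow, ← pow_mul, mul_comm, pow_mul, hζ]
  have hη0 : algebraMap k K (ζ ^ m) ≠ 0 := (map_ne_zero _).2 (pow_ne_zero m hζ0)
  obtain ⟨σ, h1, h2⟩ := level_ext (K := K₀) (L := K) (z := x.s) (f := x₀.f n) ha hadj hd
    (by rw [hs, hf]) σ₀ (algebraMap k K (ζ ^ m) * x.s) (by
      rw [h.sf, map_mul, ← IsScalarTower.algebraMap_apply, ← hf, ← hs, mul_pow, hη]
      ring)
  have hfix : ∀ κ : k, σ (algebraMap k K κ) = algebraMap k K κ := by
    intro κ
    rw [IsScalarTower.algebraMap_apply k K₀ K, h1, h.fix]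
  have hf1 : (levelUp a n x).f (n + 1) = x.s ^ (2 ^ a + 1) / x.f n := by simp [levelUp]
  have hz1 : (levelUp a n x).z (n + 1) = x.s := by simp [levelUp]
  refine ⟨σ, hfix, ?_, fun i hi1 hi2 => ?_, ?_, ?_⟩
  · change σ x.w = _ * x.w
    rw [hw, h1, h.sw, map_mul, ← IsScalarTower.algebraMap_apply]
  · by_cases hi : i = n + 1
    · rw [hi, hz1, h2]
    · have h3 : (levelUp a n x).z i = x.z i := by
        simp only [levelUp]; rw [Function.update_of_ne hi]
      rw [h3, hz, h1, h.sz i hi1 (by omega), map_mul, ← IsScalarTower.algebraMap_apply]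
  · rw [hf1, map_div₀, map_pow, h2, hf, h1, h.sf, map_mul, ← IsScalarTower.algebraMap_apply,
      mul_pow, mul_div_mul_comm, pow_succ (algebraMap k K (ζ ^ m)), hη, mul_div_assoc,
      div_self hη0, mul_one]
  · intro y
    have hc : ∀ (j : ℕ) (d : K₀), σ^[j] (algebraMap K₀ K d) = algebraMap K₀ K (σ₀^[j] d) := by
      intro j
      induction j with
      | zero => intro d; rfl
      | succ j ih => intro d; rw [Function.iterate_succ_apply, h1, ih, ← Function.iterate_succ_apply]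
    have hsj : ∀ j : ℕ, σ^[j] x.s = algebraMap k K ((ζ ^ m) ^ j) * x.s := by
      intro j
      induction j with
      | zero => rw [pow_zero, map_one, one_mul]; rfl
      | succ j ih =>
        rw [Function.iterate_succ_apply', ih, map_mul, hfix, h2, pow_succ, map_mul]
        ring
    have h3 := level_uniq hadj (σ ^ m') (fun d => by
      rw [RingHom.coe_pow, hc, h.per]) (by
      rw [RingHom.coe_pow, hsj, ← pow_mul, mul_comm m m', pow_mul, hm', one_pow, map_one, one_mul]) y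
    rw [RingHom.coe_pow] at h3
    exact h3

end level

/-! ### The rational function field -/

section base

variable {k : Type*} [Field k] [Finite k] [CharP k 2]

omit [Finite k] [CharP k 2] in
theorem ratFunc_ringHom_id (τ : RatFunc k →+* RatFunc k)
    (h1 : ∀ κ : k, τ (algebraMap k (RatFunc k) κ) = algebraMap k (RatFunc k) κ)
    (h2 : τ RatFunc.X = RatFunc.X) (y : RatFunc k) : τ y = y := by
  have h3 : ∀ p : Polynomial k, τ (algebraMap (Polynomial k) (RatFunc k) p) =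
      algebraMap (Polynomial k) (RatFunc k) p := by
    intro p
    induction p using Polynomial.induction_on' with
    | add p q hp hq => rw [map_add, map_add, hp, hq]
    | monomial n c =>
      rw [← Polynomial.C_mul_X_pow_eq_monomial, map_mul, map_pow, RatFunc.algebraMap_X,
        RatFunc.algebraMap_C, ← RatFunc.algebraMap_eq_C, map_mul, map_pow, h1, h2]
  rw [← RatFunc.num_div_denom y, map_div₀, h3, h3]

theorem Sig.base {a m m' : ℕ} {ζ : k} (hm' : ζ ^ m' = 1) (hζ0 : ζ ≠ 0) :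
    ∃ σ : RatFunc k →+* RatFunc k, Sig a m m' 1 ζ (TD.base k m) σ := by
  have hinj : ∀ p : Polynomial k, p.comp (Polynomial.C ζ * Polynomial.X) = 0 ↔ p = 0 := fun p =>
    Polynomial.comp_C_mul_X_eq_zero_iff (mem_nonZeroDivisors_of_ne_zero hζ0)
  let φ : Polynomial k →+* RatFunc k := (algebraMap (Polynomial k) (RatFunc k)).comp
    (Polynomial.compRingHom (Polynomial.C ζ * Polynomial.X))
  have hφ : nonZeroDivisors (Polynomial k) ≤ (nonZeroDivisors (RatFunc k)).comap φ := by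
    intro p hp
    rw [Submonoid.mem_comap]
    apply mem_nonZeroDivisors_of_ne_zero
    intro h0
    have h1 : algebraMap (Polynomial k) (RatFunc k)
      (p.comp (Polynomial.C ζ * Polynomial.X)) = 0 := h0
    rw [map_eq_zero_iff _ (RatFunc.algebraMap_injective k), hinj] at h1
    exact nonZeroDivisors.ne_zero hp h1
  let σ := RatFunc.liftRingHom φ hφ
  have hσ : ∀ p : Polynomial k, σ (algebraMap (Polynomial k) (RatFunc k) p) =
      algebraMap (Polynomial k) (RatFunc k) (p.comp (Polynomial.C ζ * Polynomial.X)) := fun p =>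
    RatFunc.liftRingHom_algebraMap φ hφ p
  have hfix : ∀ κ : k, σ (algebraMap k (RatFunc k) κ) = algebraMap k (RatFunc k) κ := by
    intro κ
    have h1 := hσ (Polynomial.C κ)
    rw [Polynomial.C_comp, RatFunc.algebraMap_C, ← RatFunc.algebraMap_eq_C] at h1
    exact h1
  have hX : σ RatFunc.X = algebraMap k (RatFunc k) ζ * RatFunc.X := by
    have h1 := hσ Polynomial.X
    rw [Polynomial.X_comp, map_mul, RatFunc.algebraMap_X, RatFunc.algebraMap_C,
      ← RatFunc.algebraMap_eq_C] at h1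
    exact h1
  refine ⟨σ, hfix, hX, fun i h1 h2 => by omega, ?_, fun y => ?_⟩
  · change σ (RatFunc.X ^ m) = _ * RatFunc.X ^ m
    rw [map_pow, hX, mul_pow, map_pow]
  · have hj : ∀ j : ℕ, σ^[j] RatFunc.X = algebraMap k (RatFunc k) (ζ ^ j) * RatFunc.X := by
      intro j
      induction j with
      | zero => rw [pow_zero, map_one, one_mul]; rfl
      | succ j ih =>
        rw [Function.iterate_succ_apply', ih, map_mul, hfix, hX, pow_succ, map_mul]
        ring
    have hc : ∀ (j : ℕ) (κ : k), σ^[j] (algebraMap k (RatFunc k) κ) =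
        algebraMap k (RatFunc k) κ := by
      intro j
      induction j with
      | zero => intro κ; rfl
      | succ j ih => intro κ; rw [Function.iterate_succ_apply, hfix, ih]
    have h3 := ratFunc_ringHom_id (σ ^ m') (fun κ => by rw [RingHom.coe_pow, hc])
      (by rw [RingHom.coe_pow, hj, hm', map_one, one_mul]) y
    rw [RingHom.coe_pow] at h3
    exact h3

theorem Rp.base {m : ℕ} : Rp k m 1 0 (TD.base k m) (Rat.inf k) := by
  refine ⟨Rat.inf_rat, ?_, ?_, fun v hv => Rat.eq_inf hv, fun h => by omega⟩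
  · change (Rat.inf k).ord (RatFunc.X ^ m) = _
    rw [DV.ord_pow _ RatFunc.X_ne_zero, Rat.inf_X]
    ring
  · change (Rat.inf k).ord RatFunc.X = _
    rw [Rat.inf_X]
    norm_num

end base

/-! ### The chain -/

section chain

variable {k : Type} [Field k] [Finite k] [CharP k 2]

/-- The bound for the places of large degree. -/
def PlB (m J : ℕ) (K : Type) [Field K] [Algebra k K] : Prop :=
  ∃ C, C + 7 ≤ 2 ^ J * (4 * m * J + 7) ∧
    HasPl k K ((m * 2 ^ J + 2) * (m * 2 ^ J + 3)) C (2 ^ J)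

/-- The property carried at stage `(n, i)`. -/
def Mid (c : ℕ → k) (a m m' n i : ℕ) (ζ : k) (K : Type) [Field K] [Algebra k K] (x : TD K) : Prop :=
  ∃ (K₀ : Type) (_ : Field K₀) (_ : Algebra k K₀) (_ : Algebra K₀ K) (_ : IsScalarTower k K₀ K)
    (_ : CharP K₀ 2) (x₀ : TD K₀) (σ : K₀ →+* K₀),
    Sig a m m' n ζ x₀ σ ∧ x.w = algebraMap K₀ K x₀.w ∧ (∀ j, x.z j = algebraMap K₀ K (x₀.z j)) ∧
    (∀ j, x.f j = algebraMap K₀ K (x₀.f j)) ∧ Module.finrank K₀ K = 2 ^ i ∧
    IntermediateField.adjoin K₀ {x.s} = ⊤ ∧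
    (∃ R : DV K, Rp k m n (a * (n - 1) + i) x R) ∧ (2 ≤ n → NT k a m x) ∧
    (1 ≤ i → ∃ v : DV K, PZ c a n i v x ∧ ¬ v.G 1 x.s) ∧ PlB (k := k) m (a * (n - 1) + i) K

/-- The property carried at a level. -/
def LevP (a m m' n : ℕ) (ζ : k) (K : Type) [Field K] [Algebra k K] (x : TD K) : Prop :=
  (∃ σ : K →+* K, Sig a m m' n ζ x σ) ∧ (∃ R : DV K, Rp k m n (a * (n - 1)) x R) ∧
    (2 ≤ n → NT k a m x) ∧ PlB (k := k) m (a * (n - 1)) K

omit [Finite k] [CharP k 2] in
theorem LevP.toMid {c : ℕ → k} {a m m' n : ℕ} {ζ : k} {K : Type} [Field K] [Algebra k K] [CharP K 2]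
    {x : TD K} (h : LevP a m m' n ζ K x) : Mid c a m m' n 0 ζ K x := by
  obtain ⟨⟨σ, hσ⟩, hR, hN, hP⟩ := h
  refine ⟨K, inferInstance, inferInstance, Algebra.id K, inferInstance, inferInstance, x, σ, hσ, rfl,
    fun _ => rfl, fun _ => rfl, ?_, ?_, ?_, hN, fun h => by omega, ?_⟩
  · rw [pow_zero]; exact Module.finrank_self K
  · exact Subsingleton.elim _ _
  · exact hR
  · exact hP

theorem Mid.half {c : ℕ → k} {a m m' n i : ℕ} {ζ : k} (hF : Flg c a) (hm : Odd m) (hi : i < a)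
    {K : Type} [Field K] [Algebra k K] [CharP K 2] {K' : Type} [Field K'] [Algebra k K']
    [CharP K' 2] [Algebra K K'] [IsScalarTower k K K'] {x : TD K}
    (S : AS K K' (stepGen (fun j => algebraMap k K (c j)) a i x)) {g g' : ℕ}
    {D : DV K → ℕ} {b : DV K → K} {B : Finset (DV K)}
    (hD : DStep k K K' (stepGen (fun j => algebraMap k K (c j)) a i x) g g' D b B)
    (hg : g' ≤ m * (2 ^ a) ^ (n - 1) * 2 ^ (i + 1) + 1) (hI : Inv c a m n i x)
    (h : Mid c a m m' n i ζ K x) :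
    Mid c a m m' n (i + 1) ζ K'
      (halfNext (fun j => algebraMap k K' (c j)) a i (x.map (algebraMap K K')) S.y) := by
  have hc : c (a - 1 - i) ≠ 0 := hF.ne _ (by omega)
  obtain ⟨cv, hcv, hcv'⟩ := hF.fl
  obtain ⟨K₀, _, _, _, _, _, x₀, σ, hσ, hw, hz, hf, hd, hadj, ⟨R, hR⟩, hN, hZ, hP⟩ := h
  letI : Algebra K₀ K' := ((algebraMap K K').comp (algebraMap K₀ K)).toAlgebra
  haveI : IsScalarTower K₀ K K' := IsScalarTower.of_algebraMap_eq fun _ => rfl
  haveI : IsScalarTower k K₀ K' := IsScalarTower.of_algebraMap_eq fun r => by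
    rw [IsScalarTower.algebraMap_apply k K K', IsScalarTower.algebraMap_apply k K₀ K]
    rfl
  refine ⟨K₀, ‹_›, ‹_›, ‹_›, ‹_›, ‹_›, x₀, σ, hσ, ?_, fun j => ?_, fun j => ?_, ?_, ?_, ?_, fun hn => ?_,
    fun _ => ?_, ?_⟩
  · change algebraMap K K' x.w = _
    rw [hw]
    rfl
  · change algebraMap K K' (x.z j) = _
    rw [hz]
    rfl
  · change algebraMap K K' (x.f j) = _
    rw [hf]
    rfl
  · rw [← Module.finrank_mul_finrank K₀ K K', hd, S.finrank, pow_succ]
  · have h1 := adjoin_step (K₀ := K₀) S hadj (c := algebraMap k K₀ (c (a - 1 - i)))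
      ((map_ne_zero _).2 hc) (by
        rw [← IsScalarTower.algebraMap_apply]
        exact half_eq hc S)
    rw [← IsScalarTower.algebraMap_apply] at h1
    exact h1
  · obtain ⟨R', hR'⟩ := hR.half hF hm hi hI.tw.w0 S
    exact ⟨R', hR'⟩
  · exact (hN hn).half hF hm hi S hn hR
  · by_cases h0 : i = 0
    · subst h0
      obtain ⟨v₀, Z, T, B', P⟩ := hI.plc
      obtain ⟨w₁, w₂, -, -, h2, -, -, h3, -⟩ := PZ.half hi (hcv _ (by omega)) (hcv' _ (by omega))
        hc S P.v₀Z.1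
      exact ⟨w₂, h2, h3 P.v₀Z.2⟩
    · obtain ⟨v, hv, hv'⟩ := hZ (by omega)
      obtain ⟨w₁, w₂, -, h2, -, -, -, -, h3⟩ := PZ.half hi (hcv _ (by omega)) (hcv' _ (by omega))
        hc S hv
      exact ⟨w₁, h2, (h3 hv').1⟩
  · change PlB (k := k) m (a * (n - 1) + i + 1) K'
    obtain ⟨C, hC, hPl⟩ := hP
    obtain ⟨v, hv, hrat⟩ := hD.rat
    have hpow : m * (2 ^ a) ^ (n - 1) * 2 ^ (i + 1) = m * 2 ^ (a * (n - 1) + i + 1) := by
      rw [mul_assoc, ← pow_mul, ← pow_add, ← add_assoc]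
    rw [hpow] at hg
    have h := HasPl.up hD.cv hD.cv' S hD.nf hrat ((hD.mem v).1 hv) hD.eq hPl
    refine ⟨_, const_rec hC hg, h.mono ?_ le_rfl (by rw [pow_succ]; omega)⟩
    have h1 : m * 2 ^ (a * (n - 1) + i) ≤ m * 2 ^ (a * (n - 1) + i + 1) :=
      Nat.mul_le_mul_left _ (Nat.pow_le_pow_right (by norm_num) (by omega))
    exact max_le (Nat.mul_le_mul (by omega) (by omega)) (Nat.mul_le_mul (by omega) (by omega))

theorem Mid.up {c : ℕ → k} {a m m' n : ℕ} {ζ : k} (hF : Flg c a) (hm : Odd m)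
    (hζ : ζ ^ (2 ^ a) = ζ) (hm' : ζ ^ m' = 1) (hζ0 : ζ ≠ 0)
    {K : Type} [Field K] [Algebra k K] [CharP K 2] {x : TD K} (hI : Inv c a m n a x)
    (h : Mid c a m m' n a ζ K x) : LevP a m m' (n + 1) ζ K (levelUp a n x) := by
  have ha := hF.a1
  have hn := hI.n1
  have hs := hI.eq_top hF
  obtain ⟨K₀, _, _, _, _, _, x₀, σ, hσ, hw, hz, hf, hd, hadj, ⟨R, hR⟩, hN, hZ, hP⟩ := h
  have hJ : a * (n - 1) + a = a * (n + 1 - 1) := by
    have h1 : n + 1 - 1 = (n - 1) + 1 := by omega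
    rw [h1, mul_add, mul_one]
  rw [hJ] at hR hP
  refine ⟨Sig.up ha hζ hm' hζ0 hw hz hf hd hadj hs hσ,
    ⟨R, hR.up ha hm.pos hn hI.tw hs (Nat.mul_pos ha (by omega))⟩, fun _ => ?_, hP⟩
  by_cases h1 : n = 1
  · subst h1
    obtain ⟨v, hv, hv'⟩ := hZ ha
    exact NT.start hm hI.tw hv hv'
  · exact (hN (by omega)).up (by omega)

omit [Finite k] [CharP k 2] in
theorem StX.mono {c : ℕ → k} {a m n i : ℕ} [Finite k] [CharP k 2]
    {P P' : (K : Type) → [Field K] → [Algebra k K] → TD K → Prop}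
    (hP : ∀ (K : Type) [Field K] [Algebra k K] [CharP K 2] (x : TD K), P K x → P' K x)
    (h : StX c a m n i P) : StX c a m n i P' := by
  obtain ⟨K, _, _, _, x, g, o, h1, h2, h3, h4, h5, h6, h7, h8⟩ := h
  exact ⟨K, ‹_›, ‹_›, ‹_›, x, g, o, h1, h2, h3, h4, h5, h6, h7, hP K x h8⟩

theorem chainLev {c : ℕ → k} {a m m' : ℕ} {ζ : k} (hk : Nat.card k = (2 ^ a) ^ 2) (hF : Flg c a)
    (hm : Odd m) (hml : m ∣ 2 ^ a + 1) (hζ : ζ ^ (2 ^ a) = ζ) (hm' : ζ ^ m' = 1) (hζ0 : ζ ≠ 0)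
    (n : ℕ) (hn : 1 ≤ n) : StX c a m n 0 (fun K _ _ x => LevP a m m' n ζ K x) := by
  induction n, hn using Nat.le_induction with
  | base =>
    haveI : CharP (RatFunc k) 2 :=
      charP_of_injective_algebraMap (algebraMap k (RatFunc k)).injective 2
    refine ⟨RatFunc k, inferInstance, inferInstance, inferInstance, TD.base k m, 0, 0,
      Inv.base hF hm, Rat.isFF k, Rat.cv, Ob.base, ?_, ?_, ?_,
      Sig.base hm' hζ0, ⟨Rat.inf k, ?_⟩, fun h => by omega, ?_⟩
    · have := InvS'.base hk hF hml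
      simpa using this
    · unfold Bd
      obtain ⟨r, hr⟩ := hm
      have : (m + 1) / 2 = r + 1 := by omega
      rw [this, hr]
      simp
      omega
    · unfold Bd
      simp
    · rw [Nat.sub_self, mul_zero]
      exact Rp.base
    · rw [Nat.sub_self, mul_zero]
      exact ⟨0, by simp, (HasPl.base k).mono (Nat.zero_le _) le_rfl (by simp)⟩
  | succ n hn ih =>
    have main : ∀ i, i ≤ a → StX c a m n i (fun K _ _ x => Mid c a m m' n i ζ K x) := by
      intro i
      induction i with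
      | zero =>
        intro _
        exact ih.mono fun K _ _ _ x h => h.toMid
      | succ i ih2 =>
        intro hi
        exact (ih2 (by omega)).half hF hm (by omega)
          fun K _ _ _ K' _ _ _ _ _ x S g g' D b B hD hg hI h => Mid.half hF hm (by omega) S hD hg hI h
    exact (main a le_rfl).up hk hF hm fun K _ _ _ x hI h => Mid.up hF hm hζ hm' hζ0 hI h

omit [CharP k 2] in
theorem exists_zeta {a m' : ℕ} (hk : Nat.card k = (2 ^ a) ^ 2) (ha : 1 ≤ a)
    (hm' : m' ∣ 2 ^ a - 1) : ∃ ζ : k, IsPrimitiveRoot ζ m' := by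
  have hl : 2 ≤ 2 ^ a := by
    calc 2 = 2 ^ 1 := (pow_one 2).symm
      _ ≤ 2 ^ a := Nat.pow_le_pow_right (by norm_num) ha
  obtain ⟨g, hg⟩ := IsCyclic.exists_generator (α := kˣ)
  have h1 : orderOf g = Nat.card kˣ := orderOf_eq_card_of_forall_mem_zpowers hg
  have h2 : Nat.card kˣ = (2 ^ a) ^ 2 - 1 := by rw [Nat.card_units, hk]
  have h3 : (2 ^ a) ^ 2 - 1 = (2 ^ a + 1) * (2 ^ a - 1) := by
    obtain ⟨r, hr⟩ : ∃ r, 2 ^ a = r + 1 := ⟨2 ^ a - 1, by omega⟩
    rw [hr, Nat.add_sub_cancel]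
    have : (r + 1) ^ 2 = (r + 1 + 1) * r + 1 := by ring
    omega
  have h4 : m' ∣ orderOf g := by
    rw [h1, h2, h3]
    exact Dvd.dvd.mul_left hm' _
  obtain ⟨d, hd⟩ := h4
  have h5 : IsPrimitiveRoot g (orderOf g) := IsPrimitiveRoot.orderOf g
  have h6 := h5.pow (orderOf_pos g) (a := d) (b := m') (by rw [hd, mul_comm])
  exact ⟨((g ^ d : kˣ) : k), IsPrimitiveRoot.coe_units_iff.2 h6⟩

/-- **The tower at level `N ≥ 3` with its automorphism.** -/
theorem exists_lev {a m m' : ℕ} {ζ : k} (ha : 1 ≤ a) (hk : Nat.card k = (2 ^ a) ^ 2) (hm : Odd m)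
    (hml : m ∣ 2 ^ a + 1) (hm'1 : 1 ≤ m') (hm'l : m' ∣ 2 ^ a - 1) (hζ : IsPrimitiveRoot ζ m')
    {N : ℕ} (hN : 3 ≤ N) :
    ∃ (K : Type) (_ : Field K) (_ : Algebra k K) (_ : CharP K 2) (g o C : ℕ) (w z2 z3 : K)
      (sig : K ≃ₐ[k] K) (R : DV K),
      IsFF k K ∧ Cv k K g ∧ g ≤ m * 2 ^ (a * (N - 1)) + 1 ∧ Ob K o ∧ o ≤ 2 ^ (a * (N - 1)) + 1 ∧
      (∃ T : Finset (DV K), m * (2 ^ a - 1) * 2 ^ (a * (N - 1)) ≤ T.card ∧
        ∀ v ∈ T, v.Rat k ∧ v.ord w = 0 ∧
          ∃ γ : k, v.G 1 (z2 - algebraMap k K γ) ∧ γ ^ (2 ^ a) + γ ≠ 0) ∧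
      C + 7 ≤ 2 ^ (a * (N - 1)) * (4 * m * (a * (N - 1)) + 7) ∧
      HasPl k K ((m * 2 ^ (a * (N - 1)) + 2) * (m * 2 ^ (a * (N - 1)) + 3)) C
        (2 ^ (a * (N - 1))) ∧
      Lev a m m' w z2 z3 sig ζ ∧
      R.Rat k ∧ w ∈ RRD.LP R (2 ^ (a * (N - 1))) ∧ R.ord w < 0 := by
  cases nonempty_fintype k
  have hk' : Fintype.card k = (2 ^ a) ^ 2 := by rw [← Nat.card_eq_fintype_card, hk]
  obtain ⟨c, cv, h1, h2, h3, h4⟩ := exists_flag hk' ha
  have hF : Flg c a := ⟨ha, ⟨cv, h1, h2⟩, h3, h4⟩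
  have hζ0 : ζ ≠ 0 := hζ.ne_zero (by omega)
  have hζm : ζ ^ m' = 1 := hζ.pow_eq_one
  have hζl : ζ ^ (2 ^ a) = ζ := by
    have hl : 1 ≤ 2 ^ a := Nat.one_le_two_pow
    obtain ⟨d, hd⟩ := hm'l
    have h5 : 2 ^ a = (2 ^ a - 1) + 1 := by omega
    rw [h5, hd, pow_succ, pow_mul, hζm, one_pow, one_mul]
  obtain ⟨K, _, _, _, x, g, o, hI, hFF, hC, hO, hS, hg, ho, ⟨σ, hσ⟩, ⟨R, hR⟩, hN', C, hC1, hC2⟩ :=
    chainLev (m' := m') hk hF hm hml hζl hζm hζ0 N (by omega)
  have hpow : (2 ^ a) ^ (N - 1) * 2 ^ 0 = 2 ^ (a * (N - 1)) := by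
    rw [← pow_mul, pow_zero, mul_one]
  have hinj : Function.Injective σ := σ.injective
  have hsurj : Function.Surjective σ := fun y => ⟨σ^[m' - 1] y, by
    rw [← Function.iterate_succ_apply' σ (m' - 1) y]
    have h5 : (m' - 1).succ = m' := by omega
    rw [h5]
    exact hσ.per y⟩
  let sig : K ≃ₐ[k] K := AlgEquiv.ofBijective (AlgHom.mk σ hσ.fix) ⟨hinj, hsurj⟩
  have hsig : ∀ y, sig y = σ y := fun y => rfl
  have T := hI.tw
  refine ⟨K, ‹_›, ‹_›, ‹_›, g, o, C, x.w, x.z 2, x.z 3, sig, R, hFF, hC, ?_, hO, ?_, ?_, hC1, hC2,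
    ?_, hR.rat, ?_, ?_⟩
  · have := hg.le
    rwa [mul_assoc, hpow] at this
  · have := ho.le
    rwa [one_mul, hpow] at this
  · obtain ⟨T, hT, hT'⟩ := hS
    rw [hpow] at hT
    exact ⟨T, hT, fun v hv => ⟨(hT' v hv).1.1, (hT' v hv).2.1, (hT' v hv).2.2 (by omega)⟩⟩
  · refine ⟨T.w0, ?_, ?_, hζ, hζl, by rw [hsig]; exact hσ.sw, by rw [hsig]; exact hσ.sz 2 le_rfl (by omega),
      by rw [hsig]; exact hσ.sz 3 (by omega) hN, fun y => ?_, hN' (by omega)⟩
    · rw [T.hz 1 le_rfl (by omega), T.f1]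
    · rw [T.hz 2 (by omega) (by omega), ← T.f1, ← T.hf 1 le_rfl (by omega),
        mul_div_cancel_right₀ _ (T.f_ne 1 le_rfl (by omega))]
    · have h5 : ∀ j, sig^[j] y = σ^[j] y := by
        intro j
        induction j with
        | zero => rfl
        | succ j ih => rw [Function.iterate_succ_apply', Function.iterate_succ_apply', ih, hsig]
      rw [h5]
      exact hσ.per y
  · rw [RRD.mem_LP]
    refine ⟨DV.G_of_le (by rw [hR.ord]), fun Q hQ => DV.G_of_le ?_⟩
    by_contra h5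
    exact hQ (hR.uniq Q (by omega))
  · rw [hR.ord]
    have : (0 : ℤ) < ((2 ^ (a * (N - 1)) : ℕ) : ℤ) := by positivity
    omega

end chain

end Pool.Agent.FF
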