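import Pool.Agent.FF.Lay
import Pool.Agent.FF.Lev
import Pool.Agent.FF.Dbl0

/-! The layers over a level of the tower. -/

set_option autoImplicit false
set_option linter.unusedSectionVars false

namespace Pool.Agent.FF

section const

variable {k : Type} [Field k] [Finite k] [CharP k 2] {a : ℕ}

/-- The elements fixed by `x ↦ x ^ l`, `|k| = l ^ 2`. -/
def fixG (k : Type) [Field k] [CharP k 2] (a : ℕ) : AddSubgroup k where
  carrier := {x | x ^ 2 ^ a = x}
  zero_mem' := zero_pow (by positivity)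
  add_mem' := by
    intro x y hx hy
    change (x + y) ^ 2 ^ a = x + y
    rw [add_pow_char_pow, hx, hy]
  neg_mem' := by
    intro x hx
    rw [CharTwo.neg_eq]
    exact hx

theorem card_fixG (ha : 1 ≤ a) (hk : Nat.card k = (2 ^ a) ^ 2) : Nat.card (fixG k a) = 2 ^ a := by
  classical
  have := Fintype.ofFinite k
  have h1 := card_fix (k := k) (l := 2 ^ a) (by
    calc 2 = 2 ^ 1 := rfl
      _ ≤ 2 ^ a := Nat.pow_le_pow_right (by norm_num) ha) (by rw [← Nat.card_eq_fintype_card, hk])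
  rw [← h1, Nat.card_eq_fintype_card]
  exact Fintype.card_of_subtype _ fun x => by
    simp only [Finset.mem_filter, Finset.mem_univ, true_and]
    rfl

theorem exists_eps (ha : 1 ≤ a) (hk : Nat.card k = (2 ^ a) ^ 2) : ∃ eps : k, eps ^ 2 ^ a + eps = 1 := by
  classical
  have h2 : (2 : k) = 0 := CharTwo.two_eq_zero
  let φ : k →+ k :=
    { toFun := fun x => x ^ 2 ^ a + x
      map_zero' := by simp
      map_add' := fun x y => by rw [add_pow_char_pow]; ring }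
  have hFr : ∀ x : k, (x ^ 2 ^ a) ^ 2 ^ a = x := by
    intro x
    rw [← pow_mul, ← sq, ← hk]
    have := Fintype.ofFinite k
    rw [Nat.card_eq_fintype_card]
    exact FiniteField.pow_card x
  have hker : φ.ker = fixG k a := by
    ext x
    rw [AddMonoidHom.mem_ker]
    change x ^ 2 ^ a + x = 0 ↔ x ^ 2 ^ a = x
    constructor
    · intro h; linear_combination h - x * h2
    · intro h; linear_combination h + x * h2
  have hrange : φ.range ≤ fixG k a := by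
    rintro _ ⟨x, rfl⟩
    change (x ^ 2 ^ a + x) ^ 2 ^ a = x ^ 2 ^ a + x
    rw [add_pow_char_pow, hFr, add_comm]
  have h1 : Nat.card k = Nat.card φ.range * Nat.card φ.ker := by
    rw [AddSubgroup.card_eq_card_quotient_mul_card_addSubgroup φ.ker,
      Nat.card_congr (QuotientAddGroup.quotientKerEquivRange φ).toEquiv]
  rw [hker, card_fixG ha hk, hk, sq] at h1
  have h3 : Nat.card φ.range = 2 ^ a := (Nat.eq_of_mul_eq_mul_right (by positivity) h1).symm
  have h4 : φ.range = fixG k a := by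
    refine AddSubgroup.eq_of_le_of_card_ge hrange ?_
    rw [card_fixG ha hk, h3]
  have h5 : (1 : k) ∈ fixG k a := one_pow _
  rw [← h4] at h5
  exact h5

theorem exists_lam (ha : 1 ≤ a) (hk : Nat.card k = (2 ^ a) ^ 2) {Lam : AddSubgroup k} {i : ℕ}
    (hi : i < a) (hL : Nat.card Lam ≤ 2 ^ i) : ∃ lam : k, lam ^ 2 ^ a = lam ∧ lam ∉ Lam := by
  by_contra h
  push Not at h
  have h1 : fixG k a ≤ Lam := fun x hx => h x hx
  have h2 := AddSubgroup.card_le_of_le h1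
  rw [card_fixG ha hk] at h2
  have h3 : 2 ^ i < 2 ^ a := Nat.pow_lt_pow_right (by norm_num) hi
  omega

end const

/-- **The layers.** -/
theorem LayD.layers {k : Type} [Field k] [Finite k] [CharP k 2]
    {K : Type} [Field K] [Algebra k K] [CharP K 2]
    {a m m' : ℕ} {w z₂ z₃ : K} {sig : K ≃ₐ[k] K} {zeta : k}
    {h n t N B C M : ℕ} (hL : LayD k K a m m' w z₂ z₃ sig zeta ⊥ (h + 1) n t N B C M) (ha : 1 ≤ a)
    (hz : zeta ≠ 0) (ht : 1 ≤ t) (hk : Nat.card k = (2 ^ a) ^ 2) (i : ℕ) (hi : i ≤ a) :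
    ∃ (K' : Type) (_ : Field K') (_ : Algebra k K') (_ : CharP K' 2) (w' z₂' z₃' : K')
      (sig' : K' ≃ₐ[k] K') (Lam : AddSubgroup k) (B' C' : ℕ),
      Nat.card Lam ≤ 2 ^ i ∧
      LayD k K' a m m' w' z₂' z₃' sig' zeta Lam (2 ^ i * h + 1) (2 ^ i * n) (2 ^ i * t) (2 ^ i * N)
        B' C' (2 ^ i * M) ∧
      B' ≤ max B ((2 ^ i * h + 2) * (2 ^ i * h + 3)) ∧
      C' + 1 ≤ 2 ^ i * (C + 1 + 2 * i * (h + 1)) := by
  induction i with
  | zero =>
    refine ⟨K, _, _, ‹_›, w, z₂, z₃, sig, ⊥, B, C, by simp, ?_, le_max_left _ _, by simp⟩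
    simpa using hL
  | succ i ih =>
    obtain ⟨K', _, _, _, w', z₂', z₃', sig', Lam, B', C', hcard, hD, hB, hC⟩ := ih (by omega)
    obtain ⟨lam, hlam, hlamL⟩ := exists_lam ha hk (by omega) hcard
    obtain ⟨eps, he⟩ := exists_eps ha hk
    have hnt : ∀ (b : K') (κ : k), b ^ 2 + b ≠ layF k m w' z₂' lam eps + algebraMap k K' κ := by
      intro b κ hb
      refine hD.lev.nontriv lam hlam hlamL (lam * eps + κ) b ?_
      rw [hb]
      unfold layF
      rw [map_add, map_mul]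
      ring
    obtain ⟨K'', _, _, ⟨S⟩⟩ := exists_AS (f := layF k m w' z₂' lam eps) (fun d hd => hnt d 0 (by
      rw [hd, map_zero, add_zero]))
    let alg : Algebra k K'' := ((algebraMap K' K'').comp (algebraMap k K')).toAlgebra
    have tow : IsScalarTower k K' K'' := IsScalarTower.of_algebraMap_eq fun _ => rfl
    have hch : CharP K'' 2 := charP_of_injective_algebraMap (algebraMap K' K'').injective 2
    obtain ⟨c, hN⟩ := hD.lev.nf ha hlam eps hD.cv.poles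
    have hcv' := hD.cv.double0 (by omega) S hN hnt
    have ht' : 1 ≤ 2 ^ i * t := Nat.mul_pos (by positivity) ht
    have hU := hD.up ha hz ht' hk hlam he S hcv'
    have e1 : 2 * (2 ^ i * h + 1) - 1 = 2 ^ (i + 1) * h + 1 := by
      rw [pow_succ]
      have : 2 * (2 ^ i * h + 1) = 2 ^ i * 2 * h + 2 := by ring
      omega
    have e2 : 2 ^ i * n + 2 ^ i * n = 2 ^ (i + 1) * n := by rw [pow_succ]; ring
    have e3 : 2 * (2 ^ i * t) = 2 ^ (i + 1) * t := by rw [pow_succ]; ring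
    have e4 : 2 * (2 ^ i * N) = 2 ^ (i + 1) * N := by rw [pow_succ]; ring
    have e5 : 2 * (2 ^ i * M) = 2 ^ (i + 1) * M := by rw [pow_succ]; ring
    rw [e1, e2, e3, e4, e5] at hU
    refine ⟨K'', _, alg, hch, _, _, _, _, addOne Lam lam, _, _, ?_, hU, ?_, ?_⟩
    · calc Nat.card (addOne Lam lam) ≤ 2 * Nat.card Lam := card_addOne Lam lam
        _ ≤ 2 * 2 ^ i := Nat.mul_le_mul_left _ hcard
        _ = 2 ^ (i + 1) := by rw [pow_succ, mul_comm]
    · refine max_le (hB.trans (max_le_max_left _ ?_)) (le_max_of_le_right le_rfl)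
      have h6 : 2 ^ i * h ≤ 2 ^ (i + 1) * h := Nat.mul_le_mul_right _ (Nat.pow_le_pow_right (by norm_num) (by omega))
      exact Nat.mul_le_mul (by omega) (by omega)
    · have e6 : 2 ^ (i + 1) * (C + 1 + 2 * (i + 1) * (h + 1)) =
          2 * (2 ^ i * (C + 1 + 2 * i * (h + 1))) + 2 * (2 ^ (i + 1) * h) + 2 * 2 ^ (i + 1) := by
        rw [pow_succ]; ring
      rw [e6]
      have h7 : 1 ≤ 2 ^ (i + 1) := Nat.one_le_two_pow
      omega

/-- The genus is not zero: the class would be trivial. -/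
theorem LevL.genus_pos {k K : Type} [Field k] [Finite k] [CharP k 2] [Field K] [Algebra k K]
    [CharP K 2] {a m m' : ℕ} {w z₂ z₃ : K} {sig : K ≃ₐ[k] K} {zeta : k}
    (h : LevL a m m' w z₂ z₃ sig zeta ⊥) (ha : 1 ≤ a) {g : ℕ} (C : Cv k K g) : 1 ≤ g := by
  rcases Nat.eq_zero_or_pos g with hg | hg
  · exfalso
    rw [hg] at C
    obtain ⟨c, hN⟩ := h.nf ha (one_pow _ : (1 : k) ^ 2 ^ a = 1) 0 C.poles
    have h1 : (Bdd (0 : DV K → ℤ) ⊔ Prin K).relIndex (Adl K) = 1 := by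
      have := C.genus
      rw [HasGenus, pow_zero] at this
      exact this
    have h2 := AddSubgroup.relIndex_eq_one.1 h1 hN.cA
    obtain ⟨b, hb, p, ⟨x, hx⟩, hbp⟩ := AddSubgroup.mem_sup.1 h2
    have hc : ∀ v, c v = b v + x := fun v => by rw [← hbp, Pi.add_apply, hx]
    have h2K : (2 : K) = 0 := CharTwo.two_eq_zero
    have hint : ∀ v : DV K, v.G 0 (layF k m w z₂ 1 0 + (x ^ 2 + x)) := by
      intro v
      have h3 := hN.int v rfl
      have h4 : v.G 0 (b v) := by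
        have := hb v
        simpa using this
      have h5 := h3.add ((G_pow0 h4 2).add h4)
      have e1 : layF k m w z₂ 1 0 + (c v ^ 2 + c v) + (b v ^ 2 + b v) =
          layF k m w z₂ 1 0 + (x ^ 2 + x) := by
        rw [hc]
        linear_combination (b v ^ 2 + b v * x + b v) * h2K
      rwa [e1] at h5
    obtain ⟨κ, hκ⟩ := C.const _ hint
    refine h.nontriv 1 (one_pow _) (by simp) κ x ?_
    rw [← hκ]
    unfold layF
    rw [map_one, map_zero]
    linear_combination (-(z₂ / w ^ m)) * h2K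
  · exact hg

/-- **All levels with layers.** -/
theorem exists_lay {k : Type} [Field k] [Finite k] [CharP k 2] {a m m' : ℕ} {ζ : k} (ha : 1 ≤ a)
    (hk : Nat.card k = (2 ^ a) ^ 2) (hm : Odd m) (hml : m ∣ 2 ^ a + 1) (hm'1 : 1 ≤ m')
    (hm'l : m' ∣ 2 ^ a - 1) (hζ : IsPrimitiveRoot ζ m') {N i J : ℕ} (hN : 3 ≤ N) (hi : i ≤ a)
    (hJ : J = a * (N - 1) + i) :
    ∃ (K : Type) (_ : Field K) (_ : Algebra k K) (_ : CharP K 2) (w z₂ z₃ : K) (sig : K ≃ₐ[k] K)
      (Lam : AddSubgroup k) (g n B C : ℕ),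
      LayD k K a m m' w z₂ z₃ sig ζ Lam g n (m * (2 ^ a - 1) * 2 ^ J) (2 ^ J) B C (2 ^ J) ∧
      g ≤ m * 2 ^ J + 1 ∧ n ≤ 2 ^ J + 2 ^ a ∧ B ≤ (m * 2 ^ J + 2) * (m * 2 ^ J + 3) ∧
      C + 1 ≤ 2 ^ J * (4 * m * J + 7 + 2 * a) := by
  obtain ⟨K, _, _, _, g, o, C, w, z2, z3, sig, R, hF, hC, hg, hO, ho, ⟨T, hT, hTp⟩, hC7, hP, hL, hRr,
    hwR, hRw⟩ := exists_lev ha hk hm hml hm'1 hm'l hζ hN
  set J₀ := a * (N - 1) with hJ₀
  have hz : ζ ≠ 0 := hζ.ne_zero (by omega)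
  have hLL : LevL a m m' w z2 z3 sig ζ ⊥ :=
    ⟨hL.w0, hL.e2, hL.e3, hL.prim, hL.zl, hL.sw, by rw [hL.sz2, map_pow], by rw [hL.sz3, map_pow],
      hL.per, fun lam h1 h2 => hL.nontriv lam h1 (by simpa using h2)⟩
  have hg1 := hLL.genus_pos ha hC
  obtain ⟨h, rfl⟩ : ∃ h, g = h + 1 := ⟨g - 1, by omega⟩
  have hm1 : 1 ≤ m := hm.pos
  have ha2 : 2 ≤ 2 ^ a := by
    calc 2 = 2 ^ 1 := rfl
      _ ≤ 2 ^ a := Nat.pow_le_pow_right (by norm_num) ha
  have hpos : 1 ≤ m * (2 ^ a - 1) * 2 ^ J₀ :=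
    Nat.mul_pos (Nat.mul_pos hm1 (by omega)) (by positivity)
  have hPol : PolB k w (2 ^ J₀) := by
    classical
    refine ⟨Finsupp.single R ((2 ^ J₀ : ℕ) : ℤ), fun v => ?_, ?_, fun v => ?_⟩
    · rw [Finsupp.single_apply]; split_ifs <;> positivity
    · rw [RRD.degZ_single]
      have : RRD.deg k R = 1 := hRr.deg_eq_one
      rw [this]
      simp
    · rw [Finsupp.single_apply]
      split_ifs with hv
      · rw [← hv]; exact hwR.1
      · rw [neg_zero]; exact hwR.2 v (Ne.symm hv)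
  have hD : LayD k K a m m' w z2 z3 sig ζ ⊥ (h + 1) o (m * (2 ^ a - 1) * 2 ^ J₀) (2 ^ J₀)
      ((m * 2 ^ J₀ + 2) * (m * 2 ^ J₀ + 3)) C (2 ^ J₀) :=
    ⟨hF, hC, by omega, hO, hLL, ⟨T, hT, hTp⟩, hPol, ⟨R, hRw⟩, hP⟩
  obtain ⟨K', fK', aK', cK', w', z₂', z₃', sig', Lam, B', C', -, hD', hB', hC'⟩ :=
    hD.layers ha hz hpos hk i hi
  have e0 : 2 ^ i * 2 ^ J₀ = 2 ^ J := by rw [hJ, pow_add, mul_comm]
  have e1 : 2 ^ i * (m * (2 ^ a - 1) * 2 ^ J₀) = m * (2 ^ a - 1) * 2 ^ J := by rw [← e0]; ring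
  rw [e1, e0] at hD'
  have hhm : h ≤ m * 2 ^ J₀ := by omega
  have hh : 2 ^ i * h ≤ m * 2 ^ J := by
    calc 2 ^ i * h ≤ 2 ^ i * (m * 2 ^ J₀) := Nat.mul_le_mul_left _ hhm
      _ = m * 2 ^ J := by rw [← e0]; ring
  have hJJ : 2 ^ J₀ ≤ 2 ^ J := Nat.pow_le_pow_right (by norm_num) (by omega)
  have h2i : 2 ^ i ≤ 2 ^ a := Nat.pow_le_pow_right (by norm_num) hi
  refine ⟨K', fK', aK', cK', w', z₂', z₃', sig', Lam, _, _, B', C', hD', by omega, ?_, ?_, ?_⟩
  · calc 2 ^ i * o ≤ 2 ^ i * (2 ^ J₀ + 1) := Nat.mul_le_mul_left _ ho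
      _ = 2 ^ J + 2 ^ i := by rw [← e0]; ring
      _ ≤ 2 ^ J + 2 ^ a := Nat.add_le_add_left h2i _
  · refine hB'.trans (max_le ?_ ?_)
    · exact Nat.mul_le_mul (Nat.add_le_add_right (Nat.mul_le_mul_left _ hJJ) _)
        (Nat.add_le_add_right (Nat.mul_le_mul_left _ hJJ) _)
    · exact Nat.mul_le_mul (by omega) (by omega)
  · refine hC'.trans ?_
    have h1 : C + 1 ≤ 2 ^ J₀ * (4 * m * J₀ + 7) := by omega
    have h2 : h + 1 ≤ 2 ^ J₀ * (m + 1) := by
      have : 1 ≤ 2 ^ J₀ := Nat.one_le_two_pow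
      have e : 2 ^ J₀ * (m + 1) = m * 2 ^ J₀ + 2 ^ J₀ := by ring
      rw [e]
      omega
    calc 2 ^ i * (C + 1 + 2 * i * (h + 1))
        ≤ 2 ^ i * (2 ^ J₀ * (4 * m * J₀ + 7) + 2 * i * (2 ^ J₀ * (m + 1))) :=
          Nat.mul_le_mul_left _ (Nat.add_le_add h1 (Nat.mul_le_mul_left _ h2))
      _ = 2 ^ J * (4 * m * J₀ + 7 + 2 * i * (m + 1)) := by rw [← e0]; ring
      _ ≤ 2 ^ J * (4 * m * J + 7 + 2 * a) := by
          refine Nat.mul_le_mul_left _ ?_
          rw [hJ]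
          have h3 : 2 * i * (m + 1) = 2 * (m * i) + 2 * i := by ring
          have h4 : 4 * m * (J₀ + i) = 4 * m * J₀ + 4 * (m * i) := by ring
          rw [h3, h4]
          omega

end Pool.Agent.FF
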