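import Pool.Agent.FF.TmQuot
import Pool.Agent.FF.TowerOf
import Pool.Agent.FF.AssemN
import Pool.Agent.FF.Lay2
import Pool.Agent.FF.Main

/-!
# The towers of the quotients
-/

set_option autoImplicit false

namespace Pool.Agent.FF

/-- The fields of the tower with their automorphism, at every large level. -/
def LayEx (k : Type) [Field k] [Finite k] (a m m' : ℕ) : Prop :=
  ∃ ζ : k, IsPrimitiveRoot ζ m' ∧ ∀ N i J : ℕ, 3 ≤ N → i < a → J = a * (N - 1) + i →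
    ∃ (K : Type) (_ : Field K) (_ : Algebra k K) (_ : CharP K 2) (w z₂ z₃ : K) (sig : K ≃ₐ[k] K)
      (Lam : AddSubgroup k) (g n B C : ℕ),
      LayD k K a m m' w z₂ z₃ sig ζ Lam g n (m * (2 ^ a - 1) * 2 ^ J) (2 ^ J) B C (2 ^ J) ∧
      g ≤ m * 2 ^ J + 1 ∧ n ≤ 2 ^ J + 2 ^ a ∧ B ≤ (m * 2 ^ J + 2) * (m * 2 ^ J + 3) ∧
      C + 1 ≤ 2 ^ J * (4 * m * J + 7 + 2 * a)

theorem layEx {k : Type} [Field k] [Finite k] [CharP k 2] {a m m' : ℕ} (ha : 1 ≤ a)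
    (hk : Nat.card k = (2 ^ a) ^ 2) (hm : Odd m) (hml : m ∣ 2 ^ a + 1) (hm'1 : 1 ≤ m')
    (hm'l : m' ∣ 2 ^ a - 1) : LayEx k a m m' := by
  obtain ⟨ζ, hζ⟩ := exists_zeta hk ha hm'l
  exact ⟨ζ, hζ, fun N i J hN hi hJ => exists_lay ha hk hm hml hm'1 hm'l hζ hN hi.le hJ⟩

/-- One quotient. -/
theorem exists_quot {k : Type} [Field k] [Finite k] {a m m' : ℕ} (ha : 1 ≤ a)
    (hk : Nat.card k = (2 ^ a) ^ 2) (hm' : Odd m') (H : LayEx k a m m') :
    ∃ A : ℕ, 1 ≤ A ∧ ∀ j : ℕ, 2 * a ≤ j →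
    ∃ (K : Type) (_ : Field K) (_ : Algebra k K) (_ : CharP K 2) (g' n : ℕ) (T' : Finset (DV K)),
      IsFF k K ∧ Cv k K g' ∧ m' * g' ≤ m * 2 ^ j + 1 + m' ∧ Ob K g' ∧ Ob K n ∧
      n ≤ 2 ^ j + 2 ^ a ∧ (∀ v ∈ T', v.Rat k) ∧ m * (2 ^ a - 1) * 2 ^ j ≤ m' * T'.card ∧
      ∀ r : ℕ, A * (j + 1) ≤ r → ∃ v : DV K, v.deg (Nat.card k) = r := by
  obtain ⟨ζ, hζ, H⟩ := H
  obtain ⟨A, hA1, hA⟩ := place_ineq a (m + a + 1) (2 * m') ha
  refine ⟨A, hA1, fun j hj => ?_⟩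
  obtain ⟨K, _, _, _, w, z₂, z₃, sig, Lam, g, n, B, C, h, hg, hn, hB, hC⟩ :=
    H (j / a + 1) (j % a) j (by
      have : 2 ≤ j / a := by rw [Nat.le_div_iff_mul_le (by omega)]; omega
      omega) (Nat.mod_lt _ (by omega)) (by
      rw [Nat.add_sub_cancel]
      exact (Nat.div_add_mod j a).symm)
  obtain ⟨T, hTc, hT⟩ := h.pts
  obtain ⟨D, hD, hDN, hDw⟩ := h.pol
  obtain ⟨K', iF, iA, iC, g', T', h1, h2, h3, h4, h5, h6, h7, h8⟩ :=
    quot ha hk hm' h.lev.w_ne sig hζ h.lev.sw h.lev.per h.ff h.cv h.ob T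
      (fun v hv => ⟨(hT v hv).1, (hT v hv).2.1⟩) hD hDN hDw h.pole h.pl
  refine ⟨K', iF, iA, iC, g', n, T', h1, h2, by omega, h4, h5, hn, h6, hTc.trans h7, fun r hr => ?_⟩
  obtain ⟨e1, e2⟩ := hA j r hr
  have hr1 : 1 ≤ r := by
    have : 1 ≤ A * (j + 1) := Nat.mul_pos hA1 (Nat.succ_pos j)
    omega
  refine h8 r hr1 (hB.trans (le_trans ?_ e1)) (lt_of_le_of_lt ?_ e2)
  · have h9 : m * 2 ^ j ≤ (m + a + 1) * 2 ^ j := Nat.mul_le_mul_right _ (by omega)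
    exact Nat.mul_le_mul (by omega) (by omega)
  · have h9 : C ≤ 2 ^ j * (4 * (m + a + 1) * j + 7) := by
      refine (Nat.le_succ C).trans (hC.trans (Nat.mul_le_mul_left _ ?_))
      have h10 : 4 * (m + a + 1) * j = 4 * m * j + 4 * (a + 1) * j := by ring
      have h11 : 4 * (a + 1) * 1 ≤ 4 * (a + 1) * j := Nat.mul_le_mul_left _ (by omega)
      omega
    have h12 : r * (m' * 2 ^ j) + m' * 2 ^ j ≤ r * 2 ^ j * (1 + 2 * m') := by
      have h13 : m' * 2 ^ j ≤ r * (m' * 2 ^ j) := Nat.le_mul_of_pos_left _ hr1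
      have h14 : r * 2 ^ j * (1 + 2 * m') = r * 2 ^ j + 2 * (r * (m' * 2 ^ j)) := by ring
      rw [h14]
      omega
    omega

/-- The start of a tower: the rational function field. -/
theorem exists_start {k : Type} [Field k] [Finite k] [CharP k 2] {a : ℕ} (ha : 1 ≤ a)
    (hk : Nat.card k = (2 ^ a) ^ 2) : ∃ A : ℕ, ∃ (K : Type) (_ : Field K) (_ : Algebra k K)
      (_ : CharP K 2), IsFF k K ∧ Cv k K 0 ∧ Ob K 0 ∧
      ∀ r : ℕ, A ≤ r → ∃ v : DV K, v.deg (Nat.card k) = r := by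
  obtain ⟨A, hA1, hA⟩ := place_ineq a 0 (Nat.card k) ha
  have : CharP (RatFunc k) 2 :=
    charP_of_injective_algebraMap (algebraMap k (RatFunc k)).injective 2
  refine ⟨A, RatFunc k, inferInstance, inferInstance, inferInstance, Rat.isFF k, Rat.cv, Ob.base,
    fun r hr => ?_⟩
  obtain ⟨e1, e2⟩ := hA 0 r (by omega)
  refine (HasPl.base k).exists_place Rat.cv (by omega) (e := a * r) rfl ?_ (Nat.zero_le _) ?_
  · rw [hk, ← pow_mul, ← pow_mul, ← pow_mul]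
    congr 1
    ring
  · simp only [pow_zero, mul_one, mul_zero, add_zero] at e2 ⊢
    omega

/-- **The towers of the quotients.** -/
theorem towerN_quot' {k : Type} [Field k] [Finite k] [CharP k 2] {a m m' : ℕ} (ha : 1 ≤ a)
    (hk : Nat.card k = (2 ^ a) ^ 2) (hm' : Odd m') (H : LayEx k a m m') :
    TowerN k (m / m', m / m', (2 ^ a - 1) * m / m') ∧
      TowerN k (m / m', 1, (2 ^ a - 1) * m / m') := by
  obtain ⟨A₁, hA₁, H₁⟩ := exists_quot ha hk hm' H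
  obtain ⟨A₀, K₀, iF₀, iA₀, iC₀, hFF₀, hCv₀, hOb₀, hP₀⟩ := exists_start ha hk
  have hm'0 : (0 : ℝ) < m' := by exact_mod_cast hm'.pos
  have hm'1 : (1 : ℝ) ≤ m' := by exact_mod_cast hm'.pos
  have hmm : (0 : ℝ) ≤ m / m' := by positivity
  have hl : (1 : ℝ) ≤ 2 ^ a := one_le_pow₀ (by norm_num)
  set ν : ℝ := (2 ^ a - 1) * m / m' with hν
  have hν0 : 0 ≤ ν := by
    rw [hν]
    have : (0 : ℝ) ≤ 2 ^ a - 1 := by linarith
    positivity
  set b : ℝ := 2 + 2 ^ a + ν * 2 ^ (2 * a) with hb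
  have hb1 : 0 ≤ ν * 2 ^ (2 * a) := by positivity
  have key : ∀ j : ℕ, ∃ (K : Type) (_ : Field K) (_ : Algebra k K) (_ : CharP K 2) (g n : ℕ)
      (T : Finset (DV K)), IsFF k K ∧ Cv k K g ∧ (g : ℝ) ≤ b + m / m' * 2 ^ j ∧ Ob K g ∧ Ob K n ∧
      (n : ℝ) ≤ b + 2 ^ j ∧ (∀ P ∈ T, P.Rat k) ∧ ν * 2 ^ j - b ≤ T.card ∧
      ∀ r : ℕ, (A₀ + A₁) * (j + 1) ≤ r → ∃ Q : DV K, Q.deg (Nat.card k) = r := by
    intro j
    rcases lt_or_ge j (2 * a) with hj | hj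
    · refine ⟨K₀, iF₀, iA₀, iC₀, 0, 0, ∅, hFF₀, hCv₀, ?_, hOb₀, hOb₀, ?_, by simp, ?_, fun r hr => ?_⟩
      · have : (0 : ℝ) ≤ m / m' * 2 ^ j := by positivity
        push_cast
        linarith
      · have : (0 : ℝ) ≤ 2 ^ j := by positivity
        push_cast
        linarith
      · have h1 : (2 : ℝ) ^ j ≤ 2 ^ (2 * a) := pow_le_pow_right₀ (by norm_num) hj.le
        have h2 := mul_le_mul_of_nonneg_left h1 hν0
        simp only [Finset.card_empty, Nat.cast_zero]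
        linarith
      · refine hP₀ r (le_trans ?_ hr)
        calc A₀ ≤ (A₀ + A₁) * 1 := by omega
          _ ≤ (A₀ + A₁) * (j + 1) := Nat.mul_le_mul_left _ (by omega)
    · obtain ⟨K, iF, iA, iC, g, n, T, h1, h2, h3, h4, h5, h6, h7, h8, h9⟩ := H₁ j hj
      refine ⟨K, iF, iA, iC, g, n, T, h1, h2, ?_, h4, h5, ?_, h7, ?_, fun r hr => h9 r (le_trans ?_ hr)⟩
      · have e1 : (m' : ℝ) * g ≤ m * 2 ^ j + 1 + m' := by exact_mod_cast h3
        have e2 : (g : ℝ) ≤ m / m' * 2 ^ j + 2 := by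
          have e3 : (m' : ℝ) * g ≤ m' * (m / m' * 2 ^ j + 2) := by
            have : (m' : ℝ) * (m / m' * 2 ^ j + 2) = m * 2 ^ j + 2 * m' := by
              field_simp
            rw [this]
            linarith
          exact le_of_mul_le_mul_left e3 hm'0
        linarith
      · have e1 : (n : ℝ) ≤ 2 ^ j + 2 ^ a := by exact_mod_cast h6
        linarith
      · have e1 : ((m * (2 ^ a - 1) * 2 ^ j : ℕ) : ℝ) ≤ ((m' * T.card : ℕ) : ℝ) := by
          exact_mod_cast h8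
        push_cast [Nat.cast_sub (Nat.one_le_two_pow : 1 ≤ 2 ^ a)] at e1
        have e2 : ν * 2 ^ j ≤ T.card := by
          have e3 : (m' : ℝ) * (ν * 2 ^ j) ≤ m' * T.card := by
            have : (m' : ℝ) * (ν * 2 ^ j) = m * (2 ^ a - 1) * 2 ^ j := by
              rw [hν]
              field_simp
            rw [this]
            exact e1
          exact le_of_mul_le_mul_left e3 hm'0
        linarith
      · exact Nat.mul_le_mul_right _ (by omega)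
  refine ⟨⟨A₀ + A₁, b, fun j => ?_⟩, ⟨A₀ + A₁, b, fun j => ?_⟩⟩
  · obtain ⟨K, iF, iA, iC, g, n, T, h1, h2, h3, h4, h5, h6, h7, h8, h9⟩ := key j
    exact ⟨K, iF, iA, iC, g, g, T, h1, h2, h3, h4, h3, h7, h8, h9⟩
  · obtain ⟨K, iF, iA, iC, g, n, T, h1, h2, h3, h4, h5, h6, h7, h8, h9⟩ := key j
    exact ⟨K, iF, iA, iC, g, n, T, h1, h2, h3, h5, by simpa using h6, h7, h8, h9⟩

/-- **The towers of the quotients** by the group of `m'`-th roots of one of the curves with parameter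
`m`. -/
theorem towerN_quot {k : Type} [Field k] {a m m' : ℕ} (ha : 1 ≤ a)
    (hk : Nat.card k = (2 ^ a) ^ 2) (hml : m ∣ 2 ^ a + 1) (hm'l : m' ∣ 2 ^ a - 1) :
    TowerN k (m / m', m / m', (2 ^ a - 1) * m / m') ∧
      TowerN k (m / m', 1, (2 ^ a - 1) * m / m') := by
  have : Finite k := Nat.finite_of_card_ne_zero (by rw [hk]; positivity)
  have hch : CharP k 2 := charP_two ha hk
  have h2 : 2 ∣ 2 ^ a := dvd_pow_self 2 (by omega)
  have h1 : 1 ≤ 2 ^ a := Nat.one_le_two_pow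
  have hodd : Odd (2 ^ a + 1) := by
    obtain ⟨r, hr⟩ := h2
    exact ⟨r, by omega⟩
  have hodd' : Odd (2 ^ a - 1) := by
    obtain ⟨r, hr⟩ := h2
    exact ⟨r - 1, by omega⟩
  have hm : Odd m := hodd.of_dvd_nat hml
  have hm' : Odd m' := hodd'.of_dvd_nat hm'l
  exact towerN_quot' ha hk hm' (layEx ha hk hm hml hm'.pos hm'l)

end Pool.Agent.FF
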