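import Pool.Agent.FF.AssemE
import Pool.Agent.FF.LPBlock
import Pool.Agent.FF.TowerQ
import Pool.Agent.FF.FinalLL
import Pool.Agent.FF.Final5

/-!
# Lower bounds for `L(q)`, `q = 4, 16, 64, 256, 1024, 4096`
-/

set_option autoImplicit false

namespace Pool.Agent.FF

/-- The first linear programming bound. -/
theorem blk_of_lp {B a κ u : ℕ} (ha : 0 < a) (hB : 2 * a ≤ B)
    (h : B ^ B < 2 ^ κ * (a ^ a * (B - a) ^ (B - a))) (hu : 2 * u ≤ B)
    (hu' : (B - 2 * u) ^ 2 < 4 * a * (B - a)) : Blk B κ u := by
  intro η hη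
  obtain ⟨n₀, hn₀⟩ := LP.lp_block B a κ u ha hB h hu hu'
  refine ⟨n₀, fun n hn => ⟨u * n, ?_, ?_⟩⟩
  · push_cast
    have : (0 : ℝ) ≤ n := Nat.cast_nonneg _
    nlinarith
  · intro ι _ _ hι W _ _ φ hW
    exact hn₀ n hn ι W φ hι hW

/-- A piece with the constants in the form used in `FF.Final5`. -/
theorem pieceE {k : Type} [Field k] [Finite k] {e : ℕ} (he : 1 ≤ e) (hk : Nat.card k = 2 ^ e)
    {lam : ℝ} (hlam : (e : ℝ) = lam) {p : ℝ × ℝ × ℝ} (hp1 : 0 ≤ p.1) (hp2 : 0 ≤ p.2.1)
    (hp3 : 0 ≤ p.2.2) (H : TowerN k p) {B κ : ℕ} {u : ℝ} (hb : Blk B κ u) (hκ : κ < B)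
    (hu : 0 ≤ u) {R β : ℝ} (hR : (κ : ℝ) / B = R) (hβ : 2 * u / ((B : ℝ) - κ) = β) (C : ℝ) :
    _root_.FF.CoversE (EC k) lam C {(p, (R, β))} := by
  have h := coversE_one (k := k) he hp1 hp2 hp3 hκ hu hb hk H C
  rw [hlam, hR, hβ] at h
  exact h

/-- The piece of the Plotkin bound. -/
theorem pieceP {k : Type} [Field k] [Finite k] {e : ℕ} (he : 1 ≤ e) (hk : Nat.card k = 2 ^ e)
    {lam : ℝ} (hlam : (e : ℝ) = lam) {p : ℝ × ℝ × ℝ} (hp1 : 0 ≤ p.1) (hp2 : 0 ≤ p.2.1)
    (hp3 : 0 ≤ p.2.2) (H : TowerN k p) (C : ℝ) :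
    _root_.FF.CoversE (EC k) lam C {(p, (0, 1))} := by
  have h := coversN_one (k := k) he hp1 hp2 hp3 hk H C
  rw [hlam] at h
  exact h.toE

theorem coversE_cons {E : ℕ → ℝ → Prop} {lam C : ℝ} {x : (ℝ × ℝ × ℝ) × (ℝ × ℝ)}
    {D : Set ((ℝ × ℝ × ℝ) × (ℝ × ℝ))} (h : _root_.FF.CoversE E lam C {x})
    (h' : _root_.FF.CoversE E lam C D) : _root_.FF.CoversE E lam C (insert x D) := by
  rw [Set.insert_eq]
  exact h.union h'

theorem be59_4_38 : Blk 59 38 (2 * (4 : ℕ) * (((59 : ℕ) : ℝ) - (4 : ℕ)) / (59 : ℕ)) :=
  blk_eb (by norm_num) (by norm_num) (by decide +kernel)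

theorem bl64_2_13_21 : Blk 64 13 ((21 : ℕ) : ℝ) :=
  blk_of_lp (a := 2) (by norm_num) (by norm_num) (by decide +kernel) (by norm_num) (by norm_num)

theorem bl66_1_8_25 : Blk 66 8 ((25 : ℕ) : ℝ) :=
  blk_of_lp (a := 1) (by norm_num) (by norm_num) (by decide +kernel) (by norm_num) (by norm_num)

theorem bl70_5_26_17 : Blk 70 26 ((17 : ℕ) : ℝ) :=
  blk_of_lp (a := 5) (by norm_num) (by norm_num) (by decide +kernel) (by norm_num) (by norm_num)

theorem bl75_1_8_29 : Blk 75 8 ((29 : ℕ) : ℝ) :=
  blk_of_lp (a := 1) (by norm_num) (by norm_num) (by decide +kernel) (by norm_num) (by norm_num)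

theorem bl81_4_23_23 : Blk 81 23 ((23 : ℕ) : ℝ) :=
  blk_of_lp (a := 4) (by norm_num) (by norm_num) (by decide +kernel) (by norm_num) (by norm_num)

theorem bl88_2_14_31 : Blk 88 14 ((31 : ℕ) : ℝ) :=
  blk_of_lp (a := 2) (by norm_num) (by norm_num) (by decide +kernel) (by norm_num) (by norm_num)

theorem bl88_11_48_15 : Blk 88 48 ((15 : ℕ) : ℝ) :=
  blk_of_lp (a := 11) (by norm_num) (by norm_num) (by decide +kernel) (by norm_num) (by norm_num)

theorem bl90_3_19_29 : Blk 90 19 ((29 : ℕ) : ℝ) :=
  blk_of_lp (a := 3) (by norm_num) (by norm_num) (by decide +kernel) (by norm_num) (by norm_num)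

theorem bl91_6_32_23 : Blk 91 32 ((23 : ℕ) : ℝ) :=
  blk_of_lp (a := 6) (by norm_num) (by norm_num) (by decide +kernel) (by norm_num) (by norm_num)

theorem bl93_1_8_37 : Blk 93 8 ((37 : ℕ) : ℝ) :=
  blk_of_lp (a := 1) (by norm_num) (by norm_num) (by decide +kernel) (by norm_num) (by norm_num)

theorem bl93_7_36_22 : Blk 93 36 ((22 : ℕ) : ℝ) :=
  blk_of_lp (a := 7) (by norm_num) (by norm_num) (by decide +kernel) (by norm_num) (by norm_num)

theorem bl95_2_14_34 : Blk 95 14 ((34 : ℕ) : ℝ) :=
  blk_of_lp (a := 2) (by norm_num) (by norm_num) (by decide +kernel) (by norm_num) (by norm_num)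

theorem bl95_9_43_20 : Blk 95 43 ((20 : ℕ) : ℝ) :=
  blk_of_lp (a := 9) (by norm_num) (by norm_num) (by decide +kernel) (by norm_num) (by norm_num)

theorem bl96_4_24_29 : Blk 96 24 ((29 : ℕ) : ℝ) :=
  blk_of_lp (a := 4) (by norm_num) (by norm_num) (by decide +kernel) (by norm_num) (by norm_num)

theorem bl138_9_48_35 : Blk 138 48 ((35 : ℕ) : ℝ) :=
  blk_of_lp (a := 9) (by norm_num) (by norm_num) (by decide +kernel) (by norm_num) (by norm_num)

theorem bl1000_6_53_423 : Blk 1000 53 ((423 : ℕ) : ℝ) :=
  blk_of_lp (a := 6) (by norm_num) (by norm_num) (by decide +kernel) (by norm_num) (by norm_num)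

theorem bl3000_1_13_1446 : Blk 3000 13 ((1446 : ℕ) : ℝ) :=
  blk_of_lp (a := 1) (by norm_num) (by norm_num) (by decide +kernel) (by norm_num) (by norm_num)

theorem bl3000_2_24_1423 : Blk 3000 24 ((1423 : ℕ) : ℝ) :=
  blk_of_lp (a := 2) (by norm_num) (by norm_num) (by decide +kernel) (by norm_num) (by norm_num)

theorem bl3000_3_35_1406 : Blk 3000 35 ((1406 : ℕ) : ℝ) :=
  blk_of_lp (a := 3) (by norm_num) (by norm_num) (by decide +kernel) (by norm_num) (by norm_num)

theorem bl3000_5_54_1378 : Blk 3000 54 ((1378 : ℕ) : ℝ) :=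
  blk_of_lp (a := 5) (by norm_num) (by norm_num) (by decide +kernel) (by norm_num) (by norm_num)

theorem bl3000_6_63_1366 : Blk 3000 63 ((1366 : ℕ) : ℝ) :=
  blk_of_lp (a := 6) (by norm_num) (by norm_num) (by decide +kernel) (by norm_num) (by norm_num)

theorem bl3000_8_80_1346 : Blk 3000 80 ((1346 : ℕ) : ℝ) :=
  blk_of_lp (a := 8) (by norm_num) (by norm_num) (by decide +kernel) (by norm_num) (by norm_num)

theorem bl3000_10_97_1328 : Blk 3000 97 ((1328 : ℕ) : ℝ) :=
  blk_of_lp (a := 10) (by norm_num) (by norm_num) (by decide +kernel) (by norm_num) (by norm_num)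

theorem bl3000_12_113_1311 : Blk 3000 113 ((1311 : ℕ) : ℝ) :=
  blk_of_lp (a := 12) (by norm_num) (by norm_num) (by decide +kernel) (by norm_num) (by norm_num)

theorem bl3000_14_129_1296 : Blk 3000 129 ((1296 : ℕ) : ℝ) :=
  blk_of_lp (a := 14) (by norm_num) (by norm_num) (by decide +kernel) (by norm_num) (by norm_num)

theorem bl3000_17_152_1275 : Blk 3000 152 ((1275 : ℕ) : ℝ) :=
  blk_of_lp (a := 17) (by norm_num) (by norm_num) (by decide +kernel) (by norm_num) (by norm_num)

theorem bl3000_21_181_1250 : Blk 3000 181 ((1250 : ℕ) : ℝ) :=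
  blk_of_lp (a := 21) (by norm_num) (by norm_num) (by decide +kernel) (by norm_num) (by norm_num)

theorem bl3000_22_188_1245 : Blk 3000 188 ((1245 : ℕ) : ℝ) :=
  blk_of_lp (a := 22) (by norm_num) (by norm_num) (by decide +kernel) (by norm_num) (by norm_num)

theorem bl3000_23_195_1239 : Blk 3000 195 ((1239 : ℕ) : ℝ) :=
  blk_of_lp (a := 23) (by norm_num) (by norm_num) (by decide +kernel) (by norm_num) (by norm_num)

theorem bl3000_35_275_1178 : Blk 3000 275 ((1178 : ℕ) : ℝ) :=
  blk_of_lp (a := 35) (by norm_num) (by norm_num) (by decide +kernel) (by norm_num) (by norm_num)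

theorem bl3000_68_469_1054 : Blk 3000 469 ((1054 : ℕ) : ℝ) :=
  blk_of_lp (a := 68) (by norm_num) (by norm_num) (by decide +kernel) (by norm_num) (by norm_num)

theorem bl3000_77_517_1026 : Blk 3000 517 ((1026 : ℕ) : ℝ) :=
  blk_of_lp (a := 77) (by norm_num) (by norm_num) (by decide +kernel) (by norm_num) (by norm_num)

theorem bl3000_96_613_973 : Blk 3000 613 ((973 : ℕ) : ℝ) :=
  blk_of_lp (a := 96) (by norm_num) (by norm_num) (by decide +kernel) (by norm_num) (by norm_num)

theorem bl3000_111_686_934 : Blk 3000 686 ((934 : ℕ) : ℝ) :=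
  blk_of_lp (a := 111) (by norm_num) (by norm_num) (by decide +kernel) (by norm_num) (by norm_num)

theorem bl3000_116_709_922 : Blk 3000 709 ((922 : ℕ) : ℝ) :=
  blk_of_lp (a := 116) (by norm_num) (by norm_num) (by decide +kernel) (by norm_num) (by norm_num)

/-- `q = 4` -/
theorem LL_q4 {k : Type} [Field k] (hk : Nat.card k = 4) :
    ENNReal.ofReal (14 / 25) ≤ LL k := by
  have : Finite k := Nat.finite_of_card_ne_zero (by omega)
  have hk1 : Nat.card k = (2 ^ 1) ^ 2 := by rw [hk]; norm_num
  have hk2 : Nat.card k = 2 ^ 2 := by rw [hk]; norm_num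
  have hl : ((2 : ℕ) : ℝ) = 2 := by norm_num
  have t1_1 : TowerN k (1, 1, 1) := by
    have h := (towerN_quot (k := k) (a := 1) (m := 1) (m' := 1) (by norm_num) hk1
      (by norm_num) (by norm_num)).2
    norm_num at h
    exact h
  have t3_1 : TowerN k (3, 1, 3) := by
    have h := (towerN_quot (k := k) (a := 1) (m := 3) (m' := 1) (by norm_num) hk1
      (by norm_num) (by norm_num)).2
    norm_num at h
    exact h
  refine ofReal_le_LL (_root_.FF.final_q4 (EC k) (EC_mono k) ?_)
  refine coversE_cons (pieceE (by norm_num) hk2 hl (by norm_num) (by norm_num) (by norm_num) t1_1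
    bl138_9_48_35 (by norm_num) (by norm_num) (by norm_num) (by norm_num) _) ?_
  exact pieceP (by norm_num) hk2 hl (by norm_num) (by norm_num) (by norm_num) t3_1 _

/-- `q = 16` -/
theorem LL_q16 {k : Type} [Field k] (hk : Nat.card k = 16) :
    ENNReal.ofReal (15 / 8) ≤ LL k := by
  have : Finite k := Nat.finite_of_card_ne_zero (by omega)
  have hk1 : Nat.card k = (2 ^ 2) ^ 2 := by rw [hk]; norm_num
  have hk2 : Nat.card k = 2 ^ 4 := by rw [hk]; norm_num
  have hl : ((4 : ℕ) : ℝ) = 4 := by norm_num
  have t5_3 : TowerN k (5 / 3, 1, 5) := by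
    have h := (towerN_quot (k := k) (a := 2) (m := 5) (m' := 3) (by norm_num) hk1
      (by norm_num) (by norm_num)).2
    norm_num at h
    exact h
  have t1_1 : TowerN k (1, 1, 3) := by
    have h := (towerN_quot (k := k) (a := 2) (m := 1) (m' := 1) (by norm_num) hk1
      (by norm_num) (by norm_num)).2
    norm_num at h
    exact h
  have t5_1 : TowerN k (5, 1, 15) := by
    have h := (towerN_quot (k := k) (a := 2) (m := 5) (m' := 1) (by norm_num) hk1
      (by norm_num) (by norm_num)).2
    norm_num at h
    exact h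
  have t1_3 : TowerN k (1 / 3, 1 / 3, 1) := by
    have h := (towerN_quot (k := k) (a := 2) (m := 1) (m' := 3) (by norm_num) hk1
      (by norm_num) (by norm_num)).1
    norm_num at h
    exact h
  refine ofReal_le_LL (_root_.FF.final_q16 (EC k) (EC_mono k) ?_)
  refine coversE_cons (pieceE (by norm_num) hk2 hl (by norm_num) (by norm_num) (by norm_num) t5_3
    bl70_5_26_17 (by norm_num) (by norm_num) (by norm_num) (by norm_num) _) ?_
  refine coversE_cons (pieceE (by norm_num) hk2 hl (by norm_num) (by norm_num) (by norm_num) t1_1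
    bl88_11_48_15 (by norm_num) (by norm_num) (by norm_num) (by norm_num) _) ?_
  refine coversE_cons (pieceP (by norm_num) hk2 hl (by norm_num) (by norm_num) (by norm_num) t5_1 _) ?_
  exact pieceP (by norm_num) hk2 hl (by norm_num) (by norm_num) (by norm_num) t1_3 _

/-- `q = 64` -/
theorem LL_q64 {k : Type} [Field k] (hk : Nat.card k = 64) :
    ENNReal.ofReal (419 / 100) ≤ LL k := by
  have : Finite k := Nat.finite_of_card_ne_zero (by omega)
  have hk1 : Nat.card k = (2 ^ 3) ^ 2 := by rw [hk]; norm_num
  have hk2 : Nat.card k = 2 ^ 6 := by rw [hk]; norm_num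
  have hl : ((6 : ℕ) : ℝ) = 6 := by norm_num
  have t9_1 : TowerN k (9, 1, 63) := by
    have h := (towerN_quot (k := k) (a := 3) (m := 9) (m' := 1) (by norm_num) hk1
      (by norm_num) (by norm_num)).2
    norm_num at h
    exact h
  have t3_1 : TowerN k (3, 1, 21) := by
    have h := (towerN_quot (k := k) (a := 3) (m := 3) (m' := 1) (by norm_num) hk1
      (by norm_num) (by norm_num)).2
    norm_num at h
    exact h
  have t3_7 : TowerN k (3 / 7, 3 / 7, 3) := by
    have h := (towerN_quot (k := k) (a := 3) (m := 3) (m' := 7) (by norm_num) hk1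
      (by norm_num) (by norm_num)).1
    norm_num at h
    exact h
  refine ofReal_le_LL (_root_.FF.final_q64 (EC k) (EC_mono k) ?_)
  refine coversE_cons (pieceE (by norm_num) hk2 hl (by norm_num) (by norm_num) (by norm_num) t9_1
    bl64_2_13_21 (by norm_num) (by norm_num) (by norm_num) (by norm_num) _) ?_
  refine coversE_cons (pieceE (by norm_num) hk2 hl (by norm_num) (by norm_num) (by norm_num) t3_1
    bl96_4_24_29 (by norm_num) (by norm_num) (by norm_num) (by norm_num) _) ?_
  exact pieceE (by norm_num) hk2 hl (by norm_num) (by norm_num) (by norm_num) t3_7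
    be59_4_38 (by norm_num) (by norm_num) (by norm_num) (by norm_num) _

/-- `q = 256` -/
theorem LL_q256 {k : Type} [Field k] (hk : Nat.card k = 256) :
    ENNReal.ofReal (33 / 4) ≤ LL k := by
  have : Finite k := Nat.finite_of_card_ne_zero (by omega)
  have hk1 : Nat.card k = (2 ^ 4) ^ 2 := by rw [hk]; norm_num
  have hk2 : Nat.card k = 2 ^ 8 := by rw [hk]; norm_num
  have hl : ((8 : ℕ) : ℝ) = 8 := by norm_num
  have t17_5 : TowerN k (17 / 5, 1, 51) := by
    have h := (towerN_quot (k := k) (a := 4) (m := 17) (m' := 5) (by norm_num) hk1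
      (by norm_num) (by norm_num)).2
    norm_num at h
    exact h
  have t17_1 : TowerN k (17, 1, 255) := by
    have h := (towerN_quot (k := k) (a := 4) (m := 17) (m' := 1) (by norm_num) hk1
      (by norm_num) (by norm_num)).2
    norm_num at h
    exact h
  have t17_3 : TowerN k (17 / 3, 1, 85) := by
    have h := (towerN_quot (k := k) (a := 4) (m := 17) (m' := 3) (by norm_num) hk1
      (by norm_num) (by norm_num)).2
    norm_num at h
    exact h
  refine ofReal_le_LL (_root_.FF.final_q256 (EC k) (EC_mono k) ?_)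
  refine coversE_cons (pieceE (by norm_num) hk2 hl (by norm_num) (by norm_num) (by norm_num) t17_5
    bl90_3_19_29 (by norm_num) (by norm_num) (by norm_num) (by norm_num) _) ?_
  refine coversE_cons (pieceE (by norm_num) hk2 hl (by norm_num) (by norm_num) (by norm_num) t17_5
    bl81_4_23_23 (by norm_num) (by norm_num) (by norm_num) (by norm_num) _) ?_
  refine coversE_cons (pieceE (by norm_num) hk2 hl (by norm_num) (by norm_num) (by norm_num) t17_1
    bl93_1_8_37 (by norm_num) (by norm_num) (by norm_num) (by norm_num) _) ?_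
  refine coversE_cons (pieceE (by norm_num) hk2 hl (by norm_num) (by norm_num) (by norm_num) t17_1
    bl95_2_14_34 (by norm_num) (by norm_num) (by norm_num) (by norm_num) _) ?_
  refine coversE_cons (pieceE (by norm_num) hk2 hl (by norm_num) (by norm_num) (by norm_num) t17_1
    bl81_4_23_23 (by norm_num) (by norm_num) (by norm_num) (by norm_num) _) ?_
  refine coversE_cons (pieceE (by norm_num) hk2 hl (by norm_num) (by norm_num) (by norm_num) t17_1
    bl93_7_36_22 (by norm_num) (by norm_num) (by norm_num) (by norm_num) _) ?_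
  refine coversE_cons (pieceE (by norm_num) hk2 hl (by norm_num) (by norm_num) (by norm_num) t17_1
    bl95_9_43_20 (by norm_num) (by norm_num) (by norm_num) (by norm_num) _) ?_
  refine coversE_cons (pieceE (by norm_num) hk2 hl (by norm_num) (by norm_num) (by norm_num) t17_3
    bl93_1_8_37 (by norm_num) (by norm_num) (by norm_num) (by norm_num) _) ?_
  refine coversE_cons (pieceE (by norm_num) hk2 hl (by norm_num) (by norm_num) (by norm_num) t17_3
    bl75_1_8_29 (by norm_num) (by norm_num) (by norm_num) (by norm_num) _) ?_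
  refine coversE_cons (pieceE (by norm_num) hk2 hl (by norm_num) (by norm_num) (by norm_num) t17_3
    bl66_1_8_25 (by norm_num) (by norm_num) (by norm_num) (by norm_num) _) ?_
  refine coversE_cons (pieceE (by norm_num) hk2 hl (by norm_num) (by norm_num) (by norm_num) t17_3
    bl95_2_14_34 (by norm_num) (by norm_num) (by norm_num) (by norm_num) _) ?_
  refine coversE_cons (pieceE (by norm_num) hk2 hl (by norm_num) (by norm_num) (by norm_num) t17_3
    bl96_4_24_29 (by norm_num) (by norm_num) (by norm_num) (by norm_num) _) ?_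
  refine coversE_cons (pieceE (by norm_num) hk2 hl (by norm_num) (by norm_num) (by norm_num) t17_3
    bl91_6_32_23 (by norm_num) (by norm_num) (by norm_num) (by norm_num) _) ?_
  exact pieceE (by norm_num) hk2 hl (by norm_num) (by norm_num) (by norm_num) t17_5
    bl88_2_14_31 (by norm_num) (by norm_num) (by norm_num) (by norm_num) _

/-- `q = 1024` -/
theorem LL_q1024 {k : Type} [Field k] (hk : Nat.card k = 1024) :
    ENNReal.ofReal (31 / 2) ≤ LL k := by
  have : Finite k := Nat.finite_of_card_ne_zero (by omega)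
  have hk1 : Nat.card k = (2 ^ 5) ^ 2 := by rw [hk]; norm_num
  have hk2 : Nat.card k = 2 ^ 10 := by rw [hk]; norm_num
  have hl : ((10 : ℕ) : ℝ) = 10 := by norm_num
  have t3_1 : TowerN k (3, 1, 93) := by
    have h := (towerN_quot (k := k) (a := 5) (m := 3) (m' := 1) (by norm_num) hk1
      (by norm_num) (by norm_num)).2
    norm_num at h
    exact h
  have t33_1 : TowerN k (33, 1, 1023) := by
    have h := (towerN_quot (k := k) (a := 5) (m := 33) (m' := 1) (by norm_num) hk1
      (by norm_num) (by norm_num)).2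
    norm_num at h
    exact h
  have t11_1 : TowerN k (11, 1, 341) := by
    have h := (towerN_quot (k := k) (a := 5) (m := 11) (m' := 1) (by norm_num) hk1
      (by norm_num) (by norm_num)).2
    norm_num at h
    exact h
  refine ofReal_le_LL (_root_.FF.final_q1024 (EC k) (EC_mono k) ?_)
  refine coversE_cons (pieceE (by norm_num) hk2 hl (by norm_num) (by norm_num) (by norm_num) t3_1
    bl3000_96_613_973 (by norm_num) (by norm_num) (by norm_num) (by norm_num) _) ?_
  refine coversE_cons (pieceE (by norm_num) hk2 hl (by norm_num) (by norm_num) (by norm_num) t3_1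
    bl3000_111_686_934 (by norm_num) (by norm_num) (by norm_num) (by norm_num) _) ?_
  refine coversE_cons (pieceE (by norm_num) hk2 hl (by norm_num) (by norm_num) (by norm_num) t3_1
    bl3000_116_709_922 (by norm_num) (by norm_num) (by norm_num) (by norm_num) _) ?_
  refine coversE_cons (pieceE (by norm_num) hk2 hl (by norm_num) (by norm_num) (by norm_num) t33_1
    bl3000_1_13_1446 (by norm_num) (by norm_num) (by norm_num) (by norm_num) _) ?_
  refine coversE_cons (pieceE (by norm_num) hk2 hl (by norm_num) (by norm_num) (by norm_num) t33_1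
    bl3000_17_152_1275 (by norm_num) (by norm_num) (by norm_num) (by norm_num) _) ?_
  refine coversE_cons (pieceE (by norm_num) hk2 hl (by norm_num) (by norm_num) (by norm_num) t33_1
    bl3000_68_469_1054 (by norm_num) (by norm_num) (by norm_num) (by norm_num) _) ?_
  refine coversE_cons (pieceE (by norm_num) hk2 hl (by norm_num) (by norm_num) (by norm_num) t11_1
    bl3000_2_24_1423 (by norm_num) (by norm_num) (by norm_num) (by norm_num) _) ?_
  refine coversE_cons (pieceE (by norm_num) hk2 hl (by norm_num) (by norm_num) (by norm_num) t11_1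
    bl3000_23_195_1239 (by norm_num) (by norm_num) (by norm_num) (by norm_num) _) ?_
  refine coversE_cons (pieceE (by norm_num) hk2 hl (by norm_num) (by norm_num) (by norm_num) t3_1
    bl3000_35_275_1178 (by norm_num) (by norm_num) (by norm_num) (by norm_num) _) ?_
  exact pieceE (by norm_num) hk2 hl (by norm_num) (by norm_num) (by norm_num) t3_1
    bl3000_77_517_1026 (by norm_num) (by norm_num) (by norm_num) (by norm_num) _

/-- `q = 4096` -/
theorem LL_q4096 {k : Type} [Field k] (hk : Nat.card k = 4096) :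
    ENNReal.ofReal (63 / 2) ≤ LL k := by
  have : Finite k := Nat.finite_of_card_ne_zero (by omega)
  have hk1 : Nat.card k = (2 ^ 6) ^ 2 := by rw [hk]; norm_num
  have hk2 : Nat.card k = 2 ^ 12 := by rw [hk]; norm_num
  have hl : ((12 : ℕ) : ℝ) = 12 := by norm_num
  have t65_9 : TowerN k (65 / 9, 1, 455) := by
    have h := (towerN_quot (k := k) (a := 6) (m := 65) (m' := 9) (by norm_num) hk1
      (by norm_num) (by norm_num)).2
    norm_num at h
    exact h
  have t65_1 : TowerN k (65, 1, 4095) := by
    have h := (towerN_quot (k := k) (a := 6) (m := 65) (m' := 1) (by norm_num) hk1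
      (by norm_num) (by norm_num)).2
    norm_num at h
    exact h
  have t13_3 : TowerN k (13 / 3, 1, 273) := by
    have h := (towerN_quot (k := k) (a := 6) (m := 13) (m' := 3) (by norm_num) hk1
      (by norm_num) (by norm_num)).2
    norm_num at h
    exact h
  have t65_7 : TowerN k (65 / 7, 1, 585) := by
    have h := (towerN_quot (k := k) (a := 6) (m := 65) (m' := 7) (by norm_num) hk1
      (by norm_num) (by norm_num)).2
    norm_num at h
    exact h
  have t5_1 : TowerN k (5, 1, 315) := by
    have h := (towerN_quot (k := k) (a := 6) (m := 5) (m' := 1) (by norm_num) hk1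
      (by norm_num) (by norm_num)).2
    norm_num at h
    exact h
  have t65_3 : TowerN k (65 / 3, 1, 1365) := by
    have h := (towerN_quot (k := k) (a := 6) (m := 65) (m' := 3) (by norm_num) hk1
      (by norm_num) (by norm_num)).2
    norm_num at h
    exact h
  have t65_21 : TowerN k (65 / 21, 1, 195) := by
    have h := (towerN_quot (k := k) (a := 6) (m := 65) (m' := 21) (by norm_num) hk1
      (by norm_num) (by norm_num)).2
    norm_num at h
    exact h
  have t13_1 : TowerN k (13, 1, 819) := by
    have h := (towerN_quot (k := k) (a := 6) (m := 13) (m' := 1) (by norm_num) hk1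
      (by norm_num) (by norm_num)).2
    norm_num at h
    exact h
  refine ofReal_le_LL (_root_.FF.final_q4096 (EC k) (EC_mono k) ?_)
  refine coversE_cons (pieceE (by norm_num) hk2 hl (by norm_num) (by norm_num) (by norm_num) t65_9
    bl3000_14_129_1296 (by norm_num) (by norm_num) (by norm_num) (by norm_num) _) ?_
  refine coversE_cons (pieceE (by norm_num) hk2 hl (by norm_num) (by norm_num) (by norm_num) t65_1
    bl3000_1_13_1446 (by norm_num) (by norm_num) (by norm_num) (by norm_num) _) ?_
  refine coversE_cons (pieceE (by norm_num) hk2 hl (by norm_num) (by norm_num) (by norm_num) t65_1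
    bl3000_5_54_1378 (by norm_num) (by norm_num) (by norm_num) (by norm_num) _) ?_
  refine coversE_cons (pieceE (by norm_num) hk2 hl (by norm_num) (by norm_num) (by norm_num) t65_1
    bl3000_12_113_1311 (by norm_num) (by norm_num) (by norm_num) (by norm_num) _) ?_
  refine coversE_cons (pieceE (by norm_num) hk2 hl (by norm_num) (by norm_num) (by norm_num) t13_3
    bl3000_6_63_1366 (by norm_num) (by norm_num) (by norm_num) (by norm_num) _) ?_
  refine coversE_cons (pieceE (by norm_num) hk2 hl (by norm_num) (by norm_num) (by norm_num) t65_7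
    bl3000_2_24_1423 (by norm_num) (by norm_num) (by norm_num) (by norm_num) _) ?_
  refine coversE_cons (pieceE (by norm_num) hk2 hl (by norm_num) (by norm_num) (by norm_num) t65_7
    bl3000_6_63_1366 (by norm_num) (by norm_num) (by norm_num) (by norm_num) _) ?_
  refine coversE_cons (pieceE (by norm_num) hk2 hl (by norm_num) (by norm_num) (by norm_num) t65_7
    bl3000_12_113_1311 (by norm_num) (by norm_num) (by norm_num) (by norm_num) _) ?_
  refine coversE_cons (pieceE (by norm_num) hk2 hl (by norm_num) (by norm_num) (by norm_num) t5_1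
    bl3000_5_54_1378 (by norm_num) (by norm_num) (by norm_num) (by norm_num) _) ?_
  refine coversE_cons (pieceE (by norm_num) hk2 hl (by norm_num) (by norm_num) (by norm_num) t5_1
    bl3000_10_97_1328 (by norm_num) (by norm_num) (by norm_num) (by norm_num) _) ?_
  refine coversE_cons (pieceE (by norm_num) hk2 hl (by norm_num) (by norm_num) (by norm_num) t65_3
    bl3000_3_35_1406 (by norm_num) (by norm_num) (by norm_num) (by norm_num) _) ?_
  refine coversE_cons (pieceE (by norm_num) hk2 hl (by norm_num) (by norm_num) (by norm_num) t65_3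
    bl3000_8_80_1346 (by norm_num) (by norm_num) (by norm_num) (by norm_num) _) ?_
  refine coversE_cons (pieceE (by norm_num) hk2 hl (by norm_num) (by norm_num) (by norm_num) t65_3
    bl3000_14_129_1296 (by norm_num) (by norm_num) (by norm_num) (by norm_num) _) ?_
  refine coversE_cons (pieceE (by norm_num) hk2 hl (by norm_num) (by norm_num) (by norm_num) t65_3
    bl1000_6_53_423 (by norm_num) (by norm_num) (by norm_num) (by norm_num) _) ?_
  refine coversE_cons (pieceE (by norm_num) hk2 hl (by norm_num) (by norm_num) (by norm_num) t65_3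
    bl3000_21_181_1250 (by norm_num) (by norm_num) (by norm_num) (by norm_num) _) ?_
  refine coversE_cons (pieceE (by norm_num) hk2 hl (by norm_num) (by norm_num) (by norm_num) t65_3
    bl3000_22_188_1245 (by norm_num) (by norm_num) (by norm_num) (by norm_num) _) ?_
  refine coversE_cons (pieceE (by norm_num) hk2 hl (by norm_num) (by norm_num) (by norm_num) t65_21
    bl3000_1_13_1446 (by norm_num) (by norm_num) (by norm_num) (by norm_num) _) ?_
  refine coversE_cons (pieceE (by norm_num) hk2 hl (by norm_num) (by norm_num) (by norm_num) t65_21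
    bl3000_2_24_1423 (by norm_num) (by norm_num) (by norm_num) (by norm_num) _) ?_
  refine coversE_cons (pieceE (by norm_num) hk2 hl (by norm_num) (by norm_num) (by norm_num) t65_21
    bl3000_5_54_1378 (by norm_num) (by norm_num) (by norm_num) (by norm_num) _) ?_
  refine coversE_cons (pieceE (by norm_num) hk2 hl (by norm_num) (by norm_num) (by norm_num) t13_1
    bl3000_3_35_1406 (by norm_num) (by norm_num) (by norm_num) (by norm_num) _) ?_
  refine coversE_cons (pieceE (by norm_num) hk2 hl (by norm_num) (by norm_num) (by norm_num) t13_1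
    bl3000_8_80_1346 (by norm_num) (by norm_num) (by norm_num) (by norm_num) _) ?_
  refine coversE_cons (pieceE (by norm_num) hk2 hl (by norm_num) (by norm_num) (by norm_num) t13_1
    bl3000_14_129_1296 (by norm_num) (by norm_num) (by norm_num) (by norm_num) _) ?_
  refine coversE_cons (pieceE (by norm_num) hk2 hl (by norm_num) (by norm_num) (by norm_num) t65_9
    bl3000_2_24_1423 (by norm_num) (by norm_num) (by norm_num) (by norm_num) _) ?_
  refine coversE_cons (pieceE (by norm_num) hk2 hl (by norm_num) (by norm_num) (by norm_num) t65_9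
    bl3000_6_63_1366 (by norm_num) (by norm_num) (by norm_num) (by norm_num) _) ?_
  exact pieceE (by norm_num) hk2 hl (by norm_num) (by norm_num) (by norm_num) t65_9
    bl3000_12_113_1311 (by norm_num) (by norm_num) (by norm_num) (by norm_num) _

end Pool.Agent.FF
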