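import Pool.Agent.FF.TowerQ
import Pool.Agent.FF.MainN

/-!
# Lower bounds for `L(q)`, `q = 16, 64, 256`, with the quotients of the towers
-/

set_option autoImplicit false

namespace Pool.Agent.FF

theorem LL_sixteen_q {k : Type} [Field k] (hk : Nat.card k = 16) :
    ENNReal.ofReal (20 / 11) ≤ LL k := by
  have hk' : Nat.card k = (2 ^ 2) ^ 2 := by rw [hk]; norm_num
  have h1 := (towerN_quot (k := k) (a := 2) (m := 1) (m' := 3) (by norm_num) hk' (by norm_num)
    (by norm_num)).1
  have h2 := (towerN_quot (k := k) (a := 2) (m := 5) (m' := 3) (by norm_num) hk' (by norm_num)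
    (by norm_num)).2
  norm_num at h1 h2
  exact LL_sixteen_of_one hk h1 h2

theorem LL_sixtyfour_q {k : Type} [Field k] (hk : Nat.card k = 64) :
    ENNReal.ofReal (294 / 73) ≤ LL k := by
  have hk' : Nat.card k = (2 ^ 3) ^ 2 := by rw [hk]; norm_num
  have h1 := (towerN_quot (k := k) (a := 3) (m := 9) (m' := 7) (by norm_num) hk' (by norm_num)
    (by norm_num)).1
  have h2 := (towerN_quot (k := k) (a := 3) (m := 3) (m' := 7) (by norm_num) hk' (by norm_num)
    (by norm_num)).1
  norm_num at h1 h2
  exact LL_sixtyfour_of hk h1 h2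

theorem LL_twofiftysix_q {k : Type} [Field k] (hk : Nat.card k = 256) :
    ENNReal.ofReal (1224 / 161) ≤ LL k := by
  have hk' : Nat.card k = (2 ^ 4) ^ 2 := by rw [hk]; norm_num
  have h1 := (towerN_quot (k := k) (a := 4) (m := 17) (m' := 3) (by norm_num) hk' (by norm_num)
    (by norm_num)).2
  have h2 := (towerN_quot (k := k) (a := 4) (m := 17) (m' := 5) (by norm_num) hk' (by norm_num)
    (by norm_num)).2
  norm_num at h1 h2
  exact LL_twofiftysix_of hk h1 h2

end Pool.Agent.FF
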