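import Mathlib

/-!
# Choosing a double cover with many split points

`W` is a finite elementary group of quadratic classes, `W₀` the unramified ones, `lam P` the
splitting functional of the rational point `P`.  If `2 ^ (#B + t) * #W₀ ≤ #W` then some class
outside `W₀` splits all points of `B` and about half of the others.
-/

namespace FF

open Finset

variable {W : Type*} [AddCommGroup W] [Finite W]

/-- The kernel of a homomorphism to `ZMod 2` contains at least half of every subgroup. -/
theorem card_le_two_mul_card_inf_ker (U : AddSubgroup W) (lam : W →+ ZMod 2) :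
    Nat.card U ≤ 2 * Nat.card (U ⊓ lam.ker : AddSubgroup W) := by
  classical
  cases nonempty_fintype W
  have e1 : Nat.card U = (univ.filter fun w : W => w ∈ U).card := by
    rw [Nat.card_eq_fintype_card, Fintype.card_subtype]
  have e2 : Nat.card (U ⊓ lam.ker : AddSubgroup W) =
      (univ.filter fun w : W => w ∈ U ∧ lam w = 0).card := by
    rw [Nat.card_eq_fintype_card, Fintype.card_subtype]
    congr 1
    ext w
    simp [AddSubgroup.mem_inf, AddMonoidHom.mem_ker]
  rw [e1, e2]
  have e3 : (univ.filter fun w : W => w ∈ U).card =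
      (univ.filter fun w : W => w ∈ U ∧ lam w = 0).card +
      (univ.filter fun w : W => w ∈ U ∧ ¬ lam w = 0).card := by
    rw [← card_union_of_disjoint]
    · congr 1
      ext w
      simp only [mem_filter, mem_univ, true_and, mem_union]
      tauto
    · rw [disjoint_left]
      intro w hw hw'
      simp only [mem_filter, mem_univ, true_and] at hw hw'
      exact hw'.2 hw.2
  have e4 : (univ.filter fun w : W => w ∈ U ∧ ¬ lam w = 0).card ≤
      (univ.filter fun w : W => w ∈ U ∧ lam w = 0).card := by
    by_cases h : ∃ u₁ ∈ U, ¬ lam u₁ = 0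
    · obtain ⟨u₁, hu₁, hl⟩ := h
      apply card_le_card_of_injOn (fun w => w + u₁)
      · intro w hw
        simp only [coe_filter, mem_univ, true_and, Set.mem_ofPred_eq] at hw ⊢
        refine ⟨U.add_mem hw.1 hu₁, ?_⟩
        rw [map_add]
        have : ∀ a b : ZMod 2, a ≠ 0 → b ≠ 0 → a + b = 0 := by decide
        exact this _ _ hw.2 hl
      · intro a _ b _ hab
        exact add_right_cancel hab
    · push Not at h
      have : (univ.filter fun w : W => w ∈ U ∧ ¬ lam w = 0) = ∅ := by
        rw [filter_eq_empty_iff]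
        intro w _ hw
        exact hw.2 (h w hw.1)
      rw [this]
      simp
  omega

/-- The classes of `U` on which all points of `B` split. -/
def splitOn {ι : Type*} (lam : ι → W →+ ZMod 2) (B : Finset ι) : AddSubgroup W where
  carrier := {w | ∀ P ∈ B, lam P w = 0}
  zero_mem' := fun P _ => map_zero _
  add_mem' := fun {a b} ha hb P hP => by
    rw [map_add, ha P hP, hb P hP, add_zero]
  neg_mem' := fun {a} ha P hP => by
    rw [map_neg, ha P hP, neg_zero]

omit [Finite W] in
theorem mem_splitOn {ι : Type*} {lam : ι → W →+ ZMod 2} {B : Finset ι} {w : W} :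
    w ∈ splitOn lam B ↔ ∀ P ∈ B, lam P w = 0 := Iff.rfl

theorem card_le_pow_mul_card_splitOn {ι : Type*} (lam : ι → W →+ ZMod 2) (B : Finset ι) :
    Nat.card W ≤ 2 ^ B.card * Nat.card (splitOn lam B) := by
  classical
  induction B using Finset.induction_on with
  | empty =>
    have : splitOn lam (∅ : Finset ι) = ⊤ := by
      ext w
      simp [mem_splitOn]
    rw [this, card_empty, pow_zero, one_mul, AddSubgroup.card_top]
  | insert P B hP ih =>
    have h1 := card_le_two_mul_card_inf_ker (splitOn lam B) (lam P)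
    have h2 : splitOn lam B ⊓ (lam P).ker = splitOn lam (insert P B) := by
      ext w
      rw [AddSubgroup.mem_inf, mem_splitOn, mem_splitOn, AddMonoidHom.mem_ker]
      simp only [mem_insert, forall_eq_or_imp]
      tauto
    rw [h2] at h1
    rw [card_insert_of_notMem hP, pow_succ]
    calc Nat.card W ≤ 2 ^ B.card * Nat.card (splitOn lam B) := ih
      _ ≤ 2 ^ B.card * (2 * Nat.card (splitOn lam (insert P B))) := Nat.mul_le_mul_left _ h1
      _ = _ := by ring

/-- **Selection.**  A ramified class splitting all of `B` and about half of `A`. -/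
theorem exists_select {ι : Type*} (W₀ : AddSubgroup W) (lam : ι → W →+ ZMod 2)
    (B A : Finset ι) (t : ℕ) (ht : 1 ≤ t)
    (hcard : 2 ^ (B.card + t) * Nat.card W₀ ≤ Nat.card W) :
    ∃ w : W, w ∉ W₀ ∧ (∀ P ∈ B, lam P w = 0) ∧
      (2 ^ t - 2) * A.card ≤ 2 * (2 ^ t - 1) * (A.filter fun P => lam P w = 0).card := by
  classical
  cases nonempty_fintype W
  set U := splitOn lam B with hU
  set UF : Finset W := univ.filter fun w => w ∈ U with hUF
  set U0 : Finset W := univ.filter fun w => w ∈ U ∧ w ∈ W₀ with hU0
  set UR : Finset W := univ.filter fun w => w ∈ U ∧ w ∉ W₀ with hUR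
  set c : W → ℕ := fun w => (A.filter fun P => lam P w = 0).card with hc
  have hsum : UF.card = U0.card + UR.card := by
    rw [← card_union_of_disjoint]
    · congr 1
      ext w
      simp only [hUF, hU0, hUR, mem_filter, mem_univ, true_and, mem_union]
      tauto
    · rw [disjoint_left]
      intro w hw hw'
      simp only [hU0, hUR, mem_filter, mem_univ, true_and] at hw hw'
      exact hw'.2 hw.2
  have hUcard : Nat.card U = UF.card := by
    rw [Nat.card_eq_fintype_card, Fintype.card_subtype]
  have hU0card : U0.card ≤ Nat.card W₀ := by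
    rw [Nat.card_eq_fintype_card, Fintype.card_subtype]
    apply card_le_card
    intro w hw
    simp only [hU0, mem_filter, mem_univ, true_and] at hw ⊢
    exact hw.2
  have hpos : 0 < Nat.card W₀ := Nat.card_pos
  have hbig : 2 ^ t * Nat.card W₀ ≤ UF.card := by
    have h1 := card_le_pow_mul_card_splitOn lam B
    rw [← hU, hUcard] at h1
    have h2 : 2 ^ B.card * (2 ^ t * Nat.card W₀) ≤ 2 ^ B.card * UF.card := by
      calc 2 ^ B.card * (2 ^ t * Nat.card W₀) = 2 ^ (B.card + t) * Nat.card W₀ := by
            rw [pow_add]; ring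
        _ ≤ Nat.card W := hcard
        _ ≤ _ := h1
    exact Nat.le_of_mul_le_mul_left h2 (by positivity)
  have hbig' : 2 ^ t * U0.card ≤ UF.card := (Nat.mul_le_mul_left _ hU0card).trans hbig
  have h2t : 2 ≤ 2 ^ t := by
    calc 2 = 2 ^ 1 := by norm_num
      _ ≤ 2 ^ t := Nat.pow_le_pow_right (by norm_num) ht
  have hURpos : 0 < UR.card := by
    have h0 : 0 < U0.card := by
      rw [card_pos]
      exact ⟨0, by simp [hU0, U.zero_mem, W₀.zero_mem]⟩
    nlinarith
  -- each point of `A` splits in at least half of `U`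
  have hhalf : ∀ P : ι, UF.card ≤ 2 * ((UF.filter fun w => lam P w = 0).card) := by
    intro P
    have h1 := card_le_two_mul_card_inf_ker U (lam P)
    rw [hUcard] at h1
    refine h1.trans (Nat.mul_le_mul_left _ ?_)
    rw [Nat.card_eq_fintype_card, Fintype.card_subtype]
    apply card_le_card
    intro w hw
    simp only [hUF, mem_filter, mem_univ, true_and, AddSubgroup.mem_inf,
      AddMonoidHom.mem_ker] at hw ⊢
    exact hw
  have hsplit : ∀ P : ι, UF.card ≤ 2 * ((UR.filter fun w => lam P w = 0).card) + 2 * U0.card := by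
    intro P
    have h1 := hhalf P
    have h2 : (UF.filter fun w => lam P w = 0) ⊆ (UR.filter fun w => lam P w = 0) ∪ U0 := by
      intro w hw
      simp only [hUF, hUR, hU0, mem_filter, mem_univ, true_and, mem_union] at hw ⊢
      tauto
    have h3 := (card_le_card h2).trans (card_union_le _ _)
    omega
  have hdouble : ∑ w ∈ UR, c w = ∑ P ∈ A, (UR.filter fun w => lam P w = 0).card := by
    simp only [hc, card_filter]
    rw [sum_comm]
  have hlow : A.card * UF.card ≤ 2 * (∑ w ∈ UR, c w) + A.card * (2 * U0.card) := by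
    rw [hdouble, mul_sum, ← smul_eq_mul (A.card), ← smul_eq_mul (A.card), ← sum_const,
      ← sum_const, ← sum_add_distrib]
    exact sum_le_sum fun P _ => hsplit P
  by_contra hno
  push Not at hno
  have hlt : ∀ w ∈ UR, 2 * (2 ^ t - 1) * c w < (2 ^ t - 2) * A.card := by
    intro w hw
    simp only [hUR, mem_filter, mem_univ, true_and] at hw
    exact hno w hw.2 (fun P hP => mem_splitOn.1 hw.1 P hP)
  have hlt2 : 2 * (2 ^ t - 1) * ∑ w ∈ UR, c w < UR.card * ((2 ^ t - 2) * A.card) := by
    rw [mul_sum, ← smul_eq_mul (UR.card), ← sum_const]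
    exact sum_lt_sum_of_nonempty (card_pos.1 hURpos) hlt
  obtain ⟨T, hT⟩ : ∃ T, 2 ^ t = T + 2 := ⟨2 ^ t - 2, by omega⟩
  rw [hT] at hlt2 hbig'
  have e1 : T + 2 - 1 = T + 1 := by omega
  have e2 : T + 2 - 2 = T := by omega
  rw [e1, e2] at hlt2
  rw [hsum] at hlow hbig'
  have k1 : (T + 1) * (A.card * (U0.card + UR.card)) ≤
      (T + 1) * (2 * (∑ w ∈ UR, c w) + A.card * (2 * U0.card)) := Nat.mul_le_mul_left _ hlow
  have k2 : A.card * ((T + 2) * U0.card) ≤ A.card * (U0.card + UR.card) :=
    Nat.mul_le_mul_left _ hbig'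
  nlinarith [k1, k2, hlt2]

/-- **Selection, all points.**  If there is room, a ramified class splits every point. -/
theorem exists_select_all {ι : Type*} (W₀ : AddSubgroup W) (lam : ι → W →+ ZMod 2)
    (B : Finset ι) (hcard : 2 ^ B.card * Nat.card W₀ < Nat.card W) :
    ∃ w : W, w ∉ W₀ ∧ ∀ P ∈ B, lam P w = 0 := by
  classical
  cases nonempty_fintype W
  by_contra hno
  push Not at hno
  have h1 := card_le_pow_mul_card_splitOn lam B
  have h2 : splitOn lam B ≤ W₀ := by
    intro w hw
    by_contra h
    obtain ⟨P, hP, hP'⟩ := hno w h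
    exact hP' (mem_splitOn.1 hw P hP)
  have h3 : Nat.card (splitOn lam B) ≤ Nat.card W₀ :=
    Nat.card_le_card_of_injective _ (AddSubgroup.inclusion_injective h2)
  have h4 : 2 ^ B.card * Nat.card (splitOn lam B) ≤ 2 ^ B.card * Nat.card W₀ :=
    Nat.mul_le_mul_left _ h3
  omega

end FF
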