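import Mathlib
import Pool.Agent.FF.Select

/-!
# Selection, in the form used for a place `Q` of large degree

`κ` is the residue field of `Q` (the simple principal parts at `Q`), `ι` the set of rational places,
`I ≤ κ × (ι → ZMod 2)` the group of data (principal part at `Q`, splitting behaviour at the rational
places) which come from global functions.  The only hypothesis is that the projection of `I` to `κ` has
index at most `2 ^ g'`.
-/

set_option autoImplicit false

namespace Pool.Agent.FF

open Finset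

variable {κ ι : Type*} [AddCommGroup κ] [Finite κ] [Finite ι]

/-- The elements of `I` with trivial first coordinate. -/
private def sub0 (I : AddSubgroup (κ × (ι → ZMod 2))) : AddSubgroup I :=
  ((AddMonoidHom.fst κ (ι → ZMod 2)).comp I.subtype).ker

omit [Finite κ] [Finite ι] in
private theorem mem_sub0 {I : AddSubgroup (κ × (ι → ZMod 2))} {w : I} :
    w ∈ sub0 I ↔ (w : κ × (ι → ZMod 2)).1 = 0 := by
  rw [sub0, AddMonoidHom.mem_ker]
  rfl

omit [Finite κ] [Finite ι] in
private theorem card_I (I : AddSubgroup (κ × (ι → ZMod 2))) :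
    Nat.card I = Nat.card (I.map (AddMonoidHom.fst κ (ι → ZMod 2))) * Nat.card (sub0 I) := by
  rw [AddSubgroup.card_eq_card_quotient_mul_card_addSubgroup (sub0 I)]
  congr 1
  have h1 : I.map (AddMonoidHom.fst κ (ι → ZMod 2)) =
      ((AddMonoidHom.fst κ (ι → ZMod 2)).comp I.subtype).range := by
    ext x
    simp only [AddSubgroup.mem_map, AddMonoidHom.mem_range, AddMonoidHom.comp_apply,
      AddSubgroup.coe_subtype, Subtype.exists, exists_prop]
  rw [h1]
  exact Nat.card_congr
    (QuotientAddGroup.quotientKerEquivRange ((AddMonoidHom.fst κ (ι → ZMod 2)).comp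
      I.subtype)).toEquiv

/-- The splitting functional of `i` on `I`. -/
private def lam (I : AddSubgroup (κ × (ι → ZMod 2))) (i : ι) : I →+ ZMod 2 :=
  ((Pi.evalAddMonoidHom (fun _ : ι => ZMod 2) i).comp
    (AddMonoidHom.snd κ (ι → ZMod 2))).comp I.subtype

omit [Finite κ] [Finite ι] in
private theorem lam_apply (I : AddSubgroup (κ × (ι → ZMod 2))) (i : ι) (w : I) :
    lam I i w = (w : κ × (ι → ZMod 2)).2 i := rfl

/-- **Selection.**  If the projection of `I` to `κ` has index at most `2 ^ g'` and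
`2 ^ (g' + #B + t) ≤ #κ`, then some element of `I` with nonzero first coordinate vanishes on `B` and on
about half of `A`. -/
theorem exists_select_sub (I : AddSubgroup (κ × (ι → ZMod 2))) (g' t : ℕ) (ht : 1 ≤ t)
    (B A : Finset ι)
    (hI : Nat.card κ ≤ 2 ^ g' * Nat.card (I.map (AddMonoidHom.fst κ (ι → ZMod 2))))
    (hbig : 2 ^ (g' + B.card + t) ≤ Nat.card κ) :
    ∃ w ∈ I, w.1 ≠ 0 ∧ (∀ i ∈ B, w.2 i = 0) ∧
      (2 ^ t - 2) * A.card ≤ 2 * (2 ^ t - 1) * (A.filter fun i => w.2 i = 0).card := by
  classical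
  have hcard : 2 ^ (B.card + t) * Nat.card (sub0 I) ≤ Nat.card I := by
    rw [card_I]
    refine Nat.mul_le_mul_right _ ?_
    have h1 : 2 ^ g' * 2 ^ (B.card + t) ≤
        2 ^ g' * Nat.card (I.map (AddMonoidHom.fst κ (ι → ZMod 2))) := by
      rw [← pow_add, ← add_assoc]
      exact hbig.trans hI
    exact Nat.le_of_mul_le_mul_left h1 (by positivity)
  obtain ⟨w, hw0, hwB, hwA⟩ := _root_.FF.exists_select (sub0 I) (lam I) B A t ht hcard
  refine ⟨w, w.2, fun h => hw0 (mem_sub0.2 h), fun i hi => hwB i hi, ?_⟩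
  convert hwA using 4
  rw [lam_apply]

/-- **Selection, all points.** -/
theorem exists_select_sub_all (I : AddSubgroup (κ × (ι → ZMod 2))) (g' : ℕ) (B : Finset ι)
    (hI : Nat.card κ ≤ 2 ^ g' * Nat.card (I.map (AddMonoidHom.fst κ (ι → ZMod 2))))
    (hbig : 2 ^ (g' + B.card) < Nat.card κ) :
    ∃ w ∈ I, w.1 ≠ 0 ∧ ∀ i ∈ B, w.2 i = 0 := by
  classical
  have hcard : 2 ^ B.card * Nat.card (sub0 I) < Nat.card I := by
    rw [card_I]
    refine Nat.mul_lt_mul_of_pos_right ?_ Nat.card_pos
    have h1 : 2 ^ g' * 2 ^ B.card <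
        2 ^ g' * Nat.card (I.map (AddMonoidHom.fst κ (ι → ZMod 2))) := by
      rw [← pow_add]
      exact hbig.trans_le hI
    exact Nat.lt_of_mul_lt_mul_left h1
  obtain ⟨w, hw0, hwB⟩ := _root_.FF.exists_select_all (sub0 I) (lam I) B hcard
  exact ⟨w, w.2, fun h => hw0 (mem_sub0.2 h), fun i hi => hwB i hi⟩

/-- **Selection, counted.**  For every `k ≤ #ι` with `2 ^ (g' + k + t) ≤ #κ` there is an element of `I`
with nonzero first coordinate and at least `k + (#ι - k) / 2 · (1 - 1 / (2 ^ t - 1))` vanishing second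
coordinates. -/
theorem exists_select_count (I : AddSubgroup (κ × (ι → ZMod 2))) (g' t k : ℕ) (ht : 1 ≤ t)
    (hk : k ≤ Nat.card ι)
    (hI : Nat.card κ ≤ 2 ^ g' * Nat.card (I.map (AddMonoidHom.fst κ (ι → ZMod 2))))
    (hbig : 2 ^ (g' + k + t) ≤ Nat.card κ) :
    ∃ w ∈ I, w.1 ≠ 0 ∧
      2 * (2 ^ t - 1) * k + (2 ^ t - 2) * (Nat.card ι - k) ≤
        2 * (2 ^ t - 1) * Nat.card {i : ι // w.2 i = 0} := by
  classical
  have := Fintype.ofFinite ι
  obtain ⟨B, -, hB⟩ := Finset.exists_subset_card_eq (s := (univ : Finset ι)) (n := k)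
    (by rw [card_univ, ← Nat.card_eq_fintype_card]; exact hk)
  obtain ⟨w, hwI, hw1, hwB, hwA⟩ := exists_select_sub I g' t ht B (univ \ B) hI (by rwa [hB])
  refine ⟨w, hwI, hw1, ?_⟩
  have h1 : (univ \ B).card = Nat.card ι - k := by
    rw [card_sdiff_of_subset (subset_univ B), card_univ, hB, Nat.card_eq_fintype_card]
  have h2 : Nat.card {i : ι // w.2 i = 0} = B.card + ((univ \ B).filter fun i => w.2 i = 0).card := by
    rw [Nat.card_eq_fintype_card, Fintype.card_subtype, ← card_union_of_disjoint]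
    · congr 1
      ext i
      simp only [mem_filter, mem_univ, true_and, mem_union, mem_sdiff]
      constructor
      · intro h
        by_cases hi : i ∈ B
        · exact Or.inl hi
        · exact Or.inr ⟨hi, h⟩
      · rintro (h | h)
        · exact hwB i h
        · exact h.2
    · rw [disjoint_left]
      intro i hi hi'
      simp only [mem_filter, mem_sdiff, mem_univ, true_and] at hi'
      exact hi'.1 hi
  rw [h2, hB, mul_add, ← h1]
  exact Nat.add_le_add_left hwA _

end Pool.Agent.FF
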