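import Pool.Agent.FF.PRank
import Pool.Agent.FF.Sel2
import Pool.Agent.FF.Fiber

/-!
# Double covers ramified exactly at one place `Q`, with prescribed splitting

`K` of characteristic two, `A / (A(0) + K + ℘ A)` with at most `2 ^ n` elements (`Ob K n`), `Q` a place,
`T` a finite set of places with finite residue fields not containing `Q`.
-/

set_option autoImplicit false
set_option linter.unusedSectionVars false

namespace Pool.Agent.FF

/-- A subgroup of index at most two is the kernel of a homomorphism to `ZMod 2`. -/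
theorem exists_hom_of_two {G : Type*} [AddCommGroup G] (N : AddSubgroup G) (u : G)
    (hu : ∀ x, x ∈ N ∨ x + u ∈ N) : ∃ φ : G →+ ZMod 2, ∀ x, φ x = 0 ↔ x ∈ N := by
  classical
  by_cases huN : u ∈ N
  · refine ⟨0, fun x => ⟨fun _ => ?_, fun _ => rfl⟩⟩
    rcases hu x with h | h
    · exact h
    · have := N.sub_mem h huN
      rwa [add_sub_cancel_right] at this
  · have h2u : u + u ∈ N := (hu u).resolve_left huN
    refine ⟨⟨⟨fun x => if x ∈ N then 0 else 1, if_pos N.zero_mem⟩, fun x y => ?_⟩, fun x => ?_⟩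
    · change (if x + y ∈ N then (0 : ZMod 2) else 1) =
        (if x ∈ N then 0 else 1) + (if y ∈ N then 0 else 1)
      by_cases hx : x ∈ N
      · by_cases hy : y ∈ N
        · rw [if_pos hx, if_pos hy, if_pos (N.add_mem hx hy), add_zero]
        · have : x + y ∉ N := fun h => hy (by
            have := N.sub_mem h hx
            rwa [add_sub_cancel_left] at this)
          rw [if_pos hx, if_neg hy, if_neg this, zero_add]
      · by_cases hy : y ∈ N
        · have : x + y ∉ N := fun h => hx (by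
            have := N.sub_mem h hy
            rwa [add_sub_cancel_right] at this)
          rw [if_neg hx, if_pos hy, if_neg this, add_zero]
        · have h1 := (hu x).resolve_left hx
          have h2 := (hu y).resolve_left hy
          have h3 : x + y ∈ N := by
            have := N.sub_mem (N.add_mem h1 h2) h2u
            have e : x + u + (y + u) - (u + u) = x + y := by abel
            rwa [e] at this
          rw [if_neg hx, if_neg hy, if_pos h3]
          decide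
    · change (if x ∈ N then (0 : ZMod 2) else 1) = 0 ↔ x ∈ N
      by_cases hx : x ∈ N
      · simp [hx]
      · simp [hx]

section obst

variable {K : Type*} [Field K] [CharP K 2]

/-- The splitting class at a place with finite residue field. -/
theorem exists_cls (P : DV K) (hP : Finite P.Res) : ∃ φ : P.grp 0 →+ ZMod 2,
    ∀ x : P.grp 0, φ x = 0 ↔ ∃ d : K, P.G 0 d ∧ P.G 1 ((x : K) + (d ^ 2 + d)) := by
  obtain ⟨u, hu0, hu⟩ := exists_two_classes hP
  let N : AddSubgroup (P.grp 0) :=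
    { carrier := {x | ∃ d : K, P.G 0 d ∧ P.G 1 ((x : K) + (d ^ 2 + d))}
      zero_mem' := ⟨0, DV.G_zero _, by simpa using DV.G_zero _⟩
      add_mem' := by
        rintro x y ⟨d, hd, h⟩ ⟨d', hd', h'⟩
        refine ⟨d + d', hd.add hd', ?_⟩
        convert h.add h' using 1
        change ((x : K) + y) + ((d + d') ^ 2 + (d + d')) = _
        rw [CharTwo.add_sq]
        ring
      neg_mem' := by
        rintro x ⟨d, hd, h⟩
        refine ⟨d, hd, ?_⟩
        change P.G 1 (-(x : K) + (d ^ 2 + d))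
        rwa [CharTwo.neg_eq] }
  obtain ⟨φ, hφ⟩ := exists_hom_of_two N ⟨u, hu0⟩ (fun x => by
    obtain ⟨c, hc, h⟩ := hu x x.2
    rcases h with h | h
    · exact Or.inl ⟨c, hc, h⟩
    · exact Or.inr ⟨c, hc, h⟩)
  exact ⟨φ, hφ⟩

/-- The principal part `x * τ` at `Q` is compensated by the global function `f`, up to `℘ b`. -/
def Comp (Q : DV K) (τ x f : K) (b : DV K → K) : Prop :=
  b ∈ Adl K ∧ (∀ v : DV K, v ≠ Q → v.G 0 (f + (b v ^ 2 + b v))) ∧
    Q.G 0 (x * τ + (f + (b Q ^ 2 + b Q)))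

theorem Comp.add {Q : DV K} {τ x x' f f' : K} {b b' : DV K → K} (h : Comp Q τ x f b)
    (h' : Comp Q τ x' f' b') : Comp Q τ (x + x') (f + f') (b + b') := by
  refine ⟨(Adl K).add_mem h.1 h'.1, fun v hv => ?_, ?_⟩
  · convert (h.2.1 v hv).add (h'.2.1 v hv) using 1
    rw [Pi.add_apply, CharTwo.add_sq]
    ring
  · convert h.2.2.add h'.2.2 using 1
    rw [Pi.add_apply, CharTwo.add_sq]
    ring

/-- The group of data (principal part at `Q`, splitting classes at the places of `T`). -/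
def Dat (Q : DV K) (τ : K) {ι : Type*} (P : ι → DV K) (φ : ∀ i, (P i).grp 0 →+ ZMod 2) :
    AddSubgroup (Q.Res × (ι → ZMod 2)) where
  carrier := {p | ∃ (x : Q.grp 0) (f : K) (b : DV K → K), Comp Q τ x f b ∧
    QuotientAddGroup.mk x = p.1 ∧ ∀ i, ∃ h : (P i).G 0 (f + (b (P i) ^ 2 + b (P i))),
      φ i ⟨_, h⟩ = p.2 i}
  zero_mem' := by
    refine ⟨0, 0, 0, ⟨(Adl K).zero_mem, fun v _ => by simpa using DV.G_zero _, ?_⟩, rfl, fun i => ?_⟩
    · simpa using DV.G_zero _
    · refine ⟨by simpa using DV.G_zero _, ?_⟩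
      have : (⟨(0 : K) + ((0 : DV K → K) (P i) ^ 2 + (0 : DV K → K) (P i)),
          by simpa using DV.G_zero _⟩ : (P i).grp 0) = 0 := by
        apply Subtype.ext
        simp
      rw [this, map_zero]
      rfl
  add_mem' := by
    rintro p p' ⟨x, f, b, hc, hx, hi⟩ ⟨x', f', b', hc', hx', hi'⟩
    refine ⟨x + x', f + f', b + b', ?_, ?_, fun i => ?_⟩
    · exact hc.add hc'
    · rw [Prod.fst_add, ← hx, ← hx']
      rfl
    · obtain ⟨h, h1⟩ := hi i
      obtain ⟨h', h1'⟩ := hi' i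
      have e : (f + f') + ((b + b') (P i) ^ 2 + (b + b') (P i)) =
          (f + (b (P i) ^ 2 + b (P i))) + (f' + (b' (P i) ^ 2 + b' (P i))) := by
        rw [Pi.add_apply, CharTwo.add_sq]
        ring
      have h2 : (P i).G 0 ((f + f') + ((b + b') (P i) ^ 2 + (b + b') (P i))) := by
        rw [e]
        exact h.add h'
      refine ⟨h2, ?_⟩
      have : (⟨_, h2⟩ : (P i).grp 0) = ⟨_, h⟩ + ⟨_, h'⟩ := Subtype.ext e
      rw [this, map_add, h1, h1']
      rfl
  neg_mem' := by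
    rintro p ⟨x, f, b, hc, hx, hi⟩
    refine ⟨-x, f, b, ?_, ?_, fun i => ?_⟩
    · have : ((-x : Q.grp 0) : K) = x := by
        change -(x : K) = x
        exact CharTwo.neg_eq _
      rw [this]
      exact hc
    · rw [Prod.fst_neg, ← hx]
      rfl
    · obtain ⟨h, h1⟩ := hi i
      refine ⟨h, ?_⟩
      rw [h1]
      have : ∀ z : ZMod 2, z = -z := by decide
      exact this _

theorem mem_Dat {Q : DV K} {τ : K} {ι : Type*} {P : ι → DV K} {φ : ∀ i, (P i).grp 0 →+ ZMod 2}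
    {p : Q.Res × (ι → ZMod 2)} : p ∈ Dat Q τ P φ ↔ ∃ (x : Q.grp 0) (f : K) (b : DV K → K),
      Comp Q τ x f b ∧ QuotientAddGroup.mk x = p.1 ∧
      ∀ i, ∃ h : (P i).G 0 (f + (b (P i) ^ 2 + b (P i))), φ i ⟨_, h⟩ = p.2 i := Iff.rfl

/-- The principal parts which come from global functions have index at most `2 ^ n`. -/
theorem card_Res_le {n : ℕ} (hob : Ob K n) {Q : DV K} {τ : K} (hτ : Q.G (-1) τ)
    (hQ : Finite Q.Res) {ι : Type*} {P : ι → DV K} (hP : ∀ i, P i ≠ Q)
    (φ : ∀ i, (P i).grp 0 →+ ZMod 2) :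
    Nat.card Q.Res ≤ 2 ^ n *
      Nat.card ((Dat Q τ P φ).map (AddMonoidHom.fst Q.Res (ι → ZMod 2))) := by
  classical
  set Kr := (Dat Q τ P φ).map (AddMonoidHom.fst Q.Res (ι → ZMod 2)) with hKr
  have hmem : ∀ x : Q.grp 0, (∃ (f : K) (b : DV K → K), Comp Q τ x f b) →
      (QuotientAddGroup.mk x : Q.Res) ∈ Kr := by
    rintro x ⟨f, b, hc⟩
    rw [hKr, AddSubgroup.mem_map]
    refine ⟨(QuotientAddGroup.mk x, fun i => φ i ⟨_, hc.2.1 (P i) (hP i)⟩), ?_, rfl⟩
    exact mem_Dat.2 ⟨x, f, b, hc, rfl, fun i => ⟨hc.2.1 (P i) (hP i), rfl⟩⟩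
  rw [AddSubgroup.card_eq_card_quotient_mul_card_addSubgroup Kr]
  refine Nat.mul_le_mul_right _ ?_
  by_contra hlt
  push Not at hlt
  have := Fintype.ofFinite (Q.Res ⧸ Kr)
  have h3 : Fintype.card (Fin (2 ^ n + 1)) ≤ Fintype.card (Q.Res ⧸ Kr) := by
    rw [Fintype.card_fin, ← Nat.card_eq_fintype_card]
    omega
  obtain ⟨ψ⟩ := Function.Embedding.nonempty_of_card_le h3
  -- representatives
  have hex : ∀ i, ∃ x : Q.grp 0, (QuotientAddGroup.mk (QuotientAddGroup.mk x : Q.Res) : Q.Res ⧸ Kr) =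
      ψ i := by
    intro i
    obtain ⟨y, hy⟩ := QuotientAddGroup.mk_surjective (ψ i)
    obtain ⟨x, hx⟩ := QuotientAddGroup.mk_surjective y
    exact ⟨x, by rw [hx, hy]⟩
  choose x hx using hex
  obtain ⟨i, j, hij, b, a, hb, hv⟩ := hob
    (fun i v => if v = Q then (x i : K) * τ else 0) (fun i => by
      refine mem_Adl_of_support (Set.finite_singleton Q) fun v hvQ => ?_
      rw [Set.mem_singleton_iff] at hvQ
      simp only [hvQ, if_false]
      exact DV.G_zero _)
  apply hij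
  apply ψ.injective
  rw [← hx i, ← hx j, QuotientAddGroup.eq]
  have h5 : (-(QuotientAddGroup.mk (x i) : Q.Res) + QuotientAddGroup.mk (x j)) =
      QuotientAddGroup.mk (-(x i) + x j) := rfl
  rw [h5]
  refine hmem _ ⟨a, b, hb, fun v hvQ => ?_, ?_⟩
  · have := hv v
    simp only [hvQ, if_false, sub_zero, zero_add] at this
    rw [add_comm]
    exact this
  · have := hv Q
    simp only [if_true] at this
    convert this using 1
    change (-(x i : K) + x j) * τ + (a + (b Q ^ 2 + b Q)) =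
      (x i : K) * τ - (x j : K) * τ + (b Q ^ 2 + b Q) + a
    rw [CharTwo.neg_eq, CharTwo.sub_eq_add]
    ring

/-- A datum with nonzero principal part is realised by an Artin–Schreier generator of conductor `Q`. -/
theorem Dat.exists_NF {Q : DV K} {τ : K} (hτ0 : τ ≠ 0) (hτ : Q.ord τ = -1) {ι : Type*}
    {P : ι → DV K} {φ : ∀ i, (P i).grp 0 →+ ZMod 2}
    (hφ : ∀ i, ∀ x : (P i).grp 0, φ i x = 0 → ∃ d : K, (P i).G 0 d ∧ (P i).G 1 ((x : K) + (d ^ 2 + d)))
    {p : Q.Res × (ι → ZMod 2)} (hp : p ∈ Dat Q τ P φ) (hp1 : p.1 ≠ 0) :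
    ∃ (f : K) (D : DV K → ℕ) (c : DV K → K), D Q = 1 ∧ (∀ v, v ≠ Q → D v = 0) ∧ NF f D c ∧
      (∀ d : K, d ^ 2 + d ≠ f) ∧
      ∀ i, p.2 i = 0 → ∃ d : K, (P i).G 1 (f + (d ^ 2 + d)) := by
  classical
  obtain ⟨x, f, b, hc, hx, hi⟩ := mem_Dat.1 hp
  have hx1 : ¬ Q.G 1 (x : K) := by
    intro h
    apply hp1
    rw [← hx]
    exact (QuotientAddGroup.eq_zero_iff _).2 (AddSubgroup.mem_addSubgroupOf.2 h)
  have hx0 : (x : K) ≠ 0 := DV.ne_zero_of_not_G hx1
  have hxord : Q.ord (x : K) = 0 := by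
    have a1 := (DV.not_G hx0).1 hx1
    have a2 := DV.G.le x.2 hx0
    omega
  have hxτ : Q.ord ((x : K) * τ) = -1 := by rw [Q.ord_mul _ _ hx0 hτ0, hxord, hτ]; rfl
  have hord : Q.ord (f + (b Q ^ 2 + b Q)) = -1 := by
    have h1 := DV.ord_add_of_lt (v := Q) (mul_ne_zero hx0 hτ0)
      (b := (x : K) * τ + (f + (b Q ^ 2 + b Q))) (by
        rw [hxτ]
        exact hc.2.2.mono (by norm_num))
    have e : (x : K) * τ + ((x : K) * τ + (f + (b Q ^ 2 + b Q))) = f + (b Q ^ 2 + b Q) := by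
      rw [← add_assoc, add_self_two, zero_add]
    rw [e] at h1
    rw [h1.2, hxτ]
  refine ⟨f, fun v => if v = Q then 1 else 0, b, if_pos rfl, fun v hv => if_neg hv, ?_, ?_, ?_⟩
  · refine ⟨hc.1, ?_, ?_, ?_⟩
    · refine (Set.finite_singleton Q).subset fun v hv => ?_
      by_contra h
      exact hv (if_neg h)
    · intro v hv
      refine hc.2.1 v fun h => ?_
      simp [h] at hv
    · intro v hv
      have hvQ : v = Q := by
        by_contra h
        exact hv (if_neg h)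
      subst hvQ
      rw [hord, if_pos rfl]
      norm_num
  · intro d hd
    have h1 : Q.ord ((d + b Q) ^ 2 + (d + b Q)) = 1 - 2 * ((1 : ℕ) : ℤ) := by
      have e : (d + b Q) ^ 2 + (d + b Q) = f + (b Q ^ 2 + b Q) := by
        rw [CharTwo.add_sq, ← hd]
        ring
      rw [e, hord]
      norm_num
    exact DV.not_odd_pole le_rfl h1
  · intro i hpi
    obtain ⟨h, h1⟩ := hi i
    rw [hpi] at h1
    obtain ⟨d, -, hd⟩ := hφ i _ h1
    refine ⟨b (P i) + d, ?_⟩
    convert hd using 1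
    rw [CharTwo.add_sq]
    change f + (b (P i) ^ 2 + d ^ 2 + (b (P i) + d)) = f + (b (P i) ^ 2 + b (P i)) + (d ^ 2 + d)
    ring

/-- **Double covers ramified exactly at `Q` with many split points.** -/
theorem exists_cover {n : ℕ} (hob : Ob K n) (hres : ∀ v : DV K, Finite v.Res) (Q : DV K)
    (T : Finset (DV K)) (hQT : Q ∉ T) (s t : ℕ) (ht : 1 ≤ t) (hs : s ≤ T.card)
    (hbig : 2 ^ (n + s + t) ≤ Nat.card Q.Res) :
    ∃ (f : K) (D : DV K → ℕ) (c : DV K → K), D Q = 1 ∧ (∀ v, v ≠ Q → D v = 0) ∧ NF f D c ∧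
      (∀ d : K, d ^ 2 + d ≠ f) ∧ ∃ T' : Finset (DV K), T' ⊆ T ∧
      (∀ P ∈ T', ∃ d : K, P.G 1 (f + (d ^ 2 + d))) ∧
      2 * (2 ^ t - 1) * s + (2 ^ t - 2) * (T.card - s) ≤ 2 * (2 ^ t - 1) * T'.card := by
  classical
  obtain ⟨τ, hτ0, hτ⟩ := Q.exists_ord (-1)
  choose φ hφ using fun P : T => exists_cls (P : DV K) (hres P)
  have hPQ : ∀ P : T, (P : DV K) ≠ Q := fun P h => hQT (h ▸ P.2)
  have h1 := card_Res_le hob (DV.G_of_le hτ.ge) (hres Q) hPQ φ
  have hres' : Finite Q.Res := hres Q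
  obtain ⟨w, hw, hw1, hw2⟩ := exists_select_count (Dat Q τ (fun P : T => (P : DV K)) φ) n t s ht
    (by rw [Nat.card_eq_fintype_card, Fintype.card_coe]; exact hs) h1 hbig
  obtain ⟨f, D, c, hD, hD', hN, hirr, hsp⟩ := Dat.exists_NF hτ0 hτ (fun P x => (hφ P x).1) hw hw1
  refine ⟨f, D, c, hD, hD', hN, hirr, T.filter (fun P => ∃ d : K, P.G 1 (f + (d ^ 2 + d))),
    Finset.filter_subset _ _, fun P hP => (Finset.mem_filter.1 hP).2, ?_⟩
  have h3 : Nat.card {i : T // w.2 i = 0} ≤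
      (T.filter (fun P => ∃ d : K, P.G 1 (f + (d ^ 2 + d)))).card := by
    rw [← Fintype.card_coe, ← Nat.card_eq_fintype_card]
    refine Nat.card_le_card_of_injective
      (fun i => (⟨(i.1 : DV K), Finset.mem_filter.2 ⟨i.1.2, hsp i.1 i.2⟩⟩ :
        {P // P ∈ T.filter (fun P => ∃ d : K, P.G 1 (f + (d ^ 2 + d)))})) ?_
    intro i j hij
    apply Subtype.ext
    apply Subtype.ext
    simpa using hij
  have h4 : Nat.card T = T.card := by rw [Nat.card_eq_fintype_card, Fintype.card_coe]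
  rw [h4] at hw2
  exact hw2.trans (Nat.mul_le_mul_left _ h3)

/-- **Double covers ramified exactly at `Q` in which all points of `T` split.** -/
theorem exists_cover_all {n : ℕ} (hob : Ob K n) (hres : ∀ v : DV K, Finite v.Res) (Q : DV K)
    (T : Finset (DV K)) (hQT : Q ∉ T) (hbig : 2 ^ (n + T.card) < Nat.card Q.Res) :
    ∃ (f : K) (D : DV K → ℕ) (c : DV K → K), D Q = 1 ∧ (∀ v, v ≠ Q → D v = 0) ∧ NF f D c ∧
      (∀ d : K, d ^ 2 + d ≠ f) ∧ ∀ P ∈ T, ∃ d : K, P.G 1 (f + (d ^ 2 + d)) := by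
  classical
  obtain ⟨τ, hτ0, hτ⟩ := Q.exists_ord (-1)
  choose φ hφ using fun P : T => exists_cls (P : DV K) (hres P)
  have hPQ : ∀ P : T, (P : DV K) ≠ Q := fun P h => hQT (h ▸ P.2)
  have h1 := card_Res_le hob (DV.G_of_le hτ.ge) (hres Q) hPQ φ
  have hres' : Finite Q.Res := hres Q
  obtain ⟨w, hw, hw1, hw2⟩ := exists_select_sub_all (Dat Q τ (fun P : T => (P : DV K)) φ) n
    Finset.univ h1 (by rw [Finset.card_univ, Fintype.card_coe]; exact hbig)
  obtain ⟨f, D, c, hD, hD', hN, hirr, hsp⟩ := Dat.exists_NF hτ0 hτ (fun P x => (hφ P x).1) hw hw1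
  exact ⟨f, D, c, hD, hD', hN, hirr, fun P hP => hsp ⟨P, hP⟩ (hw2 ⟨P, hP⟩ (Finset.mem_univ _))⟩

end obst

end Pool.Agent.FF
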