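import Pool.Agent.FF.Psi
import Pool.Agent.FF.Frob

/-!
# The obstruction group `A / (A(0) + K + ℘ A)` and its behaviour in a double cover

`ObD D` is the subgroup `A(-D) + K + ℘ A` of the group of repartitions `Adl K` (characteristic two).
-/

set_option autoImplicit false
set_option linter.unusedSectionVars false

namespace Pool.Agent.FF

/-! ### Abstract counting -/

/-- If `Y` is covered modulo `B` by the values of `φ` on representatives, the quotient is small. -/
theorem card_quot_le {X Y ι κ : Type*} [AddCommGroup Y] (B : AddSubgroup Y) (φ : X → Y)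
    [Finite ι] [Finite κ] (p : ι → κ → X)
    (h : ∀ y : Y, ∃ i j, y - φ (p i j) ∈ B) :
    Finite (Y ⧸ B) ∧ Nat.card (Y ⧸ B) ≤ Nat.card ι * Nat.card κ := by
  have hs : Function.Surjective (fun x : ι × κ => (QuotientAddGroup.mk (φ (p x.1 x.2)) : Y ⧸ B)) := by
    intro y
    obtain ⟨y, rfl⟩ := QuotientAddGroup.mk_surjective y
    obtain ⟨i, j, hij⟩ := h y
    refine ⟨(i, j), ?_⟩
    rw [QuotientAddGroup.eq]
    have : -φ (p i j) + y = y - φ (p i j) := by abel
    rw [this]
    exact hij
  refine ⟨Finite.of_surjective _ hs, ?_⟩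
  have := Nat.card_le_card_of_surjective _ hs
  rwa [Nat.card_prod] at this

/-! ### The local index -/

section locl

variable {K : Type*} [Field K] [CharP K 2]

theorem G_wp {v : DV K} {x : K} (h : v.G 0 x) : v.G 0 (x ^ 2 + x) := by
  have := h.pow 2
  exact (this.mono (by simp)).add h

/-- Elements of positive order are of the form `℘ c` up to any order. -/
theorem exists_wp_of_pos {v : DV K} {x : K} (hx : v.G 1 x) (n : ℤ) :
    ∃ c : K, v.G 1 c ∧ v.G n (x + (c ^ 2 + c)) := by
  obtain ⟨m, hm⟩ := AS.exists_two_pow n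
  refine ⟨AS.eta x m, AS.eta_G hx m, ?_⟩
  rw [AS.eta_eq]
  have h1 : x + (x + x ^ 2 ^ (m + 1)) = x ^ 2 ^ (m + 1) := by
    rw [← add_assoc, add_self_two, zero_add]
  rw [h1]
  exact (AS.G_pow_two hx (m + 1)).mono hm

/-- The Artin–Schreier map on the integral elements. -/
private def wp0 (v : DV K) : v.grp 0 →+ v.grp 0 where
  toFun x := ⟨(x : K) ^ 2 + x, G_wp x.2⟩
  map_zero' := by
    apply Subtype.ext
    simp
  map_add' x y := by
    apply Subtype.ext
    change ((x : K) + y) ^ 2 + (x + y) = ((x : K) ^ 2 + x) + ((y : K) ^ 2 + y)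
    rw [CharTwo.add_sq]
    ring

private theorem wp0_apply (v : DV K) (x : v.grp 0) : ((wp0 v x : v.grp 0) : K) = (x : K) ^ 2 + x := rfl

/-- A residue field is finite: then `κ / ℘ κ` has at most two elements. -/
theorem exists_two_classes {v : DV K} (hv : Finite v.Res) :
    ∃ u : K, v.G 0 u ∧ ∀ x : K, v.G 0 x → ∃ c : K, v.G 0 c ∧
      (v.G 1 (x + (c ^ 2 + c)) ∨ v.G 1 (x + u + (c ^ 2 + c))) := by
  classical
  set N : AddSubgroup (v.grp 0) := (v.grp 1).addSubgroupOf (v.grp 0) with hN
  have hmem : ∀ x : v.grp 0, x ∈ N ↔ v.G 1 (x : K) := fun x => AddSubgroup.mem_addSubgroupOf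
  have hle : N ≤ N.comap (wp0 v) := by
    intro x hx
    rw [AddSubgroup.mem_comap, hmem, wp0_apply]
    have h1 := (hmem x).1 hx
    exact ((h1.pow 2).mono (by norm_num)).add h1
  set φ : v.grp 0 ⧸ N →+ v.grp 0 ⧸ N := QuotientAddGroup.map N N (wp0 v) hle with hφ
  have hfin : Finite (v.grp 0 ⧸ N) := hv
  -- the kernel has at most two elements
  have hone : v.G 0 (1 : K) := DV.G_one
  have hker : Nat.card φ.ker ≤ 2 := by
    have hsub : ∀ x : φ.ker, (x : v.grp 0 ⧸ N) = 0 ∨
        (x : v.grp 0 ⧸ N) = QuotientAddGroup.mk ⟨1, hone⟩ := by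
      rintro ⟨x, hx⟩
      obtain ⟨x, rfl⟩ := QuotientAddGroup.mk_surjective x
      have h1 : (QuotientAddGroup.mk (wp0 v x) : v.grp 0 ⧸ N) = 0 := hx
      rw [QuotientAddGroup.eq_zero_iff, hmem, wp0_apply] at h1
      have h2 : v.G 1 ((x : K) * (x + 1)) := by
        convert h1 using 1
        ring
      by_cases h3 : v.G 1 (x : K)
      · left
        change (QuotientAddGroup.mk x : v.grp 0 ⧸ N) = 0
        rw [QuotientAddGroup.eq_zero_iff, hmem]
        exact h3
      · right
        have hx0 : (x : K) ≠ 0 := DV.ne_zero_of_not_G h3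
        have hx1 : v.ord (x : K) = 0 := by
          have a1 := (DV.not_G hx0).1 h3
          have a2 := DV.G.le x.2 hx0
          omega
        have h4 : v.G 1 ((x : K) + 1) := by
          by_cases h5 : (x : K) + 1 = 0
          · rw [h5]
            exact DV.G_zero _
          · refine DV.G_of_le ?_
            have := h2.le (mul_ne_zero hx0 h5)
            rw [v.ord_mul _ _ hx0 h5, hx1] at this
            omega
        change (QuotientAddGroup.mk x : v.grp 0 ⧸ N) = _
        rw [QuotientAddGroup.eq, hmem]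
        change v.G 1 (-(x : K) + 1)
        rw [CharTwo.neg_eq]
        exact h4
    have : Function.Injective (fun x : φ.ker => decide ((x : v.grp 0 ⧸ N) = 0)) := by
      intro x y hxy
      apply Subtype.ext
      simp only [decide_eq_decide] at hxy
      rcases hsub x with hx | hx
      · rw [hx, hxy.1 hx]
      · rcases hsub y with hy | hy
        · rw [hy, hxy.2 hy]
        · rw [hx, hy]
    have h6 := Nat.card_le_card_of_injective _ this
    simpa using h6
  have hcok : Nat.card ((v.grp 0 ⧸ N) ⧸ φ.range) ≤ 2 := by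
    rw [card_coker_eq_card_ker]
    exact hker
  -- choose a representative of the nontrivial class
  by_cases hall : ∀ x : v.grp 0 ⧸ N, x ∈ φ.range
  · refine ⟨0, DV.G_zero _, fun x hx => ?_⟩
    obtain ⟨c, hc⟩ := hall (QuotientAddGroup.mk ⟨x, hx⟩)
    obtain ⟨c, rfl⟩ := QuotientAddGroup.mk_surjective c
    refine ⟨c, c.2, Or.inl ?_⟩
    have h1 : (QuotientAddGroup.mk (wp0 v c) : v.grp 0 ⧸ N) = QuotientAddGroup.mk ⟨x, hx⟩ := hc
    rw [QuotientAddGroup.eq, hmem] at h1
    change v.G 1 (-((c : K) ^ 2 + c) + x) at h1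
    rw [CharTwo.neg_eq, add_comm] at h1
    exact h1
  · push Not at hall
    obtain ⟨u, hu⟩ := hall
    obtain ⟨u, rfl⟩ := QuotientAddGroup.mk_surjective u
    refine ⟨u, u.2, fun x hx => ?_⟩
    have hx2 : (QuotientAddGroup.mk (⟨x, hx⟩ : v.grp 0) : v.grp 0 ⧸ N) ∈ φ.range ∨
        (QuotientAddGroup.mk (⟨x, hx⟩ : v.grp 0) : v.grp 0 ⧸ N) - QuotientAddGroup.mk u ∈ φ.range := by
      by_contra hno
      push Not at hno
      -- three different classes
      have hinj : Function.Injective (fun i : Fin 3 =>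
          (QuotientAddGroup.mk (![0, QuotientAddGroup.mk u, QuotientAddGroup.mk ⟨x, hx⟩] i) :
            (v.grp 0 ⧸ N) ⧸ φ.range)) := by
        have e01 : ¬ (QuotientAddGroup.mk (0 : v.grp 0 ⧸ N) : (v.grp 0 ⧸ N) ⧸ φ.range) =
            QuotientAddGroup.mk (QuotientAddGroup.mk u) := by
          rw [QuotientAddGroup.eq, neg_zero, zero_add]
          exact hu
        have e02 : ¬ (QuotientAddGroup.mk (0 : v.grp 0 ⧸ N) : (v.grp 0 ⧸ N) ⧸ φ.range) =
            QuotientAddGroup.mk (QuotientAddGroup.mk ⟨x, hx⟩) := by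
          rw [QuotientAddGroup.eq, neg_zero, zero_add]
          exact hno.1
        have e12 : ¬ (QuotientAddGroup.mk (QuotientAddGroup.mk u : v.grp 0 ⧸ N) :
            (v.grp 0 ⧸ N) ⧸ φ.range) = QuotientAddGroup.mk (QuotientAddGroup.mk ⟨x, hx⟩) := by
          rw [QuotientAddGroup.eq, neg_add_eq_sub]
          exact hno.2
        intro i j hij
        fin_cases i <;> fin_cases j <;>
          simp only [Fin.zero_eta, Fin.isValue, Fin.mk_one, Fin.reduceFinMk, Matrix.cons_val_zero,
            Matrix.cons_val_one, Matrix.cons_val] at hij ⊢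
        · exact absurd hij e01
        · exact absurd hij e02
        · exact absurd hij.symm e01
        · exact absurd hij e12
        · exact absurd hij.symm e02
        · exact absurd hij.symm e12
      have := Nat.card_le_card_of_injective _ hinj
      rw [Nat.card_eq_fintype_card, Fintype.card_fin] at this
      omega
    rcases hx2 with h | h
    · obtain ⟨c, hc⟩ := h
      obtain ⟨c, rfl⟩ := QuotientAddGroup.mk_surjective c
      refine ⟨c, c.2, Or.inl ?_⟩
      have h1 : (QuotientAddGroup.mk (wp0 v c) : v.grp 0 ⧸ N) = QuotientAddGroup.mk ⟨x, hx⟩ := hc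
      rw [QuotientAddGroup.eq, hmem] at h1
      change v.G 1 (-((c : K) ^ 2 + c) + x) at h1
      rw [CharTwo.neg_eq, add_comm] at h1
      exact h1
    · obtain ⟨c, hc⟩ := h
      obtain ⟨c, rfl⟩ := QuotientAddGroup.mk_surjective c
      refine ⟨c, c.2, Or.inr ?_⟩
      have h1 : (QuotientAddGroup.mk (wp0 v c) : v.grp 0 ⧸ N) =
          QuotientAddGroup.mk (⟨x, hx⟩ - u) := hc
      rw [QuotientAddGroup.eq, hmem] at h1
      change v.G 1 (-((c : K) ^ 2 + c) + (x - u)) at h1
      rw [CharTwo.neg_eq, CharTwo.sub_eq_add, add_comm] at h1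
      exact h1

/-- Every integral element is `℘ c` or `u + ℘ c` up to any order. -/
theorem exists_wp_or {v : DV K} {u : K} (hu : ∀ x : K, v.G 0 x → ∃ c : K, v.G 0 c ∧
      (v.G 1 (x + (c ^ 2 + c)) ∨ v.G 1 (x + u + (c ^ 2 + c)))) (n : ℤ) {x : K} (hx : v.G 0 x) :
    ∃ c : K, v.G n (x + (c ^ 2 + c)) ∨ v.G n (x + u + (c ^ 2 + c)) := by
  obtain ⟨c, -, h⟩ := hu x hx
  rcases h with h | h
  · obtain ⟨d, -, hd⟩ := exists_wp_of_pos h n
    refine ⟨c + d, Or.inl ?_⟩
    convert hd using 1
    rw [CharTwo.add_sq]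
    ring
  · obtain ⟨d, -, hd⟩ := exists_wp_of_pos h n
    refine ⟨c + d, Or.inr ?_⟩
    convert hd using 1
    rw [CharTwo.add_sq]
    ring

end locl

/-! ### The obstruction group -/

section obst

variable {K : Type*} [Field K] [CharP K 2]

/-- `A(-D) + K + ℘ A`, as a group of families. -/
def ObD (D : DV K → ℕ) : AddSubgroup (DV K → K) where
  carrier := {r | ∃ b ∈ Adl K, ∃ a : K, ∀ v : DV K, v.G (D v) (r v + (b v ^ 2 + b v) + a)}
  zero_mem' := ⟨0, (Adl K).zero_mem, 0, fun v => by simpa using DV.G_zero _⟩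
  add_mem' := by
    rintro r s ⟨b, hb, a, h⟩ ⟨b', hb', a', h'⟩
    refine ⟨b + b', (Adl K).add_mem hb hb', a + a', fun v => ?_⟩
    convert (h v).add (h' v) using 1
    rw [Pi.add_apply, Pi.add_apply, CharTwo.add_sq]
    ring
  neg_mem' := by
    rintro r ⟨b, hb, a, h⟩
    refine ⟨b, hb, a, fun v => ?_⟩
    rw [Pi.neg_apply, CharTwo.neg_eq]
    exact h v

theorem mem_ObD {D : DV K → ℕ} {r : DV K → K} :
    r ∈ ObD D ↔ ∃ b ∈ Adl K, ∃ a : K, ∀ v : DV K, v.G (D v) (r v + (b v ^ 2 + b v) + a) :=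
  Iff.rfl

theorem mem_ObD0 {r : DV K → K} :
    r ∈ ObD (fun _ : DV K => 0) ↔ ∃ b ∈ Adl K, ∃ a : K, ∀ v : DV K,
      v.G 0 (r v + (b v ^ 2 + b v) + a) := by
  rw [mem_ObD]
  simp only [Nat.cast_zero]

/-- A family with finite support is a repartition. -/
theorem mem_Adl_of_support {r : DV K → K} {T : Set (DV K)} (hT : T.Finite)
    (h : ∀ v, v ∉ T → v.G 0 (r v)) : r ∈ Adl K := by
  rw [mem_Ad]
  refine hT.subset fun v hv => ?_
  by_contra hn
  exact hv (h v hn)

/-- `[A : A(-D) + K + ℘ A] ≤ [A : A(0) + K + ℘ A] * 2 ^ (#supp D - 1)` if a rational place is in the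
support of `D`. -/
theorem obD_le (D : DV K → ℕ) (hD : {v | D v ≠ 0}.Finite)
    (hres : ∀ v : DV K, Finite v.Res) {P₀ : DV K} (hP₀ : D P₀ ≠ 0)
    (hrat : ∀ x : K, P₀.G 0 x → ∃ c : K, (∀ v : DV K, v.G 0 c) ∧ P₀.G 1 (x + c))
    (hob : (ObD (fun _ : DV K => 0)).relIndex (Adl K) ≠ 0) :
    (ObD D).relIndex (Adl K) ≠ 0 ∧ (ObD D).relIndex (Adl K) ≤
      (ObD (fun _ : DV K => 0)).relIndex (Adl K) * 2 ^ (Nat.card {v : DV K | D v ≠ 0} - 1) := by
  classical
  set S : Finset (DV K) := hD.toFinset with hS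
  have hmemS : ∀ v, v ∈ S ↔ D v ≠ 0 := fun v => by rw [hS, Set.Finite.mem_toFinset]; rfl
  have hcardS : Nat.card {v : DV K | D v ≠ 0} = S.card := by
    rw [Nat.card_coe_set_eq, Set.ncard_eq_toFinset_card _ hD]
  choose u hu0 hu using fun v : DV K => exists_two_classes (hres v)
  have hfi : Finite (Adl K ⧸ (ObD (fun _ : DV K => 0)).addSubgroupOf (Adl K)) := by
    have h1 : ((ObD (fun _ : DV K => 0)).addSubgroupOf (Adl K)).FiniteIndex := ⟨hob⟩
    exact AddSubgroup.finite_quotient_of_finiteIndex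
  -- the family supported on `T`
  have huT : ∀ T : Finset (DV K), (fun v => if v ∈ T then u v else 0) ∈ Adl K := by
    intro T
    refine mem_Adl_of_support T.finite_toSet fun v hv => ?_
    rw [Finset.mem_coe] at hv
    simp only [hv, if_false]
    exact DV.G_zero _
  have key := card_quot_le ((ObD D).addSubgroupOf (Adl K)) (fun x : Adl K => x)
    (ι := Adl K ⧸ (ObD (fun _ : DV K => 0)).addSubgroupOf (Adl K))
    (κ := {T : Finset (DV K) // T ∈ (S.erase P₀).powerset})
    (fun i T => Quotient.out i + ⟨_, huT T.1⟩) (by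
      intro y
      set i : Adl K ⧸ (ObD (fun _ : DV K => 0)).addSubgroupOf (Adl K) := QuotientAddGroup.mk y
        with hi
      have h1 : y - Quotient.out i ∈ (ObD (fun _ : DV K => 0)).addSubgroupOf (Adl K) := by
        have : (QuotientAddGroup.mk (Quotient.out i) :
            Adl K ⧸ (ObD (fun _ : DV K => 0)).addSubgroupOf (Adl K)) = QuotientAddGroup.mk y := by
          rw [← hi]
          exact Quotient.out_eq i
        rw [QuotientAddGroup.eq, neg_add_eq_sub] at this
        exact this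
      rw [AddSubgroup.mem_addSubgroupOf, mem_ObD0] at h1
      obtain ⟨b, hb, a, hx⟩ := h1
      obtain ⟨c₀, hc₀, hc₁⟩ := hrat _ (hx P₀)
      set x : DV K → K := fun v =>
        ((y - Quotient.out i : Adl K) : DV K → K) v + (b v ^ 2 + b v) + a + c₀ with hxdef
      have hx0 : ∀ v : DV K, v.G 0 (x v) := fun v => (hx v).add (hc₀ v)
      set T : Finset (DV K) := (S.erase P₀).filter fun v =>
        ¬ ∃ c : K, v.G (D v) (x v + (c ^ 2 + c)) with hT
      have hTsub : T ∈ (S.erase P₀).powerset := by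
        rw [Finset.mem_powerset]
        exact Finset.filter_subset _ _
      have hex : ∀ v, ∃ c : K, (v ∉ S → c = 0) ∧
          v.G (D v) (x v + (if v ∈ T then u v else 0) + (c ^ 2 + c)) := by
        intro v
        by_cases hvS : v ∈ S
        · by_cases hvT : v ∈ T
          · rw [if_pos hvT]
            have h2 := (Finset.mem_filter.1 hvT).2
            obtain ⟨c, hc⟩ := exists_wp_or (hu v) (D v) (hx0 v)
            rcases hc with hc | hc
            · exact absurd ⟨c, hc⟩ h2
            · exact ⟨c, fun h => absurd hvS h, hc⟩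
          · rw [if_neg hvT, ]
            simp only [add_zero]
            by_cases hvP : v = P₀
            · subst hvP
              obtain ⟨c, -, hc⟩ := exists_wp_of_pos hc₁ (D v)
              exact ⟨c, fun h => absurd hvS h, hc⟩
            · by_contra hno
              apply hvT
              rw [hT, Finset.mem_filter, Finset.mem_erase]
              refine ⟨⟨hvP, hvS⟩, fun ⟨c, hc⟩ => hno ⟨c, fun h => absurd hvS h, hc⟩⟩
        · refine ⟨0, fun _ => rfl, ?_⟩
          have hvT : v ∉ T := fun h => hvS (Finset.mem_of_mem_erase (Finset.mem_filter.1 h).1)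
          have hD0 : D v = 0 := by
            by_contra h
            exact hvS ((hmemS v).2 h)
          rw [if_neg hvT, hD0]
          simpa using hx0 v
      choose cc hcc0 hcc using hex
      refine ⟨i, ⟨T, hTsub⟩, ?_⟩
      rw [AddSubgroup.mem_addSubgroupOf]
      have hccA : cc ∈ Adl K := by
        refine mem_Adl_of_support S.finite_toSet fun v hv => ?_
        rw [hcc0 v (by simpa using hv)]
        exact DV.G_zero _
      refine ⟨b + cc, (Adl K).add_mem hb hccA, a + c₀, fun v => ?_⟩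
      convert hcc v using 1
      simp only [hxdef]
      have e1 : ((y - (Quotient.out i + ⟨_, huT T⟩) : Adl K) : DV K → K) v =
          ((y - Quotient.out i : Adl K) : DV K → K) v + (if v ∈ T then u v else 0) := by
        change (y : DV K → K) v - (((Quotient.out i : Adl K) : DV K → K) v +
          (if v ∈ T then u v else 0)) = (y : DV K → K) v - ((Quotient.out i : Adl K) : DV K → K) v +
          (if v ∈ T then u v else 0)
        rw [CharTwo.sub_eq_add, CharTwo.sub_eq_add]
        ring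
      rw [e1, Pi.add_apply, CharTwo.add_sq]
      ring)
  obtain ⟨hfin, hcard⟩ := key
  have hidx : (ObD D).relIndex (Adl K) = Nat.card (Adl K ⧸ (ObD D).addSubgroupOf (Adl K)) := rfl
  have hidx0 : (ObD (fun _ : DV K => 0)).relIndex (Adl K) =
      Nat.card (Adl K ⧸ (ObD (fun _ : DV K => 0)).addSubgroupOf (Adl K)) := rfl
  have hκ : Nat.card {T : Finset (DV K) // T ∈ (S.erase P₀).powerset} =
      2 ^ (Nat.card {v : DV K | D v ≠ 0} - 1) := by
    rw [hcardS, ← Finset.card_erase_of_mem ((hmemS P₀).2 hP₀), ← Finset.card_powerset,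
      Nat.card_eq_fintype_card, Fintype.card_coe]
  rw [hκ] at hcard
  rw [hidx, hidx0]
  exact ⟨Nat.card_pos.ne', hcard⟩

end obst

/-! ### The double cover -/

section up

variable {K K' : Type*} [Field K] [Field K'] [Algebra K K'] [CharP K 2] [CharP K' 2] {f : K}
  {S : AS K K' f}

theorem pull_mem {b : DV K → K} (hl : ∀ v : DV K, {w : DV K' | Over w v}.Finite)
    (hb : b ∈ Adl K) : (fun w : DV K' => algebraMap K K' (b (S.res w))) ∈ Adl K' := by
  have hT := Set.Finite.biUnion hb (fun v _ => hl v)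
  refine mem_Adl_of_support hT fun w hw => ?_
  simp only [Set.mem_iUnion, not_exists] at hw
  have h3 : S.res w ∉ {P : DV K | ¬ P.G 0 (b P)} := fun h => hw _ h (S.res_over w)
  simp only [Set.mem_ofPred_eq, not_not] at h3
  exact ((S.res_over w).G_zero_iff _).2 h3

/-- `[A' : A'(0) + K' + ℘ A'] ≤ [A : A(0) + K + ℘ A] * [A : A(-D) + K + ℘ A]`. -/
theorem ob_up (S : AS K K' f) {c : DV K → K} {e : DV K → ℕ} (hd : ∀ v, LocData v f (c v) (e v))
    (hpol : ∀ a : K, {P : DV K | ¬ P.G 0 a}.Finite) (hcA : c ∈ Adl K)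
    (h0 : (ObD (fun _ : DV K => 0)).relIndex (Adl K) ≠ 0)
    (he : (ObD e).relIndex (Adl K) ≠ 0) :
    (ObD (fun _ : DV K' => 0)).relIndex (Adl K') ≠ 0 ∧
      (ObD (fun _ : DV K' => 0)).relIndex (Adl K') ≤
        (ObD (fun _ : DV K => 0)).relIndex (Adl K) * (ObD e).relIndex (Adl K) := by
  classical
  have h2 := AS.two' K K'
  have hf := hpol f
  have hf0 : Finite (Adl K ⧸ (ObD (fun _ : DV K => 0)).addSubgroupOf (Adl K)) := by
    have h1 : ((ObD (fun _ : DV K => 0)).addSubgroupOf (Adl K)).FiniteIndex := ⟨h0⟩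
    exact AddSubgroup.finite_quotient_of_finiteIndex
  have hfe : Finite (Adl K ⧸ (ObD e).addSubgroupOf (Adl K)) := by
    have h1 : ((ObD e).addSubgroupOf (Adl K)).FiniteIndex := ⟨he⟩
    exact AddSubgroup.finite_quotient_of_finiteIndex
  -- first coordinate
  have H1 : ∀ α ∈ ObD (fun _ : DV K => 0), S.Psi c (α, 0) ∈ ObD (fun _ : DV K' => 0) := by
    intro α hα
    obtain ⟨b, hb, a, h⟩ := mem_ObD0.1 hα
    refine mem_ObD0.2 ⟨fun w => algebraMap K K' (b (S.res w)),
      pull_mem (fun v => S.loc_finite (hd v)) hb, algebraMap K K' a, fun w => ?_⟩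
    have h1 := ((S.res_over w).G_zero_iff _).2 (h (S.res w))
    rw [S.Psi_apply]
    convert h1 using 1
    simp only [map_add, map_pow, Pi.zero_apply, map_zero, zero_mul, add_zero]
  -- second coordinate
  have H2 : ∀ β ∈ ObD e, ∃ α ∈ Adl K, S.Psi c (α, β) ∈ ObD (fun _ : DV K' => 0) := by
    rintro β ⟨r, hr, γ, h⟩
    refine ⟨fun v => r v ^ 2 * (f + (c v ^ 2 + c v)) + γ * c v, ?_, ?_⟩
    · refine mem_Adl_of_support ((hf.union hr).union (Set.Finite.union hcA (hpol γ))) fun v hv => ?_
      simp only [Set.mem_union, Set.mem_ofPred_eq, not_or, not_not] at hv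
      have h3 := (hv.1.2.pow 2).mul (hv.1.1.add (G_wp hv.2.1))
      have h4 := hv.2.2.mul hv.2.1
      exact (h3.mono (by simp)).add (h4.mono (by simp))
    · refine mem_ObD0.2 ⟨S.Psi c (0, r), S.Psi_mem hd hf hcA (Adl K).zero_mem hr,
        algebraMap K K' γ * S.y, fun w => ?_⟩
      have h4 := (S.loc_int (hd (S.res w)) _ _).2 ⟨DV.G_zero 0, h (S.res w)⟩ w (S.res_over w)
      have h5 := S.eq
      rw [S.Psi_apply, S.Psi_apply]
      convert h4 using 1
      simp only [map_add, map_mul, map_pow, Pi.zero_apply, map_zero, zero_add]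
      set R := algebraMap K K' (r (S.res w))
      set C := algebraMap K K' (c (S.res w))
      set Bb := algebraMap K K' (β (S.res w))
      set Γ := algebraMap K K' γ
      set Ff := algebraMap K K' f
      linear_combination (R ^ 2) * h5 + (R ^ 2 * Ff - R ^ 2 * S.y + R ^ 2 * C ^ 2 +
        R ^ 2 * C * S.y) * h2
  -- covering
  have key := card_quot_le ((ObD (fun _ : DV K' => 0)).addSubgroupOf (Adl K'))
    (fun x : Adl K × Adl K => (⟨S.Psi c ((x.1 : DV K → K), (x.2 : DV K → K)),
      S.Psi_mem hd hf hcA x.1.2 x.2.2⟩ : Adl K'))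
    (ι := Adl K ⧸ (ObD (fun _ : DV K => 0)).addSubgroupOf (Adl K))
    (κ := Adl K ⧸ (ObD e).addSubgroupOf (Adl K))
    (fun i j => (Quotient.out i, Quotient.out j)) (by
      rintro ⟨y, hy⟩
      obtain ⟨⟨α, β⟩, hα, hβ, hint⟩ := S.exists_Psi hd hf hcA hy
      simp only at hα hβ
      set j : Adl K ⧸ (ObD e).addSubgroupOf (Adl K) := QuotientAddGroup.mk ⟨β, hβ⟩ with hj
      have hj1 : (⟨β, hβ⟩ : Adl K) - Quotient.out j ∈ (ObD e).addSubgroupOf (Adl K) := by
        have : (QuotientAddGroup.mk (Quotient.out j) :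
            Adl K ⧸ (ObD e).addSubgroupOf (Adl K)) = QuotientAddGroup.mk ⟨β, hβ⟩ := by
          rw [← hj]
          exact Quotient.out_eq j
        rw [QuotientAddGroup.eq, neg_add_eq_sub] at this
        exact this
      rw [AddSubgroup.mem_addSubgroupOf] at hj1
      obtain ⟨α₂, hα₂, hP₂⟩ := H2 _ hj1
      set i : Adl K ⧸ (ObD (fun _ : DV K => 0)).addSubgroupOf (Adl K) :=
        QuotientAddGroup.mk (⟨α, hα⟩ - ⟨α₂, hα₂⟩) with hi
      have hi1 : ((⟨α, hα⟩ : Adl K) - ⟨α₂, hα₂⟩) - Quotient.out i ∈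
          (ObD (fun _ : DV K => 0)).addSubgroupOf (Adl K) := by
        have : (QuotientAddGroup.mk (Quotient.out i) :
            Adl K ⧸ (ObD (fun _ : DV K => 0)).addSubgroupOf (Adl K)) =
            QuotientAddGroup.mk (⟨α, hα⟩ - ⟨α₂, hα₂⟩) := by
          rw [← hi]
          exact Quotient.out_eq i
        rw [QuotientAddGroup.eq, neg_add_eq_sub] at this
        exact this
      rw [AddSubgroup.mem_addSubgroupOf] at hi1
      have hP₁ := H1 _ hi1
      refine ⟨i, j, ?_⟩
      rw [AddSubgroup.mem_addSubgroupOf]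
      have h0' : y + S.Psi c (α, β) ∈ ObD (fun _ : DV K' => 0) := by
        refine mem_ObD0.2 ⟨0, (Adl K').zero_mem, 0, fun w => ?_⟩
        simpa using hint w
      have hsum := (ObD (fun _ : DV K' => 0)).add_mem
        ((ObD (fun _ : DV K' => 0)).add_mem h0' hP₁) hP₂
      convert hsum using 1
      have hneg : ∀ r : DV K' → K', -r = r := fun r => by
        funext w
        exact CharTwo.neg_eq _
      have hdec : S.Psi c (((Quotient.out i : Adl K) : DV K → K),
          ((Quotient.out j : Adl K) : DV K → K)) =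
          S.Psi c (α, β) - S.Psi c ((((⟨α, hα⟩ : Adl K) - ⟨α₂, hα₂⟩ - Quotient.out i :
            Adl K) : DV K → K), 0) - S.Psi c (α₂, (((⟨β, hβ⟩ : Adl K) - Quotient.out j :
            Adl K) : DV K → K)) := by
        rw [← map_sub, ← map_sub]
        congr 1
        refine Prod.ext ?_ ?_
        · change ((Quotient.out i : Adl K) : DV K → K) =
            α - (α - α₂ - ((Quotient.out i : Adl K) : DV K → K)) - α₂
          abel
        · change ((Quotient.out j : Adl K) : DV K → K) =
            β - 0 - (β - ((Quotient.out j : Adl K) : DV K → K))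
          abel
      change y - S.Psi c (((Quotient.out i : Adl K) : DV K → K),
          ((Quotient.out j : Adl K) : DV K → K)) = _
      rw [hdec]
      have e2 : ∀ p A B C : DV K' → K', p - (A - B - C) = p + -A + B + C := fun p A B C => by abel
      rw [e2, hneg (S.Psi c (α, β))])
  obtain ⟨hfin', hcard⟩ := key
  exact ⟨(Nat.card_pos (α := Adl K' ⧸
    (ObD (fun _ : DV K' => 0)).addSubgroupOf (Adl K'))).ne', hcard⟩

end up

/-! ### In terms of `Ob` -/

section Obs

/-- `Ob K n` says that `A / (A(0) + K + ℘ A)` has at most `2 ^ n` elements. -/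
theorem ob_iff {K : Type*} [Field K] [CharP K 2] {n : ℕ} :
    Ob K n ↔ (ObD (fun _ : DV K => 0)).relIndex (Adl K) ≠ 0 ∧
      (ObD (fun _ : DV K => 0)).relIndex (Adl K) ≤ 2 ^ n := by
  classical
  set Q := Adl K ⧸ (ObD (fun _ : DV K => 0)).addSubgroupOf (Adl K) with hQ
  have hidx : (ObD (fun _ : DV K => 0)).relIndex (Adl K) = Nat.card Q := rfl
  -- two classes agree
  have hcls : ∀ r s : Adl K, (QuotientAddGroup.mk r : Q) = QuotientAddGroup.mk s ↔
      ∃ (b : DV K → K) (a : K), b ∈ Adl K ∧ ∀ v : DV K,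
        v.G 0 ((r : DV K → K) v - (s : DV K → K) v + wpA b v + a) := by
    intro r s
    rw [QuotientAddGroup.eq, AddSubgroup.mem_addSubgroupOf, mem_ObD0]
    have e1 : ∀ v, ((-r + s : Adl K) : DV K → K) v = (r : DV K → K) v - (s : DV K → K) v := by
      intro v
      change -((r : DV K → K) v) + (s : DV K → K) v = _
      rw [CharTwo.neg_eq, CharTwo.sub_eq_add]
    constructor
    · rintro ⟨b, hb, a, h⟩
      refine ⟨b, a, hb, fun v => ?_⟩
      have := h v
      rw [e1] at this
      exact this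
    · rintro ⟨b, a, hb, h⟩
      refine ⟨b, hb, a, fun v => ?_⟩
      rw [e1]
      exact h v
  constructor
  · intro h
    by_contra hno
    have hex : ∃ φ : Fin (2 ^ n + 1) → Q, Function.Injective φ := by
      rcases finite_or_infinite Q with hfin | hinf
      · have h1 : ¬ Nat.card Q ≤ 2 ^ n := by
          intro h2
          exact hno ⟨by rw [hidx]; exact Nat.card_pos.ne', by rw [hidx]; exact h2⟩
        have := Fintype.ofFinite Q
        have h3 : Fintype.card (Fin (2 ^ n + 1)) ≤ Fintype.card Q := by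
          rw [Fintype.card_fin, ← Nat.card_eq_fintype_card]
          omega
        obtain ⟨φ⟩ := Function.Embedding.nonempty_of_card_le h3
        exact ⟨φ, φ.injective⟩
      · exact ⟨fun i => Infinite.natEmbedding Q i, fun i j hij =>
          Fin.ext ((Infinite.natEmbedding Q).injective hij)⟩
    obtain ⟨φ, hφ⟩ := hex
    obtain ⟨i, j, hij, b, a, hb, hv⟩ := h (fun i => ((Quotient.out (φ i) : Adl K) : DV K → K))
      (fun i => (Quotient.out (φ i) : Adl K).2)
    apply hij
    apply hφ
    have h4 := (hcls (Quotient.out (φ i)) (Quotient.out (φ j))).2 ⟨b, a, hb, hv⟩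
    have e2 : ∀ x : Q, (QuotientAddGroup.mk (Quotient.out x) : Q) = x := fun x => Quotient.out_eq x
    rwa [e2, e2] at h4
  · rintro ⟨h1, h2⟩ r hr
    have hfin : Finite Q := by
      have h3 : ((ObD (fun _ : DV K => 0)).addSubgroupOf (Adl K)).FiniteIndex := ⟨h1⟩
      exact AddSubgroup.finite_quotient_of_finiteIndex
    by_contra hno
    push Not at hno
    have hinj : Function.Injective (fun i => (QuotientAddGroup.mk (⟨r i, hr i⟩ : Adl K) : Q)) := by
      intro i j hij
      by_contra hne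
      obtain ⟨b, a, hb, hv⟩ := (hcls _ _).1 hij
      obtain ⟨v, hv'⟩ := hno i j hne b a hb
      exact hv' (hv v)
    have h4 := Nat.card_le_card_of_injective _ hinj
    rw [Nat.card_eq_fintype_card (α := Fin (2 ^ n + 1)), Fintype.card_fin] at h4
    exact absurd (h4.trans h2) (by omega)

theorem G_algebraMap' {k K : Type*} [Field k] [Finite k] [Field K] [Algebra k K] (v : DV K) (c : k) :
    v.G 0 (algebraMap k K c) := by
  by_cases hc : c = 0
  · rw [hc, map_zero]
    exact DV.G_zero _
  · obtain ⟨n, hn, h⟩ := (isOfFinOrder_iff_pow_eq_one.1 (isOfFinOrder_of_finite (Units.mk0 c hc)))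
    have h' : c ^ n = 1 := by
      have := congrArg Units.val h
      simpa using this
    have h0 : algebraMap k K c ≠ 0 := by rwa [Ne, map_eq_zero]
    have h1 := v.ord_pow h0 n
    rw [← map_pow, h', map_one, v.ord_one] at h1
    refine DV.G_of_le ?_
    rcases mul_eq_zero.1 h1.symm with h2 | h2
    · omega
    · exact h2.ge

/-- **The `p`-rank recursion.** -/
theorem Ob.up {k K K' : Type*} [Field k] [Finite k] [Field K] [Field K'] [Algebra k K] [Algebra K K']
    [CharP K 2] [CharP K' 2] {f : K} (S : AS K K' f) {D : DV K → ℕ} {c : DV K → K} (hN : NF f D c)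
    (hpol : ∀ a : K, {P : DV K | ¬ P.G 0 a}.Finite) (hres : ∀ v : DV K, Finite v.Res)
    {P₀ : DV K} (hP₀ : D P₀ ≠ 0) (hrat : P₀.Rat k) {n : ℕ} (hob : Ob K n) :
    Ob K' (n + n + (Nat.card {v : DV K | D v ≠ 0} - 1)) := by
  obtain ⟨h1, h2⟩ := ob_iff.1 hob
  obtain ⟨c', hc'A, -, -, hd⟩ := hN.exists_loc
  have h3 := obD_le D hN.fin hres hP₀ (fun x hx => by
    obtain ⟨a, ha⟩ := hrat x hx
    refine ⟨algebraMap k K a, fun v => G_algebraMap' v a, ?_⟩
    rwa [CharTwo.sub_eq_add] at ha) h1
  have h4 := ob_up S hd hpol hc'A h1 h3.1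
  refine ob_iff.2 ⟨h4.1, h4.2.trans ?_⟩
  rw [pow_add, pow_add, mul_assoc]
  exact Nat.mul_le_mul h2 (h3.2.trans (Nat.mul_le_mul_right _ h2))

end Obs

end Pool.Agent.FF
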