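import Pool.Agent.FF.Defs
import Pool.Agent.FF.Over

/-! Repartitions of an Artin–Schreier double cover `F' = F (y)`, `y ^ 2 + y = f`, in coordinates:
the map `Psi c : (a, b) ↦ a + b (y + c)`.  `AdG n` are the families of order at least `n v` at `v`
(`Bdd D = AdG (-D)`), `Dg c` the global elements `(g + h c, h)`. -/

set_option autoImplicit false
set_option linter.unusedSectionVars false

namespace Pool.Agent.FF

section defs

variable {F : Type*} [Field F]

/-- Families of elements of order at least `n v` at `v`. -/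
def AdG (n : DV F → ℤ) : AddSubgroup (DV F → F) where
  carrier := {r | ∀ v : DV F, v.G (n v) (r v)}
  zero_mem' := fun _ => DV.G_zero _
  add_mem' := fun hr hs v => (hr v).add (hs v)
  neg_mem' := fun hr v => (hr v).neg

theorem mem_Ad {r : DV F → F} : r ∈ Adl F ↔ {v : DV F | ¬ v.G 0 (r v)}.Finite := Iff.rfl

theorem mem_AdG {n : DV F → ℤ} {r : DV F → F} : r ∈ AdG n ↔ ∀ v : DV F, v.G (n v) (r v) := Iff.rfl

theorem mem_Cst {r : DV F → F} : r ∈ Prin F ↔ ∃ a : F, (fun _ => a) = r :=
  ⟨fun ⟨a, ha⟩ => ⟨a, (funext ha).symm⟩, fun ⟨a, ha⟩ => ⟨a, fun v => by rw [← ha]⟩⟩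

theorem cst_mem (a : F) : (fun _ => a) ∈ Prin F := ⟨a, fun _ => rfl⟩

theorem AdG_le_Ad {n : DV F → ℤ} (hn : ∀ v, 0 ≤ n v) : AdG n ≤ Adl F := by
  intro r hr
  have : {v : DV F | ¬ v.G 0 (r v)} = ∅ := by
    ext v
    simp only [Set.mem_ofPred_eq, Set.mem_empty_iff_false, iff_false, not_not]
    exact (mem_AdG.1 hr v).mono (hn v)
  rw [mem_Ad, this]
  exact Set.finite_empty

theorem AdG_mono {m n : DV F → ℤ} (h : ∀ v, m v ≤ n v) : AdG n ≤ AdG m :=
  fun _ hr v => (mem_AdG.1 hr v).mono (h v)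

theorem Ad_mul {r s : DV F → F} (hr : r ∈ Adl F) (hs : s ∈ Adl F) : r * s ∈ Adl F := by
  refine (hr.union hs).subset fun v hv => ?_
  by_contra h
  simp only [Set.mem_union, Set.mem_ofPred_eq, not_or, not_not] at h
  exact hv (by simpa using h.1.mul h.2)

end defs

/-! ### Artin–Schreier double covers -/

section double

variable {F F' : Type*} [Field F] [Field F'] [Algebra F F'] [CharP F 2] {f : F}

/-- Local data at the place `v`: `c` is a local correction of `f`, `e` half of the exponent of the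
different. -/
def LocData (v : DV F) (f c : F) (e : ℕ) : Prop :=
  (1 ≤ e ∧ v.ord (f + (c ^ 2 + c)) = 1 - 2 * e) ∨
  (e = 0 ∧ v.G 0 (f + (c ^ 2 + c)) ∧ ∀ d : F, v.G 0 d → ¬ v.G 1 (d ^ 2 + d + (f + (c ^ 2 + c)))) ∨
  (e = 0 ∧ v.G 1 (f + (c ^ 2 + c)))

variable (S : AS F F' f)

theorem AS.loc_eq (c g h : F) : algebraMap F F' (g + h * c) + algebraMap F F' h *
    (S.y + algebraMap F F' c) = algebraMap F F' g + algebraMap F F' h * S.y := by
  have h2 := AS.two' F F'
  simp only [map_add, map_mul]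
  linear_combination (algebraMap F F' h * algebraMap F F' c) * h2

/-- Integrality over `v`. -/
theorem AS.loc_int {v : DV F} {c : F} {e : ℕ} (hd : LocData v f c e) (a b : F) :
    (∀ w : DV F', Over w v → w.G 0 (algebraMap F F' a + algebraMap F F' b * (S.y + algebraMap F F' c)))
      ↔ v.G 0 a ∧ v.G e b := by
  set T := S.shift c with hT
  have hx : algebraMap F F' a + algebraMap F F' b * (S.y + algebraMap F F' c) =
      algebraMap F F' a + algebraMap F F' b * T.y := by rw [hT, AS.shift_y]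
  have hab := T.ab_eq (x := algebraMap F F' a + algebraMap F F' b * T.y) rfl
  rw [hx]
  rcases hd with ⟨he, ho⟩ | ⟨he, hi, hr⟩ | ⟨he, hs⟩
  · constructor
    · intro h
      have := (T.ramDV_int he ho _).1 (h _ (T.ramDV_over he ho))
      rwa [hab.1, hab.2] at this
    · intro h w hw
      rw [T.ramDV_unique he ho hw, T.ramDV_int he ho, hab.1, hab.2]
      exact h
  · subst he
    constructor
    · intro h
      have := (T.inertDV_G hi hr 0 _).1 (h _ (T.inertDV_over hi hr))
      rwa [hab.1, hab.2] at this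
    · intro h w hw
      rw [T.inertDV_unique hi hr hw, T.inertDV_G hi hr, hab.1, hab.2]
      exact h
  · subst he
    constructor
    · intro h
      have := (T.split_both hs 0 _).1 ⟨h _ (T.splitDV_over hs), h _ (T.conj.splitDV_over hs)⟩
      rwa [hab.1, hab.2] at this
    · intro h w hw
      have h3 := (T.split_both hs 0 (algebraMap F F' a + algebraMap F F' b * T.y)).2
        (by rw [hab.1, hab.2]; exact h)
      rcases T.splitDV_cases hs hw with rfl | rfl
      · exact h3.1
      · exact h3.2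

/-- Approximation over `v`. -/
theorem AS.loc_approx {v : DV F} {c : F} {e : ℕ} (hd : LocData v f c e) (x : DV F' → F') :
    ∃ a b : F, ∀ w : DV F', Over w v →
      w.G 0 (x w + (algebraMap F F' a + algebraMap F F' b * (S.y + algebraMap F F' c))) := by
  have h2 := AS.two' F F'
  set T := S.shift c with hT
  have hx : ∀ z : F', algebraMap F F' (T.a z) + algebraMap F F' (T.b z) * (S.y + algebraMap F F' c) = z := by
    intro z
    have := (T.spec z).symm
    rwa [hT, AS.shift_y] at this
  rcases hd with ⟨he, ho⟩ | ⟨he, hi, hr⟩ | ⟨he, hs⟩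
  · refine ⟨T.a (x (T.ramDV he ho)), T.b (x (T.ramDV he ho)), fun w hw => ?_⟩
    rw [hx, T.ramDV_unique he ho hw]
    exact Or.inl (by linear_combination (x (T.ramDV he ho)) * h2)
  · refine ⟨T.a (x (T.inertDV hi hr)), T.b (x (T.inertDV hi hr)), fun w hw => ?_⟩
    rw [hx, T.inertDV_unique hi hr hw]
    exact Or.inl (by linear_combination (x (T.inertDV hi hr)) * h2)
  · obtain ⟨z, hz, hz'⟩ := T.split_approx hs (x (T.splitDV hs)) (x (T.conj.splitDV hs))
    refine ⟨T.a z, T.b z, fun w hw => ?_⟩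
    rw [hx, add_comm]
    rcases T.splitDV_cases hs hw with rfl | rfl
    · exact hz
    · exact hz'

include S in
/-- There are only finitely many places over `v`. -/
theorem AS.loc_finite {v : DV F} {c : F} {e : ℕ} (hd : LocData v f c e) :
    {w : DV F' | Over w v}.Finite := by
  set T := S.shift c with hT
  rcases hd with ⟨he, ho⟩ | ⟨he, hi, hr⟩ | ⟨he, hs⟩
  · exact (Set.finite_singleton (T.ramDV he ho)).subset fun w hw => T.ramDV_unique he ho hw
  · exact (Set.finite_singleton (T.inertDV hi hr)).subset fun w hw => T.inertDV_unique hi hr hw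
  · exact (Set.toFinite {T.splitDV hs, T.conj.splitDV hs}).subset fun w hw => T.splitDV_cases hs hw

/-- The restriction of a place. -/
noncomputable def AS.res (w : DV F') : DV F := Classical.choose (S.exists_over w)

theorem AS.res_over (w : DV F') : Over w (S.res w) := Classical.choose_spec (S.exists_over w)

theorem AS.res_eq {w : DV F'} {v : DV F} (h : Over w v) : S.res w = v := (S.res_over w).unique h

/-- `(a, b) ↦ a + b (y + c)`. -/
noncomputable def AS.Psi (c : DV F → F) : (DV F → F) × (DV F → F) →+ (DV F' → F') where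
  toFun p := fun w => algebraMap F F' (p.1 (S.res w)) +
    algebraMap F F' (p.2 (S.res w)) * (S.y + algebraMap F F' (c (S.res w)))
  map_zero' := by ext w; simp
  map_add' p r := by
    ext w
    simp only [Prod.fst_add, Prod.snd_add, Pi.add_apply, map_add]
    ring

theorem AS.Psi_apply (c : DV F → F) (p : (DV F → F) × (DV F → F)) (w : DV F') :
    S.Psi c p w = algebraMap F F' (p.1 (S.res w)) +
    algebraMap F F' (p.2 (S.res w)) * (S.y + algebraMap F F' (c (S.res w))) := rfl

/-- Global elements of the double cover, in coordinates. -/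
def Dg (c : DV F → F) : AddSubgroup ((DV F → F) × (DV F → F)) where
  carrier := {p | ∃ g h : F, p.1 = (fun _ => g) + (fun _ => h) * c ∧ p.2 = fun _ => h}
  zero_mem' := ⟨0, 0, by ext; simp, rfl⟩
  add_mem' := by
    rintro p r ⟨g, h, h1, h2⟩ ⟨g', h', h1', h2'⟩
    refine ⟨g + g', h + h', ?_, ?_⟩
    · rw [Prod.fst_add, h1, h1']
      ext v
      simp only [Pi.add_apply, Pi.mul_apply]
      ring
    · rw [Prod.snd_add, h2, h2']
      rfl
  neg_mem' := by
    rintro p ⟨g, h, h1, h2⟩
    refine ⟨-g, -h, ?_, ?_⟩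
    · rw [Prod.fst_neg, h1]
      ext v
      simp only [Pi.add_apply, Pi.mul_apply, Pi.neg_apply]
      ring
    · rw [Prod.snd_neg, h2]
      rfl

variable {c : DV F → F} {e : DV F → ℕ} (hd : ∀ v, LocData v f (c v) (e v))

include hd

theorem AS.comap_AdG : (AdG (0 : DV F' → ℤ)).comap (S.Psi c) =
    (AdG (0 : DV F → ℤ)).prod (AdG fun v => (e v : ℤ)) := by
  ext p
  rw [AddSubgroup.mem_comap, AddSubgroup.mem_prod, mem_AdG, mem_AdG, mem_AdG]
  constructor
  · intro h
    have : ∀ v : DV F, v.G 0 (p.1 v) ∧ v.G (e v) (p.2 v) := by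
      intro v
      rw [← S.loc_int (hd v)]
      intro w hw
      have := h w
      rw [S.Psi_apply, S.res_eq hw] at this
      exact this
    exact ⟨fun v => (this v).1, fun v => (this v).2⟩
  · intro h w
    rw [S.Psi_apply]
    exact (S.loc_int (hd (S.res w)) _ _).2 ⟨h.1 _, h.2 _⟩ w (S.res_over w)

theorem AS.map_Dg : (Dg c).map (S.Psi c) = Prin F' := by
  ext r
  rw [AddSubgroup.mem_map, mem_Cst]
  constructor
  · rintro ⟨p, ⟨g, h, h1, h2⟩, rfl⟩
    refine ⟨algebraMap F F' g + algebraMap F F' h * S.y, ?_⟩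
    ext w
    rw [S.Psi_apply, h1, h2]
    exact (S.loc_eq _ _ _).symm
  · rintro ⟨x, rfl⟩
    refine ⟨((fun _ => S.a x) + (fun _ => S.b x) * c, fun _ => S.b x), ⟨S.a x, S.b x, rfl, rfl⟩, ?_⟩
    ext w
    rw [S.Psi_apply]
    exact (S.loc_eq _ _ _).trans (S.spec x).symm

theorem AS.comap_sup : (AdG (0 : DV F' → ℤ) ⊔ Prin F').comap (S.Psi c) =
    (AdG (0 : DV F → ℤ)).prod (AdG fun v => (e v : ℤ)) ⊔ Dg c := by
  rw [← S.comap_AdG hd]
  apply le_antisymm
  · intro p hp
    rw [AddSubgroup.mem_comap, AddSubgroup.mem_sup] at hp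
    obtain ⟨r, hr, x, hx, hrx⟩ := hp
    rw [← S.map_Dg hd] at hx
    obtain ⟨d, hdd, rfl⟩ := hx
    have h1 : p - d ∈ (AdG (0 : DV F' → ℤ)).comap (S.Psi c) := by
      rw [AddSubgroup.mem_comap, map_sub, ← hrx, add_sub_cancel_right]
      exact hr
    have h2 : p = (p - d) + d := by abel
    rw [h2]
    exact AddSubgroup.add_mem_sup h1 hdd
  · refine sup_le (AddSubgroup.comap_mono le_sup_left) ?_
    rw [← AddSubgroup.map_le_iff_le_comap, S.map_Dg hd]
    exact le_sup_right

variable (hf : {v : DV F | ¬ v.G 0 f}.Finite) (hcA : c ∈ Adl F)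

include hf hcA

omit S in
theorem e_finite : {v : DV F | e v ≠ 0}.Finite := by
  refine (hf.union (mem_Ad.1 hcA)).subset fun v hv => ?_
  by_contra h
  simp only [Set.mem_union, Set.mem_ofPred_eq, not_or, not_not] at h
  have h1 : v.G 0 (f + (c v ^ 2 + c v)) := by
    have := h.1.add (((h.2.pow 2).mono (by norm_num)).add h.2)
    simpa using this
  rcases hd v with ⟨he, ho⟩ | ⟨he, -⟩ | ⟨he, -⟩
  · have h2 : f + (c v ^ 2 + c v) ≠ 0 := by
      intro h0
      rw [h0, v.ord_zero] at ho
      omega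
    have := h1.le h2
    omega
  · exact hv he
  · exact hv he

theorem AS.Psi_mem {p : (DV F → F) × (DV F → F)} (h1 : p.1 ∈ Adl F) (h2 : p.2 ∈ Adl F) :
    S.Psi c p ∈ Adl F' := by
  have h3 : {v : DV F | ¬ (v.G 0 (p.1 v) ∧ v.G (e v) (p.2 v))}.Finite := by
    refine ((mem_Ad.1 h1).union ((mem_Ad.1 h2).union (e_finite hd hf hcA))).subset fun v hv => ?_
    by_contra h
    simp only [Set.mem_union, Set.mem_ofPred_eq, not_or, not_not] at h
    exact hv ⟨h.1, by rw [h.2.2]; exact h.2.1⟩
  refine (h3.biUnion fun v _ => S.loc_finite (hd v)).subset fun w hw => ?_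
  rw [Set.mem_iUnion₂]
  refine ⟨S.res w, fun h => hw ?_, S.res_over w⟩
  rw [S.Psi_apply]
  exact (S.loc_int (hd (S.res w)) _ _).2 h w (S.res_over w)

open Classical in
theorem AS.exists_Psi {r : DV F' → F'} (hr : r ∈ Adl F') : ∃ p : (DV F → F) × (DV F → F),
    p.1 ∈ Adl F ∧ p.2 ∈ Adl F ∧ r + S.Psi c p ∈ AdG (0 : DV F' → ℤ) := by
  choose a b hab using fun v => S.loc_approx (hd v) r
  set s : Set (DV F) := S.res '' {w : DV F' | ¬ w.G 0 (r w)} with hs
  have hsf : s.Finite := (mem_Ad.1 hr).image _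
  have hfin : ∀ u : DV F → F, (fun v => if v ∈ s then u v else 0) ∈ Adl F := by
    intro u
    refine hsf.subset fun v hv => ?_
    by_contra h
    apply hv
    simp only [h, if_false]
    exact DV.G_zero _
  refine ⟨(fun v => if v ∈ s then a v else 0, fun v => if v ∈ s then b v else 0), hfin a, hfin b, ?_⟩
  rw [mem_AdG]
  intro w
  rw [Pi.add_apply, S.Psi_apply]
  by_cases hw : S.res w ∈ s
  · simp only [hw, if_true]
    exact hab (S.res w) w (S.res_over w)
  · simp only [hw, if_false, map_zero, zero_mul, add_zero]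
    by_contra h
    exact hw ⟨w, h, rfl⟩

variable (hfin : Prin F ≤ Adl F)

include hfin

include S in
theorem AS.Cst_le : Prin F' ≤ Adl F' := by
  rw [← S.map_Dg hd, AddSubgroup.map_le_iff_le_comap]
  rintro p ⟨g, h, h1, h2⟩
  refine S.Psi_mem hd hf hcA ?_ ?_
  · rw [h1]
    exact add_mem (hfin (cst_mem g)) (Ad_mul (hfin (cst_mem h)) hcA)
  · rw [h2]
    exact hfin (cst_mem h)


end double

/-- Normal forms give local data, after a change of `c` by integral elements. -/
theorem NF.exists_loc {F : Type*} [Field F] [CharP F 2] {f : F} {D : DV F → ℕ} {c : DV F → F}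
    (h : NF f D c) : ∃ c' : DV F → F, c' ∈ Adl F ∧ (∀ v : DV F, v.G 0 (c' v + c v)) ∧
      (∀ v, D v ≠ 0 → c' v = c v) ∧ ∀ v, LocData v f (c' v) (D v) := by
  classical
  have h2 : (2 : F) = 0 := CharTwo.two_eq_zero
  have key : ∀ v : DV F, ∃ d : F, v.G 0 (d + c v) ∧ (D v ≠ 0 → d = c v) ∧ LocData v f d (D v) := by
    intro v
    by_cases hv : D v = 0
    · by_cases hs : ∃ d : F, v.G 0 d ∧ v.G 1 (d ^ 2 + d + (f + (c v ^ 2 + c v)))
      · obtain ⟨d, hd, hd'⟩ := hs
        refine ⟨c v + d, ?_, fun h => absurd hv h, Or.inr (Or.inr ⟨hv, ?_⟩)⟩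
        · have : c v + d + c v = d := by linear_combination (c v) * h2
          rwa [this]
        · have : f + ((c v + d) ^ 2 + (c v + d)) = d ^ 2 + d + (f + (c v ^ 2 + c v)) := by
            linear_combination (c v * d) * h2
          rwa [this]
      · push Not at hs
        refine ⟨c v, ?_, fun _ => rfl, Or.inr (Or.inl ⟨hv, h.int v hv, hs⟩)⟩
        exact Or.inl (by linear_combination (c v) * h2)
    · exact ⟨c v, Or.inl (by linear_combination (c v) * h2), fun _ => rfl,
        Or.inl ⟨Nat.one_le_iff_ne_zero.2 hv, h.odd v hv⟩⟩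
  choose c' h1 h3 h4 using key
  refine ⟨c', ?_, h1, h3, h4⟩
  have h5 : (fun v => c' v + c v) ∈ Adl F := AdG_le_Ad (n := 0) (fun _ => le_rfl) h1
  have h6 : c' = (fun v => c' v + c v) - c := by
    ext v
    simp
  rw [h6]
  exact sub_mem h5 h.cA

end Pool.Agent.FF
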