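import Pool.Agent.FF.DV

/-! The rational function field of a finite field: all its discrete valuations, residue fields, genus zero. -/

set_option autoImplicit false

open Polynomial

namespace Pool.Agent.FF

section const

variable {K F : Type*} [Field K] [Finite K] [Field F] [Algebra K F]

theorem DV.ord_const (v : DV F) (c : K) : v.ord (algebraMap K F c) = 0 := by
  by_cases hc : c = 0
  · rw [hc, map_zero, v.ord_zero]
  have hc' : algebraMap K F c ≠ 0 := (_root_.map_ne_zero _).2 hc
  have := Fintype.ofFinite K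
  have h1 : c ^ (Fintype.card K - 1) = 1 := FiniteField.pow_card_sub_one_eq_one c hc
  have h2 := v.ord_pow hc' (Fintype.card K - 1)
  rw [← map_pow, h1, map_one, v.ord_one] at h2
  have h3 : (Fintype.card K - 1 : ℕ) ≠ 0 := by
    have := Fintype.one_lt_card (α := K)
    omega
  have h4 : (((Fintype.card K - 1 : ℕ)) : ℤ) ≠ 0 := by exact_mod_cast h3
  exact (mul_eq_zero.1 h2.symm).resolve_left h4

theorem DV.G_const (v : DV F) (c : K) : v.G 0 (algebraMap K F c) := DV.G_of_le (v.ord_const c).ge

theorem DV.not_G_const (v : DV F) {c : K} (hc : c ≠ 0) : ¬ v.G 1 (algebraMap K F c) := by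
  rw [DV.not_G ((_root_.map_ne_zero _).2 hc), v.ord_const c]
  omega

end const

namespace Rat

variable {K : Type*} [Field K]

/-- The place at infinity of `K(X)`. -/
noncomputable def inf (K : Type*) [Field K] : DV (RatFunc K) where
  ord f := - f.intDegree
  ord_zero := by simp
  ord_mul a b ha hb := by rw [RatFunc.intDegree_mul ha hb]; ring
  ord_add a b ha hb hab := by
    have h := RatFunc.intDegree_add_le hb hab
    rcases le_max_iff.1 h with h | h
    · exact (min_le_left _ _).trans (by omega)
    · exact (min_le_right _ _).trans (by omega)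
  exists_one := ⟨RatFunc.X⁻¹, inv_ne_zero RatFunc.X_ne_zero, by
    rw [RatFunc.intDegree_inv, RatFunc.intDegree_X]; simp⟩

theorem inf_ord (f : RatFunc K) : (inf K).ord f = - f.intDegree := rfl

theorem inf_X : (inf K).ord RatFunc.X = -1 := by rw [inf_ord, RatFunc.intDegree_X]

theorem inf_poly (p : K[X]) : (inf K).ord (algebraMap K[X] (RatFunc K) p) = - (p.natDegree : ℤ) := by
  rw [inf_ord, RatFunc.intDegree_polynomial]

theorem coe_ne {p : K[X]} (hp : p ≠ 0) : algebraMap K[X] (RatFunc K) p ≠ 0 :=
  (map_ne_zero_iff _ (IsFractionRing.injective K[X] (RatFunc K))).2 hp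

theorem coe_C (c : K) : algebraMap K[X] (RatFunc K) (C c) = algebraMap K (RatFunc K) c := by
  rw [RatFunc.algebraMap_C, RatFunc.algebraMap_eq_C]

/-- A rational function as a quotient of coprime polynomials. -/
theorem exists_div (a : RatFunc K) : ∃ p q : K[X], q.Monic ∧ IsCoprime p q ∧
    a = algebraMap K[X] (RatFunc K) p / algebraMap K[X] (RatFunc K) q :=
  ⟨a.num, a.denom, a.monic_denom, a.isCoprime_num_denom, (RatFunc.num_div_denom a).symm⟩

section finite

variable [Finite K]

/-- A valuation with `ord X < 0`: the order of a polynomial. -/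
theorem ord_poly_of_neg {v : DV (RatFunc K)} (h : v.ord RatFunc.X < 0) (p : K[X]) (hp : p ≠ 0) :
    v.ord (algebraMap K[X] (RatFunc K) p) = p.natDegree * v.ord RatFunc.X := by
  suffices H : ∀ n : ℕ, ∀ p : K[X], p ≠ 0 → p.natDegree = n →
      v.ord (algebraMap K[X] (RatFunc K) p) = n * v.ord RatFunc.X by
    exact H _ p hp rfl
  intro n
  induction n using Nat.strong_induction_on with
  | _ n ih =>
    intro p hp hn
    have hlc : p.leadingCoeff ≠ 0 := leadingCoeff_ne_zero.2 hp
    have hX := RatFunc.X_ne_zero (K := K)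
    have h1 : v.ord (algebraMap K[X] (RatFunc K) (C p.leadingCoeff * X ^ n)) = n * v.ord RatFunc.X := by
      rw [map_mul, map_pow, coe_C, RatFunc.algebraMap_X,
        v.ord_mul _ _ ((_root_.map_ne_zero _).2 hlc) (pow_ne_zero _ hX), v.ord_const, v.ord_pow hX, zero_add]
    have hne : algebraMap K[X] (RatFunc K) (C p.leadingCoeff * X ^ n) ≠ 0 :=
      coe_ne (mul_ne_zero (C_ne_zero.2 hlc) (pow_ne_zero _ X_ne_zero))
    have h2 : v.G (n * v.ord RatFunc.X + 1)
        (algebraMap K[X] (RatFunc K) (p - C p.leadingCoeff * X ^ n)) := by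
      by_cases h0 : p - C p.leadingCoeff * X ^ n = 0
      · rw [h0, map_zero]; exact DV.G_zero _
      · by_cases hn0 : n = 0
        · exfalso
          apply h0
          rw [hn0, pow_zero, mul_one]
          have : p = C (p.coeff 0) := eq_C_of_natDegree_eq_zero (by omega)
          rw [leadingCoeff, hn, hn0]
          rw [← this, sub_self]
        · have hlt : (p - C p.leadingCoeff * X ^ n).natDegree < n := by
            have hd : (C p.leadingCoeff * X ^ n).degree = p.degree := by
              rw [degree_C_mul_X_pow n hlc, degree_eq_natDegree hp, hn]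
            have h3 := degree_sub_lt_left hd.symm hp (by rw [leadingCoeff_mul_X_pow, leadingCoeff_C])
            have h4 := natDegree_lt_natDegree h0 h3
            omega
          have := ih _ hlt _ h0 rfl
          refine DV.G_of_le ?_
          rw [this]
          have hc : ((p - C p.leadingCoeff * X ^ n).natDegree : ℤ) + 1 ≤ n := by exact_mod_cast hlt
          nlinarith
    have h3 := DV.ord_add_of_lt hne (b := algebraMap K[X] (RatFunc K) (p - C p.leadingCoeff * X ^ n))
      (by rw [h1]; exact h2)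
    rw [← map_add, h1] at h3
    have h4 : C p.leadingCoeff * X ^ n + (p - C p.leadingCoeff * X ^ n) = p := by ring
    rw [h4] at h3
    exact h3.2

/-- The place at infinity is the only one with `ord X < 0`. -/
theorem eq_inf {v : DV (RatFunc K)} (h : v.ord RatFunc.X < 0) : v = inf K := by
  have hall : ∀ a : RatFunc K, v.ord a = a.intDegree * v.ord RatFunc.X := by
    intro a
    by_cases ha : a = 0
    · rw [ha, v.ord_zero, RatFunc.intDegree_zero, zero_mul]
    obtain ⟨p, q, hq, hpq, rfl⟩ := exists_div a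
    have hp : p ≠ 0 := by rintro rfl; simp at ha
    rw [v.ord_div (coe_ne hp) (coe_ne hq.ne_zero), ord_poly_of_neg h p hp,
      ord_poly_of_neg h q hq.ne_zero, RatFunc.intDegree_div (coe_ne hp) (coe_ne hq.ne_zero),
      RatFunc.intDegree_polynomial, RatFunc.intDegree_polynomial]
    ring
  obtain ⟨t, ht, h1⟩ := v.exists_one
  rw [hall t] at h1
  have hX : v.ord RatFunc.X = -1 := by
    rcases Int.eq_one_or_neg_one_of_mul_eq_one' h1 with h2 | h2 <;> omega
  ext a
  rw [hall a, hX, inf_ord]
  ring

/-- Polynomials are integral at the other places. -/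
theorem G_poly {v : DV (RatFunc K)} (h : 0 ≤ v.ord RatFunc.X) (p : K[X]) :
    v.G 0 (algebraMap K[X] (RatFunc K) p) := by
  induction p using Polynomial.induction_on' with
  | add p q hp hq => rw [map_add]; exact hp.add hq
  | monomial n c =>
    rw [← C_mul_X_pow_eq_monomial, map_mul, map_pow, coe_C, RatFunc.algebraMap_X]
    have h1 : v.G 0 (RatFunc.X : RatFunc K) := DV.G_of_le h
    have := (v.G_const (F := RatFunc K) c).mul (h1.pow n)
    exact this.mono (by simp)

theorem ne_inf {v : DV (RatFunc K)} : v ≠ inf K ↔ 0 ≤ v.ord RatFunc.X := by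
  constructor
  · intro h
    by_contra h1
    exact h (eq_inf (not_le.1 h1))
  · rintro h rfl
    rw [inf_X] at h
    omega

end finite

/-- The valuation `v` belongs to the monic irreducible polynomial `π`. -/
structure At (v : DV (RatFunc K)) (π : K[X]) : Prop where
  irr : Irreducible π
  monic : π.Monic
  int : ∀ p : K[X], v.G 0 (algebraMap K[X] (RatFunc K) p)
  iff : ∀ p : K[X], v.G 1 (algebraMap K[X] (RatFunc K) p) ↔ π ∣ p

namespace At

variable {v w : DV (RatFunc K)} {π π' : K[X]}

theorem ord_zero' (h : At v π) {p : K[X]} (hp : ¬ π ∣ p) : v.ord (algebraMap K[X] (RatFunc K) p) = 0 := by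
  have hp0 : p ≠ 0 := by rintro rfl; exact hp (dvd_zero _)
  have h1 := (h.int p).le (coe_ne hp0)
  have h2 : ¬ v.G 1 (algebraMap K[X] (RatFunc K) p) := fun h2 => hp ((h.iff p).1 h2)
  rw [DV.not_G (coe_ne hp0)] at h2
  omega

theorem ord_pos (h : At v π) {p : K[X]} (hp0 : p ≠ 0) (hp : π ∣ p) :
    1 ≤ v.ord (algebraMap K[X] (RatFunc K) p) := ((h.iff p).2 hp).le (coe_ne hp0)

theorem G_div (h : At v π) {p q : K[X]} (hq : q ≠ 0) (hpq : IsCoprime p q) :
    v.G 0 (algebraMap K[X] (RatFunc K) p / algebraMap K[X] (RatFunc K) q) ↔ ¬ π ∣ q := by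
  constructor
  · intro h1 h2
    have h3 : ¬ π ∣ p := fun h3 => h.irr.not_isUnit (hpq.isUnit_of_dvd' h3 h2)
    have hp0 : p ≠ 0 := by rintro rfl; exact h3 (dvd_zero _)
    have h4 := h1.le (div_ne_zero (coe_ne hp0) (coe_ne hq))
    rw [v.ord_div (coe_ne hp0) (coe_ne hq), h.ord_zero' h3] at h4
    have := h.ord_pos hq h2
    omega
  · intro h2
    by_cases hp0 : p = 0
    · rw [hp0, map_zero, zero_div]; exact DV.G_zero _
    · refine DV.G_of_le ?_
      rw [v.ord_div (coe_ne hp0) (coe_ne hq), h.ord_zero' h2]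
      have := (h.int p).le (coe_ne hp0)
      omega

theorem unique (h : At v π) (h' : At w π) : v = w := by
  apply DV.eq_of_integral_imp
  intro a ha
  obtain ⟨p, q, hq, hpq, rfl⟩ := exists_div a
  rw [h.G_div hq.ne_zero hpq] at ha
  rwa [h'.G_div hq.ne_zero hpq]

theorem inj (h : At v π) (h' : At v π') : π = π' := by
  have h1 : π ∣ π' := (h.iff _).1 ((h'.iff _).2 dvd_rfl)
  have h2 : π' ∣ π := (h'.iff _).1 ((h.iff _).2 dvd_rfl)
  exact eq_of_monic_of_associated h.monic h'.monic (associated_of_dvd_dvd h1 h2)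

theorem ord_self (h : At v π) : v.ord (algebraMap K[X] (RatFunc K) π) = 1 := by
  have h0 : 1 ≤ v.ord (algebraMap K[X] (RatFunc K) π) := h.ord_pos h.irr.ne_zero dvd_rfl
  have hall : ∀ p : K[X], p ≠ 0 → ∃ k : ℕ,
      v.ord (algebraMap K[X] (RatFunc K) p) = k * v.ord (algebraMap K[X] (RatFunc K) π) := by
    intro p hp
    have hf : FiniteMultiplicity π p := FiniteMultiplicity.of_not_isUnit h.irr.not_isUnit hp
    obtain ⟨c, hc, hd⟩ := hf.exists_eq_pow_mul_and_not_dvd
    refine ⟨multiplicity π p, ?_⟩
    have hc0 : c ≠ 0 := by rintro rfl; exact hd (dvd_zero _)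
    conv_lhs => rw [hc]
    rw [map_mul, map_pow, v.ord_mul _ _ (pow_ne_zero _ (coe_ne h.irr.ne_zero)) (coe_ne hc0),
      v.ord_pow (coe_ne h.irr.ne_zero), h.ord_zero' hd, add_zero]
  obtain ⟨t, ht, h1⟩ := v.exists_one
  obtain ⟨p, q, hq, hpq, rfl⟩ := exists_div t
  have hp : p ≠ 0 := by rintro rfl; simp at ht
  obtain ⟨k, hk⟩ := hall p hp
  obtain ⟨l, hl⟩ := hall q hq.ne_zero
  rw [v.ord_div (coe_ne hp) (coe_ne hq.ne_zero), hk, hl, ← sub_mul] at h1
  rcases Int.eq_one_or_neg_one_of_mul_eq_one' h1 with h2 | h2 <;> omega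

/-- Integral elements are polynomials of degree less than `deg π` modulo the maximal ideal. -/
theorem exists_mod (h : At v π) {a : RatFunc K} (ha : v.G 0 a) :
    ∃ r : K[X], r.degree < π.degree ∧ v.G 1 (a - algebraMap K[X] (RatFunc K) r) := by
  obtain ⟨p, q, hq, hpq, rfl⟩ := exists_div a
  rw [h.G_div hq.ne_zero hpq] at ha
  obtain ⟨x, y, hxy⟩ := (h.irr.coprime_iff_not_dvd.2 ha)
  -- `x π + y q = 1`
  refine ⟨(p * y) %ₘ π, degree_modByMonic_lt _ h.monic, ?_⟩
  have h1 : p - ((p * y) %ₘ π) * q = π * (p * x + ((p * y) /ₘ π) * q) := by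
    have h2 := modByMonic_add_div (p * y) π
    linear_combination (-p) * hxy - q * h2
  have h3 : algebraMap K[X] (RatFunc K) p / algebraMap K[X] (RatFunc K) q -
      algebraMap K[X] (RatFunc K) ((p * y) %ₘ π) =
      algebraMap K[X] (RatFunc K) (π * (p * x + ((p * y) /ₘ π) * q)) *
        (algebraMap K[X] (RatFunc K) q)⁻¹ := by
    rw [← h1, map_sub, map_mul]
    have := coe_ne hq.ne_zero
    field_simp
  rw [h3]
  have h4 : v.G 1 (algebraMap K[X] (RatFunc K) (π * (p * x + ((p * y) /ₘ π) * q))) :=
    (h.iff _).2 (dvd_mul_right _ _)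
  have h5 : v.G 0 (algebraMap K[X] (RatFunc K) q)⁻¹ :=
    DV.G_of_le (by rw [v.ord_inv (coe_ne hq.ne_zero), h.ord_zero' ha]; simp)
  exact (h4.mul h5).mono (by simp)

/-- Polynomials of degree less than `deg π` are distinct modulo the maximal ideal. -/
theorem mod_inj (h : At v π) {r s : K[X]} (hr : r.degree < π.degree) (hs : s.degree < π.degree)
    (hrs : v.G 1 (algebraMap K[X] (RatFunc K) r - algebraMap K[X] (RatFunc K) s)) : r = s := by
  rw [← map_sub, h.iff] at hrs
  by_contra hne
  have h1 := degree_le_of_dvd hrs (sub_ne_zero.2 hne)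
  have h2 := degree_sub_le r s
  exact absurd (h1.trans h2) (not_le.2 (max_lt hr hs))

/-- Principal parts: an element is, up to an integral one, an element with no other finite pole. -/
theorem exists_part (h : At v π) (f : RatFunc K) : ∃ g : RatFunc K, v.G 0 (f - g) ∧
    ∀ w : DV (RatFunc K), ∀ π' : K[X], At w π' → w ≠ v → w.G 0 g := by
  obtain ⟨p, q, hq, hpq, rfl⟩ := exists_div f
  have hf : FiniteMultiplicity π q := FiniteMultiplicity.of_not_isUnit h.irr.not_isUnit hq.ne_zero
  obtain ⟨c, hc, hd⟩ := hf.exists_eq_pow_mul_and_not_dvd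
  set k := multiplicity π q with hk
  have hc0 : c ≠ 0 := by rintro rfl; exact hd (dvd_zero _)
  obtain ⟨x, y, hxy⟩ : IsCoprime (π ^ k) c := (h.irr.coprime_iff_not_dvd.2 hd).pow_left
  -- `x π ^ k + y c = 1`
  have hπ0 : algebraMap K[X] (RatFunc K) π ≠ 0 := coe_ne h.irr.ne_zero
  have hcc : algebraMap K[X] (RatFunc K) c ≠ 0 := coe_ne hc0
  refine ⟨algebraMap K[X] (RatFunc K) (p * y) / algebraMap K[X] (RatFunc K) π ^ k, ?_, ?_⟩
  · have h1 : algebraMap K[X] (RatFunc K) p / algebraMap K[X] (RatFunc K) q -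
        algebraMap K[X] (RatFunc K) (p * y) / algebraMap K[X] (RatFunc K) π ^ k =
        algebraMap K[X] (RatFunc K) (p * x) * (algebraMap K[X] (RatFunc K) c)⁻¹ := by
      have h2 : algebraMap K[X] (RatFunc K) q = algebraMap K[X] (RatFunc K) π ^ k *
          algebraMap K[X] (RatFunc K) c := by rw [← map_pow, ← map_mul, ← hc]
      have h3 : algebraMap K[X] (RatFunc K) x * algebraMap K[X] (RatFunc K) π ^ k +
          algebraMap K[X] (RatFunc K) y * algebraMap K[X] (RatFunc K) c = 1 := by
        rw [← map_pow, ← map_mul, ← map_mul, ← map_add, hxy, map_one]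
      rw [h2, map_mul, map_mul]
      field_simp
      linear_combination algebraMap K[X] (RatFunc K) p * (-h3)
    rw [h1]
    have h5 : v.G 0 (algebraMap K[X] (RatFunc K) c)⁻¹ :=
      DV.G_of_le (by rw [v.ord_inv hcc, h.ord_zero' hd]; simp)
    exact ((h.int _).mul h5).mono (by simp)
  · intro w π' hw hne
    have h1 : ¬ π' ∣ π := by
      intro h2
      have h3 := hw.irr.associated_of_dvd h.irr h2
      have h4 := eq_of_monic_of_associated hw.monic h.monic h3
      subst h4
      exact hne (hw.unique h)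
    have h5 : w.G 0 (algebraMap K[X] (RatFunc K) π ^ k)⁻¹ := by
      refine DV.G_of_le ?_
      rw [w.ord_inv (pow_ne_zero _ hπ0), w.ord_pow hπ0, hw.ord_zero' h1]
      simp
    rw [div_eq_mul_inv]
    exact ((hw.int _).mul h5).mono (by simp)

end At

/-- The height one prime of an irreducible polynomial. -/
noncomputable def prime (π : K[X]) (hπ : Irreducible π) : IsDedekindDomain.HeightOneSpectrum K[X] where
  asIdeal := Ideal.span {π}
  isPrime := (Ideal.span_singleton_prime hπ.ne_zero).2 hπ.prime
  ne_bot := by simpa using hπ.ne_zero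

/-- The place of an irreducible polynomial. -/
noncomputable def fin (π : K[X]) (hπ : Irreducible π) : DV (RatFunc K) where
  ord f := - WithZero.log ((prime π hπ).valuation (RatFunc K) f)
  ord_zero := by simp
  ord_mul a b ha hb := by
    rw [map_mul, WithZero.log_mul (by simpa using ha) (by simpa using hb)]
    ring
  ord_add a b ha hb hab := by
    have h := Valuation.map_add ((prime π hπ).valuation (RatFunc K)) a b
    rcases le_max_iff.1 h with h | h
    · rw [← WithZero.log_le_log (by simpa using hab) (by simpa using ha)] at h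
      exact (min_le_left _ _).trans (by omega)
    · rw [← WithZero.log_le_log (by simpa using hab) (by simpa using hb)] at h
      exact (min_le_right _ _).trans (by omega)
  exists_one := by
    obtain ⟨t, ht⟩ := (prime π hπ).valuation_exists_uniformizer (RatFunc K)
    refine ⟨t, ?_, ?_⟩
    · rintro rfl
      rw [map_zero] at ht
      exact absurd ht.symm (by simp)
    · rw [ht]; simp

theorem fin_at {π : K[X]} (hπ : Irreducible π) (hm : π.Monic) : At (fin π hπ) π where
  irr := hπ
  monic := hm
  int p := by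
    by_cases hp : p = 0
    · rw [hp, map_zero]; exact DV.G_zero _
    have h1 : (prime π hπ).valuation (RatFunc K) (algebraMap K[X] (RatFunc K) p) ≤ 1 :=
      (prime π hπ).valuation_le_one (K := RatFunc K) p
    have h2 := (WithZero.log_le_log (by simpa using coe_ne hp) one_ne_zero).2 h1
    refine DV.G_of_le ?_
    change 0 ≤ - WithZero.log _
    rw [WithZero.log_one] at h2
    omega
  iff p := by
    by_cases hp : p = 0
    · rw [hp, map_zero]; exact ⟨fun _ => dvd_zero _, fun _ => DV.G_zero _⟩
    have h1 : (prime π hπ).valuation (RatFunc K) (algebraMap K[X] (RatFunc K) p) < 1 ↔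
        p ∈ (prime π hπ).asIdeal := (prime π hπ).valuation_lt_one_iff_mem (K := RatFunc K) p
    rw [← WithZero.log_lt_log (by simpa using coe_ne hp) one_ne_zero, WithZero.log_one] at h1
    have h2 : p ∈ (prime π hπ).asIdeal ↔ π ∣ p := Ideal.mem_span_singleton
    rw [DV.G_iff (coe_ne hp), ← h2, ← h1]
    change 1 ≤ - WithZero.log _ ↔ _
    omega

/-- Every place with `X` integral belongs to a monic irreducible polynomial. -/
theorem exists_at [Finite K] {v : DV (RatFunc K)} (h : 0 ≤ v.ord RatFunc.X) : ∃ π : K[X], At v π := by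
  classical
  let I : Ideal K[X] :=
    { carrier := {p | v.G 1 (algebraMap K[X] (RatFunc K) p)}
      add_mem' := by
        intro a b ha hb
        change v.G 1 _
        rw [map_add]
        exact DV.G.add ha hb
      zero_mem' := by
        change v.G 1 _
        rw [map_zero]
        exact DV.G_zero _
      smul_mem' := by
        intro c a ha
        change v.G 1 _
        rw [smul_eq_mul, map_mul]
        exact ((G_poly h c).mul ha).mono (by simp) }
  have hI : ∀ p, p ∈ I ↔ v.G 1 (algebraMap K[X] (RatFunc K) p) := fun p => Iff.rfl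
  obtain ⟨π₀, h0⟩ := (IsPrincipalIdealRing.principal I).principal
  have hdvd : ∀ p, v.G 1 (algebraMap K[X] (RatFunc K) p) ↔ π₀ ∣ p := by
    intro p
    rw [← hI, h0]
    exact Ideal.mem_span_singleton
  have hne : π₀ ≠ 0 := by
    rintro rfl
    have hz : ∀ p : K[X], p ≠ 0 → v.ord (algebraMap K[X] (RatFunc K) p) = 0 := by
      intro p hp
      have h1 := (G_poly h p).le (coe_ne hp)
      have h2 : ¬ v.G 1 (algebraMap K[X] (RatFunc K) p) := by
        rw [hdvd, zero_dvd_iff]
        exact hp
      rw [DV.not_G (coe_ne hp)] at h2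
      omega
    obtain ⟨t, ht, h1⟩ := v.exists_one
    obtain ⟨p, q, hq, hpq, rfl⟩ := exists_div t
    have hp : p ≠ 0 := by rintro rfl; simp at ht
    rw [v.ord_div (coe_ne hp) (coe_ne hq.ne_zero), hz p hp, hz q hq.ne_zero] at h1
    omega
  have hprime : Prime π₀ := by
    refine ⟨hne, ?_, ?_⟩
    · intro hu
      have h1 := (hdvd 1).2 hu.dvd
      rw [map_one] at h1
      have := h1.le one_ne_zero
      rw [v.ord_one] at this
      omega
    · intro a b hab
      by_cases ha : a = 0
      · exact Or.inl (ha ▸ dvd_zero _)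
      by_cases hb : b = 0
      · exact Or.inr (hb ▸ dvd_zero _)
      have h1 := ((hdvd _).2 hab).le (coe_ne (mul_ne_zero ha hb))
      rw [map_mul, v.ord_mul _ _ (coe_ne ha) (coe_ne hb)] at h1
      by_cases h2 : 1 ≤ v.ord (algebraMap K[X] (RatFunc K) a)
      · exact Or.inl ((hdvd _).1 (DV.G_of_le h2))
      · exact Or.inr ((hdvd _).1 (DV.G_of_le (by omega)))
  have hass := associated_normalize π₀
  exact ⟨normalize π₀,
    { irr := hass.irreducible hprime.irreducible
      monic := monic_normalize hne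
      int := G_poly h
      iff := fun p => (hdvd p).trans (hass.dvd_iff_dvd_left) }⟩

section main

variable [Finite K]

set_option linter.unusedSectionVars false

theorem inf_or_at (v : DV (RatFunc K)) : v = inf K ∨ ∃ π : K[X], At v π := by
  by_cases h : 0 ≤ v.ord RatFunc.X
  · exact Or.inr (exists_at h)
  · exact Or.inl (eq_inf (not_le.1 h))

theorem At.ne_inf {v : DV (RatFunc K)} {π : K[X]} (h : At v π) : v ≠ inf K := by
  rintro rfl
  have h1 := (h.int X).le (coe_ne X_ne_zero)
  rw [RatFunc.algebraMap_X, inf_X] at h1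
  omega

/-- Genus zero: every repartition of `K(X)` is integral up to a constant one. -/
theorem genus_zero (r : DV (RatFunc K) → RatFunc K) (hr : {v : DV (RatFunc K) | ¬ v.G 0 (r v)}.Finite) :
    ∃ g : RatFunc K, ∀ v : DV (RatFunc K), v.G 0 (r v - g) := by
  classical
  have hpart : ∀ v : DV (RatFunc K), ∃ g : RatFunc K, (v ≠ inf K → v.G 0 (r v - g)) ∧
      ∀ w : DV (RatFunc K), w ≠ inf K → w ≠ v → w.G 0 g := by
    intro v
    rcases inf_or_at v with h | ⟨π, h⟩
    · exact ⟨0, fun h1 => absurd h h1, fun w _ _ => DV.G_zero _⟩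
    · obtain ⟨g, hg1, hg2⟩ := h.exists_part (r v)
      refine ⟨g, fun _ => hg1, fun w hw hwv => ?_⟩
      rcases inf_or_at w with h' | ⟨π', h'⟩
      · exact absurd h' hw
      · exact hg2 w π' h' hwv
  choose part hp1 hp2 using hpart
  set S : Finset (DV (RatFunc K)) := hr.toFinset.filter (fun v => v ≠ inf K) with hS
  have hsum : ∀ (T : Finset (DV (RatFunc K))) (w : DV (RatFunc K)), w ≠ inf K → w ∉ T →
      w.G 0 (∑ v ∈ T, part v) := by
    intro T w hw
    induction T using Finset.induction_on with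
    | empty => intro _; rw [Finset.sum_empty]; exact DV.G_zero _
    | insert v T hv ih =>
      intro hw'
      rw [Finset.mem_insert, not_or] at hw'
      rw [Finset.sum_insert hv]
      exact (hp2 v w hw hw'.1).add (ih hw'.2)
  have h1 : ∀ w : DV (RatFunc K), w ≠ inf K → w.G 0 (r w - ∑ v ∈ S, part v) := by
    intro w hw
    by_cases hwS : w ∈ S
    · rw [← Finset.add_sum_erase S part hwS]
      have h2 := (hp1 w hw).sub (hsum (S.erase w) w hw (Finset.notMem_erase w S))
      have h3 : r w - (part w + ∑ v ∈ S.erase w, part v) = r w - part w - ∑ v ∈ S.erase w, part v := by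
        ring
      rw [h3]
      exact h2
    · refine DV.G.sub ?_ (hsum S w hw hwS)
      by_contra h2
      exact hwS (by rw [hS, Finset.mem_filter, Set.Finite.mem_toFinset]; exact ⟨h2, hw⟩)
  obtain ⟨p, q, hq, hpq, hf⟩ := exists_div (r (inf K) - ∑ v ∈ S, part v)
  have hq0 := coe_ne hq.ne_zero
  refine ⟨(∑ v ∈ S, part v) + algebraMap K[X] (RatFunc K) (p /ₘ q), fun w => ?_⟩
  by_cases hw : w = inf K
  · subst hw
    have h2 : r (inf K) - ((∑ v ∈ S, part v) + algebraMap K[X] (RatFunc K) (p /ₘ q)) =
        algebraMap K[X] (RatFunc K) (p %ₘ q) / algebraMap K[X] (RatFunc K) q := by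
      rw [← sub_sub, hf]
      have h3 := congrArg (algebraMap K[X] (RatFunc K)) (modByMonic_add_div p q)
      rw [map_add, map_mul] at h3
      rw [eq_div_iff hq0, sub_mul, div_mul_cancel₀ _ hq0]
      linear_combination -h3
    rw [h2]
    by_cases h0 : p %ₘ q = 0
    · rw [h0, map_zero, zero_div]; exact DV.G_zero _
    · refine DV.G_of_le ?_
      rw [(inf K).ord_div (coe_ne h0) hq0, inf_poly, inf_poly]
      have h4 := natDegree_le_natDegree (degree_modByMonic_lt p hq).le
      omega
  · have h2 := (h1 w hw).sub (G_poly (ne_inf.1 hw) (p /ₘ q))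
    rwa [sub_sub] at h2

/-- An everywhere integral element is constant. -/
theorem const_of_int {a : RatFunc K} (h : ∀ v : DV (RatFunc K), v.G 0 a) :
    ∃ c : K, a = algebraMap K (RatFunc K) c := by
  obtain ⟨p, q, hq, hpq, rfl⟩ := exists_div a
  have hq1 : q = 1 := by
    by_contra hne
    obtain ⟨π, hm, hπ, hd⟩ := exists_monic_irreducible_factor q (fun hu => hne (hq.eq_one_of_isUnit hu))
    exact ((fin_at hπ hm).G_div hq.ne_zero hpq).1 (h _) hd
  subst hq1
  rw [map_one, div_one] at h ⊢
  by_cases hp : p = 0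
  · exact ⟨0, by rw [hp, map_zero, map_zero]⟩
  have h1 := (h (inf K)).le (coe_ne hp)
  rw [inf_poly] at h1
  have h2 : p.natDegree = 0 := by omega
  refine ⟨p.coeff 0, ?_⟩
  rw [← coe_C, ← eq_C_of_natDegree_eq_zero h2]

/-- Finitely many poles. -/
theorem finite_poles (a : RatFunc K) : {v : DV (RatFunc K) | ¬ v.G 0 a}.Finite := by
  classical
  obtain ⟨p, q, hq, hpq, rfl⟩ := exists_div a
  have hfin : {π : K[X] | π.Monic ∧ π ∣ q}.Finite := by
    have h1 : {π : K[X] | π.Monic ∧ π ∣ q} ⊆ (Polynomial.degreeLT K (q.natDegree + 1) : Set K[X]) := by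
      rintro π ⟨_, hd⟩
      rw [SetLike.mem_coe, mem_degreeLT]
      have := natDegree_le_of_dvd hd hq.ne_zero
      exact (degree_le_natDegree).trans_lt (by exact_mod_cast Nat.lt_succ_of_le this)
    have h2 : Finite (Polynomial.degreeLT K (q.natDegree + 1)) :=
      Module.finite_of_finite K
    exact (Set.toFinite (Polynomial.degreeLT K (q.natDegree + 1) : Set K[X])).subset h1
  have h3 : {v : DV (RatFunc K) | ∃ π : K[X], At v π ∧ π ∣ q}.Finite := by
    refine Set.Finite.of_finite_image (f := fun v => if h : ∃ π : K[X], At v π then h.choose else 0)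
      (hfin.subset ?_) ?_
    · rintro _ ⟨v, ⟨π, hv, hd⟩, rfl⟩
      have h : ∃ π : K[X], At v π := ⟨π, hv⟩
      simp only [h, dite_true]
      have h4 := h.choose_spec
      have h5 := h4.inj hv
      exact ⟨h4.monic, h5 ▸ hd⟩
    · rintro v ⟨π, hv, hd⟩ w ⟨π', hw, hd'⟩ hvw
      have h : ∃ π : K[X], At v π := ⟨π, hv⟩
      have h' : ∃ π : K[X], At w π := ⟨π', hw⟩
      simp only [h, h', dite_true] at hvw
      have h4 := h.choose_spec
      rw [hvw] at h4
      exact h4.unique h'.choose_spec
  refine ((Set.finite_singleton (inf K)).union h3).subset ?_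
  intro v hv
  rcases inf_or_at v with h | ⟨π, h⟩
  · exact Or.inl h
  · refine Or.inr ⟨π, h, ?_⟩
    by_contra hd
    exact hv ((h.G_div hq.ne_zero hpq).2 hd)

/-- The residue field at infinity. -/
theorem inf_residue {a : RatFunc K} (h : (inf K).G 0 a) :
    ∃ c : K, (inf K).G 1 (a - algebraMap K (RatFunc K) c) := by
  obtain ⟨p, q, hq, hpq, rfl⟩ := exists_div a
  by_cases hp : p = 0
  · exact ⟨0, by rw [hp]; simp only [map_zero, zero_div, sub_zero]; exact DV.G_zero _⟩
  have hq0 := coe_ne hq.ne_zero
  have h1 := h.le (div_ne_zero (coe_ne hp) hq0)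
  rw [(inf K).ord_div (coe_ne hp) hq0, inf_poly, inf_poly] at h1
  have hle : p.natDegree ≤ q.natDegree := by omega
  refine ⟨p.coeff q.natDegree, ?_⟩
  have h2 : algebraMap K[X] (RatFunc K) p / algebraMap K[X] (RatFunc K) q -
      algebraMap K (RatFunc K) (p.coeff q.natDegree) =
      algebraMap K[X] (RatFunc K) (p - C (p.coeff q.natDegree) * q) / algebraMap K[X] (RatFunc K) q := by
    rw [map_sub, map_mul, coe_C]
    field_simp
  rw [h2]
  by_cases h0 : p - C (p.coeff q.natDegree) * q = 0
  · rw [h0, map_zero, zero_div]; exact DV.G_zero _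
  refine DV.G_of_le ?_
  rw [(inf K).ord_div (coe_ne h0) hq0, inf_poly, inf_poly]
  have h3 : (p - C (p.coeff q.natDegree) * q).natDegree < q.natDegree := by
    have h4 : (p - C (p.coeff q.natDegree) * q).natDegree ≤ q.natDegree := by
      refine (natDegree_sub_le _ _).trans (max_le hle ?_)
      exact natDegree_C_mul_le _ _
    rcases h4.lt_or_eq with h5 | h5
    · exact h5
    · exfalso
      apply h0
      rw [← leadingCoeff_eq_zero, leadingCoeff, h5, coeff_sub, coeff_C_mul, hq.coeff_natDegree, mul_one,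
        sub_self]
  omega

/-- The place of `X - a`. -/
noncomputable def pt (a : K) : DV (RatFunc K) := fin (X - C a) (irreducible_X_sub_C a)

theorem pt_at (a : K) : At (pt a) (X - C a) := fin_at _ (monic_X_sub_C a)

theorem coe_X_sub (a : K) : algebraMap K[X] (RatFunc K) (X - C a) =
    RatFunc.X - algebraMap K (RatFunc K) a := by rw [map_sub, coe_C, RatFunc.algebraMap_X]

theorem pt_ord (a : K) : (pt a).ord (RatFunc.X - algebraMap K (RatFunc K) a) = 1 := by
  rw [← coe_X_sub]
  exact (pt_at a).ord_self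

theorem pt_residue (a : K) {f : RatFunc K} (h : (pt a).G 0 f) :
    ∃ c : K, (pt a).G 1 (f - algebraMap K (RatFunc K) c) := by
  obtain ⟨r, hr, h1⟩ := (pt_at a).exists_mod h
  rw [degree_X_sub_C] at hr
  refine ⟨r.coeff 0, ?_⟩
  rw [← coe_C, ← eq_C_of_degree_le_zero (by exact Order.lt_succ_iff.1 hr)]
  exact h1

/-- A place where `X - a` has positive order. -/
theorem eq_pt {v : DV (RatFunc K)} {a : K} (h : v.G 1 (RatFunc.X - algebraMap K (RatFunc K) a)) :
    v = pt a := by
  have h0 : v.G 0 (RatFunc.X : RatFunc K) := by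
    have := (h.mono (by norm_num : (0 : ℤ) ≤ 1)).add (v.G_const (F := RatFunc K) a)
    rwa [sub_add_cancel] at this
  obtain ⟨π, hv⟩ := exists_at (h0.le RatFunc.X_ne_zero)
  rw [← coe_X_sub, hv.iff] at h
  have h1 := hv.irr.associated_of_dvd (irreducible_X_sub_C a) h
  have h2 := eq_of_monic_of_associated hv.monic (monic_X_sub_C a) h1
  subst h2
  exact hv.unique (pt_at a)

theorem pt_ne_inf (a : K) : pt a ≠ inf K := (pt_at a).ne_inf

theorem pt_injective : Function.Injective (pt (K := K)) := by
  intro a b h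
  have h1 := (pt_at a).inj (h ▸ pt_at b)
  have h2 := sub_right_injective h1
  exact C_injective h2

/-- The rational places are `inf` and the `pt a`. -/
theorem eq_of_rational {v : DV (RatFunc K)} (h : ∀ f : RatFunc K, v.G 0 f → ∃ c : K,
    v.G 1 (f - algebraMap K (RatFunc K) c)) : v = inf K ∨ ∃ a : K, v = pt a := by
  rcases inf_or_at v with h1 | ⟨π, h1⟩
  · exact Or.inl h1
  · refine Or.inr ?_
    have h2 : v.G 0 (RatFunc.X : RatFunc K) := by
      have := h1.int X
      rwa [RatFunc.algebraMap_X] at this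
    obtain ⟨c, hc⟩ := h _ h2
    exact ⟨c, eq_pt hc⟩

/-- The residue field of the place of `π` has `|K| ^ deg π` elements: the polynomials of degree less
than `deg π` are a system of representatives. -/
theorem At.repr {v : DV (RatFunc K)} {π : K[X]} (h : At v π) (a : RatFunc K) (ha : v.G 0 a) :
    ∃! r : Polynomial.degreeLT K π.natDegree, v.G 1 (a - algebraMap K[X] (RatFunc K) r) := by
  obtain ⟨r, hr, h1⟩ := h.exists_mod ha
  have hd : ∀ s : K[X], s ∈ Polynomial.degreeLT K π.natDegree ↔ s.degree < π.degree := by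
    intro s
    rw [mem_degreeLT, degree_eq_natDegree h.irr.ne_zero]
  refine ⟨⟨r, (hd r).2 hr⟩, h1, ?_⟩
  rintro ⟨s, hs⟩ h2
  ext1
  refine h.mod_inj ((hd s).1 hs) hr ?_
  have h3 := h1.sub h2
  have h4 : a - algebraMap K[X] (RatFunc K) r - (a - algebraMap K[X] (RatFunc K) s) =
    algebraMap K[X] (RatFunc K) s - algebraMap K[X] (RatFunc K) r := by ring
  rwa [h4] at h3

end main

end Rat

end Pool.Agent.FF
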