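import Pool.Agent.FF.Blk
import Pool.Agent.FF.Sel2

/-!
# Selection with a bound for the minimum distance
-/

set_option autoImplicit false

namespace Pool.Agent.FF

open Finset

/-- a surjection of elementary abelian `2`-groups splits -/
theorem exists_section_two {U R : Type} [AddCommGroup U] [AddCommGroup R]
    (hU : ∀ x : U, x + x = 0) (hR : ∀ x : R, x + x = 0) (π : U →+ R)
    (hπ : Function.Surjective π) : ∃ s : R →+ U, ∀ x, π (s x) = x := by
  let _ : Module (ZMod 2) U := AddCommGroup.zmodModule (fun x => by rw [two_nsmul]; exact hU x)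
  let _ : Module (ZMod 2) R := AddCommGroup.zmodModule (fun x => by rw [two_nsmul]; exact hR x)
  obtain ⟨s, hs⟩ := LinearMap.exists_rightInverse_of_surjective (AddMonoidHom.toZModLinearMap 2 π)
    (LinearMap.range_eq_top.2 hπ)
  exact ⟨s.toAddMonoidHom, fun x => LinearMap.congr_fun hs x⟩

variable {κ ι : Type} [AddCommGroup κ] [Finite κ] [Finite ι]

/-- **Selection for a place `Q` of large degree**, with `k` points prescribed and `N` further
points in a bound for the minimum distance. -/
theorem exists_select_blk (h2 : ∀ x : κ, x + x = 0) (I : AddSubgroup (κ × (ι → ZMod 2)))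
    (g' k N e v : ℕ) (hblk : BlkN N e v) (hk : k + N ≤ Nat.card ι)
    (hI : Nat.card κ ≤ 2 ^ g' * Nat.card (I.map (AddMonoidHom.fst κ (ι → ZMod 2))))
    (hbig : 2 ^ (g' + k + e) ≤ Nat.card κ) :
    ∃ w ∈ I, w.1 ≠ 0 ∧ Nat.card {i : ι // w.2 i ≠ 0} ≤ (Nat.card ι - (k + N)) + v := by
  classical
  have := Fintype.ofFinite ι
  have hcard : Nat.card ι = Fintype.card ι := Nat.card_eq_fintype_card
  obtain ⟨B, -, hB⟩ := Finset.exists_subset_card_eq (s := (univ : Finset ι)) (n := k)
    (by rw [card_univ, ← hcard]; omega)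
  obtain ⟨A, hA', hA⟩ := Finset.exists_subset_card_eq (s := (univ \ B : Finset ι)) (n := N)
    (by rw [card_sdiff_of_subset (subset_univ B), card_univ, hB, ← hcard]; omega)
  let H : AddSubgroup I := ((AddMonoidHom.fst κ (ι → ZMod 2)).comp I.subtype).ker
  let lam : ι → I →+ ZMod 2 := fun i => ((Pi.evalAddMonoidHom (fun _ : ι => ZMod 2) i).comp
    (AddMonoidHom.snd κ (ι → ZMod 2))).comp I.subtype
  have hmemH : ∀ w : I, w ∈ H ↔ (w : κ × (ι → ZMod 2)).1 = 0 := fun w => by
    rw [AddMonoidHom.mem_ker]
    rfl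
  have hcI : Nat.card I = Nat.card (I.map (AddMonoidHom.fst κ (ι → ZMod 2))) * Nat.card H := by
    rw [AddSubgroup.card_eq_card_quotient_mul_card_addSubgroup H]
    congr 1
    have h1 : I.map (AddMonoidHom.fst κ (ι → ZMod 2)) =
        ((AddMonoidHom.fst κ (ι → ZMod 2)).comp I.subtype).range := by
      ext x
      simp only [AddSubgroup.mem_map, AddMonoidHom.mem_range, AddMonoidHom.comp_apply,
        AddSubgroup.coe_subtype, Subtype.exists, exists_prop]
    rw [h1]
    exact Nat.card_congr
      (QuotientAddGroup.quotientKerEquivRange ((AddMonoidHom.fst κ (ι → ZMod 2)).comp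
        I.subtype)).toEquiv
  have hke : 2 ^ (k + e) ≤ Nat.card (I.map (AddMonoidHom.fst κ (ι → ZMod 2))) := by
    have h1 : 2 ^ g' * 2 ^ (k + e) ≤
        2 ^ g' * Nat.card (I.map (AddMonoidHom.fst κ (ι → ZMod 2))) := by
      rw [← pow_add, ← add_assoc]
      exact hbig.trans hI
    exact Nat.le_of_mul_le_mul_left h1 (by positivity)
  set U := _root_.FF.splitOn lam B with hU
  have hUc := _root_.FF.card_le_pow_mul_card_splitOn lam B
  rw [← hU, hB] at hUc
  let π : U →+ κ := ((AddMonoidHom.fst κ (ι → ZMod 2)).comp I.subtype).comp U.subtype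
  have hker : Nat.card π.ker ≤ Nat.card H := by
    refine Nat.card_le_card_of_injective (fun x : π.ker => (⟨((x : U) : I),
      (hmemH _).2 x.2⟩ : H)) fun x y hxy => ?_
    apply Subtype.ext
    apply Subtype.ext
    exact congrArg (fun z : H => (z : I)) hxy
  have hUr : Nat.card U = Nat.card π.range * Nat.card π.ker := by
    rw [AddSubgroup.card_eq_card_quotient_mul_card_addSubgroup π.ker]
    congr 1
    exact Nat.card_congr (QuotientAddGroup.quotientKerEquivRange π).toEquiv
  have hHpos : 0 < Nat.card H := Nat.card_pos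
  have he : 2 ^ e ≤ Nat.card π.range := by
    have h1 : 2 ^ (k + e) * Nat.card H ≤ (2 ^ k * Nat.card π.range) * Nat.card H := by
      calc 2 ^ (k + e) * Nat.card H ≤ Nat.card I := by
            rw [hcI]
            exact Nat.mul_le_mul_right _ hke
        _ ≤ 2 ^ k * Nat.card U := hUc
        _ = 2 ^ k * (Nat.card π.range * Nat.card π.ker) := by rw [hUr]
        _ ≤ 2 ^ k * (Nat.card π.range * Nat.card H) :=
            Nat.mul_le_mul_left _ (Nat.mul_le_mul_left _ hker)
        _ = _ := by ring
    have h3 := Nat.le_of_mul_le_mul_right h1 hHpos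
    rw [pow_add] at h3
    exact Nat.le_of_mul_le_mul_left h3 (by positivity)
  have htwo : ∀ x : ZMod 2, x + x = 0 := by decide
  obtain ⟨s, hs⟩ := exists_section_two (U := U) (R := π.range) (fun x => by
      apply Subtype.ext
      apply Subtype.ext
      refine Prod.ext (h2 _) (funext fun i => htwo _))
    (fun x => Subtype.ext (h2 _)) π.rangeRestrict π.rangeRestrict_surjective
  let φ : π.range →+ (A → ZMod 2) :=
    { toFun := fun w i => lam i (s w : U)
      map_zero' := by
        funext i
        simp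
      map_add' := fun x y => by
        funext i
        simp }
  obtain ⟨w, hw0, hw⟩ := hblk A (by rw [Fintype.card_coe, hA]) π.range φ he
  have hw1 : ((s w : U) : κ × (ι → ZMod 2)).1 = w := congrArg Subtype.val (hs w)
  refine ⟨((s w : U) : I), ((s w : U) : I).2, fun h => hw0 (Subtype.ext (hw1.symm.trans h)), ?_⟩
  have hfil : hammingNorm (φ w) = (A.filter fun P => lam P (s w : U) ≠ 0).card := by
    unfold hammingNorm
    rw [← card_map (Function.Embedding.subtype (· ∈ A))]
    congr 1
    ext P
    simp only [mem_map, mem_filter, mem_univ, true_and, Function.Embedding.coe_subtype,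
      Subtype.exists, exists_and_right, exists_eq_right]
    constructor
    · rintro ⟨hP, h4⟩
      exact ⟨hP, h4⟩
    · rintro ⟨hP, h4⟩
      exact ⟨hP, h4⟩
  rw [hfil] at hw
  rw [Nat.card_eq_fintype_card, Fintype.card_subtype]
  have h3 : (univ.filter fun i : ι => ((s w : U) : κ × (ι → ZMod 2)).2 i ≠ 0) ⊆
      (univ \ (B ∪ A)) ∪ (A.filter fun P => lam P (s w : U) ≠ 0) := by
    intro i hi
    rw [mem_filter] at hi
    rw [mem_union, mem_sdiff, mem_union, mem_filter]
    by_cases hiA : i ∈ A
    · exact Or.inr ⟨hiA, hi.2⟩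
    · refine Or.inl ⟨mem_univ _, ?_⟩
      rintro (hiB | hiA')
      · exact hi.2 ((_root_.FF.mem_splitOn.1 (s w : U).2) i hiB)
      · exact hiA hiA'
  refine (card_le_card h3).trans ((card_union_le _ _).trans (Nat.add_le_add ?_ hw))
  have hdisj : Disjoint B A := by
    rw [disjoint_left]
    intro i hi hi'
    exact (mem_sdiff.1 (hA' hi')).2 hi
  rw [card_sdiff_of_subset (subset_univ _), card_univ, card_union_of_disjoint hdisj, hA, hB, hcard]

end Pool.Agent.FF
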