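import Pool.Agent.FF.EB
import Pool.Agent.FF.Sel2

/-!
# Selection with the Elias-Bassalygo argument
-/

set_option autoImplicit false

namespace Pool.Agent.FF

open Finset

/-- the number of binary words of length `m` and weight at most `t` -/
noncomputable def ballN (m t : ℕ) : ℕ :=
  (univ.filter fun w : Fin m → ZMod 2 => hammingNorm w ≤ t).card

theorem ballN_eq {ι : Type*} [Fintype ι] [DecidableEq ι] {m : ℕ} (h : Fintype.card ι = m) (t : ℕ) :
    (univ.filter fun w : ι → ZMod 2 => hammingNorm w ≤ t).card = ballN m t := by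
  classical
  have e : ι ≃ Fin m := Fintype.equivFinOfCardEq h
  unfold ballN
  refine card_equiv (Equiv.arrowCongr e (Equiv.refl _)) fun w => ?_
  rw [mem_filter, mem_filter]
  have h1 : hammingNorm (Equiv.arrowCongr e (Equiv.refl (ZMod 2)) w) = hammingNorm w := by
    unfold hammingNorm
    refine card_equiv e.symm fun i => ?_
    simp [Equiv.arrowCongr]
  rw [h1]
  simp

/-- **Selection.** A ramified class splitting all of `B` and most of `A`. -/
theorem exists_select_EB0 {W ι : Type*} [AddCommGroup W] [Finite W] (W₀ : AddSubgroup W)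
    (lam : ι → W →+ ZMod 2) (B A : Finset ι) (t M : ℕ) (hM : 2 ≤ M) (ht : 2 * t ≤ A.card)
    (hcard : M * 2 ^ A.card * (2 ^ B.card * Nat.card W₀) ≤ Nat.card W * ballN A.card t) :
    ∃ w : W, w ∉ W₀ ∧ (∀ P ∈ B, lam P w = 0) ∧
      (M - 1) * A.card * (A.filter fun P => lam P w ≠ 0).card ≤ 2 * M * t * (A.card - t) := by
  classical
  set U := _root_.FF.splitOn lam B with hU
  set H : AddSubgroup U := W₀.addSubgroupOf U with hH
  have hUc := _root_.FF.card_le_pow_mul_card_splitOn lam B
  rw [← hU] at hUc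
  have hHc : Nat.card H ≤ Nat.card W₀ := by
    refine Nat.card_le_card_of_injective (fun x : H => (⟨((x : U) : W),
      AddSubgroup.mem_addSubgroupOf.1 x.2⟩ : W₀)) fun x y hxy => ?_
    apply Subtype.ext
    apply Subtype.ext
    exact congrArg (fun z : W₀ => (z : W)) hxy
  have hQ : Nat.card U = Nat.card (U ⧸ H) * Nat.card H :=
    AddSubgroup.card_eq_card_quotient_mul_card_addSubgroup H
  have := Fintype.ofFinite (U ⧸ H)
  let word : (U ⧸ H) → (A → ZMod 2) := fun q i => lam i (q.out : U)
  have hcA : Fintype.card A = A.card := Fintype.card_coe A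
  have hpos : 0 < 2 ^ B.card * Nat.card W₀ := Nat.mul_pos (by positivity) Nat.card_pos
  have hmain : M * 2 ^ A.card ≤ Nat.card (U ⧸ H) * ballN A.card t := by
    refine Nat.le_of_mul_le_mul_right (c := 2 ^ B.card * Nat.card W₀) (hcard.trans ?_) hpos
    calc Nat.card W * ballN A.card t
        ≤ (2 ^ B.card * (Nat.card (U ⧸ H) * Nat.card W₀)) * ballN A.card t := by
          refine Nat.mul_le_mul_right _ (hUc.trans (Nat.mul_le_mul_left _ ?_))
          rw [hQ]
          exact Nat.mul_le_mul_left _ hHc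
      _ = _ := by ring
  obtain ⟨a, -, b, -, hab, h1⟩ := eb_exists (ι := A) (univ : Finset (U ⧸ H)) word t M hM
    (by rw [hcA]; exact ht) (by
      rw [hcA, card_univ, ballN_eq hcA, ← Nat.card_eq_fintype_card]
      exact hmain)
  refine ⟨((a.out - b.out : U) : W), fun h => hab ?_, fun P hP => ?_, ?_⟩
  · have h2 : (a.out - b.out : U) ∈ H := AddSubgroup.mem_addSubgroupOf.2 h
    rw [← Quotient.out_eq' a, ← Quotient.out_eq' b]
    refine (QuotientAddGroup.eq_iff_sub_mem).2 ?_
    exact h2
  · exact (_root_.FF.mem_splitOn.1 (a.out - b.out : U).2) P hP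
  · rw [hcA] at h1
    have h3 : hammingDist (word a) (word b) =
        (A.filter fun P => lam P ((a.out - b.out : U) : W) ≠ 0).card := by
      unfold hammingDist
      rw [← card_map (Function.Embedding.subtype (· ∈ A))]
      congr 1
      ext P
      simp only [mem_map, mem_filter, mem_univ, true_and, Function.Embedding.coe_subtype,
        Subtype.exists, exists_and_right, exists_eq_right]
      constructor
      · rintro ⟨hP, h4⟩
        refine ⟨hP, fun h5 => h4 ?_⟩
        change lam P ((a.out : U) : W) = lam P ((b.out : U) : W)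
        rw [← sub_eq_zero, ← map_sub]
        exact h5
      · rintro ⟨hP, h4⟩
        refine ⟨hP, fun h5 => h4 ?_⟩
        change lam P (((a.out : U) : W) - ((b.out : U) : W)) = 0
        rw [map_sub, sub_eq_zero]
        exact h5
    rwa [h3] at h1

section

variable {κ ι : Type*} [AddCommGroup κ] [Finite κ] [Finite ι]

/-- **Selection for a place `Q` of large degree**, with `k` points prescribed and `m` further
points in the Elias-Bassalygo argument. -/
theorem exists_select_EB (I : AddSubgroup (κ × (ι → ZMod 2))) (g' k m t M e : ℕ) (hM : 2 ≤ M)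
    (ht : 2 * t ≤ m) (hk : k + m ≤ Nat.card ι)
    (hI : Nat.card κ ≤ 2 ^ g' * Nat.card (I.map (AddMonoidHom.fst κ (ι → ZMod 2))))
    (hball : M * 2 ^ m ≤ 2 ^ e * ballN m t)
    (hbig : 2 ^ (g' + k + e) ≤ Nat.card κ) :
    ∃ w ∈ I, w.1 ≠ 0 ∧
      (M - 1) * m * Nat.card {i : ι // w.2 i ≠ 0} ≤
        (M - 1) * m * (Nat.card ι - (k + m)) + 2 * M * t * (m - t) := by
  classical
  have := Fintype.ofFinite ι
  have hcard : Nat.card ι = Fintype.card ι := Nat.card_eq_fintype_card
  obtain ⟨B, -, hB⟩ := Finset.exists_subset_card_eq (s := (univ : Finset ι)) (n := k)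
    (by rw [card_univ, ← hcard]; omega)
  obtain ⟨A, hA', hA⟩ := Finset.exists_subset_card_eq (s := (univ \ B : Finset ι)) (n := m)
    (by rw [card_sdiff_of_subset (subset_univ B), card_univ, hB, ← hcard]; omega)
  let H : AddSubgroup I := ((AddMonoidHom.fst κ (ι → ZMod 2)).comp I.subtype).ker
  let lam : ι → I →+ ZMod 2 := fun i => ((Pi.evalAddMonoidHom (fun _ : ι => ZMod 2) i).comp
    (AddMonoidHom.snd κ (ι → ZMod 2))).comp I.subtype
  have hmemH : ∀ w : I, w ∈ H ↔ (w : κ × (ι → ZMod 2)).1 = 0 := fun w => by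
    rw [AddMonoidHom.mem_ker]
    rfl
  have hcI : Nat.card I = Nat.card (I.map (AddMonoidHom.fst κ (ι → ZMod 2))) * Nat.card H := by
    rw [AddSubgroup.card_eq_card_quotient_mul_card_addSubgroup H]
    congr 1
    have h1 : I.map (AddMonoidHom.fst κ (ι → ZMod 2)) =
        ((AddMonoidHom.fst κ (ι → ZMod 2)).comp I.subtype).range := by
      ext x
      simp only [AddSubgroup.mem_map, AddMonoidHom.mem_range, AddMonoidHom.comp_apply,
        AddSubgroup.coe_subtype, Subtype.exists, exists_prop]
    rw [h1]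
    exact Nat.card_congr
      (QuotientAddGroup.quotientKerEquivRange ((AddMonoidHom.fst κ (ι → ZMod 2)).comp
        I.subtype)).toEquiv
  have hke : 2 ^ (k + e) ≤ Nat.card (I.map (AddMonoidHom.fst κ (ι → ZMod 2))) := by
    have h1 : 2 ^ g' * 2 ^ (k + e) ≤
        2 ^ g' * Nat.card (I.map (AddMonoidHom.fst κ (ι → ZMod 2))) := by
      rw [← pow_add, ← add_assoc]
      exact hbig.trans hI
    exact Nat.le_of_mul_le_mul_left h1 (by positivity)
  obtain ⟨w, hw, hwB, hwA⟩ := exists_select_EB0 H lam B A t M hM (by rw [hA]; exact ht) (by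
    rw [hA, hB, hcI]
    calc M * 2 ^ m * (2 ^ k * Nat.card H) ≤ (2 ^ e * ballN m t) * (2 ^ k * Nat.card H) :=
          Nat.mul_le_mul_right _ hball
      _ = 2 ^ (k + e) * Nat.card H * ballN m t := by
          rw [pow_add]
          ring
      _ ≤ _ := Nat.mul_le_mul_right _ (Nat.mul_le_mul_right _ hke))
  refine ⟨w, w.2, fun h => hw ((hmemH w).2 h), ?_⟩
  have h2 : Nat.card {i : ι // (w : κ × (ι → ZMod 2)).2 i ≠ 0} ≤
      (Nat.card ι - (k + m)) + (A.filter fun P => lam P w ≠ 0).card := by
    rw [Nat.card_eq_fintype_card, Fintype.card_subtype]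
    have h3 : (univ.filter fun i : ι => (w : κ × (ι → ZMod 2)).2 i ≠ 0) ⊆
        (univ \ (B ∪ A)) ∪ (A.filter fun P => lam P w ≠ 0) := by
      intro i hi
      rw [mem_filter] at hi
      rw [mem_union, mem_sdiff, mem_union, mem_filter]
      by_cases hiA : i ∈ A
      · exact Or.inr ⟨hiA, hi.2⟩
      · refine Or.inl ⟨mem_univ _, ?_⟩
        rintro (hiB | hiA')
        · exact hi.2 (hwB i hiB)
        · exact hiA hiA'
    refine (card_le_card h3).trans ((card_union_le _ _).trans (Nat.add_le_add_right ?_ _))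
    have hdisj : Disjoint B A := by
      rw [disjoint_left]
      intro i hi hi'
      exact (mem_sdiff.1 (hA' hi')).2 hi
    rw [card_sdiff_of_subset (subset_univ _), card_univ, card_union_of_disjoint hdisj, hA, hB,
      hcard]
  rw [hA] at hwA
  calc (M - 1) * m * Nat.card {i : ι // (w : κ × (ι → ZMod 2)).2 i ≠ 0}
      ≤ (M - 1) * m * ((Nat.card ι - (k + m)) + (A.filter fun P => lam P w ≠ 0).card) :=
        Nat.mul_le_mul_left _ h2
    _ = (M - 1) * m * (Nat.card ι - (k + m)) +
        (M - 1) * m * (A.filter fun P => lam P w ≠ 0).card := by ring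
    _ ≤ _ := Nat.add_le_add_left hwA _

end

end Pool.Agent.FF
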