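import Pool.Agent.FF.Defs

/-! # Subfields of function fields are function fields -/

set_option autoImplicit false

namespace Pool.Agent.FF

open IntermediateField Algebra

open scoped IntermediateField.algebraAdjoinAdjoin

theorem trdeg_one {k L : Type} [Field k] [Field L] [Algebra k L] {w : L} (hw : Transcendental k w)
    (hfin : FiniteDimensional (IntermediateField.adjoin k {w}) L) : Algebra.trdeg k L = 1 := by
  have h1 : Algebra.trdeg (IntermediateField.adjoin k {w}) L = 0 :=
    trdeg_eq_zero_iff.2 (Algebra.IsAlgebraic.of_finite _ _)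
  have hx : AlgebraicIndependent k (fun _ : Unit => w) :=
    algebraicIndependent_unique_type_iff.2 hw
  have hr : Set.range (fun _ : Unit => w) = {w} := by
    ext y
    simp [eq_comm]
  have halg : Algebra.IsAlgebraic (IntermediateField.adjoin k (Set.range fun _ : Unit => w)) L := by
      rw [hr]
      exact Algebra.IsAlgebraic.of_finite _ _
  have hb : IsTranscendenceBasis k (fun _ : Unit => w) := by
    rw [hx.isTranscendenceBasis_iff_isAlgebraic]
    have : Algebra.IsAlgebraic (Algebra.adjoin k (Set.range fun _ : Unit => w))
        (IntermediateField.adjoin k (Set.range fun _ : Unit => w)) := inferInstance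
    exact Algebra.IsAlgebraic.trans _ (IntermediateField.adjoin k (Set.range fun _ : Unit => w)) _
  have := hb.cardinalMk_eq_trdeg
  rw [← this]
  simp

theorem IsFF.down {k F L : Type} [Field k] [Field F] [Field L] [Algebra k F] [Algebra k L]
    [Algebra F L] [IsScalarTower k F L] (h : IsFF k L) {u : F} (hu : Transcendental k u) :
    IsFF k F := by
  obtain ⟨w, hw, hfin⟩ := h.fin
  refine ⟨⟨u, hu, ?_⟩, ?_⟩
  · have h1 := trdeg_one hw hfin
    set E := IntermediateField.adjoin k {u} with hE
    have huE : u ∈ E := mem_adjoin_simple_self k u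
    have hEtr : Algebra.trdeg k E ≠ 0 := by
      rw [trdeg_ne_zero_iff]
      refine ⟨⟨u, huE⟩, fun halg => hu ?_⟩
      have h0 : IsAlgebraic k (algebraMap E F ⟨u, huE⟩) := halg.algebraMap
      exact h0
    have h2 := trdeg_add_eq k E (A := L)
    have h3 : Algebra.trdeg E L = 0 := by
      rw [h1] at h2
      have h4 : Algebra.trdeg k E < Cardinal.aleph0 :=
        lt_of_le_of_lt (by rw [← h2]; exact self_le_add_right _ _) Cardinal.one_lt_aleph0
      have h5 : Algebra.trdeg E L < Cardinal.aleph0 :=
        lt_of_le_of_lt (by rw [← h2]; exact self_le_add_left _ _) Cardinal.one_lt_aleph0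
      obtain ⟨a, ha⟩ := Cardinal.lt_aleph0.1 h4
      obtain ⟨b, hb⟩ := Cardinal.lt_aleph0.1 h5
      rw [ha, hb] at h2
      rw [ha] at hEtr
      rw [hb]
      have h6 : a + b = 1 := by exact_mod_cast h2
      have h7 : a ≠ 0 := by
        rintro rfl
        exact hEtr (by simp)
      have : b = 0 := by omega
      rw [this]
      simp
    have halg : Algebra.IsAlgebraic E L := trdeg_eq_zero_iff.1 h3
    haveI h8 : Algebra.EssFiniteType k (IntermediateField.adjoin k {w}) :=
      essFiniteType_iff.2 (fg_adjoin_of_finite (Set.finite_singleton w))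
    haveI h9 : Algebra.EssFiniteType (IntermediateField.adjoin k {w}) L := inferInstance
    haveI h10 : Algebra.EssFiniteType k L := Algebra.EssFiniteType.comp k (IntermediateField.adjoin k {w}) L
    haveI h11 : Algebra.EssFiniteType E L := Algebra.EssFiniteType.of_comp k E L
    obtain ⟨S, hS⟩ := fg_top E L
    have h12 : FiniteDimensional E (IntermediateField.adjoin E (S : Set L)) :=
      finiteDimensional_adjoin fun x _ => (halg.isAlgebraic x).isIntegral
    rw [hS] at h12
    have h13 : FiniteDimensional E L :=
      LinearEquiv.finiteDimensional (IntermediateField.topEquiv (F := E) (E := L)).toLinearEquiv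
    exact FiniteDimensional.of_injective ((Algebra.linearMap F L).restrictScalars E)
      (algebraMap F L).injective
  · intro a ha
    obtain ⟨c, hc⟩ := h.const (algebraMap F L a) (ha.algebraMap)
    refine ⟨c, (algebraMap F L).injective ?_⟩
    rw [hc, ← IsScalarTower.algebraMap_apply k F L]

end Pool.Agent.FF
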