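import Pool.Agent.FF.TmCv

/-! # The fixed field of an automorphism of odd order: it is a curve, its genus -/

set_option autoImplicit false
set_option linter.unusedSectionVars false

namespace Pool.Agent.FF

open Finset RRD

section pow

/-- Finite quotient spaces over a finite field. -/
theorem relIndex_pow (k : Type*) [Field k] [Finite k] {V : Type*} [AddCommGroup V] [Module k V]
    (N M : Submodule k V) (h : N.toAddSubgroup.relIndex M.toAddSubgroup ≠ 0) :
    ∃ d : ℕ, N.toAddSubgroup.relIndex M.toAddSubgroup = Nat.card k ^ d := by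
  have h2 : N.toAddSubgroup.relIndex M.toAddSubgroup = Nat.card (M ⧸ N.submoduleOf M) := rfl
  have hfin : Finite (M ⧸ N.submoduleOf M) := by
    apply Nat.finite_of_card_ne_zero
    rw [← h2]
    exact h
  have : Module.Finite k (M ⧸ N.submoduleOf M) := Module.Finite.of_finite
  rw [h2]
  exact ⟨_, Module.natCard_eq_pow_finrank (K := k) (V := M ⧸ N.submoduleOf M)⟩

variable (k : Type*) [Field k] [Finite k] (K : Type*) [Field K] [Algebra k K]

/-- The elements of order at least `n`, as a space of the constants. -/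
def grpS {K : Type*} [Field K] [Algebra k K] (v : DV K) (n : ℤ) : Submodule k K where
  carrier := {a | v.G n a}
  zero_mem' := DV.G_zero n
  add_mem' ha hb := DV.G.add ha hb
  smul_mem' c a ha := by
    rw [Algebra.smul_def]
    have := (G_algebraMap v c).mul ha
    rwa [zero_add] at this

/-- The repartitions. -/
def AdlS : Submodule k (DV K → K) where
  carrier := {r | r ∈ Adl K}
  zero_mem' := (Adl K).zero_mem
  add_mem' ha hb := (Adl K).add_mem ha hb
  smul_mem' c r hr := by
    refine Set.Finite.subset (s := {v : DV K | ¬ v.G 0 (r v)}) hr fun v hv h => hv ?_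
    show v.G 0 (c • r v)
    rw [Algebra.smul_def]
    have := (G_algebraMap v c).mul h
    rwa [zero_add] at this

/-- The bounded repartitions. -/
def AIntS (D : DV K → ℤ) : Submodule k (DV K → K) where
  carrier := {r | r ∈ AInt D}
  zero_mem' := (AInt D).zero_mem
  add_mem' ha hb := (AInt D).add_mem ha hb
  smul_mem' c r hr := by
    intro v
    show v.G _ (c • r v)
    rw [Algebra.smul_def]
    have := (G_algebraMap v c).mul (hr v)
    rwa [zero_add] at this

/-- The constant repartitions. -/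
def PrinS : Submodule k (DV K → K) where
  carrier := {r | r ∈ Prin K}
  zero_mem' := (Prin K).zero_mem
  add_mem' ha hb := (Prin K).add_mem ha hb
  smul_mem' c r hr := by
    obtain ⟨a, ha⟩ := hr
    refine ⟨c • a, fun v => ?_⟩
    rw [Pi.smul_apply, ha]

theorem hCard_pow {D : DV K → ℤ} (h : hCard D ≠ 0) : ∃ d : ℕ, hCard D = Nat.card k ^ d := by
  have e : (AIntS k K D ⊔ PrinS k K).toAddSubgroup = AInt D ⊔ Prin K := by
    rw [Submodule.sup_toAddSubgroup]
    rfl
  have e2 : (AdlS k K).toAddSubgroup = Adl K := rfl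
  have := relIndex_pow k (AIntS k K D ⊔ PrinS k K) (AdlS k K)
  rw [e, e2] at this
  exact this h

theorem card_Res_pow {K : Type*} [Field K] [Algebra k K] (v : DV K) (h : Nat.card v.Res ≠ 0) :
    ∃ d : ℕ, Nat.card v.Res = Nat.card k ^ d :=
  relIndex_pow k (grpS k v 1) (grpS k v 0) h

end pow

theorem DV.card_Res_ne_one {K : Type*} [Field K] (v : DV K) : Nat.card v.Res ≠ 1 := by
  intro h
  have h1 : (v.grp 1).relIndex (v.grp 0) = 1 := h
  rw [AddSubgroup.relIndex_eq_one] at h1
  have h2 : (1 : K) ∈ v.grp 1 := h1 (show (1 : K) ∈ v.grp 0 from DV.G_one)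
  have h3 : v.G 1 (1 : K) := h2
  have := h3.le one_ne_zero
  rw [v.ord_one] at this
  omega

/-- the classes -/
abbrev Tm.Q (K : Type*) [Field K] (D : DV K → ℤ) : Type _ := Adl K ⧸ (AInt D ⊔ Prin K).addSubgroupOf (Adl K)

theorem Tm.card_Q (K : Type*) [Field K] (D : DV K → ℤ) : Nat.card (Tm.Q K D) = hCard D := rfl

namespace Tm

variable {k K L : Type*} [Field k] [Finite k] [Field K] [Field L] [Algebra k K] [Algebra k L]
  [Algebra K L] [IsScalarTower k K L] [CharP L 2] {n : ℕ} (S : Tm k K L n)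

include S

theorem above (v : DV K) : ∃ w : DV L, Over w v := by
  haveI := S.finite
  exact exists_above v

theorem below (w : DV L) : ∃ v : DV K, Over w v := by
  haveI := S.finite
  exact exists_below w

/-- a place above -/
noncomputable def up (v : DV K) : DV L := Classical.choose (S.above v)

theorem up_over (v : DV K) : Over (S.up v) v := Classical.choose_spec (S.above v)

/-- the place below -/
noncomputable def dn (w : DV L) : DV K := Classical.choose (S.below w)

theorem dn_over (w : DV L) : Over w (S.dn w) := Classical.choose_spec (S.below w)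

theorem dn_eq {w : DV L} {v : DV K} (h : Over w v) : S.dn w = v := (S.dn_over w).unique h

theorem up_inj : Function.Injective S.up := by
  intro v v' h
  have h1 := S.up_over v
  rw [h] at h1
  exact h1.unique (S.up_over v')

variable {g : ℕ} (C : Cv k L g)

include C

theorem polesK (a : K) : {v : DV K | ¬ v.G 0 a}.Finite := by
  refine ((C.poles (algebraMap K L a)).preimage S.up_inj.injOn).subset fun v hv => ?_
  show ¬ (S.up v).G 0 (algebraMap K L a)
  rw [(S.up_over v).G_zero_iff]
  exact hv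

theorem constK (a : K) (ha : ∀ v : DV K, v.G 0 a) : ∃ c : k, a = algebraMap k K c := by
  obtain ⟨c, hc⟩ := C.const (algebraMap K L a) fun w => ((S.dn_over w).G_zero_iff a).2 (ha _)
  refine ⟨c, (algebraMap K L).injective ?_⟩
  rw [hc, ← IsScalarTower.algebraMap_apply k K L]

theorem resK_ne (v : DV K) : Nat.card v.Res ≠ 0 := by
  let f : K →+ L := (algebraMap K L).toAddMonoidHom
  have e : v.grp 1 = ((S.up v).grp 1).comap f := by
    ext a
    exact ((S.up_over v).G_one_iff a).symm
  have h1 : Nat.card v.Res = ((S.up v).grp 1).relIndex ((v.grp 0).map f) := by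
    show (v.grp 1).relIndex (v.grp 0) = _
    rw [e, AddSubgroup.relIndex_comap]
  rw [h1]
  intro h0
  have hle : (v.grp 0).map f ≤ (S.up v).grp 0 := by
    rintro _ ⟨a, ha, rfl⟩
    exact ((S.up_over v).G_zero_iff a).2 ha
  have h2 : ((S.up v).grp 1).relIndex ((S.up v).grp 0) = 0 :=
    AddSubgroup.relIndex_eq_zero_of_le_right hle h0
  have h3 : Nat.card (S.up v).Res ≠ 0 := by
    rw [(C.res _).2]
    exact pow_ne_zero _ Nat.card_pos.ne'
  exact h3 h2

theorem resK (v : DV K) : 1 ≤ v.deg (Nat.card k) ∧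
    Nat.card v.Res = Nat.card k ^ v.deg (Nat.card k) := by
  obtain ⟨d, hd⟩ := card_Res_pow k v (S.resK_ne C v)
  have h1 : v.deg (Nat.card k) = d := by
    unfold DV.deg
    rw [hd, Nat.log_pow Finite.one_lt_card]
  rw [h1]
  refine ⟨?_, hd⟩
  rcases Nat.eq_zero_or_pos d with h | h
  · rw [h, pow_zero] at hd
    exact absurd hd v.card_Res_ne_one
  · exact h

omit C

/-- the `n`-th power of `θ` -/
noncomputable def Θ : K := Classical.choose S.exists_Θ

theorem Θ_spec : algebraMap K L S.Θ = S.θ ^ n := Classical.choose_spec S.exists_Θ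

theorem Θ_ne : S.Θ ≠ 0 := by
  intro h
  have := S.Θ_spec
  rw [h, map_zero] at this
  exact pow_ne_zero n S.θ_ne this.symm

/-- the combination of repartitions -/
noncomputable def Psi (a : ℕ → DV K → K) : DV L → L :=
  fun w => ∑ i ∈ range n, algebraMap K L (a i (S.dn w)) * S.θ ^ i

theorem Psi_sub (a b : ℕ → DV K → K) : S.Psi a - S.Psi b = S.Psi (a - b) := by
  funext w
  simp only [Psi, Pi.sub_apply, map_sub, sub_mul, sum_sub_distrib]

include C in
theorem Psi_mem {a : ℕ → DV K → K} (ha : ∀ i, i < n → a i ∈ Adl K) : S.Psi a ∈ Adl L := by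
  have h1 : S.Psi a = ∑ i ∈ range n, fun w => algebraMap K L (a i (S.dn w)) * S.θ ^ i := by
    funext w
    rw [Finset.sum_apply]
    rfl
  rw [h1]
  refine AddSubgroup.sum_mem _ fun i hi => ?_
  have h2 : {v : DV K | ¬ v.G 0 (a i v)}.Finite := ha i (mem_range.1 hi)
  have h3 : (⋃ v ∈ {v : DV K | ¬ v.G 0 (a i v)}, {w : DV L | Over w v}).Finite :=
    h2.biUnion fun v _ => over_finite C.poles v
  refine (h3.union (C.poles (S.θ ^ i))).subset fun w hw => ?_
  by_contra hc
  rw [Set.mem_union, not_or] at hc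
  apply hw
  have h4 : w.G 0 (S.θ ^ i) := not_not.1 hc.2
  have h5 : (S.dn w).G 0 (a i (S.dn w)) := by
    by_contra h6
    exact hc.1 (Set.mem_biUnion (show S.dn w ∈ {v : DV K | ¬ v.G 0 (a i v)} from h6) (S.dn_over w))
  have h7 := (((S.dn_over w).G_zero_iff _).2 h5).mul h4
  rwa [add_zero] at h7

/-- the divisor belonging to the `i`-th component -/
noncomputable def D (i : ℕ) (v : DV K) : ℤ := -((i * v.ord S.Θ) / n)

theorem D_zero : S.D 0 = 0 := by
  funext v
  simp [D]

/-- the components of a principal + integral repartition -/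
theorem key {a : ℕ → DV K → K} (h : S.Psi a ∈ AInt (0 : DV L → ℤ) ⊔ Prin L) {i : ℕ} (hi : i < n) :
    a i ∈ AInt (S.D i) ⊔ Prin K := by
  obtain ⟨b, hb, r, ⟨f, hf⟩, hsum⟩ := AddSubgroup.mem_sup.1 h
  obtain ⟨φ, hφ⟩ := S.exists_coords f
  refine AddSubgroup.mem_sup.2 ⟨fun v => a i v - φ i, ?_, fun _ => φ i, ⟨φ i, fun _ => rfl⟩, ?_⟩
  · intro v
    have hall : ∀ w : DV L, Over w v →
        w.G 0 (∑ l ∈ range n, algebraMap K L (a l v - φ l) * S.θ ^ l) := by
      intro w hw
      have h1 : (∑ l ∈ range n, algebraMap K L (a l v - φ l) * S.θ ^ l) = b w := by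
        have h2 := congrFun hsum w
        rw [Pi.add_apply, hf, hφ] at h2
        have h3 : S.Psi a w = ∑ l ∈ range n, algebraMap K L (a l v) * S.θ ^ l := by
          unfold Psi
          rw [S.dn_eq hw]
        rw [h3] at h2
        rw [eq_sub_of_add_eq h2, ← sum_sub_distrib]
        refine sum_congr rfl fun l _ => ?_
        rw [map_sub, sub_mul]
      rw [h1]
      exact hb w
    have h4 := S.G_E hall i (S.up v) (S.up_over v)
    rw [S.E_coords (a := fun l => a l v - φ l) hi] at h4
    show v.G (S.D i v) (a i v - φ i)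
    by_cases h0 : a i v - φ i = 0
    · rw [h0]
      exact DV.G_zero _
    · apply DV.G_of_le
      obtain ⟨e, he, hov⟩ := S.up_over v
      have h5 := h4.le (mul_ne_zero (map_ne_zero' h0) (pow_ne_zero i S.θ_ne))
      rw [(S.up v).ord_mul _ _ (map_ne_zero' h0) (pow_ne_zero i S.θ_ne), hov _ h0,
        (S.up v).ord_pow S.θ_ne] at h5
      have h6 : (n : ℤ) * (S.up v).ord S.θ = e * v.ord S.Θ := by
        rw [← (S.up v).ord_pow S.θ_ne, ← S.Θ_spec, hov _ S.Θ_ne]
      have hn : (0 : ℤ) < n := by exact_mod_cast S.n_pos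
      have h7 : 0 ≤ e * ((n : ℤ) * v.ord (a i v - φ i) + i * v.ord S.Θ) := by
        have h8 : 0 ≤ (n : ℤ) * (e * v.ord (a i v - φ i) + i * (S.up v).ord S.θ) :=
          mul_nonneg hn.le h5
        calc (0 : ℤ) ≤ (n : ℤ) * (e * v.ord (a i v - φ i) + i * (S.up v).ord S.θ) := h8
          _ = e * (n * v.ord (a i v - φ i)) + i * (n * (S.up v).ord S.θ) := by ring
          _ = _ := by rw [h6]; ring
      have h9 : 0 ≤ (n : ℤ) * v.ord (a i v - φ i) + i * v.ord S.Θ := by
        by_contra hneg
        push Not at hneg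
        have := mul_neg_of_pos_of_neg he hneg
        omega
      unfold D
      have h10 : -v.ord (a i v - φ i) ≤ (i * v.ord S.Θ) / n := by
        rw [Int.le_ediv_iff_mul_le hn]
        linarith
      omega
  · funext v
    show a i v - φ i + φ i = a i v
    rw [sub_add_cancel]

/-- the map on classes (through representatives) -/
noncomputable def F (C : Cv k L g) (q : ∀ i : Fin n, Q K (S.D i)) : Q L (0 : DV L → ℤ) :=
  QuotientAddGroup.mk ⟨S.Psi fun i => if h : i < n then ((q ⟨i, h⟩).out : DV K → K) else 0,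
    S.Psi_mem C fun i hi => by rw [dif_pos hi]; exact (q ⟨i, hi⟩).out.2⟩

theorem F_inj (C : Cv k L g) : Function.Injective (S.F C) := by
  intro q q' h
  unfold F at h
  rw [QuotientAddGroup.eq, AddSubgroup.mem_addSubgroupOf] at h
  funext i
  set a : ℕ → DV K → K := fun i => if h : i < n then ((q ⟨i, h⟩).out : DV K → K) else 0 with ha
  set a' : ℕ → DV K → K := fun i => if h : i < n then ((q' ⟨i, h⟩).out : DV K → K) else 0 with ha'
  have h1 : S.Psi (a' - a) ∈ AInt (0 : DV L → ℤ) ⊔ Prin L := by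
    rw [← S.Psi_sub]
    have h2 : S.Psi a' - S.Psi a = -S.Psi a + S.Psi a' := by ring
    rw [h2]
    exact h
  have h3 := S.key h1 i.2
  have h4 : (a' - a) (i : ℕ) = -((q i).out : DV K → K) + ((q' i).out : DV K → K) := by
    rw [Pi.sub_apply, ha, ha']
    simp only [i.2, dif_pos]
    ring
  rw [h4] at h3
  rw [← QuotientAddGroup.out_eq' (q i), ← QuotientAddGroup.out_eq' (q' i), QuotientAddGroup.eq,
    AddSubgroup.mem_addSubgroupOf]
  exact h3

theorem finQL (C : Cv k L g) : Finite (Q L (0 : DV L → ℤ)) := by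
  apply Nat.finite_of_card_ne_zero
  rw [card_Q, hgen C]
  exact pow_ne_zero _ Nat.card_pos.ne'

theorem prod_le (C : Cv k L g) :
    (∀ i : Fin n, hCard (S.D i) ≠ 0) ∧ ∏ i : Fin n, hCard (S.D i) ≤ Nat.card k ^ g := by
  haveI := S.finQL C
  haveI hfin : Finite (∀ i : Fin n, Q K (S.D i)) := Finite.of_injective _ (S.F_inj C)
  constructor
  · intro i
    rw [← card_Q]
    haveI : Finite (Q K (S.D i)) :=
      Finite.of_surjective (fun q : ∀ i : Fin n, Q K (S.D i) => q i)
        (Function.surjective_eval i)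
    exact Nat.card_pos.ne'
  · have h1 := Nat.card_le_card_of_injective _ (S.F_inj C)
    rw [Nat.card_pi, card_Q, hgen C] at h1
    exact h1

theorem exists_genus (C : Cv k L g) : ∃ g' : ℕ, Cv k K g' := by
  have h0 : hCard (0 : DV K → ℤ) ≠ 0 := by
    have := (S.prod_le C).1 ⟨0, S.n_pos⟩
    rwa [show S.D ((⟨0, S.n_pos⟩ : Fin n) : ℕ) = 0 from S.D_zero] at this
  obtain ⟨g', hg'⟩ := hCard_pow k K h0
  exact ⟨g', S.polesK C, S.constK C, S.resK C, by
    show Nat.card (HH (0 : DV K → ℤ)) = _
    rw [card_HH_zero, hg']⟩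

/-- the divisor of the `i`-th component -/
noncomputable def Df {g' : ℕ} (C' : Cv k K g') (i : ℕ) : DV K →₀ ℤ :=
  Finsupp.ofSupportFinite (S.D i) (by
    refine ((C'.poles S.Θ).union (C'.poles S.Θ⁻¹)).subset fun v hv => ?_
    by_contra hc
    rw [Set.mem_union, not_or] at hc
    have h1 := (not_not.1 hc.1).le S.Θ_ne
    have h2 := (not_not.1 hc.2).le (inv_ne_zero S.Θ_ne)
    rw [v.ord_inv S.Θ_ne] at h2
    apply hv
    have h3 : v.ord S.Θ = 0 := by omega
    show S.D i v = 0
    simp [D, h3])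

theorem degZ_nonneg {g' : ℕ} (C' : Cv k K g') (i : ℕ) : 0 ≤ degZ k (S.Df C' i) := by
  classical
  have h0 := degZ_divF C' S.Θ_ne
  have hn : (0 : ℤ) < n := by exact_mod_cast S.n_pos
  set E := divF k C' S.Θ S.Θ_ne with hE
  set U := (S.Df C' i).support ∪ E.support with hU
  have h1 : degZ k (S.Df C' i) = ∑ v ∈ U, S.D i v * (deg k v : ℤ) :=
    Finsupp.sum_of_support_subset _ subset_union_left _ (by simp)
  have h2 : degZ k E = ∑ v ∈ U, v.ord S.Θ * (deg k v : ℤ) :=
    Finsupp.sum_of_support_subset _ subset_union_right _ (by simp)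
  have h3 : 0 ≤ (n : ℤ) * degZ k (S.Df C' i) + i * degZ k E := by
    rw [h1, h2, mul_sum, mul_sum, ← sum_add_distrib]
    refine sum_nonneg fun v _ => ?_
    have h4 : (n : ℤ) * (S.D i v * (deg k v : ℤ)) + i * (v.ord S.Θ * (deg k v : ℤ)) =
        ((i * v.ord S.Θ) % n) * (deg k v : ℤ) := by
      have := Int.emod_add_mul_ediv (i * v.ord S.Θ) n
      unfold D
      linear_combination (deg k v : ℤ) * (-this)
    rw [h4]
    exact mul_nonneg (Int.emod_nonneg _ hn.ne') (by positivity)
  rw [h0, mul_zero, add_zero] at h3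
  exact nonneg_of_mul_nonneg_right h3 hn

/-- **The genus of the fixed field.** -/
theorem genus_le (C : Cv k L g) {g' : ℕ} (C' : Cv k K g') : n * g' ≤ g + n := by
  have hq : 1 < Nat.card k := Finite.one_lt_card
  have h1 : ∀ i : Fin n, Nat.card k ^ g' ≤ Nat.card k * hCard (S.D i) := by
    intro i
    have hc := cnt C' (S.Df C' i)
    have h2 := hc.eq
    have h3 : (1 : ℚ) ≤ Nat.card (LInt (S.Df C' i : DV K → ℤ)) := by
      exact_mod_cast Nat.one_le_iff_ne_zero.2 hc.fin
    have h4 : ((S.Df C' i : DV K →₀ ℤ) : DV K → ℤ) = S.D i := rfl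
    rw [h2, h4] at h3
    have hq' : (1 : ℚ) < Nat.card k := by exact_mod_cast hq
    have hq0 : (Nat.card k : ℚ) ≠ 0 := q_ne_zero
    have h5 : (Nat.card k : ℚ) ^ (1 - (g' : ℤ) - degZ k (S.Df C' i)) ≤
        (Nat.card k : ℚ) ^ (1 - (g' : ℤ)) :=
      zpow_le_zpow_right₀ hq'.le (by have := S.degZ_nonneg C' i; omega)
    have h6 : (1 : ℚ) ≤ (Nat.card k : ℚ) ^ (1 - (g' : ℤ)) * hCard (S.D i) :=
      h3.trans (mul_le_mul_of_nonneg_right h5 (by positivity))
    have h7 : (Nat.card k : ℚ) ^ g' ≤ Nat.card k * hCard (S.D i) := by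
      have h8 := mul_le_mul_of_nonneg_left h6 (show (0 : ℚ) ≤ (Nat.card k : ℚ) ^ g' by positivity)
      rw [mul_one, ← mul_assoc, ← zpow_natCast, ← zpow_add₀ hq0] at h8
      have h9 : (g' : ℤ) + (1 - g') = 1 := by ring
      rw [h9, zpow_one] at h8
      rwa [zpow_natCast] at h8
    exact_mod_cast h7
  have h2 : (Nat.card k ^ g') ^ n ≤ Nat.card k ^ n * ∏ i : Fin n, hCard (S.D i) := by
    have h3 : ∏ _i : Fin n, Nat.card k ^ g' ≤ ∏ i : Fin n, (Nat.card k * hCard (S.D i)) :=
      Finset.prod_le_prod' fun i _ => h1 i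
    rw [prod_const, card_univ, Fintype.card_fin, prod_mul_distrib, prod_const, card_univ,
      Fintype.card_fin] at h3
    exact h3
  have h3 : Nat.card k ^ (g' * n) ≤ Nat.card k ^ (n + g) := by
    rw [pow_mul, pow_add]
    exact h2.trans (Nat.mul_le_mul_left _ (S.prod_le C).2)
  have h4 := (Nat.pow_le_pow_iff_right hq).1 h3
  rw [mul_comm n g', add_comm g n]
  exact h4

end Tm

end Pool.Agent.FF
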