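import Pool.Agent.FF.TmGen

/-! # Strong approximation; the obstruction group of the fixed field -/

set_option autoImplicit false
set_option linter.unusedSectionVars false

namespace Pool.Agent.FF

open Finset RRD

section approx

variable {k L : Type*} [Field k] [Finite k] [Field L] [Algebra k L] {g : ℕ}

/-- Riemann's theorem: for some divisor there is no obstruction. -/
theorem exists_hCard_one (C : Cv k L g) : ∃ D : DV L →₀ ℤ, hCard (D : DV L → ℤ) = 1 := by
  classical
  have hfin : Finite (Adl L ⧸ (AInt (0 : DV L → ℤ) ⊔ Prin L).addSubgroupOf (Adl L)) := by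
    apply Nat.finite_of_card_ne_zero
    have h1 : Nat.card (Adl L ⧸ (AInt (0 : DV L → ℤ) ⊔ Prin L).addSubgroupOf (Adl L)) =
        hCard (0 : DV L → ℤ) := rfl
    rw [h1, hgen C]
    exact pow_ne_zero _ Nat.card_pos.ne'
  cases nonempty_fintype (Adl L ⧸ (AInt (0 : DV L → ℤ) ⊔ Prin L).addSubgroupOf (Adl L))
  set Q := Adl L ⧸ (AInt (0 : DV L → ℤ) ⊔ Prin L).addSubgroupOf (Adl L) with hQ
  let r : Q → DV L → L := fun x => (x.out : DV L → L)
  have hr : ∀ x, r x ∈ Adl L := fun x => x.out.2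
  -- the divisor of the poles
  let D₀ : DV L → ℤ := fun v => - ∑ x : Q, |(if v.G 0 (r x v) then 0 else v.ord (r x v))|
  have hsupp : (Function.support D₀).Finite := by
    have h1 : (⋃ x : Q, {v : DV L | ¬ v.G 0 (r x v)}).Finite :=
      Set.finite_iUnion fun x => hr x
    refine h1.subset fun v hv => ?_
    by_contra hc
    apply hv
    show - ∑ x : Q, _ = (0 : ℤ)
    rw [neg_eq_zero]
    refine sum_eq_zero fun x _ => ?_
    have h2 : v.G 0 (r x v) := by
      by_contra h3
      exact hc (Set.mem_iUnion.2 ⟨x, h3⟩)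
    rw [if_pos h2, abs_zero]
  refine ⟨Finsupp.ofSupportFinite D₀ hsupp, ?_⟩
  have hcoe : ((Finsupp.ofSupportFinite D₀ hsupp : DV L →₀ ℤ) : DV L → ℤ) = D₀ := rfl
  rw [hcoe]
  unfold hCard
  rw [AddSubgroup.relIndex_eq_one]
  intro s hs
  let x : Q := QuotientAddGroup.mk ⟨s, hs⟩
  have h1 : (QuotientAddGroup.mk x.out : Q) = QuotientAddGroup.mk ⟨s, hs⟩ :=
    QuotientAddGroup.out_eq' x
  rw [QuotientAddGroup.eq, AddSubgroup.mem_addSubgroupOf] at h1
  have h2 : s = r x + (-(r x) + s) := by abel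
  rw [h2]
  refine AddSubgroup.add_mem _ ?_ ?_
  · refine AddSubgroup.mem_sup_left fun v => ?_
    have h3 : |(if v.G 0 (r x v) then 0 else v.ord (r x v))| ≤
        ∑ y : Q, |(if v.G 0 (r y v) then 0 else v.ord (r y v))| :=
      single_le_sum (f := fun y : Q => |(if v.G 0 (r y v) then 0 else v.ord (r y v))|)
        (fun y _ => abs_nonneg _) (mem_univ x)
    by_cases h4 : v.G 0 (r x v)
    · refine h4.mono ?_
      show - ∑ y : Q, _ ≤ (0 : ℤ)
      have : 0 ≤ ∑ y : Q, |(if v.G 0 (r y v) then 0 else v.ord (r y v))| :=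
        sum_nonneg fun y _ => abs_nonneg _
      omega
    · rw [if_neg h4] at h3
      apply DV.G_of_le
      show - ∑ y : Q, _ ≤ v.ord (r x v)
      have := neg_abs_le (v.ord (r x v))
      omega
  · have h5 : AInt (0 : DV L → ℤ) ⊔ Prin L ≤ AInt D₀ ⊔ Prin L := by
      refine sup_le_sup_right (AInt_anti fun v => ?_) _
      show - ∑ y : Q, _ ≤ (0 : ℤ)
      have : 0 ≤ ∑ y : Q, |(if v.G 0 (r y v) then 0 else v.ord (r y v))| :=
        sum_nonneg fun y _ => abs_nonneg _
      omega
    exact h5 h1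

/-- No obstruction for large multiples of one place. -/
theorem exists_single_hCard_one (C : Cv k L g) (P : DV L) :
    ∃ n : ℕ, hCard ((Finsupp.single P (-(n : ℤ)) : DV L →₀ ℤ) : DV L → ℤ) = 1 := by
  classical
  obtain ⟨D₀, hD₀⟩ := exists_hCard_one C
  have hdeg : 1 ≤ deg k P := (C.res P).1
  obtain ⟨n, hn⟩ : ∃ n : ℕ, (g : ℤ) + |degZ k D₀| < n := by
    refine ⟨(g + (degZ k D₀).natAbs + 1 : ℕ), ?_⟩
    push_cast
    omega
  refine ⟨n, ?_⟩
  -- a function
  set E : DV L →₀ ℤ := Finsupp.single P (-(n : ℤ)) - D₀ with hE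
  have hdE : degZ k E = -(n : ℤ) * (deg k P : ℤ) - degZ k D₀ := by
    have h1 : degZ k (E + D₀) = degZ k E + degZ k D₀ := degZ_add k E D₀
    rw [hE, sub_add_cancel, degZ_single] at h1
    rw [hE]
    linarith
  have hcard : 1 < Nat.card (LInt (E : DV L → ℤ)) := by
    have h1 := le_card_LInt C E
    have hq : (1 : ℚ) < Nat.card k := by exact_mod_cast Finite.one_lt_card (α := k)
    have h2 : (1 : ℚ) < (Nat.card k : ℚ) ^ (1 - (g : ℤ) - degZ k E) := by
      refine one_lt_zpow₀ hq ?_
      rw [hdE]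
      have h3 : (n : ℤ) ≤ n * (deg k P : ℤ) := by
        have : (1 : ℤ) ≤ (deg k P : ℤ) := by exact_mod_cast hdeg
        nlinarith
      have h4 := neg_abs_le (degZ k D₀)
      have h5 : -(n : ℤ) * (deg k P : ℤ) = -(n * (deg k P : ℤ)) := by ring
      rw [h5]
      omega
    exact_mod_cast h2.trans_le h1
  have hne : ∃ f : LInt (E : DV L → ℤ), f ≠ 0 := by
    haveI : Finite (LInt (E : DV L → ℤ)) := Nat.finite_of_card_ne_zero (by omega)
    haveI : Nontrivial (LInt (E : DV L → ℤ)) := Finite.one_lt_card_iff_nontrivial.1 hcard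
    exact exists_ne 0
  obtain ⟨⟨f, hf⟩, hf0⟩ := hne
  have hf1 : f ≠ 0 := fun h => hf0 (Subtype.ext h)
  have h1 : hCard (fun v => D₀ v + v.ord f) = 1 := by
    rw [hCard_divF C hf1, hD₀]
  have h2 : ∀ v, (Finsupp.single P (-(n : ℤ)) : DV L →₀ ℤ) v ≤ D₀ v + v.ord f := by
    intro v
    have h3 := (hf v).le hf1
    rw [hE, Finsupp.coe_sub, Pi.sub_apply] at h3
    omega
  unfold hCard at h1 ⊢
  rw [AddSubgroup.relIndex_eq_one] at h1 ⊢
  exact h1.trans (sup_le_sup_right (AInt_anti h2) _)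

/-- **Approximation.** -/
theorem exists_approx (C : Cv k L g) (W : Finset (DV L)) {P : DV L} (hP : P ∉ W) (b : DV L → L) :
    ∃ c : L, ∀ w ∈ W, w.G 0 (c - b w) := by
  classical
  obtain ⟨n, hn⟩ := exists_single_hCard_one C P
  let r : DV L → L := fun w => if w ∈ W then b w else 0
  have hr : r ∈ Adl L := by
    refine Set.Finite.subset W.finite_toSet fun w hw => ?_
    by_contra hc
    apply hw
    show w.G 0 (if w ∈ W then b w else 0)
    rw [if_neg (by simpa using hc)]
    exact DV.G_zero 0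
  unfold hCard at hn
  rw [AddSubgroup.relIndex_eq_one] at hn
  obtain ⟨x, hx, p, ⟨c, hc⟩, hsum⟩ := AddSubgroup.mem_sup.1 (hn hr)
  refine ⟨c, fun w hw => ?_⟩
  have h1 := congrFun hsum w
  rw [Pi.add_apply, hc] at h1
  have h2 : r w = b w := if_pos hw
  rw [h2] at h1
  have h3 := hx w
  have h4 : w ≠ P := fun h => hP (h ▸ hw)
  have h5 : ((Finsupp.single P (-(n : ℤ)) : DV L →₀ ℤ) : DV L → ℤ) w = 0 :=
    Finsupp.single_eq_of_ne (by exact h4)
  rw [h5] at h3
  have h6 : c - b w = -x w := by rw [← h1]; ring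
  rw [h6]
  exact h3.neg

end approx

namespace Tm

variable {k K L : Type*} [Field k] [Finite k] [Field K] [Field L] [Algebra k K] [Algebra k L]
  [Algebra K L] [IsScalarTower k K L] [CharP L 2] {n : ℕ} (S : Tm k K L n)

theorem pull_mem {g : ℕ} (C : Cv k L g) {r : DV K → K} (hr : r ∈ Adl K) :
    (fun w => algebraMap K L (r (S.dn w))) ∈ Adl L := by
  have h2 : {v : DV K | ¬ v.G 0 (r v)}.Finite := hr
  have h3 : (⋃ v ∈ {v : DV K | ¬ v.G 0 (r v)}, {w : DV L | Over w v}).Finite :=
    h2.biUnion fun v _ => over_finite C.poles v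
  refine h3.subset fun w hw => ?_
  by_contra hc
  apply hw
  have h5 : (S.dn w).G 0 (r (S.dn w)) := by
    by_contra h6
    exact hc (Set.mem_biUnion (show S.dn w ∈ {v : DV K | ¬ v.G 0 (r v)} from h6) (S.dn_over w))
  exact ((S.dn_over w).G_zero_iff _).2 h5

theorem E_zero_sq (x : L) : S.E 0 (x ^ 2) = S.E 0 x ^ 2 := by
  unfold E
  rw [CharTwo.sum_sq]
  refine sum_congr rfl fun j _ => ?_
  rw [zero_mul, pow_zero, one_mul, one_mul, iterate_map_pow]

theorem E_zero_K (a : K) : S.E 0 (algebraMap K L a) = algebraMap K L a := by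
  have h1 := S.E_K 0 a (S.θ ^ 0)
  rw [pow_zero, mul_one] at h1
  rw [h1]
  have h2 := S.E_θ (i := 0) (l := 0) S.n_pos S.n_pos
  rw [if_pos rfl, pow_zero] at h2
  rw [h2, mul_one]

include S in
/-- **The obstruction group of the fixed field is not larger.** -/
theorem ob {g : ℕ} (C : Cv k L g) (hinf : ∀ W : Finset (DV L), ∃ P : DV L, P ∉ W) {o : ℕ}
    (h : Ob L o) : Ob K o := by
  classical
  intro r hr
  obtain ⟨i, j, hij, b, a, hb, hG⟩ := h (fun i w => algebraMap K L (r i (S.dn w)))
    (fun i => S.pull_mem C (hr i))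
  refine ⟨i, j, hij, ?_⟩
  -- approximation on the fibres
  have hfib : ∀ v : DV K, ∃ c : L, (∀ w : DV L, Over w v → w.G 0 (c - b w)) ∧
      ((∀ w : DV L, Over w v → w.G 0 (b w)) → c = 0) := by
    intro v
    by_cases hint : ∀ w : DV L, Over w v → w.G 0 (b w)
    · refine ⟨0, fun w hw => ?_, fun _ => rfl⟩
      rw [zero_sub]
      exact (hint w hw).neg
    · have hf := over_finite (K := K) C.poles v
      obtain ⟨P, hP⟩ := hinf hf.toFinset
      obtain ⟨c, hc⟩ := exists_approx C hf.toFinset hP b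
      exact ⟨c, fun w hw => hc w (by simpa using hw), fun h => absurd h hint⟩
  choose c hc hc0 using hfib
  -- traces
  have htr : ∀ x : L, ∃ y : K, algebraMap K L y = S.E 0 x := by
    intro x
    obtain ⟨y, hy⟩ := S.exists_coord x 0
    rw [pow_zero, mul_one] at hy
    exact ⟨y, hy⟩
  choose tr htr using htr
  have htr0 : tr 0 = 0 := by
    apply (algebraMap K L).injective
    rw [htr, S.E_zero, map_zero]
  refine ⟨fun v => tr (c v), tr a, ?_, fun v => ?_⟩
  · have h1 : (S.dn '' {w : DV L | ¬ w.G 0 (b w)}).Finite := Set.Finite.image _ hb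
    refine h1.subset fun v hv => ?_
    by_contra hcon
    apply hv
    have h2 : ∀ w : DV L, Over w v → w.G 0 (b w) := by
      intro w hw
      by_contra h3
      exact hcon ⟨w, h3, S.dn_eq hw⟩
    show v.G 0 (tr (c v))
    rw [hc0 v h2, htr0]
    exact DV.G_zero 0
  · have h2 : (2 : L) = 0 := CharTwo.two_eq_zero
    have hall : ∀ w : DV L, Over w v →
        w.G 0 (algebraMap K L (r i v - r j v) + (c v ^ 2 + c v) + a) := by
      intro w hw
      have h3 := hG w
      simp only [S.dn_eq hw] at h3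
      have h4 := hc v w hw
      have h5 : w.G 0 ((c v - b w) ^ 2 + (c v - b w)) := by
        have := h4.pow 2
        rw [mul_zero] at this
        exact this.add h4
      have h6 : algebraMap K L (r i v - r j v) + (c v ^ 2 + c v) + a =
          (algebraMap K L (r i v) - algebraMap K L (r j v) + wpA b w + a) +
            ((c v - b w) ^ 2 + (c v - b w)) := by
        simp only [wpA, map_sub]
        linear_combination (c v * b w - b w ^ 2) * h2
      rw [h6]
      exact h3.add h5
    have h7 := S.G_E hall 0 (S.up v) (S.up_over v)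
    have h8 : S.E 0 (algebraMap K L (r i v - r j v) + (c v ^ 2 + c v) + a) =
        algebraMap K L (r i v - r j v + wpA (fun v => tr (c v)) v + tr a) := by
      rw [S.E_add, S.E_add, S.E_add, S.E_zero_K, S.E_zero_sq, map_add, map_add]
      simp only [wpA, map_add, map_pow, htr]
    rw [h8] at h7
    exact ((S.up_over v).G_zero_iff _).1 h7

end Tm

end Pool.Agent.FF
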