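import Pool.Agent.FF.TmFib
import Pool.Agent.FF.TmObT
import Pool.Agent.FF.TmOb
import Pool.Agent.FF.TmFF
import Pool.Agent.FF.DegS

/-! # The quotient of a curve by an automorphism of odd order -/

set_option autoImplicit false
set_option linter.unusedSectionVars false

namespace Pool.Agent.FF

open Finset RRD

/-- The subfield fixed by an automorphism. -/
def fixF {k L : Type*} [Field k] [Field L] [Algebra k L] (σ : L ≃ₐ[k] L) : IntermediateField k L where
  carrier := {x | σ x = x}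
  mul_mem' := fun {a b} ha hb => by
    show σ (a * b) = a * b
    rw [map_mul, show σ a = a from ha, show σ b = b from hb]
  add_mem' := fun {a b} ha hb => by
    show σ (a + b) = a + b
    rw [map_add, show σ a = a from ha, show σ b = b from hb]
  algebraMap_mem' := fun c => σ.commutes c
  inv_mem' := fun a ha => by
    show σ a⁻¹ = a⁻¹
    rw [map_inv₀, show σ a = a from ha]

theorem mem_fixF {k L : Type*} [Field k] [Field L] [Algebra k L] {σ : L ≃ₐ[k] L} {x : L} :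
    x ∈ fixF σ ↔ σ x = x := Iff.rfl

/-- The cyclic extension of the fixed field. -/
def tmOf {k L : Type*} [Field k] [Field L] [Algebra k L] {m' : ℕ} (hm' : Odd m') {w : L}
    (hw0 : w ≠ 0) (σ : L ≃ₐ[k] L) {ζ : k} (hζ : IsPrimitiveRoot ζ m')
    (hσ : σ w = algebraMap k L ζ * w) (hper : ∀ x, σ^[m'] x = x) : Tm k (fixF σ) L m' where
  σ := σ.toRingEquiv
  σK a := a.2
  fix x hx := ⟨⟨x, hx⟩, rfl⟩
  per := hper
  odd := hm'
  θ := w
  θ_ne := hw0
  ζ := ζ
  prim := hζ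
  σθ := hσ

theorem exists_large (K₀ C₀ r₀ : ℕ) : ∃ r : ℕ, r₀ < r ∧ 1 ≤ r ∧ r * K₀ + C₀ < 2 ^ r := by
  set h := 2 * K₀ + C₀ + r₀ + 1 with hh
  refine ⟨2 * h, by omega, by omega, ?_⟩
  have h1 : h + 1 ≤ 2 ^ h := Nat.lt_two_pow_self
  have h2 : 2 ^ (2 * h) = 2 ^ h * 2 ^ h := by rw [two_mul, pow_add]
  rw [h2]
  calc 2 * h * K₀ + C₀ < (h + 1) * (h + 1) := by nlinarith
    _ ≤ 2 ^ h * 2 ^ h := Nat.mul_le_mul h1 h1

/-- Infinitely many places. -/
theorem HasPl.inf {k L : Type} [Field k] [Finite k] [Field L] [Algebra k L] [CharP L 2] {g a : ℕ}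
    (C : Cv k L g) (ha : 1 ≤ a) (hk : Nat.card k = (2 ^ a) ^ 2) {B C' M : ℕ} (h : HasPl k L B C' M)
    (W : Finset (DV L)) : ∃ P : DV L, P ∉ W := by
  obtain ⟨r, hr0, hr1, hr⟩ := exists_large (M * (1 + Nat.card k)) (C' + B)
    (∑ v ∈ W, v.deg (Nat.card k))
  have hle : 2 ^ r ≤ 2 ^ (a * r) :=
    Nat.pow_le_pow_right (by norm_num) (Nat.le_mul_of_pos_left r ha)
  obtain ⟨v, hv⟩ := h.exists_place C (r := r) (s := 2 ^ (a * r)) (e := a * r) hr1 rfl
    (by rw [hk, ← pow_mul, ← pow_mul, ← pow_mul]; congr 1; ring)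
    (by omega) (by
      have : r * (M * (1 + Nat.card k)) = r * M * (1 + Nat.card k) := by ring
      omega)
  refine ⟨v, fun hvW => ?_⟩
  have h1 : v.deg (Nat.card k) ≤ ∑ v ∈ W, v.deg (Nat.card k) :=
    single_le_sum (f := fun v : DV L => v.deg (Nat.card k)) (fun _ _ => Nat.zero_le _) hvW
  omega

/-- **The quotient.** -/
theorem quot {k : Type} [Field k] [Finite k] {L : Type} [Field L] [Algebra k L] [CharP L 2]
    {g o a m' : ℕ} (ha : 1 ≤ a) (hk : Nat.card k = (2 ^ a) ^ 2) (hm' : Odd m') {w : L}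
    (hw0 : w ≠ 0) (σ : L ≃ₐ[k] L) {ζ : k} (hζ : IsPrimitiveRoot ζ m')
    (hσ : σ w = algebraMap k L ζ * w) (hper : ∀ x, σ^[m'] x = x)
    (hF : IsFF k L) (C : Cv k L g) (hob : Ob L o)
    (T : Finset (DV L)) (hT : ∀ v ∈ T, v.Rat k ∧ v.ord w = 0)
    {N : ℕ} {D : DV L →₀ ℤ} (hD : ∀ v, 0 ≤ D v) (hDN : RRD.degZ k D ≤ N)
    (hDw : ∀ v : DV L, v.G (- D v) w) (hpole : ∃ v : DV L, v.ord w < 0)
    {B C' M : ℕ} (hP : HasPl k L B C' M) :
    ∃ (K : Type) (_ : Field K) (_ : Algebra k K) (_ : CharP K 2) (g' : ℕ) (T' : Finset (DV K)),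
      IsFF k K ∧ Cv k K g' ∧ m' * g' ≤ g + m' ∧ Ob K g' ∧ Ob K o ∧ (∀ v ∈ T', v.Rat k) ∧
      T.card ≤ m' * T'.card ∧
      ∀ r : ℕ, 1 ≤ r → B ≤ 2 ^ (a * r) → r * (m' * N) + C' + m' * N < 2 ^ (a * r) →
        ∃ v : DV K, v.deg (Nat.card k) = r := by
  classical
  let S : Tm k (fixF σ) L m' := tmOf hm' hw0 σ hζ hσ hper
  have hch : CharP (fixF σ) 2 := (algebraMap (fixF σ) L).charP (algebraMap (fixF σ) L).injective 2
  obtain ⟨g', C₁⟩ := S.exists_genus C
  have hΘ : algebraMap (fixF σ) L S.Θ = w ^ m' := S.Θ_spec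
  have hm'0 : 0 < m' := hm'.pos
  -- pole of `w ^ m'`
  obtain ⟨v₀, hv₀⟩ := hpole
  have hpole' : v₀.ord (algebraMap (fixF σ) L S.Θ) < 0 := by
    rw [hΘ, v₀.ord_pow hw0]
    have : (0 : ℤ) < m' := by exact_mod_cast hm'0
    nlinarith
  have htr : Transcendental k S.Θ := by
    intro halg
    have h1 : IsAlgebraic k (algebraMap (fixF σ) L S.Θ) := halg.algebraMap
    obtain ⟨c, hc⟩ := hF.const _ h1
    have h2 := G_algebraMap v₀ c
    rw [← hc] at h2
    have h3 := h2.le (map_ne_zero' S.Θ_ne)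
    omega
  have hres : ∀ v : DV (fixF σ), v.resCard ≠ 0 := C₁.resCard_ne
  refine ⟨fixF σ, inferInstance, inferInstance, hch, g', T.image S.dn, hF.down htr, C₁,
    S.genus_le C C₁, Ob.of_genus C₁, S.ob C (hP.inf C ha hk) hob, ?_, ?_, ?_⟩
  · intro v hv
    obtain ⟨w', hw', rfl⟩ := mem_image.1 hv
    intro x hx
    obtain ⟨c, hc⟩ := (hT w' hw').1 (algebraMap (fixF σ) L x) (((S.dn_over w').G_zero_iff _).2 hx)
    refine ⟨c, ((S.dn_over w').G_one_iff _).1 ?_⟩
    rw [map_sub, ← IsScalarTower.algebraMap_apply k (fixF σ) L]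
    exact hc
  · refine card_le_mul_card_image T m' fun v _ => ?_
    refine S.card_fiber_le v _ fun w' hw' => ?_
    rw [mem_filter] at hw'
    refine ⟨?_, (hT w' hw'.1).1, (hT w' hw'.1).2⟩
    rw [← hw'.2]
    exact S.dn_over w'
  · intro r hr hB hlt
    have hdeg : RRD.degZ k (m' • D) = m' * RRD.degZ k D := by
      have h1 : ∀ j : ℕ, RRD.degZ k (j • D) = j * RRD.degZ k D := by
        intro j
        induction j with
        | zero => simp [RRD.degZ_zero]
        | succ j ih =>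
          rw [succ_nsmul, RRD.degZ_add, ih]
          push_cast
          ring
      exact h1 m'
    refine HasPl.exists_place_sub' (K₀ := fixF σ) (fun w' => ⟨S.dn w', S.dn_over w'⟩) hres C
      (u := S.Θ) (N := m' * N) (D := m' • D) (fun v => ?_) ?_ (fun v => ?_) ⟨v₀, hpole'⟩ hP hr
      (s := 2 ^ (a * r)) (e := a * r) rfl ?_ hB hlt
    · rw [Finsupp.smul_apply]
      exact nsmul_nonneg (hD v) m'
    · rw [hdeg]
      push_cast
      exact mul_le_mul_of_nonneg_left hDN (by positivity)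
    · rw [hΘ, Finsupp.smul_apply]
      have := (hDw v).pow m'
      convert this using 1
      rw [nsmul_eq_mul]
      ring
    · rw [hk, ← pow_mul, ← pow_mul, ← pow_mul]
      congr 1
      ring

end Pool.Agent.FF
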