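import Pool.Agent.FF.TmObT

/-!
# Strong approximation modulo finitely many places
-/

set_option autoImplicit false
set_option linter.unusedSectionVars false

namespace Pool.Agent.FF

open Finset RRD

section approx

variable {k L : Type*} [Field k] [Finite k] [Field L] [Algebra k L] {g : ℕ}

/-- No obstruction for divisors of large degree. -/
theorem exists_hCard_bound (C : Cv k L g) :
    ∃ c : ℤ, ∀ D : DV L →₀ ℤ, degZ k D < c → hCard (D : DV L → ℤ) = 1 := by
  classical
  obtain ⟨D₀, hD₀⟩ := exists_hCard_one C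
  refine ⟨1 - (g : ℤ) + degZ k D₀, fun D hD => ?_⟩
  set E : DV L →₀ ℤ := D - D₀ with hE
  have hdE : degZ k E = degZ k D - degZ k D₀ := by
    have h1 : degZ k (E + D₀) = degZ k E + degZ k D₀ := degZ_add k E D₀
    rw [hE, sub_add_cancel] at h1
    rw [hE]
    linarith
  have hcard : 1 < Nat.card (LInt (E : DV L → ℤ)) := by
    have h1 := le_card_LInt C E
    have hq : (1 : ℚ) < Nat.card k := by exact_mod_cast Finite.one_lt_card (α := k)
    have h2 : (1 : ℚ) < (Nat.card k : ℚ) ^ (1 - (g : ℤ) - degZ k E) := by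
      refine one_lt_zpow₀ hq ?_
      rw [hdE]
      omega
    exact_mod_cast h2.trans_le h1
  have hne : ∃ f : LInt (E : DV L → ℤ), f ≠ 0 := by
    have : Finite (LInt (E : DV L → ℤ)) := Nat.finite_of_card_ne_zero (by omega)
    have : Nontrivial (LInt (E : DV L → ℤ)) := Finite.one_lt_card_iff_nontrivial.1 hcard
    exact exists_ne 0
  obtain ⟨⟨f, hf⟩, hf0⟩ := hne
  have hf1 : f ≠ 0 := fun h => hf0 (Subtype.ext h)
  have h1 : hCard (fun v => D₀ v + v.ord f) = 1 := by
    rw [hCard_divF C hf1, hD₀]
  have h2 : ∀ v, D v ≤ D₀ v + v.ord f := by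
    intro v
    have h3 := (hf v).le hf1
    rw [hE, Finsupp.coe_sub, Pi.sub_apply] at h3
    omega
  unfold hCard at h1 ⊢
  rw [AddSubgroup.relIndex_eq_one] at h1 ⊢
  exact h1.trans (sup_le_sup_right (AInt_anti h2) _)

/-- **Strong approximation** modulo finitely many places. -/
theorem strong_approx (C : Cv k L g) {R : DV L} (W : Finset (DV L)) (hW : R ∉ W) (b : DV L → L)
    (hb : ∀ w ∈ W, w.G 0 (b w)) : ∃ N : ℕ, ∃ y : L, (R.G (-N) y ∧ ∀ v : DV L, v ≠ R → v.G 0 y) ∧
      ∀ w ∈ W, w.G 1 (y - b w) := by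
  classical
  obtain ⟨c, hc⟩ := exists_hCard_bound C
  set E : DV L →₀ ℤ := ∑ w ∈ W, Finsupp.single w 1 with hE
  have hEw : ∀ w ∈ W, E w = 1 := by
    intro w hw
    rw [hE, Finsupp.finsetSum_apply, sum_eq_single_of_mem w hw]
    · exact Finsupp.single_eq_same
    · intro u _ hu
      exact Finsupp.single_eq_of_ne (by exact hu.symm)
  have hE0 : ∀ w, w ∉ W → E w = 0 := by
    intro w hw
    rw [hE, Finsupp.finsetSum_apply]
    refine sum_eq_zero fun u hu => ?_
    exact Finsupp.single_eq_of_ne (by rintro rfl; exact hw hu)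
  have hdeg : 1 ≤ deg k R := (C.res R).1
  obtain ⟨n, hn⟩ : ∃ n : ℕ, degZ k E - c < n :=
    ⟨(degZ k E - c).toNat + 1, by push_cast; have := Int.self_le_toNat (degZ k E - c); omega⟩
  have h1 : hCard ((E + Finsupp.single R (-(n : ℤ)) : DV L →₀ ℤ) : DV L → ℤ) = 1 := by
    apply hc
    rw [degZ_add, degZ_single]
    have h3 : (n : ℤ) ≤ n * (deg k R : ℤ) := by
      have : (1 : ℤ) ≤ (deg k R : ℤ) := by exact_mod_cast hdeg
      nlinarith
    have h5 : -(n : ℤ) * (deg k R : ℤ) = -(n * (deg k R : ℤ)) := by ring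
    rw [h5]
    omega
  let r : DV L → L := fun w => if w ∈ W then b w else 0
  have hr : r ∈ Adl L := by
    refine Set.Finite.subset W.finite_toSet fun w hw => ?_
    by_contra hc
    apply hw
    show w.G 0 (if w ∈ W then b w else 0)
    rw [if_neg (by simpa using hc)]
    exact DV.G_zero 0
  unfold hCard at h1
  rw [AddSubgroup.relIndex_eq_one] at h1
  obtain ⟨x, hx, p, ⟨y, hy⟩, hsum⟩ := AddSubgroup.mem_sup.1 (h1 hr)
  have hxy : ∀ w, x w + y = r w := fun w => by
    have h2 := congrFun hsum w
    rw [Pi.add_apply] at h2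
    rw [← h2, ← hy w]
  refine ⟨n, y, ⟨?_, fun w hw => ?_⟩, fun w hw => ?_⟩
  · have h2 := hxy R
    rw [show r R = 0 from if_neg hW] at h2
    have h3 : y = - x R := by linear_combination h2
    rw [h3]
    have h4 := hx R
    rw [Finsupp.coe_add, Pi.add_apply, hE0 R hW, zero_add, Finsupp.single_eq_same] at h4
    exact h4.neg
  · have h4 := hx w
    rw [Finsupp.coe_add, Pi.add_apply, Finsupp.single_eq_of_ne (by exact hw), add_zero] at h4
    by_cases hwW : w ∈ W
    · rw [hEw w hwW] at h4
      have h2 := hxy w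
      rw [show r w = b w from if_pos hwW] at h2
      have h3 : y = b w - x w := by linear_combination h2
      rw [h3]
      exact (hb w hwW).sub (h4.mono (by norm_num))
    · rw [hE0 w hwW] at h4
      have h2 := hxy w
      rw [show r w = 0 from if_neg hwW] at h2
      have h3 : y = - x w := by linear_combination h2
      rw [h3]
      exact h4.neg
  · have h4 := hx w
    have hwR : w ≠ R := by rintro rfl; exact hW hw
    rw [Finsupp.coe_add, Pi.add_apply, Finsupp.single_eq_of_ne (by exact hwR), add_zero,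
      hEw w hw] at h4
    have h2 := hxy w
    rw [show r w = b w from if_pos hw] at h2
    have h3 : y - b w = - x w := by linear_combination h2
    rw [h3]
    exact h4.neg

end approx

end Pool.Agent.FF
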