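import Pool.Agent.FF.Defs

/-! The Garcia–Stichtenoth type tower in characteristic two, local analysis inside one field:
`f 1 = w ^ m`, `z (i + 1) ^ l + z (i + 1) = f i`, `f (i + 1) = z (i + 1) ^ (l + 1) / f i`, `l = 2 ^ a`. -/

set_option autoImplicit false

namespace Pool.Agent.FF

section basic

variable {K F : Type*} [Field K] [Field F] [Algebra K F] {v : DV F}

theorem DV.ord_algebraMap [Finite K] (v : DV F) {c : K} (hc : c ≠ 0) :
    v.ord (algebraMap K F c) = 0 := by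
  cases nonempty_fintype K
  have h1 : c ^ (Fintype.card K - 1) = 1 := FiniteField.pow_card_sub_one_eq_one c hc
  have h2 : v.ord ((algebraMap K F c) ^ (Fintype.card K - 1)) = 0 := by
    rw [← map_pow, h1, map_one, v.ord_one]
  rw [v.ord_pow ((map_ne_zero _).2 hc)] at h2
  have h3 : 0 < Fintype.card K - 1 := Nat.sub_pos_of_lt Fintype.one_lt_card
  rcases mul_eq_zero.1 h2 with h | h
  · exact absurd h (by exact_mod_cast h3.ne')
  · exact h

theorem DV.G_algebraMap [Finite K] (v : DV F) (c : K) : v.G 0 (algebraMap K F c) := by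
  by_cases hc : c = 0
  · exact Or.inl (by simp [hc])
  · exact DV.G_of_le (v.ord_algebraMap hc).ge

theorem DV.G.const_mul [Finite K] {n : ℤ} {x : F} (hx : v.G n x) (c : K) :
    v.G n (algebraMap K F c * x) := by
  have := (v.G_algebraMap c).mul hx
  rwa [zero_add] at this

theorem DV.eq_zero_of_G_one [Finite K] {c : K} (h : v.G 1 (algebraMap K F c)) : c = 0 := by
  by_contra hc
  have h1 := h.le ((map_ne_zero _).2 hc)
  rw [v.ord_algebraMap hc] at h1
  omega

theorem ord_L_neg {l : ℕ} (hl : 2 ≤ l) {z : F} (hz : v.ord z < 0) : v.ord (z ^ l + z) = l * v.ord z := by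
  have hz0 : z ≠ 0 := by
    rintro rfl
    rw [v.ord_zero] at hz
    exact lt_irrefl _ hz
  have h1 : v.G (v.ord (z ^ l) + 1) z := by
    apply DV.G_of_le
    rw [v.ord_pow hz0]
    have : (2 : ℤ) ≤ l := by exact_mod_cast hl
    nlinarith
  rw [(DV.ord_add_of_lt (pow_ne_zero l hz0) h1).2, v.ord_pow hz0]

theorem ord_L_pos {l : ℕ} (hl : 2 ≤ l) {z : F} (hz : 0 < v.ord z) : v.ord (z ^ l + z) = v.ord z := by
  have hz0 : z ≠ 0 := by
    rintro rfl
    rw [v.ord_zero] at hz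
    exact lt_irrefl _ hz
  have h1 : v.G (v.ord z + 1) (z ^ l) := by
    apply DV.G_of_le
    rw [v.ord_pow hz0]
    have : (2 : ℤ) ≤ l := by exact_mod_cast hl
    nlinarith
  rw [add_comm, (DV.ord_add_of_lt hz0 h1).2]

/-- `z ^ l + z` integral implies `z` integral. -/
theorem G_of_L {l : ℕ} (hl : 2 ≤ l) {z : F} (h : v.G 0 (z ^ l + z)) : v.G 0 z := by
  by_contra hz
  have hz0 := DV.ne_zero_of_not_G hz
  have hlt := (DV.not_G hz0).1 hz
  have h1 := ord_L_neg (v := v) hl hlt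
  have h2 : (z ^ l + z) ≠ 0 := by
    intro h0
    rw [h0, v.ord_zero] at h1
    have : (2 : ℤ) ≤ l := by exact_mod_cast hl
    nlinarith
  have h3 := h.le h2
  rw [h1] at h3
  have : (2 : ℤ) ≤ l := by exact_mod_cast hl
  nlinarith

/-- `z ^ l + z` a unit implies `z` a unit. -/
theorem ord_of_L_unit {l : ℕ} (hl : 2 ≤ l) {z : F} (h0 : z ^ l + z ≠ 0) (h : v.ord (z ^ l + z) = 0) :
    v.ord z = 0 := by
  have h1 : v.G 0 z := G_of_L hl (DV.G_of_le h.ge)
  have hz0 : z ≠ 0 := by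
    rintro rfl
    apply h0
    rw [zero_pow (by omega), add_zero]
  rcases lt_trichotomy (v.ord z) 0 with h2 | h2 | h2
  · have := h1.le hz0
    omega
  · exact h2
  · rw [ord_L_pos hl h2] at h
    omega

end basic

/-- The relations of the tower up to level `n`. -/
structure Tw {F : Type*} [Field F] (a m : ℕ) (w : F) (z f : ℕ → F) (n : ℕ) : Prop where
  w0 : w ≠ 0
  f1 : f 1 = w ^ m
  hz : ∀ i, 1 ≤ i → i < n → z (i + 1) ^ (2 ^ a) + z (i + 1) = f i
  hf : ∀ i, 1 ≤ i → i < n → f (i + 1) * f i = z (i + 1) ^ (2 ^ a + 1)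

section rel

variable {F : Type*} [Field F] {a m n : ℕ} {w : F} {z f : ℕ → F}

theorem Tw.mono (T : Tw a m w z f (n + 1)) : Tw a m w z f n :=
  ⟨T.w0, T.f1, fun i h1 h2 => T.hz i h1 (by omega), fun i h1 h2 => T.hf i h1 (by omega)⟩

theorem Tw.f_ne (T : Tw a m w z f n) : ∀ i, 1 ≤ i → i ≤ n → f i ≠ 0 := by
  intro i hi
  induction i, hi using Nat.le_induction with
  | base => intro _; rw [T.f1]; exact pow_ne_zero m T.w0
  | succ i hi ih =>
    intro h h0
    have h1 := T.hf i hi (by omega)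
    rw [h0, zero_mul] at h1
    have h2 : z (i + 1) = 0 := by
      by_contra hne
      exact pow_ne_zero _ hne h1.symm
    have h3 := T.hz i hi (by omega)
    rw [h2, zero_pow (by positivity), add_zero] at h3
    exact ih (by omega) h3.symm

theorem Tw.z_ne (T : Tw a m w z f n) {i : ℕ} (hi : 1 ≤ i) (hn : i < n) : z (i + 1) ≠ 0 := by
  intro h2
  have h3 := T.hz i hi hn
  rw [h2, zero_pow (by positivity), add_zero] at h3
  exact T.f_ne i hi (by omega) h3.symm

/-- `f (i + 1) = z + z ^ 2 / f i`. -/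
theorem Tw.I1 [CharP F 2] (T : Tw a m w z f n) {i : ℕ} (hi : 1 ≤ i) (hn : i < n) :
    f (i + 1) = z (i + 1) + z (i + 1) ^ 2 / f i := by
  have h0 := T.f_ne i hi (by omega)
  have h1 := T.hf i hi hn
  have h2 := T.hz i hi hn
  have h3 : (2 : F) = 0 := CharTwo.two_eq_zero
  rw [← mul_left_inj' h0, h1, add_mul, div_mul_cancel₀ _ h0, pow_succ]
  linear_combination z (i + 1) * h2 - z (i + 1) ^ 2 * h3

/-- `1 / f (i + 1) = L (1 / z)`. -/
theorem Tw.I2 (T : Tw a m w z f n) {i : ℕ} (hi : 1 ≤ i) (hn : i < n) :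
    (f (i + 1))⁻¹ = (z (i + 1))⁻¹ ^ (2 ^ a) + (z (i + 1))⁻¹ := by
  have h0 := T.f_ne i hi (by omega)
  have h1 := T.hf i hi hn
  have h2 := T.hz i hi hn
  have hz := T.z_ne hi hn
  have h3 : f (i + 1) = z (i + 1) ^ (2 ^ a + 1) / f i := by
    rw [← h1, mul_div_cancel_right₀ _ h0]
  rw [h3, inv_div, ← h2, inv_pow, pow_succ]
  field_simp
  ring

end rel

section types

variable {K F : Type*} [Field K] [Field F] [Algebra K F]

/-- Unit type: all `f i` are units. -/
def TU (v : DV F) (f : ℕ → F) (n : ℕ) : Prop := ∀ i, 1 ≤ i → i ≤ n → v.ord (f i) = 0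

variable (K) in
/-- Zero type. -/
def TZ (v : DV F) (w : F) (f : ℕ → F) (n : ℕ) : Prop :=
  v.ord w = 1 ∧ (∀ i, 1 ≤ i → i ≤ n → v.G 1 (f i)) ∧ v.Rat K

variable (K) in
/-- Middle type `p`. -/
def TM (v : DV F) (a : ℕ) (w : F) (f : ℕ → F) (p n : ℕ) : Prop :=
  2 ≤ p ∧ p < n ∧ v.ord w = 1 ∧ (∀ i, 1 ≤ i → i ≤ p → v.G 1 (f i)) ∧
    ∃ α : K, α ^ (2 ^ a) = α ∧ α ≠ 0 ∧ v.G 0 (f n + algebraMap K F (α ^ 2) / f p)

/-- Ramified type, `V` being already adjoined: `x * f n = L x * u` modulo `y ^ 2 + y` and integral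
elements, where `L` is additive with kernel `V` on the field of `2 ^ a` elements. -/
def TR (v : DV F) (a m : ℕ) (f : ℕ → F) (n : ℕ) (V : AddSubgroup K) : Prop :=
  v.ord (f n) = -(m * Nat.card V : ℤ) ∧ ∃ (u : F) (L : K →+ K), v.ord u = -(m : ℤ) ∧
    (∀ x : K, x ^ (2 ^ a) = x → L x ^ (2 ^ a) = L x) ∧
    (∀ x : K, x ^ (2 ^ a) = x → (L x = 0 ↔ x ∈ V)) ∧
    ∀ x : K, x ^ (2 ^ a) = x → ∃ c : F, v.G 0 (algebraMap K F x * f n + algebraMap K F (L x) * u +
      (c ^ 2 + c))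

end types

section up

variable {K F : Type*} [Field K] [Finite K] [Field F] [CharP F 2] [Algebra K F]
  {v : DV F} {a m n : ℕ} {w : F} {z f : ℕ → F}

omit [Finite K] [Algebra K F] in
theorem up_U (ha : 1 ≤ a) (hn : 1 ≤ n) (T : Tw a m w z f (n + 1)) (h : TU v f n) : TU v f (n + 1) := by
  intro i h1 h2
  rcases Nat.lt_or_ge i (n + 1) with h3 | h3
  · exact h i h1 (by omega)
  obtain rfl : i = n + 1 := by omega
  have hl : 2 ≤ 2 ^ a := by
    calc 2 = 2 ^ 1 := (pow_one 2).symm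
      _ ≤ 2 ^ a := Nat.pow_le_pow_right (by norm_num) ha
  have h4 := T.hz n hn (by omega)
  have h5 := T.hf n hn (by omega)
  have hf := T.f_ne n hn (by omega)
  have hf' := T.f_ne (n + 1) (by omega) le_rfl
  have h6 : v.ord (z (n + 1)) = 0 :=
    ord_of_L_unit hl (by rw [h4]; exact hf) (by rw [h4]; exact h n hn le_rfl)
  have h7 := congrArg v.ord h5
  rw [v.ord_mul _ _ hf' hf, v.ord_pow (T.z_ne hn (by omega)), h6, h n hn le_rfl] at h7
  simpa using h7

theorem up_Z (ha : 1 ≤ a) (hn : 1 ≤ n) (T : Tw a m w z f (n + 1)) (h : TZ K v w f n)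
    (hz : v.G 1 (z (n + 1))) : TZ K v w f (n + 1) := by
  refine ⟨h.1, ?_, h.2.2⟩
  intro i h1 h2
  rcases Nat.lt_or_ge i (n + 1) with h3 | h3
  · exact h.2.1 i h1 (by omega)
  obtain rfl : i = n + 1 := by omega
  have hl : 2 ≤ 2 ^ a := by
    calc 2 = 2 ^ 1 := (pow_one 2).symm
      _ ≤ 2 ^ a := Nat.pow_le_pow_right (by norm_num) ha
  have h4 := T.hz n hn (by omega)
  have h5 := T.hf n hn (by omega)
  have hf := T.f_ne n hn (by omega)
  have hf' := T.f_ne (n + 1) (by omega) le_rfl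
  have hz0 := T.z_ne hn (by omega : n < n + 1)
  have hz1 := hz.le hz0
  have h6 : v.ord (f n) = v.ord (z (n + 1)) := by rw [← h4, ord_L_pos hl (by omega)]
  have h7 := congrArg v.ord h5
  rw [v.ord_mul _ _ hf' hf, v.ord_pow hz0, h6] at h7
  apply DV.G_of_le
  push_cast at h7
  have h8 : v.ord (f (n + 1)) = 2 ^ a * v.ord (z (n + 1)) := by linarith
  rw [h8]
  have : (1 : ℤ) ≤ 2 ^ a := one_le_pow₀ (by norm_num)
  nlinarith

theorem up_Z' (ha : 1 ≤ a) (hm : 1 ≤ m) (hn : 1 ≤ n) (T : Tw a m w z f (n + 1)) (h : TZ K v w f n)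
    (hz : ¬ v.G 1 (z (n + 1))) :
    v.ord (f (n + 1)) = -(m : ℤ) ∧ n = 1 ∨ TM K v a w f n (n + 1) ∧ 2 ≤ n := by
  have hl : 2 ≤ 2 ^ a := by
    calc 2 = 2 ^ 1 := (pow_one 2).symm
      _ ≤ 2 ^ a := Nat.pow_le_pow_right (by norm_num) ha
  have two : (2 : F) = 0 := CharTwo.two_eq_zero
  have h4 := T.hz n hn (by omega)
  have h5 := T.I1 hn (by omega : n < n + 1)
  have hf := T.f_ne n hn (by omega)
  have hfn := h.2.1 n hn le_rfl
  have hzint : v.G 0 (z (n + 1)) := G_of_L hl (by rw [h4]; exact hfn.mono (by omega))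
  obtain ⟨ζ, hζ⟩ := h.2.2 _ hzint
  rw [CharTwo.sub_eq_add] at hζ
  set δ := z (n + 1) + algebraMap K F ζ with hδ
  have hpow : ∀ x y : F, (x + y) ^ (2 ^ a) = x ^ (2 ^ a) + y ^ (2 ^ a) := by
    intro x y
    haveI : Fact (Nat.Prime 2) := ⟨Nat.prime_two⟩
    exact add_pow_char_pow x y 2 a
  have hLδ : δ ^ (2 ^ a) + δ = f n + algebraMap K F (ζ ^ (2 ^ a) + ζ) := by
    rw [hδ, hpow, map_add, map_pow]
    linear_combination h4
  have hδpos : v.G 1 (δ ^ (2 ^ a) + δ) := by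
    refine DV.G.add ?_ hζ
    have := hζ.pow (2 ^ a)
    refine this.mono ?_
    push_cast
    have : (1 : ℤ) ≤ 2 ^ a := one_le_pow₀ (by norm_num)
    linarith
  have hζ0 : ζ ^ (2 ^ a) + ζ = 0 := by
    apply DV.eq_zero_of_G_one (v := v) (F := F)
    have : algebraMap K F (ζ ^ (2 ^ a) + ζ) = δ ^ (2 ^ a) + δ - f n := by
      rw [hLδ]; ring
    rw [this]
    exact hδpos.sub hfn
  have hLδ' : δ ^ (2 ^ a) + δ = f n := by rw [hLδ, hζ0, map_zero, add_zero]
  have hK2 : (2 : K) = 0 := by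
    have : algebraMap K F 2 = 0 := by rw [map_ofNat]; exact two
    exact (map_eq_zero _).1 this
  have hζ1 : ζ ^ (2 ^ a) = ζ := by linear_combination hζ0 - ζ * hK2
  have hζne : ζ ≠ 0 := by
    rintro rfl
    apply hz
    rw [hδ, map_zero, add_zero] at hζ
    exact hζ
  have hδne : δ ≠ 0 := by
    intro h0
    rw [h0, zero_pow (by positivity), add_zero] at hLδ'
    exact hf hLδ'.symm
  have hδord : v.ord (f n) = v.ord δ := by
    rw [← hLδ', ord_L_pos hl]
    have := hζ.le hδne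
    omega
  have hint : v.G 0 (f (n + 1) + algebraMap K F (ζ ^ 2) / f n) := by
    have h6 : f (n + 1) + algebraMap K F (ζ ^ 2) / f n = z (n + 1) + δ ^ 2 / f n := by
      rw [h5, hδ, map_pow]
      field_simp
      linear_combination (-(z (n + 1)) * algebraMap K F ζ) * two
    rw [h6]
    refine hzint.add (DV.G_of_le ?_)
    rw [v.ord_div (pow_ne_zero 2 hδne) hf, v.ord_pow hδne, hδord]
    have := hζ.le hδne
    push_cast
    omega
  rcases Nat.lt_or_ge n 2 with h2 | h2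
  · left
    obtain rfl : n = 1 := by omega
    refine ⟨?_, rfl⟩
    have hA : algebraMap K F (ζ ^ 2) / f 1 ≠ 0 :=
      div_ne_zero ((map_ne_zero _).2 (pow_ne_zero 2 hζne)) hf
    have hAord : v.ord (algebraMap K F (ζ ^ 2) / f 1) = -(m : ℤ) := by
      rw [v.ord_div ((map_ne_zero _).2 (pow_ne_zero 2 hζne)) hf, v.ord_algebraMap (pow_ne_zero 2 hζne),
        T.f1, v.ord_pow T.w0, h.1]
      ring
    have h7 := DV.ord_add_of_lt hA (hint.mono (by rw [hAord]; omega))
    rw [← hAord, ← h7.2]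
    congr 1
    linear_combination -(algebraMap K F (ζ ^ 2) / f 1) * two
  · right
    exact ⟨⟨h2, by omega, h.1, fun i h1 h3 => h.2.1 i h1 (by omega), ζ, hζ1, hζne, hint⟩, h2⟩

theorem up_M (ha : 1 ≤ a) (hm : 1 ≤ m) {p : ℕ} (T : Tw a m w z f (n + 1)) (h : TM K v a w f p n) :
    v.ord (f (n + 1)) = -(m : ℤ) ∧ p = 2 ∨ TM K v a w f (p - 1) (n + 1) ∧ 3 ≤ p := by
  obtain ⟨hp2, hpn, hw, hfi, α, hα, hα0, hint⟩ := h
  have hl : 2 ≤ 2 ^ a := by
    calc 2 = 2 ^ 1 := (pow_one 2).symm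
      _ ≤ 2 ^ a := Nat.pow_le_pow_right (by norm_num) ha
  have hlZ : (2 : ℤ) ≤ 2 ^ a := by exact_mod_cast hl
  have two : (2 : F) = 0 := CharTwo.two_eq_zero
  obtain ⟨r, rfl⟩ : ∃ r, p = r + 1 := ⟨p - 1, by omega⟩
  have hr1 : 1 ≤ r := by omega
  have h4 := T.hz n (by omega) (by omega)
  have h5 := T.I1 (by omega : 1 ≤ n) (by omega : n < n + 1)
  have hfn := T.f_ne n (by omega) (by omega)
  have hfp := T.f_ne (r + 1) (by omega) (by omega)
  have hfr := T.f_ne r (by omega) (by omega)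
  have hzp := T.z_ne hr1 (by omega : r < n + 1)
  have hI2 := T.I2 hr1 (by omega : r < n + 1)
  have hzr := T.hz r hr1 (by omega)
  set A := algebraMap K F (α ^ 2) with hA
  have hAne : A ≠ 0 := (map_ne_zero _).2 (pow_ne_zero 2 hα0)
  have hAord : v.ord A = 0 := v.ord_algebraMap (pow_ne_zero 2 hα0)
  have hAl : A ^ (2 ^ a) = A := by
    rw [hA, ← map_pow, ← pow_mul, mul_comm, pow_mul, hα]
  have hfpos := (hfi (r + 1) (by omega) le_rfl).le hfp
  have hpow : ∀ x y : F, (x + y) ^ (2 ^ a) = x ^ (2 ^ a) + y ^ (2 ^ a) := by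
    intro x y
    haveI : Fact (Nat.Prime 2) := ⟨Nat.prime_two⟩
    exact add_pow_char_pow x y 2 a
  -- `z p` is in the maximal ideal
  have hzpos : 1 ≤ v.ord (z (r + 1)) := by
    by_contra hlt
    push Not at hlt
    have h6 : v.G 0 ((z (r + 1))⁻¹) := DV.G_of_le (by rw [v.ord_inv hzp]; omega)
    have h7 : v.G 0 ((f (r + 1))⁻¹) := by
      rw [hI2]
      refine DV.G.add ?_ h6
      have := h6.pow (2 ^ a)
      rwa [mul_zero] at this
    have h8 := h7.le (inv_ne_zero hfp)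
    rw [v.ord_inv hfp] at h8
    omega
  -- order of `f n`
  have hq : v.ord (A / f (r + 1)) = - v.ord (f (r + 1)) := by
    rw [v.ord_div hAne hfp, hAord]; ring
  have hfnord : v.ord (f n) = - v.ord (f (r + 1)) := by
    have h7 := DV.ord_add_of_lt (div_ne_zero hAne hfp) (hint.mono (by rw [hq]; omega))
    rw [← hq, ← h7.2]
    congr 1
    linear_combination -(A / f (r + 1)) * two
  -- order of `z (n + 1)`
  set y := z (n + 1) with hy
  have hy0 : y ≠ 0 := T.z_ne (by omega) (by omega)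
  have hyneg : v.ord y < 0 := by
    by_contra hlt
    push Not at hlt
    have h6 : v.G 0 y := DV.G_of_le hlt
    have h7 : v.G 0 (f n) := by
      rw [← h4]
      refine DV.G.add ?_ h6
      have := h6.pow (2 ^ a)
      rwa [mul_zero] at this
    have h8 := h7.le hfn
    omega
  have hyord : (2 ^ a : ℤ) * v.ord y = - v.ord (f (r + 1)) := by
    rw [← hfnord, ← h4, ord_L_neg hl hyneg]
    push_cast
    ring
  -- the integral part of `z (n + 1)`
  set b := y + A / z (r + 1) with hb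
  have hbint : v.G 0 b := by
    apply G_of_L hl
    have h6 : b ^ (2 ^ a) + b = f n + A / f (r + 1) := by
      rw [hb, hpow, div_eq_mul_inv A (f (r + 1)), hI2, div_pow, hAl, ← h4, inv_pow]
      field_simp
      ring
    rw [h6]
    exact hint
  have hsq : v.G 0 (y ^ 2 / f n) := by
    apply DV.G_of_le
    rw [v.ord_div (pow_ne_zero 2 hy0) hfn, v.ord_pow hy0, hfnord, ← hyord]
    push_cast
    nlinarith
  -- `1 / z p + 1 / f (p - 1)` is integral
  have hone : v.G 0 (A / z (r + 1) + A / f r) := by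
    have h1 : (z (r + 1)) ^ (2 ^ a) = z (r + 1) ^ 2 * z (r + 1) ^ (2 ^ a - 2) := by
      rw [← pow_add]
      congr 1
      omega
    have h6 : v.G 1 (z (r + 1) ^ (2 ^ a - 1)) := by
      have := (DV.G_of_le (v := v) hzpos).pow (2 ^ a - 1)
      refine this.mono ?_
      have : 1 ≤ 2 ^ a - 1 := by omega
      have : (1 : ℤ) ≤ ((2 ^ a - 1 : ℕ) : ℤ) := by exact_mod_cast this
      linarith
    have h7 : z (r + 1) ^ (2 ^ a - 1) = z (r + 1) * z (r + 1) ^ (2 ^ a - 2) := by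
      rw [← pow_succ']
      congr 1
      omega
    have h8 := DV.ord_add_of_lt (v := v) (one_ne_zero (α := F)) (b := z (r + 1) ^ (2 ^ a - 1))
      (by rw [v.ord_one]; exact h6)
    rw [v.ord_one] at h8
    have h9 : f r = z (r + 1) * (1 + z (r + 1) ^ (2 ^ a - 1)) := by
      rw [← hzr, h7, h1]; ring
    have h10 : A / z (r + 1) + A / f r = A * (z (r + 1) ^ (2 ^ a - 2) / (1 + z (r + 1) ^ (2 ^ a - 1))) := by
      rw [h9]
      have h8' := h8.1
      field_simp
      rw [h7]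
      linear_combination two
    rw [h10]
    refine (?_ : v.G (0 + 0) _)
    refine DV.G.mul (DV.G_of_le hAord.ge) ?_
    have h11 : v.G 0 ((1 + z (r + 1) ^ (2 ^ a - 1))⁻¹) := DV.G_of_le (by rw [v.ord_inv h8.1, h8.2]; simp)
    have h12 : v.G 0 (z (r + 1) ^ (2 ^ a - 2)) := by
      have := (DV.G_of_le (v := v) (by omega : (0 : ℤ) ≤ v.ord (z (r + 1)))).pow (2 ^ a - 2)
      rwa [mul_zero] at this
    have := h12.mul h11
    rwa [zero_add, ← div_eq_mul_inv] at this
  have hfin : v.G 0 (f (n + 1) + A / f r) := by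
    have h6 : f (n + 1) + A / f r = b + y ^ 2 / f n + (A / z (r + 1) + A / f r) := by
      rw [h5, hb]
      linear_combination (-(A / z (r + 1))) * two
    rw [h6]
    exact (hbint.add hsq).add hone
  rcases Nat.lt_or_ge r 2 with h2 | h2
  · left
    obtain rfl : r = 1 := by omega
    refine ⟨?_, rfl⟩
    have hBord : v.ord (A / f 1) = -(m : ℤ) := by
      rw [v.ord_div hAne hfr, hAord, T.f1, v.ord_pow T.w0, hw]
      ring
    have h7 := DV.ord_add_of_lt (div_ne_zero hAne hfr) (hfin.mono (by rw [hBord]; omega))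
    rw [← hBord, ← h7.2]
    congr 1
    linear_combination -(A / f 1) * two
  · right
    refine ⟨⟨by omega, by omega, hw, fun i h1 h3 => hfi i h1 (by omega), α, hα, hα0, ?_⟩, by omega⟩
    exact hfin

omit [Finite K] [Algebra K F] in
theorem up_R (ha : 1 ≤ a) (hm : 1 ≤ m) (hn : 1 ≤ n) (T : Tw a m w z f (n + 1))
    (h : v.ord (f n) = -(m * 2 ^ a : ℤ)) : v.ord (z (n + 1)) = -(m : ℤ) ∧ v.ord (f (n + 1)) = -(m : ℤ) := by
  have hl : 2 ≤ 2 ^ a := by
    calc 2 = 2 ^ 1 := (pow_one 2).symm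
      _ ≤ 2 ^ a := Nat.pow_le_pow_right (by norm_num) ha
  have hlZ : (2 : ℤ) ≤ 2 ^ a := by exact_mod_cast hl
  have h4 := T.hz n hn (by omega)
  have h5 := T.hf n hn (by omega)
  have hfn := T.f_ne n hn (by omega)
  have hfn' := T.f_ne (n + 1) (by omega) (by omega)
  have hy0 := T.z_ne hn (by omega : n < n + 1)
  have hmZ : (1 : ℤ) ≤ m := by exact_mod_cast hm
  have hyneg : v.ord (z (n + 1)) < 0 := by
    by_contra hlt
    push Not at hlt
    have h6 : v.G 0 (z (n + 1)) := DV.G_of_le hlt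
    have h7 : v.G 0 (f n) := by
      rw [← h4]
      refine DV.G.add ?_ h6
      have := h6.pow (2 ^ a)
      rwa [mul_zero] at this
    have h8 := h7.le hfn
    rw [h] at h8
    nlinarith
  have h6 : (2 ^ a : ℤ) * v.ord (z (n + 1)) = -(m * 2 ^ a : ℤ) := by
    rw [← h, ← h4, ord_L_neg hl hyneg]
    push_cast
    ring
  have h7 : v.ord (z (n + 1)) = -(m : ℤ) := by
    have : (2 ^ a : ℤ) * v.ord (z (n + 1)) = 2 ^ a * (-(m : ℤ)) := by linarith
    exact mul_left_cancel₀ (by positivity) this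
  refine ⟨h7, ?_⟩
  have h8 := congrArg v.ord h5
  rw [v.ord_mul _ _ hfn' hfn, v.ord_pow hy0, h7, h] at h8
  push_cast at h8
  linarith

omit [Finite K] [Algebra K F] in
/-- At a place with `ord w = 0` all `f i` and all `z i` are units. -/
theorem units_of_w (ha : 1 ≤ a) (T : Tw a m w z f n) (hw : v.ord w = 0) :
    (∀ i, 1 ≤ i → i ≤ n → v.ord (f i) = 0) ∧ ∀ i, 1 ≤ i → i < n → v.ord (z (i + 1)) = 0 := by
  have hl : 2 ≤ 2 ^ a := by
    calc 2 = 2 ^ 1 := (pow_one 2).symm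
      _ ≤ 2 ^ a := Nat.pow_le_pow_right (by norm_num) ha
  have key : ∀ i, 1 ≤ i → i ≤ n → v.ord (f i) = 0 := by
    intro i hi
    induction i, hi using Nat.le_induction with
    | base => intro _; rw [T.f1, v.ord_pow T.w0, hw, mul_zero]
    | succ i hi ih =>
      intro h
      have h4 := T.hz i hi (by omega)
      have h5 := T.hf i hi (by omega)
      have hf := T.f_ne i hi (by omega)
      have hf' := T.f_ne (i + 1) (by omega) h
      have h6 : v.ord (z (i + 1)) = 0 :=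
        ord_of_L_unit hl (by rw [h4]; exact hf) (by rw [h4]; exact ih (by omega))
      have h7 := congrArg v.ord h5
      rw [v.ord_mul _ _ hf' hf, v.ord_pow (T.z_ne hi (by omega)), h6, ih (by omega)] at h7
      simpa using h7
  refine ⟨key, fun i hi hn => ?_⟩
  have h4 := T.hz i hi hn
  have hf := T.f_ne i hi (by omega)
  exact ord_of_L_unit hl (by rw [h4]; exact hf) (by rw [h4]; exact key i hi (by omega))

omit [Finite K] [Algebra K F] in
/-- If `f i` and `f (i + 1)` are in the maximal ideal, so is `z (i + 1)`. -/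
theorem z_pos (ha : 1 ≤ a) (T : Tw a m w z f n) {i : ℕ} (hi : 1 ≤ i) (hn : i < n)
    (h2 : v.G 1 (f (i + 1))) : v.G 1 (z (i + 1)) := by
  have hl : 2 ≤ 2 ^ a := by
    calc 2 = 2 ^ 1 := (pow_one 2).symm
      _ ≤ 2 ^ a := Nat.pow_le_pow_right (by norm_num) ha
  have hzp := T.z_ne hi hn
  have hfp := T.f_ne (i + 1) (by omega) (by omega)
  have hI2 := T.I2 hi hn
  have hfpos := h2.le hfp
  by_contra hlt
  rw [DV.not_G hzp] at hlt
  have h6 : v.G 0 ((z (i + 1))⁻¹) := DV.G_of_le (by rw [v.ord_inv hzp]; omega)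
  have h7 : v.G 0 ((f (i + 1))⁻¹) := by
    rw [hI2]
    refine DV.G.add ?_ h6
    have := h6.pow (2 ^ a)
    rwa [mul_zero] at this
  have h8 := h7.le (inv_ne_zero hfp)
  rw [v.ord_inv hfp] at h8
  omega

/-- Middle type: `z p` is in the maximal ideal and `z (n + 1) + α ^ 2 / z p` is integral. -/
theorem TM_z (ha : 1 ≤ a) {p : ℕ} (T : Tw a m w z f (n + 1)) (h : TM K v a w f p n) :
    ∃ α : K, α ^ (2 ^ a) = α ∧ α ≠ 0 ∧ v.G 0 (f n + algebraMap K F (α ^ 2) / f p) ∧
      v.G 1 (z p) ∧ v.G 0 (z (n + 1) + algebraMap K F (α ^ 2) / z p) := by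
  obtain ⟨hp2, hpn, hw, hfi, α, hα, hα0, hint⟩ := h
  have hl : 2 ≤ 2 ^ a := by
    calc 2 = 2 ^ 1 := (pow_one 2).symm
      _ ≤ 2 ^ a := Nat.pow_le_pow_right (by norm_num) ha
  obtain ⟨r, rfl⟩ : ∃ r, p = r + 1 := ⟨p - 1, by omega⟩
  have hr1 : 1 ≤ r := by omega
  have h4 := T.hz n (by omega) (by omega)
  have hfp := T.f_ne (r + 1) (by omega) (by omega)
  have hzp := T.z_ne hr1 (by omega : r < n + 1)
  have hI2 := T.I2 hr1 (by omega : r < n + 1)
  refine ⟨α, hα, hα0, hint, z_pos ha T hr1 (by omega) (hfi (r + 1) (by omega) le_rfl), ?_⟩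
  set A := algebraMap K F (α ^ 2) with hA
  have hAl : A ^ (2 ^ a) = A := by
    rw [hA, ← map_pow, ← pow_mul, mul_comm, pow_mul, hα]
  have hpow : ∀ x y : F, (x + y) ^ (2 ^ a) = x ^ (2 ^ a) + y ^ (2 ^ a) := by
    intro x y
    haveI : Fact (Nat.Prime 2) := ⟨Nat.prime_two⟩
    exact add_pow_char_pow x y 2 a
  apply G_of_L hl
  have h6 : (z (n + 1) + A / z (r + 1)) ^ (2 ^ a) + (z (n + 1) + A / z (r + 1)) =
      f n + A / f (r + 1) := by
    rw [hpow, div_eq_mul_inv A (f (r + 1)), hI2, div_pow, hAl, ← h4, inv_pow]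
    field_simp
    ring
  rw [h6]
  exact hint

/-- Zero type: `z (n + 1)` is integral, and congruent to an element of the field of `2 ^ a` elements. -/
theorem TZ_z (ha : 1 ≤ a) (hn : 1 ≤ n) (T : Tw a m w z f (n + 1)) (h : TZ K v w f n) :
    v.G 0 (z (n + 1)) ∧ ∃ α : K, α ^ (2 ^ a) = α ∧ v.G 1 (z (n + 1) + algebraMap K F α) := by
  have hl : 2 ≤ 2 ^ a := by
    calc 2 = 2 ^ 1 := (pow_one 2).symm
      _ ≤ 2 ^ a := Nat.pow_le_pow_right (by norm_num) ha
  have two : (2 : F) = 0 := CharTwo.two_eq_zero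
  have h4 := T.hz n hn (by omega)
  have hfn := h.2.1 n hn le_rfl
  have hzint : v.G 0 (z (n + 1)) := G_of_L hl (by rw [h4]; exact hfn.mono (by omega))
  refine ⟨hzint, ?_⟩
  obtain ⟨ζ, hζ⟩ := h.2.2 _ hzint
  rw [CharTwo.sub_eq_add] at hζ
  refine ⟨ζ, ?_, hζ⟩
  set δ := z (n + 1) + algebraMap K F ζ with hδ
  have hpow : ∀ x y : F, (x + y) ^ (2 ^ a) = x ^ (2 ^ a) + y ^ (2 ^ a) := by
    intro x y
    haveI : Fact (Nat.Prime 2) := ⟨Nat.prime_two⟩
    exact add_pow_char_pow x y 2 a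
  have hLδ : δ ^ (2 ^ a) + δ = f n + algebraMap K F (ζ ^ (2 ^ a) + ζ) := by
    rw [hδ, hpow, map_add, map_pow]
    linear_combination h4
  have hδpos : v.G 1 (δ ^ (2 ^ a) + δ) := by
    refine DV.G.add ?_ hζ
    have := hζ.pow (2 ^ a)
    refine this.mono ?_
    push_cast
    have : (1 : ℤ) ≤ 2 ^ a := one_le_pow₀ (by norm_num)
    linarith
  have hζ0 : ζ ^ (2 ^ a) + ζ = 0 := by
    apply DV.eq_zero_of_G_one (v := v) (F := F)
    have : algebraMap K F (ζ ^ (2 ^ a) + ζ) = δ ^ (2 ^ a) + δ - f n := by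
      rw [hLδ]; ring
    rw [this]
    exact hδpos.sub hfn
  have hK2 : (2 : K) = 0 := by
    have : algebraMap K F 2 = 0 := by rw [map_ofNat]; exact two
    exact (map_eq_zero _).1 this
  linear_combination hζ0 - ζ * hK2

/-- Ramified type at the beginning of a level. -/
theorem TR_bot (h : v.ord (f n) = -(m : ℤ)) : TR v a m f n (⊥ : AddSubgroup K) := by
  have two : (2 : F) = 0 := CharTwo.two_eq_zero
  refine ⟨by rw [AddSubgroup.card_bot]; simpa using h, f n, AddMonoidHom.id K, h, fun x hx => hx, ?_, ?_⟩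
  · intro x hx
    simp
  · intro x hx
    refine ⟨0, Or.inl ?_⟩
    simp only [AddMonoidHom.id_apply]
    linear_combination (algebraMap K F x * f n) * two

end up

end Pool.Agent.FF
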