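import Pool.Agent.FF.Tower1
import Pool.Agent.FF.Flag
import Pool.Agent.FF.Over

/-! The double steps of the tower `z ^ l + z = f`, `l = 2 ^ a`, at one place. -/

set_option autoImplicit false

namespace Pool.Agent.FF

open Finset

/-- The data of the tower in one field: `w`, the `z i`, the `f i`, and the current element `s`. -/
@[ext] structure TD (K : Type*) where
  w : K
  z : ℕ → K
  f : ℕ → K
  s : K

section data

variable {K L : Type*} [Field K] [Field L]

/-- Image of the data under a ring homomorphism. -/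
def TD.map (φ : K →+* L) (x : TD K) : TD L := ⟨φ x.w, fun i => φ (x.z i), fun i => φ (x.f i), φ x.s⟩

/-- The generator of the double step at stage `(n, i)`. -/
def stepGen (c : ℕ → K) (a i : ℕ) (x : TD K) : K := x.s / c (a - 1 - i) ^ 2

/-- The data at stage `(n, i + 1)`, `y` being the root of `y ^ 2 + y = stepGen`. -/
def halfNext (c : ℕ → K) (a i : ℕ) (x : TD K) (y : K) : TD K := ⟨x.w, x.z, x.f, c (a - 1 - i) * y⟩

/-- From stage `(n, a)` to stage `(n + 1, 0)`, in the same field. -/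
def levelUp (a n : ℕ) (x : TD K) : TD K :=
  ⟨x.w, Function.update x.z (n + 1) x.s, Function.update x.f (n + 1) (x.s ^ (2 ^ a + 1) / x.f n),
    x.s ^ (2 ^ a + 1) / x.f n⟩

theorem map_stepGen (φ : K →+* L) (c : ℕ → K) (a i : ℕ) (x : TD K) :
    φ (stepGen c a i x) = stepGen (fun j => φ (c j)) a i (x.map φ) := by
  simp only [stepGen, TD.map]
  rw [map_div₀, map_pow]

theorem map_halfNext (φ : K →+* L) (c : ℕ → K) (a i : ℕ) (x : TD K) (y : K) :
    (halfNext c a i x y).map φ = halfNext (fun j => φ (c j)) a i (x.map φ) (φ y) := by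
  simp only [halfNext, TD.map]
  rw [map_mul]

theorem map_levelUp (φ : K →+* L) (a n : ℕ) (x : TD K) :
    (levelUp a n x).map φ = levelUp a n (x.map φ) := by
  simp only [levelUp, TD.map]
  refine TD.ext rfl ?_ ?_ ?_
  · funext i
    by_cases hi : i = n + 1
    · simp [hi]
    · simp [Function.update_of_ne hi]
  · funext i
    by_cases hi : i = n + 1
    · simp [hi]
    · simp [Function.update_of_ne hi]
  · simp

theorem TD.map_map {M : Type*} [Field M] (φ : K →+* L) (ψ : L →+* M) (x : TD K) :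
    (x.map φ).map ψ = x.map (ψ.comp φ) := rfl

end data

/-! ### Places in one double step -/

section ovr

variable {K K' : Type*} [Field K] [Field K'] [Algebra K K'] [CharP K 2] {f : K} (S : AS K K' f)

include S

/-- Unramified: `e = 1`. -/
theorem AS.over_unram {v : DV K} {w : DV K'} (hw : Over w v) {b : K} (hb : v.G 0 (f + (b ^ 2 + b)))
    (c : K) : w.ord (algebraMap K K' c) = v.ord c := by
  by_cases h : ∃ c' : K, v.G 0 c' ∧ v.G 1 (c' ^ 2 + c' + (f + (b ^ 2 + b)))
  · obtain ⟨c', -, h1⟩ := h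
    have h2 : v.G 1 (f + (b ^ 2 + b) + (c' ^ 2 + c')) := by
      rw [add_comm]; exact h1
    rcases ((S.shift b).shift c').splitDV_cases h2 hw with h3 | h3
    · rw [h3]; exact ((S.shift b).shift c').splitDV_map h2 c
    · rw [h3]; exact ((S.shift b).shift c').conj.splitDV_map h2 c
  · push Not at h
    rw [(S.shift b).inertDV_unique hb h hw]
    exact (S.shift b).inertDV_map hb h c

/-- Ramified places. -/
theorem AS.over_ram {v : DV K} {w : DV K'} (hw : Over w v) {m : ℕ} (hm : Odd m)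
    (hf : v.ord f = -(m : ℤ)) :
    w.ord S.y = -(m : ℤ) ∧ ∀ c : K, w.ord (algebraMap K K' c) = 2 * v.ord c := by
  obtain ⟨r, hr⟩ := hm
  have he : 1 ≤ r + 1 := by omega
  have hf' : v.ord f = 1 - 2 * ((r + 1 : ℕ) : ℤ) := by
    rw [hf, hr]; push_cast; ring
  rw [S.ramDV_unique he hf' hw]
  refine ⟨?_, fun c => S.ramDV_map he hf' c⟩
  have h1 : S.N S.y = f := by
    unfold AS.N
    rw [S.ab_y.1, S.ab_y.2]
    ring
  change v.ord (S.N S.y) = _
  rw [h1, hf]

/-- Split rational places. -/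
theorem AS.split_ratT {k : Type*} [Field k] [Algebra k K] [Algebra k K'] [IsScalarTower k K K']
    {v : DV K} (hv : v.Rat k) {b : k} (hb : v.G 1 (f + algebraMap k K (b ^ 2 + b))) :
    ∃ w₁ w₂ : DV K', w₁ ≠ w₂ ∧ (Over w₁ v ∧ Over w₂ v) ∧ (w₁.Rat k ∧ w₂.Rat k) ∧
      w₁.G 1 (S.y + algebraMap k K' b) ∧ w₂.G 1 (S.y + algebraMap k K' b + 1) ∧
      ((∀ c : K, w₁.ord (algebraMap K K' c) = v.ord c) ∧
        ∀ c : K, w₂.ord (algebraMap K K' c) = v.ord c) ∧
      ∀ w : DV K', Over w v → w = w₁ ∨ w = w₂ := by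
  have hb' : v.G 1 (f + ((algebraMap k K b) ^ 2 + algebraMap k K b)) := by
    rw [map_add, map_pow] at hb; exact hb
  set T := S.shift (algebraMap k K b) with hT
  have hTy : T.y = S.y + algebraMap k K' b := by
    rw [hT, S.shift_y, ← IsScalarTower.algebraMap_apply]
  have two := AS.two' K K'
  have rat : ∀ T : AS K K' (f + ((algebraMap k K b) ^ 2 + algebraMap k K b)),
      (T.splitDV hb').Rat k := by
    intro T x hx
    obtain ⟨c, hc, hc'⟩ := T.splitDV_residue hb' hx
    obtain ⟨d, hd⟩ := hv c hc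
    refine ⟨d, ?_⟩
    have h1 := ((T.splitDV_over hb').G_one_iff _).2 hd
    have h2 := hc'.add h1
    have h3 : x + algebraMap K K' c + algebraMap K K' (c - algebraMap k K d) =
        x - algebraMap k K' d := by
      rw [map_sub, ← IsScalarTower.algebraMap_apply]
      linear_combination (algebraMap K K' c) * two
    rwa [h3] at h2
  refine ⟨T.splitDV hb', T.conj.splitDV hb', T.splitDV_ne hb',
    ⟨T.splitDV_over hb', T.conj.splitDV_over hb'⟩, ⟨rat T, rat T.conj⟩, ?_, ?_,
    ⟨T.splitDV_map hb', T.conj.splitDV_map hb'⟩, fun w hw => T.splitDV_cases hb' hw⟩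
  · rw [← hTy]
    exact (T.splitDV_y hb').1
  · rw [← hTy]
    exact (T.conj.splitDV_y hb').1

end ovr

/-! ### The types of places -/

section types

variable {k K : Type*} [Field k] [Field K] [Algebra k K]

/-- Unit type. -/
def PU (v : DV K) (x : TD K) : Prop := v.ord x.w = 0 ∧ v.G 0 x.s

/-- Zero type. -/
def PZ (c : ℕ → k) (a n i : ℕ) (v : DV K) (x : TD K) : Prop :=
  TZ k v x.w x.f n ∧ ∃ α : k, α ^ (2 ^ a) = α ∧ v.G 1 (x.s + algebraMap k K (Lf c (a - i) α))

/-- Middle type `p`. -/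
def PM (c : ℕ → k) (a n i p : ℕ) (v : DV K) (x : TD K) : Prop :=
  2 ≤ p ∧ p < n ∧ v.ord x.w = 1 ∧ (∀ j, 1 ≤ j → j ≤ p → v.G 1 (x.f j)) ∧
    ∃ α : k, α ^ (2 ^ a) = α ∧ α ≠ 0 ∧ v.G 0 (x.f n + algebraMap k K (α ^ 2) / x.f p) ∧
      v.G 0 (x.s + Lf (fun j => algebraMap k K (c j)) (a - i) (algebraMap k K (α ^ 2) / x.z p))

/-- Ramified type. -/
def PB (m : ℕ) (v : DV K) (x : TD K) : Prop := v.ord x.s = -(m : ℤ)

end types

section step

variable {k K K' : Type*} [Field k] [Finite k] [CharP k 2] [Field K] [Field K'] [Algebra k K]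
  [Algebra k K'] [Algebra K K'] [IsScalarTower k K K'] [CharP K 2] {c : ℕ → k} {a m n i : ℕ} {x : TD K}

theorem half_eq (hc : c (a - 1 - i) ≠ 0)
    (S : AS K K' (stepGen (fun j => algebraMap k K (c j)) a i x)) :
    (algebraMap k K' (c (a - 1 - i)) * S.y) ^ 2 +
      algebraMap k K' (c (a - 1 - i)) * (algebraMap k K' (c (a - 1 - i)) * S.y) =
      algebraMap K K' x.s := by
  have h1 : x.s = algebraMap k K (c (a - 1 - i)) ^ 2 *
      stepGen (fun j => algebraMap k K (c j)) a i x := by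
    have h2 : algebraMap k K (c (a - 1 - i)) ≠ 0 := (map_ne_zero _).2 hc
    simp only [stepGen]
    field_simp
  conv_rhs => rw [h1]
  rw [map_mul, map_pow, ← IsScalarTower.algebraMap_apply, ← S.eq]
  ring

/-- integrality of the step generator modulo squares -/
theorem gen_G (hc : c (a - 1 - i) ≠ 0) {v : DV K} {r : ℤ} {b : K}
    (h : v.G r (x.s + (b ^ 2 + algebraMap k K (c (a - 1 - i)) * b))) :
    v.G r (stepGen (fun j => algebraMap k K (c j)) a i x +
      ((b / algebraMap k K (c (a - 1 - i))) ^ 2 + b / algebraMap k K (c (a - 1 - i)))) := by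
  have h2 : algebraMap k K (c (a - 1 - i)) ≠ 0 := (map_ne_zero _).2 hc
  have h1 : stepGen (fun j => algebraMap k K (c j)) a i x +
      ((b / algebraMap k K (c (a - 1 - i))) ^ 2 + b / algebraMap k K (c (a - 1 - i))) =
      algebraMap k K ((c (a - 1 - i) ^ 2)⁻¹) *
        (x.s + (b ^ 2 + algebraMap k K (c (a - 1 - i)) * b)) := by
    simp only [stepGen, map_inv₀, map_pow]
    field_simp
  rw [h1]
  exact h.const_mul _

theorem PU.half (hc : c (a - 1 - i) ≠ 0)
    (S : AS K K' (stepGen (fun j => algebraMap k K (c j)) a i x)) (h0 : x.w ≠ 0) {v : DV K}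
    {w : DV K'} (hw : Over w v) (h : PU v x) :
    PU w (halfNext (fun j => algebraMap k K' (c j)) a i (x.map (algebraMap K K')) S.y) := by
  constructor
  · obtain ⟨e, -, he⟩ := hw
    change w.ord (algebraMap K K' x.w) = 0
    rw [he _ h0, h.1, mul_zero]
  · exact G_zero_of_quadratic (half_eq hc S) (w.G_algebraMap _) ((hw.G_zero_iff _).2 h.2)

omit [IsScalarTower k K K'] [Algebra k K'] [Field K'] [Algebra K K'] [CharP K 2] in
theorem PB.gen (hc : c (a - 1 - i) ≠ 0) (hm : 1 ≤ m) {v : DV K} (h : PB m v x) :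
    v.ord (stepGen (fun j => algebraMap k K (c j)) a i x) = -(m : ℤ) := by
  have hs : x.s ≠ 0 := by
    intro h0
    unfold PB at h
    rw [h0, v.ord_zero] at h
    omega
  have h2 : algebraMap k K (c (a - 1 - i)) ≠ 0 := (map_ne_zero _).2 hc
  simp only [stepGen]
  rw [v.ord_div hs (pow_ne_zero 2 h2), v.ord_pow h2, v.ord_algebraMap hc, h]
  ring

theorem PB.half (hc : c (a - 1 - i) ≠ 0) (hm : Odd m)
    (S : AS K K' (stepGen (fun j => algebraMap k K (c j)) a i x)) {v : DV K}
    {w : DV K'} (hw : Over w v) (h : PB m v x) :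
    PB m w (halfNext (fun j => algebraMap k K' (c j)) a i (x.map (algebraMap K K')) S.y) := by
  have h1 := (S.over_ram hw hm (h.gen hc hm.pos)).1
  change w.ord (algebraMap k K' (c (a - 1 - i)) * S.y) = _
  have h2 : S.y ≠ 0 := by
    intro h0
    rw [h0, w.ord_zero] at h1
    have := hm.pos
    omega
  rw [w.ord_mul _ _ ((map_ne_zero _).2 hc) h2, w.ord_algebraMap hc, h1, zero_add]

theorem Lf_succ' (hi : i < a) (d : ℕ → K) (y : K) :
    Lf d (a - i) y = Lf d (a - (i + 1)) y ^ 2 + d (a - 1 - i) * Lf d (a - (i + 1)) y := by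
  have h1 : a - i = a - (i + 1) + 1 := by omega
  have h2 : a - 1 - i = a - (i + 1) := by omega
  rw [h1, h2]
  rfl

theorem algebraMap_Lf (j : ℕ) (y : k) :
    algebraMap k K (Lf c j y) = Lf (fun j => algebraMap k K (c j)) j (algebraMap k K y) :=
  map_Lf (algebraMap k K) c j y

/-- A zero type place splits. -/
theorem PZ.half (hi : i < a) {cv : ℕ → k} (hcv : cv (a - 1 - i) ^ (2 ^ a) = cv (a - 1 - i))
    (hcv' : c (a - 1 - i) = Lf c (a - 1 - i) (cv (a - 1 - i))) (hc : c (a - 1 - i) ≠ 0)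
    (S : AS K K' (stepGen (fun j => algebraMap k K (c j)) a i x)) {v : DV K} (h : PZ c a n i v x) :
    ∃ w₁ w₂ : DV K', (∀ w : DV K', Over w v → w = w₁ ∨ w = w₂) ∧
      PZ c a n (i + 1) w₁
        (halfNext (fun j => algebraMap k K' (c j)) a i (x.map (algebraMap K K')) S.y) ∧
      PZ c a n (i + 1) w₂
        (halfNext (fun j => algebraMap k K' (c j)) a i (x.map (algebraMap K K')) S.y) ∧
      (Over w₁ v ∧ Over w₂ v) ∧
      (v.G 1 x.s → w₁.G 1
        (halfNext (fun j => algebraMap k K' (c j)) a i (x.map (algebraMap K K')) S.y).s) ∧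
      (v.G 1 x.s → ¬ w₂.G 1
        (halfNext (fun j => algebraMap k K' (c j)) a i (x.map (algebraMap K K')) S.y).s) ∧
      (¬ v.G 1 x.s → ¬ w₁.G 1
        (halfNext (fun j => algebraMap k K' (c j)) a i (x.map (algebraMap K K')) S.y).s ∧
         ¬ w₂.G 1
        (halfNext (fun j => algebraMap k K' (c j)) a i (x.map (algebraMap K K')) S.y).s) := by
  obtain ⟨hTZ, α, hα, hs⟩ := h
  have hr : a - 1 - i = a - (i + 1) := by omega
  set C := c (a - 1 - i) with hC
  have two := AS.two' K K'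
  have twok : (2 : k) = 0 := CharTwo.two_eq_zero
  have twoK : (2 : K) = 0 := CharTwo.two_eq_zero
  -- a choice of `α`, which is `0` when `s` is in the maximal ideal
  obtain ⟨β, hβ, hβs, hβ0⟩ : ∃ β : k, β ^ (2 ^ a) = β ∧
      v.G 1 (x.s + algebraMap k K (Lf c (a - i) β)) ∧ (v.G 1 x.s → Lf c (a - (i + 1)) β = 0) := by
    by_cases h0 : v.G 1 x.s
    · refine ⟨0, zero_pow (by positivity), ?_, fun _ => ?_⟩
      · have h1 : ∀ j, Lf c j 0 = 0 := by
          intro j
          induction j with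
          | zero => rfl
          | succ j ih => simp only [Lf]; rw [ih]; ring
        rw [h1, map_zero, add_zero]
        exact h0
      · have h1 : ∀ j, Lf c j 0 = 0 := by
          intro j
          induction j with
          | zero => rfl
          | succ j ih => simp only [Lf]; rw [ih]; ring
        exact h1 _
    · exact ⟨α, hα, hs, fun h => absurd h h0⟩
  set ρ := Lf c (a - (i + 1)) β with hρ
  have hb : v.G 1 (stepGen (fun j => algebraMap k K (c j)) a i x +
      algebraMap k K ((ρ / C) ^ 2 + ρ / C)) := by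
    have h1 := gen_G (x := x) (i := i) (a := a) hc (v := v) (r := 1) (b := algebraMap k K ρ) (by
      rw [Lf_succ' hi, ← hρ, map_add, map_mul, map_pow] at hβs
      exact hβs)
    rw [map_add, map_pow, map_div₀]
    exact h1
  obtain ⟨w₁, w₂, hne, hov, hrat, hy1, hy2, hord, huniq⟩ := S.split_ratT hTZ.2.2 hb
  have hC0 : algebraMap k K' C ≠ 0 := (map_ne_zero _).2 hc
  have e1 : algebraMap k K' C * (S.y + algebraMap k K' (ρ / C)) =
      algebraMap k K' C * S.y + algebraMap k K' ρ := by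
    rw [map_div₀]
    field_simp
  have e2 : algebraMap k K' C * (S.y + algebraMap k K' (ρ / C) + 1) =
      algebraMap k K' C * S.y + algebraMap k K' (ρ + C) := by
    rw [map_div₀, map_add]
    field_simp
    ring
  have hs1 : w₁.G 1 (algebraMap k K' C * S.y + algebraMap k K' ρ) := by
    rw [← e1]; exact hy1.const_mul _
  have hs2 : w₂.G 1 (algebraMap k K' C * S.y + algebraMap k K' (ρ + C)) := by
    rw [← e2]; exact hy2.const_mul _
  have tz : ∀ w : DV K', Over w v → w.Rat k → (∀ c : K, w.ord (algebraMap K K' c) = v.ord c) →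
      TZ k w (algebraMap K K' x.w) (fun i => algebraMap K K' (x.f i)) n := by
    intro w hw hr ho
    refine ⟨by rw [ho]; exact hTZ.1, fun i h1 h2 => (hw.G_one_iff _).2 (hTZ.2.1 i h1 h2), hr⟩
  have hρC : Lf c (a - (i + 1)) (β + cv (a - 1 - i)) = ρ + C := by
    rw [Lf_add, ← hρ, ← hr, ← hcv']
  refine ⟨w₁, w₂, huniq, ⟨tz w₁ hov.1 hrat.1 hord.1, β, hβ, hs1⟩,
    ⟨tz w₂ hov.2 hrat.2 hord.2, β + cv (a - 1 - i), ?_, ?_⟩, hov, ?_, ?_, ?_⟩
  · haveI : Fact (Nat.Prime 2) := ⟨Nat.prime_two⟩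
    rw [add_pow_char_pow, hβ, hcv]
  · rw [hρC]
    exact hs2
  · intro h0
    have := hβ0 h0
    rw [this, map_zero, add_zero] at hs1
    exact hs1
  · intro h0 h3
    have := hβ0 h0
    rw [this, zero_add] at hs2
    change w₂.G 1 (algebraMap k K' C * S.y) at h3
    have h4 := h3.add hs2
    have h5 : algebraMap k K' C * S.y + (algebraMap k K' C * S.y + algebraMap k K' C) =
        algebraMap k K' C := by
      linear_combination (algebraMap k K' C * S.y) * two
    rw [h5] at h4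
    exact hc (DV.eq_zero_of_G_one h4)
  · intro h0
    have key : ∀ w : DV K', Over w v → ¬ w.G 1 (algebraMap k K' C * S.y) := by
      intro w hw h3
      apply h0
      rw [← hw.G_one_iff, ← half_eq hc S]
      have h4 : (algebraMap k K' C * S.y) ^ 2 + algebraMap k K' C * (algebraMap k K' C * S.y) =
          (algebraMap k K' C * S.y + algebraMap k K' C) * (algebraMap k K' C * S.y) := by ring
      rw [h4]
      have h5 := ((h3.mono (by norm_num : (0 : ℤ) ≤ 1)).add (w.G_algebraMap C)).mul h3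
      rwa [zero_add] at h5
    exact ⟨key w₁ hov.1, key w₂ hov.2⟩

/-- The shift at a middle type place. -/
theorem PM.gen (hi : i < a) (hc : c (a - 1 - i) ≠ 0) {p : ℕ} {v : DV K} (h : PM c a n i p v x) :
    ∃ b : K, v.G 0 (stepGen (fun j => algebraMap k K (c j)) a i x + (b ^ 2 + b)) := by
  obtain ⟨-, -, -, -, α, -, -, -, hs⟩ := h
  rw [Lf_succ' hi] at hs
  exact ⟨_, gen_G hc hs⟩

theorem PM.half (hi : i < a) (hc : c (a - 1 - i) ≠ 0) {p : ℕ}
    (S : AS K K' (stepGen (fun j => algebraMap k K (c j)) a i x)) {v : DV K}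
    {w : DV K'} (hw : Over w v) (h : PM c a n i p v x) :
    PM c a n (i + 1) p w
      (halfNext (fun j => algebraMap k K' (c j)) a i (x.map (algebraMap K K')) S.y) := by
  obtain ⟨b, hb⟩ := h.gen hi hc
  have hord := S.over_unram hw hb
  obtain ⟨h1, h2, h3, h4, α, hα, hα0, hf, hs⟩ := h
  have twoK : (2 : K) = 0 := CharTwo.two_eq_zero
  have two := AS.two' K K'
  refine ⟨h1, h2, by rw [← h3]; exact hord _, fun j h5 h6 => (hw.G_one_iff _).2 (h4 j h5 h6),
    α, hα, hα0, ?_, ?_⟩
  · have := (hw.G_zero_iff _).2 hf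
    rw [map_add, map_div₀, ← IsScalarTower.algebraMap_apply] at this
    exact this
  · set β := algebraMap k K (α ^ 2) / x.z p with hβ
    have e1 : algebraMap k K' (α ^ 2) / algebraMap K K' (x.z p) = algebraMap K K' β := by
      rw [hβ, map_div₀, ← IsScalarTower.algebraMap_apply]
    have e2 : Lf (fun j => algebraMap k K' (c j)) (a - (i + 1)) (algebraMap K K' β) =
        algebraMap K K' (Lf (fun j => algebraMap k K (c j)) (a - (i + 1)) β) := by
      rw [map_Lf]
      congr 1
      funext j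
      exact IsScalarTower.algebraMap_apply k K K' (c j)
    change w.G 0 (algebraMap k K' (c (a - 1 - i)) * S.y + Lf (fun j => algebraMap k K' (c j))
      (a - (i + 1)) (algebraMap k K' (α ^ 2) / algebraMap K K' (x.z p)))
    rw [e1, e2]
    set ρ := Lf (fun j => algebraMap k K (c j)) (a - (i + 1)) β with hρ
    refine G_zero_of_quadratic (b := algebraMap k K' (c (a - 1 - i)))
      (g := algebraMap K K' (x.s + Lf (fun j => algebraMap k K (c j)) (a - i) β)) ?_
      (w.G_algebraMap _) ((hw.G_zero_iff _).2 hs)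
    rw [Lf_succ' hi, ← hρ, map_add, map_add, map_mul, map_pow, ← IsScalarTower.algebraMap_apply,
      ← half_eq hc S]
    linear_combination (algebraMap k K' (c (a - 1 - i)) * S.y * algebraMap K K' ρ) * two

end step

/-! ### From one level to the next -/

section level

variable {k K : Type*} [Field k] [Finite k] [CharP k 2] [Field K] [Algebra k K] [CharP K 2]
  {c : ℕ → k} {a m n : ℕ} {x : TD K}

omit [Finite k] [CharP k 2] [CharP K 2] in
theorem Lf_top (hc : LfP c a = Polynomial.X ^ (2 ^ a) + Polynomial.X) (y : K) :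
    Lf (fun j => algebraMap k K (c j)) a y = y ^ (2 ^ a) + y := by
  rw [← aeval_LfP, hc]
  simp

omit [Finite k] [CharP k 2] [Algebra k K] [CharP K 2] in
theorem levelUp_tw (hn : 1 ≤ n) (T : Tw a m x.w x.z x.f n) (hs : x.s ^ (2 ^ a) + x.s = x.f n) :
    Tw a m (levelUp a n x).w (levelUp a n x).z (levelUp a n x).f (n + 1) := by
  have hz : ∀ i, i < n + 1 → (levelUp a n x).z i = x.z i := fun i hi => by
    simp only [levelUp]; rw [Function.update_of_ne (by omega)]
  have hf : ∀ i, i < n + 1 → (levelUp a n x).f i = x.f i := fun i hi => by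
    simp only [levelUp]; rw [Function.update_of_ne (by omega)]
  have hz' : (levelUp a n x).z (n + 1) = x.s := by simp [levelUp]
  have hf' : (levelUp a n x).f (n + 1) = x.s ^ (2 ^ a + 1) / x.f n := by simp [levelUp]
  refine ⟨T.w0, by rw [hf 1 (by omega)]; exact T.f1, fun i h1 h2 => ?_, fun i h1 h2 => ?_⟩
  · rcases Nat.lt_succ_iff_lt_or_eq.1 h2 with h | h
    · rw [hz (i + 1) (by omega), hf i (by omega)]
      exact T.hz i h1 h
    · rw [h, hz', hf n (by omega)]
      exact hs
  · rcases Nat.lt_succ_iff_lt_or_eq.1 h2 with h | h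
    · rw [hz (i + 1) (by omega), hf i (by omega), hf (i + 1) (by omega)]
      exact T.hf i h1 h
    · rw [h, hz', hf n (by omega), hf', div_mul_cancel₀ _ (T.f_ne n hn le_rfl)]

omit [Finite k] [CharP k 2] in
theorem TM.toPM (hc : LfP c a = Polynomial.X ^ (2 ^ a) + Polynomial.X) (T : Tw a m x.w x.z x.f n)
    (hs : x.s = x.f n) {p : ℕ} {v : DV K} (h : TM k v a x.w x.f p n) : PM c a n 0 p v x := by
  obtain ⟨h1, h2, h3, h4, α, hα, hα0, hf⟩ := h
  refine ⟨h1, h2, h3, h4, α, hα, hα0, hf, ?_⟩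
  obtain ⟨r, rfl⟩ : ∃ r, p = r + 1 := ⟨p - 1, by omega⟩
  have hI2 := T.I2 (by omega : 1 ≤ r) (by omega : r < n)
  have hA : algebraMap k K (α ^ 2) ^ (2 ^ a) = algebraMap k K (α ^ 2) := by
    rw [← map_pow, ← pow_mul, mul_comm, pow_mul, hα]
  rw [Nat.sub_zero, Lf_top hc, hs]
  have e : (algebraMap k K (α ^ 2) / x.z (r + 1)) ^ (2 ^ a) + algebraMap k K (α ^ 2) / x.z (r + 1) =
      algebraMap k K (α ^ 2) / x.f (r + 1) := by
    rw [div_eq_mul_inv _ (x.f (r + 1)), hI2, div_pow, hA, div_eq_mul_inv, div_eq_mul_inv, inv_pow]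
    ring
  rw [e]
  exact hf

omit [Finite k] [CharP k 2] [Algebra k K] in
theorem PU.up (ha : 1 ≤ a) (hn : 1 ≤ n) (T : Tw a m x.w x.z x.f n)
    (hs : x.s ^ (2 ^ a) + x.s = x.f n) {v : DV K} (h : PU v x) : PU v (levelUp a n x) := by
  have T' := levelUp_tw hn T hs
  have h1 := (units_of_w ha T' (v := v) h.1).1 (n + 1) (by omega) le_rfl
  refine ⟨h.1, ?_⟩
  have h2 : (levelUp a n x).s = (levelUp a n x).f (n + 1) := by simp [levelUp]
  rw [h2]
  exact DV.G_of_le h1.ge

omit [CharP k 2] in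
theorem TZ.levelUp (hn : 1 ≤ n) {v : DV K} (h : TZ k v x.w x.f n) :
    TZ k v (levelUp a n x).w (levelUp a n x).f n := by
  refine ⟨h.1, fun i h1 h2 => ?_, h.2.2⟩
  have : (Pool.Agent.FF.levelUp a n x).f i = x.f i := by
    simp only [Pool.Agent.FF.levelUp]; rw [Function.update_of_ne (by omega)]
  rw [this]
  exact h.2.1 i h1 h2

theorem PZ.up (hc : LfP c a = Polynomial.X ^ (2 ^ a) + Polynomial.X) (ha : 1 ≤ a) (hn : 1 ≤ n)
    (T : Tw a m x.w x.z x.f n) (hs : x.s ^ (2 ^ a) + x.s = x.f n) {v : DV K}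
    (h : PZ c a n a v x) (h0 : v.G 1 x.s) :
    PZ c a (n + 1) 0 v (levelUp a n x) ∧ v.G 1 (levelUp a n x).s := by
  have T' := levelUp_tw hn T hs
  have hz' : (levelUp a n x).z (n + 1) = x.s := by simp [levelUp]
  have h1 := up_Z ha hn T' (TZ.levelUp hn h.1) (by rw [hz']; exact h0)
  have h2 : (levelUp a n x).s = (levelUp a n x).f (n + 1) := by simp [levelUp]
  have h3 : v.G 1 (levelUp a n x).s := by rw [h2]; exact h1.2.1 (n + 1) (by omega) le_rfl
  refine ⟨⟨h1, 0, zero_pow (by positivity), ?_⟩, h3⟩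
  have h4 : ∀ j, Lf c j 0 = 0 := by
    intro j
    induction j with
    | zero => rfl
    | succ j ih => simp only [Lf]; rw [ih]; ring
  rw [h4, map_zero, add_zero]
  exact h3

theorem PZ.up' (hc : LfP c a = Polynomial.X ^ (2 ^ a) + Polynomial.X) (ha : 1 ≤ a) (hm : 1 ≤ m)
    (hn : 1 ≤ n) (T : Tw a m x.w x.z x.f n) (hs : x.s ^ (2 ^ a) + x.s = x.f n) {v : DV K}
    (h : PZ c a n a v x) (h0 : ¬ v.G 1 x.s) :
    PB m v (levelUp a n x) ∧ n = 1 ∨ PM c a (n + 1) 0 n v (levelUp a n x) ∧ 2 ≤ n := by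
  have T' := levelUp_tw hn T hs
  have hz' : (levelUp a n x).z (n + 1) = x.s := by simp [levelUp]
  have h2 : (levelUp a n x).s = (levelUp a n x).f (n + 1) := by simp [levelUp]
  rcases up_Z' ha hm hn T' (TZ.levelUp hn h.1) (by rw [hz']; exact h0) with h1 | h1
  · exact Or.inl ⟨by unfold PB; rw [h2]; exact h1.1, h1.2⟩
  · exact Or.inr ⟨TM.toPM hc T' h2 h1.1, h1.2⟩

theorem PM.up (hc : LfP c a = Polynomial.X ^ (2 ^ a) + Polynomial.X) (ha : 1 ≤ a) (hm : 1 ≤ m)
    (hn : 1 ≤ n) (T : Tw a m x.w x.z x.f n) (hs : x.s ^ (2 ^ a) + x.s = x.f n) {p : ℕ} {v : DV K}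
    (h : PM c a n a p v x) :
    PB m v (levelUp a n x) ∧ p = 2 ∨ PM c a (n + 1) 0 (p - 1) v (levelUp a n x) ∧ 3 ≤ p := by
  have T' := levelUp_tw hn T hs
  have hf : ∀ i, i < n + 1 → (levelUp a n x).f i = x.f i := fun i hi => by
    simp only [levelUp]; rw [Function.update_of_ne (by omega)]
  have h2 : (levelUp a n x).s = (levelUp a n x).f (n + 1) := by simp [levelUp]
  have hTM : TM k v a (levelUp a n x).w (levelUp a n x).f p n := by
    obtain ⟨g1, g2, g3, g4, α, hα, hα0, g5, -⟩ := h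
    exact ⟨g1, g2, g3, fun j h5 h6 => by rw [hf j (by omega)]; exact g4 j h5 h6, α, hα, hα0,
      by rw [hf n (by omega), hf p (by omega)]; exact g5⟩
  rcases up_M ha hm T' hTM with h1 | h1
  · exact Or.inl ⟨by unfold PB; rw [h2]; exact h1.1, h1.2⟩
  · exact Or.inr ⟨TM.toPM hc T' h2 h1.1, h1.2⟩

omit [Finite k] [CharP k 2] [Algebra k K] in
theorem PB.up (ha : 1 ≤ a) (hm : 1 ≤ m) (hn : 1 ≤ n)
    (T : Tw a m x.w x.z x.f n) (hs : x.s ^ (2 ^ a) + x.s = x.f n) {v : DV K}
    (h : PB m v x) : PB m v (levelUp a n x) := by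
  have T' := levelUp_tw hn T hs
  have hl : 2 ≤ 2 ^ a := by
    calc 2 = 2 ^ 1 := (pow_one 2).symm
      _ ≤ 2 ^ a := Nat.pow_le_pow_right (by norm_num) ha
  have hf : (levelUp a n x).f n = x.f n := by
    simp only [levelUp]; rw [Function.update_of_ne (by omega)]
  have h2 : (levelUp a n x).s = (levelUp a n x).f (n + 1) := by simp [levelUp]
  unfold PB at h
  have h3 := up_R (v := v) ha hm hn T' (by
    rw [hf, ← hs, ord_L_neg hl (by rw [h]; omega), h]
    push_cast
    ring)
  unfold PB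
  rw [h2]
  exact h3.2

end level

end Pool.Agent.FF
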