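import Pool.Agent.FF.Tower2
import Pool.Agent.FF.Dbl
import Pool.Agent.FF.RatCv

/-! The tower `z ^ l + z = f`, `l = 2 ^ a`: all places, with degrees. -/

set_option autoImplicit false

namespace Pool.Agent.FF

open Finset

section deg

variable {k K K' : Type*} [Field k] [Field K] [Field K'] [Algebra k K] [Algebra K K']

theorem DV.Rat.deg_eq [Finite k] {v : DV K} (hv : v.Rat k) : v.deg (Nat.card k) = 1 := by
  have h1 : Nat.card v.Res = Nat.card k := by
    refine Rat.card_res_of_repr (fun c : k => algebraMap k K c) (fun c => v.G_algebraMap c) ?_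
    intro a ha
    obtain ⟨c, hc⟩ := hv a ha
    refine ⟨c, hc, fun d hd => ?_⟩
    have h2 : v.G 1 (algebraMap k K (d - c)) := by
      have := hc.sub hd
      rw [map_sub]
      have e : a - algebraMap k K c - (a - algebraMap k K d) =
        algebraMap k K d - algebraMap k K c := by ring
      rwa [e] at this
    exact sub_eq_zero.1 (DV.eq_zero_of_G_one h2)
  unfold DV.deg
  rw [h1]
  have h2 : 1 < Nat.card k := Finite.one_lt_card
  have := Nat.log_pow h2 1
  rwa [pow_one] at this

theorem deg_of_card_eq {q : ℕ} {w : DV K'} {v : DV K} (h : Nat.card w.Res = Nat.card v.Res) :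
    w.deg q = v.deg q := by
  unfold DV.deg
  rw [h]

theorem deg_of_card_sq {q : ℕ} (hq : 2 ≤ q) {w : DV K'} {v : DV K}
    (hv : Nat.card v.Res = q ^ v.deg q) (h : Nat.card w.Res = Nat.card v.Res ^ 2) :
    w.deg q = 2 * v.deg q := by
  have h1 : w.deg q = Nat.log q (q ^ (v.deg q * 2)) := by
    rw [pow_mul, ← hv, ← h]
    rfl
  rw [h1, Nat.log_pow (by omega), mul_comm]

variable [CharP K 2] {f : K} (S : AS K K' f)

include S

/-- The places over an unramified place. -/
theorem AS.fib_unram {q : ℕ} (hq : 2 ≤ q) {v : DV K} (hv : Nat.card v.Res = q ^ v.deg q) {b : K}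
    (hb : v.G 0 (f + (b ^ 2 + b))) :
    ∃ F : Finset (DV K'), (∀ w, w ∈ F ↔ Over w v) ∧ ∑ w ∈ F, w.deg q ≤ 2 * v.deg q := by
  classical
  by_cases h : ∃ c' : K, v.G 0 c' ∧ v.G 1 (c' ^ 2 + c' + (f + (b ^ 2 + b)))
  · obtain ⟨c', -, h1⟩ := h
    have h2 : v.G 1 (f + (b ^ 2 + b) + (c' ^ 2 + c')) := by
      rw [add_comm]; exact h1
    set T := (S.shift b).shift c' with hT
    refine ⟨{T.splitDV h2, T.conj.splitDV h2}, fun w => ?_, ?_⟩
    · rw [mem_insert, mem_singleton]
      constructor
      · rintro (rfl | rfl)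
        · exact T.splitDV_over h2
        · exact T.conj.splitDV_over h2
      · intro hw
        exact T.splitDV_cases h2 hw
    · rw [sum_pair (T.splitDV_ne h2), deg_of_card_eq (splitDV_card_Res T h2),
        deg_of_card_eq (splitDV_card_Res T.conj h2)]
      omega
  · push Not at h
    refine ⟨{(S.shift b).inertDV hb h}, fun w => ?_, ?_⟩
    · rw [mem_singleton]
      constructor
      · rintro rfl
        exact (S.shift b).inertDV_over hb h
      · exact fun hw => (S.shift b).inertDV_unique hb h hw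
    · rw [sum_singleton, deg_of_card_sq hq hv (inertDV_card_Res (S.shift b) hb h)]

/-- The place over a ramified place. -/
theorem AS.fib_ram (q : ℕ) {v : DV K} {m : ℕ} (hm : Odd m) (hf : v.ord f = -(m : ℤ)) :
    ∃ w₀ : DV K', (∀ w, w = w₀ ↔ Over w v) ∧ w₀.deg q = v.deg q := by
  obtain ⟨r, hr⟩ := hm
  have he : 1 ≤ r + 1 := by omega
  have hf' : v.ord f = 1 - 2 * ((r + 1 : ℕ) : ℤ) := by
    rw [hf, hr]; push_cast; ring
  refine ⟨S.ramDV he hf', fun w => ⟨?_, fun hw => S.ramDV_unique he hf' hw⟩,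
    deg_of_card_eq (ramDV_card_Res S he hf')⟩
  rintro rfl
  exact S.ramDV_over he hf'

omit [CharP K 2] S in
/-- Rationality goes up when the residue field does not change. -/
theorem Rat_of_residue [Algebra k K'] [IsScalarTower k K K'] {v : DV K} (hv : v.Rat k) {w : DV K'}
    (hw : Over w v) (h : ∀ x : K', w.G 0 x → ∃ c : K, v.G 0 c ∧ w.G 1 (x + algebraMap K K' c)) :
    w.Rat k := by
  intro x hx
  obtain ⟨c, hc, hc'⟩ := h x hx
  obtain ⟨d, hd⟩ := hv (-c) (hc.neg)
  refine ⟨d, ?_⟩
  have h1 := (hw.G_one_iff _).2 hd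
  have h2 := hc'.add h1
  have h3 : x + algebraMap K K' c + algebraMap K K' (-c - algebraMap k K d) =
      x - algebraMap k K' d := by
    rw [map_sub, map_neg, ← IsScalarTower.algebraMap_apply]
    ring
  rwa [h3] at h2

theorem AS.rat_ram [Algebra k K'] [IsScalarTower k K K'] {v : DV K} (hv : v.Rat k) {m : ℕ}
    (hm : Odd m) (hf : v.ord f = -(m : ℤ)) {w : DV K'} (hw : Over w v) : w.Rat k := by
  obtain ⟨r, hr⟩ := hm
  have he : 1 ≤ r + 1 := by omega
  have hf' : v.ord f = 1 - 2 * ((r + 1 : ℕ) : ℤ) := by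
    rw [hf, hr]; push_cast; ring
  rw [S.ramDV_unique he hf' hw]
  exact Rat_of_residue hv (S.ramDV_over he hf') fun x hx =>
    ⟨_, S.ramDV_residue he hf' hx⟩

omit [CharP K 2] S in
/-- All places over a finite set of places. -/
theorem exists_fibers (q N : ℕ) (A : Finset (DV K)) (h : ∀ v ∈ A, ∃ F : Finset (DV K'),
    (∀ w, w ∈ F ↔ Over w v) ∧ ∑ w ∈ F, w.deg q ≤ N * v.deg q) :
    ∃ A' : Finset (DV K'), (∀ w, w ∈ A' ↔ ∃ v ∈ A, Over w v) ∧
      ∑ w ∈ A', w.deg q ≤ N * ∑ v ∈ A, v.deg q := by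
  classical
  induction A using Finset.induction_on with
  | empty => exact ⟨∅, by simp, by simp⟩
  | insert v A hv ih =>
    obtain ⟨A', h1, h2⟩ := ih fun v' hv' => h v' (mem_insert_of_mem hv')
    obtain ⟨F, h3, h4⟩ := h v (mem_insert_self v A)
    have hdis : Disjoint F A' := by
      rw [disjoint_left]
      intro w hw hw'
      obtain ⟨v', hv', ho⟩ := (h1 w).1 hw'
      have := ((h3 w).1 hw).unique ho
      rw [this] at hv
      exact hv hv'
    refine ⟨F ∪ A', fun w => ?_, ?_⟩
    · rw [mem_union, h3, h1]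
      constructor
      · rintro (h5 | ⟨v', h5, h6⟩)
        · exact ⟨v, mem_insert_self _ _, h5⟩
        · exact ⟨v', mem_insert_of_mem h5, h6⟩
      · rintro ⟨v', h5, h6⟩
        rcases mem_insert.1 h5 with h7 | h7
        · left; rw [← h7]; exact h6
        · exact Or.inr ⟨v', h7, h6⟩
    · rw [sum_union hdis, sum_insert hv, mul_add]
      exact add_le_add h4 h2

end deg

end Pool.Agent.FF
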