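import Pool.Agent.FF.Tower3

/-! The tower `z ^ l + z = f`, `l = 2 ^ a`: the invariant and its propagation. -/

set_option autoImplicit false

namespace Pool.Agent.FF

open Finset

section inv

variable {k : Type*} [Field k]

/-- The places of the field at stage `(n, i)` of the tower: the rational place `v₀` where everything
vanishes, the finite sets `Z` (zero type), `T p` (middle type `p`), `B` (ramified), all others being of
unit type. -/
structure Plc {K : Type*} [Field K] [Algebra k K] (c : ℕ → k) (a m n i : ℕ) (x : TD K) (v₀ : DV K)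
    (Z : Finset (DV K)) (T : ℕ → Finset (DV K)) (B : Finset (DV K)) : Prop where
  cover : ∀ v, PU v x ∨ v = v₀ ∨ v ∈ Z ∨ (∃ p, v ∈ T p) ∨ v ∈ B
  v₀Z : PZ c a n i v₀ x ∧ v₀.G 1 x.s
  hZ : ∀ v ∈ Z, PZ c a n i v x ∧ ¬ v.G 1 x.s
  Zc : Z.card + 1 ≤ 2 ^ i
  hT : ∀ p, ∀ v ∈ T p, PM c a n i p v x
  Tc : ∀ p, ∑ v ∈ T p, v.deg (Nat.card k) ≤ (2 ^ a - 1) * (2 ^ a) ^ ((n - p - 1) / 2) * 2 ^ i
  Tp : ∀ p, (n + p) % 2 = 0 → T p = ∅
  hB : ∀ v ∈ B, PB m v x
  Bc : ∑ v ∈ B, v.deg (Nat.card k) ≤ (2 ^ a) ^ (n / 2)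
  inf : ∃ v ∈ B, v.Rat k

/-- The invariant of the tower at stage `(n, i)`. -/
structure Inv {K : Type*} [Field K] [Algebra k K] (c : ℕ → k) (a m n i : ℕ) (x : TD K) : Prop where
  n1 : 1 ≤ n
  tw : Tw a m x.w x.z x.f n
  rf : Rf (fun j => algebraMap k K (c j)) a i x.s = x.f n
  plc : ∃ (v₀ : DV K) (Z : Finset (DV K)) (T : ℕ → Finset (DV K)) (B : Finset (DV K)),
    Plc c a m n i x v₀ Z T B

/-- The flag constants: `c j = L_j (v j)`, `v j` in the field with `2 ^ a` elements, `c j ≠ 0`,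
`L_a = X ^ (2 ^ a) + X`. -/
structure Flg (c : ℕ → k) (a : ℕ) : Prop where
  a1 : 1 ≤ a
  fl : ∃ cv : ℕ → k, (∀ j, j < a → cv j ^ (2 ^ a) = cv j) ∧ ∀ j, j < a → c j = Lf c j (cv j)
  ne : ∀ j, j < a → c j ≠ 0
  top : LfP c a = Polynomial.X ^ (2 ^ a) + Polynomial.X

variable [Finite k] [CharP k 2] {K K' : Type*} [Field K] [Field K'] [Algebra k K]
  [Algebra k K'] [Algebra K K'] [IsScalarTower k K K'] [CharP K 2] {c : ℕ → k} {a m n i : ℕ} {x : TD K}

theorem Inv.half (hF : Flg c a) (hm : Odd m) (hi : i < a)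
    (hres : ∀ v : DV K, Nat.card v.Res = Nat.card k ^ v.deg (Nat.card k))
    (h : Inv c a m n i x) (S : AS K K' (stepGen (fun j => algebraMap k K (c j)) a i x)) :
    Inv c a m n (i + 1)
      (halfNext (fun j => algebraMap k K' (c j)) a i (x.map (algebraMap K K')) S.y) := by
  classical
  have hq : 2 ≤ Nat.card k := Finite.one_lt_card
  obtain ⟨cv, hcv, hcv'⟩ := hF.fl
  have hc : c (a - 1 - i) ≠ 0 := hF.ne _ (by omega)
  have hw0 := h.tw.w0
  obtain ⟨v₀, Z, T, B, P⟩ := h.plc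
  refine ⟨h.n1, ⟨(map_ne_zero _).2 hw0, ?_, fun j h1 h2 => ?_, fun j h1 h2 => ?_⟩, ?_, ?_⟩
  · change algebraMap K K' (x.f 1) = (algebraMap K K' x.w) ^ m
    rw [h.tw.f1, map_pow]
  · change (algebraMap K K' (x.z (j + 1))) ^ (2 ^ a) + algebraMap K K' (x.z (j + 1)) =
      algebraMap K K' (x.f j)
    rw [← h.tw.hz j h1 h2, map_add, map_pow]
  · change algebraMap K K' (x.f (j + 1)) * algebraMap K K' (x.f j) =
      (algebraMap K K' (x.z (j + 1))) ^ (2 ^ a + 1)
    rw [← map_mul, h.tw.hf j h1 h2, map_pow]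
  · have h1 := half_eq hc S
    have h2 := congrArg (algebraMap K K') h.rf
    rw [map_Rf] at h2
    have e : (fun i => algebraMap K K' (algebraMap k K (c i))) = fun i => algebraMap k K' (c i) := by
      funext j
      exact (IsScalarTower.algebraMap_apply k K K' (c j)).symm
    rw [e] at h2
    change Rf (fun j => algebraMap k K' (c j)) a (i + 1) (algebraMap k K' (c (a - 1 - i)) * S.y) = _
    simp only [Rf]
    rw [h1]
    exact h2
  -- the places over the place `v₀`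
  obtain ⟨w₁, w₂, hu, hZ1, hZ2, ho, hs1, hs2, -⟩ := PZ.half hi (hcv _ (by omega)) (hcv' _ (by omega))
    hc S P.v₀Z.1
  -- the places over `Z`
  have hZf : ∀ v ∈ Z, ∃ F : Finset (DV K'), (∀ w, Over w v → w ∈ F) ∧ F.card ≤ 2 ∧
      ∀ w ∈ F, PZ c a n (i + 1) w
        (halfNext (fun j => algebraMap k K' (c j)) a i (x.map (algebraMap K K')) S.y) ∧
        ¬ w.G 1 (halfNext (fun j => algebraMap k K' (c j)) a i (x.map (algebraMap K K')) S.y).s := by
    intro v hv
    obtain ⟨u₁, u₂, g1, g2, g3, -, -, -, g4⟩ := PZ.half hi (hcv _ (by omega)) (hcv' _ (by omega))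
      hc S (P.hZ v hv).1
    refine ⟨{u₁, u₂}, fun w hw => ?_, card_le_two, fun w hw => ?_⟩
    · rw [mem_insert, mem_singleton]
      exact g1 w hw
    · rw [mem_insert, mem_singleton] at hw
      rcases hw with rfl | rfl
      · exact ⟨g2, (g4 (P.hZ v hv).2).1⟩
      · exact ⟨g3, (g4 (P.hZ v hv).2).2⟩
  choose! FZ hFZ1 hFZ2 hFZ3 using hZf
  -- the places over `T p`
  have hTf : ∀ p, ∃ A' : Finset (DV K'), (∀ w, w ∈ A' ↔ ∃ v ∈ T p, Over w v) ∧
      ∑ w ∈ A', w.deg (Nat.card k) ≤ 2 * ∑ v ∈ T p, v.deg (Nat.card k) := by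
    intro p
    refine exists_fibers _ _ _ fun v hv => ?_
    obtain ⟨b, hb⟩ := (P.hT p v hv).gen hi hc
    exact S.fib_unram hq (hres v) hb
  choose T' hT' hT'c using hTf
  -- the places over `B`
  have hBf : ∃ A' : Finset (DV K'), (∀ w, w ∈ A' ↔ ∃ v ∈ B, Over w v) ∧
      ∑ w ∈ A', w.deg (Nat.card k) ≤ 1 * ∑ v ∈ B, v.deg (Nat.card k) := by
    refine exists_fibers _ _ _ fun v hv => ?_
    obtain ⟨w₀, h1, h2⟩ := S.fib_ram (Nat.card k) hm ((P.hB v hv).gen hc hm.pos)
    refine ⟨{w₀}, fun w => by rw [mem_singleton]; exact h1 w, ?_⟩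
    rw [sum_singleton, h2, one_mul]
  obtain ⟨B', hB', hB'c⟩ := hBf
  refine ⟨w₁, insert w₂ (Z.biUnion FZ), T', B', ?_⟩
  constructor
  · intro w
    obtain ⟨v, hv⟩ := S.exists_over w
    rcases P.cover v with h1 | h1 | h1 | h1 | h1
    · exact Or.inl (h1.half hc S hw0 hv)
    · subst h1
      rcases hu w hv with h2 | h2
      · exact Or.inr (Or.inl h2)
      · exact Or.inr (Or.inr (Or.inl (by rw [h2]; exact mem_insert_self _ _)))
    · exact Or.inr (Or.inr (Or.inl (mem_insert_of_mem (mem_biUnion.2 ⟨v, h1, hFZ1 v h1 w hv⟩))))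
    · obtain ⟨p, hp⟩ := h1
      exact Or.inr (Or.inr (Or.inr (Or.inl ⟨p, (hT' p w).2 ⟨v, hp, hv⟩⟩)))
    · exact Or.inr (Or.inr (Or.inr (Or.inr ((hB' w).2 ⟨v, h1, hv⟩))))
  · exact ⟨hZ1, hs1 P.v₀Z.2⟩
  · intro w hw
    rcases mem_insert.1 hw with h1 | h1
    · rw [h1]
      exact ⟨hZ2, hs2 P.v₀Z.2⟩
    · obtain ⟨v, hv, hvw⟩ := mem_biUnion.1 h1
      exact hFZ3 v hv w hvw
  · have h1 := card_insert_le w₂ (Z.biUnion FZ)
    have h2 : (Z.biUnion FZ).card ≤ Z.card * 2 := card_biUnion_le_card_mul _ _ _ hFZ2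
    have h3 := P.Zc
    rw [pow_succ]
    omega
  · intro p w hw
    obtain ⟨v, hv, ho⟩ := (hT' p w).1 hw
    exact (P.hT p v hv).half hi hc S ho
  · intro p
    refine (hT'c p).trans ?_
    have := P.Tc p
    rw [pow_succ]
    calc 2 * ∑ v ∈ T p, v.deg (Nat.card k) ≤
        2 * ((2 ^ a - 1) * (2 ^ a) ^ ((n - p - 1) / 2) * 2 ^ i) := Nat.mul_le_mul_left 2 this
      _ = _ := by ring
  · intro p hp
    rw [eq_empty_iff_forall_notMem]
    intro w hw
    obtain ⟨v, hv, -⟩ := (hT' p w).1 hw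
    rw [P.Tp p hp] at hv
    simp at hv
  · intro w hw
    obtain ⟨v, hv, ho⟩ := (hB' w).1 hw
    exact (P.hB v hv).half hc hm S ho
  · refine hB'c.trans ?_
    rw [one_mul]
    exact P.Bc
  · obtain ⟨v, hv, hr⟩ := P.inf
    obtain ⟨w₀, h1, -⟩ := S.fib_ram (Nat.card k) hm ((P.hB v hv).gen hc hm.pos)
    have h2 := (h1 w₀).1 rfl
    exact ⟨w₀, (hB' w₀).2 ⟨v, hv, h2⟩, S.rat_ram hr hm ((P.hB v hv).gen hc hm.pos) h2⟩

omit [Finite k] [CharP k 2] [CharP K 2] in
theorem Inv.eq_top (hF : Flg c a) (h : Inv c a m n a x) : x.s ^ (2 ^ a) + x.s = x.f n := by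
  rw [← h.rf, Rf_self, Lf_top hF.top]

/-- From `(n, a)` to `(n + 1, 0)`. -/
theorem Inv.up (hF : Flg c a) (hm : Odd m) (h : Inv c a m n a x) :
    Inv c a m (n + 1) 0 (levelUp a n x) := by
  classical
  have hn := h.n1
  have hs := h.eq_top hF
  have T₀ := h.tw
  have hm1 := hm.pos
  have ha := hF.a1
  obtain ⟨v₀, Z, T, B, P⟩ := h.plc
  have hl : 2 ≤ 2 ^ a := by
    calc 2 = 2 ^ 1 := (pow_one 2).symm
      _ ≤ 2 ^ a := Nat.pow_le_pow_right (by norm_num) ha
  have hZdeg : ∑ v ∈ Z, v.deg (Nat.card k) ≤ 2 ^ a - 1 := by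
    have h1 : ∑ v ∈ Z, v.deg (Nat.card k) = ∑ v ∈ Z, 1 :=
      sum_congr rfl fun v hv => (P.hZ v hv).1.1.2.2.deg_eq
    rw [h1, sum_const, smul_eq_mul, mul_one]
    have := P.Zc
    omega
  have hTlt : ∀ p v, v ∈ T p → 2 ≤ p ∧ p < n := fun p v hv => ⟨(P.hT p v hv).1, (P.hT p v hv).2.1⟩
  have hTemp : ∀ p, ¬ (2 ≤ p ∧ p < n) → T p = ∅ := by
    intro p hp
    rw [eq_empty_iff_forall_notMem]
    exact fun v hv => hp (hTlt p v hv)
  refine ⟨by omega, levelUp_tw hn T₀ hs, ?_, v₀, ∅,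
    fun p => if p = n then (if 2 ≤ n then Z else ∅) else if 2 ≤ p then T (p + 1) else ∅,
    B ∪ ((if n = 1 then Z else ∅) ∪ T 2), ?_⟩
  · change (levelUp a n x).s = (levelUp a n x).f (n + 1)
    simp [levelUp]
  constructor
  · intro v
    rcases P.cover v with h1 | h1 | h1 | h1 | h1
    · exact Or.inl (h1.up ha hn T₀ hs)
    · exact Or.inr (Or.inl h1)
    · by_cases h2 : 2 ≤ n
      · refine Or.inr (Or.inr (Or.inr (Or.inl ⟨n, ?_⟩)))
        rw [if_pos rfl, if_pos h2]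
        exact h1
      · refine Or.inr (Or.inr (Or.inr (Or.inr ?_)))
        rw [mem_union, mem_union, if_pos (by omega)]
        exact Or.inr (Or.inl h1)
    · obtain ⟨p, hp⟩ := h1
      obtain ⟨h2, h3⟩ := hTlt p v hp
      by_cases h4 : p = 2
      · refine Or.inr (Or.inr (Or.inr (Or.inr ?_)))
        rw [mem_union, mem_union]
        subst h4
        exact Or.inr (Or.inr hp)
      · refine Or.inr (Or.inr (Or.inr (Or.inl ⟨p - 1, ?_⟩)))
        rw [if_neg (by omega), if_pos (by omega)]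
        have : p - 1 + 1 = p := by omega
        rw [this]
        exact hp
    · exact Or.inr (Or.inr (Or.inr (Or.inr (mem_union_left _ h1))))
  · exact PZ.up hF.top ha hn T₀ hs P.v₀Z.1 P.v₀Z.2
  · simp
  · simp
  · intro p v hv
    split_ifs at hv with h1 h2 h3
    · subst h1
      rcases PZ.up' hF.top ha hm1 hn T₀ hs (P.hZ v hv).1 (P.hZ v hv).2 with h4 | h4
      · omega
      · exact h4.1
    · simp at hv
    · rcases PM.up hF.top ha hm1 hn T₀ hs (P.hT _ v hv) with h4 | h4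
      · omega
      · exact h4.1
    · simp at hv
  · intro p
    split_ifs with h1 h2 h3
    · subst h1
      have h4 : (p + 1 - p - 1) / 2 = 0 := by omega
      rw [h4, pow_zero, pow_zero, mul_one, mul_one]
      exact hZdeg
    · simp
    · by_cases h4 : p + 1 < n
      · refine (P.Tc (p + 1)).trans (le_of_eq ?_)
        have h5 : (n + 1 - p - 1) / 2 = (n - (p + 1) - 1) / 2 + 1 := by omega
        rw [h5, pow_succ, pow_zero]
        ring
      · rw [hTemp (p + 1) (by omega)]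
        simp
    · simp
  · intro p hp
    split_ifs with h1 h2 h3
    · omega
    · rfl
    · exact P.Tp _ (by omega)
    · rfl
  · intro v hv
    rw [mem_union, mem_union] at hv
    rcases hv with h1 | h1 | h1
    · exact (P.hB v h1).up ha hm1 hn T₀ hs
    · split_ifs at h1 with h2
      · rcases PZ.up' hF.top ha hm1 hn T₀ hs (P.hZ v h1).1 (P.hZ v h1).2 with h4 | h4
        · exact h4.1
        · omega
      · simp at h1
    · rcases PM.up hF.top ha hm1 hn T₀ hs (P.hT _ v h1) with h4 | h4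
      · exact h4.1
      · omega
  · have hsum : ∑ v ∈ B ∪ ((if n = 1 then Z else ∅) ∪ T 2), v.deg (Nat.card k) ≤
        ∑ v ∈ B, v.deg (Nat.card k) + (∑ v ∈ (if n = 1 then Z else ∅), v.deg (Nat.card k) +
          ∑ v ∈ T 2, v.deg (Nat.card k)) := by
      have h1 : ∀ s t : Finset (DV K), ∑ v ∈ s ∪ t, v.deg (Nat.card k) ≤
          ∑ v ∈ s, v.deg (Nat.card k) + ∑ v ∈ t, v.deg (Nat.card k) := by
        intro s t
        rw [← sum_union_inter]
        exact Nat.le_add_right _ _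
      exact (h1 _ _).trans (Nat.add_le_add_left (h1 _ _) _)
    refine hsum.trans ?_
    have hB := P.Bc
    by_cases h1 : n = 1
    · rw [if_pos h1, hTemp 2 (by omega), sum_empty, add_zero]
      subst h1
      have e1 : 1 / 2 = 0 := by norm_num
      have e2 : (1 + 1) / 2 = 1 := by norm_num
      rw [e1, pow_zero] at hB
      rw [e2, pow_one]
      omega
    · rw [if_neg h1, sum_empty, zero_add]
      rcases Nat.even_or_odd' n with ⟨r, hr | hr⟩
      · rw [P.Tp 2 (by omega), sum_empty, add_zero]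
        have : (n + 1) / 2 = n / 2 := by omega
        rw [this]
        exact hB
      · have h2 := P.Tc 2
        have e1 : (n - 2 - 1) / 2 = r - 1 := by omega
        have e2 : n / 2 = r := by omega
        have e3 : (n + 1) / 2 = r + 1 := by omega
        rw [e1] at h2
        rw [e2] at hB
        rw [e3]
        have e4 : (2 ^ a - 1) * (2 ^ a) ^ (r - 1) * 2 ^ a = (2 ^ a - 1) * (2 ^ a) ^ r := by
          have : r = (r - 1) + 1 := by omega
          conv_rhs => rw [this, pow_succ]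
          ring
        rw [e4] at h2
        have e5 : (2 ^ a) ^ (r + 1) = (2 ^ a) ^ r + (2 ^ a - 1) * (2 ^ a) ^ r := by
          have : 2 ^ a = 1 + (2 ^ a - 1) := by omega
          rw [pow_succ]
          conv_lhs => rw [mul_comm]
          nth_rewrite 1 [this]
          ring
        rw [e5]
        exact add_le_add hB h2
  · obtain ⟨v, hv, hr⟩ := P.inf
    exact ⟨v, mem_union_left _ hv, hr⟩

end inv

end Pool.Agent.FF
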