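import Pool.Agent.FF.Tower4
import Pool.Agent.FF.Fiber

/-! The tower `z ^ l + z = f`, `l = 2 ^ a`: normal form of the step generator, the rational function
field, the completely split places. -/

set_option autoImplicit false

namespace Pool.Agent.FF

open Finset

section nf

variable {k : Type*} [Field k] [Finite k] [CharP k 2] {K : Type*} [Field K] [Algebra k K]
  [CharP K 2] {c : ℕ → k} {a m n i : ℕ} {x : TD K}

theorem gen_G0 (hc : c (a - 1 - i) ≠ 0) {v : DV K} {r : ℤ} (h : v.G r x.s) :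
    v.G r (stepGen (fun j => algebraMap k K (c j)) a i x + ((0 : K) ^ 2 + 0)) := by
  have := gen_G (x := x) (i := i) (a := a) hc (v := v) (r := r) (b := 0) (by simpa using h)
  simpa using this

theorem PZ.int {v : DV K} (h : PZ c a n i v x) : v.G 0 x.s := by
  obtain ⟨-, α, -, h1⟩ := h
  have h2 := (h1.mono (by norm_num : (0 : ℤ) ≤ 1)).sub (v.G_algebraMap (Lf c (a - i) α))
  rwa [add_sub_cancel_right] at h2

/-- The normal form of the step generator. -/
theorem Inv.nf (hF : Flg c a) (hm : Odd m) (hi : i < a) (h : Inv c a m n i x) :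
    ∃ (B : Finset (DV K)) (D : DV K → ℕ) (b : DV K → K),
      NF (stepGen (fun j => algebraMap k K (c j)) a i x) D b ∧
      (∀ v ∈ B, D v = (m + 1) / 2) ∧ (∀ v, v ∉ B → D v = 0) ∧
      ∑ v ∈ B, v.deg (Nat.card k) ≤ (2 ^ a) ^ (n / 2) ∧ ∃ v ∈ B, v.Rat k := by
  classical
  have hc : c (a - 1 - i) ≠ 0 := hF.ne _ (by omega)
  obtain ⟨v₀, Z, T, B, P⟩ := h.plc
  have hx : ∀ v : DV K, ∃ b : K, (v ∈ B → b = 0) ∧
      (v ∉ B → v.G 0 (stepGen (fun j => algebraMap k K (c j)) a i x + (b ^ 2 + b))) ∧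
      (b ≠ 0 → ∃ p, v ∈ T p) := by
    intro v
    by_cases hB : v ∈ B
    · exact ⟨0, fun _ => rfl, fun h => absurd hB h, fun h => absurd rfl h⟩
    rcases P.cover v with h1 | h1 | h1 | h1 | h1
    · exact ⟨0, fun _ => rfl, fun _ => gen_G0 hc h1.2, fun h => absurd rfl h⟩
    · subst h1
      exact ⟨0, fun _ => rfl, fun _ => gen_G0 hc P.v₀Z.1.int, fun h => absurd rfl h⟩
    · exact ⟨0, fun _ => rfl, fun _ => gen_G0 hc (P.hZ v h1).1.int, fun h => absurd rfl h⟩
    · obtain ⟨p, hp⟩ := h1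
      obtain ⟨b, hb⟩ := (P.hT p v hp).gen hi hc
      exact ⟨b, fun h => absurd h hB, fun _ => hb, fun _ => ⟨p, hp⟩⟩
    · exact absurd h1 hB
  choose b hb1 hb2 hb3 using hx
  have hm2 : 1 ≤ (m + 1) / 2 := by
    obtain ⟨r, hr⟩ := hm
    omega
  refine ⟨B, fun v => if v ∈ B then (m + 1) / 2 else 0, b, ⟨?_, ?_, ?_, ?_⟩, fun v hv => if_pos hv,
    fun v hv => if_neg hv, P.Bc, P.inf⟩
  · change Set.Finite {v : DV K | ¬ v.G 0 (b v)}
    refine ((range n).biUnion T).finite_toSet.subset fun v hv => ?_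
    have h1 : b v ≠ 0 := by
      intro h0
      apply hv
      rw [h0]
      exact DV.G_zero 0
    obtain ⟨p, hp⟩ := hb3 v h1
    rw [mem_coe, mem_biUnion]
    exact ⟨p, mem_range.2 (P.hT p v hp).2.1, hp⟩
  · refine B.finite_toSet.subset fun v hv => ?_
    by_contra h1
    exact hv (if_neg h1)
  · intro v hv
    by_cases h1 : v ∈ B
    · rw [if_pos h1] at hv
      omega
    · exact hb2 v h1
  · intro v hv
    by_cases h1 : v ∈ B
    · rw [if_pos h1, hb1 v h1]
      have h2 := (P.hB v h1).gen hc hm.pos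
      have h3 : stepGen (fun j => algebraMap k K (c j)) a i x + ((0 : K) ^ 2 + 0) =
          stepGen (fun j => algebraMap k K (c j)) a i x := by ring
      rw [h3, h2]
      obtain ⟨r, hr⟩ := hm
      have h4 : (m + 1) / 2 = r + 1 := by omega
      rw [h4, hr]
      push_cast
      ring
    · exact absurd (if_neg h1) hv

theorem Inv.irr (hF : Flg c a) (hm : Odd m) (hi : i < a) (h : Inv c a m n i x) (d : K) :
    d ^ 2 + d ≠ stepGen (fun j => algebraMap k K (c j)) a i x := by
  intro h0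
  have hc : c (a - 1 - i) ≠ 0 := hF.ne _ (by omega)
  obtain ⟨v₀, Z, T, B, P⟩ := h.plc
  obtain ⟨v, hv, -⟩ := P.inf
  have h1 := (P.hB v hv).gen hc hm.pos
  obtain ⟨r, hr⟩ := hm
  apply DV.not_odd_pole (v := v) (c := d) (e := r + 1) (by omega)
  rw [h0, h1, hr]
  push_cast
  ring

end nf

/-! ### The rational function field -/

section base

variable {k : Type*} [Field k] [Finite k] [CharP k 2]

/-- The data of the rational function field. -/
noncomputable def TD.base (k : Type*) [Field k] (m : ℕ) : TD (RatFunc k) :=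
  ⟨RatFunc.X, fun _ => 0, fun _ => RatFunc.X ^ m, RatFunc.X ^ m⟩

theorem Inv.base {c : ℕ → k} {a m : ℕ} (hF : Flg c a) (hm : Odd m) :
    Inv c a m 1 0 (TD.base k m) := by
  classical
  have hX : (RatFunc.X : RatFunc k) ≠ 0 := RatFunc.X_ne_zero
  refine ⟨le_rfl, ⟨hX, rfl, fun j h1 h2 => by omega, fun j h1 h2 => by omega⟩, rfl,
    Rat.pt 0, ∅, fun _ => ∅, {Rat.inf k}, ?_⟩
  have hpt : (Rat.pt (0 : k)).ord RatFunc.X = 1 := by
    have := Rat.pt_ord (0 : k)
    rwa [map_zero, sub_zero] at this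
  have hpt1 : (Rat.pt (0 : k)).G 1 ((RatFunc.X : RatFunc k) ^ m) := by
    apply DV.G_of_le
    rw [DV.ord_pow _ hX, hpt, mul_one]
    exact_mod_cast hm.pos
  constructor
  · intro v
    rcases lt_trichotomy (v.ord RatFunc.X) 0 with h1 | h1 | h1
    · refine Or.inr (Or.inr (Or.inr (Or.inr ?_)))
      rw [mem_singleton]
      exact Rat.eq_inf h1
    · left
      refine ⟨h1, DV.G_of_le ?_⟩
      change 0 ≤ v.ord (RatFunc.X ^ m)
      rw [v.ord_pow hX, h1, mul_zero]
    · refine Or.inr (Or.inl (Rat.eq_pt ?_))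
      rw [map_zero, sub_zero]
      exact DV.G_of_le h1
  · refine ⟨⟨⟨hpt, fun j _ _ => hpt1, Rat.pt_rat 0⟩, 0, zero_pow (by positivity), ?_⟩, hpt1⟩
    have h4 : ∀ j, Lf c j 0 = 0 := by
      intro j
      induction j with
      | zero => rfl
      | succ j ih => simp only [Lf]; rw [ih]; ring
    rw [h4, map_zero, add_zero]
    exact hpt1
  · simp
  · simp
  · simp
  · simp
  · simp
  · intro v hv
    rw [mem_singleton] at hv
    rw [hv]
    change (Rat.inf k).ord (RatFunc.X ^ m) = _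
    rw [DV.ord_pow _ hX, Rat.inf_X]
    ring
  · rw [sum_singleton, Rat.deg_inf]
    norm_num
  · exact ⟨Rat.inf k, mem_singleton_self _, Rat.inf_rat⟩

end base

end Pool.Agent.FF
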