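import Pool.Agent.FF.Tower5

/-! The tower `z ^ l + z = f`, `l = 2 ^ a`: the completely split places, `k` with `l ^ 2` elements. -/

set_option autoImplicit false

namespace Pool.Agent.FF

open Finset

section trace

variable {k : Type*} [Field k] [Finite k] [CharP k 2] {a : ℕ}

theorem pow_card_sq (hk : Nat.card k = (2 ^ a) ^ 2) (x : k) : (x ^ (2 ^ a)) ^ (2 ^ a) = x := by
  cases nonempty_fintype k
  rw [← pow_mul, ← sq, ← hk, Nat.card_eq_fintype_card]
  exact FiniteField.pow_card x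

/-- Surjectivity of the trace `x ↦ x ^ l + x` onto the field with `l` elements. -/
theorem exists_trace (ha : 1 ≤ a) (hk : Nat.card k = (2 ^ a) ^ 2) {t : k} (ht : t ^ (2 ^ a) = t) :
    ∃ x : k, x ^ (2 ^ a) + x = t := by
  classical
  cases nonempty_fintype k
  haveI : Fact (Nat.Prime 2) := ⟨Nat.prime_two⟩
  have h2 : (2 : k) = 0 := CharTwo.two_eq_zero
  have hl : 2 ≤ 2 ^ a := by
    calc 2 = 2 ^ 1 := (pow_one 2).symm
      _ ≤ 2 ^ a := Nat.pow_le_pow_right (by norm_num) ha
  have hk' : Fintype.card k = (2 ^ a) ^ 2 := by rw [← Nat.card_eq_fintype_card, hk]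
  set Fl : Finset k := univ.filter fun x : k => x ^ (2 ^ a) = x with hFl
  have hcard : Fl.card = 2 ^ a := card_fix hl hk'
  set I : Finset k := univ.image fun x : k => x ^ (2 ^ a) + x with hI
  have hsub : I ⊆ Fl := by
    intro y hy
    obtain ⟨x, -, rfl⟩ := mem_image.1 hy
    rw [hFl, mem_filter]
    refine ⟨mem_univ _, ?_⟩
    rw [add_pow_char_pow, pow_card_sq hk]
    ring
  have hfib : ∀ y ∈ I, (univ.filter fun x : k => x ^ (2 ^ a) + x = y).card ≤ 2 ^ a := by
    intro y hy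
    obtain ⟨x₀, -, hx₀⟩ := mem_image.1 hy
    refine le_trans (card_le_card_of_injOn (t := Fl) (fun x => x + x₀) ?_
      ((add_left_injective x₀).injOn)) hcard.le
    intro x hx
    have hx' : x ^ (2 ^ a) + x = y := by
      have : x ∈ univ.filter fun x : k => x ^ (2 ^ a) + x = y := hx
      exact (mem_filter.1 this).2
    change x + x₀ ∈ Fl
    rw [hFl, mem_filter]
    refine ⟨mem_univ _, ?_⟩
    rw [add_pow_char_pow]
    linear_combination hx' + hx₀ - (x + x₀) * h2 + y * h2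
  have hle : (univ : Finset k).card ≤ 2 ^ a * I.card :=
    card_le_mul_card_image _ _ hfib
  rw [card_univ, hk'] at hle
  have hIl : 2 ^ a ≤ I.card := by
    have : 2 ^ a * 2 ^ a ≤ 2 ^ a * I.card := by rw [← sq]; exact hle
    exact Nat.le_of_mul_le_mul_left this (by omega)
  have hIF : I = Fl := eq_of_subset_of_card_le hsub (by rw [hcard]; exact hIl)
  have ht' : t ∈ I := by
    rw [hIF, hFl, mem_filter]
    exact ⟨mem_univ _, ht⟩
  obtain ⟨x, -, hx⟩ := mem_image.1 ht'
  exact ⟨x, hx⟩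

end trace

section split

variable {k K K' : Type*} [Field k] [Finite k] [CharP k 2] [Field K] [Field K'] [Algebra k K]
  [Algebra k K'] [Algebra K K'] [IsScalarTower k K K'] [CharP K 2] {c : ℕ → k} {a m n i : ℕ} {x : TD K}

/-- Completely split places. -/
def PS (c : ℕ → k) (a n i : ℕ) (v : DV K) (x : TD K) : Prop :=
  v.Rat k ∧ ∃ ζ : k, ζ ^ (2 ^ a) + ζ ≠ 0 ∧ (ζ ^ (2 ^ a) + ζ) ^ (2 ^ a) = ζ ^ (2 ^ a) + ζ ∧
    v.G 1 (x.f n + algebraMap k K (ζ ^ (2 ^ a) + ζ)) ∧
    v.G 1 (x.s + algebraMap k K (Lf c (a - i) ζ))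

theorem PS.half (hF : Flg c a) (hi : i < a)
    (S : AS K K' (stepGen (fun j => algebraMap k K (c j)) a i x)) {v : DV K} (h : PS c a n i v x) :
    ∃ w₁ w₂ : DV K', w₁ ≠ w₂ ∧ (Over w₁ v ∧ Over w₂ v) ∧
      PS c a n (i + 1) w₁
        (halfNext (fun j => algebraMap k K' (c j)) a i (x.map (algebraMap K K')) S.y) ∧
      PS c a n (i + 1) w₂
        (halfNext (fun j => algebraMap k K' (c j)) a i (x.map (algebraMap K K')) S.y) := by
  obtain ⟨cv, hcv, hcv'⟩ := hF.fl
  obtain ⟨hv, ζ, hζ0, hζl, hf, hs⟩ := h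
  have hc : c (a - 1 - i) ≠ 0 := hF.ne _ (by omega)
  have hr : a - 1 - i = a - (i + 1) := by omega
  set C := c (a - 1 - i) with hC
  have two := AS.two' K K'
  have twok : (2 : k) = 0 := CharTwo.two_eq_zero
  set ρ := Lf c (a - (i + 1)) ζ with hρ
  have hb : v.G 1 (stepGen (fun j => algebraMap k K (c j)) a i x +
      algebraMap k K ((ρ / C) ^ 2 + ρ / C)) := by
    have h1 := gen_G (x := x) (i := i) (a := a) hc (v := v) (r := 1) (b := algebraMap k K ρ) (by
      rw [Lf_succ' hi, ← hρ, map_add, map_mul, map_pow] at hs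
      exact hs)
    rw [map_add, map_pow, map_div₀]
    exact h1
  obtain ⟨w₁, w₂, hne, hov, hrat, hy1, hy2, hord, huniq⟩ := S.split_ratT hv hb
  have hC0 : algebraMap k K' C ≠ 0 := (map_ne_zero _).2 hc
  have e1 : algebraMap k K' C * (S.y + algebraMap k K' (ρ / C)) =
      algebraMap k K' C * S.y + algebraMap k K' ρ := by
    rw [map_div₀]
    field_simp
  have e2 : algebraMap k K' C * (S.y + algebraMap k K' (ρ / C) + 1) =
      algebraMap k K' C * S.y + algebraMap k K' (ρ + C) := by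
    rw [map_div₀, map_add]
    field_simp
    ring
  have hs1 : w₁.G 1 (algebraMap k K' C * S.y + algebraMap k K' ρ) := by
    rw [← e1]; exact hy1.const_mul _
  have hs2 : w₂.G 1 (algebraMap k K' C * S.y + algebraMap k K' (ρ + C)) := by
    rw [← e2]; exact hy2.const_mul _
  have hρC : Lf c (a - (i + 1)) (ζ + cv (a - 1 - i)) = ρ + C := by
    rw [Lf_add, ← hρ, ← hr, ← hcv' _ (by omega)]
  have ff : ∀ w : DV K', Over w v → w.G 1 (algebraMap K K' (x.f n) +
      algebraMap k K' (ζ ^ (2 ^ a) + ζ)) := by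
    intro w hw
    have h1 := (hw.G_one_iff _).2 hf
    rw [map_add, ← IsScalarTower.algebraMap_apply] at h1
    exact h1
  have hζ' : (ζ + cv (a - 1 - i)) ^ (2 ^ a) + (ζ + cv (a - 1 - i)) = ζ ^ (2 ^ a) + ζ := by
    haveI : Fact (Nat.Prime 2) := ⟨Nat.prime_two⟩
    rw [add_pow_char_pow, hcv _ (by omega)]
    linear_combination (cv (a - 1 - i)) * twok
  refine ⟨w₁, w₂, hne, hov, ⟨hrat.1, ζ, hζ0, hζl, ff w₁ hov.1, hs1⟩,
    ⟨hrat.2, ζ + cv (a - 1 - i), ?_, ?_, ?_, ?_⟩⟩
  · rw [hζ']; exact hζ0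
  · rw [hζ']; exact hζl
  · rw [hζ']; exact ff w₂ hov.2
  · rw [hρC]
    exact hs2

omit [CharP K 2] in
theorem PS.up (hk : Nat.card k = (2 ^ a) ^ 2) (hF : Flg c a) {v : DV K} (h : PS c a n a v x) :
    PS c a (n + 1) 0 v (levelUp a n x) := by
  obtain ⟨hv, ζ, hζ0, hζl, hf, hs⟩ := h
  have ha := hF.a1
  have twok : (2 : k) = 0 := CharTwo.two_eq_zero
  have twoK : (2 : K) = 0 := by
    have : algebraMap k K 2 = 0 := by rw [twok, map_zero]
    rwa [map_ofNat] at this
  rw [Nat.sub_self] at hs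
  change v.G 1 (x.s + algebraMap k K ζ) at hs
  set τ := ζ ^ (2 ^ a) + ζ with hτ
  have hζne : ζ ≠ 0 := by
    rintro rfl
    apply hζ0
    rw [hτ, zero_pow (by positivity), add_zero]
  set τ' := ζ ^ (2 ^ a + 1) / τ with hτ'
  have hτ'0 : τ' ≠ 0 := div_ne_zero (pow_ne_zero _ hζne) hζ0
  have hτ'l : τ' ^ (2 ^ a) = τ' := by
    rw [hτ', div_pow, hζl, pow_succ ζ, mul_pow, pow_card_sq hk, mul_comm]
  obtain ⟨ζ', hζ'⟩ := exists_trace ha hk hτ'l
  have hfn : x.f n ≠ 0 := by
    intro h0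
    rw [h0, zero_add] at hf
    exact hζ0 (DV.eq_zero_of_G_one hf)
  have hford : v.ord (x.f n) = 0 := by
    have h1 := DV.ord_add_of_lt (v := v) (a := algebraMap k K τ) ((map_ne_zero _).2 hζ0)
      (b := x.f n + algebraMap k K τ) (by rw [v.ord_algebraMap hζ0, zero_add]; exact hf)
    rw [v.ord_algebraMap hζ0] at h1
    rw [← h1.2]
    congr 1
    linear_combination (-(algebraMap k K τ)) * twoK
  have hsint : v.G 0 x.s := by
    have h1 := (hs.mono (by norm_num : (0 : ℤ) ≤ 1)).sub (v.G_algebraMap ζ)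
    rwa [add_sub_cancel_right] at h1
  -- `s ^ N = ζ ^ N` modulo the maximal ideal
  have hpow : ∀ N : ℕ, v.G 1 (x.s ^ N + algebraMap k K (ζ ^ N)) := by
    intro N
    induction N with
    | zero =>
      rw [pow_zero, pow_zero, map_one]
      have : (1 : K) + 1 = 0 := by linear_combination twoK
      rw [this]
      exact DV.G_zero 1
    | succ N ih =>
      have h1 : x.s ^ (N + 1) + algebraMap k K (ζ ^ (N + 1)) =
          x.s * (x.s ^ N + algebraMap k K (ζ ^ N)) +
            algebraMap k K (ζ ^ N) * (x.s + algebraMap k K ζ) := by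
        rw [pow_succ ζ, map_mul]
        linear_combination (-(x.s * algebraMap k K (ζ ^ N))) * twoK
      rw [h1]
      have h2 := hsint.mul ih
      rw [zero_add] at h2
      exact h2.add (hs.const_mul _)
  have hnew : v.G 1 (x.s ^ (2 ^ a + 1) / x.f n + algebraMap k K τ') := by
    have hτK : algebraMap k K τ ≠ 0 := (map_ne_zero _).2 hζ0
    have h1 : x.s ^ (2 ^ a + 1) / x.f n + algebraMap k K τ' =
        (x.f n)⁻¹ * (algebraMap k K (τ⁻¹) *
          (algebraMap k K τ * (x.s ^ (2 ^ a + 1) + algebraMap k K (ζ ^ (2 ^ a + 1))) +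
            algebraMap k K (ζ ^ (2 ^ a + 1)) * (x.f n + algebraMap k K τ))) := by
      rw [hτ', map_div₀, map_inv₀]
      field_simp
      linear_combination (-(algebraMap k K τ * algebraMap k K (ζ ^ (2 ^ a + 1)))) * twoK
    rw [h1]
    have h2 : v.G 0 (x.f n)⁻¹ := DV.G_of_le (by rw [v.ord_inv hfn, hford]; simp)
    have h3 := h2.mul ((((hpow (2 ^ a + 1)).const_mul τ).add
      (hf.const_mul (ζ ^ (2 ^ a + 1)))).const_mul (τ⁻¹))
    rwa [zero_add] at h3
  refine ⟨hv, ζ', by rw [hζ']; exact hτ'0, by rw [hζ']; exact hτ'l, ?_, ?_⟩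
  · have h1 : (levelUp a n x).f (n + 1) = x.s ^ (2 ^ a + 1) / x.f n := by simp [levelUp]
    rw [h1, hζ']
    exact hnew
  · have h1 : Lf c (a - 0) ζ' = τ' := by
      rw [Nat.sub_zero, ← hζ', ← eval_LfP, hF.top]
      simp
    rw [h1]
    exact hnew

/-- At least `N` completely split places. -/
def InvS (c : ℕ → k) (a n i : ℕ) (x : TD K) (N : ℕ) : Prop :=
  ∃ T : Finset (DV K), N ≤ T.card ∧ ∀ v ∈ T, PS c a n i v x

theorem InvS.half (hF : Flg c a) (hi : i < a)
    (S : AS K K' (stepGen (fun j => algebraMap k K (c j)) a i x)) {N : ℕ} (h : InvS c a n i x N) :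
    InvS c a n (i + 1)
      (halfNext (fun j => algebraMap k K' (c j)) a i (x.map (algebraMap K K')) S.y) (2 * N) := by
  classical
  obtain ⟨T, hT, hT'⟩ := h
  have key : ∀ v ∈ T, ∃ F : Finset (DV K'), F.card = 2 ∧ ∀ w ∈ F, Over w v ∧ PS c a n (i + 1) w
      (halfNext (fun j => algebraMap k K' (c j)) a i (x.map (algebraMap K K')) S.y) := by
    intro v hv
    obtain ⟨w₁, w₂, hne, ho, h1, h2⟩ := (hT' v hv).half hF hi S
    refine ⟨{w₁, w₂}, card_pair hne, fun w hw => ?_⟩
    rw [mem_insert, mem_singleton] at hw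
    rcases hw with rfl | rfl
    · exact ⟨ho.1, h1⟩
    · exact ⟨ho.2, h2⟩
  choose! F hF1 hF2 using key
  refine ⟨T.biUnion F, ?_, fun w hw => ?_⟩
  · rw [card_biUnion]
    · rw [sum_congr rfl hF1, sum_const, smul_eq_mul]
      omega
    · intro v hv v' hv' hne
      change Disjoint (F v) (F v')
      rw [disjoint_left]
      intro w hw hw'
      exact hne ((hF2 v hv w hw).1.unique (hF2 v' hv' w hw').1)
  · obtain ⟨v, hv, hw⟩ := mem_biUnion.1 hw
    exact (hF2 v hv w hw).2

omit [CharP K 2] in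
theorem InvS.up (hk : Nat.card k = (2 ^ a) ^ 2) (hF : Flg c a) {N : ℕ} (h : InvS c a n a x N) :
    InvS c a (n + 1) 0 (levelUp a n x) N := by
  obtain ⟨T, hT, hT'⟩ := h
  exact ⟨T, hT, fun v hv => (hT' v hv).up hk hF⟩

theorem InvS.base {c : ℕ → k} {a m : ℕ} (hk : Nat.card k = (2 ^ a) ^ 2) (hF : Flg c a)
    (hm : m ∣ 2 ^ a + 1) : InvS c a 1 0 (TD.base k m) (m * (2 ^ a - 1)) := by
  classical
  cases nonempty_fintype k
  have ha := hF.a1
  have twok : (2 : k) = 0 := CharTwo.two_eq_zero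
  have hl : 2 ≤ 2 ^ a := by
    calc 2 = 2 ^ 1 := (pow_one 2).symm
      _ ≤ 2 ^ a := Nat.pow_le_pow_right (by norm_num) ha
  have hk' : Fintype.card k = (2 ^ a) ^ 2 := by rw [← Nat.card_eq_fintype_card, hk]
  have hdvd : m * (2 ^ a - 1) ∣ Fintype.card k - 1 := by
    have h1 : (2 ^ a) ^ 2 - 1 = (2 ^ a + 1) * (2 ^ a - 1) := by
      obtain ⟨r, hr⟩ : ∃ r, 2 ^ a = r + 1 := ⟨2 ^ a - 1, by omega⟩
      rw [hr, Nat.add_sub_cancel]
      have : (r + 1) ^ 2 = (r + 1 + 1) * r + 1 := by ring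
      omega
    rw [hk', h1]
    exact Nat.mul_dvd_mul_right hm _
  have hm0 : 0 < m := Nat.pos_of_dvd_of_pos hm (by omega)
  have hpos : 0 < m * (2 ^ a - 1) := Nat.mul_pos hm0 (by omega)
  refine ⟨(univ.filter fun b : k => b ^ (m * (2 ^ a - 1)) = 1).image Rat.pt, ?_, ?_⟩
  · rw [card_image_of_injective _ Rat.pt_injective, card_pow_eq_one hdvd]
  · intro v hv
    obtain ⟨b, hb, rfl⟩ := mem_image.1 hv
    have hb1 : b ^ (m * (2 ^ a - 1)) = 1 := (mem_filter.1 hb).2
    have hb0 : b ≠ 0 := by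
      rintro rfl
      rw [zero_pow hpos.ne'] at hb1
      exact zero_ne_one hb1
    have hbl : (b ^ m) ^ (2 ^ a) = b ^ m := by
      have : 2 ^ a = (2 ^ a - 1) + 1 := by omega
      rw [this, pow_succ, ← pow_mul, hb1, one_mul]
    obtain ⟨ζ, hζ⟩ := exists_trace ha hk hbl
    have hX : (Rat.pt b).G 1 ((RatFunc.X : RatFunc k) + algebraMap k (RatFunc k) b) := by
      have h1 := Rat.pt_ord b
      have h2 : (RatFunc.X : RatFunc k) + algebraMap k (RatFunc k) b =
          RatFunc.X - algebraMap k (RatFunc k) b := by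
        have : (2 : RatFunc k) = 0 := by
          have h3 : algebraMap k (RatFunc k) 2 = 0 := by rw [twok, map_zero]
          rwa [map_ofNat] at h3
        linear_combination (algebraMap k (RatFunc k) b) * this
      rw [h2]
      exact DV.G_of_le h1.ge
    have hXint : (Rat.pt b).G 0 (RatFunc.X : RatFunc k) := by
      have h1 := (hX.mono (by norm_num : (0 : ℤ) ≤ 1)).sub ((Rat.pt b).G_algebraMap b)
      rwa [add_sub_cancel_right] at h1
    have hpow : ∀ N : ℕ, (Rat.pt b).G 1 ((RatFunc.X : RatFunc k) ^ N +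
        algebraMap k (RatFunc k) (b ^ N)) := by
      have twoK : (2 : RatFunc k) = 0 := by
        have h3 : algebraMap k (RatFunc k) 2 = 0 := by rw [twok, map_zero]
        rwa [map_ofNat] at h3
      intro N
      induction N with
      | zero =>
        rw [pow_zero, pow_zero, map_one]
        have : (1 : RatFunc k) + 1 = 0 := by linear_combination twoK
        rw [this]
        exact DV.G_zero 1
      | succ N ih =>
        have h1 : (RatFunc.X : RatFunc k) ^ (N + 1) + algebraMap k (RatFunc k) (b ^ (N + 1)) =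
            RatFunc.X * (RatFunc.X ^ N + algebraMap k (RatFunc k) (b ^ N)) +
              algebraMap k (RatFunc k) (b ^ N) * (RatFunc.X + algebraMap k (RatFunc k) b) := by
          rw [pow_succ b, map_mul]
          linear_combination (-(RatFunc.X * algebraMap k (RatFunc k) (b ^ N))) * twoK
        rw [h1]
        have h2 := hXint.mul ih
        rw [zero_add] at h2
        exact h2.add (hX.const_mul _)
    refine ⟨Rat.pt_rat b, ζ, by rw [hζ]; exact pow_ne_zero m hb0, by rw [hζ]; exact hbl, ?_, ?_⟩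
    · rw [hζ]
      exact hpow m
    · have h1 : Lf c (a - 0) ζ = b ^ m := by
        rw [Nat.sub_zero, ← hζ, ← eval_LfP, hF.top]
        simp
      rw [h1]
      exact hpow m

end split

end Pool.Agent.FF
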