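import Pool.Agent.FF.Fiber
import Pool.Agent.FF.Bomb
import Pool.Agent.FF.ErDef

/-! The step in a double extension `K' = K + K y`: the total degree of the places whose degree divides
`r`, by Bombieri's bound for the places at which Frobenius acts as the conjugation `y ↦ y + 1`; and the
number of places of bounded degree. -/

set_option autoImplicit false
set_option linter.unusedSectionVars false

namespace Pool.Agent.FF

section general

variable {K : Type*} [Field K] {v : DV K}

theorem cong_mul {a a' b b' : K} (ha : v.G 1 (a - a')) (hb : v.G 1 (b - b'))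
    (hb0 : v.G 0 b) (ha0 : v.G 0 a') : v.G 1 (a * b - a' * b') := by
  have h : a * b - a' * b' = (a - a') * b + a' * (b - b') := by ring
  rw [h]
  exact ((ha.mul hb0).mono (by norm_num)).add ((ha0.mul hb).mono (by norm_num))

theorem G_pow0 {a : K} (ha : v.G 0 a) (n : ℕ) : v.G 0 (a ^ n) := by simpa using ha.pow n

theorem cong_pow {a a' : K} (ha : v.G 1 (a - a')) (h0 : v.G 0 a) (h0' : v.G 0 a')
    (n : ℕ) : v.G 1 (a ^ n - a' ^ n) := by
  induction n with
  | zero => simpa using DV.G_zero 1
  | succ n ih =>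
    rw [pow_succ, pow_succ]
    exact cong_mul ih ha h0 (G_pow0 h0' n)

theorem G1_mul {x y : K} (h : v.G 1 (x * y)) : v.G 1 x ∨ v.G 1 y := by
  by_contra hcon
  rw [not_or] at hcon
  have hx0 := DV.ne_zero_of_not_G hcon.1
  have hy0 := DV.ne_zero_of_not_G hcon.2
  have h1 := (DV.not_G hx0).1 hcon.1
  have h2 := (DV.not_G hy0).1 hcon.2
  have h3 := h.le (mul_ne_zero hx0 hy0)
  rw [v.ord_mul _ _ hx0 hy0] at h3
  omega

/-- The pull back of a valuation by an involution. -/
def DV.pull (w : DV K) (σ : K →+* K) (h : ∀ x, σ (σ x) = x) : DV K where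
  ord x := w.ord (σ x)
  ord_zero := by rw [map_zero, w.ord_zero]
  ord_mul a b ha hb := by
    rw [map_mul, w.ord_mul _ _ (by rwa [Ne, map_eq_zero]) (by rwa [Ne, map_eq_zero])]
  ord_add a b ha hb hab := by
    rw [map_add]
    refine w.ord_add _ _ (by rwa [Ne, map_eq_zero]) (by rwa [Ne, map_eq_zero]) ?_
    rw [← map_add]
    rwa [Ne, map_eq_zero]
  exists_one := by
    obtain ⟨t, ht, ht1⟩ := w.exists_one
    exact ⟨σ t, by rwa [Ne, map_eq_zero], by rw [h]; exact ht1⟩

theorem DV.pull_G (w : DV K) (σ : K →+* K) (h : ∀ x, σ (σ x) = x) (n : ℤ) (x : K) :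
    (w.pull σ h).G n x ↔ w.G n (σ x) := by
  unfold DV.G
  rw [map_eq_zero]
  rfl

end general

namespace AS

variable {K K' : Type*} [Field K] [Field K'] [Algebra K K'] [CharP K 2] {f : K} (S : AS K K' f)

/-- The conjugation. -/
noncomputable def sg : K' →+* K' where
  toFun x := algebraMap K K' (S.a x + S.b x) + algebraMap K K' (S.b x) * S.y
  map_zero' := by simp [S.ab_zero.1, S.ab_zero.2]
  map_one' := by simp [S.ab_one.1, S.ab_one.2]
  map_add' x y := by simp only [S.a_add, S.b_add, map_add]; ring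
  map_mul' x y := by
    rw [(S.ab_mul x y).1, (S.ab_mul x y).2]
    simp only [map_add, map_mul]
    linear_combination (-(algebraMap K K' (S.b x) * algebraMap K K' (S.b y))) * S.eq

theorem sg_apply (x : K') :
    S.sg x = algebraMap K K' (S.a x + S.b x) + algebraMap K K' (S.b x) * S.y := rfl

theorem sg_ab (x : K') : S.a (S.sg x) = S.a x + S.b x ∧ S.b (S.sg x) = S.b x := S.ab_eq rfl

theorem sg_sg (x : K') : S.sg (S.sg x) = x := by
  have h2 : (2 : K) = 0 := CharTwo.two_eq_zero
  rw [S.sg_apply, (S.sg_ab x).1, (S.sg_ab x).2]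
  have : S.a x + S.b x + S.b x = S.a x := by linear_combination (S.b x) * h2
  rw [this]
  exact (S.spec x).symm

theorem sg_map (c : K) : S.sg (algebraMap K K' c) = algebraMap K K' c := by
  rw [S.sg_apply, (S.ab_map c).1, (S.ab_map c).2]
  simp

theorem pull_over {w : DV K'} {v : DV K} (h : Over w v) : Over (w.pull S.sg S.sg_sg) v := by
  obtain ⟨e, he, h⟩ := h
  refine ⟨e, he, fun a ha => ?_⟩
  change w.ord (S.sg _) = _
  rw [S.sg_map]
  exact h a ha

/-- The conjugation preserves the spaces `L (n R')` of a place alone in its fibre. -/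
theorem sg_LR {R : DV K} {R' : DV K'} (hR' : Over R' R) (hu : ∀ w : DV K', Over w R → w = R') (n : ℕ)
    (x : K') (hx : x ∈ LR R' n) : S.sg x ∈ LR R' n := by
  refine ⟨?_, fun w hw => ?_⟩
  · rw [← R'.pull_G S.sg S.sg_sg, hu _ (S.pull_over hR')]
    exact hx.1
  · rw [← w.pull_G S.sg S.sg_sg]
    refine hx.2 _ fun h => hw ?_
    obtain ⟨v, hv⟩ := S.exists_over w
    have h1 := S.pull_over hv
    rw [h] at h1
    have h2 := h1.unique hR'
    rw [h2] at hv
    exact hu w hv

/-- The sum of the `2 ^ i`-th powers. -/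
def tr (g : K) (M : ℕ) : K := ∑ i ∈ Finset.range M, g ^ 2 ^ i

theorem tr_sq (g : K) (M : ℕ) : tr g M ^ 2 = ∑ i ∈ Finset.range M, g ^ 2 ^ (i + 1) := by
  unfold tr
  rw [CharTwo.sum_sq]
  exact Finset.sum_congr rfl fun i _ => by rw [← pow_mul, ← pow_succ]

theorem tr_eq (g : K) (M : ℕ) : tr g M ^ 2 + tr g M = g ^ 2 ^ M + g := by
  have h2 : (2 : K) = 0 := CharTwo.two_eq_zero
  induction M with
  | zero => simp only [tr, Finset.range_zero, Finset.sum_empty, pow_zero, pow_one]; linear_combination (-g) * h2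
  | succ M ih =>
    have h1 : tr g (M + 1) = tr g M + g ^ 2 ^ M := by
      unfold tr
      rw [Finset.sum_range_succ]
    rw [h1, pow_succ 2 M, pow_mul]
    linear_combination ih + (tr g M * g ^ 2 ^ M + g ^ 2 ^ M) * h2

theorem y_pow (M : ℕ) : S.y ^ 2 ^ M = S.y + algebraMap K K' (tr f M) := by
  have h2 := two' K K'
  induction M with
  | zero => simp [tr]
  | succ M ih =>
    have h1 : tr f (M + 1) = tr f M ^ 2 + f := by
      rw [tr_sq]
      unfold tr
      rw [Finset.sum_range_succ']
      simp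
    rw [pow_succ, pow_mul, ih, h1, map_add, map_pow]
    linear_combination S.eq + (S.y * algebraMap K K' (tr f M) - S.y) * h2

end AS

/-! ### The fibres -/

section fibres

variable {k K K' : Type*} [Field k] [Finite k] [Field K] [Field K'] [Algebra k K] [Algebra k K']
  [Algebra K K'] [CharP K 2] {f : K} (S : AS K K' f)

theorem Er_of_residue {v : DV K} {w : DV K'} (h : Over w v)
    (hr : ∀ x : K', w.G 0 x → ∃ a : K, v.G 0 a ∧ w.G 1 (x + algebraMap K K' a)) {r : ℕ}
    (hE : Er k v r) : Er k w r := by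
  have h2 := AS.two' K K'
  intro x hx
  obtain ⟨a, ha, hxa⟩ := hr x hx
  have e1 : x + algebraMap K K' a = x - algebraMap K K' a := by
    linear_combination (algebraMap K K' a) * h2
  rw [e1] at hxa
  have ha' := (h.G_zero_iff a).2 ha
  have h3 := cong_pow hxa hx ha' (Nat.card k ^ r)
  have h4 := (h.G_one_iff _).2 (hE a ha)
  rw [map_sub, map_pow] at h4
  have h5 := (h3.add h4).sub hxa
  have e2 : x ^ Nat.card k ^ r - algebraMap K K' a ^ Nat.card k ^ r +
      (algebraMap K K' a ^ Nat.card k ^ r - algebraMap K K' a) - (x - algebraMap K K' a) =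
      x ^ Nat.card k ^ r - x := by ring
  rwa [e2] at h5

/-- The places over an unramified place whose residue field is contained in the extension of degree
`r`: either of total degree `2 deg v` and with the same property, or one place of degree `2 deg v` at
which the Frobenius of order `r` is the conjugation. -/
theorem fibre_dich {v : DV K} (hv : v.resCard ≠ 0) {r M : ℕ} (hM : Nat.card k ^ r = 2 ^ M)
    (hE : Er k v r) {c : K} (hc : v.G 0 (f + (c ^ 2 + c))) :
    (∃ B : Finset (DV K'), (∀ w ∈ B, Over w v ∧ Er k w r) ∧ 2 * deg k v ≤ ∑ w ∈ B, deg k w) ∨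
    (∃ w : DV K', Over w v ∧ deg k w = 2 * deg k v ∧
      ∀ x : K', w.G 0 x → w.G 1 (x ^ (Nat.card k ^ r) - S.sg x)) := by
  classical
  have h2 := AS.two' K K'
  have hk2 : (2 : K) = 0 := CharTwo.two_eq_zero
  by_cases h : ∃ d : K, v.G 0 d ∧ v.G 1 (f + (c ^ 2 + c) + (d ^ 2 + d))
  · -- split
    left
    obtain ⟨d, -, hs⟩ := h
    rw [AS.shift_shift_f] at hs
    set T := S.shift (c + d) with hT
    refine ⟨{T.splitDV hs, T.conj.splitDV hs}, ?_, ?_⟩
    · intro w hw
      rw [Finset.mem_insert, Finset.mem_singleton] at hw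
      rcases hw with rfl | rfl
      · exact ⟨T.splitDV_over hs, Er_of_residue (T.splitDV_over hs)
          (fun x hx => T.splitDV_residue hs hx) hE⟩
      · exact ⟨T.conj.splitDV_over hs, Er_of_residue (T.conj.splitDV_over hs)
          (fun x hx => T.conj.splitDV_residue hs hx) hE⟩
    · rw [Finset.sum_pair (T.splitDV_ne hs), deg_of_eq (splitDV_resCard T hs),
        deg_of_eq (splitDV_resCard T.conj hs)]
      omega
  · -- inert
    push Not at h
    have hr' : ∀ d : K, v.G 0 d → ¬ v.G 1 (d ^ 2 + d + (f + (c ^ 2 + c))) := fun d hd h' =>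
      h d hd (by rwa [add_comm])
    obtain ⟨g, hg⟩ : ∃ g, g = f + (c ^ 2 + c) := ⟨_, rfl⟩
    rw [← hg] at hc h hr'
    obtain ⟨T, hTy, hTab⟩ : ∃ T : AS K K' g, T.y = S.y + algebraMap K K' c ∧
        ∀ x, T.a x = S.a x + S.b x * c ∧ T.b x = S.b x := by
      rw [hg]
      exact ⟨S.shift c, S.shift_y c, fun x => S.shift_ab c x⟩
    set w := T.inertDV hc hr' with hw
    have hwv : Over w v := T.inertDV_over hc hr'
    have hdeg : deg k w = 2 * deg k v := deg_of_sq (k := k) hv (inertDV_resCard T hc hr')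
    have hTg : v.G 0 (AS.tr g M) := G_sum _ _ fun i _ => G_pow0 hc _
    have h1 : v.G 1 (AS.tr g M * (AS.tr g M + 1)) := by
      have h3 : AS.tr g M * (AS.tr g M + 1) = g ^ Nat.card k ^ r - g := by
        rw [hM]
        linear_combination AS.tr_eq g M + g * hk2
      rw [h3]
      exact hE g hc
    -- the power of an integral element
    have key : ∀ x : K', w.G 0 x → w.G 1 (x ^ (Nat.card k ^ r) - (algebraMap K K' (T.a x) +
        algebraMap K K' (T.b x) * (T.y + algebraMap K K' (AS.tr g M)))) := by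
      intro x hx
      obtain ⟨ha, hb⟩ := (T.inertDV_G hc hr' 0 x).1 hx
      have hy : w.G 0 T.y := by
        rw [hw, T.inertDV_G hc hr', T.ab_y.1, T.ab_y.2]
        exact ⟨DV.G_zero _, DV.G_one⟩
      have e1 : x ^ (Nat.card k ^ r) = algebraMap K K' (T.a x) ^ (Nat.card k ^ r) +
          algebraMap K K' (T.b x) ^ (Nat.card k ^ r) * (T.y + algebraMap K K' (AS.tr g M)) := by
        have hch : CharP K' 2 := charP_of_injective_algebraMap (algebraMap K K').injective 2
        conv_lhs => rw [T.spec x]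
        rw [hM, add_pow_char_pow, mul_pow, T.y_pow]
      have ea := (hwv.G_one_iff _).2 (hE _ ha)
      have eb := (hwv.G_one_iff _).2 (hE _ hb)
      rw [map_sub, map_pow] at ea eb
      have hyT : w.G 0 (T.y + algebraMap K K' (AS.tr g M)) := hy.add ((hwv.G_zero_iff _).2 hTg)
      have e2 : x ^ (Nat.card k ^ r) - (algebraMap K K' (T.a x) +
          algebraMap K K' (T.b x) * (T.y + algebraMap K K' (AS.tr g M))) =
          (algebraMap K K' (T.a x) ^ (Nat.card k ^ r) - algebraMap K K' (T.a x)) +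
          (algebraMap K K' (T.b x) ^ (Nat.card k ^ r) - algebraMap K K' (T.b x)) *
            (T.y + algebraMap K K' (AS.tr g M)) := by
        rw [e1]; ring
      rw [e2]
      exact ea.add ((eb.mul hyT).mono (by norm_num))
    rcases G1_mul h1 with h3 | h3
    · left
      refine ⟨{w}, ?_, by rw [Finset.sum_singleton, hdeg]⟩
      intro w' hw'
      rw [Finset.mem_singleton] at hw'
      rw [hw']
      refine ⟨hwv, fun x hx => ?_⟩
      have h4 := key x hx
      obtain ⟨ha, hb⟩ := (T.inertDV_G hc hr' 0 x).1 hx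
      have h5 : w.G 1 (algebraMap K K' (T.b x) * algebraMap K K' (AS.tr g M)) :=
        (((hwv.G_zero_iff _).2 hb).mul ((hwv.G_one_iff _).2 h3)).mono (by norm_num)
      have h6 := h4.add h5
      have h7 : x ^ (Nat.card k ^ r) - (algebraMap K K' (T.a x) +
          algebraMap K K' (T.b x) * (T.y + algebraMap K K' (AS.tr g M))) +
          algebraMap K K' (T.b x) * algebraMap K K' (AS.tr g M) = x ^ (Nat.card k ^ r) - x := by
        linear_combination T.spec x
      rwa [h7] at h6
    · right
      refine ⟨w, hwv, hdeg, fun x hx => ?_⟩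
      have h4 := key x hx
      obtain ⟨ha, hb⟩ := (T.inertDV_G hc hr' 0 x).1 hx
      have h5 : w.G 1 (algebraMap K K' (T.b x) * algebraMap K K' (AS.tr g M + 1)) :=
        (((hwv.G_zero_iff _).2 hb).mul ((hwv.G_one_iff _).2 h3)).mono (by norm_num)
      have h6 := h4.add h5
      have h7 : x ^ (Nat.card k ^ r) - (algebraMap K K' (T.a x) +
          algebraMap K K' (T.b x) * (T.y + algebraMap K K' (AS.tr g M))) +
          algebraMap K K' (T.b x) * algebraMap K K' (AS.tr g M + 1) =
          x ^ (Nat.card k ^ r) - S.sg x := by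
        have h8 : S.sg x = algebraMap K K' (T.a x + T.b x) + algebraMap K K' (T.b x) * T.y := by
          rw [S.sg_apply, (hTab x).1, (hTab x).2, hTy]
          simp only [map_add, map_mul]
          linear_combination (-(algebraMap K K' (S.b x) * algebraMap K K' c)) * h2
        rw [h8]
        simp only [map_add, map_one]
        linear_combination (algebraMap K K' (T.b x)) * h2
      rwa [h7] at h6

/-- **The step.** -/
theorem Wt.double (S : AS K K' f) (hres : ∀ v : DV K, v.resCard ≠ 0) {r s e C ρ g' : ℕ}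
    (hs : s = 2 ^ e) (hsq : s ^ 2 = Nat.card k ^ r) {R : DV K} {R' : DV K'} (hR' : Over R' R)
    (hu : ∀ w : DV K', Over w R → w = R') (hram : ∀ c : K, ¬ R.G 0 (f + (c ^ 2 + c)))
    (hRR : RRone k (deg k) R' g') (hg : (g' + 1) * (g' + 2) ≤ s)
    (hρ : ∀ A : Finset (DV K), (∀ v ∈ A, ∀ c : K, ¬ v.G 0 (f + (c ^ 2 + c))) →
      ∑ v ∈ A, deg k v ≤ ρ)
    (h : Wt k K r s C) : Wt k K' r s (2 * C + 2 * ρ + 2 * g' + 1) := by
  classical
  have hch : CharP K' 2 := charP_of_injective_algebraMap (algebraMap K K').injective 2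
  have hM : Nat.card k ^ r = 2 ^ (e * 2) := by rw [← hsq, hs, pow_mul]
  obtain ⟨A, hA, hAs⟩ := h
  set U := A.filter (fun v => ∃ c : K, v.G 0 (f + (c ^ 2 + c))) with hU
  set V := A.filter (fun v => ¬ ∃ c : K, v.G 0 (f + (c ^ 2 + c))) with hV
  have hV1 : ∑ v ∈ V, deg k v ≤ ρ := hρ V fun v hv c hc => (Finset.mem_filter.1 hv).2 ⟨c, hc⟩
  have hUV : ∑ v ∈ U, deg k v + ∑ v ∈ V, deg k v = ∑ v ∈ A, deg k v :=
    Finset.sum_filter_add_sum_filter_not A _ _
  let good : DV K → Prop := fun v =>
    ∃ B : Finset (DV K'), (∀ w ∈ B, Over w v ∧ Er k w r) ∧ 2 * deg k v ≤ ∑ w ∈ B, deg k w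
  set U1 := U.filter good with hU1
  set U2 := U.filter (fun v => ¬ good v) with hU2
  have hUU : ∑ v ∈ U1, deg k v + ∑ v ∈ U2, deg k v = ∑ v ∈ U, deg k v :=
    Finset.sum_filter_add_sum_filter_not U _ _
  -- the good places
  have hgood : ∀ v : U1, good v := fun v => (Finset.mem_filter.1 v.2).2
  choose B hB1 hB2 using hgood
  set A' : Finset (DV K') := U1.attach.biUnion B with hA'
  have hA'sum : ∑ w ∈ A', deg k w = ∑ v ∈ U1.attach, ∑ w ∈ B v, deg k w := by
    rw [hA']
    refine Finset.sum_biUnion fun v _ v' _ hne => ?_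
    rw [Function.onFun, Finset.disjoint_left]
    intro w hw hw'
    exact hne (Subtype.ext ((hB1 v w hw).1.unique (hB1 v' w hw').1))
  have hA'1 : 2 * ∑ v ∈ U1, deg k v ≤ ∑ w ∈ A', deg k w := by
    rw [hA'sum, ← Finset.sum_attach U1 (fun v => deg k v), Finset.mul_sum]
    exact Finset.sum_le_sum fun v _ => hB2 v
  -- the bad places
  have hbad : ∀ v : U2, ∃ w : DV K', Over w v.1 ∧ deg k w = 2 * deg k v.1 ∧
      ∀ x : K', w.G 0 x → w.G 1 (x ^ (Nat.card k ^ r) - S.sg x) := by
    intro v
    obtain ⟨hv1, hv2⟩ := Finset.mem_filter.1 v.2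
    obtain ⟨hv3, c, hc⟩ := Finset.mem_filter.1 hv1
    rcases fibre_dich S (hres v.1) hM (hA _ hv3) hc with h | h
    · exact absurd h hv2
    · exact h
  choose w hw1 hw2 hw3 using hbad
  have hwinj : Function.Injective w := by
    intro v v' hvv
    have h1 := hw1 v
    rw [hvv] at h1
    exact Subtype.ext (h1.unique (hw1 v'))
  have hbomb := bombieri hRR S.sg (fun n x hx => S.sg_LR hR' hu n x hx) hs hg
    (U2.attach.image w) (by
      intro P hP
      obtain ⟨v, -, rfl⟩ := Finset.mem_image.1 hP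
      have hne : w v ≠ R' := by
        intro h1
        have h2 := hw1 v
        rw [h1] at h2
        have h3 := h2.unique hR'
        obtain ⟨hv1, hv2⟩ := Finset.mem_filter.1 v.2
        obtain ⟨hv3, c, hc⟩ := Finset.mem_filter.1 hv1
        rw [h3] at hc
        exact hram c hc
      refine ⟨hne, fun n x hx => ?_⟩
      rw [hsq]
      exact hw3 v x (hx.2 _ hne))
  rw [Finset.sum_image fun v _ v' _ h => hwinj h] at hbomb
  have hU2sum : ∑ v ∈ U2.attach, deg k (w v) = 2 * ∑ v ∈ U2, deg k v := by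
    rw [← Finset.sum_attach U2 (fun v => deg k v), Finset.mul_sum]
    exact Finset.sum_congr rfl fun v _ => hw2 v
  rw [hU2sum] at hbomb
  refine ⟨A', ?_, ?_⟩
  · intro w hw
    obtain ⟨v, -, hv⟩ := Finset.mem_biUnion.1 hw
    exact (hB1 v w hv).2
  · have hs1 : 1 ≤ s := by rw [hs]; exact Nat.one_le_two_pow
    have hρs : ρ ≤ ρ * s := Nat.le_mul_of_pos_right _ hs1
    have e1 : (2 * C + 2 * ρ + 2 * g' + 1) * s = 2 * (C * s) + 2 * (ρ * s) + (2 * g' + 1) * s := by ring
    rw [e1]
    omega

/-- The number of places of bounded degree at most doubles. -/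
theorem Few.double (hres : ∀ v : DV K, v.resCard ≠ 0) (S : AS K K' f) {D N : ℕ}
    (h : Few k K D N) : Few k K' D (2 * N) := by
  classical
  intro A hA
  choose p hp using fun w : DV K' => S.exists_over w
  have h1 : ∀ v ∈ A.image p, deg k v ≤ D := by
    intro v hv
    obtain ⟨w, hw, rfl⟩ := Finset.mem_image.1 hv
    refine le_trans ?_ (hA w hw)
    rcases S.over_resCard (DV.perf_of_res (hres (p w))) (hp w) with h2 | h2
    · rw [deg_of_eq h2]
    · rw [deg_of_sq (k := k) (hres (p w)) h2.1]; omega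
  have h2 := h _ h1
  calc A.card ≤ 2 * (A.image p).card := by
        refine Finset.card_le_mul_card_image A 2 fun v _ => ?_
        refine S.card_over_le (DV.perf_of_res (hres v)) _ fun w hw => ?_
        obtain ⟨-, hw2⟩ := Finset.mem_filter.1 hw
        rw [← hw2]
        exact hp w
    _ ≤ 2 * N := by omega

end fibres

end Pool.Agent.FF
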