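import Pool.Agent.FF.Bomb2
import Pool.Agent.FF.DegR

/-! The step for the places of degree dividing `r` in an unramified double extension in which a rational
place splits. -/

set_option autoImplicit false
set_option linter.unusedSectionVars false

namespace Pool.Agent.FF

section

variable {k K K' : Type*} [Field k] [Finite k] [Field K] [Field K'] [Algebra k K] [Algebra k K']
  [Algebra K K'] [CharP K 2] {f : K}

theorem AS.sg_y (S : AS K K' f) : S.sg S.y = S.y + 1 := by
  rw [S.sg_apply, S.ab_y.1, S.ab_y.2]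
  simp only [zero_add, map_one]
  ring

/-- The conjugation exchanges the two places over a split place, and the spaces `L (n R₁)`, `L (n R₂)`. -/
theorem AS.sg_LR_split (S : AS K K' f) {R : DV K} {R₁ R₂ : DV K'} {c : K} (h₁ : Over R₁ R)
    (hall : ∀ w : DV K', Over w R → w = R₁ ∨ w = R₂) (hy : R₁.G 1 (S.y + algebraMap K K' c))
    (n : ℕ) (x : K') (hx : x ∈ LR R₁ n) : S.sg x ∈ LR R₂ n := by
  have hpp : ∀ w : DV K', (w.pull S.sg S.sg_sg).pull S.sg S.sg_sg = w := by
    intro w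
    ext x
    change w.ord (S.sg (S.sg x)) = w.ord x
    rw [S.sg_sg]
  have h1 : R₁.pull S.sg S.sg_sg = R₂ := by
    rcases hall _ (S.pull_over h₁) with h | h
    · exfalso
      have h3 : (R₁.pull S.sg S.sg_sg).G 1 (S.y + algebraMap K K' c) := by rwa [h]
      rw [R₁.pull_G, map_add, S.sg_map, S.sg_y] at h3
      have h4 := h3.sub hy
      have h5 : S.y + 1 + algebraMap K K' c - (S.y + algebraMap K K' c) = 1 := by ring
      rw [h5] at h4
      have h6 := h4.le one_ne_zero
      rw [R₁.ord_one] at h6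
      omega
    · exact h
  have h2 : R₂.pull S.sg S.sg_sg = R₁ := by rw [← h1, hpp]
  refine ⟨?_, fun w hw => ?_⟩
  · rw [← R₂.pull_G S.sg S.sg_sg, h2]
    exact hx.1
  · rw [← w.pull_G S.sg S.sg_sg]
    refine hx.2 _ fun h => hw ?_
    rw [← hpp w, h, h1]

/-- **The step**, unramified. -/
theorem Wt.double₂ (S : AS K K' f) (hres : ∀ v : DV K, v.resCard ≠ 0) {r s e C g' : ℕ}
    (hs : s = 2 ^ e) (hsq : s ^ 2 = Nat.card k ^ r)
    (hunr : ∀ v : DV K, ∃ c : K, v.G 0 (f + (c ^ 2 + c)))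
    {R : DV K} {c : K} (hR : R.Rat k) (hsplit : R.G 1 (f + (c ^ 2 + c)))
    (hcv' : Cv k K' g') (hg : (g' + 1) * (g' + 2) ≤ s)
    (h : Wt k K r s C) : Wt k K' r s (2 * C + 2 * g' + 1) := by
  classical
  have hch : CharP K' 2 := charP_of_injective_algebraMap (algebraMap K K').injective 2
  have hM : Nat.card k ^ r = 2 ^ (e * 2) := by rw [← hsq, hs, pow_mul]
  obtain ⟨R₁, R₂, hne, hO₁, hO₂, hall, hd₁, hd₂, -, -, hy₁, -⟩ := S.split_places hsplit
  have hcR : R.resCard = Nat.card k := (rational_iff k R).2 hR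
  have hR₁ : R₁.Rat k := (rational_iff k R₁).1 (hd₁.trans hcR)
  have hR₂ : R₂.Rat k := (rational_iff k R₂).1 (hd₂.trans hcR)
  obtain ⟨A, hA, hAs⟩ := h
  let good : DV K → Prop := fun v =>
    ∃ B : Finset (DV K'), (∀ w ∈ B, Over w v ∧ Er k w r) ∧ 2 * deg k v ≤ ∑ w ∈ B, deg k w
  set U1 := A.filter good with hU1
  set U2 := A.filter (fun v => ¬ good v) with hU2
  have hUU : ∑ v ∈ U1, deg k v + ∑ v ∈ U2, deg k v = ∑ v ∈ A, deg k v :=
    Finset.sum_filter_add_sum_filter_not A _ _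
  -- the good places
  have hgood : ∀ v : U1, good v := fun v => (Finset.mem_filter.1 v.2).2
  choose B hB1 hB2 using hgood
  set A' : Finset (DV K') := U1.attach.biUnion B with hA'
  have hA'sum : ∑ w ∈ A', deg k w = ∑ v ∈ U1.attach, ∑ w ∈ B v, deg k w := by
    rw [hA']
    refine Finset.sum_biUnion fun v _ v' _ hne => ?_
    rw [Function.onFun, Finset.disjoint_left]
    intro w hw hw'
    exact hne (Subtype.ext ((hB1 v w hw).1.unique (hB1 v' w hw').1))
  have hA'1 : 2 * ∑ v ∈ U1, deg k v ≤ ∑ w ∈ A', deg k w := by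
    rw [hA'sum, ← Finset.sum_attach U1 (fun v => deg k v), Finset.mul_sum]
    exact Finset.sum_le_sum fun v _ => hB2 v
  -- the bad places
  have hbad : ∀ v : U2, ∃ w : DV K', Over w v.1 ∧ deg k w = 2 * deg k v.1 ∧
      ∀ x : K', w.G 0 x → w.G 1 (x ^ (Nat.card k ^ r) - S.sg x) := by
    intro v
    obtain ⟨hv1, hv2⟩ := Finset.mem_filter.1 v.2
    obtain ⟨c, hc⟩ := hunr v.1
    rcases fibre_dich S (hres v.1) hM (hA _ hv1) hc with h | h
    · exact absurd h hv2
    · exact h
  choose w hw1 hw2 hw3 using hbad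
  have hwinj : Function.Injective w := by
    intro v v' hvv
    have h1 := hw1 v
    rw [hvv] at h1
    exact Subtype.ext (h1.unique (hw1 v'))
  have hdR : deg k R = 1 := hR.deg_eq_one
  have hneR : ∀ v : U2, ∀ R' : DV K', Over R' R → deg k R' = 1 → w v ≠ R' := by
    intro v R' hR' hdR' h1
    have h2 := hw1 v
    rw [h1] at h2
    have h3 := h2.unique hR'
    have h4 := hw2 v
    rw [h1, hdR', h3, hdR] at h4
    omega
  have hdR₁ : deg k R₁ = 1 := hR₁.deg_eq_one
  have hdR₂ : deg k R₂ = 1 := hR₂.deg_eq_one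
  have hbomb := bombieri₂ (Ne.symm hne) hR₂ (hcv'.rrone hR₁) S.sg
    (fun n x hx => S.sg_LR_split hO₁ hall hy₁ n x hx) hs hg
    (U2.attach.image w) (by
      intro P hP
      obtain ⟨v, -, rfl⟩ := Finset.mem_image.1 hP
      refine ⟨hneR v R₁ hO₁ hdR₁, hneR v R₂ hO₂ hdR₂, fun n x hx => ?_⟩
      rw [hsq]
      exact hw3 v x (hx.2 _ (hneR v R₁ hO₁ hdR₁)))
  rw [Finset.sum_image fun v _ v' _ h => hwinj h] at hbomb
  have hU2sum : ∑ v ∈ U2.attach, deg k (w v) = 2 * ∑ v ∈ U2, deg k v := by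
    rw [← Finset.sum_attach U2 (fun v => deg k v), Finset.mul_sum]
    exact Finset.sum_congr rfl fun v _ => hw2 v
  rw [hU2sum] at hbomb
  refine ⟨A', ?_, ?_⟩
  · intro w hw
    obtain ⟨v, -, hv⟩ := Finset.mem_biUnion.1 hw
    exact (hB1 v w hv).2
  · have e1 : (2 * C + 2 * g' + 1) * s = 2 * (C * s) + (2 * g' + 1) * s := by ring
    rw [e1]
    omega

/-- Step: an unramified Artin–Schreier double cover in which a rational place splits. -/
theorem HasPl.up₀ {g g' : ℕ} (hcv : Cv k K g) (hcv' : Cv k K' g') (S : AS K K' f)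
    (hunr : ∀ v : DV K, ∃ c : K, v.G 0 (f + (c ^ 2 + c))) {R : DV K} (hR : R.Rat k) {c : K}
    (hsplit : R.G 1 (f + (c ^ 2 + c))) {B C M : ℕ} (h : HasPl k K B C M) :
    HasPl k K' (max B ((g' + 1) * (g' + 2))) (2 * C + 2 * g' + 1) (2 * M) where
  wt r s e hr hs hsq hBs := Wt.double₂ S hcv.resCard_ne hs hsq hunr hR hsplit hcv'
    ((le_max_right _ _).trans hBs) (h.wt r s e hr hs hsq ((le_max_left _ _).trans hBs))
  few E := by
    have h1 := Few.double (k := k) hcv.resCard_ne S (h.few E)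
    rwa [← mul_assoc] at h1

end

end Pool.Agent.FF
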